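import Pool.Agent.REPS.PkB

/-!
# ROW BAND (helper81): calculus of band limited functions
-/

open MeasureTheory Filter Topology Real Metric FourierTransform
open scoped ENNReal NNReal InnerProductSpace Pointwise

namespace REPS

open Helper77.TA

variable {V : Type*} [NormedAddCommGroup V] [InnerProductSpace ℝ V] [FiniteDimensional ℝ V]
  [MeasurableSpace V] [BorelSpace V]

theorem Band.mono {F : V → ℂ} {S T : Set V} (h : Band F S) (hST : S ⊆ T) : Band F T := by
  obtain ⟨a, h1, h2, h3, h4⟩ := h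
  exact ⟨a, h1, h2, fun ξ hξ => hST (h3 ξ hξ), h4⟩

theorem Band.cont {F : V → ℂ} {S : Set V} (h : Band F S) : Continuous F := by
  obtain ⟨a, h1, h2, h3, rfl⟩ := h
  exact continuous_fourierInv h1

theorem norm_fourierInv_le (a : V → ℂ) (x : V) : ‖𝓕⁻ a x‖ ≤ ∫ ξ, ‖a ξ‖ := by
  rw [Real.fourierInv_eq]
  refine (norm_integral_le_integral_norm _).trans ?_
  simp_rw [Circle.norm_smul]
  exact le_rfl

theorem Band.bdd {F : V → ℂ} {S : Set V} (h : Band F S) : ∃ C, ∀ x, ‖F x‖ ≤ C := by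
  obtain ⟨a, h1, h2, h3, rfl⟩ := h
  exact ⟨∫ ξ, ‖a ξ‖, fun x => norm_fourierInv_le a x⟩

theorem memLp_fourierInv {a : V → ℂ} (h1 : Integrable a) (h2 : MemLp a 2) :
    MemLp (𝓕⁻ a) 2 :=
  (memLp_congr_ae (fourierInv_toLp_ae h1 h2)).1 (Lp.memLp _)

theorem Band.memLp {F : V → ℂ} {S : Set V} (h : Band F S) : MemLp F 2 := by
  obtain ⟨a, h1, h2, h3, rfl⟩ := h
  exact memLp_fourierInv h1 h2

theorem Band.integrable_mul {F G : V → ℂ} {S T : Set V} (hF : Band F S) (hG : Band G T) :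
    Integrable (fun x => F x * G x) :=
  MemLp.integrable_mul hF.memLp hG.memLp

theorem continuous_char (x : V) : Continuous fun ξ : V => (𝐞 ⟪ξ, x⟫_ℝ : ℂ) := by
  simp only [Real.fourierChar_apply]
  fun_prop

theorem integrable_char_mul {c : V → ℂ} (hc : Integrable c) (x : V) :
    Integrable fun ξ => (𝐞 ⟪ξ, x⟫_ℝ : ℂ) * c ξ := by
  refine hc.norm.mono' ((continuous_char x).aestronglyMeasurable.mul hc.aestronglyMeasurable) ?_
  filter_upwards with ξ
  rw [norm_mul, Circle.norm_coe, one_mul]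

theorem fourierInv_add' {a b : V → ℂ} (ha : Integrable a) (hb : Integrable b) :
    𝓕⁻ (fun ξ => a ξ + b ξ) = fun x => 𝓕⁻ a x + 𝓕⁻ b x := by
  ext x
  simp only [Real.fourierInv_eq, Circle.smul_def, smul_eq_mul, mul_add]
  exact integral_add (integrable_char_mul ha x) (integrable_char_mul hb x)

theorem fourierInv_const_mul (c : ℂ) (a : V → ℂ) :
    𝓕⁻ (fun ξ => c * a ξ) = fun x => c * 𝓕⁻ a x := by
  ext x
  simp only [Real.fourierInv_eq, Circle.smul_def, smul_eq_mul]
  rw [← integral_const_mul]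
  congr 1
  ext ξ
  ring

theorem Band.add {F G : V → ℂ} {S : Set V} (hF : Band F S) (hG : Band G S) :
    Band (fun x => F x + G x) S := by
  obtain ⟨a, h1, h2, h3, rfl⟩ := hF
  obtain ⟨b, k1, k2, k3, rfl⟩ := hG
  refine ⟨fun ξ => a ξ + b ξ, h1.add k1, h2.add k2, fun ξ hξ => ?_, (fourierInv_add' h1 k1).symm⟩
  by_contra hn
  have e1 : a ξ = 0 := by by_contra h; exact hn (h3 ξ h)
  have e2 : b ξ = 0 := by by_contra h; exact hn (k3 ξ h)
  exact hξ (by simp [e1, e2])

theorem Band.zero (S : Set V) : Band (fun _ : V => (0 : ℂ)) S := by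
  refine ⟨fun _ => 0, integrable_zero _ _ _, MemLp.zero, fun ξ h => absurd rfl h, ?_⟩
  ext x
  simp [Real.fourierInv_eq]

theorem Band.sum {ι : Type*} (s : Finset ι) {F : ι → V → ℂ} {S : Set V}
    (hF : ∀ i ∈ s, Band (F i) S) : Band (fun x => ∑ i ∈ s, F i x) S := by
  classical
  induction s using Finset.induction_on with
  | empty => simpa using Band.zero S
  | insert i s hi ih =>
    simp only [Finset.sum_insert hi]
    exact (hF i (Finset.mem_insert_self i s)).add
      (ih fun j hj => hF j (Finset.mem_insert_of_mem hj))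

theorem Band.smul {F : V → ℂ} {S : Set V} (hF : Band F S) (c : ℂ) :
    Band (fun x => c * F x) S := by
  obtain ⟨a, h1, h2, h3, rfl⟩ := hF
  refine ⟨fun ξ => c * a ξ, h1.const_mul c, h2.const_mul c, fun ξ hξ => ?_,
    (fourierInv_const_mul c a).symm⟩
  exact h3 ξ (right_ne_zero_of_mul hξ)

theorem conj_fourierInv (a : V → ℂ) (x : V) :
    (starRingEnd ℂ) (𝓕⁻ a x) = 𝓕⁻ (fun ξ => (starRingEnd ℂ) (a (-ξ))) x := by
  rw [Real.fourierInv_eq, Real.fourierInv_eq, ← integral_conj,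
    ← integral_neg_eq_self (fun ξ => (starRingEnd ℂ) (𝐞 ⟪ξ, x⟫_ℝ • a ξ))]
  congr 1
  ext ξ
  simp only [Circle.smul_def, smul_eq_mul, map_mul, inner_neg_left]
  congr 1
  rw [← Circle.coe_inv_eq_conj, AddChar.map_neg_eq_inv, inv_inv]

theorem Band.conj {F : V → ℂ} {S : Set V} (hF : Band F S) :
    Band (fun x => (starRingEnd ℂ) (F x)) (-S) := by
  obtain ⟨a, h1, h2, h3, rfl⟩ := hF
  have hc : ∀ {c : V → ℂ}, AEStronglyMeasurable c volume →
      AEStronglyMeasurable (fun ξ => (starRingEnd ℂ) (c ξ)) volume := fun hc =>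
    Complex.continuous_conj.comp_aestronglyMeasurable hc
  refine ⟨fun ξ => (starRingEnd ℂ) (a (-ξ)), ?_, ?_, fun ξ hξ => ?_, ?_⟩
  · have k1 : Integrable (fun ξ => a (-ξ)) := h1.comp_neg
    refine k1.norm.mono' (hc k1.aestronglyMeasurable) ?_
    filter_upwards with ξ
    simp
  · have k2 : MemLp (fun ξ => a (-ξ)) 2 :=
      h2.comp_measurePreserving (Measure.measurePreserving_neg (volume : Measure V))
    refine (memLp_congr_norm (hc k2.aestronglyMeasurable) k2.aestronglyMeasurable ?_).2 k2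
    filter_upwards with ξ
    simp
  · rw [Set.mem_neg]
    apply h3
    intro h0
    exact hξ (by simp [h0])
  · ext x
    exact conj_fourierInv a x

/-- Convolution on the Fourier side. -/
theorem Band.mul {F G : V → ℂ} {S T : Set V} (hF : Band F S) (hG : Band G T) :
    Band (fun x => F x * G x) (S + T) := by
  obtain ⟨a, h1, h2, h3, rfl⟩ := hF
  obtain ⟨b, k1, k2, k3, rfl⟩ := hG
  set c : V → ℂ := convolution a b (ContinuousLinearMap.mul ℂ ℂ) volume with hc
  have hcdef : ∀ ξ, c ξ = ∫ η, a η * b (ξ - η) := fun ξ => rfl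
  have hci : Integrable c := h1.integrable_convolution (ContinuousLinearMap.mul ℂ ℂ) k1
  have hbd : ∀ ξ, ‖c ξ‖ ≤ (∫ η, ‖a η‖ ^ 2) + ∫ η, ‖b η‖ ^ 2 := by
    intro ξ
    have i1 : Integrable fun η => ‖a η‖ ^ 2 := (memLp_two_iff_integrable_sq_norm
      h1.aestronglyMeasurable).1 h2
    have i2 : Integrable fun η => ‖b η‖ ^ 2 := (memLp_two_iff_integrable_sq_norm
      k1.aestronglyMeasurable).1 k2
    have i3 : Integrable fun η => ‖b (ξ - η)‖ ^ 2 := i2.comp_sub_left ξ
    rw [hcdef]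
    refine (norm_integral_le_integral_norm _).trans ?_
    rw [← integral_sub_left_eq_self (fun η => ‖b η‖ ^ 2) volume ξ, ← integral_add i1 i3]
    refine integral_mono_of_nonneg (Filter.Eventually.of_forall fun _ => norm_nonneg _)
      (i1.add i3) (Filter.Eventually.of_forall fun η => ?_)
    simp only [norm_mul]
    nlinarith [sq_nonneg (‖a η‖ - ‖b (ξ - η)‖), norm_nonneg (a η), norm_nonneg (b (ξ - η))]
  refine ⟨c, hci, ?_, ?_, ?_⟩
  · rw [memLp_two_iff_integrable_sq_norm hci.aestronglyMeasurable]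
    refine (hci.norm.const_mul ((∫ η, ‖a η‖ ^ 2) + ∫ η, ‖b η‖ ^ 2)).mono'
      (hci.aestronglyMeasurable.norm.pow 2) ?_
    filter_upwards with ξ
    rw [Real.norm_of_nonneg (by positivity), pow_two]
    exact mul_le_mul_of_nonneg_right (hbd ξ) (norm_nonneg _)
  · intro ξ hξ
    by_contra hn
    apply hξ
    rw [hcdef]
    have : ∀ η, a η * b (ξ - η) = 0 := by
      intro η
      by_contra h0
      have e1 := h3 η (left_ne_zero_of_mul h0)
      have e2 := k3 (ξ - η) (right_ne_zero_of_mul h0)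
      exact hn (Set.mem_add.2 ⟨η, e1, ξ - η, e2, by abel⟩)
    simp [this]
  · ext x
    rw [Real.fourierInv_eq_fourier_neg, Real.fourierInv_eq_fourier_neg,
      Real.fourierInv_eq_fourier_neg]
    exact (Real.fourier_mul_convolution_eq h1 k1 (-x)).symm

/-- Bounded measurable multipliers. -/
theorem Band.multiplier {a : V → ℂ} {S : Set V} (h1 : Integrable a) (h2 : MemLp a 2)
    (hS : ∀ ξ, a ξ ≠ 0 → ξ ∈ S) {m : V → ℂ} (hm : Measurable m) {C : ℝ}
    (hC : ∀ ξ, a ξ ≠ 0 → ‖m ξ‖ ≤ C) : Band (𝓕⁻ (fun ξ => m ξ * a ξ)) S := by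
  have hb : ∀ ξ, ‖m ξ * a ξ‖ ≤ C * ‖a ξ‖ := by
    intro ξ
    rw [norm_mul]
    by_cases h0 : a ξ = 0
    · simp [h0]
    · exact mul_le_mul_of_nonneg_right (hC ξ h0) (norm_nonneg _)
  have hmeas : AEStronglyMeasurable (fun ξ => m ξ * a ξ) volume :=
    hm.aestronglyMeasurable.mul h1.aestronglyMeasurable
  refine ⟨fun ξ => m ξ * a ξ, ?_, ?_, fun ξ hξ => hS ξ (right_ne_zero_of_mul hξ), rfl⟩
  · exact (h1.norm.const_mul C).mono' hmeas (Filter.Eventually.of_forall hb)
  · exact h2.of_le_mul hmeas (Filter.Eventually.of_forall hb)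

/-! ## Poisson averages -/

/-- The multiplier of the Poisson average. -/
noncomputable def pmul (y : ℝ) (ω ξ : V) : ℂ := ∫ t, (pk y t : ℂ) * (𝐞 ⟪ξ, -(t • ω)⟫_ℝ : ℂ)

theorem norm_pmul_le {y : ℝ} (hy : 0 < y) (ω ξ : V) : ‖pmul y ω ξ‖ ≤ 1 := by
  unfold pmul
  refine (norm_integral_le_integral_norm _).trans ?_
  rw [← integral_pk hy]
  apply le_of_eq
  congr 1
  ext t
  rw [norm_mul, Circle.norm_coe, mul_one, Complex.norm_real, Real.norm_of_nonneg (pk_nonneg hy t)]

theorem measurable_pmul {y : ℝ} (hy : 0 < y) (ω : V) : Measurable (pmul y ω) := by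
  unfold pmul
  apply Continuous.measurable
  refine continuous_of_dominated (bound := pk y) (fun ξ => ?_) (fun ξ => ?_) (integrable_pk hy)
    (Filter.Eventually.of_forall fun t => ?_)
  · refine AEStronglyMeasurable.mul ?_ ?_
    · exact (Complex.measurable_ofReal.comp (measurable_pk y)).aestronglyMeasurable
    · apply Continuous.aestronglyMeasurable
      simp only [Real.fourierChar_apply]
      fun_prop
  · filter_upwards with t
    rw [norm_mul, Circle.norm_coe, mul_one, Complex.norm_real,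
      Real.norm_of_nonneg (pk_nonneg hy t)]
  · simp only [Real.fourierChar_apply]
    fun_prop

/-- The Poisson average of an inverse Fourier integral. -/
theorem pavC_fourierInv {a : V → ℂ} (h1 : Integrable a) {y : ℝ} (hy : 0 < y) (ω : V) :
    REPS.pavC y ω (𝓕⁻ a) = 𝓕⁻ (fun ξ => pmul y ω ξ * a ξ) := by
  ext x
  have e1 : REPS.pavC y ω (𝓕⁻ a) x =
      ∫ t, ∫ ξ, (pk y t : ℂ) * ((𝐞 ⟪ξ, -(t • ω)⟫_ℝ : ℂ) * ((𝐞 ⟪ξ, x⟫_ℝ : ℂ) * a ξ)) := by
    unfold REPS.pavC
    congr 1
    ext t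
    rw [integral_const_mul, Real.fourierInv_eq]
    congr 1
    congr 1
    ext ξ
    rw [Circle.smul_def, smul_eq_mul, ← mul_assoc, ← Circle.coe_mul, ← AddChar.map_add_eq_mul,
      ← inner_add_right]
    congr 4
    abel
  rw [e1, integral_integral_swap, Real.fourierInv_eq]
  · congr 1
    ext ξ
    rw [Circle.smul_def, smul_eq_mul]
    unfold pmul
    rw [← integral_mul_const, ← integral_const_mul]
    congr 1
    ext t
    ring
  · have hp : Integrable (fun p : ℝ × V => pk y p.1 * ‖a p.2‖) (volume.prod volume) :=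
      (integrable_pk hy).mul_prod h1.norm
    refine hp.mono' ?_ ?_
    · refine AEStronglyMeasurable.mul ?_ (AEStronglyMeasurable.mul ?_
        (AEStronglyMeasurable.mul ?_ ?_))
      · exact (Complex.measurable_ofReal.comp
          ((measurable_pk y).comp measurable_fst)).aestronglyMeasurable
      · apply Continuous.aestronglyMeasurable
        simp only [Real.fourierChar_apply]
        fun_prop
      · apply Continuous.aestronglyMeasurable
        simp only [Real.fourierChar_apply]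
        fun_prop
      · exact h1.aestronglyMeasurable.comp_snd
    · filter_upwards with p
      simp only [Function.uncurry, norm_mul, Circle.norm_coe, one_mul, Complex.norm_real,
        Real.norm_of_nonneg (pk_nonneg hy p.1)]
      exact le_rfl

theorem Band.pavC {F : V → ℂ} {S : Set V} (hF : Band F S) {y : ℝ} (hy : 0 < y) (ω : V) :
    Band (pavC y ω F) S := by
  obtain ⟨a, h1, h2, h3, rfl⟩ := hF
  rw [pavC_fourierInv h1 hy ω]
  exact Band.multiplier h1 h2 h3 (measurable_pmul hy ω) (C := 1) fun ξ _ => norm_pmul_le hy ω ξ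

/-- Parseval. -/
theorem band_parseval {a b : V → ℂ} (h1 : Integrable a) (h2 : MemLp a 2) (k1 : Integrable b)
    (k2 : MemLp b 2) :
    ∫ x, 𝓕⁻ a x * (starRingEnd ℂ) (𝓕⁻ b x) = ∫ ξ, a ξ * (starRingEnd ℂ) (b ξ) := by
  have e1 : inner ℂ (𝓕⁻ (k2.toLp b) : Lp (α := V) ℂ 2 volume) (𝓕⁻ (h2.toLp a)) =
      inner ℂ (k2.toLp b) (h2.toLp a) := by
    rw [← Lp.inner_fourier_eq, FourierInvPair.fourier_fourierInv_eq,
      FourierInvPair.fourier_fourierInv_eq]
  rw [L2.inner_def, L2.inner_def] at e1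
  have e2 : ∫ x, 𝓕⁻ a x * (starRingEnd ℂ) (𝓕⁻ b x) =
      ∫ x, inner ℂ ((𝓕⁻ (k2.toLp b) : Lp (α := V) ℂ 2 volume) x) ((𝓕⁻ (h2.toLp a) : Lp (α := V) ℂ 2 volume) x) := by
    apply integral_congr_ae
    filter_upwards [fourierInv_toLp_ae h1 h2, fourierInv_toLp_ae k1 k2] with x hx hy
    rw [hx, hy]
    simp
  have e3 : ∫ ξ, a ξ * (starRingEnd ℂ) (b ξ) =
      ∫ x, inner ℂ ((k2.toLp b : Lp (α := V) ℂ 2 volume) x) ((h2.toLp a : Lp (α := V) ℂ 2 volume) x) := by
    apply integral_congr_ae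
    filter_upwards [h2.coeFn_toLp, k2.coeFn_toLp] with x hx hy
    rw [hx, hy]
    simp
  rw [e2, e1, e3]

theorem mul_conj_self (z : ℂ) : z * (starRingEnd ℂ) z = ((‖z‖ ^ 2 : ℝ) : ℂ) := by
  rw [Complex.mul_conj, Complex.normSq_eq_norm_sq]

/-- Plancherel. -/
theorem band_plancherel {a : V → ℂ} (h1 : Integrable a) (h2 : MemLp a 2) :
    ∫ x, ‖𝓕⁻ a x‖ ^ 2 = ∫ ξ, ‖a ξ‖ ^ 2 := by
  have e := band_parseval h1 h2 h1 h2
  simp only [mul_conj_self] at e
  rw [integral_complex_ofReal, integral_complex_ofReal] at e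
  exact_mod_cast e

theorem integral_norm_sq_pavC_le {F : V → ℂ} {S : Set V} (hF : Band F S) {y : ℝ} (hy : 0 < y)
    (ω : V) : ∫ x, ‖pavC y ω F x‖ ^ 2 ≤ ∫ x, ‖F x‖ ^ 2 := by
  obtain ⟨a, h1, h2, h3, rfl⟩ := hF
  rw [pavC_fourierInv h1 hy ω, band_plancherel h1 h2]
  have hb : ∀ ξ, ‖pmul y ω ξ * a ξ‖ ≤ 1 * ‖a ξ‖ := fun ξ => by
    rw [norm_mul]
    exact mul_le_mul_of_nonneg_right (norm_pmul_le hy ω ξ) (norm_nonneg _)
  have hmeas : AEStronglyMeasurable (fun ξ => pmul y ω ξ * a ξ) volume :=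
    (measurable_pmul hy ω).aestronglyMeasurable.mul h1.aestronglyMeasurable
  have i1 : Integrable (fun ξ => pmul y ω ξ * a ξ) :=
    (h1.norm.const_mul 1).mono' hmeas (Filter.Eventually.of_forall hb)
  have i2 : MemLp (fun ξ => pmul y ω ξ * a ξ) 2 :=
    h2.of_le_mul hmeas (Filter.Eventually.of_forall hb)
  rw [band_plancherel i1 i2]
  refine integral_mono ((memLp_two_iff_integrable_sq_norm hmeas).1 i2)
    ((memLp_two_iff_integrable_sq_norm h1.aestronglyMeasurable).1 h2) fun ξ => ?_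
  have := hb ξ
  rw [one_mul] at this
  exact pow_le_pow_left₀ (norm_nonneg _) this 2

/-- Disjoint spectra are orthogonal. -/
theorem Band.orth {F G : V → ℂ} {S T : Set V} (hF : Band F S) (hG : Band G T)
    (hd : Disjoint S T) : ∫ x, F x * (starRingEnd ℂ) (G x) = 0 := by
  obtain ⟨a, h1, h2, h3, rfl⟩ := hF
  obtain ⟨b, k1, k2, k3, rfl⟩ := hG
  rw [band_parseval h1 h2 k1 k2]
  have : ∀ ξ, a ξ * (starRingEnd ℂ) (b ξ) = 0 := by
    intro ξ
    by_contra h0
    have e1 := h3 ξ (left_ne_zero_of_mul h0)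
    have e2 := k3 ξ (by
      intro h
      exact right_ne_zero_of_mul h0 (by rw [h, map_zero]))
    exact Set.disjoint_left.1 hd e1 e2
  simp [this]

/-- `∫ F = 0` if `0` is not in the spectrum: for products. -/
theorem Band.integral_mul_eq_zero {F G : V → ℂ} {S T : Set V} (hF : Band F S) (hG : Band G T)
    (hd : Disjoint S (-T)) : ∫ x, F x * G x = 0 := by
  have := hF.orth hG.conj hd
  simpa using this

/-- Orthogonal sums. -/
theorem band_sum_sq {ι : Type*} (s : Finset ι) {F : ι → V → ℂ} {S : ι → Set V}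
    (hF : ∀ i ∈ s, Band (F i) (S i))
    (hd : ∀ i ∈ s, ∀ j ∈ s, i ≠ j → Disjoint (S i) (S j)) :
    ∫ x, ‖∑ i ∈ s, F i x‖ ^ 2 = ∑ i ∈ s, ∫ x, ‖F i x‖ ^ 2 := by
  classical
  have hi : ∀ i ∈ s, ∀ j ∈ s, Integrable fun x => F i x * (starRingEnd ℂ) (F j x) :=
    fun i hi j hj => (hF i hi).integrable_mul (hF j hj).conj
  have e1 : ∀ x, ((‖∑ i ∈ s, F i x‖ ^ 2 : ℝ) : ℂ) =
      ∑ i ∈ s, ∑ j ∈ s, F i x * (starRingEnd ℂ) (F j x) := by
    intro x
    rw [← mul_conj_self, map_sum, Finset.sum_mul_sum]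
  have e2 : ((∫ x, ‖∑ i ∈ s, F i x‖ ^ 2 : ℝ) : ℂ) =
      ∑ i ∈ s, ∑ j ∈ s, ∫ x, F i x * (starRingEnd ℂ) (F j x) := by
    rw [← integral_complex_ofReal]
    simp_rw [e1]
    rw [integral_finset_sum _ fun i h => integrable_finset_sum _ fun j h' => hi i h j h']
    refine Finset.sum_congr rfl fun i h => ?_
    rw [integral_finset_sum _ fun j h' => hi i h j h']
  have e3 : ∀ i ∈ s, ∑ j ∈ s, ∫ x, F i x * (starRingEnd ℂ) (F j x) =
      ((∫ x, ‖F i x‖ ^ 2 : ℝ) : ℂ) := by
    intro i h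
    rw [Finset.sum_eq_single i]
    · simp only [mul_conj_self]
      rw [integral_complex_ofReal]
    · intro j h' hne
      exact (hF i h).orth (hF j h') (hd i h j h' (Ne.symm hne))
    · intro h'
      exact absurd h h'
  rw [Finset.sum_congr rfl e3] at e2
  exact_mod_cast e2

/-- Convolution of an integrable bounded function with a band limited kernel. -/
theorem band_conv {p : V → ℂ} (hp : Continuous p) (hpc : HasCompactSupport p) {γ : V → ℝ}
    (hγ : Measurable γ) (hγi : Integrable γ) :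
    Band (fun x => ∫ z, (γ z : ℂ) * 𝓕⁻ p (x - z)) {ξ | p ξ ≠ 0} := by
  have hpi : Integrable p := hp.integrable_of_hasCompactSupport hpc
  have hp2 : MemLp p 2 := hp.memLp_of_hasCompactSupport hpc
  have hγc : Integrable (fun z => (γ z : ℂ)) := hγi.ofReal
  have hm : Continuous (𝓕 (fun z => (γ z : ℂ))) := by
    have := continuous_fourierInv hγc
    have e : 𝓕 (fun z => (γ z : ℂ)) = fun ξ => 𝓕⁻ (fun z => (γ z : ℂ)) (-ξ) := by
      ext ξ
      rw [Real.fourierInv_eq_fourier_neg, neg_neg]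
    rw [e]
    exact this.comp continuous_neg
  have key : (fun x => ∫ z, (γ z : ℂ) * 𝓕⁻ p (x - z)) =
      𝓕⁻ (fun ξ => 𝓕 (fun z => (γ z : ℂ)) ξ * p ξ) := by
    ext x
    have e1 : ∀ z, (γ z : ℂ) * 𝓕⁻ p (x - z) =
        ∫ ξ, (γ z : ℂ) * ((𝐞 (-⟪z, ξ⟫_ℝ) : ℂ) * ((𝐞 ⟪ξ, x⟫_ℝ : ℂ) * p ξ)) := by
      intro z
      rw [integral_const_mul, Real.fourierInv_eq]
      congr 1
      congr 1
      ext ξ
      rw [Circle.smul_def, smul_eq_mul, ← mul_assoc, ← Circle.coe_mul,
        ← AddChar.map_add_eq_mul, inner_sub_right, real_inner_comm ξ z]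
      congr 4
      ring
    simp_rw [e1]
    rw [integral_integral_swap, Real.fourierInv_eq]
    · congr 1
      ext ξ
      rw [Circle.smul_def, smul_eq_mul, Real.fourier_eq, ← integral_mul_const, ← integral_const_mul]
      congr 1
      ext z
      rw [Circle.smul_def, smul_eq_mul]
      ring
    · have hpr : Integrable (fun r : V × V => ‖(γ r.1 : ℂ)‖ * ‖p r.2‖) (volume.prod volume) :=
        hγc.norm.mul_prod hpi.norm
      refine hpr.mono' ?_ ?_
      · refine AEStronglyMeasurable.mul ?_ (AEStronglyMeasurable.mul ?_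
          (AEStronglyMeasurable.mul ?_ ?_))
        · exact hγc.aestronglyMeasurable.comp_fst
        · apply Continuous.aestronglyMeasurable
          simp only [Real.fourierChar_apply]
          fun_prop
        · apply Continuous.aestronglyMeasurable
          simp only [Real.fourierChar_apply]
          fun_prop
        · exact hpi.aestronglyMeasurable.comp_snd
      · filter_upwards with r
        simp only [Function.uncurry, norm_mul, Circle.norm_coe, one_mul]
        exact le_rfl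
  rw [key]
  refine Band.multiplier hpi hp2 (fun ξ h => h) hm.measurable (C := ∫ z, ‖(γ z : ℂ)‖)
    fun ξ _ => ?_
  rw [Real.fourier_eq]
  refine (norm_integral_le_integral_norm _).trans ?_
  simp_rw [Circle.norm_smul]
  exact le_rfl

end REPS
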