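import Pool.Agent.REPS.Defs2

/-!
# A nonnegative kernel with compactly supported Fourier transform, and its scaled versions
-/

open MeasureTheory Filter Topology Real Metric FourierTransform
open scoped ENNReal NNReal InnerProductSpace Pointwise Convolution ContDiff

namespace REPS

/-- A smooth bump. -/
noncomputable def bmp : ContDiffBump (0 : V2) := ⟨1 / 4, 1 / 2, by norm_num, by norm_num⟩

/-- The bump as a complex function. -/
noncomputable def bmpC (x : V2) : ℂ := (bmp x : ℂ)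

theorem bmpC_contDiff : ContDiff ℝ ∞ bmpC :=
  Complex.ofRealCLM.contDiff.comp bmp.contDiff

theorem bmpC_compact : HasCompactSupport bmpC :=
  bmp.hasCompactSupport.comp_left Complex.ofReal_zero

theorem bmpC_cont : Continuous bmpC := bmpC_contDiff.continuous

theorem bmpC_int : Integrable bmpC := bmpC_cont.integrable_of_hasCompactSupport bmpC_compact

theorem bmpC_supp {x : V2} (h : bmpC x ≠ 0) : ‖x‖ < 1 / 2 := by
  have h1 : x ∈ Function.support bmp := fun h2 => h (by rw [bmpC, h2]; rfl)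
  rw [bmp.support_eq, mem_ball_zero_iff] at h1
  exact h1

theorem bmpC_neg (x : V2) : bmpC (-x) = bmpC x := by
  rw [bmpC, bmpC, bmp.neg]

theorem fourier_bmpC_real (ξ : V2) : 𝓕 bmpC ξ = (((𝓕 bmpC ξ).re : ℝ) : ℂ) := by
  symm
  rw [← Complex.conj_eq_iff_re, Real.fourier_eq, ← integral_conj]
  rw [← integral_neg_eq_self (fun x => Real.fourierChar (-⟪x, ξ⟫_ℝ) • bmpC x)]
  congr 1
  ext x
  rw [bmpC_neg, inner_neg_left, neg_neg, Circle.smul_def, Circle.smul_def, smul_eq_mul, smul_eq_mul,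
    map_mul]
  congr 1
  · rw [← Circle.coe_inv_eq_conj, ← AddChar.map_neg_eq_inv, neg_neg]
  · rw [bmpC, Complex.conj_ofReal]

theorem exists_kernel : ∃ (p : V2 → ℂ) (Ψ : V2 → ℝ), Continuous p ∧
    (∀ ξ, p ξ ≠ 0 → ‖ξ‖ ≤ 1) ∧ (∀ x, 𝓕⁻ p x = (Ψ x : ℂ)) ∧ Continuous Ψ ∧ (∀ x, 0 ≤ Ψ x) ∧
    ∫ x, Ψ x = 1 ∧ Integrable (fun x => (1 + ‖x‖ ^ 2) * Ψ x) := by
  set S : SchwartzMap V2 ℂ := bmpC_compact.toSchwartzMap bmpC_contDiff with hS
  have hSc : (S : V2 → ℂ) = bmpC := rfl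
  have hF : ((𝓕 S : SchwartzMap V2 ℂ) : V2 → ℂ) = 𝓕 bmpC := by
    rw [SchwartzMap.fourier_coe, hSc]
  have hcont : Continuous (𝓕 bmpC) := by
    rw [← hF]
    exact (𝓕 S : SchwartzMap V2 ℂ).continuous
  set g : V2 → ℝ := fun x => (𝓕 bmpC (-x)).re with hg
  have hgc : Continuous g := Complex.continuous_re.comp (hcont.comp continuous_neg)
  have hgn : ∀ x, |g x| = ‖𝓕 bmpC (-x)‖ := by
    intro x
    conv_rhs => rw [fourier_bmpC_real]
    rw [Complex.norm_real, Real.norm_eq_abs]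
  obtain ⟨C, hC⟩ : ∃ C, ∀ x, |g x| ≤ C := by
    refine ⟨SchwartzMap.seminorm ℝ 0 0 (𝓕 S), fun x => ?_⟩
    rw [hgn, ← hF]
    exact SchwartzMap.norm_le_seminorm ℝ _ _
  have hint : ∀ n : ℕ, Integrable (fun x => ‖x‖ ^ n * |g x|) := by
    intro n
    have h1 := ((𝓕 S : SchwartzMap V2 ℂ).integrable_pow_mul volume n).comp_neg
    refine h1.congr (Eventually.of_forall fun x => ?_)
    simp only [norm_neg, hF, hgn]
  have hint2 : ∀ n : ℕ, Integrable (fun x => ‖x‖ ^ n * g x ^ 2) := by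
    intro n
    have h1 := (hint n).bdd_mul (c := C) (f := fun x => |g x|)
      (hgc.abs.aestronglyMeasurable) (Eventually.of_forall fun x => by
        rw [Real.norm_eq_abs, abs_abs]; exact hC x)
    refine h1.congr (Eventually.of_forall fun x => ?_)
    simp only
    rw [← sq_abs (g x)]
    ring
  have hI : 0 < ∫ x, g x ^ 2 := by
    have h0 : Integrable (fun x => g x ^ 2) := by simpa using hint2 0
    rw [integral_pos_iff_support_of_nonneg (fun x => sq_nonneg _) h0]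
    have h1 : IsOpen (Function.support fun x => g x ^ 2) :=
      (hgc.pow 2).isOpen_support
    refine h1.measure_pos volume ⟨0, ?_⟩
    have h2 : g 0 = ∫ x, bmp x := by
      rw [hg]
      simp only [neg_zero]
      rw [Real.fourier_eq]
      simp only [inner_zero_right, neg_zero, AddChar.map_zero_eq_one, one_smul]
      have h4 : (∫ v : V2, bmpC v) = ((∫ v : V2, bmp v : ℝ) : ℂ) := integral_ofReal
      rw [h4, Complex.ofReal_re]
    have h3 : 0 < ∫ x, bmp x := bmp.integral_pos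
    exact (pow_pos (h2 ▸ h3) 2).ne'
  set c : ℝ := (∫ x, g x ^ 2)⁻¹ with hc
  have hcpos : 0 < c := inv_pos.mpr hI
  refine ⟨fun ξ => (c : ℂ) * (bmpC ⋆[ContinuousLinearMap.mul ℂ ℂ] bmpC) ξ,
    fun x => c * g x ^ 2, ?_, ?_, ?_, ?_, ?_, ?_, ?_⟩
  · exact continuous_const.mul (bmpC_compact.continuous_convolution_right _
      bmpC_int.locallyIntegrable bmpC_cont)
  · intro ξ hξ
    have h1 : ξ ∈ Function.support (bmpC ⋆[ContinuousLinearMap.mul ℂ ℂ] bmpC) :=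
      fun h => hξ (by simp only [h, mul_zero])
    have h2 := support_convolution_subset (μ := volume) (ContinuousLinearMap.mul ℂ ℂ)
      (f := bmpC) (g := bmpC) h1
    obtain ⟨a, ha, b, hb, rfl⟩ := h2
    have h3 := bmpC_supp ha
    have h4 := bmpC_supp hb
    exact (norm_add_le a b).trans (by linarith)
  · intro x
    rw [Real.fourierInv_eq_fourier_neg]
    have h1 : 𝓕 (fun ξ => (c : ℂ) * (bmpC ⋆[ContinuousLinearMap.mul ℂ ℂ] bmpC) ξ) (-x) =
        (c : ℂ) * 𝓕 (bmpC ⋆[ContinuousLinearMap.mul ℂ ℂ] bmpC) (-x) := by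
      rw [Real.fourier_eq, Real.fourier_eq, ← integral_const_mul]
      congr 1
      ext ξ
      rw [Circle.smul_def, Circle.smul_def, smul_eq_mul, smul_eq_mul]
      ring
    rw [h1, Real.fourier_mul_convolution_eq bmpC_int bmpC_int, fourier_bmpC_real]
    push_cast
    ring
  · exact continuous_const.mul (hgc.pow 2)
  · intro x
    positivity
  · rw [integral_const_mul, hc, inv_mul_cancel₀ hI.ne']
  · have h1 := ((hint2 0).add (hint2 2)).const_mul c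
    refine h1.congr (Eventually.of_forall fun x => ?_)
    simp only [Pi.add_apply]
    ring

/-! ### Linear change of variables -/

/-- The coordinates in the frame of angle `φ`, scaled. -/
noncomputable def psiFrm (s s' φ : ℝ) : V2 →ₗ[ℝ] V2 where
  toFun x := !₂[s * ⟪x, dir φ⟫_ℝ, s' * ⟪x, nrm φ⟫_ℝ]
  map_add' x y := by
    ext i
    fin_cases i <;> simp [inner_add_left, mul_add]
  map_smul' c x := by
    ext i
    fin_cases i <;> simp [inner_smul_left, mul_left_comm]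

theorem psiFrm_apply (s s' φ : ℝ) (x : V2) :
    psiFrm s s' φ x = !₂[s * ⟪x, dir φ⟫_ℝ, s' * ⟪x, nrm φ⟫_ℝ] := rfl

theorem psi_inner (x y : V2) : ⟪x, y⟫_ℝ = x 0 * y 0 + x 1 * y 1 := by
  rw [PiLp.inner_apply, Fin.sum_univ_two]
  simp [mul_comm]

theorem psi_det (s s' φ : ℝ) : LinearMap.det (psiFrm s s' φ) = s * s' := by
  rw [← LinearMap.det_toMatrix (EuclideanSpace.basisFun (Fin 2) ℝ).toBasis, Matrix.det_fin_two]
  simp only [LinearMap.toMatrix_apply, psiFrm_apply, psi_inner, OrthonormalBasis.coe_toBasis,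
    OrthonormalBasis.coe_toBasis_repr_apply, EuclideanSpace.basisFun_apply,
    EuclideanSpace.basisFun_repr, dir, nrm]
  simp
  have h := Real.sin_sq_add_cos_sq φ
  linear_combination (s * s') * h

theorem psi_integral {E : Type*} [NormedAddCommGroup E] [NormedSpace ℝ E] {s s' : ℝ} (hs : 0 < s)
    (hs' : 0 < s') (φ : ℝ) (f : V2 → E) :
    (s * s') • ∫ x, f (psiFrm s s' φ x) = ∫ x, f x := by
  have hd : LinearMap.det (psiFrm s s' φ) ≠ 0 := by
    rw [psi_det]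
    positivity
  have h1 := Measure.map_linearMap_addHaar_eq_smul_addHaar (volume : Measure V2) hd
  have h2 : MeasurableEmbedding (psiFrm s s' φ) := by
    have h3 := ((LinearEquiv.ofIsUnitDet (v := (EuclideanSpace.basisFun (Fin 2) ℝ).toBasis)
      (v' := (EuclideanSpace.basisFun (Fin 2) ℝ).toBasis) (f := psiFrm s s' φ) (by
        rw [LinearMap.det_toMatrix]
        exact isUnit_iff_ne_zero.mpr hd)).toContinuousLinearEquiv).toHomeomorph.measurableEmbedding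
    exact h3
  rw [← h2.integral_map, h1, integral_smul_measure, psi_det, smul_smul]
  rw [ENNReal.toReal_ofReal (abs_nonneg _), abs_of_pos (by positivity),
    mul_inv_cancel₀ (by positivity), one_smul]

theorem psi_integrable {E : Type*} [NormedAddCommGroup E] {s s' : ℝ} (hs : 0 < s)
    (hs' : 0 < s') (φ : ℝ) {f : V2 → E} (hf : Integrable f) :
    Integrable (fun x => f (psiFrm s s' φ x)) := by
  have hd : LinearMap.det (psiFrm s s' φ) ≠ 0 := by
    rw [psi_det]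
    positivity
  have h1 := Measure.map_linearMap_addHaar_eq_smul_addHaar (volume : Measure V2) hd
  have h2 : MeasurableEmbedding (psiFrm s s' φ) := by
    have h3 := ((LinearEquiv.ofIsUnitDet (v := (EuclideanSpace.basisFun (Fin 2) ℝ).toBasis)
      (v' := (EuclideanSpace.basisFun (Fin 2) ℝ).toBasis) (f := psiFrm s s' φ) (by
        rw [LinearMap.det_toMatrix]
        exact isUnit_iff_ne_zero.mpr hd)).toContinuousLinearEquiv).toHomeomorph.measurableEmbedding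
    exact h3
  have h4 : Integrable f (Measure.map (psiFrm s s' φ) volume) := by
    rw [h1]
    exact hf.smul_measure ENNReal.ofReal_ne_top
  exact (h2.integrable_map_iff (μ := volume)).mp h4

theorem psi_frame (φ : ℝ) (x : V2) : x = ⟪x, dir φ⟫_ℝ • dir φ + ⟪x, nrm φ⟫_ℝ • nrm φ := by
  have h := Real.sin_sq_add_cos_sq φ
  ext i
  fin_cases i
  · simp [psi_inner, dir, nrm]
    linear_combination (-(x.ofLp 0)) * h
  · simp [psi_inner, dir, nrm]
    linear_combination (-(x.ofLp 1)) * h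

/-- Change of variables for the scaled kernel. -/
theorem integral_scl {Ψ : V2 → ℝ} {s s' : ℝ} (hs : 0 < s) (hs' : 0 < s') (φ : ℝ)
    (u : V2 → ℝ) : ∫ x, scl Ψ s s' φ x * u x =
      ∫ z : V2, Ψ z * u ((z 0 / s) • dir φ + (z 1 / s') • nrm φ) := by
  rw [← psi_integral hs hs' φ (fun z : V2 => Ψ z * u ((z 0 / s) • dir φ + (z 1 / s') • nrm φ)),
    smul_eq_mul, ← integral_const_mul]
  congr 1
  ext x
  have h1 : ((psiFrm s s' φ x) 0 / s) • dir φ + ((psiFrm s s' φ x) 1 / s') • nrm φ = x := by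
    conv_rhs => rw [psi_frame φ x]
    rw [psiFrm_apply]
    simp only [Matrix.cons_val_zero, Matrix.cons_val_one]
    rw [mul_div_cancel_left₀ _ hs.ne', mul_div_cancel_left₀ _ hs'.ne']
  rw [h1, scl, ← psiFrm_apply]
  ring

theorem scl_spec {p : V2 → ℂ} {Ψ : V2 → ℝ} (hp : Continuous p)
    (hsupp : ∀ ξ, p ξ ≠ 0 → ‖ξ‖ ≤ 1) (hΨ : ∀ x, 𝓕⁻ p x = (Ψ x : ℂ)) {s s' : ℝ} (hs : 0 < s)
    (hs' : 0 < s') (φ : ℝ) : ∃ p' : V2 → ℂ, Continuous p' ∧ HasCompactSupport p' ∧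
      (∀ ξ, p' ξ ≠ 0 → |⟪ξ, dir φ⟫_ℝ| ≤ s ∧ |⟪ξ, nrm φ⟫_ℝ| ≤ s') ∧
      ∀ x, 𝓕⁻ p' x = (scl Ψ s s' φ x : ℂ) := by
  have hbox : ∀ ξ, p (psiFrm s⁻¹ s'⁻¹ φ ξ) ≠ 0 → |⟪ξ, dir φ⟫_ℝ| ≤ s ∧ |⟪ξ, nrm φ⟫_ℝ| ≤ s' := by
    intro ξ hξ
    have h1 := hsupp _ hξ
    have h2 : ‖psiFrm s⁻¹ s'⁻¹ φ ξ‖ ^ 2 = (s⁻¹ * ⟪ξ, dir φ⟫_ℝ) ^ 2 + (s'⁻¹ * ⟪ξ, nrm φ⟫_ℝ) ^ 2 := by
      rw [psiFrm_apply, EuclideanSpace.norm_sq_eq, Fin.sum_univ_two, Real.norm_eq_abs,
        Real.norm_eq_abs, sq_abs, sq_abs]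
      rfl
    have h3 : ‖psiFrm s⁻¹ s'⁻¹ φ ξ‖ ^ 2 ≤ 1 := by
      have := norm_nonneg (psiFrm s⁻¹ s'⁻¹ φ ξ)
      nlinarith
    constructor
    · have h4 : (s⁻¹ * ⟪ξ, dir φ⟫_ℝ) ^ 2 ≤ 1 := by nlinarith [sq_nonneg (s'⁻¹ * ⟪ξ, nrm φ⟫_ℝ)]
      have h5 : |s⁻¹ * ⟪ξ, dir φ⟫_ℝ| ≤ 1 := by
        rw [← sq_abs] at h4
        nlinarith [abs_nonneg (s⁻¹ * ⟪ξ, dir φ⟫_ℝ)]
      rw [abs_mul, abs_of_pos (inv_pos.mpr hs)] at h5
      have h6 : s * (s⁻¹ * |⟪ξ, dir φ⟫_ℝ|) ≤ s * 1 := mul_le_mul_of_nonneg_left h5 hs.le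
      rwa [← mul_assoc, mul_inv_cancel₀ hs.ne', one_mul, mul_one] at h6
    · have h4 : (s'⁻¹ * ⟪ξ, nrm φ⟫_ℝ) ^ 2 ≤ 1 := by nlinarith [sq_nonneg (s⁻¹ * ⟪ξ, dir φ⟫_ℝ)]
      have h5 : |s'⁻¹ * ⟪ξ, nrm φ⟫_ℝ| ≤ 1 := by
        rw [← sq_abs] at h4
        nlinarith [abs_nonneg (s'⁻¹ * ⟪ξ, nrm φ⟫_ℝ)]
      rw [abs_mul, abs_of_pos (inv_pos.mpr hs')] at h5
      have h6 : s' * (s'⁻¹ * |⟪ξ, nrm φ⟫_ℝ|) ≤ s' * 1 := mul_le_mul_of_nonneg_left h5 hs'.le
      rwa [← mul_assoc, mul_inv_cancel₀ hs'.ne', one_mul, mul_one] at h6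
  refine ⟨fun ξ => p (psiFrm s⁻¹ s'⁻¹ φ ξ), hp.comp (LinearMap.continuous_of_finiteDimensional _),
    ?_, hbox, ?_⟩
  · refine HasCompactSupport.intro (isCompact_closedBall (0 : V2) (s + s')) fun ξ hξ => ?_
    by_contra h
    obtain ⟨h1, h2⟩ := hbox ξ h
    refine hξ ?_
    rw [mem_closedBall, dist_zero_right]
    conv_lhs => rw [psi_frame φ ξ]
    refine (norm_add_le _ _).trans (add_le_add ?_ ?_)
    · rw [norm_smul, Real.norm_eq_abs]
      have : ‖dir φ‖ = 1 := by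
        rw [EuclideanSpace.norm_eq, Fin.sum_univ_two]
        simp [dir]
      rw [this, mul_one]
      exact h1
    · rw [norm_smul, Real.norm_eq_abs]
      have : ‖nrm φ‖ = 1 := by
        rw [EuclideanSpace.norm_eq, Fin.sum_univ_two]
        simp [nrm]
      rw [this, mul_one]
      exact h2
  · intro x
    rw [scl]
    push_cast
    rw [← hΨ, Real.fourierInv_eq, Real.fourierInv_eq]
    have h1 := psi_integral (inv_pos.mpr hs) (inv_pos.mpr hs') φ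
      (fun z => Real.fourierChar ⟪z, (!₂[s * ⟪x, dir φ⟫_ℝ, s' * ⟪x, nrm φ⟫_ℝ] : V2)⟫_ℝ • p z)
    rw [← h1]
    have h2 : ∀ ξ : V2, ⟪psiFrm s⁻¹ s'⁻¹ φ ξ, (!₂[s * ⟪x, dir φ⟫_ℝ, s' * ⟪x, nrm φ⟫_ℝ] : V2)⟫_ℝ =
        ⟪ξ, x⟫_ℝ := by
      intro ξ
      rw [psi_inner, psiFrm_apply]
      simp only [Matrix.cons_val_zero, Matrix.cons_val_one]
      have h3 : ⟪ξ, x⟫_ℝ = ⟪ξ, dir φ⟫_ℝ * ⟪x, dir φ⟫_ℝ + ⟪ξ, nrm φ⟫_ℝ * ⟪x, nrm φ⟫_ℝ := by
        conv_lhs => rw [psi_frame φ x]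
        rw [inner_add_right, inner_smul_right, inner_smul_right]
        ring
      rw [h3]
      field_simp
    simp only [h2]
    rw [Complex.real_smul, ← mul_assoc]
    have h4 : ((s : ℂ) * s') * ((s⁻¹ * s'⁻¹ : ℝ) : ℂ) = 1 := by
      push_cast
      have h5 : (s : ℂ) ≠ 0 := by exact_mod_cast hs.ne'
      have h6 : (s' : ℂ) ≠ 0 := by exact_mod_cast hs'.ne'
      field_simp
    rw [h4, one_mul]

end REPS
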