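import Pool.Agent.REPS.Geom1
import Pool.Agent.REPS.Psi
import Pool.Agent.Helper77.TA.Gabor

/-! Calculus of the Cauchy averages `pav`: continuity, integrals, Harnack inequalities. -/

open MeasureTheory Filter Topology Real Metric FourierTransform
open scoped ENNReal NNReal InnerProductSpace

namespace REPS

open Helper77.TA

theorem av_int {y : ℝ} (hy : 0 < y) : Integrable (pk y) := by
  refine ⟨(measurable_pk y).aestronglyMeasurable, ?_⟩
  rw [hasFiniteIntegral_iff_ofReal (Eventually.of_forall (pk_nonneg hy)), lintegral_pk hy]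
  exact ENNReal.one_lt_top

theorem av_one {y : ℝ} (hy : 0 < y) : ∫ t, pk y t = 1 := by
  rw [integral_eq_lintegral_of_nonneg_ae (Eventually.of_forall (pk_nonneg hy))
    (measurable_pk y).aestronglyMeasurable, lintegral_pk hy, ENNReal.toReal_one]

theorem av_cont {y : ℝ} (hy : 0 < y) : Continuous (pk y) := by
  unfold pk
  refine continuous_const.mul (Continuous.inv₀ (by fun_prop) fun t => ?_)
  positivity

theorem av_neg (y t : ℝ) : pk y (-t) = pk y t := by
  unfold pk
  rw [neg_sq]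

theorem av_pk_le {y : ℝ} (hy : 0 < y) (t : ℝ) : pk y t ≤ (π * y)⁻¹ := by
  unfold pk
  have h1 : 0 < t ^ 2 + y ^ 2 := by positivity
  have hπ := Real.pi_pos
  rw [mul_assoc, mul_inv]
  refine mul_le_mul_of_nonneg_left ?_ (by positivity)
  rw [← div_eq_mul_inv, div_le_iff₀ h1, inv_mul_eq_div, le_div_iff₀ hy]
  nlinarith [sq_nonneg t]

/-- Harnack inequality for the kernel. -/
theorem pk_shift {y : ℝ} (hy : 0 < y) (t a : ℝ) :
    pk y (t + a) ≤ 2 * (1 + (a / y) ^ 2) * pk y t := by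
  unfold pk
  have h1 : 0 < t ^ 2 + y ^ 2 := by positivity
  have h2 : 0 < (t + a) ^ 2 + y ^ 2 := by positivity
  have hπ := Real.pi_pos
  have key : t ^ 2 + y ^ 2 ≤ 2 * (1 + (a / y) ^ 2) * ((t + a) ^ 2 + y ^ 2) := by
    have e1 : 2 * (1 + (a / y) ^ 2) * ((t + a) ^ 2 + y ^ 2) =
        2 * (t + a) ^ 2 + 2 * y ^ 2 + 2 * a ^ 2 + 2 * (a / y) ^ 2 * (t + a) ^ 2 := by
      have : (a / y) ^ 2 * y ^ 2 = a ^ 2 := by
        rw [← mul_pow, div_mul_cancel₀ _ hy.ne']
      linear_combination 2 * this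
    rw [e1]
    nlinarith [sq_nonneg (t + 2 * a), mul_nonneg (sq_nonneg (a / y)) (sq_nonneg (t + a)),
      sq_nonneg y]
  have h3 : ((t + a) ^ 2 + y ^ 2)⁻¹ ≤ 2 * (1 + (a / y) ^ 2) * (t ^ 2 + y ^ 2)⁻¹ := by
    rw [← div_eq_mul_inv, inv_eq_one_div, div_le_div_iff₀ h2 h1]
    linarith
  calc π⁻¹ * y * ((t + a) ^ 2 + y ^ 2)⁻¹ ≤
      π⁻¹ * y * (2 * (1 + (a / y) ^ 2) * (t ^ 2 + y ^ 2)⁻¹) :=
        mul_le_mul_of_nonneg_left h3 (by positivity)
    _ = _ := by ring

theorem pk_scale {y z : ℝ} (hy : 0 < y) (hyz : y ≤ z) (t : ℝ) : pk y t ≤ z / y * pk z t := by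
  unfold pk
  have hz : 0 < z := hy.trans_le hyz
  have h1 : 0 < t ^ 2 + y ^ 2 := by positivity
  have h2 : 0 < t ^ 2 + z ^ 2 := by positivity
  have hπ := Real.pi_pos
  have key : y ^ 2 * (t ^ 2 + z ^ 2) ≤ z ^ 2 * (t ^ 2 + y ^ 2) := by
    have : y ^ 2 ≤ z ^ 2 := pow_le_pow_left₀ hy.le hyz 2
    nlinarith [sq_nonneg t]
  have h3 : y * (t ^ 2 + y ^ 2)⁻¹ ≤ z / y * z * (t ^ 2 + z ^ 2)⁻¹ := by
    rw [← div_eq_mul_inv, ← div_eq_mul_inv, div_le_div_iff₀ h1 h2]
    have e1 : z / y * z * (t ^ 2 + y ^ 2) = (z ^ 2 * (t ^ 2 + y ^ 2)) / y := by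
      field_simp
    rw [e1, le_div_iff₀ hy]
    nlinarith
  calc π⁻¹ * y * (t ^ 2 + y ^ 2)⁻¹ = π⁻¹ * (y * (t ^ 2 + y ^ 2)⁻¹) := by ring
    _ ≤ π⁻¹ * (z / y * z * (t ^ 2 + z ^ 2)⁻¹) := mul_le_mul_of_nonneg_left h3 (by positivity)
    _ = _ := by ring

variable {V : Type*} [NormedAddCommGroup V] [InnerProductSpace ℝ V] [FiniteDimensional ℝ V]
  [MeasurableSpace V] [BorelSpace V]

/-- Continuous, nonnegative, bounded and integrable. -/
structure Nice (u : V → ℝ) : Prop where
  cont : Continuous u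
  nonneg : ∀ x, 0 ≤ u x
  bdd : ∃ C, ∀ x, u x ≤ C
  int : Integrable u

variable {u v : V → ℝ} {y : ℝ}

theorem Nice.slice (hu : Nice u) (hy : 0 < y) (ω x : V) :
    Integrable (fun t => pk y t * u (x - t • ω)) := by
  obtain ⟨C, hC⟩ := hu.bdd
  have h := (av_int hy).bdd_mul (c := C) (f := fun t : ℝ => u (x - t • ω))
    ((hu.cont.comp (by fun_prop)).aestronglyMeasurable) (Eventually.of_forall fun t => by
      rw [Real.norm_of_nonneg (hu.nonneg _)]; exact hC _)
  refine h.congr (Eventually.of_forall fun t => ?_)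
  simp only
  ring

omit [FiniteDimensional ℝ V] [MeasurableSpace V] [BorelSpace V] in
theorem av_nonneg (hu : ∀ x, 0 ≤ u x) (hy : 0 < y) (ω x : V) : 0 ≤ pav y ω u x :=
  integral_nonneg fun t => mul_nonneg (pk_nonneg hy t) (hu _)

omit [FiniteDimensional ℝ V] [MeasurableSpace V] [BorelSpace V] in
theorem av_le_const (hu : ∀ x, 0 ≤ u x) {C : ℝ} (hC : ∀ x, u x ≤ C) (hy : 0 < y) (ω x : V) :
    pav y ω u x ≤ C := by
  have h1 : ∫ t, pk y t * C = C := by rw [integral_mul_const, av_one hy, one_mul]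
  rw [← h1]
  refine integral_mono_of_nonneg (Eventually.of_forall fun t =>
    mul_nonneg (pk_nonneg hy t) (hu _)) ((av_int hy).mul_const C)
    (Eventually.of_forall fun t => ?_)
  exact mul_le_mul_of_nonneg_left (hC _) (pk_nonneg hy t)

omit [FiniteDimensional ℝ V] [MeasurableSpace V] [BorelSpace V] in
/-- Comparison of averages. -/
theorem av_comp {z : ℝ} {ω ω' : V} {c : ℝ} {x x' : V} (hu : ∀ x, 0 ≤ u x) (hy : 0 < y)
    (hv : Integrable (fun t => pk z t * v (x' - t • ω')))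
    (h : ∀ t, pk y t * u (x - t • ω) ≤ c * (pk z t * v (x' - t • ω'))) :
    pav y ω u x ≤ c * pav z ω' v x' := by
  unfold pav
  rw [← integral_const_mul]
  exact integral_mono_of_nonneg (Eventually.of_forall fun t =>
    mul_nonneg (pk_nonneg hy t) (hu _)) (hv.const_mul c) (Eventually.of_forall h)

theorem Nice.continuous_pav (hu : Nice u) (hy : 0 < y) (ω : V) : Continuous (pav y ω u) := by
  obtain ⟨C, hC⟩ := hu.bdd
  refine continuous_of_dominated (F := fun (x : V) (t : ℝ) => pk y t * u (x - t • ω))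
    (bound := fun t => pk y t * C) (fun x => (hu.slice hy ω x).aestronglyMeasurable)
    (fun x => Eventually.of_forall fun t => ?_) ((av_int hy).mul_const C)
    (Eventually.of_forall fun t => ?_)
  · rw [norm_mul, Real.norm_of_nonneg (pk_nonneg hy t), Real.norm_of_nonneg (hu.nonneg _)]
    exact mul_le_mul_of_nonneg_left (hC _) (pk_nonneg hy t)
  · exact continuous_const.mul (hu.cont.comp (by fun_prop))

theorem Nice.integrable_prod (hu : Nice u) (hy : 0 < y) (ω : V) :
    Integrable (Function.uncurry fun (x : V) (t : ℝ) => pk y t * u (x - t • ω))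
      (volume.prod volume) := by
  have hm : AEStronglyMeasurable (Function.uncurry fun (x : V) (t : ℝ) =>
      pk y t * u (x - t • ω)) (volume.prod volume) := by
    refine Continuous.aestronglyMeasurable ?_
    exact ((av_cont hy).comp continuous_snd).mul (hu.cont.comp (by fun_prop))
  rw [integrable_prod_iff' hm]
  have e1 : ∀ t : ℝ, ∫ x : V, u (x - t • ω) = ∫ x, u x := fun t => integral_sub_right_eq_self u _
  refine ⟨Eventually.of_forall fun t => ?_, ?_⟩
  · exact ((hu.int.comp_sub_right (t • ω)).const_mul (pk y t) :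
      Integrable fun x => pk y t * u (x - t • ω))
  have e2 : ∀ t : ℝ, ∫ x : V, ‖Function.uncurry (fun (x : V) (t : ℝ) =>
      pk y t * u (x - t • ω)) (x, t)‖ = pk y t * ∫ x, u x := by
    intro t
    rw [← e1 t, ← integral_const_mul]
    congr 1
    ext x
    simp only [Function.uncurry_apply_pair]
    rw [Real.norm_of_nonneg (mul_nonneg (pk_nonneg hy t) (hu.nonneg _))]
  simp only [e2]
  exact (av_int hy).mul_const _

theorem Nice.integral_pav (hu : Nice u) (hy : 0 < y) (ω : V) :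
    ∫ x, pav y ω u x = ∫ x, u x := by
  unfold pav
  rw [integral_integral_swap (hu.integrable_prod hy ω)]
  have e1 : ∀ t : ℝ, ∫ x : V, pk y t * u (x - t • ω) = pk y t * ∫ x, u x := by
    intro t
    rw [integral_const_mul, integral_sub_right_eq_self u]
  simp only [e1]
  rw [integral_mul_const, av_one hy, one_mul]

theorem Nice.pav (hu : Nice u) (hy : 0 < y) (ω : V) : Nice (pav y ω u) := by
  obtain ⟨C, hC⟩ := hu.bdd
  exact ⟨hu.continuous_pav hy ω, av_nonneg hu.nonneg hy ω,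
    ⟨C, av_le_const hu.nonneg hC hy ω⟩, (hu.integrable_prod hy ω).integral_prod_left⟩

/-- Harnack inequality along the direction. -/
theorem Nice.harnack (hu : Nice u) (hy : 0 < y) (ω x : V) (a : ℝ) :
    REPS.pav y ω u (x + a • ω) ≤ 2 * (1 + (a / y) ^ 2) * REPS.pav y ω u x := by
  have e1 : REPS.pav y ω u (x + a • ω) = ∫ t, pk y (t + a) * u (x - t • ω) := by
    unfold REPS.pav
    rw [← integral_add_right_eq_self _ a]
    congr 1
    ext t
    congr 2
    rw [add_smul]
    abel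
  rw [e1]
  unfold REPS.pav
  rw [← integral_const_mul]
  refine integral_mono_of_nonneg (Eventually.of_forall fun t =>
    mul_nonneg (pk_nonneg hy _) (hu.nonneg _)) ((hu.slice hy ω x).const_mul _)
    (Eventually.of_forall fun t => ?_)
  change pk y (t + a) * u (x - t • ω) ≤ 2 * (1 + (a / y) ^ 2) * (pk y t * u (x - t • ω))
  rw [← mul_assoc]
  exact mul_le_mul_of_nonneg_right (pk_shift hy t a) (hu.nonneg _)

/-- Harnack inequality for averages in two directions. -/
theorem Nice.harnack2 (hu : Nice u) {y' : ℝ} (hy : 0 < y) (hy' : 0 < y') (ω ω' x : V)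
    (a b : ℝ) : REPS.pav y ω (REPS.pav y' ω' u) (x + (a • ω + b • ω')) ≤
      4 * (1 + (a / y) ^ 2) * (1 + (b / y') ^ 2) * REPS.pav y ω (REPS.pav y' ω' u) x := by
  have h1 : REPS.pav y ω (REPS.pav y' ω' u) (x + (a • ω + b • ω')) ≤
      2 * (1 + (a / y) ^ 2) * REPS.pav y ω (REPS.pav y' ω' u) (x + b • ω') := by
    have := (hu.pav hy' ω').harnack hy ω (x + b • ω') a
    convert this using 2
    abel
  have h2 : REPS.pav y ω (REPS.pav y' ω' u) (x + b • ω') ≤
      2 * (1 + (b / y') ^ 2) * REPS.pav y ω (REPS.pav y' ω' u) x := by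
    refine av_comp (hu.pav hy' ω').nonneg hy ((hu.pav hy' ω').slice hy ω x) fun t => ?_
    have h3 := hu.harnack hy' ω' (x - t • ω) b
    have e2 : x + b • ω' - t • ω = x - t • ω + b • ω' := by abel
    rw [e2]
    calc pk y t * REPS.pav y' ω' u (x - t • ω + b • ω') ≤
        pk y t * (2 * (1 + (b / y') ^ 2) * REPS.pav y' ω' u (x - t • ω)) :=
          mul_le_mul_of_nonneg_left h3 (pk_nonneg hy t)
      _ = _ := by ring
  calc _ ≤ _ := h1
    _ ≤ 2 * (1 + (a / y) ^ 2) * (2 * (1 + (b / y') ^ 2) *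
        REPS.pav y ω (REPS.pav y' ω' u) x) := mul_le_mul_of_nonneg_left h2 (by positivity)
    _ = _ := by ring

/-- Larger scales. -/
theorem Nice.pav2_le (hu : Nice u) {y' z z' : ℝ} (hy : 0 < y) (hy' : 0 < y') (hz : y ≤ z)
    (hz' : y' ≤ z') (ω ω' x : V) : REPS.pav y ω (REPS.pav y' ω' u) x ≤
      z / y * (z' / y') * REPS.pav z ω (REPS.pav z' ω' u) x := by
  have hz0 : 0 < z := hy.trans_le hz
  have hz0' : 0 < z' := hy'.trans_le hz'
  have h1 : ∀ x, REPS.pav y' ω' u x ≤ z' / y' * REPS.pav z' ω' u x := fun x =>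
    av_comp hu.nonneg hy' (hu.slice hz0' ω' x) fun t => by
      calc pk y' t * u (x - t • ω') ≤ (z' / y' * pk z' t) * u (x - t • ω') :=
            mul_le_mul_of_nonneg_right (pk_scale hy' hz' t) (hu.nonneg _)
        _ = _ := by ring
  refine av_comp (hu.pav hy' ω').nonneg hy ((hu.pav hz0' ω').slice hz0 ω x) fun t => ?_
  have h2 := pk_scale hy hz t
  have h3 := h1 (x - t • ω)
  calc pk y t * REPS.pav y' ω' u (x - t • ω) ≤
      (z / y * pk z t) * (z' / y' * REPS.pav z' ω' u (x - t • ω)) :=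
        mul_le_mul h2 h3 ((hu.pav hy' ω').nonneg _)
          (mul_nonneg (div_nonneg hz0.le hy.le) (pk_nonneg hz0 t))
    _ = _ := by ring

/-! ### The plane -/

/-- Coordinates in the frame of angle `φ`. -/
noncomputable def frm (φ : ℝ) : V2 →ₗ[ℝ] V2 where
  toFun z := z 0 • dir φ + z 1 • nrm φ
  map_add' x y := by
    simp only [PiLp.add_apply, add_smul]
    abel
  map_smul' c x := by
    simp only [PiLp.smul_apply, smul_eq_mul, RingHom.id_apply, smul_add, smul_smul]

theorem frm_det (φ : ℝ) : LinearMap.det (frm φ) = 1 := by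
  rw [← LinearMap.det_toMatrix (EuclideanSpace.basisFun (Fin 2) ℝ).toBasis, Matrix.det_fin_two]
  simp only [LinearMap.toMatrix_apply, frm, LinearMap.coe_mk, AddHom.coe_mk,
    OrthonormalBasis.coe_toBasis,
    OrthonormalBasis.coe_toBasis_repr_apply, EuclideanSpace.basisFun_apply,
    EuclideanSpace.basisFun_repr, dir, nrm]
  simp
  have h := Real.sin_sq_add_cos_sq φ
  linear_combination h

theorem frm_mp (φ : ℝ) : MeasurePreserving (frm φ) := by
  refine ⟨(LinearMap.continuous_of_finiteDimensional _).measurable, ?_⟩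
  rw [Measure.map_linearMap_addHaar_eq_smul_addHaar (volume : Measure V2)
    (by rw [frm_det]; exact one_ne_zero), frm_det]
  simp

theorem frm_emb (φ : ℝ) : MeasurableEmbedding (frm φ) := by
  have h3 := ((LinearEquiv.ofIsUnitDet (v := (EuclideanSpace.basisFun (Fin 2) ℝ).toBasis)
    (v' := (EuclideanSpace.basisFun (Fin 2) ℝ).toBasis) (f := frm φ) (by
      rw [LinearMap.det_toMatrix, frm_det]
      exact isUnit_one)).toContinuousLinearEquiv).toHomeomorph.measurableEmbedding
  exact h3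

/-- Fubini in the frame of angle `φ`. -/
theorem integral_frame {u : V2 → ℝ} (hu : Integrable u) (φ : ℝ) (x : V2) :
    Integrable (fun p : ℝ × ℝ => u (x - p.1 • dir φ - p.2 • nrm φ)) (volume.prod volume) ∧
      ∫ t : ℝ, ∫ s : ℝ, u (x - t • dir φ - s • nrm φ) = ∫ z, u z := by
  have e0 : MeasurePreserving (fun p : ℝ × ℝ => (!₂[p.1, p.2] : V2)) (volume.prod volume)
      volume := by
    have h1 := (volume_preserving_finTwoArrow ℝ).symm
    have h2 := PiLp.volume_preserving_toLp (Fin 2)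
    have h3 := h2.comp h1
    have e : (fun p : ℝ × ℝ => (!₂[p.1, p.2] : V2)) =
        (WithLp.toLp 2) ∘ (MeasurableEquiv.finTwoArrow (α := ℝ)).symm := by
      funext p
      ext i
      fin_cases i <;> rfl
    rw [e]
    exact h3
  have e1 : MeasurableEmbedding (fun p : ℝ × ℝ => (!₂[p.1, p.2] : V2)) := by
    have h1 := (MeasurableEquiv.finTwoArrow (α := ℝ)).symm.measurableEmbedding
    have h2 := (MeasurableEquiv.toLp 2 (Fin 2 → ℝ)).measurableEmbedding
    have h3 := h2.comp h1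
    have e : (fun p : ℝ × ℝ => (!₂[p.1, p.2] : V2)) =
        (MeasurableEquiv.toLp 2 (Fin 2 → ℝ)) ∘ (MeasurableEquiv.finTwoArrow (α := ℝ)).symm := by
      funext p
      ext i
      fin_cases i <;> rfl
    rw [e]
    exact h3
  have m1 : MeasurePreserving (fun p : ℝ × ℝ => frm φ (!₂[p.1, p.2] : V2)) (volume.prod volume)
      volume := (frm_mp φ).comp e0
  have m2 : MeasurableEmbedding (fun p : ℝ × ℝ => frm φ (!₂[p.1, p.2] : V2)) :=
    (frm_emb φ).comp e1
  have hx : Integrable (fun z : V2 => u (x - z)) := hu.comp_sub_left x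
  have e2 : ∀ p : ℝ × ℝ, u (x - frm φ (!₂[p.1, p.2] : V2)) =
      u (x - p.1 • dir φ - p.2 • nrm φ) := by
    intro p
    congr 1
    simp only [frm, LinearMap.coe_mk, AddHom.coe_mk]
    rw [sub_sub]
    rfl
  have h4 : Integrable (fun p : ℝ × ℝ => u (x - p.1 • dir φ - p.2 • nrm φ))
      (volume.prod volume) := by
    have := (m1.integrable_comp_emb m2).2 hx
    refine this.congr (Eventually.of_forall fun p => ?_)
    exact e2 p
  refine ⟨h4, ?_⟩
  have h5 := m1.integral_comp m2 (fun z : V2 => u (x - z))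
  rw [integral_sub_left_eq_self u volume x] at h5
  rw [← h5]
  simp only [e2]
  rw [integral_prod _ h4]

/-- Sup bound for averages in two orthogonal directions. -/
theorem Nice.pav2_sup {u : V2 → ℝ} (hu : Nice u) {y y' : ℝ} (hy : 0 < y) (hy' : 0 < y')
    (φ : ℝ) (x : V2) :
    REPS.pav y (dir φ) (REPS.pav y' (nrm φ) u) x ≤ (π * y)⁻¹ * (π * y')⁻¹ * ∫ z, u z := by
  have hπ := Real.pi_pos
  obtain ⟨h1, h2⟩ := integral_frame hu.int φ x
  rw [← h2, ← integral_const_mul]
  have h3 : Integrable fun t : ℝ => ∫ s : ℝ, u (x - t • dir φ - s • nrm φ) :=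
    h1.integral_prod_left
  unfold REPS.pav
  refine integral_mono_ae ((hu.pav hy' (nrm φ)).slice hy (dir φ) x) (h3.const_mul _) ?_
  filter_upwards [h1.prod_right_ae] with t ht
  have h4 : ∫ s : ℝ, pk y' s * u (x - t • dir φ - s • nrm φ) ≤
      (π * y')⁻¹ * ∫ s : ℝ, u (x - t • dir φ - s • nrm φ) := by
    rw [← integral_const_mul]
    refine integral_mono_of_nonneg (Eventually.of_forall fun s : ℝ =>
      mul_nonneg (pk_nonneg hy' s) (hu.nonneg _)) (ht.const_mul _)
      (Eventually.of_forall fun s : ℝ => ?_)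
    exact mul_le_mul_of_nonneg_right (av_pk_le hy' s) (hu.nonneg _)
  have h5 : 0 ≤ ∫ s : ℝ, pk y' s * u (x - t • dir φ - s • nrm φ) :=
    integral_nonneg fun s : ℝ => mul_nonneg (pk_nonneg hy' s) (hu.nonneg _)
  calc pk y t * ∫ s : ℝ, pk y' s * u (x - t • dir φ - s • nrm φ) ≤
      (π * y)⁻¹ * ((π * y')⁻¹ * ∫ s : ℝ, u (x - t • dir φ - s • nrm φ)) :=
        mul_le_mul (av_pk_le hy t) h4 h5 (by positivity)
    _ = _ := by ring

end REPS
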