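import Pool.Agent.REPS.Defs2
import Pool.Agent.REPS.Pav

/-! Row DOM1: elementary facts on the densities, Harnack inequalities. -/

open MeasureTheory Filter Topology Real Metric FourierTransform
open scoped ENNReal NNReal InnerProductSpace Pointwise

namespace REPS

namespace Par

theorem dom_measurable_idx (P : Par) (i : ℕ) : Measurable (P.idx i) := by
  unfold idx trn
  refine Nat.measurable_floor.comp (measurable_const.mul (measurable_fract.comp ?_))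
  refine ((Complex.measurable_arg.comp ?_).sub_const _).div_const _
  have : (fun ξ : V2 => (⟨ξ 0, ξ 1⟩ : ℂ)) = fun ξ : V2 => ((ξ 0 : ℝ) : ℂ) + ((ξ 1 : ℝ) : ℂ) *
      Complex.I := by
    funext ξ
    exact Complex.mk_eq_add_mul_I _ _
  rw [this]
  fun_prop

variable (P : Par) {G : V2 → ℂ}

theorem dom_piece (hG : P.Good G) (i j : ℕ) : Integrable (P.piece G i j) ∧
    MemLp (P.piece G i j) 2 := by
  have hm : MeasurableSet {ξ | P.idx i ξ = j} :=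
    (P.dom_measurable_idx i) (measurableSet_singleton j)
  exact ⟨hG.int.indicator hm, hG.lp.indicator hm⟩

theorem dom_nice (hG : P.Good G) (i j : ℕ) : Nice (fun z => ‖P.gp G i j z‖ ^ 2) := by
  obtain ⟨h1, h2⟩ := P.dom_piece hG i j
  refine ⟨?_, fun x => sq_nonneg _, ⟨(∫ ξ, ‖P.piece G i j ξ‖) ^ 2, fun x => ?_⟩, ?_⟩
  · exact (Helper77.TA.continuous_fourierInv h1).norm.pow 2
  · exact pow_le_pow_left₀ (norm_nonneg _) (Helper77.TA.norm_fourierInv_le _ h1 x) 2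
  · exact (memLp_two_iff_integrable_sq_norm
      (Helper77.TA.continuous_fourierInv h1).aestronglyMeasurable).1
      (Helper77.TA.memLp_fourierInv h1 h2)

theorem A_ge_one : 1 ≤ P.A := by
  unfold A
  have := P.q_pos
  exact one_le_pow₀ (by exact_mod_cast this)

theorem y0_pos : 0 < P.y0 := lt_of_lt_of_le one_pos P.hy0

theorem y0_le_A : P.y0 ≤ P.A := by
  unfold A
  have h1 : (1 : ℝ) ≤ P.q := by exact_mod_cast P.q_pos
  have h2 : (P.q : ℝ) ≤ (P.q : ℝ) ^ 8 := by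
    calc (P.q : ℝ) = (P.q : ℝ) ^ 1 := (pow_one _).symm
      _ ≤ (P.q : ℝ) ^ 8 := pow_le_pow_right₀ h1 (by norm_num)
  exact P.hqy.trans h2

theorem one_le_sqrtR : 1 ≤ √P.R := by
  have h1 : (1 : ℝ) ≤ (P.q : ℝ) ^ (4 * P.k) := one_le_pow₀ (by exact_mod_cast P.q_pos)
  exact h1.trans P.hR

/-- Elementary facts on the densities. -/
theorem dens_basic (P : Par) {G : V2 → ℂ} (hG : P.Good G) (κ : ℕ) :
    (∀ x, 0 ≤ P.E G κ x) ∧ (∀ x, 0 ≤ P.Sb G κ x) ∧ (∀ x, P.E G κ x ≤ P.A ^ 2 * P.Sb G κ x) ∧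
    Continuous (P.E G κ) ∧ Continuous (P.Sb G κ) ∧ Integrable (P.E G κ) ∧
    Integrable (P.Sb G κ) ∧ ∫ x, P.E G κ x = ∫ x, ‖P.gp G 0 κ x‖ ^ 2 ∧
    ∫ x, P.Sb G κ x = ∫ x, ‖P.gp G 0 κ x‖ ^ 2 ∧
    (∀ x, P.Sb G κ x ≤ √P.R / P.A ^ 2 * ∫ z, ‖P.gp G 0 κ z‖ ^ 2) := by
  have hu := P.dom_nice hG 0 κ
  have hR := P.sqrtR_pos
  have hA1 := P.A_ge_one
  have hA : 0 < P.A := lt_of_lt_of_le one_pos hA1
  have hy := P.y0_pos
  have r1 : 0 < 1 / √P.R := by positivity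
  have r2 : 0 < P.A / √P.R := by positivity
  have n1 := hu.pav r1 (nrm (P.cen 0 κ))
  have n2 := hu.pav r2 (nrm (P.cen 0 κ))
  have m1 : Nice (P.E G κ) := n1.pav hy (dir (P.cen 0 κ))
  have m2 : Nice (P.Sb G κ) := n2.pav hA (dir (P.cen 0 κ))
  refine ⟨m1.nonneg, m2.nonneg, fun x => ?_, m1.cont, m2.cont, m1.int, m2.int, ?_, ?_, fun x => ?_⟩
  · have h1 := hu.pav2_le hy r1 P.y0_le_A (div_le_div_of_nonneg_right hA1 hR.le)
      (dir (P.cen 0 κ)) (nrm (P.cen 0 κ)) x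
    refine h1.trans (mul_le_mul_of_nonneg_right ?_ (m2.nonneg x))
    have e1 : P.A / √P.R / (1 / √P.R) = P.A := by field_simp
    rw [e1, sq]
    refine mul_le_mul_of_nonneg_right ?_ hA.le
    exact div_le_self hA.le P.hy0
  · exact (n1.integral_pav hy _).trans (hu.integral_pav r1 _)
  · exact (n2.integral_pav hA _).trans (hu.integral_pav r2 _)
  · have h1 := hu.pav2_sup hA r2 (P.cen 0 κ) x
    refine h1.trans (mul_le_mul_of_nonneg_right ?_ (integral_nonneg fun z => sq_nonneg _))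
    have hπ : (1 : ℝ) ≤ π := by have := Real.two_le_pi; linarith
    have e1 : (π * P.A)⁻¹ * (π * (P.A / √P.R))⁻¹ = (π ^ 2)⁻¹ * (√P.R / P.A ^ 2) := by
      field_simp
    rw [e1]
    have h2 : (π ^ 2)⁻¹ ≤ 1 := inv_le_one_of_one_le₀ (one_le_pow₀ hπ)
    have h3 : 0 ≤ √P.R / P.A ^ 2 := by positivity
    nlinarith

/-- Components in a rotated frame. -/
theorem frame_dir (φ ψ : ℝ) (z : V2) : ⟪z, dir φ⟫_ℝ =
    ⟪z, dir ψ⟫_ℝ * Real.cos (φ - ψ) + ⟪z, nrm ψ⟫_ℝ * Real.sin (φ - ψ) := by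
  simp only [psi_inner, dir, nrm]
  simp
  rw [Real.cos_sub, Real.sin_sub]
  have h := Real.sin_sq_add_cos_sq ψ
  linear_combination (-(z.ofLp 0) * Real.cos φ - (z.ofLp 1) * Real.sin φ) * h

theorem frame_nrm (φ ψ : ℝ) (z : V2) : ⟪z, nrm φ⟫_ℝ =
    ⟪z, nrm ψ⟫_ℝ * Real.cos (φ - ψ) - ⟪z, dir ψ⟫_ℝ * Real.sin (φ - ψ) := by
  simp only [psi_inner, dir, nrm]
  simp
  rw [Real.cos_sub, Real.sin_sub]
  have h := Real.sin_sq_add_cos_sq ψ
  linear_combination ((z.ofLp 0) * Real.sin φ - (z.ofLp 1) * Real.cos φ) * h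

theorem l_pow {i : ℕ} (hi : i ≤ P.k) : P.l i = (P.b : ℝ) ^ i * P.l 0 := by
  induction i with
  | zero => rw [pow_zero, one_mul]
  | succ i ih => rw [P.l_succ hi, ih (by omega), pow_succ]; ring

theorem dm_cen_near {i : ℕ} (hi : i ≤ P.k) {κ j : ℕ} (h : κ / P.b ^ i = j) :
    |P.cen 0 κ - P.cen i j| ≤ P.l i := by
  have hb : 0 < P.b ^ i := pow_pos P.b_pos i
  have hl := P.l_pos 0
  have h1 : j * P.b ^ i ≤ κ ∧ κ < (j + 1) * P.b ^ i := by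
    rw [Nat.div_eq_iff hb] at h
    constructor
    · exact h.1
    · have : (j + 1) * P.b ^ i = j * P.b ^ i + P.b ^ i := by ring
      omega
  have h2 : (j : ℝ) * (P.b : ℝ) ^ i ≤ κ := by exact_mod_cast h1.1
  have h3 : (κ : ℝ) + 1 ≤ ((j : ℝ) + 1) * (P.b : ℝ) ^ i := by exact_mod_cast h1.2
  have hb1 : (1 : ℝ) ≤ (P.b : ℝ) ^ i := by exact_mod_cast hb
  have e1 : P.cen 0 κ - P.cen i j = ((κ + 1 / 2) - (j + 1 / 2) * (P.b : ℝ) ^ i) * P.l 0 := by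
    unfold cen
    rw [P.l_pow hi]
    ring
  rw [e1, P.l_pow hi, abs_mul, abs_of_pos hl]
  refine mul_le_mul_of_nonneg_right ?_ hl.le
  rw [abs_le]
  constructor <;> nlinarith

theorem l_zero_le {i : ℕ} (hi : i ≤ P.k) : P.l 0 ≤ P.l i := by
  rw [P.l_pow hi]
  have hb1 : (1 : ℝ) ≤ (P.b : ℝ) ^ i := by exact_mod_cast pow_pos P.b_pos i
  have := P.l_pos 0
  nlinarith

theorem l_le_one {i : ℕ} (hi : i ≤ P.k) : P.l i ≤ 1 := by
  have h1 : P.l i ≤ P.l P.k := by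
    rw [P.l_pow hi, P.l_pow le_rfl]
    have hb1 : (1 : ℝ) ≤ (P.b : ℝ) := by exact_mod_cast P.b_pos
    exact mul_le_mul_of_nonneg_right (pow_le_pow_right₀ hb1 hi) (P.l_pos 0).le
  refine h1.trans ?_
  unfold l M
  rw [Nat.sub_self, pow_zero, mul_one]
  push_cast
  have := Real.pi_lt_d2
  linarith

/-- Harnack inequality for one density, with the two components of the shift. -/
theorem har_Sb (hG : P.Good G) (κ : ℕ) (x z : V2) : P.Sb G κ (x + z) ≤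
    4 * (1 + (⟪z, dir (P.cen 0 κ)⟫_ℝ / P.A) ^ 2) *
      (1 + (√P.R / P.A * ⟪z, nrm (P.cen 0 κ)⟫_ℝ) ^ 2) * P.Sb G κ x := by
  have hu := P.dom_nice hG 0 κ
  have hR := P.sqrtR_pos
  have hA : 0 < P.A := lt_of_lt_of_le one_pos P.A_ge_one
  have r2 : 0 < P.A / √P.R := by positivity
  have h := hu.harnack2 hA r2 (dir (P.cen 0 κ)) (nrm (P.cen 0 κ)) x ⟪z, dir (P.cen 0 κ)⟫_ℝ
    ⟪z, nrm (P.cen 0 κ)⟫_ℝ
  rw [← psi_frame (P.cen 0 κ) z] at h
  have e1 : ⟪z, nrm (P.cen 0 κ)⟫_ℝ / (P.A / √P.R) = √P.R / P.A * ⟪z, nrm (P.cen 0 κ)⟫_ℝ := by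
    field_simp
  rw [e1] at h
  exact h

theorem HAR_Sn : ∃ C : ℝ, 1 ≤ C ∧ ∀ P : Par, ∀ G, P.Good G → ∀ i ≤ P.k, ∀ j, ∀ x z,
    P.Sn G i j (x + z) ≤ C * (1 + P.nz i j z ^ 2) ^ 2 * P.Sn G i j x := by
  refine ⟨8, by norm_num, fun P G hG i hi j x z => ?_⟩
  unfold Sn
  rw [Finset.mul_sum]
  refine Finset.sum_le_sum fun κ hκ => ?_
  rw [Finset.mem_filter] at hκ
  have hR := P.sqrtR_pos
  have hR1 := P.one_le_sqrtR
  have hA1 := P.A_ge_one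
  have hA : 0 < P.A := lt_of_lt_of_le one_pos hA1
  refine (P.har_Sb hG κ x z).trans (mul_le_mul_of_nonneg_right ?_ ((P.dens_basic hG κ).2.1 x))
  have hth := P.dm_cen_near hi hκ.2
  set θ := P.cen 0 κ - P.cen i j with hθ
  set a := ⟪z, dir (P.cen i j)⟫_ℝ with ha
  set b := ⟪z, nrm (P.cen i j)⟫_ℝ with hb
  have hli := P.l_pos i
  have hs : |Real.sin θ| ≤ P.l i := (Real.abs_sin_le_abs).trans hth
  have hc : |Real.cos θ| ≤ 1 := Real.abs_cos_le_one θ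
  have hs1 : |Real.sin θ| ≤ 1 := Real.abs_sin_le_one θ
  have e1 := frame_dir (P.cen 0 κ) (P.cen i j) z
  have e2 := frame_nrm (P.cen 0 κ) (P.cen i j) z
  rw [← hθ, ← ha, ← hb] at e1 e2
  have b1 : |⟪z, nrm (P.cen 0 κ)⟫_ℝ| ≤ |b| + P.l i * |a| := by
    rw [e2]
    calc |b * Real.cos θ - a * Real.sin θ| ≤ |b * Real.cos θ| + |a * Real.sin θ| := abs_sub _ _
      _ = |b| * |Real.cos θ| + |a| * |Real.sin θ| := by rw [abs_mul, abs_mul]
      _ ≤ |b| * 1 + |a| * P.l i := add_le_add (mul_le_mul_of_nonneg_left hc (abs_nonneg _))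
          (mul_le_mul_of_nonneg_left hs (abs_nonneg _))
      _ = _ := by ring
  have a1 : |⟪z, dir (P.cen 0 κ)⟫_ℝ| ≤ |a| + |b| := by
    rw [e1]
    calc |a * Real.cos θ + b * Real.sin θ| ≤ |a * Real.cos θ| + |b * Real.sin θ| := abs_add_le _ _
      _ = |a| * |Real.cos θ| + |b| * |Real.sin θ| := by rw [abs_mul, abs_mul]
      _ ≤ |a| * 1 + |b| * 1 := add_le_add (mul_le_mul_of_nonneg_left hc (abs_nonneg _))
          (mul_le_mul_of_nonneg_left hs1 (abs_nonneg _))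
      _ = _ := by ring
  set N := P.nz i j z with hN
  have hN1 : N = √P.R / P.A * (|b| + P.l i * |a|) := rfl
  have hN0 : 0 ≤ N := by rw [hN1]; positivity
  have c1 : |√P.R / P.A * ⟪z, nrm (P.cen 0 κ)⟫_ℝ| ≤ N := by
    rw [abs_mul, abs_of_pos (by positivity), hN1]
    exact mul_le_mul_of_nonneg_left b1 (by positivity)
  have c2 : |⟪z, dir (P.cen 0 κ)⟫_ℝ / P.A| ≤ 4 / 3 * N := by
    have hl1 : 3 / 4 ≤ √P.R * P.l i := by
      have h1 := P.l_zero_bounds.1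
      have h2 := P.l_zero_le hi
      have h3 := Real.pi_gt_three
      nlinarith
    rw [abs_div, abs_of_pos hA, hN1, div_le_iff₀ hA]
    have e3 : 4 / 3 * (√P.R / P.A * (|b| + P.l i * |a|)) * P.A =
        4 / 3 * (√P.R * |b| + √P.R * P.l i * |a|) := by field_simp
    rw [e3]
    nlinarith [abs_nonneg a, abs_nonneg b, mul_le_mul_of_nonneg_right hl1 (abs_nonneg a),
      mul_le_mul_of_nonneg_right hR1 (abs_nonneg b)]
  have d1 : (√P.R / P.A * ⟪z, nrm (P.cen 0 κ)⟫_ℝ) ^ 2 ≤ N ^ 2 := by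
    rw [← sq_abs]
    exact pow_le_pow_left₀ (abs_nonneg _) c1 2
  have d2 : (⟪z, dir (P.cen 0 κ)⟫_ℝ / P.A) ^ 2 ≤ 2 * N ^ 2 := by
    rw [← sq_abs]
    have := pow_le_pow_left₀ (abs_nonneg _) c2 2
    nlinarith [sq_nonneg N]
  have d3 : 0 ≤ (⟪z, dir (P.cen 0 κ)⟫_ℝ / P.A) ^ 2 := sq_nonneg _
  have d4 : 0 ≤ (√P.R / P.A * ⟪z, nrm (P.cen 0 κ)⟫_ℝ) ^ 2 := sq_nonneg _
  nlinarith [mul_le_mul (add_le_add_left d2 1) (add_le_add_left d1 1) (by linarith)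
    (by nlinarith [sq_nonneg N]), sq_nonneg N, sq_nonneg (N ^ 2)]

theorem HAR_St : ∃ C : ℝ, 1 ≤ C ∧ ∀ P : Par, ∀ G, P.Good G → ∀ x z,
    P.St G (x + z) ≤ C * (1 + (√P.R / P.A * ‖z‖) ^ 2) ^ 2 * P.St G x := by
  refine ⟨4, by norm_num, fun P G hG x z => ?_⟩
  unfold St
  rw [Finset.mul_sum]
  refine Finset.sum_le_sum fun κ _ => ?_
  have hR := P.sqrtR_pos
  have hR1 := P.one_le_sqrtR
  have hA : 0 < P.A := lt_of_lt_of_le one_pos P.A_ge_one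
  refine (P.har_Sb hG κ x z).trans (mul_le_mul_of_nonneg_right ?_ ((P.dens_basic hG κ).2.1 x))
  have h1 := norm_sq_frame (P.cen 0 κ) z
  set a := ⟪z, dir (P.cen 0 κ)⟫_ℝ
  set b := ⟪z, nrm (P.cen 0 κ)⟫_ℝ
  have d1 : (√P.R / P.A * b) ^ 2 ≤ (√P.R / P.A * ‖z‖) ^ 2 := by
    rw [mul_pow, mul_pow]
    exact mul_le_mul_of_nonneg_left (by nlinarith [sq_nonneg a]) (by positivity)
  have d2 : (a / P.A) ^ 2 ≤ (√P.R / P.A * ‖z‖) ^ 2 := by
    have e1 : a / P.A = 1 / P.A * a := by ring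
    rw [e1, mul_pow, mul_pow]
    refine mul_le_mul ?_ (by nlinarith [sq_nonneg b]) (sq_nonneg _) (by positivity)
    exact pow_le_pow_left₀ (by positivity) (div_le_div_of_nonneg_right hR1 hA.le) 2
  set N := (√P.R / P.A * ‖z‖) ^ 2
  have d3 : 0 ≤ (a / P.A) ^ 2 := sq_nonneg _
  have d4 : 0 ≤ (√P.R / P.A * b) ^ 2 := sq_nonneg _
  have d5 : (1 + (a / P.A) ^ 2) * (1 + (√P.R / P.A * b) ^ 2) ≤ (1 + N) * (1 + N) :=
    mul_le_mul (by linarith) (by linarith) (by linarith) (by linarith)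
  nlinarith

/-- cyclic distance and sine -/
theorem sin_cd {κ κ' : ℕ} (h : κ < P.M 0) (h' : κ' < P.M 0) :
    |Real.sin (P.cen 0 κ - P.cen 0 κ')| ≤ P.cd κ κ' * P.l 0 := by
  have hl := P.l_pos 0
  have e1 : P.cen 0 κ - P.cen 0 κ' = ((κ : ℝ) - κ') * P.l 0 := by
    unfold cen
    ring
  have h1 : (κ : ℝ) < P.M 0 := by exact_mod_cast h
  have h2 : (κ' : ℝ) < P.M 0 := by exact_mod_cast h'
  have h3 : (0 : ℝ) ≤ κ := Nat.cast_nonneg _
  have h4 : (0 : ℝ) ≤ κ' := Nat.cast_nonneg _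
  have hM := P.l_mul_M 0
  have b1 : |Real.sin (P.cen 0 κ - P.cen 0 κ')| ≤ |(κ : ℝ) - κ'| * P.l 0 := by
    refine Real.abs_sin_le_abs.trans ?_
    rw [e1, abs_mul, abs_of_pos hl]
  have b2 : |Real.sin (P.cen 0 κ - P.cen 0 κ')| ≤ (P.M 0 - |(κ : ℝ) - κ'|) * P.l 0 := by
    have hs : ∀ t : ℝ, 0 ≤ t → t * P.l 0 ≤ 2 * π → |Real.sin (t * P.l 0)| ≤
        (P.M 0 - t) * P.l 0 := by
      intro t _ ht2
      have e2 : Real.sin (t * P.l 0) = -Real.sin ((P.M 0 - t) * P.l 0) := by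
        have e3 : (P.M 0 - t) * P.l 0 = 2 * π - t * P.l 0 := by rw [← hM]; ring
        rw [e3, Real.sin_two_pi_sub, neg_neg]
      rw [e2, abs_neg]
      refine Real.abs_sin_le_abs.trans (le_of_eq (abs_of_nonneg ?_))
      have e3 : (P.M 0 - t) * P.l 0 = 2 * π - t * P.l 0 := by rw [← hM]; ring
      rw [e3]
      linarith
    have h5 : |(κ : ℝ) - κ'| * P.l 0 ≤ 2 * π := by
      rw [← hM, mul_comm (P.l 0)]
      refine mul_le_mul_of_nonneg_right ?_ hl.le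
      rw [abs_le]
      constructor <;> linarith
    have h6 := hs _ (abs_nonneg _) h5
    rw [e1]
    rcases abs_cases ((κ : ℝ) - κ') with ⟨h7, -⟩ | ⟨h7, -⟩
    · rw [h7] at h6 ⊢
      exact h6
    · rw [h7] at h6 ⊢
      rwa [neg_mul, Real.sin_neg, abs_neg] at h6
  unfold cd
  rcases le_total (|(κ : ℝ) - κ'|) (P.M 0 - |(κ : ℝ) - κ'|) with h5 | h5
  · rw [min_eq_left h5]
    exact b1
  · rw [min_eq_right h5]
    exact b2

theorem cd_nonneg {κ κ' : ℕ} (h : κ < P.M 0) (h' : κ' < P.M 0) : 0 ≤ P.cd κ κ' := by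
  have h1 : (κ : ℝ) < P.M 0 := by exact_mod_cast h
  have h2 : (κ' : ℝ) < P.M 0 := by exact_mod_cast h'
  have h3 : (0 : ℝ) ≤ κ := Nat.cast_nonneg _
  have h4 : (0 : ℝ) ≤ κ' := Nat.cast_nonneg _
  unfold cd
  refine le_min (abs_nonneg _) ?_
  rw [sub_nonneg, abs_le]
  constructor <;> linarith

theorem HAR_E (y0 : ℝ) : ∃ C : ℝ, 0 < C ∧ ∀ P : Par, P.y0 = y0 → ∀ G, P.Good G →
    ∀ κ < P.M 0, ∀ κ' < P.M 0, ∀ x t, P.E G κ' (x + t • dir (P.cen 0 κ)) ≤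
      C * (1 + t ^ 2) * (1 + (t * P.cd κ κ') ^ 2) * P.E G κ' x := by
  refine ⟨12, by norm_num, fun P _ G hG κ hκ κ' hκ' x t => ?_⟩
  have hu := P.dom_nice hG 0 κ'
  have hR := P.sqrtR_pos
  have hy := P.y0_pos
  have r1 : 0 < 1 / √P.R := by positivity
  have h := hu.harnack2 hy r1 (dir (P.cen 0 κ')) (nrm (P.cen 0 κ')) x
    ⟪t • dir (P.cen 0 κ), dir (P.cen 0 κ')⟫_ℝ ⟪t • dir (P.cen 0 κ), nrm (P.cen 0 κ')⟫_ℝ
  rw [← psi_frame (P.cen 0 κ') (t • dir (P.cen 0 κ))] at h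
  refine h.trans (mul_le_mul_of_nonneg_right ?_ ((P.dens_basic hG κ').1 x))
  have a1 : ⟪t • dir (P.cen 0 κ), dir (P.cen 0 κ')⟫_ℝ =
      t * Real.cos (P.cen 0 κ - P.cen 0 κ') := by
    rw [inner_smul_left, inner_dir_dir]
    rfl
  have a2 : ⟪t • dir (P.cen 0 κ), nrm (P.cen 0 κ')⟫_ℝ =
      t * Real.sin (P.cen 0 κ - P.cen 0 κ') := by
    rw [inner_smul_left, real_inner_comm, inner_nrm_dir]
    rfl
  rw [a1, a2]
  have hs := P.sin_cd hκ hκ'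
  have hcd := P.cd_nonneg hκ hκ'
  have hl := P.l_zero_bounds.2
  have hl0 := P.l_pos 0
  have c1 : (t * Real.cos (P.cen 0 κ - P.cen 0 κ') / P.y0) ^ 2 ≤ t ^ 2 := by
    have h1 : Real.cos (P.cen 0 κ - P.cen 0 κ') ^ 2 ≤ 1 := Real.cos_sq_le_one _
    rw [div_pow, mul_pow, div_le_iff₀ (by positivity)]
    have h2 : 1 ≤ P.y0 ^ 2 := one_le_pow₀ P.hy0
    nlinarith [sq_nonneg t, mul_nonneg (sq_nonneg t) (sub_nonneg.2 h1)]
  have c2 : (t * Real.sin (P.cen 0 κ - P.cen 0 κ') / (1 / √P.R)) ^ 2 ≤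
      3 * (t * P.cd κ κ') ^ 2 := by
    have e1 : t * Real.sin (P.cen 0 κ - P.cen 0 κ') / (1 / √P.R) =
        t * (√P.R * Real.sin (P.cen 0 κ - P.cen 0 κ')) := by field_simp
    rw [e1, mul_pow, mul_pow t]
    have h1 : |√P.R * Real.sin (P.cen 0 κ - P.cen 0 κ')| ≤ P.cd κ κ' * (π / 2) := by
      rw [abs_mul, abs_of_pos hR]
      calc √P.R * |Real.sin (P.cen 0 κ - P.cen 0 κ')| ≤ √P.R * (P.cd κ κ' * P.l 0) :=
            mul_le_mul_of_nonneg_left hs hR.le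
        _ = P.cd κ κ' * (√P.R * P.l 0) := by ring
        _ ≤ P.cd κ κ' * (π / 2) := mul_le_mul_of_nonneg_left hl hcd
    have h2 : (√P.R * Real.sin (P.cen 0 κ - P.cen 0 κ')) ^ 2 ≤ (P.cd κ κ' * (π / 2)) ^ 2 := by
      rw [← sq_abs]
      exact pow_le_pow_left₀ (abs_nonneg _) h1 2
    have h3 : (P.cd κ κ' * (π / 2)) ^ 2 ≤ 3 * P.cd κ κ' ^ 2 := by
      have h4 := Real.pi_lt_d2
      have h5 := Real.pi_pos
      have h6 : (π / 2) ^ 2 ≤ 3 := by nlinarith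
      rw [mul_pow]
      nlinarith [sq_nonneg (P.cd κ κ')]
    calc t ^ 2 * (√P.R * Real.sin (P.cen 0 κ - P.cen 0 κ')) ^ 2 ≤
        t ^ 2 * (3 * P.cd κ κ' ^ 2) := mul_le_mul_of_nonneg_left (h2.trans h3) (sq_nonneg _)
      _ = _ := by ring
  have d1 : 0 ≤ (t * P.cd κ κ') ^ 2 := sq_nonneg _
  have d2 : 0 ≤ (t * Real.cos (P.cen 0 κ - P.cen 0 κ') / P.y0) ^ 2 := sq_nonneg _
  have d3 : 0 ≤ (t * Real.sin (P.cen 0 κ - P.cen 0 κ') / (1 / √P.R)) ^ 2 := sq_nonneg _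
  have d4 : (1 + (t * Real.cos (P.cen 0 κ - P.cen 0 κ') / P.y0) ^ 2) *
      (1 + (t * Real.sin (P.cen 0 κ - P.cen 0 κ') / (1 / √P.R)) ^ 2) ≤
      (1 + t ^ 2) * (1 + 3 * (t * P.cd κ κ') ^ 2) :=
    mul_le_mul (by linarith) (by linarith) (by linarith) (by positivity)
  have d5 : (1 + t ^ 2) * (1 + 3 * (t * P.cd κ κ') ^ 2) ≤
      (1 + t ^ 2) * (3 * (1 + (t * P.cd κ κ') ^ 2)) :=
    mul_le_mul_of_nonneg_left (by linarith) (by positivity)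
  linarith

theorem geo_inj {r : ℝ} (h0 : 0 ≤ r) (h1 : r < 1) (S : Finset ℕ) (g : ℕ → ℕ)
    (hg : Set.InjOn g S) : ∑ κ ∈ S, r ^ g κ ≤ (1 - r)⁻¹ := by
  classical
  rw [← Finset.sum_image (f := fun n => r ^ n) hg]
  exact sum_le_hasSum _ (fun n _ => pow_nonneg h0 n) (hasSum_geometric_of_lt_one h0 h1)

theorem cd_sum : ∀ P : Par, ∀ κ' < P.M 0,
    ∑ κ ∈ Finset.range (P.M 0), Real.exp (-(P.cd κ κ')) ≤ 4 := by
  classical
  intro P κ' hκ'
  obtain ⟨r, hr⟩ : ∃ r : ℝ, r = Real.exp (-1) := ⟨_, rfl⟩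
  have r0 : 0 ≤ r := hr ▸ (Real.exp_pos _).le
  have r1 : r ≤ 0.37 := by
    rw [hr, Real.exp_neg, inv_le_comm₀ (Real.exp_pos 1) (by norm_num)]
    have := Real.exp_one_gt_d9
    norm_num at this ⊢
    linarith
  have hexp : ∀ n : ℕ, Real.exp (-(n : ℝ)) = r ^ n := by
    intro n
    rw [hr, ← Real.exp_nat_mul]
    congr 1
    ring
  have key : ∀ κ ∈ Finset.range (P.M 0), Real.exp (-(P.cd κ κ')) ≤
      if κ' ≤ κ then r ^ (κ - κ') + r * r ^ (P.M 0 - 1 - (κ - κ'))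
      else r * r ^ (κ' - κ - 1) + r * r ^ (P.M 0 - 1 - (κ' - κ)) := by
    intro κ hκ
    rw [Finset.mem_range] at hκ
    have h1 : Real.exp (-(P.cd κ κ')) ≤ Real.exp (-|(κ : ℝ) - κ'|) +
        Real.exp (-(P.M 0 - |(κ : ℝ) - κ'|)) := by
      unfold cd
      rcases le_total (|(κ : ℝ) - κ'|) (P.M 0 - |(κ : ℝ) - κ'|) with h5 | h5
      · rw [min_eq_left h5]
        linarith [Real.exp_pos (-(P.M 0 - |(κ : ℝ) - κ'|))]
      · rw [min_eq_right h5]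
        linarith [Real.exp_pos (-|(κ : ℝ) - κ'|)]
    refine h1.trans (le_of_eq ?_)
    split_ifs with h2
    · have e1 : |(κ : ℝ) - κ'| = ((κ - κ' : ℕ) : ℝ) := by
        rw [Nat.cast_sub h2, abs_of_nonneg]
        have : (κ' : ℝ) ≤ κ := by exact_mod_cast h2
        linarith
      have e2 : (P.M 0 : ℝ) - ((κ - κ' : ℕ) : ℝ) = ((P.M 0 - (κ - κ') : ℕ) : ℝ) :=
        (Nat.cast_sub (by omega)).symm
      rw [e1, e2, hexp, hexp, ← pow_succ']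
      congr 2
      omega
    · have e1 : |(κ : ℝ) - κ'| = ((κ' - κ : ℕ) : ℝ) := by
        have h3 : κ ≤ κ' := by omega
        have h4 : (κ : ℝ) ≤ κ' := by exact_mod_cast h3
        rw [Nat.cast_sub h3, abs_of_nonpos (by linarith)]
        ring
      have e2 : (P.M 0 : ℝ) - ((κ' - κ : ℕ) : ℝ) = ((P.M 0 - (κ' - κ) : ℕ) : ℝ) :=
        (Nat.cast_sub (by omega)).symm
      rw [e1, e2, hexp, hexp, ← pow_succ', ← pow_succ']
      congr 2 <;> omega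
  refine (Finset.sum_le_sum key).trans ?_
  rw [Finset.sum_ite, Finset.sum_add_distrib, Finset.sum_add_distrib, ← Finset.mul_sum,
    ← Finset.mul_sum, ← Finset.mul_sum]
  have hr1 : r < 1 := by linarith
  have g1 := geo_inj r0 hr1 ((Finset.range (P.M 0)).filter fun κ => κ' ≤ κ) (fun κ => κ - κ') (by
    intro a ha b hb h
    rw [Finset.coe_filter, Set.mem_ofPred_eq, Finset.mem_range] at ha hb
    simp only at h
    omega)
  have g2 := geo_inj r0 hr1 ((Finset.range (P.M 0)).filter fun κ => κ' ≤ κ)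
    (fun κ => P.M 0 - 1 - (κ - κ')) (by
    intro a ha b hb h
    rw [Finset.coe_filter, Set.mem_ofPred_eq, Finset.mem_range] at ha hb
    simp only at h
    omega)
  have g3 := geo_inj r0 hr1 ((Finset.range (P.M 0)).filter fun κ => ¬ κ' ≤ κ)
    (fun κ => κ' - κ - 1) (by
    intro a ha b hb h
    rw [Finset.coe_filter, Set.mem_ofPred_eq, Finset.mem_range] at ha hb
    simp only at h
    omega)
  have g4 := geo_inj r0 hr1 ((Finset.range (P.M 0)).filter fun κ => ¬ κ' ≤ κ)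
    (fun κ => P.M 0 - 1 - (κ' - κ)) (by
    intro a ha b hb h
    rw [Finset.coe_filter, Set.mem_ofPred_eq, Finset.mem_range] at ha hb
    simp only at h
    omega)
  have h5 : (1 - r)⁻¹ ≤ 1.6 := by
    rw [inv_le_comm₀ (by linarith) (by norm_num)]
    norm_num
    linarith
  have h6 := mul_le_mul_of_nonneg_left g2 r0
  have h7 := mul_le_mul_of_nonneg_left g3 r0
  have h8 := mul_le_mul_of_nonneg_left g4 r0
  have h9 : 0 ≤ (1 - r)⁻¹ := inv_nonneg.2 (by linarith)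
  have h10 : r * (1 - r)⁻¹ ≤ 0.37 * 1.6 := mul_le_mul r1 h5 h9 (by norm_num)
  have h11 : (0.37 : ℝ) * 1.6 ≤ 0.6 := by norm_num
  linarith

end Par

end REPS
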