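import Pool.Agent.REPS.Defs

open MeasureTheory Filter Topology Real Metric FourierTransform
open scoped ENNReal NNReal InnerProductSpace Pointwise

namespace REPS

open Helper77.TA

theorem inner_dir_dir (φ ψ : ℝ) : ⟪dir φ, dir ψ⟫_ℝ = Real.cos (φ - ψ) := by
  simp only [dir, PiLp.inner_apply, Fin.sum_univ_two, Real.cos_sub]
  simp
  ring

theorem inner_nrm_dir (φ ψ : ℝ) : ⟪nrm φ, dir ψ⟫_ℝ = Real.sin (ψ - φ) := by
  simp only [dir, nrm, PiLp.inner_apply, Fin.sum_univ_two, Real.sin_sub]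
  simp
  ring

theorem norm_dir (φ : ℝ) : ‖dir φ‖ = 1 := by
  have h := inner_dir_dir φ φ
  rw [sub_self, Real.cos_zero, real_inner_self_eq_norm_sq] at h
  have h0 := norm_nonneg (dir φ)
  nlinarith

theorem norm_nrm (φ : ℝ) : ‖nrm φ‖ = 1 := by
  have h : ⟪nrm φ, nrm φ⟫_ℝ = 1 := by
    simp only [nrm, PiLp.inner_apply, Fin.sum_univ_two]
    simp
  rw [real_inner_self_eq_norm_sq] at h
  have h0 := norm_nonneg (nrm φ)
  nlinarith

theorem norm_sq_frame (φ : ℝ) (z : V2) : ‖z‖ ^ 2 = ⟪z, dir φ⟫_ℝ ^ 2 + ⟪z, nrm φ⟫_ℝ ^ 2 := by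
  rw [← real_inner_self_eq_norm_sq]
  simp only [dir, nrm, PiLp.inner_apply, Fin.sum_univ_two]
  simp
  have := Real.sin_sq_add_cos_sq φ
  linear_combination (-(z 0 ^ 2) - z 1 ^ 2) * this

theorem dir_sub (r1 r2 φ1 φ2 : ℝ) : r1 • dir φ1 - r2 • dir φ2 =
    ((r1 - r2) * Real.cos ((φ1 - φ2) / 2)) • dir ((φ1 + φ2) / 2) +
      ((r1 + r2) * Real.sin ((φ1 - φ2) / 2)) • nrm ((φ1 + φ2) / 2) := by
  have e1 : φ1 = (φ1 + φ2) / 2 + (φ1 - φ2) / 2 := by ring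
  have e2 : φ2 = (φ1 + φ2) / 2 - (φ1 - φ2) / 2 := by ring
  have c1 : Real.cos φ1 = Real.cos ((φ1 + φ2) / 2) * Real.cos ((φ1 - φ2) / 2) -
      Real.sin ((φ1 + φ2) / 2) * Real.sin ((φ1 - φ2) / 2) := by
    rw [← Real.cos_add]; congr 1
  have s1 : Real.sin φ1 = Real.sin ((φ1 + φ2) / 2) * Real.cos ((φ1 - φ2) / 2) +
      Real.cos ((φ1 + φ2) / 2) * Real.sin ((φ1 - φ2) / 2) := by
    rw [← Real.sin_add]; congr 1
  have c2 : Real.cos φ2 = Real.cos ((φ1 + φ2) / 2) * Real.cos ((φ1 - φ2) / 2) +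
      Real.sin ((φ1 + φ2) / 2) * Real.sin ((φ1 - φ2) / 2) := by
    rw [← Real.cos_sub]; congr 1
  have s2 : Real.sin φ2 = Real.sin ((φ1 + φ2) / 2) * Real.cos ((φ1 - φ2) / 2) -
      Real.cos ((φ1 + φ2) / 2) * Real.sin ((φ1 - φ2) / 2) := by
    rw [← Real.sin_sub]; congr 1
  ext i
  fin_cases i
  · simp only [dir, nrm]
    simp
    rw [c1, c2]
    ring
  · simp only [dir, nrm]
    simp
    rw [s1, s2]
    ring

/-- Every vector is its norm times a unit vector, with the argument of the complex number. -/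
theorem polar (ξ : V2) : ξ = ‖ξ‖ • dir (Complex.arg ⟨ξ 0, ξ 1⟩) := by
  have hn : ‖(⟨ξ 0, ξ 1⟩ : ℂ)‖ = ‖ξ‖ := by
    rw [EuclideanSpace.norm_eq, Fin.sum_univ_two, Complex.norm_def, Complex.normSq_mk]
    congr 1
    simp [sq]
  have h := Complex.norm_mul_cos_add_sin_mul_I (⟨ξ 0, ξ 1⟩ : ℂ)
  rw [hn, ← Complex.ofReal_cos, ← Complex.ofReal_sin] at h
  have e1 : ‖ξ‖ * Real.cos (Complex.arg ⟨ξ 0, ξ 1⟩) = ξ 0 := by
    have := congrArg Complex.re h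
    rwa [Complex.re_ofReal_mul, Complex.add_re, Complex.ofReal_re, Complex.re_ofReal_mul,
      Complex.I_re, mul_zero, add_zero] at this
  have e2 : ‖ξ‖ * Real.sin (Complex.arg ⟨ξ 0, ξ 1⟩) = ξ 1 := by
    have := congrArg Complex.im h
    rwa [Complex.im_ofReal_mul, Complex.add_im, Complex.ofReal_im, Complex.im_ofReal_mul,
      Complex.I_im, mul_one, zero_add] at this
  ext i
  fin_cases i
  · simp [dir, e1]
  · simp [dir, e2]

/-- The same with the angle measured from `α`. -/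
theorem polar_trn (α : ℝ) (ξ : V2) : ξ = ‖ξ‖ • dir (α + 2 * π * trn α ξ) := by
  conv_lhs => rw [polar ξ]
  congr 1
  set a : ℝ := Complex.arg ⟨ξ 0, ξ 1⟩ with ha
  have h1 : α + 2 * π * trn α ξ = a - (⌊(a - α) / (2 * π)⌋ : ℤ) * (2 * π) := by
    unfold trn
    rw [← ha, Int.fract]
    field_simp
    ring
  rw [h1]
  ext i
  fin_cases i
  · simp [dir, Real.cos_sub_int_mul_two_pi]
  · simp [dir, Real.sin_sub_int_mul_two_pi]

theorem trn_mem (α : ℝ) (ξ : V2) : 0 ≤ trn α ξ ∧ trn α ξ < 1 :=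
  ⟨Int.fract_nonneg _, Int.fract_lt_one _⟩

namespace Par

variable (P : Par)

theorem q_pos : 0 < P.q := by have := P.hq4; omega

theorem b_pos : 0 < P.b := by
  unfold b
  exact pow_pos P.q_pos 4

theorem M_pos (i : ℕ) : 0 < P.M i := by
  unfold M
  exact Nat.mul_pos (by norm_num) (pow_pos P.b_pos _)

theorem l_pos (i : ℕ) : 0 < P.l i := by
  unfold l
  have := P.M_pos i
  positivity

theorem sqrtR_pos : 0 < √P.R := by
  have h1 := P.hR
  have h2 : (0 : ℝ) < (P.q : ℝ) ^ (4 * P.k) := by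
    have := P.q_pos
    positivity
  linarith

theorem R_pos : 0 < P.R := Real.sqrt_pos.mp P.sqrtR_pos

/-- `b ^ k` and `√R` are comparable, so `δ = l 0` is comparable with `1 / √R`. -/
theorem l_zero_bounds : π / 4 ≤ √P.R * P.l 0 ∧ √P.R * P.l 0 ≤ π / 2 := by
  have h1 := P.hR
  have h2 := P.hR'
  have hq : (0 : ℝ) < (P.q : ℝ) ^ (4 * P.k) := by
    have := P.q_pos
    positivity
  have e : P.l 0 = π / 4 / (P.q : ℝ) ^ (4 * P.k) := by
    unfold l M b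
    push_cast
    rw [Nat.sub_zero, ← pow_mul]
    field_simp
    ring
  rw [e]
  constructor
  · rw [← mul_div_assoc, le_div_iff₀ hq]
    nlinarith [Real.pi_pos]
  · rw [← mul_div_assoc, div_le_iff₀ hq]
    nlinarith [Real.pi_pos]

theorem M_succ {i : ℕ} (hi : i + 1 ≤ P.k) : P.M i = P.b * P.M (i + 1) := by
  unfold M
  have : P.k - i = (P.k - (i + 1)) + 1 := by omega
  rw [this, pow_succ]
  ring

theorem l_succ {i : ℕ} (hi : i + 1 ≤ P.k) : P.l (i + 1) = P.b * P.l i := by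
  unfold l
  rw [P.M_succ hi]
  have h1 := P.M_pos (i + 1)
  have h2 := P.b_pos
  push_cast
  have h1' : (P.M (i + 1) : ℝ) ≠ 0 := by positivity
  have h2' : (P.b : ℝ) ≠ 0 := by positivity
  field_simp

theorem idx_succ {i : ℕ} (hi : i + 1 ≤ P.k) (ξ : V2) : P.idx (i + 1) ξ = P.idx i ξ / P.b := by
  unfold idx
  rw [P.M_succ hi, ← Nat.floor_div_natCast]
  congr 1
  have h2 := P.b_pos
  have h2' : (P.b : ℝ) ≠ 0 := by positivity
  push_cast
  field_simp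

theorem idx_lt (i : ℕ) (ξ : V2) : P.idx i ξ < P.M i := by
  unfold idx
  obtain ⟨h0, h1⟩ := trn_mem P.α ξ
  have hM : (0 : ℝ) < P.M i := by exact_mod_cast P.M_pos i
  rw [Nat.floor_lt (by positivity)]
  nlinarith

theorem idx_fract (i : ℕ) (ξ : V2) :
    (P.M i : ℝ) * trn P.α ξ = P.idx i ξ + Int.fract ((P.M i : ℝ) * trn P.α ξ) := by
  unfold idx
  obtain ⟨h0, h1⟩ := trn_mem P.α ξ
  have hM : (0 : ℝ) < P.M i := by exact_mod_cast P.M_pos i
  have h2 : (0 : ℝ) ≤ (P.M i : ℝ) * trn P.α ξ := by positivity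
  rw [natCast_floor_eq_intCast_floor h2]
  exact (Int.floor_add_fract _).symm

theorem l_mul_M (i : ℕ) : P.l i * P.M i = 2 * π := by
  unfold l
  have hM : (0 : ℝ) < P.M i := by exact_mod_cast P.M_pos i
  field_simp

theorem ann_rep {ξ : V2} (hξ : ξ ∈ ann P.R P.H) : ∃ r φ : ℝ, ξ = r • dir φ ∧ P.R ≤ r ∧
    r ≤ P.R + P.H ∧ ∀ i ≤ P.k, P.α + P.idx i ξ * P.l i ≤ φ ∧
      φ ≤ P.α + (P.idx i ξ + 1) * P.l i := by
  refine ⟨‖ξ‖, P.α + 2 * π * trn P.α ξ, polar_trn P.α ξ, hξ.1, hξ.2, fun i hi => ?_⟩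
  have h1 := P.idx_fract i ξ
  have h2 := P.l_mul_M i
  have h3 : 2 * π * trn P.α ξ = P.l i * (P.idx i ξ + Int.fract ((P.M i : ℝ) * trn P.α ξ)) := by
    rw [← h1, ← h2]; ring
  have h4 := Int.fract_nonneg ((P.M i : ℝ) * trn P.α ξ)
  have h5 := (Int.fract_lt_one ((P.M i : ℝ) * trn P.α ξ)).le
  have h6 := P.l_pos i
  rw [h3]
  constructor <;> nlinarith

/-- Polar form of the points of the gapped annulus. -/
theorem gap_rep {ξ : V2} (hξ : ξ ∈ P.gapSet) : ∃ r φ : ℝ, ξ = r • dir φ ∧ P.R ≤ r ∧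
    r ≤ P.R + P.H ∧ ∀ i ≤ P.k, P.α + (P.idx i ξ + 1 / (P.q : ℝ)) * P.l i ≤ φ ∧
      φ ≤ P.α + (P.idx i ξ + 1 - 1 / (P.q : ℝ)) * P.l i := by
  refine ⟨‖ξ‖, P.α + 2 * π * trn P.α ξ, polar_trn P.α ξ, hξ.1.1, hξ.1.2, fun i hi => ?_⟩
  have h1 := P.idx_fract i ξ
  have h2 := P.l_mul_M i
  have h3 : 2 * π * trn P.α ξ = P.l i * (P.idx i ξ + Int.fract ((P.M i : ℝ) * trn P.α ξ)) := by
    rw [← h1, ← h2]; ring
  obtain ⟨h4, h5⟩ := hξ.2 i hi
  have h6 := P.l_pos i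
  rw [h3]
  constructor <;> nlinarith

end Par

end REPS
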