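import Pool.Agent.REPS.CutA
import Pool.Agent.REPS.Geom1
import Pool.Agent.REPS.Band
import Pool.Agent.REPS.Dom1

/-!
# The cut-offs of the densities and the stopping weights
-/

open MeasureTheory Filter Topology Real Metric FourierTransform
open scoped ENNReal NNReal InnerProductSpace Pointwise

namespace REPS

namespace Par

/-- Bound for the second moment of the kernels. -/
noncomputable def MKC (K : Ker) : ℝ := 2 * ∫ x, (1 + ‖x‖ ^ 2) * K.Ψ x

theorem clamp_eqC (P : Par) (τ s : ℝ) : P.clamp τ s = clampR P.q τ s := rfl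

theorem q_gt_oneC (P : Par) : (1 : ℝ) < P.q := by
  have := P.hq4
  have h : (4 : ℝ) ≤ P.q := by exact_mod_cast this
  linarith

theorem A_posC (P : Par) : 0 < P.A := by
  unfold A
  have := P.q_pos
  positivity

theorem B_posC (P : Par) : 0 < P.B := div_pos P.sqrtR_pos P.A_posC

theorem scl_nonnegC (K : Ker) {s s' : ℝ} (hs : 0 < s) (hs' : 0 < s') (φ : ℝ) (x : V2) :
    0 ≤ scl K.Ψ s s' φ x := mul_nonneg (by positivity) (K.hΨ0 _)

theorem scl_contC (K : Ker) (s s' φ : ℝ) : Continuous (scl K.Ψ s s' φ) := by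
  have h1 : scl K.Ψ s s' φ = fun x => s * s' * K.Ψ (psiFrm s s' φ x) := rfl
  rw [h1]
  exact continuous_const.mul (K.hΨc.comp (LinearMap.continuous_of_finiteDimensional _))

theorem scl_oneC (K : Ker) {s s' : ℝ} (hs : 0 < s) (hs' : 0 < s') (φ : ℝ) :
    ∫ x, scl K.Ψ s s' φ x = 1 := by
  have h1 := integral_scl (Ψ := K.Ψ) hs hs' φ (fun _ => 1)
  simp only [mul_one] at h1
  rw [h1, K.hΨ1]

theorem frm_norm_sqC (s s' φ : ℝ) (x : V2) : ‖psiFrm s s' φ x‖ ^ 2 =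
    (s * ⟪x, dir φ⟫_ℝ) ^ 2 + (s' * ⟪x, nrm φ⟫_ℝ) ^ 2 := by
  rw [psiFrm_apply, EuclideanSpace.norm_sq_eq, Fin.sum_univ_two, Real.norm_eq_abs,
    Real.norm_eq_abs, sq_abs, sq_abs]
  rfl

theorem ker_momentC (K : Ker) {s s' : ℝ} (hs : 0 < s) (hs' : 0 < s') (φ : ℝ) {N : V2 → ℝ}
    (hN : Continuous N) (hb : ∀ x, N x ^ 2 ≤ 2 * ‖psiFrm s s' φ x‖ ^ 2) :
    Integrable (fun z => (1 + N z ^ 2) * scl K.Ψ s s' φ z) ∧
      ∫ z, (1 + N z ^ 2) * scl K.Ψ s s' φ z ≤ MKC K := by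
  have h1 := psi_integrable hs hs' φ K.hΨ2
  have h2 : Integrable fun x => 2 * (s * s') *
      ((1 + ‖psiFrm s s' φ x‖ ^ 2) * K.Ψ (psiFrm s s' φ x)) := h1.const_mul _
  have hle : ∀ z, (1 + N z ^ 2) * scl K.Ψ s s' φ z ≤ 2 * (s * s') *
      ((1 + ‖psiFrm s s' φ z‖ ^ 2) * K.Ψ (psiFrm s s' φ z)) := by
    intro z
    have h3 : scl K.Ψ s s' φ z = s * s' * K.Ψ (psiFrm s s' φ z) := rfl
    rw [h3]
    have h4 := K.hΨ0 (psiFrm s s' φ z)
    have h5 : 1 + N z ^ 2 ≤ 2 * (1 + ‖psiFrm s s' φ z‖ ^ 2) := by linarith [hb z]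
    calc (1 + N z ^ 2) * (s * s' * K.Ψ (psiFrm s s' φ z)) ≤
        2 * (1 + ‖psiFrm s s' φ z‖ ^ 2) * (s * s' * K.Ψ (psiFrm s s' φ z)) :=
          mul_le_mul_of_nonneg_right h5 (by positivity)
      _ = _ := by ring
  have h6 : Integrable (fun z => (1 + N z ^ 2) * scl K.Ψ s s' φ z) := by
    refine h2.mono (((continuous_const.add (hN.pow 2)).mul
      (scl_contC K s s' φ)).aestronglyMeasurable) (Eventually.of_forall fun z => ?_)
    have h7 := scl_nonnegC K hs hs' φ z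
    rw [Real.norm_of_nonneg (mul_nonneg (by positivity) h7)]
    exact (hle z).trans (le_abs_self _)
  refine ⟨h6, (integral_mono h6 h2 hle).trans (le_of_eq ?_)⟩
  rw [integral_const_mul, MKC, ← psi_integral hs hs' φ (fun x => (1 + ‖x‖ ^ 2) * K.Ψ x),
    smul_eq_mul]
  ring

theorem Sn_nonnegC (P : Par) {G : V2 → ℂ} (hG : P.Good G) (i j : ℕ) (x : V2) :
    0 ≤ P.Sn G i j x := Finset.sum_nonneg fun κ _ => (P.dens_basic hG κ).2.1 x

theorem Sn_contC (P : Par) {G : V2 → ℂ} (hG : P.Good G) (i j : ℕ) : Continuous (P.Sn G i j) :=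
  continuous_finsetSum _ fun κ _ => (P.dens_basic hG κ).2.2.2.2.1

theorem Sn_intC (P : Par) {G : V2 → ℂ} (hG : P.Good G) (i j : ℕ) : Integrable (P.Sn G i j) :=
  integrable_finsetSum _ fun κ _ => (P.dens_basic hG κ).2.2.2.2.2.2.1

theorem St_nonnegC (P : Par) {G : V2 → ℂ} (hG : P.Good G) (x : V2) :
    0 ≤ P.St G x := Finset.sum_nonneg fun κ _ => (P.dens_basic hG κ).2.1 x

theorem St_contC (P : Par) {G : V2 → ℂ} (hG : P.Good G) : Continuous (P.St G) :=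
  continuous_finsetSum _ fun κ _ => (P.dens_basic hG κ).2.2.2.2.1

theorem St_intC (P : Par) {G : V2 → ℂ} (hG : P.Good G) : Integrable (P.St G) :=
  integrable_finsetSum _ fun κ _ => (P.dens_basic hG κ).2.2.2.2.2.2.1

theorem nz_nonnegC (P : Par) (i j : ℕ) (z : V2) : 0 ≤ P.nz i j z := by
  unfold nz
  have h1 := P.sqrtR_pos
  have h2 := P.A_posC
  have h3 := P.l_pos i
  positivity

theorem nz_negC (P : Par) (i j : ℕ) (z : V2) : P.nz i j (-z) = P.nz i j z := by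
  unfold nz
  rw [inner_neg_left, inner_neg_left, abs_neg, abs_neg]

theorem nz_contC (P : Par) (i j : ℕ) : Continuous (P.nz i j) := by
  unfold nz
  exact continuous_const.mul (((continuous_id.inner continuous_const).abs).add
    (continuous_const.mul (continuous_id.inner continuous_const).abs))

theorem slow_nodeC (P : Par) (K : Ker) {G : V2 → ℂ} (hG : P.Good G) {C : ℝ} (hC : 1 ≤ C)
    {i j : ℕ} (hH : ∀ x z, P.Sn G i j (x + z) ≤ C * (1 + P.nz i j z ^ 2) ^ 2 * P.Sn G i j x) :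
    Slow (P.Sn G i j) (scl K.Ψ (P.B * P.l i) P.B (P.cen i j)) (P.nz i j) C (MKC K) := by
  have hB := P.B_posC
  have hl := P.l_pos i
  have hBl : 0 < P.B * P.l i := mul_pos hB hl
  have hm := ker_momentC K hBl hB (P.cen i j) (P.nz_contC i j) (fun x => by
    rw [frm_norm_sqC]
    have h1 : P.nz i j x = |P.B * ⟪x, nrm (P.cen i j)⟫_ℝ| +
        |P.B * P.l i * ⟪x, dir (P.cen i j)⟫_ℝ| := by
      unfold nz
      rw [abs_mul, abs_mul, abs_of_pos hB, abs_of_pos hBl, B]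
      ring
    rw [h1]
    nlinarith [sq_nonneg (|P.B * ⟪x, nrm (P.cen i j)⟫_ℝ| -
        |P.B * P.l i * ⟪x, dir (P.cen i j)⟫_ℝ|), sq_abs (P.B * ⟪x, nrm (P.cen i j)⟫_ℝ),
        sq_abs (P.B * P.l i * ⟪x, dir (P.cen i j)⟫_ℝ)])
  exact ⟨P.Sn_nonnegC hG i j, P.Sn_contC hG i j, scl_nonnegC K hBl hB _, scl_contC K _ _ _,
    scl_oneC K hBl hB _, P.nz_nonnegC i j, P.nz_negC i j, hm.1, hm.2, hC, hH⟩

theorem slow_totC (P : Par) (K : Ker) {G : V2 → ℂ} (hG : P.Good G) {C : ℝ} (hC : 1 ≤ C)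
    (hH : ∀ x z, P.St G (x + z) ≤ C * (1 + (√P.R / P.A * ‖z‖) ^ 2) ^ 2 * P.St G x) :
    Slow (P.St G) (scl K.Ψ P.B P.B 0) (fun z => √P.R / P.A * ‖z‖) C (MKC K) := by
  have hB := P.B_posC
  have hm := ker_momentC K hB hB 0 (N := fun z => √P.R / P.A * ‖z‖)
    (continuous_const.mul continuous_norm) (fun x => by
      rw [frm_norm_sqC]
      have h1 := norm_sq_frame 0 x
      have h2 : √P.R / P.A * ‖x‖ = P.B * ‖x‖ := rfl
      rw [h2, mul_pow, h1, mul_pow, mul_pow]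
      have h3 : 0 ≤ P.B ^ 2 * (⟪x, dir 0⟫_ℝ ^ 2 + ⟪x, nrm 0⟫_ℝ ^ 2) := by positivity
      linarith)
  refine ⟨P.St_nonnegC hG, P.St_contC hG, scl_nonnegC K hB hB _, scl_contC K _ _ _,
    scl_oneC K hB hB _, fun z => ?_, fun z => ?_, hm.1, hm.2, hC, hH⟩
  · have := hB.le
    have h2 : √P.R / P.A * ‖z‖ = P.B * ‖z‖ := rfl
    rw [h2]
    positivity
  · simp only [norm_neg]

theorem h_eqC (P : Par) (K : Ker) (G : V2 → ℂ) (τ : ℝ) (i j : ℕ) :
    P.h G K τ i j = cutR P.q τ (P.Sn G i j) (scl K.Ψ (P.B * P.l i) P.B (P.cen i j)) := rfl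

theorem hT_eqC (P : Par) (K : Ker) (G : V2 → ℂ) (τ : ℝ) :
    P.hT G K τ = cutR P.q τ (P.St G) (scl K.Ψ P.B P.B 0) := rfl

theorem band_cutC (K : Ker) {S N : V2 → ℝ} {C M q τ s s' φ : ℝ} (hs : 0 < s) (hs' : 0 < s')
    (hS : Slow S (scl K.Ψ s s' φ) N C M) (hq : 1 < q) (hτ : 0 < τ) (hSi : Integrable S) :
    Band (fun x => (cutR q τ S (scl K.Ψ s s' φ) x : ℂ))
      {ξ | |⟪ξ, dir φ⟫_ℝ| ≤ s ∧ |⟪ξ, nrm φ⟫_ℝ| ≤ s'} := by
  obtain ⟨p, hp, hpc, hpb, hpi⟩ := scl_spec K.hp K.hsupp K.hΨ hs hs' φ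
  have h1 := band_conv hp hpc (γ := fun z => clampR q τ (S z))
    ((clampR_measurable q τ).comp hS.Sc.measurable) (hS.clamp_int hq hτ hSi)
  have h2 := h1.mono (T := {ξ | |⟪ξ, dir φ⟫_ℝ| ≤ s ∧ |⟪ξ, nrm φ⟫_ℝ| ≤ s'}) fun ξ hξ => hpb ξ hξ
  have h3 : (fun x => ∫ z, ((clampR q τ (S z) : ℝ) : ℂ) * 𝓕⁻ p (x - z)) =
      fun x => (cutR q τ S (scl K.Ψ s s' φ) x : ℂ) := by
    ext x
    have h5 : ((∫ z, clampR q τ (S z) * scl K.Ψ s s' φ (x - z) : ℝ) : ℂ) =
        ∫ z, ((clampR q τ (S z) * scl K.Ψ s s' φ (x - z) : ℝ) : ℂ) := integral_ofReal.symm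
    rw [Slow.cut_conv, h5]
    congr 1
    ext z
    rw [hpi]
    push_cast
    rfl
  rwa [h3] at h2

theorem cut_basic (P : Par) (K : Ker) {G : V2 → ℂ} (hG : P.Good G) {τ : ℝ} (hτ : 0 < τ)
    {i j : ℕ} (hi : i ≤ P.k) : Continuous (P.h G K τ i j) ∧ (∀ x, 0 ≤ P.h G K τ i j x) ∧
    (∀ x, P.h G K τ i j x ≤ 1) ∧ Integrable (P.h G K τ i j) ∧
    ∫ x, P.h G K τ i j x ≤ τ⁻¹ * ∫ x, P.Sn G i j x ∧
    Band (fun x => (P.h G K τ i j x : ℂ)) (P.fbox i j) := by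
  obtain ⟨C, hC, hH⟩ := HAR_Sn
  have hS := P.slow_nodeC K hG hC (hH P G hG i hi j)
  have hB := P.B_posC
  have hBl : 0 < P.B * P.l i := mul_pos hB (P.l_pos i)
  have hq := P.q_gt_oneC
  have hband := band_cutC K hBl hB hS hq hτ (P.Sn_intC hG i j)
  obtain ⟨hi1, hi2⟩ := hS.cut_int hq hτ (P.Sn_intC hG i j)
  rw [h_eqC]
  refine ⟨?_, hS.cut_nonneg, hS.cut_le_one, hi1, hi2, hband⟩
  have h1 := hband.cont
  have h2 : cutR P.q τ (P.Sn G i j) (scl K.Ψ (P.B * P.l i) P.B (P.cen i j)) =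
      fun x => ((cutR P.q τ (P.Sn G i j) (scl K.Ψ (P.B * P.l i) P.B (P.cen i j)) x : ℝ) : ℂ).re :=
    rfl
  rw [h2]
  exact Complex.continuous_re.comp h1

theorem cutT_basic (P : Par) (K : Ker) {G : V2 → ℂ} (hG : P.Good G) {τ : ℝ} (hτ : 0 < τ) :
    Continuous (P.hT G K τ) ∧ (∀ x, 0 ≤ P.hT G K τ x) ∧ (∀ x, P.hT G K τ x ≤ 1) ∧
    Integrable (P.hT G K τ) ∧
    Band (fun x => (P.hT G K τ x : ℂ)) (Metric.closedBall 0 (2 * P.B)) := by
  obtain ⟨C, hC, hH⟩ := HAR_St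
  have hS := P.slow_totC K hG hC (hH P G hG)
  have hB := P.B_posC
  have hq := P.q_gt_oneC
  have hband := band_cutC K hB hB hS hq hτ (P.St_intC hG)
  obtain ⟨hi1, hi2⟩ := hS.cut_int hq hτ (P.St_intC hG)
  rw [hT_eqC]
  refine ⟨?_, hS.cut_nonneg, hS.cut_le_one, hi1, hband.mono fun ξ hξ => ?_⟩
  · have h1 := hband.cont
    have h2 : cutR P.q τ (P.St G) (scl K.Ψ P.B P.B 0) =
        fun x => ((cutR P.q τ (P.St G) (scl K.Ψ P.B P.B 0) x : ℝ) : ℂ).re := rfl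
    rw [h2]
    exact Complex.continuous_re.comp h1
  · rw [mem_closedBall, dist_zero_right]
    have h1 := norm_sq_frame 0 ξ
    obtain ⟨h2, h3⟩ := hξ
    have h4 : ‖ξ‖ ^ 2 ≤ (2 * P.B) ^ 2 := by
      rw [h1, ← sq_abs ⟪ξ, dir 0⟫_ℝ, ← sq_abs ⟪ξ, nrm 0⟫_ℝ]
      nlinarith [abs_nonneg ⟪ξ, dir 0⟫_ℝ, abs_nonneg ⟪ξ, nrm 0⟫_ℝ]
    exact (abs_le_of_sq_le_sq' h4 (by positivity)).2

/-- The constant of the cut-offs. -/
noncomputable def cutKC (K : Ker) (C : ℝ) : ℝ := 2 * (C + 2 * MKC K) + C * MKC K ^ 2 + C * MKC K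

theorem log_le_selfC' {C : ℝ} (hC : 1 ≤ C) : Real.log C ≤ C := by
  have := Real.log_le_sub_one_of_pos (show (0 : ℝ) < C by linarith)
  linarith

theorem MK_oneC (K : Ker) : 1 ≤ MKC K := by
  have h1 : (1 : ℝ) ≤ ∫ x, (1 + ‖x‖ ^ 2) * K.Ψ x := by
    refine le_trans (le_of_eq K.hΨ1.symm) ?_
    refine integral_mono_of_nonneg (Eventually.of_forall K.hΨ0) K.hΨ2
      (Eventually.of_forall fun x => ?_)
    simp only
    nlinarith [K.hΨ0 x, mul_nonneg (sq_nonneg ‖x‖) (K.hΨ0 x)]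
  unfold MKC
  linarith

theorem sqrt_le_selfC' {C : ℝ} (hC : 1 ≤ C) : √C ≤ C := by
  rw [Real.sqrt_le_left (by linarith)]
  nlinarith

theorem cut_C (K : Ker) : ∃ C : ℝ, 0 < C ∧ ∀ P : Par, ∀ G, P.Good G → ∀ τ : ℝ, 0 < τ →
    ∀ i ≤ P.k, ∀ j, ∀ x,
      |P.h G K τ i j x - P.clamp τ (P.Sn G i j x)| ≤ C / Real.log P.q ∧
      (∀ z, |P.h G K τ i j (x + z) - P.h G K τ i j x| ≤
        (C + 2 * Real.log (1 + P.nz i j z ^ 2)) / Real.log P.q) ∧
      (1 - P.h G K τ i j x) ^ 2 * P.Sn G i j x ≤ C * P.q * τ ∧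
      (i + 1 ≤ P.k → P.h G K τ i j x ≤ P.h G K τ (i + 1) (j / P.b) x + C / Real.log P.q) ∧
      P.h G K τ i j x ≤ C * √(P.Sn G i j x / τ) := by
  obtain ⟨C, hC, hH⟩ := HAR_Sn
  have hM := MK_oneC K
  have hlC := log_le_selfC' hC
  have hlC0 := Real.log_nonneg hC
  have hsC := sqrt_le_selfC' hC
  refine ⟨cutKC K C, by unfold cutKC; positivity, ?_⟩
  intro P G hG τ hτ i hi j x
  have hS := P.slow_nodeC K hG hC (hH P G hG i hi j)
  have hq := P.q_gt_oneC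
  have hlq := Real.log_pos hq
  have hp1 : 0 ≤ C * MKC K ^ 2 := by positivity
  have hp2 : 0 ≤ C * MKC K := by positivity
  rw [h_eqC]
  refine ⟨?_, ?_, ?_, ?_, ?_⟩
  · refine (hS.cut_sub_clamp hq hτ x).trans (div_le_div_of_nonneg_right ?_ hlq.le)
    unfold cutKC
    linarith
  · intro z
    refine (hS.cut_shift hq hτ x z).trans (div_le_div_of_nonneg_right ?_ hlq.le)
    unfold cutKC
    linarith
  · refine (hS.cut_small hq hτ x).trans ?_
    have e : cutKC K C * P.q * τ = cutKC K C * (P.q * τ) := by ring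
    rw [e]
    have hqτ : 0 ≤ (P.q : ℝ) * τ := by positivity
    refine mul_le_mul_of_nonneg_right ?_ hqτ
    unfold cutKC
    linarith
  · intro hi'
    have hS' := P.slow_nodeC K hG hC (hH P G hG (i + 1) hi' (j / P.b))
    have hle : P.Sn G i j x ≤ P.Sn G (i + 1) (j / P.b) x := by
      refine Finset.sum_le_sum_of_subset_of_nonneg (fun κ hκ => ?_)
        fun κ _ _ => (P.dens_basic hG κ).2.1 x
      rw [Finset.mem_filter] at hκ ⊢
      refine ⟨hκ.1, ?_⟩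
      rw [pow_succ, ← Nat.div_div_eq_div_mul, hκ.2]
    have h1 := cut_mono hS hS' hq hτ hle
    rw [h_eqC]
    refine h1.trans ?_
    have h2 : (Real.log C + 2 * MKC K + (Real.log C + 2 * MKC K)) / Real.log P.q ≤
        cutKC K C / Real.log P.q := by
      refine div_le_div_of_nonneg_right ?_ hlq.le
      unfold cutKC
      linarith
    linarith
  · refine (hS.cut_le_sqrt hq hτ x).trans ?_
    refine mul_le_mul_of_nonneg_right ?_ (Real.sqrt_nonneg _)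
    have : √C * MKC K ≤ C * MKC K := mul_le_mul_of_nonneg_right hsC (by linarith)
    unfold cutKC
    linarith

theorem cutT_C (K : Ker) : ∃ C : ℝ, 0 < C ∧ ∀ P : Par, ∀ G, P.Good G → ∀ τ : ℝ, 0 < τ → ∀ x,
      |P.hT G K τ x - P.clamp τ (P.St G x)| ≤ C / Real.log P.q ∧
      P.hT G K τ x ≤ C * √(P.St G x / τ) := by
  obtain ⟨C, hC, hH⟩ := HAR_St
  have hM := MK_oneC K
  have hlC := log_le_selfC' hC
  have hlC0 := Real.log_nonneg hC
  have hsC := sqrt_le_selfC' hC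
  refine ⟨cutKC K C, by unfold cutKC; positivity, ?_⟩
  intro P G hG τ hτ x
  have hS := P.slow_totC K hG hC (hH P G hG)
  have hq := P.q_gt_oneC
  have hlq := Real.log_pos hq
  have hp1 : 0 ≤ C * MKC K ^ 2 := by positivity
  have hp2 : 0 ≤ C * MKC K := by positivity
  rw [hT_eqC]
  refine ⟨?_, ?_⟩
  · refine (hS.cut_sub_clamp hq hτ x).trans (div_le_div_of_nonneg_right ?_ hlq.le)
    unfold cutKC
    linarith
  · refine (hS.cut_le_sqrt hq hτ x).trans ?_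
    refine mul_le_mul_of_nonneg_right ?_ (Real.sqrt_nonneg _)
    have : √C * MKC K ≤ C * MKC K := mul_le_mul_of_nonneg_right hsC (by linarith)
    unfold cutKC
    linarith

/-! ### Telescoping -/

theorem v_teleC (P : Par) (K : Ker) (G : V2 → ℂ) (τ : ℝ) (x : V2) (a : ℕ → ℕ) (m : ℕ)
    (ha : ∀ i, m ≤ i → i + 1 ≤ P.k → a i / P.b = a (i + 1)) : ∀ n i₀ : ℕ, m ≤ i₀ → i₀ + n = P.k →
    ∑ i ∈ Finset.Icc i₀ P.k, P.v G K τ i (a i) x = 1 - P.h G K τ i₀ (a i₀) x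
  | 0, i₀, _, h => by
    rw [add_zero] at h
    subst h
    rw [Finset.Icc_self, Finset.sum_singleton, v, if_pos rfl]
  | n + 1, i₀, hm, h => by
    have h1 : i₀ ≤ P.k := by omega
    have h2 := v_teleC P K G τ x a m ha n (i₀ + 1) (by omega) (by omega)
    have h3 : Finset.Icc i₀ P.k = insert i₀ (Finset.Icc (i₀ + 1) P.k) := by
      ext t
      simp only [Finset.mem_Icc, Finset.mem_insert]
      omega
    rw [h3, Finset.sum_insert (by simp), h2, v, if_neg (by omega), ha i₀ hm (by omega)]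
    ring

theorem v_sum (P : Par) (K : Ker) (G : V2 → ℂ) (τ : ℝ) (κ : ℕ) (x : V2) :
    ∑ i ∈ Finset.Icc 1 P.k, P.v G K τ i (κ / P.b ^ i) x = 1 - P.h G K τ 1 (κ / P.b) x := by
  have h1 := v_teleC P K G τ x (fun i => κ / P.b ^ i) 0 (fun i _ _ => by
    rw [Nat.div_div_eq_div_mul, ← pow_succ]) (P.k - 1) 1 (by omega) (by have := P.hk; omega)
  simp only [pow_one] at h1
  exact h1

theorem v_sum_above (P : Par) (K : Ker) (G : V2 → ℂ) (τ : ℝ) {i₀ : ℕ} (hi : i₀ + 1 ≤ P.k)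
    (j : ℕ) (x : V2) : ∑ i ∈ Finset.Icc (i₀ + 1) P.k, P.v G K τ i (j / P.b ^ (i - i₀)) x =
      1 - P.h G K τ (i₀ + 1) (j / P.b) x := by
  have h1 := v_teleC P K G τ x (fun i => j / P.b ^ (i - i₀)) i₀ (fun i hi' _ => by
    rw [Nat.div_div_eq_div_mul, ← pow_succ, Nat.succ_sub hi']) (P.k - (i₀ + 1)) (i₀ + 1)
    (by omega) (by omega)
  have h2 : i₀ + 1 - i₀ = 1 := by omega
  simp only [h2, pow_one] at h1
  exact h1

/-! ### Slow variation along the packets -/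

theorem l_geC (P : Par) : ∀ i : ℕ, 1 ≤ i → i ≤ P.k → P.b * P.l 0 ≤ P.l i
  | 0, h, _ => absurd h (by omega)
  | 1, _, h => (P.l_succ h).ge
  | i + 2, _, h => by
    have h1 := l_geC P (i + 1) (by omega) (by omega)
    rw [P.l_succ h]
    have h2 : (1 : ℝ) ≤ P.b := by exact_mod_cast P.b_pos
    have h3 := P.l_pos (i + 1)
    nlinarith

theorem b_geC (P : Par) : (256 : ℝ) ≤ P.b := by
  have h1 : (4 : ℝ) ≤ P.q := by exact_mod_cast P.hq4
  unfold b
  push_cast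
  calc (256 : ℝ) = 4 ^ 4 := by norm_num
    _ ≤ _ := pow_le_pow_left₀ (by norm_num) h1 4

theorem sqrtR_lC (P : Par) {i : ℕ} (hi : 1 ≤ i) (hik : i ≤ P.k) : 2 ≤ √P.R * P.l i := by
  have h1 := P.l_geC i hi hik
  have h2 := P.l_zero_bounds.1
  have h3 := P.b_geC
  have h4 := Real.pi_gt_three
  have h5 := P.sqrtR_pos
  have h6 := P.l_pos 0
  calc (2 : ℝ) ≤ 256 * (π / 4) := by linarith
    _ ≤ P.b * (√P.R * P.l 0) := mul_le_mul h3 h2 (by positivity) (by positivity)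
    _ = √P.R * (P.b * P.l 0) := by ring
    _ ≤ √P.R * P.l i := mul_le_mul_of_nonneg_left h1 h5.le

theorem cen_childC (P : Par) {i : ℕ} (hi : i + 1 ≤ P.k) (L : ℕ) :
    |P.cen i L - P.cen (i + 1) (L / P.b)| ≤ P.l (i + 1) / 2 := by
  have hb := P.b_pos
  have h1 := Nat.div_add_mod L P.b
  have h2 := Nat.mod_lt L hb
  have h3 : (L : ℝ) = P.b * (L / P.b : ℕ) + (L % P.b : ℕ) := by exact_mod_cast h1.symm
  have h4 : ((L % P.b : ℕ) : ℝ) + 1 ≤ P.b := by exact_mod_cast h2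
  have h5 : (0 : ℝ) ≤ ((L % P.b : ℕ) : ℝ) := Nat.cast_nonneg _
  have hl := P.l_pos i
  unfold cen
  rw [P.l_succ hi]
  have h6 : P.α + ((L : ℝ) + 1 / 2) * P.l i -
      (P.α + (((L / P.b : ℕ) : ℝ) + 1 / 2) * (P.b * P.l i)) =
      (((L % P.b : ℕ) : ℝ) + 1 / 2 - P.b / 2) * P.l i := by
    rw [h3]
    ring
  rw [h6, abs_mul, abs_of_pos hl]
  have h7 : |((L % P.b : ℕ) : ℝ) + 1 / 2 - P.b / 2| ≤ P.b / 2 := by
    rw [abs_le]
    constructor <;> linarith
  calc _ ≤ (P.b : ℝ) / 2 * P.l i := mul_le_mul_of_nonneg_right h7 hl.le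
    _ = _ := by ring

theorem nz_dir_leC (P : Par) {i j : ℕ} {φ : ℝ} (h : |φ - P.cen i j| ≤ P.l i) (t : ℝ) :
    P.nz i j (t • dir φ) ≤ 2 * (√P.R / P.A) * P.l i * |t| := by
  unfold nz
  rw [inner_smul_left, inner_smul_left, abs_mul, abs_mul]
  have h1 : |⟪dir φ, nrm (P.cen i j)⟫_ℝ| ≤ P.l i := by
    rw [real_inner_comm, inner_nrm_dir]
    exact (Real.abs_sin_le_abs).trans h
  have h2 : |⟪dir φ, dir (P.cen i j)⟫_ℝ| ≤ 1 := by
    rw [inner_dir_dir]
    exact Real.abs_cos_le_one _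
  have h3 := P.l_pos i
  have h4 : 0 ≤ √P.R / P.A := (div_pos P.sqrtR_pos P.A_posC).le
  have h5 : |(starRingEnd ℝ) t| = |t| := rfl
  rw [h5]
  have h6 : |t| * |⟪dir φ, nrm (P.cen i j)⟫_ℝ| + P.l i * (|t| * |⟪dir φ, dir (P.cen i j)⟫_ℝ|) ≤
      |t| * P.l i + P.l i * (|t| * 1) :=
    add_le_add (mul_le_mul_of_nonneg_left h1 (abs_nonneg t))
      (mul_le_mul_of_nonneg_left (mul_le_mul_of_nonneg_left h2 (abs_nonneg t)) h3.le)
  refine (mul_le_mul_of_nonneg_left h6 h4).trans (le_of_eq ?_)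
  ring

theorem y_posC (P : Par) {i : ℕ} : 0 < P.y i := by
  unfold y
  have h1 := P.hy0
  have h2 := P.q_pos
  have h3 := P.R_pos
  have h4 := P.l_pos i
  split_ifs
  · linarith
  · positivity

theorem nz_packetC (P : Par) {i j : ℕ} {φ : ℝ} (hi : 1 ≤ i) (hik : i ≤ P.k)
    (h : |φ - P.cen i j| ≤ P.l i) (t : ℝ) : P.nz i j (t • dir φ) ≤ |t / P.y i| := by
  refine (P.nz_dir_leC h t).trans ?_
  have h1 := P.sqrtR_lC hi hik
  have h2 := P.b_geC
  have h3 := P.sqrtR_pos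
  have h4 := P.l_pos i
  have h5 : (0 : ℝ) < P.q := by exact_mod_cast P.q_pos
  have h6 : P.R = √P.R ^ 2 := (Real.sq_sqrt P.R_pos.le).symm
  have h7 : (P.b : ℝ) = P.q ^ 4 := by unfold b; push_cast; rfl
  rw [abs_div, abs_of_pos P.y_posC, y, if_neg (by omega), A]
  rw [div_div_eq_mul_div]
  have h8 : 2 * (√P.R / P.q ^ 8) * P.l i * |t| = (|t| * (2 * √P.R * P.l i / P.q ^ 4)) / P.q ^ 4 := by
    field_simp
  rw [h8]
  refine div_le_div_of_nonneg_right (mul_le_mul_of_nonneg_left ?_ (abs_nonneg t)) (by positivity)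
  rw [div_le_iff₀ (by positivity)]
  rw [h7] at h2
  have h9 : (1 : ℝ) ≤ P.q ^ 4 := by linarith
  have h10 : 2 * (√P.R * P.l i) ≤ (√P.R * P.l i) ^ 2 := by nlinarith
  have h11 : (√P.R * P.l i) ^ 2 = P.R * P.l i ^ 2 := by
    rw [mul_pow, Real.sq_sqrt P.R_pos.le]
  have h12 : 0 ≤ P.R * P.l i ^ 2 := by rw [← h11]; positivity
  nlinarith

theorem nz_packetC' (P : Par) {i j : ℕ} {φ : ℝ} (hi : 1 ≤ i) (hik : i + 1 ≤ P.k)
    (h : |φ - P.cen (i + 1) j| ≤ P.l (i + 1)) (t : ℝ) :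
    P.nz (i + 1) j (t • dir φ) ≤ |t / P.y i| := by
  refine (P.nz_dir_leC h t).trans ?_
  have h1 := P.sqrtR_lC hi (by omega)
  have h3 := P.sqrtR_pos
  have h4 := P.l_pos i
  have h5 : (0 : ℝ) < P.q := by exact_mod_cast P.q_pos
  have h7 : (P.b : ℝ) = P.q ^ 4 := by unfold b; push_cast; rfl
  rw [P.l_succ hik, h7, abs_div, abs_of_pos P.y_posC, y, if_neg (by omega), A]
  rw [div_div_eq_mul_div]
  have h8 : 2 * (√P.R / P.q ^ 8) * (P.q ^ 4 * P.l i) * |t| =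
      (|t| * (2 * √P.R * P.l i)) / P.q ^ 4 := by
    field_simp
  rw [h8]
  refine div_le_div_of_nonneg_right (mul_le_mul_of_nonneg_left ?_ (abs_nonneg t)) (by positivity)
  have h10 : 2 * (√P.R * P.l i) ≤ (√P.R * P.l i) ^ 2 := by nlinarith
  have h11 : (√P.R * P.l i) ^ 2 = P.R * P.l i ^ 2 := by
    rw [mul_pow, Real.sq_sqrt P.R_pos.le]
  linarith

theorem log_nz_leC {a b : ℝ} (ha : 0 ≤ a) (h : a ≤ |b|) :
    Real.log (1 + a ^ 2) ≤ Real.log (1 + b ^ 2) := by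
  refine Real.log_le_log (by positivity) ?_
  have := pow_le_pow_left₀ ha h 2
  rw [sq_abs] at this
  linarith

theorem v_C (K : Ker) : ∃ C : ℝ, 0 < C ∧ ∀ P : Par, ∀ G, P.Good G → ∀ τ : ℝ, 0 < τ →
    ∀ i, 1 ≤ i → i ≤ P.k → ∀ j, ∀ x, -(C / Real.log P.q) ≤ P.v G K τ i j x ∧
      P.v G K τ i j x ≤ 1 ∧ (i + 1 ≤ P.k → P.v G K τ i j x ≤ P.h G K τ (i + 1) (j / P.b) x) ∧
      P.v G K τ i j x ^ 2 * P.Sn G i j x ≤ C * P.q * τ ∧
      (∀ L < P.M (i - 1), L / P.b = j → ∀ t : ℝ,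
        |P.v G K τ i j (x - t • dir (P.cen (i - 1) L)) - P.v G K τ i j x| ≤
          (C + C * Real.log (1 + (t / P.y i) ^ 2)) / Real.log P.q) := by
  obtain ⟨C, hC, hc⟩ := cut_C K
  refine ⟨4 * (C + 1), by positivity, ?_⟩
  intro P G hG τ hτ i hi hik j x
  have hlq := Real.log_pos P.q_gt_oneC
  have hb := P.cut_basic K hG hτ (j := j) hik
  obtain ⟨-, c2, c3, c4, -⟩ := hc P G hG τ hτ i hik j x
  have h0 := hb.2.1 x
  have h1 := hb.2.2.1 x
  have hS := P.Sn_nonnegC hG i j x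
  have hqτ : 0 ≤ (P.q : ℝ) * τ := by positivity
  have hshift : ∀ (m j' : ℕ) (hm : m ≤ P.k) (φ t : ℝ), P.nz m j' (t • dir φ) ≤ |t / P.y i| →
      |P.h G K τ m j' (x - t • dir φ) - P.h G K τ m j' x| ≤
        (C + 2 * Real.log (1 + (t / P.y i) ^ 2)) / Real.log P.q := by
    intro m j' hm φ t hn
    have h2 := (hc P G hG τ hτ m hm j' x).2.1 (-(t • dir φ))
    rw [P.nz_negC, ← sub_eq_add_neg] at h2
    refine h2.trans (div_le_div_of_nonneg_right ?_ hlq.le)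
    have := log_nz_leC (P.nz_nonnegC m j' _) hn
    linarith
  have hlog : ∀ t : ℝ, 0 ≤ Real.log (1 + (t / P.y i) ^ 2) := fun t =>
    Real.log_nonneg (by nlinarith [sq_nonneg (t / P.y i)])
  rcases hik.eq_or_lt with hk | hk
  · have hv : ∀ z, P.v G K τ i j z = 1 - P.h G K τ i j z := fun z => by rw [v, if_pos hk]
    rw [hv x]
    refine ⟨?_, by linarith, fun h => absurd h (by omega), ?_, ?_⟩
    · have : 0 ≤ 4 * (C + 1) / Real.log P.q := by positivity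
      linarith
    · refine c3.trans ?_
      have : C * P.q * τ = C * (P.q * τ) := by ring
      rw [this]
      have : 4 * (C + 1) * P.q * τ = 4 * (C + 1) * (P.q * τ) := by ring
      rw [this]
      exact mul_le_mul_of_nonneg_right (by linarith) hqτ
    · intro L hL hLj t
      rw [hv]
      have h2 := P.cen_childC (i := i - 1) (by omega) L
      have h3 : i - 1 + 1 = i := by omega
      rw [h3, hLj] at h2
      have h4 := P.nz_packetC hi hik (φ := P.cen (i - 1) L)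
        (h2.trans (by have := P.l_pos i; linarith)) t
      have h5 := hshift i j hik _ t h4
      rw [← abs_neg]
      have h6 : -(1 - P.h G K τ i j (x - t • dir (P.cen (i - 1) L)) - (1 - P.h G K τ i j x)) =
          P.h G K τ i j (x - t • dir (P.cen (i - 1) L)) - P.h G K τ i j x := by ring
      rw [h6]
      refine h5.trans (div_le_div_of_nonneg_right ?_ hlq.le)
      have := hlog t
      nlinarith
  · have hk' : i + 1 ≤ P.k := hk
    have hv : ∀ z, P.v G K τ i j z = P.h G K τ (i + 1) (j / P.b) z - P.h G K τ i j z :=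
      fun z => by rw [v, if_neg (by omega)]
    have hb' := P.cut_basic K hG hτ (j := j / P.b) hk'
    have h0' := hb'.2.1 x
    have h1' := hb'.2.2.1 x
    have c3' := (hc P G hG τ hτ (i + 1) hk' (j / P.b) x).2.2.1
    have hle : P.Sn G i j x ≤ P.Sn G (i + 1) (j / P.b) x := by
      refine Finset.sum_le_sum_of_subset_of_nonneg (fun κ hκ => ?_)
        fun κ _ _ => (P.dens_basic hG κ).2.1 x
      rw [Finset.mem_filter] at hκ ⊢
      refine ⟨hκ.1, ?_⟩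
      rw [pow_succ, ← Nat.div_div_eq_div_mul, hκ.2]
    rw [hv x]
    refine ⟨?_, by linarith, fun _ => by linarith, ?_, ?_⟩
    · have h2 := c4 hk'
      have : C / Real.log P.q ≤ 4 * (C + 1) / Real.log P.q :=
        div_le_div_of_nonneg_right (by linarith) hlq.le
      linarith
    · set u := 1 - P.h G K τ i j x with hu
      set w := 1 - P.h G K τ (i + 1) (j / P.b) x with hw
      have hu0 : 0 ≤ u := by linarith
      have hw0 : 0 ≤ w := by linarith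
      have e : P.h G K τ (i + 1) (j / P.b) x - P.h G K τ i j x = u - w := by
        rw [hu, hw]
        ring
      rw [e]
      have h2 : (u - w) ^ 2 ≤ u ^ 2 + w ^ 2 := by nlinarith [mul_nonneg hu0 hw0]
      have h3 : (u - w) ^ 2 * P.Sn G i j x ≤
          u ^ 2 * P.Sn G i j x + w ^ 2 * P.Sn G (i + 1) (j / P.b) x := by
        have h4 : w ^ 2 * P.Sn G i j x ≤ w ^ 2 * P.Sn G (i + 1) (j / P.b) x :=
          mul_le_mul_of_nonneg_left hle (sq_nonneg w)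
        nlinarith [mul_le_mul_of_nonneg_right h2 hS]
      have h5 : 4 * (C + 1) * P.q * τ = 2 * (C * P.q * τ) + (2 * C + 4) * (P.q * τ) := by ring
      rw [h5]
      have h6 : 0 ≤ (2 * C + 4) * (P.q * τ) := by positivity
      linarith
    · intro L hL hLj t
      rw [hv]
      have h2 := P.cen_childC (i := i - 1) (by omega) L
      have h3 : i - 1 + 1 = i := by omega
      rw [h3, hLj] at h2
      have h2' := P.cen_childC hk' j
      have hl1 := P.l_pos i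
      have hl2 : P.l i ≤ P.l (i + 1) := by
        rw [P.l_succ hk']
        have := P.b_geC
        nlinarith
      have h4 := P.nz_packetC hi hik (φ := P.cen (i - 1) L) (h2.trans (by linarith)) t
      have h4' := P.nz_packetC' hi hk' (φ := P.cen (i - 1) L) (j := j / P.b) (by
        have e : P.cen (i - 1) L - P.cen (i + 1) (j / P.b) =
          (P.cen (i - 1) L - P.cen i j) + (P.cen i j - P.cen (i + 1) (j / P.b)) := by ring
        rw [e]
        exact (abs_add_le _ _).trans (by linarith)) t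
      have h5 := hshift i j hik _ t h4
      have h5' := hshift (i + 1) (j / P.b) hk' _ t h4'
      have e : P.h G K τ (i + 1) (j / P.b) (x - t • dir (P.cen (i - 1) L)) -
          P.h G K τ i j (x - t • dir (P.cen (i - 1) L)) -
          (P.h G K τ (i + 1) (j / P.b) x - P.h G K τ i j x) =
          (P.h G K τ (i + 1) (j / P.b) (x - t • dir (P.cen (i - 1) L)) -
            P.h G K τ (i + 1) (j / P.b) x) -
          (P.h G K τ i j (x - t • dir (P.cen (i - 1) L)) - P.h G K τ i j x) := by ring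
      rw [e]
      refine (abs_sub _ _).trans ((add_le_add h5' h5).trans ?_)
      rw [← add_div]
      refine div_le_div_of_nonneg_right ?_ hlq.le
      have := hlog t
      nlinarith

theorem h1_C (K : Ker) : ∃ C : ℝ, 0 < C ∧ ∀ P : Par, ∀ G, P.Good G → ∀ τ : ℝ, 0 < τ →
    ∀ κ < P.M 0, ∀ x, ∀ t : ℝ,
      |P.h G K τ 1 (κ / P.b) (x - t • dir (P.cen 0 κ)) - P.h G K τ 1 (κ / P.b) x| ≤
        (C + C * Real.log (1 + t ^ 2)) / Real.log P.q := by
  obtain ⟨C, hC, hc⟩ := cut_C K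
  refine ⟨C + 2, by positivity, ?_⟩
  intro P G hG τ hτ κ hκ x t
  have hlq := Real.log_pos P.q_gt_oneC
  have h1 := (hc P G hG τ hτ 1 P.hk (κ / P.b) x).2.1 (-(t • dir (P.cen 0 κ)))
  rw [P.nz_negC, ← sub_eq_add_neg] at h1
  refine h1.trans (div_le_div_of_nonneg_right ?_ hlq.le)
  have h2 := P.cen_childC (i := 0) P.hk κ
  rw [zero_add] at h2
  have h3 := P.nz_dir_leC (φ := P.cen 0 κ) (h2.trans (by have := P.l_pos 1; linarith)) t
  have h4 : P.nz 1 (κ / P.b) (t • dir (P.cen 0 κ)) ≤ |t| := by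
    refine h3.trans ?_
    have h5 : (0 : ℝ) < P.q := by exact_mod_cast P.q_pos
    have h7 : (P.b : ℝ) = P.q ^ 4 := by unfold b; push_cast; rfl
    have h8 := P.l_succ (i := 0) P.hk
    rw [zero_add] at h8
    have h9 := P.l_zero_bounds.2
    have h10 := P.b_geC
    rw [h7] at h10
    rw [h8, h7, A]
    have h11 : 2 * (√P.R / P.q ^ 8) * (P.q ^ 4 * P.l 0) * |t| =
        (2 * (√P.R * P.l 0) / P.q ^ 4) * |t| := by
      field_simp
    rw [h11]
    have h12 : 2 * (√P.R * P.l 0) / P.q ^ 4 ≤ 1 := by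
      rw [div_le_one (by positivity)]
      have := Real.pi_lt_four
      linarith
    have := mul_le_mul_of_nonneg_right h12 (abs_nonneg t)
    rwa [one_mul] at this
  have h5 := log_nz_leC (P.nz_nonnegC 1 _ _) h4
  have h6 : 0 ≤ Real.log (1 + t ^ 2) := Real.log_nonneg (by nlinarith [sq_nonneg t])
  nlinarith

end Par

end REPS
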