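import Pool.Agent.REPS.Psi

/-!
# Logarithmic cut-offs of a slowly varying function
-/

open MeasureTheory Filter Topology Real Metric FourierTransform
open scoped ENNReal NNReal InnerProductSpace Pointwise Convolution

namespace REPS

/-- Logarithmic clamp: `0` for `s ≤ τ`, `1` for `q τ ≤ s`. -/
noncomputable def clampR (q τ s : ℝ) : ℝ := max 0 (min 1 (Real.log (s / τ) / Real.log q))

section clamp

variable {q τ : ℝ}

theorem clampR_nonneg (q τ s : ℝ) : 0 ≤ clampR q τ s := le_max_left _ _

theorem clampR_le_one (q τ s : ℝ) : clampR q τ s ≤ 1 := max_le zero_le_one (min_le_left _ _)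

theorem clampR_measurable (q τ : ℝ) : Measurable (clampR q τ) :=
  measurable_const.max (measurable_const.min
    ((Real.measurable_log.comp (measurable_id.div_const _)).div_const _))

theorem clampR_eq_zero (hq : 1 < q) (hτ : 0 < τ) {s : ℝ} (hs : 0 ≤ s) (h : s ≤ τ) :
    clampR q τ s = 0 := by
  have h1 : Real.log (s / τ) ≤ 0 := Real.log_nonpos (by positivity) ((div_le_one hτ).mpr h)
  have h2 : Real.log (s / τ) / Real.log q ≤ 0 :=
    div_nonpos_of_nonpos_of_nonneg h1 (Real.log_pos hq).le
  rw [clampR, max_eq_left]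
  exact (min_le_right _ _).trans h2

theorem clampR_eq_one (hq : 1 < q) (hτ : 0 < τ) {s : ℝ} (h : q * τ ≤ s) :
    clampR q τ s = 1 := by
  have h1 : Real.log q ≤ Real.log (s / τ) :=
    Real.log_le_log (by linarith) ((le_div_iff₀ hτ).mpr h)
  have h2 : 1 ≤ Real.log (s / τ) / Real.log q := (one_le_div (Real.log_pos hq)).mpr h1
  rw [clampR, min_eq_left h2, max_eq_right zero_le_one]

theorem clampR_le_div (hq : 1 < q) (hτ : 0 < τ) {s : ℝ} (hs : 0 ≤ s) :
    clampR q τ s ≤ s / τ := by
  rcases le_total s τ with h | h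
  · rw [clampR_eq_zero hq hτ hs h]
    positivity
  · exact (clampR_le_one _ _ _).trans ((one_le_div hτ).mpr h)

theorem clampR_mono (hq : 1 < q) (hτ : 0 < τ) {s t : ℝ} (hs : 0 ≤ s) (h : s ≤ t) :
    clampR q τ s ≤ clampR q τ t := by
  rcases hs.eq_or_lt with h0 | h0
  · rw [← h0, clampR_eq_zero hq hτ le_rfl hτ.le]
    exact clampR_nonneg _ _ _
  · have h1 : Real.log (s / τ) ≤ Real.log (t / τ) :=
      Real.log_le_log (by positivity) (div_le_div_of_nonneg_right h hτ.le)
    have h2 := div_le_div_of_nonneg_right h1 (Real.log_pos hq).le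
    exact max_le_max le_rfl (min_le_min le_rfl h2)

theorem clampR_sub_le (q τ s t : ℝ) : |clampR q τ s - clampR q τ t| ≤
    |Real.log (s / τ) / Real.log q - Real.log (t / τ) / Real.log q| := by
  unfold clampR
  refine (abs_max_sub_max_le_max _ _ _ _).trans ?_
  rw [sub_self, abs_zero, max_eq_right (abs_nonneg _)]
  refine (abs_min_sub_min_le_max _ _ _ _).trans ?_
  rw [sub_self, abs_zero, max_eq_right (abs_nonneg _)]

theorem clampR_diff (hq : 1 < q) (hτ : 0 < τ) {s t D : ℝ} (hs : 0 ≤ s) (ht : 0 ≤ t)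
    (hD : 1 ≤ D) (h1 : s ≤ D * t) (h2 : t ≤ D * s) :
    |clampR q τ s - clampR q τ t| ≤ Real.log D / Real.log q := by
  have hlq := Real.log_pos hq
  have hlD := Real.log_nonneg hD
  rcases ht.eq_or_lt with h0 | h0
  · have h3 : s = 0 := by
      rw [← h0, mul_zero] at h1
      exact le_antisymm h1 hs
    rw [← h0, h3, sub_self, abs_zero]
    positivity
  · have h3 : 0 < s := by
      rcases hs.eq_or_lt with h4 | h4
      · rw [← h4, mul_zero] at h2
        linarith
      · exact h4
    refine (clampR_sub_le q τ s t).trans ?_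
    rw [← sub_div, abs_div, abs_of_pos hlq]
    refine div_le_div_of_nonneg_right ?_ hlq.le
    rw [Real.log_div h3.ne' hτ.ne', Real.log_div h0.ne' hτ.ne', abs_sub_le_iff]
    have h5 := Real.log_le_log h3 h1
    have h6 := Real.log_le_log h0 h2
    rw [Real.log_mul (by positivity) h0.ne'] at h5
    rw [Real.log_mul (by positivity) h3.ne'] at h6
    constructor <;> linarith

end clamp

/-- A density which varies slowly with respect to `N`, and a kernel with a second moment. -/
structure Slow (S k N : V2 → ℝ) (C M : ℝ) : Prop where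
  S0 : ∀ x, 0 ≤ S x
  Sc : Continuous S
  k0 : ∀ z, 0 ≤ k z
  kc : Continuous k
  k1 : ∫ z, k z = 1
  N0 : ∀ z, 0 ≤ N z
  Nneg : ∀ z, N (-z) = N z
  kN : Integrable fun z => (1 + N z ^ 2) * k z
  kM : ∫ z, (1 + N z ^ 2) * k z ≤ M
  C1 : 1 ≤ C
  har : ∀ x z, S (x + z) ≤ C * (1 + N z ^ 2) ^ 2 * S x

/-- The cut-off. -/
noncomputable def cutR (q τ : ℝ) (S k : V2 → ℝ) (x : V2) : ℝ := ∫ z, clampR q τ (S (x - z)) * k z

namespace Slow

variable {S k N : V2 → ℝ} {C M q τ : ℝ}

theorem ki (h : Slow S k N C M) : Integrable k := by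
  refine h.kN.mono h.kc.aestronglyMeasurable (Eventually.of_forall fun z => ?_)
  rw [Real.norm_of_nonneg (h.k0 z), Real.norm_of_nonneg (mul_nonneg (by positivity) (h.k0 z))]
  nlinarith [h.k0 z, sq_nonneg (N z), mul_nonneg (sq_nonneg (N z)) (h.k0 z)]

theorem har' (h : Slow S k N C M) (x z : V2) : S (x - z) ≤ C * (1 + N z ^ 2) ^ 2 * S x := by
  have := h.har x (-z)
  rwa [h.Nneg, ← sub_eq_add_neg] at this

theorem har'' (h : Slow S k N C M) (x z : V2) : S x ≤ C * (1 + N z ^ 2) ^ 2 * S (x - z) := by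
  have := h.har (x - z) z
  rwa [sub_add_cancel] at this

theorem D1 (h : Slow S k N C M) (z : V2) : 1 ≤ C * (1 + N z ^ 2) ^ 2 := by
  have h1 : 1 ≤ (1 + N z ^ 2) ^ 2 := one_le_pow₀ (by nlinarith [sq_nonneg (N z)])
  nlinarith [h.C1]

theorem logD (h : Slow S k N C M) (z : V2) :
    Real.log (C * (1 + N z ^ 2) ^ 2) = Real.log C + 2 * Real.log (1 + N z ^ 2) := by
  have h1 : (0 : ℝ) < 1 + N z ^ 2 := by positivity
  have h2 := h.C1
  rw [Real.log_mul (by linarith) (by positivity), Real.log_pow]
  push_cast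
  ring

theorem meas (h : Slow S k N C M) (x : V2) : Measurable fun z => clampR q τ (S (x - z)) :=
  (clampR_measurable q τ).comp (h.Sc.measurable.comp (measurable_const.sub measurable_id))

theorem int_mul (h : Slow S k N C M) {g : V2 → ℝ} (hg : Measurable g) (hb : ∀ z, |g z| ≤ 1) :
    Integrable fun z => g z * k z :=
  h.ki.bdd_mul (c := 1) hg.aestronglyMeasurable (Eventually.of_forall hb)

theorem int_clamp (h : Slow S k N C M) (x : V2) :
    Integrable fun z => clampR q τ (S (x - z)) * k z :=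
  h.int_mul (h.meas x) fun z => by
    rw [abs_of_nonneg (clampR_nonneg _ _ _)]
    exact clampR_le_one _ _ _

theorem cut_nonneg (h : Slow S k N C M) (x : V2) : 0 ≤ cutR q τ S k x :=
  integral_nonneg fun z => mul_nonneg (clampR_nonneg _ _ _) (h.k0 z)

theorem cut_le_one (h : Slow S k N C M) (x : V2) : cutR q τ S k x ≤ 1 := by
  rw [← h.k1, cutR]
  refine integral_mono (h.int_clamp x) h.ki fun z => ?_
  have := mul_le_mul_of_nonneg_right (clampR_le_one q τ (S (x - z))) (h.k0 z)
  rwa [one_mul] at this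

theorem M1 (h : Slow S k N C M) : 1 ≤ M := by
  refine le_trans (le_of_eq h.k1.symm) (le_trans ?_ h.kM)
  refine integral_mono h.ki h.kN fun z => ?_
  simp only
  nlinarith [h.k0 z, sq_nonneg (N z), mul_nonneg (sq_nonneg (N z)) (h.k0 z)]

/-- Comparison with the clamp at the point. -/
theorem cut_sub_clamp (h : Slow S k N C M) (hq : 1 < q) (hτ : 0 < τ) (x : V2) :
    |cutR q τ S k x - clampR q τ (S x)| ≤ (Real.log C + 2 * M) / Real.log q := by
  have hlq := Real.log_pos hq
  have h1 : clampR q τ (S x) = ∫ z, clampR q τ (S x) * k z := by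
    rw [integral_const_mul, h.k1, mul_one]
  have h2 : Integrable fun z => clampR q τ (S x) * k z := h.ki.const_mul _
  rw [h1, cutR, ← integral_sub (h.int_clamp x) h2]
  refine (abs_integral_le_integral_abs).trans ?_
  have h3 : Integrable fun z => (Real.log q)⁻¹ * (Real.log C * k z + 2 * ((1 + N z ^ 2) * k z)) :=
    ((h.ki.const_mul _).add (h.kN.const_mul _)).const_mul _
  have h4 : ∫ z, |clampR q τ (S (x - z)) * k z - clampR q τ (S x) * k z| ≤
      ∫ z, (Real.log q)⁻¹ * (Real.log C * k z + 2 * ((1 + N z ^ 2) * k z)) := by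
    refine integral_mono ((h.int_clamp x).sub h2).abs h3 fun z => ?_
    simp only
    rw [← sub_mul, abs_mul, abs_of_nonneg (h.k0 z)]
    have h5 := clampR_diff (q := q) (τ := τ) hq hτ (h.S0 (x - z)) (h.S0 x) (h.D1 z) (h.har' x z)
      (h.har'' x z)
    rw [h.logD] at h5
    have h6 : Real.log (1 + N z ^ 2) ≤ 1 + N z ^ 2 := by
      have := Real.log_le_sub_one_of_pos (show (0 : ℝ) < 1 + N z ^ 2 by positivity)
      linarith
    have h7 : |clampR q τ (S (x - z)) - clampR q τ (S x)| ≤
        (Real.log C + 2 * (1 + N z ^ 2)) / Real.log q :=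
      h5.trans (div_le_div_of_nonneg_right (by linarith) hlq.le)
    refine (mul_le_mul_of_nonneg_right h7 (h.k0 z)).trans (le_of_eq ?_)
    rw [div_eq_inv_mul]
    ring
  refine h4.trans ?_
  rw [integral_const_mul, integral_add (h.ki.const_mul _) (h.kN.const_mul _), integral_const_mul,
    integral_const_mul, h.k1, mul_one, div_eq_inv_mul]
  refine mul_le_mul_of_nonneg_left ?_ (inv_nonneg.mpr hlq.le)
  linarith [h.kM]

/-- Slow variation of the cut-off. -/
theorem cut_shift (h : Slow S k N C M) (hq : 1 < q) (hτ : 0 < τ) (x w : V2) :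
    |cutR q τ S k (x + w) - cutR q τ S k x| ≤
      (Real.log C + 2 * Real.log (1 + N w ^ 2)) / Real.log q := by
  have hlq := Real.log_pos hq
  rw [cutR, cutR, ← integral_sub (h.int_clamp _) (h.int_clamp _)]
  refine (abs_integral_le_integral_abs).trans ?_
  have h4 : ∫ z, |clampR q τ (S (x + w - z)) * k z - clampR q τ (S (x - z)) * k z| ≤
      ∫ z, (Real.log C + 2 * Real.log (1 + N w ^ 2)) / Real.log q * k z := by
    refine integral_mono ((h.int_clamp _).sub (h.int_clamp _)).abs (h.ki.const_mul _) fun z => ?_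
    simp only
    rw [← sub_mul, abs_mul, abs_of_nonneg (h.k0 z)]
    refine mul_le_mul_of_nonneg_right ?_ (h.k0 z)
    have e1 : x + w - z = x - z + w := by abel
    have h5 := clampR_diff (q := q) (τ := τ) hq hτ (h.S0 (x + w - z)) (h.S0 (x - z)) (h.D1 w)
      (by rw [e1]; exact h.har _ _)
      (by
        rw [e1]
        have h6 := h.har' (x - z + w) w
        rwa [add_sub_cancel_right] at h6)
    rwa [h.logD] at h5
  refine h4.trans ?_
  rw [integral_const_mul, h.k1, mul_one]

/-- The density is small where the cut-off is not close to one. -/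
theorem cut_small (h : Slow S k N C M) (hq : 1 < q) (hτ : 0 < τ) (x : V2) :
    (1 - cutR q τ S k x) ^ 2 * S x ≤ C * M ^ 2 * (q * τ) := by
  have hC := h.C1
  have hM := h.M1
  have hqτ : 0 ≤ q * τ := by positivity
  have h1 : (1 - cutR q τ S k x) * √(S x) ≤ √(C * (q * τ)) * M := by
    have e1 : (1 - cutR q τ S k x) * √(S x) =
        ∫ z, √(S x) * (k z - clampR q τ (S (x - z)) * k z) := by
      rw [integral_const_mul, integral_sub h.ki (h.int_clamp x), h.k1, cutR]
      ring
    rw [e1]
    have h2 : ∫ z, √(S x) * (k z - clampR q τ (S (x - z)) * k z) ≤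
        ∫ z, √(C * (q * τ)) * ((1 + N z ^ 2) * k z) := by
      refine integral_mono ((h.ki.sub (h.int_clamp x)).const_mul _) (h.kN.const_mul _) fun z => ?_
      simp only
      have e2 : √(S x) * (k z - clampR q τ (S (x - z)) * k z) =
          (√(S x) * (1 - clampR q τ (S (x - z)))) * k z := by ring
      rw [e2, ← mul_assoc]
      refine mul_le_mul_of_nonneg_right ?_ (h.k0 z)
      rcases le_or_gt (q * τ) (S (x - z)) with h3 | h3
      · rw [clampR_eq_one hq hτ h3, sub_self, mul_zero]
        positivity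
      · have h4 : S x ≤ (C * (q * τ)) * (1 + N z ^ 2) ^ 2 := by
          refine (h.har'' x z).trans ?_
          have : C * (1 + N z ^ 2) ^ 2 * S (x - z) ≤ C * (1 + N z ^ 2) ^ 2 * (q * τ) :=
            mul_le_mul_of_nonneg_left h3.le (by positivity)
          linarith
        have h5 : √(S x) ≤ √(C * (q * τ)) * (1 + N z ^ 2) := by
          have h6 := Real.sqrt_le_sqrt h4
          rwa [Real.sqrt_mul (by positivity), Real.sqrt_sq (by positivity)] at h6
        have h7 : 1 - clampR q τ (S (x - z)) ≤ 1 := by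
          linarith [clampR_nonneg q τ (S (x - z))]
        have h8 : 0 ≤ 1 - clampR q τ (S (x - z)) := by
          linarith [clampR_le_one q τ (S (x - z))]
        calc √(S x) * (1 - clampR q τ (S (x - z))) ≤ √(S x) * 1 :=
              mul_le_mul_of_nonneg_left h7 (Real.sqrt_nonneg _)
          _ = √(S x) := mul_one _
          _ ≤ _ := h5
    refine h2.trans ?_
    rw [integral_const_mul]
    exact mul_le_mul_of_nonneg_left h.kM (Real.sqrt_nonneg _)
  have h0 : 0 ≤ (1 - cutR q τ S k x) * √(S x) :=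
    mul_nonneg (by linarith [h.cut_le_one (q := q) (τ := τ) x]) (Real.sqrt_nonneg _)
  have h9 : ((1 - cutR q τ S k x) * √(S x)) ^ 2 ≤ (√(C * (q * τ)) * M) ^ 2 :=
    pow_le_pow_left₀ h0 h1 2
  rw [mul_pow, mul_pow, Real.sq_sqrt (h.S0 x), Real.sq_sqrt (by positivity)] at h9
  linarith

/-- The cut-off is small where the density is small. -/
theorem cut_le_sqrt (h : Slow S k N C M) (hq : 1 < q) (hτ : 0 < τ) (x : V2) :
    cutR q τ S k x ≤ √C * M * √(S x / τ) := by
  have hC := h.C1
  have e1 : cutR q τ S k x = ∫ z, clampR q τ (S (x - z)) * k z := rfl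
  rw [e1]
  have h2 : ∫ z, clampR q τ (S (x - z)) * k z ≤
      ∫ z, (√C * √(S x / τ)) * ((1 + N z ^ 2) * k z) := by
    refine integral_mono (h.int_clamp x) (h.kN.const_mul _) fun z => ?_
    simp only
    rw [← mul_assoc]
    refine mul_le_mul_of_nonneg_right ?_ (h.k0 z)
    rcases le_or_gt (S (x - z)) τ with h3 | h3
    · rw [clampR_eq_zero hq hτ (h.S0 _) h3]
      positivity
    · have h4 : 1 ≤ (C * (S x / τ)) * (1 + N z ^ 2) ^ 2 := by
        have h5 := h3.le.trans (h.har' x z)
        have h6 : (1 : ℝ) ≤ (C * (1 + N z ^ 2) ^ 2 * S x) / τ := (one_le_div hτ).mpr h5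
        refine h6.trans (le_of_eq ?_)
        ring
      have h7 := Real.sqrt_le_sqrt h4
      rw [Real.sqrt_one, Real.sqrt_mul (by have := h.S0 x; positivity),
        Real.sqrt_sq (by positivity), Real.sqrt_mul (by linarith)] at h7
      exact (clampR_le_one _ _ _).trans h7
  refine h2.trans ?_
  rw [integral_const_mul]
  have h8 : √C * √(S x / τ) * ∫ z, (1 + N z ^ 2) * k z ≤ √C * √(S x / τ) * M :=
    mul_le_mul_of_nonneg_left h.kM (by positivity)
  linarith

/-- Convolution form. -/
theorem cut_conv (S k : V2 → ℝ) (q τ : ℝ) (x : V2) :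
    cutR q τ S k x = ∫ z, clampR q τ (S z) * k (x - z) := by
  rw [cutR, ← integral_sub_left_eq_self (fun z => clampR q τ (S (x - z)) * k z) volume x]
  simp only [sub_sub_cancel]

theorem clamp_int (h : Slow S k N C M) (hq : 1 < q) (hτ : 0 < τ) (hS : Integrable S) :
    Integrable fun z => clampR q τ (S z) := by
  refine (hS.div_const τ).mono ((clampR_measurable q τ).comp h.Sc.measurable).aestronglyMeasurable
    (Eventually.of_forall fun z => ?_)
  rw [Real.norm_of_nonneg (clampR_nonneg _ _ _), Real.norm_of_nonneg (div_nonneg (h.S0 z) hτ.le)]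
  exact clampR_le_div hq hτ (h.S0 z)

theorem cut_int (h : Slow S k N C M) (hq : 1 < q) (hτ : 0 < τ) (hS : Integrable S) :
    Integrable (cutR q τ S k) ∧ ∫ x, cutR q τ S k x ≤ τ⁻¹ * ∫ x, S x := by
  have h1 := h.clamp_int hq hτ hS
  have e1 : cutR q τ S k = (fun z => clampR q τ (S z)) ⋆[ContinuousLinearMap.mul ℝ ℝ] k := by
    ext x
    rw [cut_conv, convolution_def]
    rfl
  rw [e1]
  refine ⟨h1.integrable_convolution _ h.ki, ?_⟩
  rw [integral_convolution _ h1 h.ki, h.k1]
  simp only [ContinuousLinearMap.mul_apply', mul_one]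
  rw [← integral_const_mul]
  refine integral_mono h1 (hS.const_mul _) fun z => ?_
  simp only
  rw [← div_eq_inv_mul]
  exact clampR_le_div hq hτ (h.S0 z)

end Slow

/-- Monotonicity in the density, up to the error. -/
theorem cut_mono {S S' k k' N N' : V2 → ℝ} {C C' M M' q τ : ℝ} (h : Slow S k N C M)
    (h' : Slow S' k' N' C' M') (hq : 1 < q) (hτ : 0 < τ) {x : V2} (hle : S x ≤ S' x) :
    cutR q τ S k x ≤ cutR q τ S' k' x +
      ((Real.log C + 2 * M) + (Real.log C' + 2 * M')) / Real.log q := by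
  have h1 := abs_le.mp (h.cut_sub_clamp hq hτ x)
  have h2 := abs_le.mp (h'.cut_sub_clamp hq hτ x)
  have h3 := clampR_mono hq hτ (h.S0 x) hle
  rw [add_div]
  linarith [h1.2, h2.1]

end REPS
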