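import Pool.Agent.TAM.Thick

open MeasureTheory Filter Topology Real Metric FourierTransform
open scoped ENNReal NNReal InnerProductSpace

namespace REPS

open Helper77.TA

variable {V : Type*} [NormedAddCommGroup V] [InnerProductSpace ℝ V] [FiniteDimensional ℝ V]
  [MeasurableSpace V] [BorelSpace V]

/-- Cauchy (Poisson) average of a real function on the lines in direction `ω`, scale `y`. -/
noncomputable def pav (y : ℝ) (ω : V) (u : V → ℝ) (x : V) : ℝ := ∫ t, pk y t * u (x - t • ω)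

/-- The same for complex functions. -/
noncomputable def pavC (y : ℝ) (ω : V) (u : V → ℂ) (x : V) : ℂ :=
  ∫ t, (pk y t : ℂ) * u (x - t • ω)

/-- The packet in direction `ω`, scale `y`, of the function with Fourier side `G`. -/
noncomputable def pkt (G : V → ℂ) (ρ y : ℝ) (ω : V) (x : V) : ℂ := 𝓕⁻ (damp G ω ρ y) x

/-- `F` is the inverse Fourier integral of an `L¹ ∩ L²` function supported in `S`. -/
def Band (F : V → ℂ) (S : Set V) : Prop :=
  ∃ a : V → ℂ, Integrable a ∧ MemLp a 2 ∧ (∀ ξ, a ξ ≠ 0 → ξ ∈ S) ∧ F = 𝓕⁻ a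

/-- The plane. -/
abbrev V2 : Type := EuclideanSpace ℝ (Fin 2)

/-- The unit vector of angle `φ`. -/
noncomputable def dir (φ : ℝ) : V2 := !₂[Real.cos φ, Real.sin φ]

/-- The unit vector of angle `φ + π / 2`. -/
noncomputable def nrm (φ : ℝ) : V2 := !₂[-Real.sin φ, Real.cos φ]

/-- The position of `ξ` on the circle in turns, measured from the angle `α`, in `[0, 1)`. -/
noncomputable def trn (α : ℝ) (ξ : V2) : ℝ :=
  Int.fract ((Complex.arg ⟨ξ 0, ξ 1⟩ - α) / (2 * π))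

/-- The box of half length `T` in direction `φ` and half width `w`. -/
def box (T w φ : ℝ) : Set V2 := {z | |⟪z, dir φ⟫_ℝ| ≤ T ∧ |⟪z, nrm φ⟫_ℝ| ≤ w}

/-- Average over the box. -/
noncomputable def bx (T w φ : ℝ) (u : V2 → ℝ) (x : V2) : ℝ :=
  (4 * T * w)⁻¹ * ∫ z in box T w φ, u (x - z)

/-- The annulus. -/
def ann (R H : ℝ) : Set V2 := {ξ | R ≤ ‖ξ‖ ∧ ‖ξ‖ ≤ R + H}

/-- Parameters of the construction. -/
structure Par where
  k : ℕ
  q : ℕ
  R : ℝ
  H : ℝ
  y0 : ℝ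
  α : ℝ
  hk : 1 ≤ k
  hq : 8 * k ≤ q
  hq4 : 4 ≤ q
  hH : 1 ≤ H
  hqH : 4 * H ≤ q
  hy0 : 1 ≤ y0
  hqy : y0 ≤ q
  hR : (q : ℝ) ^ (4 * k) ≤ √R
  hR' : √R ≤ 2 * (q : ℝ) ^ (4 * k)

namespace Par

variable (P : Par)

/-- Ratio of two consecutive levels. -/
def b : ℕ := P.q ^ 4

/-- Number of arcs of level `i`. -/
def M (i : ℕ) : ℕ := 8 * P.b ^ (P.k - i)

/-- Length of the arcs of level `i`. -/
noncomputable def l (i : ℕ) : ℝ := 2 * π / P.M i

/-- Centre of the arc `j` of level `i`. -/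
noncomputable def cen (i j : ℕ) : ℝ := P.α + (j + 1 / 2) * P.l i

/-- The scale of the smoothing kernels. -/
noncomputable def A : ℝ := (P.q : ℝ) ^ 8

/-- The frequency scale of the cut-offs. -/
noncomputable def B : ℝ := √P.R / P.A

/-- The scale of the packets of level `i` (`1 ≤ i`), and `y0` for `i = 0`. -/
noncomputable def y (i : ℕ) : ℝ := if i = 0 then P.y0 else (P.q : ℝ) ^ 4 / (P.R * P.l i ^ 2)

/-- The outer radius. -/
noncomputable def ρ : ℝ := P.R + P.H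

/-- The index of the arc of level `i` which contains `ξ`. -/
noncomputable def idx (i : ℕ) (ξ : V2) : ℕ := ⌊(P.M i : ℝ) * trn P.α ξ⌋₊

/-- The set of frequencies with gaps at all the grid ends. -/
def gapSet : Set V2 :=
  {ξ | ξ ∈ ann P.R P.H ∧ ∀ i ≤ P.k, 1 / (P.q : ℝ) ≤ Int.fract ((P.M i : ℝ) * trn P.α ξ) ∧
    Int.fract ((P.M i : ℝ) * trn P.α ξ) ≤ 1 - 1 / (P.q : ℝ)}

/-- Frequency box attached to the node `(i, j)`; all the weights of this node have their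
spectrum in `wbox 2 i j`. -/
def wbox (c : ℝ) (i j : ℕ) : Set V2 :=
  {z | |⟪z, dir (P.cen i j)⟫_ℝ| ≤ c * P.B * (P.b * P.l i) ∧ |⟪z, nrm (P.cen i j)⟫_ℝ| ≤ c * P.B}

/-- Spectrum of the cut-off `h i j`. -/
def fbox (i j : ℕ) : Set V2 :=
  {z | |⟪z, dir (P.cen i j)⟫_ℝ| ≤ P.B * P.l i ∧ |⟪z, nrm (P.cen i j)⟫_ℝ| ≤ P.B}

/-- The part of `G` in the arc `j` of level `i`. -/
noncomputable def piece (G : V2 → ℂ) (i j : ℕ) : V2 → ℂ := {ξ | P.idx i ξ = j}.indicator G

end Par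

end REPS
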