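import Pool.Agent.REPS.Defs

open MeasureTheory Filter Topology Real Metric FourierTransform
open scoped ENNReal NNReal InnerProductSpace

namespace REPS

open Helper77.TA

/-- The scaled kernel in the frame of angle `φ`: frequencies at most `s` along, `s'` across. -/
noncomputable def scl (Ψ : V2 → ℝ) (s s' φ : ℝ) (x : V2) : ℝ :=
  s * s' * Ψ (!₂[s * ⟪x, dir φ⟫_ℝ, s' * ⟪x, nrm φ⟫_ℝ])

/-- A nonnegative band limited kernel with a finite second moment. -/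
structure Ker where
  p : V2 → ℂ
  Ψ : V2 → ℝ
  hp : Continuous p
  hsupp : ∀ ξ, p ξ ≠ 0 → ‖ξ‖ ≤ 1
  hΨ : ∀ x, 𝓕⁻ p x = (Ψ x : ℂ)
  hΨc : Continuous Ψ
  hΨ0 : ∀ x, 0 ≤ Ψ x
  hΨ1 : ∫ x, Ψ x = 1
  hΨ2 : Integrable (fun x => (1 + ‖x‖ ^ 2) * Ψ x)

namespace Par

variable (P : Par)

/-- Nodes of level `i - 1` which are children of the node `j` of level `i`. -/
def kids (i j : ℕ) : Finset ℕ := (Finset.range (P.M (i - 1))).filter fun L => L / P.b = j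

/-- Ordered pairs of different children. -/
def pairs (i j : ℕ) : Finset (ℕ × ℕ) := (P.kids i j ×ˢ P.kids i j).filter fun p => p.1 ≠ p.2

variable (G : V2 → ℂ)

/-- The piece of the function in the arc `j` of level `i`. -/
noncomputable def gp (i j : ℕ) : V2 → ℂ := 𝓕⁻ (P.piece G i j)

/-- Density at the natural scale. -/
noncomputable def E (κ : ℕ) (x : V2) : ℝ :=
  pav P.y0 (dir (P.cen 0 κ)) (pav (1 / √P.R) (nrm (P.cen 0 κ)) (fun z => ‖P.gp G 0 κ z‖ ^ 2)) x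

/-- Density at the scale `A`. -/
noncomputable def Sb (κ : ℕ) (x : V2) : ℝ :=
  pav P.A (dir (P.cen 0 κ)) (pav (P.A / √P.R) (nrm (P.cen 0 κ))
    (fun z => ‖P.gp G 0 κ z‖ ^ 2)) x

/-- Density of the node `(i, j)`. -/
noncomputable def Sn (i j : ℕ) (x : V2) : ℝ :=
  ∑ κ ∈ (Finset.range (P.M 0)).filter (fun κ => κ / P.b ^ i = j), P.Sb G κ x

/-- Total density. -/
noncomputable def St (x : V2) : ℝ := ∑ κ ∈ Finset.range (P.M 0), P.Sb G κ x

/-- Sharp square function. -/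
noncomputable def D1 (x : V2) : ℝ := ∑ κ ∈ Finset.range (P.M 0), ‖P.gp G 0 κ x‖ ^ 2

/-- The norm adapted to the node `(i, j)`. -/
noncomputable def nz (i j : ℕ) (z : V2) : ℝ :=
  √P.R / P.A * (|⟪z, nrm (P.cen i j)⟫_ℝ| + P.l i * |⟪z, dir (P.cen i j)⟫_ℝ|)

/-- Logarithmic clamp: `0` for `s ≤ τ`, `1` for `q τ ≤ s`. -/
noncomputable def clamp (τ s : ℝ) : ℝ := max 0 (min 1 (Real.log (s / τ) / Real.log P.q))

variable (K : Ker)

/-- Cut-off of the node `(i, j)`: close to `1` where its density is at least `q τ`, close to `0`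
where it is at most `τ`. -/
noncomputable def h (τ : ℝ) (i j : ℕ) (x : V2) : ℝ :=
  ∫ z, P.clamp τ (P.Sn G i j (x - z)) * scl K.Ψ (P.B * P.l i) P.B (P.cen i j) z

/-- Isotropic cut-off of the total density. -/
noncomputable def hT (τ : ℝ) (x : V2) : ℝ :=
  ∫ z, P.clamp τ (P.St G (x - z)) * scl K.Ψ P.B P.B 0 z

/-- Stopping weights, `1 ≤ i ≤ k`. -/
noncomputable def v (τ : ℝ) (i j : ℕ) (x : V2) : ℝ :=
  if i = P.k then 1 - P.h G K τ i j x else P.h G K τ (i + 1) (j / P.b) x - P.h G K τ i j x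

/-- Exact normalisation of the packets of level `i`, `1 ≤ i`. -/
noncomputable def cn (i : ℕ) : ℝ :=
  (∑ L ∈ Finset.range (P.M (i - 1)),
    Real.exp (-(4 * π * P.y i * (P.ρ - P.R * Real.cos (P.cen (i - 1) L - P.cen (i - 1) 0)))))⁻¹

/-- Packet `(i, L)`, `1 ≤ i`, `L` a node of level `i - 1`, of the function with Fourier side `F`. -/
noncomputable def T (F : V2 → ℂ) (i L : ℕ) (x : V2) : ℂ :=
  pkt F P.ρ (P.y i) (dir (P.cen (i - 1) L)) x

/-- Unit packet. -/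
noncomputable def T0 (F : V2 → ℂ) (κ : ℕ) (x : V2) : ℂ := pkt F P.ρ P.y0 (dir (P.cen 0 κ)) x

/-- Mass of the stopped packets of the levels `1, …, k`. -/
noncomputable def mA (F : V2 → ℂ) (τ : ℝ) (x : V2) : ℝ :=
  ∑ i ∈ Finset.Icc 1 P.k, ∑ L ∈ Finset.range (P.M (i - 1)),
    pav (P.y i) (dir (P.cen (i - 1) L))
      (fun z => P.cn i * max 0 (P.v G K τ i (L / P.b) z) * ‖P.T F i L z‖ ^ 2) x

/-- Mass of the unit packets. -/
noncomputable def m0 (F : V2 → ℂ) (τ : ℝ) (x : V2) : ℝ :=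
  ∑ κ ∈ Finset.range (P.M 0), pav P.y0 (dir (P.cen 0 κ))
      (fun z => P.h G K τ 1 (κ / P.b) z * ‖P.T0 F κ z‖ ^ 2) x

/-- The main term. -/
noncomputable def mS (τ : ℝ) (x : V2) : ℝ :=
  ∑ κ ∈ Finset.range (P.M 0), (1 - P.h G K τ 1 (κ / P.b) x) * ‖P.gp G 0 κ x‖ ^ 2

/-- Cross terms of the telescoping. -/
noncomputable def XS (τ : ℝ) (x : V2) : ℝ :=
  ∑ i ∈ Finset.Ico 1 P.k, ∑ j ∈ Finset.range (P.M i),
    (1 - P.h G K τ (i + 1) (j / P.b) x) *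
      ∑ p ∈ P.pairs i j, (P.gp G (i - 1) p.1 x * (starRingEnd ℂ) (P.gp G (i - 1) p.2 x)).re

/-- Cross terms of the stopped packets. -/
noncomputable def XA (τ : ℝ) (x : V2) : ℝ :=
  ∑ i ∈ Finset.Icc 1 P.k, ∑ L ∈ Finset.range (P.M (i - 1)),
    pav (P.y i) (dir (P.cen (i - 1) L)) (fun z => P.cn i * P.v G K τ i (L / P.b) z *
      ∑ p ∈ P.pairs i (L / P.b), (P.T (P.piece G (i - 1) p.1) i L z *
        (starRingEnd ℂ) (P.T (P.piece G (i - 1) p.2) i L z)).re) x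

/-- Total mass of the packets of `F`. -/
noncomputable def mm (F : V2 → ℂ) (τ : ℝ) (x : V2) : ℝ := P.mA G K F τ x + P.m0 G K F τ x

/-- Multiplicity of the packets. -/
noncomputable def NN (τ : ℝ) (x : V2) : ℝ :=
  (∑ i ∈ Finset.Icc 1 P.k, ∑ L ∈ Finset.range (P.M (i - 1)),
    pav (P.y i) (dir (P.cen (i - 1) L)) (fun z => P.cn i * max 0 (P.v G K τ i (L / P.b) z)) x) +
  ∑ κ ∈ Finset.range (P.M 0), pav P.y0 (dir (P.cen 0 κ)) (fun z => P.h G K τ 1 (κ / P.b) z) x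

/-- Thresholds. -/
noncomputable def lam (c : ℕ) (n : ℤ) : ℝ := ((P.q : ℝ) ^ c) ^ (-n)

/-- Mass above the threshold. -/
noncomputable def Gm (c : ℕ) (n : ℤ) : ℝ := ∫ x in {x | P.lam c n ≤ P.St G x}, P.D1 G x

/-- Cyclic distance of two finest arcs. -/
noncomputable def cd (κ κ' : ℕ) : ℝ := min |(κ : ℝ) - κ'| (P.M 0 - |(κ : ℝ) - κ'|)

/-- Standing hypotheses on `G`: supported in the gap set, of norm at most one. -/
structure Good (G : V2 → ℂ) : Prop where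
  meas : Measurable G
  int : Integrable G
  lp : MemLp G 2
  supp : ∀ ξ, G ξ ≠ 0 → ξ ∈ P.gapSet
  le : ∫ ξ, ‖G ξ‖ ^ 2 ≤ 1

/-- Standing hypotheses on the pair `F`, `G`. -/
structure Pair (F G : V2 → ℂ) : Prop where
  meas : Measurable F
  int : Integrable F
  lp : MemLp F 2
  supp : ∀ ξ, F ξ ≠ 0 → ξ ∈ ann P.R P.H
  one : ∫ ξ, ‖F ξ‖ ^ 2 = 1
  eq : G = P.gapSet.indicator F
  gap : ∫ ξ, ‖F ξ - G ξ‖ ^ 2 ≤ 2 * (P.k + 1) / P.q

end Par

end REPS
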