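import Pool.Agent.REPS.NormA

/-! Row NORM: multipliers of the packets of level `i`. -/

open MeasureTheory Filter Topology Real Metric FourierTransform
open scoped ENNReal NNReal InnerProductSpace

namespace REPS

namespace Par

open NormRow

/-- multiplier of the packet `(i, L)` at `ξ` -/
noncomputable def mu (P : Par) (i L : ℕ) (ξ : V2) : ℝ :=
  Real.exp (-(2 * π * P.y i * (P.ρ - ⟪ξ, dir (P.cen (i - 1) L)⟫_ℝ)))

/-- its value at the centre of the arc `L'` -/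
noncomputable def mc (P : Par) (i L L' : ℕ) : ℝ :=
  Real.exp (-(2 * π * P.y i * (P.ρ - P.R * Real.cos (P.cen (i - 1) L - P.cen (i - 1) L'))))

section basic

variable (P : Par)

theorem nq8 : (8 : ℝ) ≤ P.q := by
  have h1 := P.hk
  have h2 := P.hq
  exact_mod_cast (by omega : 8 ≤ P.q)

theorem inner_cen (i L : ℕ) (ξ : V2) : ⟪ξ, dir (P.cen i L)⟫_ℝ =
    ‖ξ‖ * Real.cos (2 * π * (trn P.α ξ - (L + 1 / 2) / P.M i)) := by
  conv_lhs => rw [polar_trn P.α ξ]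
  rw [real_inner_smul_left, inner_dir_dir]
  congr 2
  unfold cen l
  ring

theorem cen_subN (i L L' : ℕ) : P.cen i L - P.cen i L' = 2 * π * (((L : ℝ) - L') / P.M i) := by
  unfold cen l
  ring

theorem rho_sub_ge {ξ : V2} (hξ : ξ ∈ ann P.R P.H) (c : ℝ) (hc : c ≤ 1) :
    P.R * (1 - c) ≤ P.ρ - ‖ξ‖ * c := by
  unfold ρ
  have h1 := hξ.1
  have h2 := hξ.2
  nlinarith

theorem Mcast {i : ℕ} (hi : 1 ≤ i) (hik : i ≤ P.k) :
    (P.M (i - 1) : ℝ) = (P.q : ℝ) ^ 4 * P.M i := by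
  have h := P.M_succ (i := i - 1) (by omega)
  rw [show i - 1 + 1 = i by omega] at h
  rw [h]
  unfold b
  push_cast
  ring

theorem yR {i : ℕ} (hi : 1 ≤ i) (hik : i ≤ P.k) :
    P.y i * P.R = (P.M (i - 1) : ℝ) ^ 2 / (4 * π ^ 2 * (P.q : ℝ) ^ 4) := by
  have hM : (0 : ℝ) < P.M i := by exact_mod_cast P.M_pos i
  have hR := P.R_pos
  have hq : (0 : ℝ) < P.q := by linarith [P.nq8]
  rw [P.Mcast hi hik]
  unfold y l
  rw [if_neg (by omega)]
  field_simp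
  norm_num

theorem M_le (i : ℕ) : (P.M i : ℝ) ≤ 8 * (P.q : ℝ) ^ (4 * P.k) := by
  have hq : (1 : ℝ) ≤ P.q := by linarith [P.nq8]
  unfold M b
  push_cast
  rw [← pow_mul]
  have : 4 * (P.k - i) ≤ 4 * P.k := by omega
  gcongr

theorem Msq_le (i : ℕ) : (P.M i : ℝ) ^ 2 ≤ 64 * P.R := by
  have h1 := P.M_le i
  have h2 := P.hR
  have h3 : √P.R ^ 2 = P.R := Real.sq_sqrt P.R_pos.le
  have h4 : (0 : ℝ) ≤ P.M i := Nat.cast_nonneg _
  have h5 : (P.M i : ℝ) ≤ 8 * √P.R := by linarith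
  nlinarith [Real.sqrt_nonneg P.R]

theorem y_pos {i : ℕ} (hi : 1 ≤ i) : 0 < P.y i := by
  unfold y
  rw [if_neg (by omega)]
  have hR := P.R_pos
  have hl := P.l_pos i
  have hq : (0 : ℝ) < P.q := by linarith [P.nq8]
  positivity

theorem y_le {i : ℕ} (hi : 1 ≤ i) (hik : i ≤ P.k) : P.y i ≤ 2 / (P.q : ℝ) ^ 4 := by
  have h1 := P.yR hi hik
  have h2 := P.Msq_le (i - 1)
  have hR := P.R_pos
  have hq : (0 : ℝ) < (P.q : ℝ) ^ 4 := by
    have := P.nq8
    positivity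
  have h3 : P.y i = (P.M (i - 1) : ℝ) ^ 2 / (4 * π ^ 2 * (P.q : ℝ) ^ 4) / P.R := by
    rw [← h1]; field_simp
  rw [h3, div_div, div_le_div_iff₀ (by positivity) hq]
  have h4 : (3 : ℝ) < π := Real.pi_gt_three
  have h6 : (9 : ℝ) ≤ π ^ 2 := by nlinarith
  have h5 : 64 * P.R ≤ 8 * π ^ 2 * P.R := by nlinarith
  calc (P.M (i - 1) : ℝ) ^ 2 * (P.q : ℝ) ^ 4 ≤ (8 * π ^ 2 * P.R) * (P.q : ℝ) ^ 4 := by
        gcongr; linarith
    _ = 2 * (4 * π ^ 2 * (P.q : ℝ) ^ 4 * P.R) := by ring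

theorem yH_le {i : ℕ} (hi : 1 ≤ i) (hik : i ≤ P.k) : P.y i * P.H ≤ 1 / (2 * (P.q : ℝ) ^ 3) := by
  have h1 := P.y_le hi hik
  have h2 := P.hqH
  have h3 := P.hH
  have hq : (0 : ℝ) < P.q := by linarith [P.nq8]
  calc P.y i * P.H ≤ 2 / (P.q : ℝ) ^ 4 * (P.q / 4) := by
        gcongr
        linarith
    _ = 1 / (2 * (P.q : ℝ) ^ 3) := by field_simp; ring

theorem yH_small {i : ℕ} (hi : 1 ≤ i) (hik : i ≤ P.k) : 4 * π * P.y i * P.H ≤ 1 / 50 := by
  have h1 := P.yH_le hi hik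
  have h2 := P.nq8
  have h3 : (512 : ℝ) ≤ (P.q : ℝ) ^ 3 := by
    calc (512 : ℝ) = 8 ^ 3 := by norm_num
      _ ≤ (P.q : ℝ) ^ 3 := by gcongr
  have h4 : 1 / (2 * (P.q : ℝ) ^ 3) ≤ 1 / 1024 := by
    apply one_div_le_one_div_of_le <;> linarith
  have h5 : π < 3.15 := Real.pi_lt_d2
  have h6 : 4 * π * P.y i * P.H = 4 * π * (P.y i * P.H) := by ring
  rw [h6]
  have h7 : P.y i * P.H ≤ 1 / 1024 := h1.trans h4
  have h8 : 0 < π := Real.pi_pos
  have h9 : 0 ≤ P.y i * P.H := mul_nonneg (P.y_pos hi).le (by linarith [P.hH])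
  calc 4 * π * (P.y i * P.H) ≤ 4 * 3.15 * (1 / 1024) := by gcongr
    _ ≤ 1 / 50 := by norm_num

/-- The periodic function of the packets. -/
noncomputable def pf (i : ℕ) (n : ℕ) : ℝ :=
  Real.exp (-(4 * π * P.y i * (P.ρ - P.R * Real.cos (2 * π * n / P.M (i - 1)))))

noncomputable def S0 (i : ℕ) : ℝ := ∑ L ∈ Finset.range (P.M (i - 1)), P.pf i L

theorem cn_eq (i : ℕ) : P.cn i = (P.S0 i)⁻¹ := by
  unfold cn S0 pf
  congr 1
  refine Finset.sum_congr rfl fun L _ => ?_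
  rw [cen_subN]
  simp only [Nat.cast_zero, sub_zero]
  congr 6
  ring

theorem mc_sq (i L L' : ℕ) : P.mc i L L' ^ 2 =
    Real.exp (-(4 * π * P.y i * (P.ρ - P.R * Real.cos (2 * π * (((L : ℝ) - L') / P.M (i - 1)))))) := by
  unfold mc
  rw [← Real.exp_nat_mul, cen_subN]
  congr 1
  push_cast
  ring

theorem sum_mc_sq (i : ℕ) {L' : ℕ} (hL : L' < P.M (i - 1)) :
    ∑ L ∈ Finset.range (P.M (i - 1)), P.mc i L L' ^ 2 = P.S0 i := by
  have hM : (0 : ℝ) < P.M (i - 1) := by exact_mod_cast P.M_pos (i - 1)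
  have hper : ∀ n, P.pf i (n + P.M (i - 1)) = P.pf i n := by
    intro n
    unfold pf
    have : 2 * π * ((n + P.M (i - 1) : ℕ) : ℝ) / P.M (i - 1) = 2 * π * n / P.M (i - 1) + 2 * π := by
      push_cast
      field_simp
    rw [this, Real.cos_add_two_pi]
  have h1 := sum_shift hper (P.M (i - 1) - L')
  unfold S0
  rw [← h1]
  refine Finset.sum_congr rfl fun L _ => ?_
  rw [mc_sq]
  unfold pf
  have : 2 * π * ((L + (P.M (i - 1) - L') : ℕ) : ℝ) / P.M (i - 1) =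
      2 * π * (((L : ℝ) - L') / P.M (i - 1)) + 2 * π := by
    rw [Nat.cast_add, Nat.cast_sub hL.le]
    field_simp
    ring
  rw [this, Real.cos_add_two_pi]

theorem S0_ge {i : ℕ} (hi : 1 ≤ i) (hik : i ≤ P.k) : 1 / 2 ≤ P.S0 i := by
  have h1 : P.pf i 0 ≤ P.S0 i := by
    unfold S0
    exact Finset.single_le_sum (f := fun L => P.pf i L) (fun L _ => (Real.exp_pos _).le)
      (Finset.mem_range.2 (P.M_pos (i - 1)))
  have h2 : P.pf i 0 = Real.exp (-(4 * π * P.y i * P.H)) := by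
    unfold pf ρ
    simp
  have h3 := P.yH_small hi hik
  have h4 := Real.add_one_le_exp (-(4 * π * P.y i * P.H))
  rw [h2] at h1
  linarith

theorem cn_pos_le {i : ℕ} (hi : 1 ≤ i) (hik : i ≤ P.k) : 0 < P.cn i ∧ P.cn i ≤ 2 := by
  have h := P.S0_ge hi hik
  rw [cn_eq]
  constructor
  · positivity
  · rw [inv_le_comm₀ (by linarith) (by norm_num)]
    linarith

theorem cn_norm {i : ℕ} (hi : 1 ≤ i) (hik : i ≤ P.k) {L' : ℕ} (hL : L' < P.M (i - 1)) :
    P.cn i * ∑ L ∈ Finset.range (P.M (i - 1)), P.mc i L L' ^ 2 = 1 := by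
  have h := P.S0_ge hi hik
  rw [sum_mc_sq P i hL, cn_eq]
  exact inv_mul_cancel₀ (by linarith)

theorem mu_pos (i L : ℕ) (ξ : V2) : 0 < P.mu i L ξ := Real.exp_pos _

theorem mc_pos (i L L' : ℕ) : 0 < P.mc i L L' := Real.exp_pos _

/-- Decay of `mu` from a lower bound of `1 - cos`. -/
theorem mu_le {i : ℕ} (hi : 1 ≤ i) (hik : i ≤ P.k) {L : ℕ} {ξ : V2} (hξ : ξ ∈ ann P.R P.H)
    {δ : ℝ} (h0 : 0 ≤ δ)
    (h1 : δ ≤ |trn P.α ξ - (L + 1 / 2) / P.M (i - 1)|)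
    (h2 : |trn P.α ξ - (L + 1 / 2) / P.M (i - 1)| ≤ 1 - δ) :
    P.mu i L ξ ≤ Real.exp (-(4 / π * (δ * P.M (i - 1)) ^ 2 / (P.q : ℝ) ^ 4)) := by
  unfold mu
  refine Real.exp_le_exp.2 (neg_le_neg ?_)
  have h3 := one_sub_cos h0 h1 h2
  rw [P.inner_cen]
  have h4 := P.rho_sub_ge hξ _ (Real.cos_le_one (2 * π * (trn P.α ξ - (L + 1 / 2) / P.M (i - 1))))
  have hy := P.y_pos hi
  have hR := P.R_pos
  have hq : (0 : ℝ) < P.q := by linarith [P.nq8]
  have h5 : P.R * (8 * δ ^ 2) ≤ P.ρ - ‖ξ‖ *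
      Real.cos (2 * π * (trn P.α ξ - (L + 1 / 2) / P.M (i - 1))) :=
    (mul_le_mul_of_nonneg_left h3 hR.le).trans h4
  calc 4 / π * (δ * P.M (i - 1)) ^ 2 / (P.q : ℝ) ^ 4
      = 2 * π * (P.y i * P.R) * (8 * δ ^ 2) := by
        rw [P.yR hi hik]; field_simp; ring
    _ = 2 * π * P.y i * (P.R * (8 * δ ^ 2)) := by ring
    _ ≤ _ := by gcongr

/-- Decay of `mc`. -/
theorem mc_le {i : ℕ} (hi : 1 ≤ i) (hik : i ≤ P.k) {L L' : ℕ}
    {δ : ℝ} (h0 : 0 ≤ δ)
    (h1 : δ ≤ |((L : ℝ) - L') / P.M (i - 1)|)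
    (h2 : |((L : ℝ) - L') / P.M (i - 1)| ≤ 1 - δ) :
    P.mc i L L' ≤ Real.exp (-(4 / π * (δ * P.M (i - 1)) ^ 2 / (P.q : ℝ) ^ 4)) := by
  unfold mc
  refine Real.exp_le_exp.2 (neg_le_neg ?_)
  have h3 := one_sub_cos h0 h1 h2
  rw [P.cen_subN]
  have hy := P.y_pos hi
  have hR := P.R_pos
  have hH := P.hH
  have hq : (0 : ℝ) < P.q := by linarith [P.nq8]
  have h5 : P.R * (8 * δ ^ 2) ≤ P.ρ - P.R * Real.cos (2 * π * (((L : ℝ) - L') / P.M (i - 1))) := by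
    unfold ρ
    nlinarith
  calc 4 / π * (δ * P.M (i - 1)) ^ 2 / (P.q : ℝ) ^ 4
      = 2 * π * (P.y i * P.R) * (8 * δ ^ 2) := by
        rw [P.yR hi hik]; field_simp; ring
    _ = 2 * π * P.y i * (P.R * (8 * δ ^ 2)) := by ring
    _ ≤ _ := by gcongr

theorem mc_le_one {i : ℕ} (hi : 1 ≤ i) (L L' : ℕ) : P.mc i L L' ≤ 1 := by
  unfold mc
  rw [Real.exp_le_one_iff, neg_nonpos]
  have hy := P.y_pos hi
  have hR := P.R_pos
  have hH := P.hH
  have hc := Real.cos_le_one (P.cen (i - 1) L - P.cen (i - 1) L')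
  have h5 : 0 ≤ P.ρ - P.R * Real.cos (P.cen (i - 1) L - P.cen (i - 1) L') := by
    unfold ρ
    nlinarith
  positivity

/-- The exponent is at least `q² / 4` as soon as the distance is at least `q³ / 2` arcs. -/
theorem exp_far {D : ℝ} (hD : (P.q : ℝ) ^ 3 / 2 ≤ D) :
    Real.exp (-(4 / π * D ^ 2 / (P.q : ℝ) ^ 4)) ≤ Real.exp (-(P.q : ℝ) ^ 2 / 4) := by
  refine Real.exp_le_exp.2 ?_
  have hq : (0 : ℝ) < P.q := by linarith [P.nq8]
  have h1 : ((P.q : ℝ) ^ 3 / 2) ^ 2 ≤ D ^ 2 := by gcongr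
  have h2 : π ≤ 4 := Real.pi_le_four
  have h3 : (P.q : ℝ) ^ 2 / 4 ≤ 4 / π * D ^ 2 / (P.q : ℝ) ^ 4 := by
    rw [le_div_iff₀ (by positivity), div_mul_eq_mul_div 4 π, le_div_iff₀ Real.pi_pos]
    calc (P.q : ℝ) ^ 2 / 4 * (P.q : ℝ) ^ 4 * π ≤ (P.q : ℝ) ^ 2 / 4 * (P.q : ℝ) ^ 4 * 4 := by gcongr
      _ = 4 * ((P.q : ℝ) ^ 3 / 2) ^ 2 := by ring
      _ ≤ 4 * D ^ 2 := by gcongr
  linarith

/-- First part of `mu_C`. -/
theorem mu_sum_le {i : ℕ} (hi : 1 ≤ i) (hik : i ≤ P.k) {ξ : V2} (hξ : ξ ∈ ann P.R P.H) :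
    ∑ L ∈ Finset.range (P.M (i - 1)), P.cn i * P.mu i L ξ ^ 2 ≤ 2 := by
  have hM := P.M_pos (i - 1)
  have hM' : (0 : ℝ) < P.M (i - 1) := by exact_mod_cast hM
  have hy := P.y_pos hi
  have hR := P.R_pos
  set a : ℝ := 4 * π * P.y i * P.R with ha
  have ha0 : 0 ≤ a := by positivity
  set θ : ℝ := 2 * π * (1 / 2 / P.M (i - 1) - trn P.α ξ) with hθ
  have h1 : ∀ L : ℕ, P.mu i L ξ ^ 2 ≤
      Real.exp (-a) * Real.exp (a * Real.cos (2 * π * L / P.M (i - 1) + θ)) := by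
    intro L
    unfold mu
    rw [← Real.exp_nat_mul, ← Real.exp_add]
    refine Real.exp_le_exp.2 ?_
    have h2 := P.rho_sub_ge hξ _
      (Real.cos_le_one (2 * π * (trn P.α ξ - (L + 1 / 2) / P.M (i - 1))))
    rw [P.inner_cen]
    have h3 : Real.cos (2 * π * L / P.M (i - 1) + θ) =
        Real.cos (2 * π * (trn P.α ξ - (L + 1 / 2) / P.M (i - 1))) := by
      rw [← Real.cos_neg]
      congr 1
      rw [hθ]
      ring
    rw [h3]
    push_cast
    have h4 : 0 ≤ 4 * π * P.y i := by positivity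
    have h5 := mul_le_mul_of_nonneg_left h2 h4
    rw [ha]
    nlinarith
  have h2 := exp_cos_sum_le (P.M (i - 1)) hM ha0 θ
  have h3 : Real.exp (-a) * ∑ L ∈ Finset.range (P.M (i - 1)),
      Real.exp (a * Real.cos (2 * π * L / P.M (i - 1))) =
      Real.exp (4 * π * P.y i * P.H) * P.S0 i := by
    unfold S0 pf
    rw [Finset.mul_sum, Finset.mul_sum]
    refine Finset.sum_congr rfl fun L _ => ?_
    rw [← Real.exp_add, ← Real.exp_add]
    congr 1
    rw [ha]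
    unfold ρ
    ring
  have h4 := P.cn_pos_le hi hik
  have h5 : Real.exp (4 * π * P.y i * P.H) ≤ 2 := by
    have h6 := P.yH_small hi hik
    have h7 : 0 ≤ 4 * π * P.y i * P.H := by
      have := P.hH
      positivity
    have h8 := (abs_le.1 (Real.abs_exp_sub_one_le (x := 4 * π * P.y i * P.H)
      (by rw [abs_of_nonneg h7]; linarith))).2
    rw [abs_of_nonneg h7] at h8
    linarith
  have h6 : P.cn i * P.S0 i = 1 := by
    rw [cn_eq]
    exact inv_mul_cancel₀ (by linarith [P.S0_ge hi hik])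
  calc ∑ L ∈ Finset.range (P.M (i - 1)), P.cn i * P.mu i L ξ ^ 2
      ≤ ∑ L ∈ Finset.range (P.M (i - 1)), P.cn i *
          (Real.exp (-a) * Real.exp (a * Real.cos (2 * π * L / P.M (i - 1) + θ))) :=
        Finset.sum_le_sum fun L _ => mul_le_mul_of_nonneg_left (h1 L) h4.1.le
    _ = P.cn i * (Real.exp (-a) * ∑ L ∈ Finset.range (P.M (i - 1)),
          Real.exp (a * Real.cos (2 * π * L / P.M (i - 1) + θ))) := by
        rw [Finset.mul_sum, Finset.mul_sum]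
    _ ≤ P.cn i * (Real.exp (-a) * ∑ L ∈ Finset.range (P.M (i - 1)),
          Real.exp (a * Real.cos (2 * π * L / P.M (i - 1)))) := by
        have := h4.1.le
        gcongr
    _ = Real.exp (4 * π * P.y i * P.H) * (P.cn i * P.S0 i) := by rw [h3]; ring
    _ ≤ 2 := by rw [h6, mul_one]; exact h5

/-- cyclic distance of two arcs of level `i - 1` -/
noncomputable def cdj (i L L' : ℕ) : ℝ := min |(L : ℝ) - L'| (P.M (i - 1) - |(L : ℝ) - L'|)

theorem cdj_nonneg {i L L' : ℕ} (hL : L < P.M (i - 1)) (hL' : L' < P.M (i - 1)) :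
    0 ≤ P.cdj i L L' := by
  unfold cdj
  have h1 : (L : ℝ) < P.M (i - 1) := by exact_mod_cast hL
  have h2 : (L' : ℝ) < P.M (i - 1) := by exact_mod_cast hL'
  have h3 : (0 : ℝ) ≤ L := Nat.cast_nonneg _
  have h4 : (0 : ℝ) ≤ L' := Nat.cast_nonneg _
  refine le_min (abs_nonneg _) ?_
  rw [sub_nonneg, abs_le]
  constructor <;> linarith

theorem mu_le_gap {i : ℕ} (hi : 1 ≤ i) (hik : i ≤ P.k) {ξ : V2} (hξ : ξ ∈ P.gapSet) {L : ℕ}
    (hL : L < P.M (i - 1)) (hne : P.idx i ξ ≠ L / P.b) :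
    P.mu i L ξ ≤ Real.exp (-(P.q : ℝ) ^ 2 / 4) := by
  have hM : (0 : ℝ) < P.M (i - 1) := by exact_mod_cast P.M_pos (i - 1)
  have hMi : (0 : ℝ) < P.M i := by exact_mod_cast P.M_pos i
  have hq := P.nq8
  have hb : (0 : ℝ) < P.b := by exact_mod_cast P.b_pos
  have hbq : (P.b : ℝ) = (P.q : ℝ) ^ 4 := by unfold b; push_cast; ring
  have hMb : (P.M (i - 1) : ℝ) = P.b * P.M i := by rw [P.Mcast hi hik, hbq]
  obtain ⟨h4, h5⟩ := hξ.2 i hik
  have hidx := P.idx_fract i ξ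
  set J := P.idx i ξ with hJ
  have hJlt : J < P.M i := P.idx_lt i ξ
  set T : ℝ := P.M i * trn P.α ξ with hT
  -- position of the centre
  set s : ℝ := (L + 1 / 2) / P.b with hs
  have hLd : L = P.b * (L / P.b) + L % P.b := (Nat.div_add_mod L P.b).symm
  have hmod : L % P.b < P.b := Nat.mod_lt _ P.b_pos
  have hmod' : ((L % P.b : ℕ) : ℝ) + 1 ≤ P.b := by exact_mod_cast hmod
  have hLr : (L : ℝ) = P.b * ((L / P.b : ℕ) : ℝ) + ((L % P.b : ℕ) : ℝ) := by exact_mod_cast hLd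
  have hmod0 : (0 : ℝ) ≤ ((L % P.b : ℕ) : ℝ) := Nat.cast_nonneg _
  have hs1 : ((L / P.b : ℕ) : ℝ) ≤ s := by
    rw [hs, le_div_iff₀ hb, hLr]; nlinarith
  have hs2 : s ≤ ((L / P.b : ℕ) : ℝ) + 1 := by
    rw [hs, div_le_iff₀ hb, hLr]; nlinarith
  have hJ' : L / P.b < P.M i := by
    rw [Nat.div_lt_iff_lt_mul P.b_pos]
    have : (L : ℝ) < (P.M i * P.b : ℕ) := by
      push_cast
      rw [mul_comm, ← hMb]
      exact_mod_cast hL
    exact_mod_cast this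
  have hJ'r : ((L / P.b : ℕ) : ℝ) + 1 ≤ P.M i := by exact_mod_cast hJ'
  have hJr : (J : ℝ) + 1 ≤ P.M i := by exact_mod_cast hJlt
  have hJ0 : (0 : ℝ) ≤ J := Nat.cast_nonneg _
  have hJ'0 : (0 : ℝ) ≤ ((L / P.b : ℕ) : ℝ) := Nat.cast_nonneg _
  have hT1 : (J : ℝ) + 1 / P.q ≤ T := by linarith
  have hT2 : T ≤ J + 1 - 1 / P.q := by linarith
  have hd : 1 / (P.q : ℝ) ≤ |T - s| := by
    rcases lt_or_gt_of_ne hne with h | h
    · have : (J : ℝ) + 1 ≤ ((L / P.b : ℕ) : ℝ) := by exact_mod_cast h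
      rw [abs_sub_comm]
      exact le_trans (by linarith) (le_abs_self _)
    · have : ((L / P.b : ℕ) : ℝ) + 1 ≤ J := by exact_mod_cast h
      exact le_trans (by linarith) (le_abs_self _)
  have hd2 : |T - s| ≤ P.M i - 1 / P.q := by
    rw [abs_le]
    constructor <;> linarith
  have hu : trn P.α ξ - (L + 1 / 2) / P.M (i - 1) = (T - s) / P.M i := by
    rw [hT, hs, hMb]
    field_simp
  have h6 := P.mu_le hi hik hξ.1 (L := L) (δ := 1 / P.q / P.M i) (by positivity)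
    (by rw [hu, abs_div, abs_of_pos hMi]; gcongr)
    (by
      rw [hu, abs_div, abs_of_pos hMi, div_le_iff₀ hMi, sub_mul, one_mul, div_mul_cancel₀ _ hMi.ne']
      exact hd2)
  have hq0 : (0 : ℝ) < P.q := by linarith
  have e : 1 / (P.q : ℝ) / P.M i * P.M (i - 1) = (P.q : ℝ) ^ 3 := by
    rw [P.Mcast hi hik]
    field_simp
  rw [e] at h6
  refine h6.trans (P.exp_far ?_)
  have : (0 : ℝ) < (P.q : ℝ) ^ 3 := by positivity
  linarith

theorem mc_le_gap {i : ℕ} (hi : 1 ≤ i) (hik : i ≤ P.k) {ξ : V2} (hξ : ξ ∈ P.gapSet) {L : ℕ}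
    (hL : L < P.M (i - 1)) (hne : P.idx i ξ ≠ L / P.b) :
    P.mc i L (P.idx (i - 1) ξ) ≤ Real.exp (-(P.q : ℝ) ^ 2 / 4) := by
  have hM : (0 : ℝ) < P.M (i - 1) := by exact_mod_cast P.M_pos (i - 1)
  have hMi : (0 : ℝ) < P.M i := by exact_mod_cast P.M_pos i
  have hq := P.nq8
  have hq0 : (0 : ℝ) < P.q := by linarith
  have hb : (0 : ℝ) < P.b := by exact_mod_cast P.b_pos
  have hbq : (P.b : ℝ) = (P.q : ℝ) ^ 4 := by unfold b; push_cast; ring
  have hMb : (P.M (i - 1) : ℝ) = P.b * P.M i := by rw [P.Mcast hi hik, hbq]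
  obtain ⟨h4, h5⟩ := hξ.2 i hik
  have hidx := P.idx_fract i ξ
  have hidx' := P.idx_fract (i - 1) ξ
  have hf0 := Int.fract_nonneg ((P.M (i - 1) : ℝ) * trn P.α ξ)
  have hf1 := (Int.fract_lt_one ((P.M (i - 1) : ℝ) * trn P.α ξ)).le
  set J := P.idx i ξ with hJ
  set L' := P.idx (i - 1) ξ with hL'
  have hJlt : J < P.M i := P.idx_lt i ξ
  set T : ℝ := P.M i * trn P.α ξ with hT
  have hTb : (P.M (i - 1) : ℝ) * trn P.α ξ = P.b * T := by rw [hMb, hT]; ring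
  rw [hTb] at hidx' hf0 hf1
  have hL'1 : P.b * T - 1 ≤ L' := by linarith
  have hL'2 : (L' : ℝ) ≤ P.b * T := by linarith
  have hLd : L = P.b * (L / P.b) + L % P.b := (Nat.div_add_mod L P.b).symm
  have hmod : L % P.b < P.b := Nat.mod_lt _ P.b_pos
  have hmod' : ((L % P.b : ℕ) : ℝ) + 1 ≤ P.b := by exact_mod_cast hmod
  have hLr : (L : ℝ) = P.b * ((L / P.b : ℕ) : ℝ) + ((L % P.b : ℕ) : ℝ) := by exact_mod_cast hLd
  have hmod0 : (0 : ℝ) ≤ ((L % P.b : ℕ) : ℝ) := Nat.cast_nonneg _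
  have hLM : (L : ℝ) + 1 ≤ P.M (i - 1) := by exact_mod_cast hL
  have hL0 : (0 : ℝ) ≤ L := Nat.cast_nonneg _
  have hJr : (J : ℝ) + 1 ≤ P.M i := by exact_mod_cast hJlt
  have hJ0 : (0 : ℝ) ≤ J := Nat.cast_nonneg _
  have hT1 : (J : ℝ) + 1 / P.q ≤ T := by linarith
  have hT2 : T ≤ J + 1 - 1 / P.q := by linarith
  have hbq3 : (P.b : ℝ) * (1 / P.q) = (P.q : ℝ) ^ 3 := by rw [hbq]; field_simp
  have hbT1 : P.b * (J : ℝ) + (P.q : ℝ) ^ 3 ≤ P.b * T := by
    rw [← hbq3, ← mul_add]; gcongr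
  have hbT2 : P.b * T ≤ P.b * ((J : ℝ) + 1) - (P.q : ℝ) ^ 3 := by
    rw [← hbq3, ← mul_sub]; gcongr
  have hd : (P.q : ℝ) ^ 3 ≤ |(L : ℝ) - L'| := by
    rcases lt_or_gt_of_ne hne with h | h
    · have h7 : (J : ℝ) + 1 ≤ ((L / P.b : ℕ) : ℝ) := by exact_mod_cast h
      have h8 : P.b * ((J : ℝ) + 1) ≤ P.b * ((L / P.b : ℕ) : ℝ) := by gcongr
      exact le_trans (by linarith) (le_abs_self _)
    · have h7 : ((L / P.b : ℕ) : ℝ) + 1 ≤ J := by exact_mod_cast h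
      have h8 : P.b * (((L / P.b : ℕ) : ℝ) + 1) ≤ P.b * (J : ℝ) := by gcongr
      rw [abs_sub_comm]
      exact le_trans (by linarith) (le_abs_self _)
  have hd2 : |(L : ℝ) - L'| ≤ P.M (i - 1) - (P.q : ℝ) ^ 3 := by
    have h9 : 0 ≤ P.b * (J : ℝ) := by positivity
    have h10 : P.b * ((J : ℝ) + 1) ≤ P.M (i - 1) := by rw [hMb]; gcongr
    rw [abs_le]
    constructor <;> linarith
  have h6 := P.mc_le hi hik (L := L) (L' := L') (δ := (P.q : ℝ) ^ 3 / P.M (i - 1)) (by positivity)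
    (by rw [abs_div, abs_of_pos hM]; gcongr)
    (by
      rw [abs_div, abs_of_pos hM, div_le_iff₀ hM, sub_mul, one_mul, div_mul_cancel₀ _ hM.ne']
      exact hd2)
  rw [div_mul_cancel₀ _ hM.ne'] at h6
  refine h6.trans (P.exp_far ?_)
  have : (0 : ℝ) < (P.q : ℝ) ^ 3 := by positivity
  linarith

/-- Position of `ξ` in its arc. -/
theorem arc_pos {i : ℕ} {ξ : V2} : ∃ e : ℝ, |e| ≤ 1 / 2 ∧
    trn P.α ξ = (P.idx (i - 1) ξ + 1 / 2 + e) / P.M (i - 1) := by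
  have hM : (0 : ℝ) < P.M (i - 1) := by exact_mod_cast P.M_pos (i - 1)
  have hidx' := P.idx_fract (i - 1) ξ
  have hf0 := Int.fract_nonneg ((P.M (i - 1) : ℝ) * trn P.α ξ)
  have hf1 := (Int.fract_lt_one ((P.M (i - 1) : ℝ) * trn P.α ξ)).le
  refine ⟨Int.fract ((P.M (i - 1) : ℝ) * trn P.α ξ) - 1 / 2, ?_, ?_⟩
  · rw [abs_le]; constructor <;> linarith
  · rw [eq_div_iff hM.ne']
    linarith

/-- `|sin|` in turns. -/
theorem sin_le_cdj {i L L' : ℕ} (hL : L < P.M (i - 1)) (hL' : L' < P.M (i - 1)) :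
    |Real.sin (2 * π * (((L : ℝ) - L') / P.M (i - 1)))| ≤
      2 * π * P.cdj i L L' / P.M (i - 1) := by
  have hM : (0 : ℝ) < P.M (i - 1) := by exact_mod_cast P.M_pos (i - 1)
  have hpi := Real.pi_pos
  have h1 : (L : ℝ) < P.M (i - 1) := by exact_mod_cast hL
  have h2 : (L' : ℝ) < P.M (i - 1) := by exact_mod_cast hL'
  have h3 : (0 : ℝ) ≤ L := Nat.cast_nonneg _
  have h4 : (0 : ℝ) ≤ L' := Nat.cast_nonneg _
  have hb : |(L : ℝ) - L'| ≤ P.M (i - 1) := by rw [abs_le]; constructor <;> linarith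
  set d : ℝ := (L : ℝ) - L' with hd
  have e1 : |Real.sin (2 * π * (d / P.M (i - 1)))| = |Real.sin (2 * π * (|d| / P.M (i - 1)))| := by
    rcases abs_cases d with ⟨h, _⟩ | ⟨h, _⟩ <;> rw [h]
    rw [neg_div, mul_neg, Real.sin_neg, abs_neg]
  unfold cdj
  rw [← hd, e1]
  rcases le_total |d| (P.M (i - 1) - |d|) with h | h
  · rw [min_eq_left h]
    refine (Real.abs_sin_le_abs).trans (le_of_eq ?_)
    rw [abs_of_nonneg (by positivity)]
    ring
  · rw [min_eq_right h]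
    have e2 : Real.sin (2 * π * (|d| / P.M (i - 1))) =
        -Real.sin (2 * π * ((P.M (i - 1) - |d|) / P.M (i - 1))) := by
      have : 2 * π * ((P.M (i - 1) - |d|) / P.M (i - 1)) =
          2 * π - 2 * π * (|d| / P.M (i - 1)) := by field_simp
      rw [this, Real.sin_two_pi_sub, neg_neg]
    rw [e2, abs_neg]
    refine (Real.abs_sin_le_abs).trans (le_of_eq ?_)
    rw [abs_of_nonneg (mul_nonneg (by positivity) (div_nonneg (by linarith) hM.le))]
    ring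

/-- The distance from `ξ` to the centre of its arc, seen from the direction `L`. -/
theorem inner_diff {i L L' : ℕ} (hL : L < P.M (i - 1)) (hL' : L' < P.M (i - 1)) {ξ : V2}
    (hξ : ξ ∈ ann P.R P.H) (hidx : P.idx (i - 1) ξ = L') :
    |⟪ξ, dir (P.cen (i - 1) L)⟫_ℝ - P.R * Real.cos (P.cen (i - 1) L - P.cen (i - 1) L')| ≤
      P.H + P.R * (π ^ 2 / (P.M (i - 1) : ℝ) ^ 2 * (2 * P.cdj i L L' + 1)) := by
  have hM : (0 : ℝ) < P.M (i - 1) := by exact_mod_cast P.M_pos (i - 1)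
  have hpi := Real.pi_pos
  have hR := P.R_pos
  obtain ⟨e, he, ht⟩ := P.arc_pos (i := i) (ξ := ξ)
  rw [hidx] at ht
  rw [P.inner_cen, P.cen_subN]
  set θ : ℝ := 2 * π * (trn P.α ξ - (L + 1 / 2) / P.M (i - 1)) with hθ
  set δ : ℝ := 2 * π * (((L : ℝ) - L') / P.M (i - 1)) with hδ
  have hθ' : Real.cos θ = Real.cos (δ - 2 * π * e / P.M (i - 1)) := by
    rw [← Real.cos_neg]
    congr 1
    rw [hθ, hδ, ht]
    field_simp
    ring
  have h1 : Real.cos θ - Real.cos δ = 2 * Real.sin (δ - π * e / P.M (i - 1)) *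
      Real.sin (π * e / P.M (i - 1)) := by
    rw [hθ', Real.cos_sub_cos]
    have e1 : (δ - 2 * π * e / P.M (i - 1) + δ) / 2 = δ - π * e / P.M (i - 1) := by ring
    have e2 : (δ - 2 * π * e / P.M (i - 1) - δ) / 2 = -(π * e / P.M (i - 1)) := by ring
    rw [e1, e2, Real.sin_neg]
    ring
  have h2 : |Real.sin (π * e / P.M (i - 1))| ≤ π / (2 * P.M (i - 1)) := by
    refine Real.abs_sin_le_abs.trans ?_
    rw [abs_div, abs_mul, abs_of_pos hpi, abs_of_pos hM, div_le_div_iff₀ hM (by positivity)]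
    nlinarith [mul_pos hpi hM]
  have h3 : |Real.sin (δ - π * e / P.M (i - 1))| ≤
      2 * π * P.cdj i L L' / P.M (i - 1) + π / (2 * P.M (i - 1)) := by
    rw [Real.sin_sub]
    have h4 := P.sin_le_cdj hL hL'
    rw [← hδ] at h4
    have h5 := Real.abs_cos_le_one (π * e / P.M (i - 1))
    have h6 := Real.abs_cos_le_one δ
    refine (abs_sub _ _).trans ?_
    rw [abs_mul, abs_mul]
    have h7 : |Real.sin δ| * |Real.cos (π * e / P.M (i - 1))| ≤ |Real.sin δ| * 1 := by gcongr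
    have h8 : |Real.cos δ| * |Real.sin (π * e / P.M (i - 1))| ≤
        1 * |Real.sin (π * e / P.M (i - 1))| := by gcongr
    linarith
  have h9 : |Real.cos θ - Real.cos δ| ≤
      π ^ 2 / (P.M (i - 1) : ℝ) ^ 2 * (2 * P.cdj i L L' + 1) := by
    rw [h1, abs_mul, abs_mul, abs_of_pos (by norm_num : (0 : ℝ) < 2)]
    have hc := P.cdj_nonneg hL hL'
    calc 2 * |Real.sin (δ - π * e / P.M (i - 1))| * |Real.sin (π * e / P.M (i - 1))|
        ≤ 2 * (2 * π * P.cdj i L L' / P.M (i - 1) + π / (2 * P.M (i - 1))) *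
          (π / (2 * P.M (i - 1))) := by gcongr
      _ = π ^ 2 / (P.M (i - 1) : ℝ) ^ 2 * (2 * P.cdj i L L' + 1 / 2) := by
        field_simp
      _ ≤ _ := by gcongr; norm_num
  have h10 : ‖ξ‖ * Real.cos θ - P.R * Real.cos δ =
      (‖ξ‖ - P.R) * Real.cos θ + P.R * (Real.cos θ - Real.cos δ) := by ring
  rw [h10]
  refine (abs_add_le _ _).trans (add_le_add ?_ ?_)
  · rw [abs_mul, abs_of_nonneg (by linarith [hξ.1])]
    have h11 := Real.abs_cos_le_one θ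
    have h12 := hξ.1
    have h13 := hξ.2
    have h14 := abs_nonneg (Real.cos θ)
    nlinarith
  · rw [abs_mul, abs_of_pos hR]
    gcongr

theorem cdj_bounds {i L L' : ℕ} : P.cdj i L L' ≤ |(L : ℝ) - L'| ∧
    |(L : ℝ) - L'| ≤ P.M (i - 1) - P.cdj i L L' := by
  unfold cdj
  refine ⟨min_le_left _ _, ?_⟩
  have := min_le_right |(L : ℝ) - L'| (P.M (i - 1) - |(L : ℝ) - L'|)
  linarith

theorem q3_ge : (512 : ℝ) ≤ (P.q : ℝ) ^ 3 := by
  have h2 := P.nq8
  calc (512 : ℝ) = 8 ^ 3 := by norm_num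
    _ ≤ (P.q : ℝ) ^ 3 := by gcongr

theorem mu_far {i : ℕ} (hi : 1 ≤ i) (hik : i ≤ P.k) {L L' : ℕ} {ξ : V2}
    (hξ : ξ ∈ ann P.R P.H) (hidx : P.idx (i - 1) ξ = L') (hj : (P.q : ℝ) ^ 3 < P.cdj i L L') :
    P.mu i L ξ ≤ Real.exp (-(P.q : ℝ) ^ 2 / 4) := by
  have hM : (0 : ℝ) < P.M (i - 1) := by exact_mod_cast P.M_pos (i - 1)
  have hq3 := P.q3_ge
  obtain ⟨e, he, ht⟩ := P.arc_pos (i := i) (ξ := ξ)
  rw [hidx] at ht
  obtain ⟨h1, h2⟩ := P.cdj_bounds (i := i) (L := L) (L' := L')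
  have hu : trn P.α ξ - (L + 1 / 2) / P.M (i - 1) = -((L : ℝ) - L' - e) / P.M (i - 1) := by
    rw [ht]; ring
  have h3 : |(L : ℝ) - L'| - 1 / 2 ≤ |(L : ℝ) - L' - e| := by
    have := abs_sub_abs_le_abs_sub ((L : ℝ) - L') e
    linarith
  have h4 : |(L : ℝ) - L' - e| ≤ |(L : ℝ) - L'| + 1 / 2 := by
    have := abs_sub ((L : ℝ) - L') e
    linarith
  have h6 := P.mu_le hi hik hξ (L := L) (δ := (P.cdj i L L' - 1 / 2) / P.M (i - 1))
    (div_nonneg (by linarith) hM.le)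
    (by rw [hu, abs_div, abs_neg, abs_of_pos hM]; gcongr; linarith)
    (by
      rw [hu, abs_div, abs_neg, abs_of_pos hM, div_le_iff₀ hM, sub_mul, one_mul,
        div_mul_cancel₀ _ hM.ne']
      linarith)
  rw [div_mul_cancel₀ _ hM.ne'] at h6
  exact h6.trans (P.exp_far (by linarith))

theorem mc_far {i : ℕ} (hi : 1 ≤ i) (hik : i ≤ P.k) {L L' : ℕ}
    (hj : (P.q : ℝ) ^ 3 < P.cdj i L L') :
    P.mc i L L' ≤ Real.exp (-(P.q : ℝ) ^ 2 / 4) := by
  have hM : (0 : ℝ) < P.M (i - 1) := by exact_mod_cast P.M_pos (i - 1)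
  have hq3 := P.q3_ge
  obtain ⟨h1, h2⟩ := P.cdj_bounds (i := i) (L := L) (L' := L')
  have h6 := P.mc_le hi hik (L := L) (L' := L') (δ := P.cdj i L L' / P.M (i - 1))
    (div_nonneg (by linarith) hM.le)
    (by rw [abs_div, abs_of_pos hM]; gcongr)
    (by
      rw [abs_div, abs_of_pos hM, div_le_iff₀ hM, sub_mul, one_mul, div_mul_cancel₀ _ hM.ne']
      linarith)
  rw [div_mul_cancel₀ _ hM.ne'] at h6
  exact h6.trans (P.exp_far (by linarith))

/-- The bound for the difference of the phases, in units of `1 / y`. -/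
theorem yLam {i : ℕ} (hi : 1 ≤ i) (hik : i ≤ P.k) (j : ℝ) :
    P.y i * (P.H + P.R * (π ^ 2 / (P.M (i - 1) : ℝ) ^ 2 * (2 * j + 1))) =
      P.y i * P.H + (2 * j + 1) / (4 * (P.q : ℝ) ^ 4) := by
  have hM : (0 : ℝ) < P.M (i - 1) := by exact_mod_cast P.M_pos (i - 1)
  have hq : (0 : ℝ) < P.q := by linarith [P.nq8]
  have hpi := Real.pi_pos
  have h1 : P.y i * (P.H + P.R * (π ^ 2 / (P.M (i - 1) : ℝ) ^ 2 * (2 * j + 1))) =
      P.y i * P.H + (P.y i * P.R) * (π ^ 2 / (P.M (i - 1) : ℝ) ^ 2 * (2 * j + 1)) := by ring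
  rw [h1, P.yR hi hik]
  field_simp

theorem yLam_near {i : ℕ} (hi : 1 ≤ i) (hik : i ≤ P.k) {j : ℝ} (hj : j ≤ (P.q : ℝ) ^ 3) :
    P.y i * (P.H + P.R * (π ^ 2 / (P.M (i - 1) : ℝ) ^ 2 * (2 * j + 1))) ≤ 1 / P.q := by
  rw [P.yLam hi hik]
  have h1 := P.yH_le hi hik
  have hq := P.nq8
  have hq0 : (0 : ℝ) < P.q := by linarith
  have h2 : (2 * j + 1) / (4 * (P.q : ℝ) ^ 4) ≤ (2 * (P.q : ℝ) ^ 3 + 1) / (4 * (P.q : ℝ) ^ 4) := by
    gcongr
  have h3 : 1 / (2 * (P.q : ℝ) ^ 3) + (2 * (P.q : ℝ) ^ 3 + 1) / (4 * (P.q : ℝ) ^ 4) ≤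
      1 / P.q := by
    have e : 1 / (2 * (P.q : ℝ) ^ 3) + (2 * (P.q : ℝ) ^ 3 + 1) / (4 * (P.q : ℝ) ^ 4) =
        (2 * P.q + 2 * (P.q : ℝ) ^ 3 + 1) / (4 * (P.q : ℝ) ^ 4) := by
      field_simp
      ring
    rw [e, div_le_div_iff₀ (by positivity) hq0]
    nlinarith [pow_pos hq0 2, pow_pos hq0 3, mul_pos (pow_pos hq0 3) hq0]
  linarith

theorem mu_near {i : ℕ} (hi : 1 ≤ i) (hik : i ≤ P.k) {L L' : ℕ} (hL : L < P.M (i - 1))
    (hL' : L' < P.M (i - 1)) {ξ : V2}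
    (hξ : ξ ∈ ann P.R P.H) (hidx : P.idx (i - 1) ξ = L') (hj : P.cdj i L L' ≤ (P.q : ℝ) ^ 3) :
    |P.mu i L ξ - P.mc i L L'| ≤ 14 / P.q * P.mc i L L' := by
  have hq := P.nq8
  have hq0 : (0 : ℝ) < P.q := by linarith
  have hy := P.y_pos hi
  have hpi := Real.pi_pos
  set x : ℝ := 2 * π * P.y i * (⟪ξ, dir (P.cen (i - 1) L)⟫_ℝ -
    P.R * Real.cos (P.cen (i - 1) L - P.cen (i - 1) L')) with hx
  have h1 : P.mu i L ξ = P.mc i L L' * Real.exp x := by
    unfold mu mc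
    rw [← Real.exp_add]
    congr 1
    rw [hx]
    ring
  have h2 := P.inner_diff hL hL' hξ hidx
  have h3 := P.yLam_near hi hik hj
  have h4 : |x| ≤ 7 / P.q := by
    rw [hx, abs_mul, abs_of_pos (by positivity)]
    calc 2 * π * P.y i * |⟪ξ, dir (P.cen (i - 1) L)⟫_ℝ -
          P.R * Real.cos (P.cen (i - 1) L - P.cen (i - 1) L')|
        ≤ 2 * π * P.y i * (P.H + P.R * (π ^ 2 / (P.M (i - 1) : ℝ) ^ 2 *
          (2 * P.cdj i L L' + 1))) := by gcongr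
      _ = 2 * π * (P.y i * (P.H + P.R * (π ^ 2 / (P.M (i - 1) : ℝ) ^ 2 *
          (2 * P.cdj i L L' + 1)))) := by ring
      _ ≤ 2 * 3.15 * (1 / P.q) := by
        have := Real.pi_lt_d2
        have h0 := mul_nonneg hy.le ((abs_nonneg _).trans h2)
        gcongr
      _ ≤ 7 / P.q := by rw [mul_one_div]; gcongr; norm_num
  have h5 : |x| ≤ 1 := by
    refine h4.trans ?_
    rw [div_le_one hq0]
    linarith
  have h6 := Real.abs_exp_sub_one_le h5
  have h7 := P.mc_pos i L L'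
  have h8 : P.mu i L ξ - P.mc i L L' = P.mc i L L' * (Real.exp x - 1) := by rw [h1]; ring
  rw [h8, abs_mul, abs_of_pos h7, mul_comm]
  gcongr
  calc |Real.exp x - 1| ≤ 2 * |x| := h6
    _ ≤ 2 * (7 / P.q) := by gcongr
    _ = 14 / P.q := by ring

end basic

theorem mu_C (k : ℕ) : ∃ (C : ℝ) (q0 : ℕ), 0 < C ∧ ∀ P : Par, P.k = k → q0 ≤ P.q → ∀ i, 1 ≤ i →
    i ≤ P.k →
    (∀ ξ ∈ ann P.R P.H, ∑ L ∈ Finset.range (P.M (i - 1)), P.cn i * P.mu i L ξ ^ 2 ≤ 2) ∧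
    (∀ ξ ∈ P.gapSet, ∀ L < P.M (i - 1), P.idx i ξ ≠ L / P.b →
      P.mu i L ξ ≤ Real.exp (-(P.q : ℝ) ^ 2 / 4) ∧
      P.mc i L (P.idx (i - 1) ξ) ≤ Real.exp (-(P.q : ℝ) ^ 2 / 4)) ∧
    (∀ L' < P.M (i - 1), ∃ ε : ℕ → ℝ, (∀ L, 0 ≤ ε L) ∧
      (∀ L < P.M (i - 1), ∀ ξ ∈ ann P.R P.H, P.idx (i - 1) ξ = L' →
        |P.mu i L ξ - P.mc i L L'| ≤ ε L) ∧
      ∑ L ∈ Finset.range (P.M (i - 1)), P.cn i * (ε L ^ 2 + 2 * ε L * P.mc i L L') ≤ C / P.q) ∧
    (∀ L' < P.M (i - 1), ∃ Λ : ℕ → ℝ, (∀ L, 0 ≤ Λ L) ∧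
      (∀ L < P.M (i - 1), ∀ ξ ∈ ann P.R P.H, P.idx (i - 1) ξ = L' →
        |⟪ξ - P.R • dir (P.cen (i - 1) L'), dir (P.cen (i - 1) L)⟫_ℝ| ≤ Λ L) ∧
      ∑ L ∈ Finset.range (P.M (i - 1)), P.cn i * P.mc i L L' ^ 2 * min 1 (√(P.y i * Λ L)) ≤
        C / √P.q) := by
  classical
  obtain ⟨q0, hq0⟩ := exists_q0 k
  refine ⟨100, q0, by norm_num, fun P hPk hPq i hi hik => ?_⟩
  have hq := P.nq8
  have hqp : (0 : ℝ) < P.q := by linarith
  obtain ⟨hc0, hc2⟩ := P.cn_pos_le hi hik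
  set F : ℝ := Real.exp (-(P.q : ℝ) ^ 2 / 4) with hF
  have hF0 : 0 < F := Real.exp_pos _
  have hF1 : F ≤ 1 := by
    rw [hF, Real.exp_le_one_iff]
    have : (0 : ℝ) ≤ (P.q : ℝ) ^ 2 := by positivity
    linarith
  have hMF : (P.M (i - 1) : ℝ) * F ≤ 1 / (8 * P.q) := by
    have h1 := P.M_le (i - 1)
    have h2 := hq0 P.q hPq
    rw [← hPk] at h2
    rw [← hF] at h2
    calc (P.M (i - 1) : ℝ) * F ≤ 8 * (P.q : ℝ) ^ (4 * P.k) * F := by gcongr
      _ = (64 * (P.q : ℝ) ^ (4 * P.k) * F) / 8 := by ring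
      _ ≤ (1 / P.q) / 8 := by gcongr
      _ = 1 / (8 * P.q) := by field_simp
  refine ⟨fun ξ hξ => P.mu_sum_le hi hik hξ, fun ξ hξ L hL hne =>
    ⟨P.mu_le_gap hi hik hξ hL hne, P.mc_le_gap hi hik hξ hL hne⟩, fun L' hL' => ?_,
    fun L' hL' => ?_⟩
  · -- third part
    set f : ℕ → ℝ := fun L => if P.cdj i L L' ≤ (P.q : ℝ) ^ 3 then 0 else F with hf
    have hf0 : ∀ L, 0 ≤ f L := by
      intro L
      simp only [hf]
      split_ifs
      · exact le_rfl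
      · exact hF0.le
    have hfF : ∀ L, f L ≤ F := by
      intro L
      simp only [hf]
      split_ifs
      · exact hF0.le
      · exact le_rfl
    set α : ℝ := 14 / P.q with hα
    have hα0 : 0 < α := by positivity
    have hα2 : α ≤ 2 := by rw [hα, div_le_iff₀ hqp]; linarith
    refine ⟨fun L => α * P.mc i L L' + f L, fun L => ?_, fun L hL ξ hξ hidx => ?_, ?_⟩
    · have := P.mc_pos i L L'
      have := hf0 L
      positivity
    · have hmc := P.mc_pos i L L'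
      by_cases hj : P.cdj i L L' ≤ (P.q : ℝ) ^ 3
      · exact (P.mu_near hi hik hL hL' hξ hidx hj).trans (by linarith [hf0 L])
      · have h1 := P.mu_far hi hik hξ hidx (not_le.1 hj)
        have h2 := P.mc_far hi hik (L := L) (L' := L') (not_le.1 hj)
        have h3 := P.mu_pos i L ξ
        have h4 : f L = F := by simp only [hf]; rw [if_neg hj]
        simp only
        rw [h4]
        have h5 : 0 ≤ α * P.mc i L L' := by positivity
        rw [abs_le]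
        constructor <;> linarith
    · have h1 : ∀ L ∈ Finset.range (P.M (i - 1)), P.cn i * ((α * P.mc i L L' + f L) ^ 2 +
          2 * (α * P.mc i L L' + f L) * P.mc i L L') ≤
          (α ^ 2 + 2 * α) * (P.cn i * P.mc i L L' ^ 2) + 14 * F := by
        intro L _
        have h2 := P.mc_pos i L L'
        have h3 := P.mc_le_one hi L L'
        have h4 := hf0 L
        have h5 := hfF L
        have h6 : (α * P.mc i L L' + f L) ^ 2 + 2 * (α * P.mc i L L' + f L) * P.mc i L L' ≤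
            (α ^ 2 + 2 * α) * P.mc i L L' ^ 2 + 7 * F := by
          have h7 : α * P.mc i L L' * f L ≤ 2 * F := by
            calc α * P.mc i L L' * f L ≤ 2 * 1 * F := by gcongr
              _ = 2 * F := by ring
          have h8 : f L ^ 2 ≤ F := by
            calc f L ^ 2 = f L * f L := by ring
              _ ≤ F * 1 := by
                gcongr
                linarith
              _ = F := by ring
          have h9 : f L * P.mc i L L' ≤ F := by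
            calc f L * P.mc i L L' ≤ F * 1 := by gcongr
              _ = F := by ring
          nlinarith
        calc P.cn i * ((α * P.mc i L L' + f L) ^ 2 + 2 * (α * P.mc i L L' + f L) * P.mc i L L')
            ≤ P.cn i * ((α ^ 2 + 2 * α) * P.mc i L L' ^ 2 + 7 * F) := by gcongr
          _ = (α ^ 2 + 2 * α) * (P.cn i * P.mc i L L' ^ 2) + P.cn i * (7 * F) := by ring
          _ ≤ (α ^ 2 + 2 * α) * (P.cn i * P.mc i L L' ^ 2) + 2 * (7 * F) := by gcongr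
          _ = _ := by ring
      refine (Finset.sum_le_sum h1).trans ?_
      rw [Finset.sum_add_distrib, ← Finset.mul_sum, ← Finset.mul_sum, P.cn_norm hi hik hL',
        Finset.sum_const, Finset.card_range, nsmul_eq_mul]
      have h2 : α ^ 2 + 2 * α ≤ 56 / P.q := by
        calc α ^ 2 + 2 * α = α * α + 2 * α := by ring
          _ ≤ 2 * α + 2 * α := by gcongr
          _ = 56 / P.q := by rw [hα]; ring
      have h3 : (P.M (i - 1) : ℝ) * (14 * F) ≤ 2 / P.q := by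
        calc (P.M (i - 1) : ℝ) * (14 * F) = 14 * (P.M (i - 1) * F) := by ring
          _ ≤ 14 * (1 / (8 * P.q)) := by gcongr
          _ = (14 / 8) / P.q := by field_simp
          _ ≤ 2 / P.q := by gcongr; norm_num
      have h4 : 56 / (P.q : ℝ) + 2 / P.q ≤ 100 / P.q := by
        rw [← add_div]; gcongr; norm_num
      linarith
  · -- fourth part
    set Λ : ℕ → ℝ := fun L => P.H + P.R * (π ^ 2 / (P.M (i - 1) : ℝ) ^ 2 *
      (2 * |P.cdj i L L'| + 1)) with hΛ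
    have hH := P.hH
    have hR := P.R_pos
    refine ⟨Λ, fun L => ?_, fun L hL ξ hξ hidx => ?_, ?_⟩
    · simp only [hΛ]
      positivity
    · simp only [hΛ]
      rw [abs_of_nonneg (P.cdj_nonneg hL hL')]
      have h1 := P.inner_diff hL hL' hξ hidx
      rw [inner_sub_left, real_inner_smul_left, inner_dir_dir, ← Real.cos_neg, neg_sub]
      exact h1
    · have hsq : 1 / (P.q : ℝ) ≤ 1 / √P.q := by
        apply one_div_le_one_div_of_le (Real.sqrt_pos.2 hqp)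
        rw [Real.sqrt_le_left hqp.le]
        nlinarith
      have h1 : ∀ L ∈ Finset.range (P.M (i - 1)),
          P.cn i * P.mc i L L' ^ 2 * min 1 (√(P.y i * Λ L)) ≤
          1 / √P.q * (P.cn i * P.mc i L L' ^ 2) + 2 * F := by
        intro L hL
        have hL0 := Finset.mem_range.1 hL
        have h2 := P.mc_pos i L L'
        have h3 := P.mc_le_one hi L L'
        by_cases hj : P.cdj i L L' ≤ (P.q : ℝ) ^ 3
        · have h4 : √(P.y i * Λ L) ≤ 1 / √P.q := by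
            rw [← Real.sqrt_one, ← Real.sqrt_div (by norm_num)]
            apply Real.sqrt_le_sqrt
            simp only [hΛ]
            rw [abs_of_nonneg (P.cdj_nonneg hL0 hL')]
            exact P.yLam_near hi hik hj
          have h5 : min 1 (√(P.y i * Λ L)) ≤ 1 / √P.q := (min_le_right _ _).trans h4
          calc P.cn i * P.mc i L L' ^ 2 * min 1 (√(P.y i * Λ L))
              ≤ P.cn i * P.mc i L L' ^ 2 * (1 / √P.q) := by gcongr
            _ = 1 / √P.q * (P.cn i * P.mc i L L' ^ 2) := by ring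
            _ ≤ _ := by linarith
        · have h4 := P.mc_far hi hik (L := L) (L' := L') (not_le.1 hj)
          have h5 : P.mc i L L' ^ 2 ≤ F := by
            calc P.mc i L L' ^ 2 = P.mc i L L' * P.mc i L L' := by ring
              _ ≤ F * 1 := by gcongr
              _ = F := by ring
          calc P.cn i * P.mc i L L' ^ 2 * min 1 (√(P.y i * Λ L))
              ≤ 2 * F * 1 := by
                gcongr
                exact min_le_left _ _
            _ = 2 * F := by ring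
            _ ≤ _ := by
              have : 0 ≤ 1 / √(P.q : ℝ) * (P.cn i * P.mc i L L' ^ 2) := by positivity
              linarith
      refine (Finset.sum_le_sum h1).trans ?_
      rw [Finset.sum_add_distrib, ← Finset.mul_sum, ← Finset.mul_sum, P.cn_norm hi hik hL',
        Finset.sum_const, Finset.card_range, nsmul_eq_mul]
      have h3 : (P.M (i - 1) : ℝ) * (2 * F) ≤ 1 / √P.q := by
        calc (P.M (i - 1) : ℝ) * (2 * F) = 2 * (P.M (i - 1) * F) := by ring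
          _ ≤ 2 * (1 / (8 * P.q)) := by gcongr
          _ = (1 / 4) / P.q := by field_simp; norm_num
          _ ≤ 1 / P.q := by gcongr; norm_num
          _ ≤ _ := hsq
      have h4 : 1 / √(P.q : ℝ) + 1 / √P.q ≤ 100 / √P.q := by
        rw [← add_div]; gcongr; norm_num
      linarith

theorem mu0_C (y0 : ℝ) : ∃ C : ℝ, 0 < C ∧ ∀ P : Par, P.y0 = y0 → ∀ ξ ∈ ann P.R P.H,
    ∑ κ ∈ Finset.range (P.M 0),
      Real.exp (-(4 * π * P.y0 * (P.ρ - ⟪ξ, dir (P.cen 0 κ)⟫_ℝ))) ≤ C := by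
  refine ⟨4, by norm_num, fun P _ ξ hξ => ?_⟩
  have hM := P.M_pos 0
  have hM' : (0 : ℝ) < P.M 0 := by exact_mod_cast hM
  have hy := P.hy0
  have hR := P.R_pos
  have hpi := Real.pi_pos
  set a : ℝ := 4 * π * P.y0 * P.R with ha
  have ha0 : 0 ≤ a := by positivity
  set θ : ℝ := 2 * π * (1 / 2 / P.M 0 - trn P.α ξ) with hθ
  have h1 : ∀ L : ℕ, Real.exp (-(4 * π * P.y0 * (P.ρ - ⟪ξ, dir (P.cen 0 L)⟫_ℝ))) ≤
      Real.exp (-a) * Real.exp (a * Real.cos (2 * π * L / P.M 0 + θ)) := by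
    intro L
    rw [← Real.exp_add]
    refine Real.exp_le_exp.2 ?_
    have h2 := P.rho_sub_ge hξ _
      (Real.cos_le_one (2 * π * (trn P.α ξ - (L + 1 / 2) / P.M 0)))
    rw [P.inner_cen]
    have h3 : Real.cos (2 * π * L / P.M 0 + θ) =
        Real.cos (2 * π * (trn P.α ξ - (L + 1 / 2) / P.M 0)) := by
      rw [← Real.cos_neg]
      congr 1
      rw [hθ]
      ring
    rw [h3]
    have h4 : 0 ≤ 4 * π * P.y0 := by positivity
    have h5 := mul_le_mul_of_nonneg_left h2 h4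
    rw [ha]
    nlinarith
  have h2 := exp_cos_sum_le (P.M 0) hM ha0 θ
  have haM : 1 ≤ 8 * a / (P.M 0 : ℝ) ^ 2 := by
    rw [le_div_iff₀ (by positivity), one_mul, ha]
    have h3 := P.Msq_le 0
    have h4 : (3 : ℝ) < π := Real.pi_gt_three
    have h5 : 3 * 1 * P.R ≤ π * P.y0 * P.R := by gcongr
    nlinarith
  have h3 : ∀ L ∈ Finset.range (P.M 0), Real.exp (-a) *
      Real.exp (a * Real.cos (2 * π * L / P.M 0)) ≤
      (1 / 2 : ℝ) ^ L + (1 / 2 : ℝ) ^ (P.M 0 - 1 - L) := by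
    intro L hL
    have hL0 := Finset.mem_range.1 hL
    have hL1 : (L : ℝ) + 1 ≤ P.M 0 := by exact_mod_cast hL0
    have hLn : (0 : ℝ) ≤ L := Nat.cast_nonneg _
    have hhalf : Real.exp (-1) ≤ 1 / 2 := by
      rw [Real.exp_neg, one_div]
      apply inv_anti₀ (by norm_num)
      have := Real.add_one_le_exp (1 : ℝ)
      linarith
    have key : ∀ j : ℕ, (j : ℝ) / P.M 0 ≤ L / P.M 0 → (L : ℝ) / P.M 0 ≤ 1 - j / P.M 0 →
        Real.exp (-a) * Real.exp (a * Real.cos (2 * π * L / P.M 0)) ≤ (1 / 2 : ℝ) ^ j := by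
      intro j hj1 hj2
      have h4 := one_sub_cos (u := (L : ℝ) / P.M 0) (δ := (j : ℝ) / P.M 0) (by positivity)
        (by rw [abs_of_nonneg (by positivity)]; exact hj1)
        (by rw [abs_of_nonneg (by positivity)]; exact hj2)
      have h5 : (j : ℝ) ≤ a * (1 - Real.cos (2 * π * (L / P.M 0))) := by
        have h6 : (j : ℝ) ≤ (j : ℝ) ^ 2 := by
          rcases Nat.eq_zero_or_pos j with h | h
          · rw [h]; norm_num
          · have : (1 : ℝ) ≤ j := by exact_mod_cast h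
            nlinarith
        calc (j : ℝ) ≤ (j : ℝ) ^ 2 * 1 := by linarith
          _ ≤ (j : ℝ) ^ 2 * (8 * a / (P.M 0 : ℝ) ^ 2) := by gcongr
          _ = a * (8 * ((j : ℝ) / P.M 0) ^ 2) := by field_simp
          _ ≤ _ := by gcongr
      rw [← Real.exp_add]
      calc Real.exp (-a + a * Real.cos (2 * π * L / P.M 0)) ≤ Real.exp (j * (-1)) := by
            refine Real.exp_le_exp.2 ?_
            have e : 2 * π * (L : ℝ) / P.M 0 = 2 * π * (L / P.M 0) := by ring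
            rw [e]
            linarith
        _ = Real.exp (-1) ^ j := by rw [Real.exp_nat_mul]
        _ ≤ (1 / 2 : ℝ) ^ j := by gcongr
    rcases le_total (L : ℝ) (P.M 0 - L) with h | h
    · have h7 := key L le_rfl (by
        rw [div_le_iff₀ hM', sub_mul, one_mul, div_mul_cancel₀ _ hM'.ne']; exact h)
      have : (0 : ℝ) ≤ (1 / 2 : ℝ) ^ (P.M 0 - 1 - L) := by positivity
      linarith
    · have h8 : ((P.M 0 - 1 - L : ℕ) : ℝ) = P.M 0 - 1 - L := by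
        rw [Nat.cast_sub (by omega), Nat.cast_sub (by omega)]
        simp
      have h7 := key (P.M 0 - 1 - L) (by rw [h8]; gcongr; linarith) (by
        rw [h8, div_le_iff₀ hM', sub_mul, one_mul, div_mul_cancel₀ _ hM'.ne']
        linarith)
      have : (0 : ℝ) ≤ (1 / 2 : ℝ) ^ L := by positivity
      linarith
  have hgeo : ∑ L ∈ Finset.range (P.M 0), (1 / 2 : ℝ) ^ L ≤ 2 := by
    rw [geom_sum_eq (by norm_num)]
    have : (0 : ℝ) ≤ (1 / 2 : ℝ) ^ (P.M 0) := by positivity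
    rw [div_le_iff_of_neg (by norm_num)]
    linarith
  calc ∑ κ ∈ Finset.range (P.M 0), Real.exp (-(4 * π * P.y0 * (P.ρ - ⟪ξ, dir (P.cen 0 κ)⟫_ℝ)))
      ≤ ∑ κ ∈ Finset.range (P.M 0),
          Real.exp (-a) * Real.exp (a * Real.cos (2 * π * κ / P.M 0 + θ)) :=
        Finset.sum_le_sum fun L _ => h1 L
    _ = Real.exp (-a) * ∑ κ ∈ Finset.range (P.M 0),
          Real.exp (a * Real.cos (2 * π * κ / P.M 0 + θ)) := by rw [Finset.mul_sum]
    _ ≤ Real.exp (-a) * ∑ κ ∈ Finset.range (P.M 0),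
          Real.exp (a * Real.cos (2 * π * κ / P.M 0)) := by gcongr
    _ = ∑ κ ∈ Finset.range (P.M 0),
          Real.exp (-a) * Real.exp (a * Real.cos (2 * π * κ / P.M 0)) := by rw [Finset.mul_sum]
    _ ≤ ∑ κ ∈ Finset.range (P.M 0), ((1 / 2 : ℝ) ^ κ + (1 / 2 : ℝ) ^ (P.M 0 - 1 - κ)) :=
        Finset.sum_le_sum h3
    _ = ∑ κ ∈ Finset.range (P.M 0), (1 / 2 : ℝ) ^ κ +
          ∑ κ ∈ Finset.range (P.M 0), (1 / 2 : ℝ) ^ κ := by
        rw [Finset.sum_add_distrib, Finset.sum_range_reflect (fun n => (1 / 2 : ℝ) ^ n) (P.M 0)]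
    _ ≤ 4 := by linarith

end Par

end REPS
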