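import Pool.Agent.REPS.Geom1

open MeasureTheory Filter Topology Real Metric FourierTransform
open scoped ENNReal NNReal InnerProductSpace Pointwise

namespace REPS

open Helper77.TA

theorem inner_nrm_nrm (φ : ℝ) : ⟪nrm φ, nrm φ⟫_ℝ = 1 := by
  rw [real_inner_self_eq_norm_sq, norm_nrm]
  norm_num

theorem dir_rot (c ψ : ℝ) : dir ψ = Real.cos (ψ - c) • dir c + Real.sin (ψ - c) • nrm c := by
  have e : ψ = c + (ψ - c) := by ring
  ext i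
  fin_cases i
  · simp only [dir, nrm]
    simp
    conv_lhs => rw [e, Real.cos_add]
    ring
  · simp only [dir, nrm]
    simp
    conv_lhs => rw [e, Real.sin_add]
    ring

theorem nrm_rot (c ψ : ℝ) :
    nrm ψ = (-Real.sin (ψ - c)) • dir c + Real.cos (ψ - c) • nrm c := by
  have e : ψ = c + (ψ - c) := by ring
  ext i
  fin_cases i
  · simp only [dir, nrm]
    simp
    conv_lhs => rw [e, Real.sin_add]
    ring
  · simp only [dir, nrm]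
    simp
    conv_lhs => rw [e, Real.cos_add]
    ring

theorem abs_inner_dir_le {z : V2} {c ψ s t : ℝ} (h1 : |⟪z, dir c⟫_ℝ| ≤ s)
    (h2 : |⟪z, nrm c⟫_ℝ| ≤ t) : |⟪z, dir ψ⟫_ℝ| ≤ s + t * |ψ - c| := by
  rw [dir_rot c ψ, inner_add_right, inner_smul_right, inner_smul_right]
  have h3 := Real.abs_cos_le_one (ψ - c)
  have h4 : |Real.sin (ψ - c)| ≤ |ψ - c| := Real.abs_sin_le_abs
  have ht : 0 ≤ t := (abs_nonneg _).trans h2
  calc |Real.cos (ψ - c) * ⟪z, dir c⟫_ℝ + Real.sin (ψ - c) * ⟪z, nrm c⟫_ℝ|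
      ≤ |Real.cos (ψ - c) * ⟪z, dir c⟫_ℝ| + |Real.sin (ψ - c) * ⟪z, nrm c⟫_ℝ| := abs_add_le _ _
    _ = |Real.cos (ψ - c)| * |⟪z, dir c⟫_ℝ| + |Real.sin (ψ - c)| * |⟪z, nrm c⟫_ℝ| := by
        rw [abs_mul, abs_mul]
    _ ≤ 1 * s + |ψ - c| * t := by
        gcongr
    _ = s + t * |ψ - c| := by ring

theorem abs_inner_nrm_le {z : V2} {c ψ s t : ℝ} (h1 : |⟪z, dir c⟫_ℝ| ≤ s)
    (h2 : |⟪z, nrm c⟫_ℝ| ≤ t) : |⟪z, nrm ψ⟫_ℝ| ≤ t + s * |ψ - c| := by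
  rw [nrm_rot c ψ, inner_add_right, inner_smul_right, inner_smul_right]
  have h3 := Real.abs_cos_le_one (ψ - c)
  have h4 : |Real.sin (ψ - c)| ≤ |ψ - c| := Real.abs_sin_le_abs
  have hs : 0 ≤ s := (abs_nonneg _).trans h1
  calc |-Real.sin (ψ - c) * ⟪z, dir c⟫_ℝ + Real.cos (ψ - c) * ⟪z, nrm c⟫_ℝ|
      ≤ |-Real.sin (ψ - c) * ⟪z, dir c⟫_ℝ| + |Real.cos (ψ - c) * ⟪z, nrm c⟫_ℝ| := abs_add_le _ _
    _ = |Real.sin (ψ - c)| * |⟪z, dir c⟫_ℝ| + |Real.cos (ψ - c)| * |⟪z, nrm c⟫_ℝ| := by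
        rw [abs_mul, abs_mul, abs_neg]
    _ ≤ |ψ - c| * s + 1 * t := by
        gcongr
    _ = t + s * |ψ - c| := by ring

/-- The key inequality for two chords. -/
theorem chord_key {R H r1 r2 r3 r4 φ1 φ2 φ3 φ4 σ : ℝ} (hR : 0 ≤ R) (h1 : R ≤ r1)
    (h1' : r1 ≤ R + H) (h2 : R ≤ r2) (h2' : r2 ≤ R + H) (h3 : R ≤ r3) (h3' : r3 ≤ R + H)
    (h4 : R ≤ r4) (h4' : r4 ≤ R + H) (hσ : |σ| = 1) {ζ : V2}
    (h : r1 • dir φ1 - r2 • dir φ2 + σ • (r3 • dir φ3 - r4 • dir φ4) = ζ) :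
    2 * R * |Real.sin ((φ1 - φ2) / 2)| * |Real.sin ((φ3 + φ4) / 2 - (φ1 + φ2) / 2)| ≤
      2 * H + |⟪ζ, dir ((φ3 + φ4) / 2)⟫_ℝ| := by
  have e := congrArg (fun v => ⟪v, dir ((φ3 + φ4) / 2)⟫_ℝ) h
  simp only [inner_add_left, inner_smul_left, dir_sub, inner_dir_dir, inner_nrm_dir, sub_self,
    Real.cos_zero, Real.sin_zero, mul_one, mul_zero, add_zero, conj_trivial] at e
  have c1 := Real.abs_cos_le_one ((φ1 - φ2) / 2)
  have c2 := Real.abs_cos_le_one ((φ1 + φ2) / 2 - (φ3 + φ4) / 2)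
  have c3 := Real.abs_cos_le_one ((φ3 - φ4) / 2)
  have d1 : |r1 - r2| ≤ H := abs_le.mpr ⟨by linarith, by linarith⟩
  have d3 : |r3 - r4| ≤ H := abs_le.mpr ⟨by linarith, by linarith⟩
  have hH : 0 ≤ H := by linarith
  have e2 : (r1 + r2) * Real.sin ((φ1 - φ2) / 2) *
      Real.sin ((φ3 + φ4) / 2 - (φ1 + φ2) / 2) = ⟪ζ, dir ((φ3 + φ4) / 2)⟫_ℝ -
      (r1 - r2) * Real.cos ((φ1 - φ2) / 2) * Real.cos ((φ1 + φ2) / 2 - (φ3 + φ4) / 2) -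
      σ * ((r3 - r4) * Real.cos ((φ3 - φ4) / 2)) := by
    rw [← e]; ring
  have b1 : |(r1 - r2) * Real.cos ((φ1 - φ2) / 2) *
      Real.cos ((φ1 + φ2) / 2 - (φ3 + φ4) / 2)| ≤ H := by
    rw [abs_mul, abs_mul]
    calc |r1 - r2| * |Real.cos ((φ1 - φ2) / 2)| *
          |Real.cos ((φ1 + φ2) / 2 - (φ3 + φ4) / 2)| ≤ H * 1 * 1 := by gcongr
      _ = H := by ring
  have b2 : |σ * ((r3 - r4) * Real.cos ((φ3 - φ4) / 2))| ≤ H := by
    rw [abs_mul, abs_mul, hσ]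
    calc 1 * (|r3 - r4| * |Real.cos ((φ3 - φ4) / 2)|) ≤ 1 * (H * 1) := by gcongr
      _ = H := by ring
  have b3 : |(r1 + r2) * Real.sin ((φ1 - φ2) / 2) *
      Real.sin ((φ3 + φ4) / 2 - (φ1 + φ2) / 2)| ≤ 2 * H + |⟪ζ, dir ((φ3 + φ4) / 2)⟫_ℝ| := by
    rw [e2]
    have t1 := abs_sub (⟪ζ, dir ((φ3 + φ4) / 2)⟫_ℝ -
      (r1 - r2) * Real.cos ((φ1 - φ2) / 2) * Real.cos ((φ1 + φ2) / 2 - (φ3 + φ4) / 2))
      (σ * ((r3 - r4) * Real.cos ((φ3 - φ4) / 2)))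
    have t2 := abs_sub (⟪ζ, dir ((φ3 + φ4) / 2)⟫_ℝ)
      ((r1 - r2) * Real.cos ((φ1 - φ2) / 2) * Real.cos ((φ1 + φ2) / 2 - (φ3 + φ4) / 2))
    linarith
  rw [abs_mul, abs_mul] at b3
  have b4 : 2 * R ≤ |r1 + r2| := by
    rw [abs_of_nonneg (by linarith)]
    linarith
  calc 2 * R * |Real.sin ((φ1 - φ2) / 2)| * |Real.sin ((φ3 + φ4) / 2 - (φ1 + φ2) / 2)|
      ≤ |r1 + r2| * |Real.sin ((φ1 - φ2) / 2)| *
        |Real.sin ((φ3 + φ4) / 2 - (φ1 + φ2) / 2)| := by gcongr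
    _ ≤ _ := b3

namespace Par

variable (P : Par)

theorem qR_ge : (4 : ℝ) ≤ P.q := by exact_mod_cast P.hq4

theorem b_real : (P.b : ℝ) = (P.q : ℝ) ^ 4 := by
  unfold b
  push_cast
  rfl

theorem one_le_b : (1 : ℝ) ≤ P.b := by exact_mod_cast P.b_pos

theorem B_pos : 0 < P.B := by
  unfold B A
  have h1 := P.sqrtR_pos
  have h2 := P.qR_ge
  positivity

theorem l_le_succ {i : ℕ} (hi : i + 1 ≤ P.k) : P.l i ≤ P.l (i + 1) := by
  rw [P.l_succ hi]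
  have h1 := P.one_le_b
  have h2 := P.l_pos i
  nlinarith

theorem l_mono {i j : ℕ} (hij : i ≤ j) (hj : j ≤ P.k) : P.l i ≤ P.l j := by
  induction j, hij using Nat.le_induction with
  | base => exact le_rfl
  | succ n hn ih => exact (ih (by omega)).trans (P.l_le_succ hj)

theorem l_top : P.l P.k = π / 4 := by
  unfold l M
  simp
  ring

theorem l_le {i : ℕ} (hi : i ≤ P.k) : P.l i ≤ π / 4 := by
  rw [← P.l_top]
  exact P.l_mono hi le_rfl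

theorem sl_ge {i : ℕ} (hi : i ≤ P.k) : π / 4 ≤ √P.R * P.l i := by
  have h1 := P.l_zero_bounds.1
  have h2 := P.l_mono (Nat.zero_le i) hi
  have h3 := P.sqrtR_pos
  nlinarith

/-- Two points of the gapped annulus in different arcs. -/
theorem sep {i : ℕ} {m n : ℕ} {φ ψ : ℝ} (hmn : m ≠ n)
    (h1 : P.α + (m + 1 / (P.q : ℝ)) * P.l i ≤ φ)
    (h2 : φ ≤ P.α + (m + 1 - 1 / (P.q : ℝ)) * P.l i)
    (h3 : P.α + (n + 1 / (P.q : ℝ)) * P.l i ≤ ψ)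
    (h4 : ψ ≤ P.α + (n + 1 - 1 / (P.q : ℝ)) * P.l i) : 2 / P.q * P.l i ≤ |φ - ψ| := by
  have hl := P.l_pos i
  rcases lt_or_gt_of_ne hmn with h | h
  · have h' : (m : ℝ) + 1 ≤ n := by exact_mod_cast h
    rw [abs_sub_comm]
    refine le_trans ?_ (le_abs_self _)
    have : ((n : ℝ) - m - 1) * P.l i ≥ 0 := mul_nonneg (by linarith) hl.le
    have e : 2 / (P.q : ℝ) = 1 / P.q + 1 / P.q := by ring
    rw [e]
    nlinarith
  · have h' : (n : ℝ) + 1 ≤ m := by exact_mod_cast h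
    refine le_trans ?_ (le_abs_self _)
    have : ((m : ℝ) - n - 1) * P.l i ≥ 0 := mul_nonneg (by linarith) hl.le
    have e : 2 / (P.q : ℝ) = 1 / P.q + 1 / P.q := by ring
    rw [e]
    nlinarith

theorem near {i : ℕ} {m : ℕ} {φ ψ : ℝ}
    (h1 : P.α + (m + 1 / (P.q : ℝ)) * P.l i ≤ φ)
    (h2 : φ ≤ P.α + (m + 1 - 1 / (P.q : ℝ)) * P.l i)
    (h3 : P.α + (m + 1 / (P.q : ℝ)) * P.l i ≤ ψ)
    (h4 : ψ ≤ P.α + (m + 1 - 1 / (P.q : ℝ)) * P.l i) : |φ - ψ| ≤ P.l i := by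
  have hl := P.l_pos i
  have hq : 0 ≤ 1 / (P.q : ℝ) * P.l i := by positivity
  rw [abs_le]
  constructor <;> nlinarith

theorem cen_near {i : ℕ} {m : ℕ} {φ : ℝ}
    (h1 : P.α + (m + 1 / (P.q : ℝ)) * P.l i ≤ φ)
    (h2 : φ ≤ P.α + (m + 1 - 1 / (P.q : ℝ)) * P.l i) : |φ - P.cen i m| ≤ P.l i / 2 := by
  have hl := P.l_pos i
  have hq : 0 ≤ 1 / (P.q : ℝ) * P.l i := by positivity
  unfold cen
  rw [abs_le]
  constructor <;> nlinarith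

theorem eight_B_lt : 8 * P.B < √P.R / P.q := by
  have hq4 := P.qR_ge
  have hS := P.sqrtR_pos
  unfold B A
  rw [← mul_div_assoc, div_lt_div_iff₀ (by positivity) (by positivity)]
  have h7 : (8 : ℝ) < (P.q : ℝ) ^ 7 := by
    calc (8 : ℝ) < 4 ^ 7 := by norm_num
      _ ≤ (P.q : ℝ) ^ 7 := by gcongr
  have h10 : 0 < √P.R * (P.q : ℝ) := by positivity
  have h11 : √P.R * (P.q : ℝ) * 8 < √P.R * (P.q : ℝ) * (P.q : ℝ) ^ 7 :=
    mul_lt_mul_of_pos_left h7 h10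
  calc 8 * √P.R * (P.q : ℝ) = √P.R * (P.q : ℝ) * 8 := by ring
    _ < √P.R * (P.q : ℝ) * (P.q : ℝ) ^ 7 := h11
    _ = √P.R * (P.q : ℝ) ^ 8 := by ring

theorem two_R_ge : √P.R / P.q ≤ 2 * P.R * (2 / π * (1 / P.q * P.l 0)) := by
  have hR := P.R_pos
  have hS := P.sqrtR_pos
  have hSS : √P.R * √P.R = P.R := Real.mul_self_sqrt hR.le
  have h9 := P.l_zero_bounds.1
  have h10 : 2 * (√P.R * √P.R) * (2 / π * (1 / P.q * P.l 0)) =
      (4 / π * (√P.R * P.l 0)) * (√P.R / P.q) := by ring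
  rw [hSS] at h10
  rw [h10]
  have h11 : 1 ≤ 4 / π * (√P.R * P.l 0) := by
    rw [div_mul_eq_mul_div, le_div_iff₀ Real.pi_pos]
    linarith
  have h12 : 0 ≤ √P.R / (P.q : ℝ) := by positivity
  exact le_mul_of_one_le_left h12 h11

theorem sin_ge {c u : ℝ} (h1 : c ≤ |u|) (h2 : |u| ≤ π - c) :
    2 / π * c ≤ |Real.sin u| := by
  have hpi := Real.pi_pos
  rcases lt_or_ge c 0 with hc | hc
  · have h0 : 0 ≤ |Real.sin u| := abs_nonneg _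
    have h1 : 2 / π * c ≤ 0 := mul_nonpos_of_nonneg_of_nonpos (by positivity) hc.le
    linarith
  rcases le_or_gt |u| (π / 2) with h | h
  · have h3 := Real.mul_abs_le_abs_sin h
    have : 2 / π * c ≤ 2 / π * |u| := by gcongr
    linarith
  · have h4 : |π - (|u|)| ≤ π / 2 := by
      rw [abs_of_nonneg (by linarith)]
      linarith
    have h3 := Real.mul_abs_le_abs_sin h4
    rw [Real.sin_pi_sub] at h3
    have h5 : |Real.sin (|u|)| = |Real.sin u| := by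
      rcases abs_cases u with ⟨h, _⟩ | ⟨h, _⟩
      · rw [h]
      · rw [h, Real.sin_neg, abs_neg]
    rw [h5] at h3
    have h6 : c ≤ |π - (|u|)| := le_trans (by linarith) (le_abs_self _)
    have : 2 / π * c ≤ 2 / π * |π - (|u|)| := by gcongr
    linarith

theorem diff_le {ξ ξ' : V2} {φ φ' : ℝ}
    (a1 : P.α + (P.idx 0 ξ + 1 / (P.q : ℝ)) * P.l 0 ≤ φ)
    (a2 : φ ≤ P.α + (P.idx 0 ξ + 1 - 1 / (P.q : ℝ)) * P.l 0)
    (b1 : P.α + (P.idx 0 ξ' + 1 / (P.q : ℝ)) * P.l 0 ≤ φ')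
    (b2 : φ' ≤ P.α + (P.idx 0 ξ' + 1 - 1 / (P.q : ℝ)) * P.l 0) :
    |φ - φ'| ≤ 2 * π - 2 / P.q * P.l 0 := by
  have hl := P.l_pos 0
  have i1 : (P.idx 0 ξ : ℝ) + 1 ≤ P.M 0 := by exact_mod_cast P.idx_lt 0 ξ
  have i2 : (P.idx 0 ξ' : ℝ) + 1 ≤ P.M 0 := by exact_mod_cast P.idx_lt 0 ξ'
  have i3 : (0 : ℝ) ≤ P.idx 0 ξ := by positivity
  have i4 : (0 : ℝ) ≤ P.idx 0 ξ' := by positivity
  have e2 : 2 / (P.q : ℝ) = 1 / P.q + 1 / P.q := by ring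
  rw [← P.l_mul_M 0, e2, abs_le]
  have m1 : ((P.M 0 : ℝ) - 1 - P.idx 0 ξ) * P.l 0 ≥ 0 := mul_nonneg (by linarith) hl.le
  have m2 : ((P.M 0 : ℝ) - 1 - P.idx 0 ξ') * P.l 0 ≥ 0 := mul_nonneg (by linarith) hl.le
  have m3 : (P.idx 0 ξ : ℝ) * P.l 0 ≥ 0 := mul_nonneg i3 hl.le
  have m4 : (P.idx 0 ξ' : ℝ) * P.l 0 ≥ 0 := mul_nonneg i4 hl.le
  constructor <;> nlinarith

/-- (O1) -/
theorem geo_one {ξ ξ' : V2} (hξ : ξ ∈ P.gapSet) (hξ' : ξ' ∈ P.gapSet)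
    (h : P.idx 0 ξ ≠ P.idx 0 ξ') : 8 * P.B < ‖ξ - ξ'‖ := by
  obtain ⟨r, φ, e, hr, -, ha⟩ := P.gap_rep hξ
  obtain ⟨r', φ', e', hr', -, ha'⟩ := P.gap_rep hξ'
  obtain ⟨a1, a2⟩ := ha 0 (Nat.zero_le _)
  obtain ⟨b1, b2⟩ := ha' 0 (Nat.zero_le _)
  have hsep := P.sep h a1 a2 b1 b2
  have hup := P.diff_le a1 a2 b1 b2
  have hR := P.R_pos
  have hl := P.l_pos 0
  have hpi := Real.pi_pos
  have hu2 : |(φ - φ') / 2| = |φ - φ'| / 2 := by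
    rw [abs_div]
    norm_num
  have e2 : 2 / (P.q : ℝ) = 2 * (1 / P.q) := by ring
  rw [e2] at hsep hup
  have hsin : 2 / π * (1 / P.q * P.l 0) ≤ |Real.sin ((φ - φ') / 2)| :=
    sin_ge (by rw [hu2]; linarith) (by rw [hu2]; linarith)
  have hn : (r + r') * |Real.sin ((φ - φ') / 2)| ≤ ‖ξ - ξ'‖ := by
    have h1 : ⟪nrm ((φ + φ') / 2), ξ - ξ'⟫_ℝ = (r + r') * Real.sin ((φ - φ') / 2) := by
      rw [e, e', dir_sub, inner_add_right, inner_smul_right, inner_smul_right, inner_nrm_dir,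
        inner_nrm_nrm, sub_self, Real.sin_zero]
      ring
    have h2 := abs_real_inner_le_norm (nrm ((φ + φ') / 2)) (ξ - ξ')
    rw [h1, norm_nrm, one_mul, abs_mul, abs_of_nonneg (by linarith)] at h2
    exact h2
  have h8 : 2 * P.R * (2 / π * (1 / P.q * P.l 0)) ≤ (r + r') * |Real.sin ((φ - φ') / 2)| := by
    have : 0 ≤ 2 / π * (1 / (P.q : ℝ) * P.l 0) := by positivity
    exact mul_le_mul (by linarith) hsin this (by linarith)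
  have h9 := P.two_R_ge
  have h10 := P.eight_B_lt
  linarith

/-- Numbers used in (O2) and (O3). -/
theorem box_num {i : ℕ} (hi : 1 ≤ i) (hik : i ≤ P.k) :
    P.B * P.l i * (4 * P.b + 2) ≤ 5 * (√P.R * P.l (i - 1)) := by
  have hq4 := P.qR_ge
  have hS := P.sqrtR_pos
  have hl := P.l_pos (i - 1)
  have e1 : P.l i = P.b * P.l (i - 1) := by
    have := P.l_succ (i := i - 1) (by omega)
    rwa [show i - 1 + 1 = i from by omega] at this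
  have hb := P.b_real
  have hb256 : (256 : ℝ) ≤ P.b := by
    rw [hb]
    calc (256 : ℝ) = 4 ^ 4 := by norm_num
      _ ≤ _ := by gcongr
  have eB : P.B * ((P.b : ℝ) * P.b) = √P.R := by
    unfold B A
    rw [hb]
    field_simp
  have h1 : P.B * P.l i * (4 * P.b + 2) =
      P.l (i - 1) * (4 * (P.B * ((P.b : ℝ) * P.b)) + 2 * (P.B * P.b)) := by
    rw [e1]; ring
  have hB := P.B_pos
  have h2 : 2 * (P.B * P.b) ≤ P.B * ((P.b : ℝ) * P.b) := by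
    have : 0 ≤ P.B * P.b * (P.b - 2) := by
      have : (0 : ℝ) ≤ P.b - 2 := by linarith
      positivity
    linarith
  rw [h1]
  rw [eB] at h2 ⊢
  nlinarith

/-- Inner products of the box of a node with the directions of this node. -/
theorem wbox_inner {c : ℝ} {i j : ℕ} {z : V2} (hz : z ∈ P.wbox c i j) (ψ : ℝ) :
    |⟪z, dir ψ⟫_ℝ| ≤ c * P.B * (P.b * P.l i) + c * P.B * |ψ - P.cen i j| :=
  abs_inner_dir_le hz.1 hz.2

theorem idx_real_le {m n : ℕ} {φ φ' : ℝ}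
    (a1 : P.α + (m + 1 / (P.q : ℝ)) * P.l 0 ≤ φ)
    (a2 : φ ≤ P.α + (m + 1 - 1 / (P.q : ℝ)) * P.l 0)
    (b1 : P.α + (n + 1 / (P.q : ℝ)) * P.l 0 ≤ φ')
    (b2 : φ' ≤ P.α + (n + 1 - 1 / (P.q : ℝ)) * P.l 0) :
    (|(m : ℝ) - n| - 1) * P.l 0 ≤ |φ - φ'| := by
  have hl := P.l_pos 0
  have hq : 0 ≤ 1 / (P.q : ℝ) * P.l 0 := by positivity
  rcases abs_cases ((m : ℝ) - n) with ⟨h, _⟩ | ⟨h, _⟩
  · rw [h]
    refine le_trans ?_ (le_abs_self _)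
    nlinarith
  · rw [h]
    refine le_trans ?_ (neg_le_abs _)
    nlinarith

/-- The numerical end of (O2). -/
theorem o2_num {q H S δ l' X BL : ℝ} (hq : 4 ≤ q) (hH : 1 ≤ H) (hδ : 0 < δ)
    (hS : π / 4 ≤ S * δ) (hl' : δ ≤ l') (hSp : 0 < S) (hBL : BL ≤ 5 * (S * l'))
    (h : 2 * (S * S) * (2 / π * ((X - 1) * δ / 2)) * (2 / π * (2 / q * l')) ≤ 2 * H + BL) :
    X ≤ 20 * q * H := by
  have hpi := Real.pi_pos
  have hpi4 := Real.pi_lt_d2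
  by_contra hX
  push Not at hX
  have hq0 : 0 < q := by linarith
  have hc : π / 4 ≤ S * l' := hS.trans (by nlinarith)
  have hX1 : 19 * q * H ≤ X - 1 := by nlinarith
  have h1 : 2 * (S * S) * (2 / π * ((X - 1) * δ / 2)) * (2 / π * (2 / q * l')) =
      (X - 1) * (8 / (π ^ 2 * q)) * ((S * δ) * (S * l')) := by
    field_simp
    ring
  rw [h1] at h
  have h2 : (19 * q * H) * (8 / (π ^ 2 * q)) * ((S * δ) * (S * l')) ≤
      (X - 1) * (8 / (π ^ 2 * q)) * ((S * δ) * (S * l')) := by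
    have : 0 < S * l' := by linarith [hc, hpi]
    have : 0 < S * δ := by positivity
    gcongr
  have h3 : (19 * q * H) * (8 / (π ^ 2 * q)) * ((S * δ) * (S * l')) =
      152 * H / π ^ 2 * ((S * δ) * (S * l')) := by
    field_simp
    ring
  have h4 : 152 * H / π ^ 2 * ((π / 4) * (S * l')) ≤ 152 * H / π ^ 2 * ((S * δ) * (S * l')) := by
    have : 0 < S * l' := by linarith [hc, hpi]
    gcongr
  have h5 : 152 * H / π ^ 2 * ((π / 4) * (S * l')) = 38 * H * (S * l') / π := by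
    field_simp
    ring
  have h6 : 12 * H * (S * l') ≤ 38 * H * (S * l') / π := by
    rw [le_div_iff₀ hpi]
    have : 0 < H * (S * l') := mul_pos (by linarith) (by linarith)
    nlinarith
  have h7 : 12 * H * (S * l') ≤ 2 * H + 5 * (S * l') := by linarith
  have h8 : 3 / 4 ≤ S * l' := by linarith [Real.pi_gt_three]
  nlinarith

/-- The midpoint of two points of an arc. -/
theorem mid_mem {m : ℕ} {i : ℕ} {φ ψ : ℝ}
    (h1 : P.α + (m + 1 / (P.q : ℝ)) * P.l i ≤ φ ∧ φ ≤ P.α + (m + 1 - 1 / (P.q : ℝ)) * P.l i)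
    (h2 : P.α + (m + 1 / (P.q : ℝ)) * P.l i ≤ ψ ∧ ψ ≤ P.α + (m + 1 - 1 / (P.q : ℝ)) * P.l i) :
    P.α + (m + 1 / (P.q : ℝ)) * P.l i ≤ (φ + ψ) / 2 ∧
      (φ + ψ) / 2 ≤ P.α + (m + 1 - 1 / (P.q : ℝ)) * P.l i := by
  obtain ⟨a, b⟩ := h1
  obtain ⟨c, d⟩ := h2
  constructor <;> linarith

theorem sin_half {φ ψ : ℝ} (h : |φ - ψ| ≤ π) :
    2 / π * (|φ - ψ| / 2) ≤ |Real.sin ((φ - ψ) / 2)| := by
  have e : |(φ - ψ) / 2| = |φ - ψ| / 2 := by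
    rw [abs_div]
    norm_num
  rw [← e]
  apply Real.mul_abs_le_abs_sin
  rw [e]
  linarith

theorem o2_aux {i : ℕ} (hi : 1 ≤ i) (hik : i ≤ P.k) {X a s1 s2 zz : ℝ}
    (hidx : (X - 1) * P.l 0 ≤ a) (h1 : 2 / π * (a / 2) ≤ s1)
    (h2 : 2 / π * (2 / P.q * P.l (i - 1)) ≤ s2)
    (hz : zz ≤ P.B * P.l i * (4 * P.b + 2))
    (key : 2 * P.R * s1 * s2 ≤ 2 * P.H + zz) : X ≤ 20 * P.q * P.H := by
  have hR := P.R_pos
  have hpi := Real.pi_pos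
  have hik' : i - 1 ≤ P.k := by omega
  have hl' := P.l_pos (i - 1)
  have h5 := P.hH
  have h6 := P.qR_ge
  rcases le_or_gt X 1 with hX1 | hX1
  · nlinarith
  have hSS : √P.R * √P.R = P.R := Real.mul_self_sqrt hR.le
  have hl0 := P.l_pos 0
  apply o2_num h6 h5 hl0 P.l_zero_bounds.1 (P.l_mono (Nat.zero_le _) hik') P.sqrtR_pos
    (P.box_num hi hik)
  rw [hSS]
  refine le_trans ?_ (key.trans (by linarith))
  have hq0 : 0 < (P.q : ℝ) := by linarith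
  have t1 : 2 / π * ((X - 1) * P.l 0 / 2) ≤ s1 := by
    refine le_trans ?_ h1
    gcongr
  have t0 : 0 ≤ 2 / π * (2 / (P.q : ℝ) * P.l (i - 1)) := by positivity
  have t2 : 0 ≤ 2 / π * ((X - 1) * P.l 0 / 2) := by
    have : 0 < X - 1 := by linarith
    positivity
  have t3 : 0 ≤ s1 := t2.trans t1
  calc 2 * P.R * (2 / π * ((X - 1) * P.l 0 / 2)) * (2 / π * (2 / P.q * P.l (i - 1)))
      ≤ 2 * P.R * s1 * (2 / π * (2 / P.q * P.l (i - 1))) := by gcongr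
    _ ≤ 2 * P.R * s1 * s2 := by gcongr

/-- (O2) -/
theorem geo_two {i j : ℕ} (hi : 1 ≤ i) (hik : i ≤ P.k) {ξ₁ ξ₂ ξ₃ ξ₄ z : V2}
    (h1 : ξ₁ ∈ P.gapSet) (h2 : ξ₂ ∈ P.gapSet) (h3 : ξ₃ ∈ P.gapSet) (h4 : ξ₄ ∈ P.gapSet)
    (j1 : P.idx i ξ₁ = j) (j2 : P.idx i ξ₂ = j) (j3 : P.idx i ξ₃ = j) (j4 : P.idx i ξ₄ = j)
    (h12 : P.idx (i - 1) ξ₁ = P.idx (i - 1) ξ₂) (h34 : P.idx (i - 1) ξ₃ = P.idx (i - 1) ξ₄)
    (h13 : P.idx (i - 1) ξ₁ ≠ P.idx (i - 1) ξ₃) (hz : z ∈ P.wbox 4 i j)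
    (h : ξ₁ - ξ₂ + (ξ₃ - ξ₄) = z) :
    |(P.idx 0 ξ₁ : ℝ) - P.idx 0 ξ₂| ≤ 20 * P.q * P.H := by
  obtain ⟨r1, φ1, e1, p1, p1', a1⟩ := P.gap_rep h1
  obtain ⟨r2, φ2, e2, p2, p2', a2⟩ := P.gap_rep h2
  obtain ⟨r3, φ3, e3, p3, p3', a3⟩ := P.gap_rep h3
  obtain ⟨r4, φ4, e4, p4, p4', a4⟩ := P.gap_rep h4
  have hik' : i - 1 ≤ P.k := by omega
  -- positions
  have a1i := a1 i hik
  have a2i := a2 i hik
  have a3i := a3 i hik
  have a4i := a4 i hik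
  rw [j1] at a1i
  rw [j2] at a2i
  rw [j3] at a3i
  rw [j4] at a4i
  have b1 := a1 (i - 1) hik'
  have b2 := a2 (i - 1) hik'
  have b3 := a3 (i - 1) hik'
  have b4 := a4 (i - 1) hik'
  rw [← h12] at b2
  rw [← h34] at b4
  have m12 := P.mid_mem b1 b2
  have m34 := P.mid_mem b3 b4
  have n12 := P.mid_mem a1i a2i
  have n34 := P.mid_mem a3i a4i
  have hsep := P.sep h13 m12.1 m12.2 m34.1 m34.2
  have hnear := P.near n12.1 n12.2 n34.1 n34.2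
  have hcen := P.cen_near n34.1 n34.2
  have hl4 := P.l_le hik
  have hpi := Real.pi_pos
  -- the key inequality
  have key := chord_key (σ := 1) P.R_pos.le p1 p1' p2 p2' p3 p3' p4 p4' (by simp) (ζ := z)
    (φ1 := φ1) (φ2 := φ2) (φ3 := φ3) (φ4 := φ4) (by rw [one_smul, ← e1, ← e2, ← e3, ← e4, h])
  have hzz := P.wbox_inner hz ((φ3 + φ4) / 2)
  have hB := P.B_pos
  have hz2 : |⟪z, dir ((φ3 + φ4) / 2)⟫_ℝ| ≤ P.B * P.l i * (4 * P.b + 2) := by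
    have h8 : 4 * P.B * |(φ3 + φ4) / 2 - P.cen i j| ≤ 4 * P.B * (P.l i / 2) := by gcongr
    calc |⟪z, dir ((φ3 + φ4) / 2)⟫_ℝ| ≤ _ := hzz
      _ ≤ 4 * P.B * (P.b * P.l i) + 4 * P.B * (P.l i / 2) := by linarith
      _ = _ := by ring
  have hu := P.near b1.1 b1.2 b2.1 b2.2
  have hl4' := P.l_le hik'
  have s1 : 2 / π * (|φ1 - φ2| / 2) ≤ |Real.sin ((φ1 - φ2) / 2)| := sin_half (by linarith)
  have s2 : 2 / π * (2 / P.q * P.l (i - 1)) ≤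
      |Real.sin ((φ3 + φ4) / 2 - (φ1 + φ2) / 2)| := by
    rw [abs_sub_comm] at hsep hnear
    exact sin_ge hsep (hnear.trans (by
      have h9 : 2 / (P.q : ℝ) * P.l (i - 1) ≤ P.l i := hsep.trans hnear
      linarith))
  have hidx := P.idx_real_le (a1 0 (Nat.zero_le _)).1 (a1 0 (Nat.zero_le _)).2
    (a2 0 (Nat.zero_le _)).1 (a2 0 (Nat.zero_le _)).2
  exact P.o2_aux hi hik hidx s1 s2 hz2 key

/-- The numerical end of (O3). -/
theorem o3_num {q H S l' Δ B : ℝ} (hq : 4 ≤ q) (hH : 4 * H ≤ q)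
    (hc : π / 4 ≤ S * l') (hS : 0 < S) (hB : B = S / q ^ 8)
    (hΔ : 2 / q * (q ^ 4 * l') ≤ Δ)
    (h : 2 * (S * S) * (2 / π * (1 / q * l')) * (2 / π * Δ) ≤
      2 * H + 5 * (S * l') + 2 * B * Δ) : False := by
  have hpi := Real.pi_pos
  have hpi4 := Real.pi_lt_d2
  have hpi3 := Real.pi_gt_three
  have hq0 : 0 < q := by linarith
  set c : ℝ := S * l' with hcdef
  have hc34 : 3 / 4 ≤ c := by linarith
  have hl' : 0 < l' := by
    by_contra h0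
    push Not at h0
    have : c ≤ 0 := mul_nonpos_of_nonneg_of_nonpos hS.le h0
    linarith
  have e1 : 2 * (S * S) * (2 / π * (1 / q * l')) * (2 / π * Δ) =
      8 / π ^ 2 * (c / q) * (S * Δ) := by
    rw [hcdef]
    field_simp
    ring
  have e2 : 2 * B * Δ = 2 / q ^ 8 * (S * Δ) := by
    rw [hB]
    ring
  rw [e1, e2] at h
  have hSΔ : 2 * q ^ 3 * c ≤ S * Δ := by
    have h1 : S * (2 / q * (q ^ 4 * l')) ≤ S * Δ := by gcongr
    have h2 : S * (2 / q * (q ^ 4 * l')) = 2 * q ^ 3 * c := by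
      rw [hcdef]
      field_simp
    linarith
  have hpi2 : 8 / π ^ 2 ≥ 4 / 5 := by
    rw [ge_iff_le, div_le_div_iff₀ (by norm_num) (by positivity)]
    nlinarith
  have h3 : 4 / 5 * (c / q) * (S * Δ) ≤ 8 / π ^ 2 * (c / q) * (S * Δ) := by
    have h0 : 0 ≤ c / q := by positivity
    have h1 : 0 ≤ S * Δ := le_trans (by positivity) hSΔ
    gcongr
  have h4 : 2 / q ^ 8 * (S * Δ) ≤ 1 / 5 * (c / q) * (S * Δ) := by
    have h1 : 0 ≤ S * Δ := le_trans (by positivity) hSΔ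
    have h2 : 2 / q ^ 8 ≤ 1 / 5 * (c / q) := by
      have h5 : (1 : ℝ) / 5 * (c / q) = c / (5 * q) := by
        field_simp
      rw [h5, div_le_div_iff₀ (by positivity) (by positivity)]
      have h6 : (20 : ℝ) ≤ q ^ 7 := by
        calc (20 : ℝ) ≤ 4 ^ 7 := by norm_num
          _ ≤ q ^ 7 := by gcongr
      have h7 : q ^ 8 = q ^ 7 * q := by ring
      rw [h7]
      have h8 : 20 * q ≤ q ^ 7 * q := by gcongr
      have h9 : 0 < q ^ 7 * q := by positivity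
      nlinarith
    gcongr
  have h5 : 3 / 5 * (c / q) * (S * Δ) ≤ 2 * H + 5 * c := by
    nlinarith
  have h6 : 3 / 5 * (c / q) * (2 * q ^ 3 * c) ≤ 3 / 5 * (c / q) * (S * Δ) := by
    have h0 : 0 ≤ c / q := by positivity
    gcongr
  have h7 : 3 / 5 * (c / q) * (2 * q ^ 3 * c) = 6 / 5 * (q ^ 2 * c ^ 2) := by
    field_simp
    ring
  have h8 : 6 / 5 * (q ^ 2 * c ^ 2) ≤ q / 2 + 5 * c := by linarith
  have h9 : 16 * c ^ 2 ≤ q ^ 2 * c ^ 2 := by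
    have : (16 : ℝ) ≤ q ^ 2 := by nlinarith
    gcongr
  have h10 : q ^ 2 * (9 / 16) ≤ q ^ 2 * c ^ 2 := by
    have : (9 : ℝ) / 16 ≤ c ^ 2 := by nlinarith
    gcongr
  nlinarith

theorem idx_eq_up {ξ ξ' : V2} {i i' : ℕ} (hii : i ≤ i') (hi' : i' ≤ P.k)
    (h : P.idx i ξ = P.idx i ξ') : P.idx i' ξ = P.idx i' ξ' := by
  induction i', hii using Nat.le_induction with
  | base => exact h
  | succ n hn ih => rw [P.idx_succ hi', P.idx_succ hi', ih (by omega)]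

theorem o3_aux {i : ℕ} (hi : 1 ≤ i) (hik : i ≤ P.k) {a s1 s2 Δ zz : ℝ}
    (ha : 2 / P.q * P.l (i - 1) ≤ a) (h1 : 2 / π * (a / 2) ≤ s1)
    (hΔ : 2 / P.q * P.l i ≤ Δ) (h2 : 2 / π * Δ ≤ s2)
    (hz : zz ≤ P.B * P.l i * (4 * P.b + 2) + 2 * P.B * Δ)
    (key : 2 * P.R * s1 * s2 ≤ 2 * P.H + zz) : False := by
  have hR := P.R_pos
  have hpi := Real.pi_pos
  have hik' : i - 1 ≤ P.k := by omega
  have hl' := P.l_pos (i - 1)
  have hl := P.l_pos i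
  have h6 := P.qR_ge
  have hq0 : 0 < (P.q : ℝ) := by linarith
  have hSS : √P.R * √P.R = P.R := Real.mul_self_sqrt hR.le
  have e1 : P.l i = P.b * P.l (i - 1) := by
    have := P.l_succ (i := i - 1) (by omega)
    rwa [show i - 1 + 1 = i from by omega] at this
  have hΔ0 : 0 < Δ := lt_of_lt_of_le (by positivity) hΔ
  refine o3_num (q := P.q) (H := P.H) (S := √P.R) (l' := P.l (i - 1)) (Δ := Δ) (B := P.B) h6
    P.hqH (P.sl_ge hik') P.sqrtR_pos rfl ?_ ?_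
  · rw [← P.b_real, ← e1]
    exact hΔ
  · rw [hSS]
    have t1 : 2 / π * (1 / P.q * P.l (i - 1)) ≤ s1 := by
      refine le_trans ?_ h1
      have : 1 / (P.q : ℝ) * P.l (i - 1) ≤ a / 2 := by
        have e : 2 / (P.q : ℝ) * P.l (i - 1) = 2 * (1 / P.q * P.l (i - 1)) := by ring
        rw [e] at ha
        linarith
      gcongr
    have t0 : 0 ≤ 2 / π * (1 / (P.q : ℝ) * P.l (i - 1)) := by positivity
    have t3 : 0 ≤ s1 := t0.trans t1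
    calc 2 * P.R * (2 / π * (1 / P.q * P.l (i - 1))) * (2 / π * Δ)
        ≤ 2 * P.R * s1 * (2 / π * Δ) := by gcongr
      _ ≤ 2 * P.R * s1 * s2 := by gcongr
      _ ≤ 2 * P.H + zz := key
      _ ≤ _ := by
          have := P.box_num hi hik
          linarith

/-- (O3) -/
theorem geo_three {i j j' : ℕ} (hi : 1 ≤ i) (hik : i ≤ P.k) {ξ₁ ξ₂ ξ₃ ξ₄ z z' : V2}
    (h1 : ξ₁ ∈ P.gapSet) (h2 : ξ₂ ∈ P.gapSet) (h3 : ξ₃ ∈ P.gapSet) (h4 : ξ₄ ∈ P.gapSet)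
    (j1 : P.idx i ξ₁ = j) (j2 : P.idx i ξ₂ = j) (j3 : P.idx i ξ₃ = j') (j4 : P.idx i ξ₄ = j')
    (hroot : P.idx P.k ξ₁ = P.idx P.k ξ₃)
    (h12 : P.idx (i - 1) ξ₁ ≠ P.idx (i - 1) ξ₂) (h34 : P.idx (i - 1) ξ₃ ≠ P.idx (i - 1) ξ₄)
    (hjj : j ≠ j') (hz : z ∈ P.wbox 2 i j) (hz' : z' ∈ P.wbox 2 i j') :
    ξ₁ - ξ₂ + z ≠ ξ₃ - ξ₄ + z' := by
  intro h
  obtain ⟨r1, φ1, e1, p1, p1', a1⟩ := P.gap_rep h1
  obtain ⟨r2, φ2, e2, p2, p2', a2⟩ := P.gap_rep h2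
  obtain ⟨r3, φ3, e3, p3, p3', a3⟩ := P.gap_rep h3
  obtain ⟨r4, φ4, e4, p4, p4', a4⟩ := P.gap_rep h4
  have hik' : i - 1 ≤ P.k := by omega
  have a1i := a1 i hik
  have a2i := a2 i hik
  have a3i := a3 i hik
  have a4i := a4 i hik
  rw [j1] at a1i
  rw [j2] at a2i
  rw [j3] at a3i
  rw [j4] at a4i
  -- the root
  have q2 : P.idx P.k ξ₂ = P.idx P.k ξ₁ := P.idx_eq_up hik le_rfl (by rw [j1, j2])
  have q4 : P.idx P.k ξ₄ = P.idx P.k ξ₁ := by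
    rw [hroot]
    exact P.idx_eq_up hik le_rfl (by rw [j3, j4])
  have c1 := a1 P.k le_rfl
  have c2 := a2 P.k le_rfl
  have c3 := a3 P.k le_rfl
  have c4 := a4 P.k le_rfl
  rw [q2] at c2
  rw [← hroot] at c3
  rw [q4] at c4
  have k12 := P.mid_mem c1 c2
  have k34 := P.mid_mem c3 c4
  have hroot' := P.near k34.1 k34.2 k12.1 k12.2
  rw [P.l_top] at hroot'
  have n12 := P.mid_mem a1i a2i
  have n34 := P.mid_mem a3i a4i
  have hsep := P.sep hjj.symm n34.1 n34.2 n12.1 n12.2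
  have hcen := P.cen_near n12.1 n12.2
  have hcen' := P.cen_near n34.1 n34.2
  have hpi := Real.pi_pos
  have hl4 := P.l_le hik
  have b1 := a1 (i - 1) hik'
  have b2 := a2 (i - 1) hik'
  have hsep12 := P.sep h12 b1.1 b1.2 b2.1 b2.2
  have hnear12 := P.near a1i.1 a1i.2 a2i.1 a2i.2
  have key := chord_key (σ := -1) P.R_pos.le p1 p1' p2 p2' p3 p3' p4 p4' (by simp)
    (ζ := z' - z) (φ1 := φ1) (φ2 := φ2) (φ3 := φ3) (φ4 := φ4) (by
      rw [neg_one_smul, ← e1, ← e2, ← e3, ← e4]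
      have h' : ξ₁ - ξ₂ = ξ₃ - ξ₄ + z' - z := by
        rw [← h]
        abel
      rw [h']
      abel)
  have hB := P.B_pos
  have hz1 := P.wbox_inner hz ((φ3 + φ4) / 2)
  have hz2 := P.wbox_inner hz' ((φ3 + φ4) / 2)
  set Δ : ℝ := |(φ3 + φ4) / 2 - (φ1 + φ2) / 2| with hΔ
  have hzz : |⟪z' - z, dir ((φ3 + φ4) / 2)⟫_ℝ| ≤
      P.B * P.l i * (4 * P.b + 2) + 2 * P.B * Δ := by
    rw [inner_sub_left]
    have t1 := abs_sub (⟪z', dir ((φ3 + φ4) / 2)⟫_ℝ) (⟪z, dir ((φ3 + φ4) / 2)⟫_ℝ)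
    have t2 : 2 * P.B * |(φ3 + φ4) / 2 - P.cen i j'| ≤ 2 * P.B * (P.l i / 2) := by gcongr
    have t3 : |(φ3 + φ4) / 2 - P.cen i j| ≤ Δ + P.l i / 2 := by
      have := abs_sub_le ((φ3 + φ4) / 2) ((φ1 + φ2) / 2) (P.cen i j)
      linarith
    have t4 : 2 * P.B * |(φ3 + φ4) / 2 - P.cen i j| ≤ 2 * P.B * (Δ + P.l i / 2) := by gcongr
    calc _ ≤ _ := t1
      _ ≤ (2 * P.B * (P.b * P.l i) + 2 * P.B * (P.l i / 2)) +
          (2 * P.B * (P.b * P.l i) + 2 * P.B * (Δ + P.l i / 2)) := by linarith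
      _ = _ := by ring
  exact P.o3_aux hi hik hsep12 (sin_half (by linarith)) hsep
    (Real.mul_abs_le_abs_sin (by linarith)) hzz key

theorem fbox_subset {i j : ℕ} (hi : i ≤ P.k) : P.fbox i j ⊆ P.wbox 2 i j := by
  intro z hz
  obtain ⟨h1, h2⟩ := hz
  have hB := P.B_pos
  have hl := P.l_pos i
  have hb := P.one_le_b
  refine ⟨h1.trans ?_, h2.trans (by linarith)⟩
  have h3 : P.B * P.l i ≤ P.B * (P.b * P.l i) := by
    gcongr
    nlinarith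
  nlinarith [mul_pos hB hl]

theorem cen_sub {i j : ℕ} (hi : i + 1 ≤ P.k) :
    |P.cen i j - P.cen (i + 1) (j / P.b)| ≤ P.l (i + 1) / 2 := by
  have hl := P.l_pos i
  have e := P.l_succ hi
  have hb := P.b_pos
  have h1 : P.b * (j / P.b) + j % P.b = j := Nat.div_add_mod j P.b
  have h2 : j % P.b < P.b := Nat.mod_lt j hb
  have h1' : (P.b : ℝ) * ((j / P.b : ℕ) : ℝ) + ((j % P.b : ℕ) : ℝ) = j := by exact_mod_cast h1
  have h2' : ((j % P.b : ℕ) : ℝ) + 1 ≤ P.b := by exact_mod_cast h2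
  have h3' : (0 : ℝ) ≤ ((j % P.b : ℕ) : ℝ) := by positivity
  have e2 : P.cen i j - P.cen (i + 1) (j / P.b) =
      (((j % P.b : ℕ) : ℝ) + 1 / 2 - P.b / 2) * P.l i := by
    unfold cen
    rw [e, ← h1']
    ring
  rw [e2, e, abs_mul, abs_of_pos hl]
  have h4 : |((j % P.b : ℕ) : ℝ) + 1 / 2 - P.b / 2| ≤ P.b / 2 := by
    rw [abs_le]
    constructor <;> linarith
  nlinarith

theorem fbox_parent_subset {i j : ℕ} (hi : i + 1 ≤ P.k) :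
    P.fbox (i + 1) (j / P.b) ⊆ P.wbox 2 i j := by
  intro z hz
  obtain ⟨h1, h2⟩ := hz
  have hB := P.B_pos
  have hl := P.l_pos (i + 1)
  have hc := P.cen_sub (j := j) hi
  have hl4 := P.l_le hi
  have hpi := Real.pi_lt_d2
  have hpi0 := Real.pi_pos
  have t1 := abs_inner_dir_le (ψ := P.cen i j) h1 h2
  have t2 := abs_inner_nrm_le (ψ := P.cen i j) h1 h2
  have h3 : P.B * |P.cen i j - P.cen (i + 1) (j / P.b)| ≤ P.B * (P.l (i + 1) / 2) := by gcongr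
  have h4 : P.B * P.l (i + 1) * |P.cen i j - P.cen (i + 1) (j / P.b)| ≤
      P.B * P.l (i + 1) * (P.l (i + 1) / 2) := by gcongr
  have h0 : 0 < P.B * P.l (i + 1) := mul_pos hB hl
  rw [P.l_succ hi] at h3 t1 h0
  constructor
  · refine t1.trans ?_
    nlinarith
  · refine t2.trans ?_
    have h5 : P.B * P.l (i + 1) * (P.l (i + 1) / 2) ≤ P.B * 1 * (1 / 2) := by
      have : P.l (i + 1) ≤ 1 := by linarith
      gcongr
    nlinarith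

theorem wbox_subset_ball {c : ℝ} (hc : 0 ≤ c) {i j : ℕ} (hi : i + 1 ≤ P.k) :
    P.wbox c i j ⊆ Metric.closedBall 0 (2 * c * P.B) := by
  intro z hz
  obtain ⟨h1, h2⟩ := hz
  have hB := P.B_pos
  have hl := P.l_pos (i + 1)
  have hl4 := P.l_le hi
  have hpi := Real.pi_lt_d2
  rw [mem_closedBall_zero_iff]
  have hn := norm_sq_frame (P.cen i j) z
  rw [← P.l_succ hi] at h1
  have h3 : c * P.B * P.l (i + 1) ≤ c * P.B * 1 := by
    have : P.l (i + 1) ≤ 1 := by linarith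
    gcongr
  have h4 : ⟪z, dir (P.cen i j)⟫_ℝ ^ 2 ≤ (c * P.B) ^ 2 := by
    rw [← sq_abs]
    have := h1.trans h3
    rw [mul_one] at this
    gcongr
  have h5 : ⟪z, nrm (P.cen i j)⟫_ℝ ^ 2 ≤ (c * P.B) ^ 2 := by
    rw [← sq_abs]
    gcongr
  have h6 : ‖z‖ ^ 2 ≤ (2 * c * P.B) ^ 2 := by
    rw [hn]
    nlinarith [sq_nonneg (c * P.B)]
  have h7 : 0 ≤ 2 * c * P.B := by positivity
  exact (sq_le_sq₀ (norm_nonneg z) h7).mp h6

theorem fbox_subset_ball {i j : ℕ} (hi : i ≤ P.k) :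
    P.fbox i j ⊆ Metric.closedBall 0 (2 * P.B) := by
  intro z hz
  obtain ⟨h1, h2⟩ := hz
  have hB := P.B_pos
  have hl := P.l_pos i
  have hl4 := P.l_le hi
  have hpi := Real.pi_lt_d2
  rw [mem_closedBall_zero_iff]
  have hn := norm_sq_frame (P.cen i j) z
  have h3 : P.B * P.l i ≤ P.B * 1 := by
    have : P.l i ≤ 1 := by linarith
    gcongr
  have h4 : ⟪z, dir (P.cen i j)⟫_ℝ ^ 2 ≤ P.B ^ 2 := by
    rw [← sq_abs]
    have := h1.trans h3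
    rw [mul_one] at this
    gcongr
  have h5 : ⟪z, nrm (P.cen i j)⟫_ℝ ^ 2 ≤ P.B ^ 2 := by
    rw [← sq_abs]
    gcongr
  have h6 : ‖z‖ ^ 2 ≤ (2 * P.B) ^ 2 := by
    rw [hn]
    nlinarith [sq_nonneg P.B]
  exact (sq_le_sq₀ (norm_nonneg z) (by positivity)).mp h6

end Par

end REPS
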