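import Pool.Agent.REPS.Defs2
import Pool.Agent.REPS.Band
import Pool.Agent.REPS.Geom2

/-! Row PIECE of project 16: the pieces of the function, their spectra, local orthogonality. -/

open MeasureTheory Filter Topology Real Metric FourierTransform
open scoped ENNReal NNReal InnerProductSpace Pointwise

namespace REPS

open Helper77.TA

namespace Par

section piece

variable {P : Par} {G : V2 → ℂ}

theorem pc_measurable_trn (α : ℝ) : Measurable (trn α) := by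
  have h : Measurable (fun ξ : V2 => (⟨ξ 0, ξ 1⟩ : ℂ)) := by
    have h1 : (fun ξ : V2 => (⟨ξ 0, ξ 1⟩ : ℂ)) =
        fun ξ : V2 => ((ξ 0 : ℝ) : ℂ) + ((ξ 1 : ℝ) : ℂ) * Complex.I := by
      funext ξ
      apply Complex.ext <;> simp
    rw [h1]
    fun_prop
  exact measurable_fract.comp (((Complex.measurable_arg.comp h).sub_const α).div_const _)

theorem pc_measurable_idx (i : ℕ) : Measurable (P.idx i) :=
  Nat.measurable_floor.comp ((pc_measurable_trn P.α).const_mul _)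

theorem pc_measurableSet_idx (i j : ℕ) : MeasurableSet {ξ : V2 | P.idx i ξ = j} :=
  pc_measurable_idx i (measurableSet_singleton j)

theorem pc_measurableSet_ann (R H : ℝ) : MeasurableSet (ann R H) := by
  unfold ann
  exact (measurableSet_le measurable_const measurable_norm).inter
    (measurableSet_le measurable_norm measurable_const)

theorem pc_measurableSet_gapSet : MeasurableSet P.gapSet := by
  have h : P.gapSet = ann P.R P.H ∩ ⋂ i : ℕ, {ξ : V2 | i ≤ P.k →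
      1 / (P.q : ℝ) ≤ Int.fract ((P.M i : ℝ) * trn P.α ξ) ∧
      Int.fract ((P.M i : ℝ) * trn P.α ξ) ≤ 1 - 1 / (P.q : ℝ)} := by
    ext ξ
    constructor
    · intro hξ
      exact ⟨hξ.1, Set.mem_iInter.2 fun i => hξ.2 i⟩
    · intro hξ
      exact ⟨hξ.1, fun i => Set.mem_iInter.1 hξ.2 i⟩
  rw [h]
  refine (pc_measurableSet_ann _ _).inter (MeasurableSet.iInter fun i => ?_)
  have hm : Measurable (fun ξ : V2 => Int.fract ((P.M i : ℝ) * trn P.α ξ)) :=
    measurable_fract.comp ((pc_measurable_trn P.α).const_mul _)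
  by_cases hi : i ≤ P.k
  · have : {ξ : V2 | i ≤ P.k → 1 / (P.q : ℝ) ≤ Int.fract ((P.M i : ℝ) * trn P.α ξ) ∧
        Int.fract ((P.M i : ℝ) * trn P.α ξ) ≤ 1 - 1 / (P.q : ℝ)} =
        {ξ : V2 | 1 / (P.q : ℝ) ≤ Int.fract ((P.M i : ℝ) * trn P.α ξ) ∧
        Int.fract ((P.M i : ℝ) * trn P.α ξ) ≤ 1 - 1 / (P.q : ℝ)} := by
      ext ξ
      exact ⟨fun h => h hi, fun h _ => h⟩
    rw [this]
    exact (measurableSet_le measurable_const hm).inter (measurableSet_le hm measurable_const)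
  · have : {ξ : V2 | i ≤ P.k → 1 / (P.q : ℝ) ≤ Int.fract ((P.M i : ℝ) * trn P.α ξ) ∧
        Int.fract ((P.M i : ℝ) * trn P.α ξ) ≤ 1 - 1 / (P.q : ℝ)} = Set.univ := by
      ext ξ
      exact ⟨fun _ => trivial, fun _ h => absurd h hi⟩
    rw [this]
    exact MeasurableSet.univ

theorem pc_sq_int {g : V2 → ℂ} (h : MemLp g 2) : Integrable fun ξ => ‖g ξ‖ ^ 2 :=
  h.integrable_norm_pow (p := 2) two_ne_zero

theorem pc_pair_good {F : V2 → ℂ} (hP : P.Pair F G) : P.Good G := by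
  have hs := pc_measurableSet_gapSet (P := P)
  have h2 : MemLp G 2 := by
    rw [hP.eq]
    exact hP.lp.indicator hs
  refine ⟨?_, ?_, h2, ?_, ?_⟩
  · rw [hP.eq]
    exact hP.meas.indicator hs
  · rw [hP.eq]
    exact hP.int.indicator hs
  · intro ξ hξ
    rw [hP.eq] at hξ
    by_contra h
    exact hξ (Set.indicator_of_notMem h _)
  · rw [← hP.one]
    refine integral_mono (pc_sq_int h2) (pc_sq_int hP.lp) fun ξ => ?_
    have h3 : ‖G ξ‖ ≤ ‖F ξ‖ := by
      rw [hP.eq]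
      exact norm_indicator_le_norm_self _ _
    simp only
    gcongr

open Classical in
theorem pc_piece (i j : ℕ) (ξ : V2) : P.piece G i j ξ = if P.idx i ξ = j then G ξ else 0 := by
  unfold Par.piece
  by_cases h : P.idx i ξ = j
  · rw [if_pos h]
    exact Set.indicator_of_mem (s := {ξ | P.idx i ξ = j}) h G
  · rw [if_neg h]
    exact Set.indicator_of_notMem (s := {ξ | P.idx i ξ = j}) h G

theorem pc_norm_piece_le (i j : ℕ) (ξ : V2) : ‖P.piece G i j ξ‖ ≤ ‖G ξ‖ :=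
  norm_indicator_le_norm_self _ _

theorem pc_piece_ne {i j : ℕ} {ξ : V2} (h : P.piece G i j ξ ≠ 0) : G ξ ≠ 0 ∧ P.idx i ξ = j := by
  classical
  rw [pc_piece] at h
  by_cases h' : P.idx i ξ = j
  · rw [if_pos h'] at h
    exact ⟨h, h'⟩
  · rw [if_neg h'] at h
    exact absurd rfl h

theorem pc_good_piece (hG : P.Good G) (i j : ℕ) : P.Good (P.piece G i j) := by
  have hs := pc_measurableSet_idx (P := P) i j
  have h2 : MemLp (P.piece G i j) 2 := hG.lp.indicator hs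
  refine ⟨hG.meas.indicator hs, hG.int.indicator hs, h2, ?_, ?_⟩
  · intro ξ hξ
    exact hG.supp ξ (pc_piece_ne hξ).1
  · refine le_trans (integral_mono (pc_sq_int h2) (pc_sq_int hG.lp) fun ξ => ?_) hG.le
    have h3 := pc_norm_piece_le (P := P) (G := G) i j ξ
    simp only
    gcongr

theorem pc_idx_div {i : ℕ} (hi : i ≤ P.k) (ξ : V2) : P.idx i ξ = P.idx 0 ξ / P.b ^ i := by
  induction i with
  | zero => simp
  | succ i ih => rw [P.idx_succ hi, ih (by omega), Nat.div_div_eq_div_mul, pow_succ]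

theorem pc_piece_eq_sum {i j : ℕ} (hi : i ≤ P.k) (ξ : V2) : P.piece G i j ξ =
    ∑ κ ∈ (Finset.range (P.M 0)).filter (fun κ => κ / P.b ^ i = j), P.piece G 0 κ ξ := by
  classical
  simp only [pc_piece]
  rw [Finset.sum_ite_eq, pc_idx_div hi ξ]
  by_cases h : P.idx 0 ξ / P.b ^ i = j
  · rw [if_pos h, if_pos (Finset.mem_filter.2 ⟨Finset.mem_range.2 (P.idx_lt 0 ξ), h⟩)]
  · rw [if_neg h]
    symm
    rw [if_neg]
    intro h'
    exact h (Finset.mem_filter.1 h').2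

theorem pc_piece_eq_sum_kids {i j : ℕ} (hi : 1 ≤ i) (hik : i ≤ P.k) (ξ : V2) :
    P.piece G i j ξ = ∑ L ∈ P.kids i j, P.piece G (i - 1) L ξ := by
  classical
  obtain ⟨i, rfl⟩ := Nat.exists_eq_add_of_le' hi
  have hs := P.idx_succ hik ξ
  unfold kids
  simp only [Nat.add_sub_cancel, pc_piece]
  rw [Finset.sum_ite_eq, hs]
  by_cases h : P.idx i ξ / P.b = j
  · rw [if_pos h, if_pos (Finset.mem_filter.2 ⟨Finset.mem_range.2 (P.idx_lt i ξ), h⟩)]
  · rw [if_neg h]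
    symm
    rw [if_neg]
    intro h'
    exact h (Finset.mem_filter.1 h').2

theorem pc_eq_sum (ξ : V2) : G ξ = ∑ κ ∈ Finset.range (P.M 0), P.piece G 0 κ ξ := by
  classical
  simp only [pc_piece]
  rw [Finset.sum_ite_eq, if_pos (Finset.mem_range.2 (P.idx_lt 0 ξ))]

/-- The inverse Fourier transform of a finite sum. -/
theorem pc_fourierInv_sum {ι : Type*} (s : Finset ι) (a : ι → V2 → ℂ)
    (ha : ∀ i ∈ s, Integrable (a i)) (x : V2) :
    𝓕⁻ (fun ξ => ∑ i ∈ s, a i ξ) x = ∑ i ∈ s, 𝓕⁻ (a i) x := by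
  classical
  induction s using Finset.induction_on with
  | empty =>
    simp only [Finset.sum_empty]
    rw [Real.fourierInv_eq]
    simp
  | insert i s hi ih =>
    have h1 : (fun ξ => ∑ i ∈ insert i s, a i ξ) = fun ξ => a i ξ + ∑ i ∈ s, a i ξ := by
      funext ξ
      rw [Finset.sum_insert hi]
    rw [h1, fourierInv_add' (ha i (Finset.mem_insert_self i s))
      (integrable_finsetSum s fun j hj => ha j (Finset.mem_insert_of_mem hj)),
      Finset.sum_insert hi, ← ih fun j hj => ha j (Finset.mem_insert_of_mem hj)]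

theorem pc_gp_eq_sum (hG : P.Good G) {i j : ℕ} (hi : i ≤ P.k) (x : V2) : P.gp G i j x =
    ∑ κ ∈ (Finset.range (P.M 0)).filter (fun κ => κ / P.b ^ i = j), P.gp G 0 κ x := by
  unfold gp
  have h1 : P.piece G i j = fun ξ =>
      ∑ κ ∈ (Finset.range (P.M 0)).filter (fun κ => κ / P.b ^ i = j), P.piece G 0 κ ξ :=
    funext fun ξ => pc_piece_eq_sum hi ξ
  rw [h1, pc_fourierInv_sum _ (fun κ => P.piece G 0 κ) fun κ _ => (pc_good_piece hG 0 κ).int]

theorem pc_gp_eq_sum_kids (hG : P.Good G) {i j : ℕ} (hi : 1 ≤ i) (hik : i ≤ P.k) (x : V2) :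
    P.gp G i j x = ∑ L ∈ P.kids i j, P.gp G (i - 1) L x := by
  unfold gp
  have h1 : P.piece G i j = fun ξ => ∑ L ∈ P.kids i j, P.piece G (i - 1) L ξ :=
    funext fun ξ => pc_piece_eq_sum_kids hi hik ξ
  rw [h1, pc_fourierInv_sum _ (fun L => P.piece G (i - 1) L) fun L _ => (pc_good_piece hG (i - 1) L).int]

theorem pc_sum_sq (hG : P.Good G) : ∑ κ ∈ Finset.range (P.M 0), ∫ x, ‖P.gp G 0 κ x‖ ^ 2 =
    ∫ ξ, ‖G ξ‖ ^ 2 := by
  classical
  have h1 : ∀ κ ∈ Finset.range (P.M 0), ∫ x, ‖P.gp G 0 κ x‖ ^ 2 = ∫ ξ, ‖P.piece G 0 κ ξ‖ ^ 2 :=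
    fun κ _ => band_plancherel (pc_good_piece hG 0 κ).int (pc_good_piece hG 0 κ).lp
  rw [Finset.sum_congr rfl h1, ← integral_finsetSum _ fun κ _ => pc_sq_int (pc_good_piece hG 0 κ).lp]
  refine integral_congr_ae (Eventually.of_forall fun ξ => ?_)
  simp only [pc_piece]
  have h2 : ∀ κ ∈ Finset.range (P.M 0), ‖(if P.idx 0 ξ = κ then G ξ else 0)‖ ^ 2 =
      if P.idx 0 ξ = κ then ‖G ξ‖ ^ 2 else 0 := by
    intro κ _
    split_ifs
    · rfl
    · simp
  rw [Finset.sum_congr rfl h2, Finset.sum_ite_eq, if_pos (Finset.mem_range.2 (P.idx_lt 0 ξ))]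

theorem pc_band_gp (hG : P.Good G) (i j : ℕ) :
    Band (P.gp G i j) {ξ | ξ ∈ P.gapSet ∧ P.idx i ξ = j} :=
  ⟨P.piece G i j, (pc_good_piece hG i j).int, (pc_good_piece hG i j).lp,
    fun ξ hξ => ⟨hG.supp ξ (pc_piece_ne hξ).1, (pc_piece_ne hξ).2⟩, rfl⟩

theorem pc_ann_inner {ξ : V2} (hξ : ξ ∈ ann P.R P.H) (φ : ℝ) : 0 ≤ P.ρ - ⟪ξ, dir φ⟫_ℝ := by
  have h1 : ⟪ξ, dir φ⟫_ℝ ≤ ‖ξ‖ * ‖dir φ‖ := real_inner_le_norm _ _
  rw [norm_dir, mul_one] at h1
  have h2 := hξ.2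
  unfold Par.ρ
  linarith

theorem pc_y_nonneg (a : ℕ) : 0 ≤ P.y a := by
  unfold Par.y
  split_ifs
  · linarith [P.hy0]
  · have := P.R_pos
    positivity

/-- Packets of a function with spectrum in the annulus. -/
theorem pc_damp (hG : P.Good G) {y : ℝ} (hy : 0 ≤ y) (φ : ℝ) :
    Integrable (damp G (dir φ) P.ρ y) ∧ MemLp (damp G (dir φ) P.ρ y) 2 := by
  have hm : AEStronglyMeasurable (damp G (dir φ) P.ρ y) volume :=
    (continuous_dampFactor (dir φ) P.ρ y).aestronglyMeasurable.mul hG.int.aestronglyMeasurable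
  have hle : ∀ ξ, ‖damp G (dir φ) P.ρ y ξ‖ ≤ ‖G ξ‖ :=
    norm_damp_le hy fun ξ hξ => pc_ann_inner (hG.supp ξ hξ).1 φ
  exact ⟨hG.int.mono hm (Eventually.of_forall hle), hG.lp.mono hm (Eventually.of_forall hle)⟩

theorem pc_band_pkt (hG : P.Good G) {S : Set V2} (hS : ∀ ξ, G ξ ≠ 0 → ξ ∈ S) {y : ℝ}
    (hy : 0 ≤ y) (φ : ℝ) : Band (pkt G P.ρ y (dir φ)) S := by
  refine ⟨damp G (dir φ) P.ρ y, (pc_damp hG hy φ).1, (pc_damp hG hy φ).2, ?_, rfl⟩
  intro ξ hξ
  refine hS ξ fun h => hξ ?_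
  rw [damp, h, mul_zero]

theorem pc_band_T (hG : P.Good G) (i j a L : ℕ) :
    Band (P.T (P.piece G i j) a L) {ξ | ξ ∈ P.gapSet ∧ P.idx i ξ = j} := by
  refine pc_band_pkt (pc_good_piece hG i j) ?_ (pc_y_nonneg a) _
  intro ξ hξ
  exact ⟨hG.supp ξ (pc_piece_ne hξ).1, (pc_piece_ne hξ).2⟩

theorem pc_band_T0 (hG : P.Good G) (i j κ : ℕ) :
    Band (P.T0 (P.piece G i j) κ) {ξ | ξ ∈ P.gapSet ∧ P.idx i ξ = j} := by
  refine pc_band_pkt (pc_good_piece hG i j) ?_ (by linarith [P.hy0]) _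
  intro ξ hξ
  exact ⟨hG.supp ξ (pc_piece_ne hξ).1, (pc_piece_ne hξ).2⟩

theorem pc_T0_eq_sum (hG : P.Good G) (κ : ℕ) (x : V2) : P.T0 G κ x =
    ∑ κ' ∈ Finset.range (P.M 0), P.T0 (P.piece G 0 κ') κ x := by
  have hy : 0 ≤ P.y0 := by linarith [P.hy0]
  unfold T0 pkt
  have h1 : damp G (dir (P.cen 0 κ)) P.ρ P.y0 = fun ξ =>
      ∑ κ' ∈ Finset.range (P.M 0), damp (P.piece G 0 κ') (dir (P.cen 0 κ)) P.ρ P.y0 ξ := by
    funext ξ
    unfold damp
    rw [← Finset.mul_sum, ← pc_eq_sum]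
  rw [h1, pc_fourierInv_sum _ (fun κ' => damp (P.piece G 0 κ') (dir (P.cen 0 κ)) P.ρ P.y0)
    fun κ' _ => (pc_damp (pc_good_piece hG 0 κ') hy _).1]

/-- Local orthogonality for a family with the spectra of the finest pieces. -/
theorem pc_local_orth {F : ℕ → V2 → ℂ}
    (hF : ∀ κ < P.M 0, Band (F κ) {ξ | ξ ∈ P.gapSet ∧ P.idx 0 ξ = κ}) {W : V2 → ℝ} (c : ℝ)
    (hW : Band (fun x => ((W x - c : ℝ) : ℂ)) (Metric.closedBall 0 (8 * P.B))) :
    ∫ x, W x * ‖∑ κ ∈ Finset.range (P.M 0), F κ x‖ ^ 2 =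
      ∑ κ ∈ Finset.range (P.M 0), ∫ x, W x * ‖F κ x‖ ^ 2 := by
  classical
  -- integrability
  have hWc : Continuous fun x => (W x : ℂ) := by
    have h := hW.cont.add (continuous_const (y := (c : ℂ)))
    refine h.congr fun x => ?_
    simp only [Pi.add_apply]
    push_cast
    ring
  obtain ⟨C, hC⟩ := hW.bdd
  have hWb : ∀ x, ‖(W x : ℂ)‖ ≤ C + |c| := by
    intro x
    have h1 : (W x : ℂ) = ((W x - c : ℝ) : ℂ) + (c : ℂ) := by
      push_cast
      ring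
    rw [h1]
    refine (norm_add_le _ _).trans (add_le_add (hC x) ?_)
    rw [Complex.norm_real, Real.norm_eq_abs]
  have hint : ∀ κ < P.M 0, ∀ κ' < P.M 0,
      Integrable fun x => (W x : ℂ) * (F κ x * (starRingEnd ℂ) (F κ' x)) := by
    intro κ hκ κ' hκ'
    exact ((hF κ hκ).integrable_mul (hF κ' hκ').conj).bdd_mul hWc.aestronglyMeasurable
      (Eventually.of_forall hWb)
  -- off-diagonal terms
  have hoff : ∀ κ < P.M 0, ∀ κ' < P.M 0, κ ≠ κ' →
      ∫ x, (W x : ℂ) * (F κ x * (starRingEnd ℂ) (F κ' x)) = 0 := by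
    intro κ hκ κ' hκ' hne
    have h1 : ∀ x, (W x : ℂ) * (F κ x * (starRingEnd ℂ) (F κ' x)) =
        (F κ x * (starRingEnd ℂ) (F κ' x)) * ((W x - c : ℝ) : ℂ) +
          (c : ℂ) * (F κ x * (starRingEnd ℂ) (F κ' x)) := by
      intro x
      push_cast
      ring
    have hb := (hF κ hκ).mul (hF κ' hκ').conj
    simp_rw [h1]
    rw [integral_add (hb.integrable_mul hW)
      (((hF κ hκ).integrable_mul (hF κ' hκ').conj).const_mul _), integral_const_mul,
      (hF κ hκ).orth (hF κ' hκ') ?_, mul_zero, add_zero]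
    · refine hb.integral_mul_eq_zero hW ?_
      rw [Set.disjoint_left]
      rintro ξ hξ hξ'
      obtain ⟨ξ₁, hξ₁, ξ₂, hξ₂, rfl⟩ := Set.mem_add.1 hξ
      have hξ₂' := Set.mem_neg.1 hξ₂
      have h3 := P.geo_one hξ₁.1 hξ₂'.1 (by
        rw [hξ₁.2, hξ₂'.2]
        exact hne)
      have h4 : ‖-(ξ₁ + ξ₂)‖ ≤ 8 * P.B := by
        have := Set.mem_neg.1 hξ'
        simpa using this
      rw [norm_neg] at h4
      rw [sub_neg_eq_add] at h3
      linarith
    · rw [Set.disjoint_left]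
      rintro ξ h3 h4
      exact hne (h3.2.symm.trans h4.2)
  -- expansion
  have hexp : ∀ x, ((W x * ‖∑ κ ∈ Finset.range (P.M 0), F κ x‖ ^ 2 : ℝ) : ℂ) =
      ∑ κ ∈ Finset.range (P.M 0), ∑ κ' ∈ Finset.range (P.M 0),
        (W x : ℂ) * (F κ x * (starRingEnd ℂ) (F κ' x)) := by
    intro x
    have h1 : ((‖∑ κ ∈ Finset.range (P.M 0), F κ x‖ ^ 2 : ℝ) : ℂ) =
        (∑ κ ∈ Finset.range (P.M 0), F κ x) *
          (starRingEnd ℂ) (∑ κ ∈ Finset.range (P.M 0), F κ x) := (mul_conj_self _).symm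
    rw [Complex.ofReal_mul, h1, map_sum, Finset.sum_mul_sum, Finset.mul_sum]
    exact Finset.sum_congr rfl fun κ _ => Finset.mul_sum _ _ _
  have hdiag : ∀ κ, ∀ x, ((W x * ‖F κ x‖ ^ 2 : ℝ) : ℂ) =
      (W x : ℂ) * (F κ x * (starRingEnd ℂ) (F κ x)) := by
    intro κ x
    rw [Complex.ofReal_mul, mul_conj_self]
  have key : ((∫ x, W x * ‖∑ κ ∈ Finset.range (P.M 0), F κ x‖ ^ 2 : ℝ) : ℂ) =
      ((∑ κ ∈ Finset.range (P.M 0), ∫ x, W x * ‖F κ x‖ ^ 2 : ℝ) : ℂ) := by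
    rw [← integral_complex_ofReal, Complex.ofReal_sum]
    simp_rw [← integral_complex_ofReal, hexp, hdiag]
    rw [integral_finsetSum]
    · refine Finset.sum_congr rfl fun κ hκ => ?_
      rw [integral_finsetSum]
      · rw [Finset.sum_eq_single κ]
        · intro κ' hκ' hne
          exact hoff κ (Finset.mem_range.1 hκ) κ' (Finset.mem_range.1 hκ') hne.symm
        · intro h
          exact absurd hκ h
      · intro κ' hκ'
        exact hint κ (Finset.mem_range.1 hκ) κ' (Finset.mem_range.1 hκ')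
    · intro κ hκ
      exact integrable_finsetSum _ fun κ' hκ' =>
        hint κ (Finset.mem_range.1 hκ) κ' (Finset.mem_range.1 hκ')
  exact_mod_cast key

/-- Local orthogonality, (O1). -/
theorem pc_local_orth1 (hG : P.Good G) {W : V2 → ℝ} (c : ℝ) (hW : Band (fun x => ((W x - c : ℝ) : ℂ))
    (Metric.closedBall 0 (8 * P.B))) (κ : ℕ) :
    ∫ x, W x * ‖P.T0 G κ x‖ ^ 2 =
      ∑ κ' ∈ Finset.range (P.M 0), ∫ x, W x * ‖P.T0 (P.piece G 0 κ') κ x‖ ^ 2 := by
  rw [← pc_local_orth (fun κ' _ => pc_band_T0 hG 0 κ' κ) c hW]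
  refine integral_congr_ae (Eventually.of_forall fun x => ?_)
  simp only
  rw [pc_T0_eq_sum hG]

theorem pc_local_orth2 (hG : P.Good G) {W : V2 → ℝ} (c : ℝ) (hW : Band (fun x => ((W x - c : ℝ) : ℂ))
    (Metric.closedBall 0 (8 * P.B))) :
    ∫ x, W x * ‖𝓕⁻ G x‖ ^ 2 = ∫ x, W x * P.D1 G x := by
  have h1 : ∀ x, 𝓕⁻ G x = ∑ κ ∈ Finset.range (P.M 0), P.gp G 0 κ x := by
    intro x
    have h2 : G = fun ξ => ∑ κ ∈ Finset.range (P.M 0), P.piece G 0 κ ξ :=
      funext fun ξ => pc_eq_sum ξ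
    conv_lhs => rw [h2]
    rw [pc_fourierInv_sum _ (fun κ => P.piece G 0 κ) fun κ _ => (pc_good_piece hG 0 κ).int]
    rfl
  simp_rw [h1]
  rw [pc_local_orth (fun κ _ => pc_band_gp hG 0 κ) c hW]
  unfold D1
  -- integrability of the terms
  have hWc : Continuous W := by
    have h := (Complex.continuous_re.comp hW.cont).add (continuous_const (y := c))
    refine h.congr fun x => ?_
    simp
  obtain ⟨C, hC⟩ := hW.bdd
  have hint : ∀ κ ∈ Finset.range (P.M 0), Integrable fun x => W x * ‖P.gp G 0 κ x‖ ^ 2 := by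
    intro κ _
    refine (pc_sq_int (pc_band_gp hG 0 κ).memLp).bdd_mul (c := C + |c|) hWc.aestronglyMeasurable
      (Eventually.of_forall fun x => ?_)
    have h3 := hC x
    rw [Complex.norm_real] at h3
    have h4 : W x = (W x - c) + c := by ring
    rw [h4]
    refine (norm_add_le _ _).trans (add_le_add h3 ?_)
    rw [Real.norm_eq_abs]
  rw [← integral_finsetSum _ hint]
  refine integral_congr_ae (Eventually.of_forall fun x => ?_)
  simp only
  rw [Finset.mul_sum]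

end piece

section statements

variable (P : Par) {G : V2 → ℂ}

theorem Pair.good {F : V2 → ℂ} (hP : P.Pair F G) : P.Good G := pc_pair_good hP

theorem Good.piece (hG : P.Good G) (i j : ℕ) : P.Good (P.piece G i j) := pc_good_piece hG i j

theorem gp_eq_sum (hG : P.Good G) {i j : ℕ} (hi : i ≤ P.k) (x : V2) : P.gp G i j x =
    ∑ κ ∈ (Finset.range (P.M 0)).filter (fun κ => κ / P.b ^ i = j), P.gp G 0 κ x :=
  pc_gp_eq_sum hG hi x

theorem gp_eq_sum_kids (hG : P.Good G) {i j : ℕ} (hi : 1 ≤ i) (hik : i ≤ P.k) (x : V2) :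
    P.gp G i j x = ∑ L ∈ P.kids i j, P.gp G (i - 1) L x :=
  pc_gp_eq_sum_kids hG hi hik x

theorem sum_sq (hG : P.Good G) : ∑ κ ∈ Finset.range (P.M 0), ∫ x, ‖P.gp G 0 κ x‖ ^ 2 =
    ∫ ξ, ‖G ξ‖ ^ 2 :=
  pc_sum_sq hG

theorem band_gp (hG : P.Good G) (i j : ℕ) :
    Band (P.gp G i j) {ξ | ξ ∈ P.gapSet ∧ P.idx i ξ = j} :=
  pc_band_gp hG i j

theorem band_T (hG : P.Good G) (i j a L : ℕ) :
    Band (P.T (P.piece G i j) a L) {ξ | ξ ∈ P.gapSet ∧ P.idx i ξ = j} :=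
  pc_band_T hG i j a L

theorem band_T0 (hG : P.Good G) (i j κ : ℕ) :
    Band (P.T0 (P.piece G i j) κ) {ξ | ξ ∈ P.gapSet ∧ P.idx i ξ = j} :=
  pc_band_T0 hG i j κ

/-- Local orthogonality, (O1). -/
theorem local_orth (hG : P.Good G) {W : V2 → ℝ} (c : ℝ) (hW : Band (fun x => ((W x - c : ℝ) : ℂ))
    (Metric.closedBall 0 (8 * P.B))) (κ : ℕ) :
    ∫ x, W x * ‖P.T0 G κ x‖ ^ 2 =
      ∑ κ' ∈ Finset.range (P.M 0), ∫ x, W x * ‖P.T0 (P.piece G 0 κ') κ x‖ ^ 2 :=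
  pc_local_orth1 hG c hW κ

theorem local_orth' (hG : P.Good G) {W : V2 → ℝ} (c : ℝ) (hW : Band (fun x => ((W x - c : ℝ) : ℂ))
    (Metric.closedBall 0 (8 * P.B))) :
    ∫ x, W x * ‖𝓕⁻ G x‖ ^ 2 = ∫ x, W x * P.D1 G x :=
  pc_local_orth2 hG c hW

end statements

end Par

end REPS
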