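import Pool.Agent.REPS.DiagC
import Pool.Agent.REPS.Cut
import Pool.Agent.REPS.Norm
import Pool.Agent.REPS.Piece

/-! Row DIAG: section 4 of the page. -/

open MeasureTheory Filter Topology Real Metric FourierTransform
open scoped ENNReal NNReal InnerProductSpace

namespace REPS

namespace Par

open Dg Helper77.TA

section basic

variable (P : Par)

theorem mem_kids {i j L : ℕ} : L ∈ P.kids i j ↔ L < P.M (i - 1) ∧ L / P.b = j := by
  unfold kids
  rw [Finset.mem_filter, Finset.mem_range]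

theorem div_b_lt {i L : ℕ} (hi : 1 ≤ i) (hik : i ≤ P.k) (hL : L < P.M (i - 1)) :
    L / P.b < P.M i := by
  have h := P.M_succ (i := i - 1) (by omega)
  rw [Nat.sub_add_cancel hi] at h
  rw [Nat.div_lt_iff_lt_mul P.b_pos, mul_comm]
  rwa [← h]

theorem dM_le (i : ℕ) : (P.M i : ℝ) ≤ 8 * (P.q : ℝ) ^ (4 * P.k) := by
  have h1 : (1 : ℝ) ≤ P.q := by exact_mod_cast P.q_pos
  have h2 : P.M i ≤ 8 * (P.q ^ 4) ^ P.k := by
    unfold M b
    have : 1 ≤ P.q ^ 4 := Nat.one_le_pow _ _ P.q_pos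
    exact Nat.mul_le_mul_left _ (Nat.pow_le_pow_right this (Nat.sub_le _ _))
  have h3 : (P.M i : ℝ) ≤ ((8 * (P.q ^ 4) ^ P.k : ℕ) : ℝ) := by exact_mod_cast h2
  refine h3.trans_eq ?_
  push_cast
  rw [← pow_mul]

variable {P}

theorem tsq {G : V2 → ℂ} (hG : P.Good G) (i : ℕ) :
    ∑ j ∈ Finset.range (P.M i), ∫ ξ, ‖P.piece G i j ξ‖ ^ 2 = ∫ ξ, ‖G ξ‖ ^ 2 := by
  rw [← integral_finsetSum _ fun j _ => int_sq (Good.piece P hG i j).lp]
  congr 1
  ext ξ
  rw [Finset.sum_eq_single (P.idx i ξ)]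
  · unfold piece
    rw [Set.indicator_of_mem]
    exact rfl
  · intro j _ hj
    unfold piece
    rw [Set.indicator_of_notMem]
    · simp
    · intro h
      exact hj (show P.idx i ξ = j from h).symm
  · intro h
    exact absurd (Finset.mem_range.mpr (P.idx_lt i ξ)) h

theorem norm_piece_le (G : V2 → ℂ) (i j : ℕ) (ξ : V2) : ‖P.piece G i j ξ‖ ≤ ‖G ξ‖ := by
  unfold piece
  exact norm_indicator_le_norm_self _ _

theorem v_meas (K : Ker) {G : V2 → ℂ} (hG : P.Good G) {τ : ℝ} (hτ : 0 < τ) {i : ℕ}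
    (hik : i ≤ P.k) (j : ℕ) : Measurable (P.v G K τ i j) := by
  have h1 := (cut_basic P K hG hτ (j := j) hik).1.measurable
  by_cases h : i = P.k
  · have e : P.v G K τ i j = fun x => 1 - P.h G K τ i j x := by
      ext x; unfold v; rw [if_pos h]
    rw [e]
    exact measurable_const.sub h1
  · have h2 := (cut_basic P K hG hτ (i := i + 1) (j := j / P.b) (by omega)).1.measurable
    have e : P.v G K τ i j = fun x => P.h G K τ (i + 1) (j / P.b) x - P.h G K τ i j x := by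
      ext x; unfold v; rw [if_neg h]
    rw [e]
    exact h2.sub h1

theorem v_abs_le (K : Ker) {G : V2 → ℂ} (hG : P.Good G) {τ : ℝ} (hτ : 0 < τ) {i : ℕ}
    (hik : i ≤ P.k) (j : ℕ) (x : V2) : |P.v G K τ i j x| ≤ 1 := by
  have h1 := (cut_basic P K hG hτ (j := j) hik)
  have a1 := h1.2.1 x
  have a2 := h1.2.2.1 x
  by_cases h : i = P.k
  · unfold v; rw [if_pos h, abs_le]
    constructor <;> linarith
  · have h2 := (cut_basic P K hG hτ (i := i + 1) (j := j / P.b) (by omega))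
    have b1 := h2.2.1 x
    have b2 := h2.2.2.1 x
    unfold v; rw [if_neg h, abs_le]
    constructor <;> linarith

/-- The telescoping identity. -/
theorem telescope (K : Ker) {G : V2 → ℂ} (hG : P.Good G) (τ : ℝ) (x : V2) :
    ∑ i ∈ Finset.Icc 1 P.k, ∑ L ∈ Finset.range (P.M (i - 1)),
      P.v G K τ i (L / P.b) x * ‖P.gp G (i - 1) L x‖ ^ 2 = P.mS G K τ x + P.XS G K τ x := by
  set B : ℕ → ℝ := fun i => ∑ L ∈ Finset.range (P.M (i - 1)),
    (1 - P.h G K τ i (L / P.b) x) * ‖P.gp G (i - 1) L x‖ ^ 2 with hB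
  set D : ℕ → ℝ := fun i => ∑ j ∈ Finset.range (P.M i), (1 - P.h G K τ (i + 1) (j / P.b) x) *
      ∑ p ∈ P.pairs i j, (P.gp G (i - 1) p.1 x * (starRingEnd ℂ) (P.gp G (i - 1) p.2 x)).re
    with hD
  have hstep : ∀ i, 1 ≤ i → i < P.k → ∑ L ∈ Finset.range (P.M (i - 1)),
      P.v G K τ i (L / P.b) x * ‖P.gp G (i - 1) L x‖ ^ 2 = B i - B (i + 1) + D i := by
    intro i hi hik
    have e1 : B (i + 1) - D i = ∑ L ∈ Finset.range (P.M (i - 1)),
        (1 - P.h G K τ (i + 1) (L / P.b / P.b) x) * ‖P.gp G (i - 1) L x‖ ^ 2 := by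
      rw [← Finset.sum_fiberwise_of_maps_to (s := Finset.range (P.M (i - 1)))
        (t := Finset.range (P.M i)) (g := fun L => L / P.b) (fun L hL =>
          Finset.mem_range.mpr (P.div_b_lt hi hik.le (Finset.mem_range.mp hL)))]
      simp only [hB, hD, Nat.add_sub_cancel]
      rw [← Finset.sum_sub_distrib]
      refine Finset.sum_congr rfl fun j _ => ?_
      have e2 : ∑ L ∈ Finset.range (P.M (i - 1)) with L / P.b = j,
          (1 - P.h G K τ (i + 1) (L / P.b / P.b) x) * ‖P.gp G (i - 1) L x‖ ^ 2 =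
          (1 - P.h G K τ (i + 1) (j / P.b) x) * ∑ L ∈ P.kids i j, ‖P.gp G (i - 1) L x‖ ^ 2 := by
        rw [Finset.mul_sum]
        refine Finset.sum_congr rfl fun L hL => ?_
        rw [(Finset.mem_filter.mp hL).2]
      rw [e2, gp_eq_sum_kids P hG hi hik.le x, norm_sum_sq]
      unfold pairs
      ring
    have e3 : ∑ L ∈ Finset.range (P.M (i - 1)), P.v G K τ i (L / P.b) x *
        ‖P.gp G (i - 1) L x‖ ^ 2 = B i - ∑ L ∈ Finset.range (P.M (i - 1)),
        (1 - P.h G K τ (i + 1) (L / P.b / P.b) x) * ‖P.gp G (i - 1) L x‖ ^ 2 := by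
      simp only [hB]
      rw [← Finset.sum_sub_distrib]
      refine Finset.sum_congr rfl fun L _ => ?_
      unfold v
      rw [if_neg hik.ne]
      ring
    rw [e3, ← e1]
    ring
  have hlast : ∑ L ∈ Finset.range (P.M (P.k - 1)),
      P.v G K τ P.k (L / P.b) x * ‖P.gp G (P.k - 1) L x‖ ^ 2 = B P.k := by
    simp only [hB]
    refine Finset.sum_congr rfl fun L _ => ?_
    unfold v
    rw [if_pos rfl]
  have hk := P.hk
  have e4 : Finset.Icc 1 P.k = insert P.k (Finset.Ico 1 P.k) := by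
    ext i
    simp only [Finset.mem_Icc, Finset.mem_insert, Finset.mem_Ico]
    omega
  have e5 : ∀ n, 1 ≤ n → ∑ i ∈ Finset.Ico 1 n, (B i - B (i + 1)) = B 1 - B n := by
    intro n hn
    induction n, hn using Nat.le_induction with
    | base => simp
    | succ n hn ih => rw [Finset.sum_Ico_succ_top hn, ih]; ring
  rw [e4, Finset.sum_insert (by simp), hlast]
  have e6 : ∑ i ∈ Finset.Ico 1 P.k, ∑ L ∈ Finset.range (P.M (i - 1)),
      P.v G K τ i (L / P.b) x * ‖P.gp G (i - 1) L x‖ ^ 2 =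
      ∑ i ∈ Finset.Ico 1 P.k, (B i - B (i + 1)) + ∑ i ∈ Finset.Ico 1 P.k, D i := by
    rw [← Finset.sum_add_distrib]
    refine Finset.sum_congr rfl fun i hi => ?_
    exact hstep i (Finset.mem_Ico.mp hi).1 (Finset.mem_Ico.mp hi).2
  rw [e6, e5 _ hk]
  have e7 : P.mS G K τ x = B 1 := rfl
  have e8 : P.XS G K τ x = ∑ i ∈ Finset.Ico 1 P.k, D i := rfl
  rw [e7, e8]
  ring

/-- One diagonal packet. -/
theorem cl_one {Ct : ℝ} (hCt : ∀ {G : V2 → ℂ}, Integrable G → MemLp G 2 →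
    ∀ {ω c : V2} {Λ : ℝ}, 0 ≤ Λ → (∀ ξ, G ξ ≠ 0 → |⟪ξ - c, ω⟫_ℝ| ≤ Λ) → ∀ {y : ℝ}, 0 < y →
    ∫ x, |REPS.pav y ω (fun z => ‖𝓕⁻ G z‖ ^ 2) x - ‖𝓕⁻ G x‖ ^ 2| ≤
      Ct * min 1 √(y * Λ) * ∫ ξ, ‖G ξ‖ ^ 2) {a : V2 → ℂ} (ha : P.Sp a) {y φ : ℝ} (hy : 0 < y)
    {m ε : ℝ} (hm : 0 ≤ m) (hε : 0 ≤ ε)
    (hmu : ∀ ξ, a ξ ≠ 0 → |Real.exp (-(2 * π * y * (P.ρ - ⟪ξ, dir φ⟫_ℝ))) - m| ≤ ε)
    {v : V2 → ℝ} (hv : Measurable v) (hv1 : ∀ x, |v x| ≤ 1) {Cv lq : ℝ} (hCv : 0 ≤ Cv)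
    (hlq : 0 < lq) (hs : ∀ x t, |v (x - t • dir φ) - v x| ≤
      (Cv + Cv * Real.log (1 + (t / y) ^ 2)) / lq)
    {c : V2} {Λ : ℝ} (hΛ : 0 ≤ Λ) (hsupp : ∀ ξ, a ξ ≠ 0 → |⟪ξ - c, dir φ⟫_ℝ| ≤ Λ)
    {c0 : ℝ} (hc0 : 0 ≤ c0) :
    Cl (pav y (dir φ) (fun z => c0 * v z * ‖pkt a P.ρ y (dir φ) z‖ ^ 2))
      (fun x => c0 * m ^ 2 * (v x * ‖𝓕⁻ a x‖ ^ 2))
      ((c0 * (ε ^ 2 + 2 * ε * m) + c0 * m ^ 2 *
        (Cv * (1 + ∫ s, pk 1 s * Real.log (1 + s ^ 2)) / lq) +
        Ct * (c0 * m ^ 2 * min 1 √(y * Λ))) * ∫ ξ, ‖a ξ‖ ^ 2) := by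
  set N := ∫ ξ, ‖a ξ‖ ^ 2 with hN
  have hN0 : 0 ≤ N := integral_nonneg fun ξ => by positivity
  have hg : Nc (fun x => ‖𝓕⁻ a x‖ ^ 2) := nc_inv ha.int ha.lp
  have hgv : Nc (fun x => v x * ‖𝓕⁻ a x‖ ^ 2) := hg.bdd_mul hv hv1
  -- first step
  have s1 : Cl (fun x => ‖pkt a P.ρ y (dir φ) x‖ ^ 2) (fun x => m ^ 2 * ‖𝓕⁻ a x‖ ^ 2)
      ((ε ^ 2 + 2 * ε * m) * N) := by
    refine ⟨ha.nc hy φ, hg.const_mul _, ?_⟩
    have hmg : MemLp (fun x => (m : ℂ) * 𝓕⁻ a x) 2 := (memLp_inv ha.int ha.lp).const_mul _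
    have hmul : ∀ x, pkt a P.ρ y (dir φ) x - (m : ℂ) * 𝓕⁻ a x =
        𝓕⁻ (fun ξ => damp a (dir φ) P.ρ y ξ - (m : ℂ) * a ξ) x := by
      intro x
      have hI : ∀ {g : V2 → ℂ}, Integrable g →
          Integrable (fun ξ => Complex.exp (2 * π * ⟪ξ, x⟫_ℝ * Complex.I) * g ξ) := by
        intro g hg
        refine Integrable.mono' hg.norm ?_ (Eventually.of_forall fun ξ => ?_)
        · refine AEStronglyMeasurable.mul ?_ hg.aestronglyMeasurable
          apply Continuous.aestronglyMeasurable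
          fun_prop
        · have : (2 * π * ⟪ξ, x⟫_ℝ * Complex.I : ℂ) =
              ((2 * π * ⟪ξ, x⟫_ℝ : ℝ) : ℂ) * Complex.I := by
            push_cast; ring
          rw [norm_mul, this, Complex.norm_exp_ofReal_mul_I, one_mul]
      unfold pkt
      rw [fourierInv_formula, fourierInv_formula, fourierInv_formula, ← integral_const_mul,
        ← integral_sub (hI (ha.damp hy φ).1) ((hI ha.int).const_mul _)]
      congr 1
      ext ξ
      ring
    have hd1 : Integrable (fun ξ => damp a (dir φ) P.ρ y ξ - (m : ℂ) * a ξ) :=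
      (ha.damp hy φ).1.sub (ha.int.const_mul _)
    have hd2 : MemLp (fun ξ => damp a (dir φ) P.ρ y ξ - (m : ℂ) * a ξ) 2 :=
      (ha.damp hy φ).2.sub (ha.lp.const_mul _)
    have key := sq_diff (ha.memLp hy φ) hmg (a := ε * √N) (b := m * √N) (by positivity)
      (by positivity) (by
        simp_rw [hmul]
        rw [(planch hd1 hd2).2, mul_pow, Real.sq_sqrt hN0, hN, ← integral_const_mul]
        apply integral_mono (int_sq hd2) ((int_sq ha.lp).const_mul _)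
        intro ξ
        simp only
        by_cases h0 : a ξ = 0
        · simp [damp, h0]
        · have e1 : damp a (dir φ) P.ρ y ξ - (m : ℂ) * a ξ =
              ((Real.exp (-(2 * π * y * (P.ρ - ⟪ξ, dir φ⟫_ℝ))) - m : ℝ) : ℂ) * a ξ := by
            unfold damp
            push_cast
            ring
          rw [e1, norm_mul, Complex.norm_real, Real.norm_eq_abs, mul_pow]
          have := hmu ξ h0
          gcongr) (by
        simp_rw [norm_mul, mul_pow]
        rw [integral_const_mul, (planch ha.int ha.lp).2, Complex.norm_real,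
          Real.norm_of_nonneg hm, Real.sq_sqrt hN0])
    have e2 : ∀ x, ‖(m : ℂ) * 𝓕⁻ a x‖ ^ 2 = m ^ 2 * ‖𝓕⁻ a x‖ ^ 2 := by
      intro x
      rw [norm_mul, Complex.norm_real, Real.norm_of_nonneg hm, mul_pow]
    simp_rw [e2] at key
    refine key.trans_eq ?_
    have e3 : (ε * √N) ^ 2 + 2 * (ε * √N * (m * √N)) = (ε ^ 2 + 2 * ε * m) * √N ^ 2 := by ring
    rw [e3, Real.sq_sqrt hN0]
  have s2 := ((s1.bdd_mul (v := fun x => c0 * v x) (measurable_const.mul hv) (c := c0)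
    fun x => by
      rw [abs_mul, abs_of_nonneg hc0]
      nlinarith [hv1 x]).pav hy (dir φ))
  -- second step
  have s3 : Cl (pav y (dir φ) (fun z => v z * ‖𝓕⁻ a z‖ ^ 2))
      (fun x => v x * pav y (dir φ) (fun z => ‖𝓕⁻ a z‖ ^ 2) x)
      (Cv * (1 + ∫ s, pk 1 s * Real.log (1 + s ^ 2)) / lq * N) := by
    refine ⟨hgv.pav hy _, (hg.pav hy _).bdd_mul hv hv1, ?_⟩
    have := comm_weight hy (dir φ) hv hv1 hg (fun x => by positivity) hCv hlq hs
    rw [(planch ha.int ha.lp).2] at this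
    exact this
  -- third step
  have s4 : Cl (fun x => v x * pav y (dir φ) (fun z => ‖𝓕⁻ a z‖ ^ 2) x)
      (fun x => v x * ‖𝓕⁻ a x‖ ^ 2) (1 * (Ct * min 1 √(y * Λ) * N)) := by
    refine Cl.bdd_mul ⟨hg.pav hy _, hg, ?_⟩ hv hv1
    exact hCt ha.int ha.lp hΛ hsupp hy
  have s5 := (s3.trans s4).const_mul (c := c0 * m ^ 2) (by positivity)
  have s6 : Cl (pav y (dir φ) (fun z => c0 * v z * (m ^ 2 * ‖𝓕⁻ a z‖ ^ 2)))
      (fun x => c0 * m ^ 2 * (v x * ‖𝓕⁻ a x‖ ^ 2)) (c0 * m ^ 2 *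
        (Cv * (1 + ∫ s, pk 1 s * Real.log (1 + s ^ 2)) / lq * N +
          1 * (Ct * min 1 √(y * Λ) * N))) := by
    refine s5.congr (fun x => ?_) fun x => rfl
    rw [← pav_const_mul]
    congr 1
    ext z
    ring
  refine (s2.trans s6).mono (le_of_eq ?_)
  ring

/-- Asymptotics in `q`. -/
theorem asym (k : ℕ) : ∃ q0 : ℕ, ∀ q : ℕ, q0 ≤ q → 4 ≤ q →
    8 * (q : ℝ) ^ (4 * k) * Real.exp (-(q : ℝ) ^ 2 / 4) ^ 2 ≤ 1 / q := by
  refine ⟨8 * 2 ^ (4 * k + 2) * (4 * k + 2).factorial, fun q hq h4 => ?_⟩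
  have hq4 : (4 : ℝ) ≤ q := by exact_mod_cast h4
  have hq0 : (0 : ℝ) < q := by linarith
  have h1 := Real.pow_div_factorial_le_exp ((q : ℝ) ^ 2 / 2) (by positivity) (4 * k + 2)
  have h2 : (8 * 2 ^ (4 * k + 2) * (4 * k + 2).factorial : ℝ) ≤ q := by exact_mod_cast hq
  have h3 : Real.exp (-(q : ℝ) ^ 2 / 4) ^ 2 = (Real.exp ((q : ℝ) ^ 2 / 2))⁻¹ := by
    rw [← Real.exp_neg, ← Real.exp_nat_mul]
    congr 1
    push_cast
    ring
  rw [h3, ← div_eq_mul_inv, div_le_div_iff₀ (Real.exp_pos _) hq0, one_mul]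
  refine le_trans ?_ h1
  rw [le_div_iff₀ (by positivity)]
  have h5 : ((q : ℝ) ^ 2 / 2) ^ (4 * k + 2) = (q : ℝ) ^ (4 * k) * q * (q : ℝ) ^ (4 * k + 3) /
      2 ^ (4 * k + 2) := by
    rw [div_pow]
    congr 1
    ring
  rw [h5, le_div_iff₀ (by positivity)]
  have h6 : (q : ℝ) ≤ (q : ℝ) ^ (4 * k + 3) := by
    calc (q : ℝ) = (q : ℝ) ^ 1 := (pow_one _).symm
      _ ≤ _ := pow_le_pow_right₀ (by linarith) (by omega)
  have h7 : 0 ≤ (q : ℝ) ^ (4 * k) * q := by positivity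
  calc 8 * (q : ℝ) ^ (4 * k) * q * ((4 * k + 2).factorial : ℝ) * 2 ^ (4 * k + 2)
      = (q : ℝ) ^ (4 * k) * q * (8 * 2 ^ (4 * k + 2) * (4 * k + 2).factorial) := by ring
    _ ≤ (q : ℝ) ^ (4 * k) * q * (q : ℝ) ^ (4 * k + 3) :=
        mul_le_mul_of_nonneg_left (h2.trans h6) h7

/-- The integrand of the cross terms of the packets. -/
noncomputable def xaI (P : Par) (G : V2 → ℂ) (K : Ker) (τ : ℝ) (i L : ℕ) (z : V2) : ℝ :=
  P.cn i * P.v G K τ i (L / P.b) z *
      ∑ p ∈ P.pairs i (L / P.b), (P.T (P.piece G (i - 1) p.1) i L z *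
        (starRingEnd ℂ) (P.T (P.piece G (i - 1) p.2) i L z)).re

theorem piece_sum_kids (G : V2 → ℂ) {i : ℕ} (hi : 1 ≤ i) (hik : i ≤ P.k) (j : ℕ) (ξ : V2) :
    P.piece G i j ξ = ∑ L ∈ P.kids i j, P.piece G (i - 1) L ξ := by
  have hs := P.idx_succ (i := i - 1) (by omega) ξ
  rw [Nat.sub_add_cancel hi] at hs
  by_cases h : P.idx i ξ = j
  · rw [Finset.sum_eq_single (P.idx (i - 1) ξ)]
    · unfold piece
      rw [Set.indicator_of_mem (by exact h), Set.indicator_of_mem (by exact rfl)]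
    · intro L _ hL
      unfold piece
      apply Set.indicator_of_notMem
      intro h'
      exact hL (show P.idx (i - 1) ξ = L from h').symm
    · intro h'
      exact absurd (P.mem_kids.mpr ⟨P.idx_lt (i - 1) ξ, by rw [← hs, h]⟩) h'
  · have h1 : ∑ L ∈ P.kids i j, P.piece G (i - 1) L ξ = 0 := by
      refine Finset.sum_eq_zero fun L hL => ?_
      unfold piece
      apply Set.indicator_of_notMem
      intro h'
      have h'' : P.idx (i - 1) ξ = L := h'
      apply h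
      rw [hs, h'', (P.mem_kids.mp hL).2]
    rw [h1]
    unfold piece
    exact Set.indicator_of_notMem (by exact h) _

/-- The packets of one level. -/
theorem level (K : Ker) (k : ℕ) : ∃ (C : ℝ) (q0 : ℕ), 0 < C ∧ ∀ P : Par, P.k = k → q0 ≤ P.q →
    ∀ F G, P.Pair F G → ∀ τ : ℝ, 0 < τ → ∀ i, 1 ≤ i → i ≤ P.k →
    Cl (fun x => ∑ L ∈ Finset.range (P.M (i - 1)), pav (P.y i) (dir (P.cen (i - 1) L))
        (fun z => P.cn i * max 0 (P.v G K τ i (L / P.b) z) * ‖P.T F i L z‖ ^ 2) x)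
      (fun x => (∑ L ∈ Finset.range (P.M (i - 1)),
        P.v G K τ i (L / P.b) x * ‖P.gp G (i - 1) L x‖ ^ 2) +
        ∑ L ∈ Finset.range (P.M (i - 1)), pav (P.y i) (dir (P.cen (i - 1) L))
          (P.xaI G K τ i L) x)
      (C / Real.log P.q) := by
  obtain ⟨Cv, hCv0, hCv⟩ := v_C K
  obtain ⟨Cm, q1, hCm0, hCm⟩ := mu_C k
  obtain ⟨Ct, hCt0, hCt⟩ := pav_trans (V := V2)
  obtain ⟨q2, hq2⟩ := asym k
  set Lg : ℝ := 1 + ∫ s, pk 1 s * Real.log (1 + s ^ 2) with hLg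
  have hLg0 : 0 ≤ Lg := by
    have : 0 ≤ ∫ s, pk 1 s * Real.log (1 + s ^ 2) :=
      integral_nonneg fun s => mul_nonneg (pk_nonneg one_pos s)
        (Real.log_nonneg (by nlinarith [sq_nonneg s]))
    linarith
  refine ⟨(8 * (k + 10) + 2 * Cv + 2 * Cm + Cv * Lg + 2 * Ct * Cm), max q1 q2, by positivity,
    ?_⟩
  intro P hk hq F G hFG τ hτ i hi hik
  have hG := Pair.good P hFG
  have hGs := hG.sp
  have hFs := hFG.sp
  have hq4 := P.hq4
  have hqR : (4 : ℝ) ≤ P.q := by exact_mod_cast hq4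
  have hq0 : (0 : ℝ) < P.q := by linarith
  have hlq : 0 < Real.log P.q := Real.log_pos (by linarith)
  have hsq : 0 < √(P.q : ℝ) := Real.sqrt_pos.mpr hq0
  obtain ⟨m1, m2, m3, m4⟩ := hCm P hk (le_trans (le_max_left _ _) hq) i hi hik
  have has := hq2 P.q (le_trans (le_max_right _ _) hq) hq4
  obtain ⟨cn0, cn2⟩ := cn_pos_le P hi hik
  have hy := P.y_pos hi
  set M := P.M (i - 1) with hM
  have hMle : (M : ℝ) ≤ 8 * (P.q : ℝ) ^ (4 * k) := by rw [← hk]; exact P.dM_le (i - 1)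
  have hJ : ∀ L < M, L / P.b < P.M i := fun L hL => P.div_b_lt hi hik hL
  have hvm := fun j => v_meas K hG hτ hik j
  have hv1 := fun j x => v_abs_le K hG hτ hik j x
  have hV := fun j x => hCv P G hG τ hτ i hi hik j x
  have hGle : ∫ ξ, ‖G ξ‖ ^ 2 ≤ 1 := hG.le
  have hG0 : 0 ≤ ∫ ξ, ‖G ξ‖ ^ 2 := integral_nonneg fun ξ => by positivity
  set lam : ℝ := 1 / √(P.q : ℝ) with hlam
  have hlam0 : 0 < lam := by positivity
  have hlamlog : lam ≤ 2 / Real.log P.q := by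
    rw [hlam, div_le_div_iff₀ hsq hlq]
    have : Real.log P.q = 2 * Real.log √(P.q : ℝ) := by
      rw [Real.log_sqrt hq0.le]; ring
    rw [this]
    have := Real.log_le_sub_one_of_pos hsq
    linarith
  have hCs : ∀ ξ ∈ ann P.R P.H, ∑ L ∈ Finset.range M,
      P.cn i * Real.exp (-(2 * π * P.y i * (P.ρ - ⟪ξ, dir (P.cen (i - 1) L)⟫_ℝ))) ^ 2 ≤ 2 :=
    fun ξ hξ => m1 ξ hξ
  have hWm : ∀ L, Measurable (fun z => P.cn i * P.v G K τ i (L / P.b) z) := fun L =>
    measurable_const.mul (hvm _)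
  have hWm0 : ∀ L, Measurable (fun z => P.cn i * max 0 (P.v G K τ i (L / P.b) z)) := fun L =>
    measurable_const.mul (measurable_const.max (hvm _))
  have hW1 : ∀ L x, |P.cn i * P.v G K τ i (L / P.b) x| ≤ P.cn i := by
    intro L x
    rw [abs_mul, abs_of_pos cn0]
    nlinarith [hv1 (L / P.b) x]
  have hW10 : ∀ L x, |P.cn i * max 0 (P.v G K τ i (L / P.b) x)| ≤ P.cn i := by
    intro L x
    have h1 := abs_le.mp (hv1 (L / P.b) x)
    have h2 : 0 ≤ max 0 (P.v G K τ i (L / P.b) x) := le_max_left _ _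
    have h3 : max 0 (P.v G K τ i (L / P.b) x) ≤ 1 := max_le (by norm_num) h1.2
    rw [abs_of_nonneg (by positivity)]
    nlinarith
  -- step 1: from F to G
  have t1 : Cl (fun x => ∑ L ∈ Finset.range M, pav (P.y i) (dir (P.cen (i - 1) L))
        (fun z => P.cn i * max 0 (P.v G K τ i (L / P.b) z) * ‖P.T F i L z‖ ^ 2) x)
      (fun x => ∑ L ∈ Finset.range M, pav (P.y i) (dir (P.cen (i - 1) L))
        (fun z => P.cn i * max 0 (P.v G K τ i (L / P.b) z) * ‖P.T G i L z‖ ^ 2) x)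
      (lam * (2 * (∫ ξ, ‖F ξ‖ ^ 2) + 2 * ∫ ξ, ‖G ξ‖ ^ 2) +
        (2 * ∫ ξ, ‖F ξ - G ξ‖ ^ 2) / (2 * lam)) := by
    exact cl_fam (P := P) (Finset.range M) (c := fun _ => P.cn i) (y := fun _ => P.y i)
      (φ := fun L => P.cen (i - 1) L) (fun _ _ => hy) hCs hFs hGs hlam0
      (W := fun L z => P.cn i * max 0 (P.v G K τ i (L / P.b) z)) (fun L _ => hWm0 L)
      fun L _ x => hW10 L x
  -- step 2: positive part
  have t2 : Cl (fun x => ∑ L ∈ Finset.range M, pav (P.y i) (dir (P.cen (i - 1) L))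
        (fun z => P.cn i * max 0 (P.v G K τ i (L / P.b) z) * ‖P.T G i L z‖ ^ 2) x)
      (fun x => ∑ L ∈ Finset.range M, pav (P.y i) (dir (P.cen (i - 1) L))
        (fun z => P.cn i * P.v G K τ i (L / P.b) z * ‖P.T G i L z‖ ^ 2) x)
      (∑ L ∈ Finset.range M, P.cn i * (Cv / Real.log P.q) * ∫ z, ‖P.T G i L z‖ ^ 2) := by
    refine Cl.sum _ fun L _ => Cl.pav ?_ hy _
    refine Cl.weight (v := fun z => P.cn i * max 0 (P.v G K τ i (L / P.b) z))
      (v' := fun z => P.cn i * P.v G K τ i (L / P.b) z) (hGs.nc hy _) (fun x => by positivity)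
      (hWm0 L) (hWm L) (D := P.cn i) (hW10 L) (hW1 L) fun x => ?_
    rw [← mul_sub, abs_mul, abs_of_pos cn0]
    apply mul_le_mul_of_nonneg_left _ cn0.le
    have h4 := (hV (L / P.b) x).1
    have h5 : 0 ≤ Cv / Real.log P.q := by positivity
    rcases le_total 0 (P.v G K τ i (L / P.b) x) with h | h
    · rw [max_eq_right h, sub_self, abs_zero]; exact h5
    · rw [max_eq_left h, zero_sub, abs_neg, abs_of_nonpos h]
      linarith
  -- step 3: localisation to the arc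
  have t3 : Cl (fun x => ∑ L ∈ Finset.range M, pav (P.y i) (dir (P.cen (i - 1) L))
        (fun z => P.cn i * P.v G K τ i (L / P.b) z * ‖P.T G i L z‖ ^ 2) x)
      (fun x => ∑ L ∈ Finset.range M, pav (P.y i) (dir (P.cen (i - 1) L))
        (fun z => P.cn i * P.v G K τ i (L / P.b) z *
          ‖P.T (P.piece G i (L / P.b)) i L z‖ ^ 2) x)
      (∑ L ∈ Finset.range M, (P.cn i * (lam * ((∫ z, ‖P.T G i L z‖ ^ 2) +
        ∫ z, ‖P.T (P.piece G i (L / P.b)) i L z‖ ^ 2) +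
        (∫ z, ‖P.T (fun ξ => G ξ - P.piece G i (L / P.b) ξ) i L z‖ ^ 2) / (2 * lam)))) := by
    refine Cl.sum _ fun L _ => ?_
    exact cl_pkt (W := fun z => P.cn i * P.v G K τ i (L / P.b) z) hGs
      (Good.piece P hG i _).sp hy _ hlam0 (hWm L) (hW1 L)
  have hps : ∀ L', P.Sp (P.piece G (i - 1) L') := fun L' => (Good.piece P hG (i - 1) L').sp
  -- expansion of the square
  have hTJ : ∀ L z, P.T (P.piece G i (L / P.b)) i L z =
      ∑ L' ∈ P.kids i (L / P.b), P.T (P.piece G (i - 1) L') i L z := by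
    intro L z
    have e : P.piece G i (L / P.b) =
        fun ξ => ∑ L' ∈ P.kids i (L / P.b), P.piece G (i - 1) L' ξ := by
      ext ξ
      exact piece_sum_kids G hi hik _ ξ
    unfold T
    rw [e]
    exact Sp.pkt_sum _ (fun L' _ => hps L') hy _ z
  have hnT : ∀ L L', Nc (fun z => ‖P.T (P.piece G (i - 1) L') i L z‖ ^ 2) := fun L L' =>
    (hps L').nc hy _
  have hxaI : ∀ L, Nc (P.xaI G K τ i L) := by
    intro L
    have h1 : Nc (fun z => ∑ p ∈ P.pairs i (L / P.b), (P.T (P.piece G (i - 1) p.1) i L z *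
        (starRingEnd ℂ) (P.T (P.piece G (i - 1) p.2) i L z)).re) := by
      refine Nc.sum _ fun p _ => ?_
      exact nc_cross ((hps p.1).damp hy _).1 ((hps p.1).damp hy _).2 ((hps p.2).damp hy _).1
        ((hps p.2).damp hy _).2
    exact h1.bdd_mul (hWm L) (hW1 L)
  have hsplit : ∀ L x, pav (P.y i) (dir (P.cen (i - 1) L))
        (fun z => P.cn i * P.v G K τ i (L / P.b) z *
          ‖P.T (P.piece G i (L / P.b)) i L z‖ ^ 2) x =
      (∑ L' ∈ P.kids i (L / P.b), pav (P.y i) (dir (P.cen (i - 1) L))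
        (fun z => P.cn i * P.v G K τ i (L / P.b) z *
          ‖P.T (P.piece G (i - 1) L') i L z‖ ^ 2) x) +
      pav (P.y i) (dir (P.cen (i - 1) L)) (P.xaI G K τ i L) x := by
    intro L x
    have h1 : ∀ L' ∈ P.kids i (L / P.b), Nc (fun z => P.cn i * P.v G K τ i (L / P.b) z *
        ‖P.T (P.piece G (i - 1) L') i L z‖ ^ 2) := fun L' _ =>
      (hnT L L').bdd_mul (hWm L) (hW1 L)
    rw [← pav_sum _ h1 hy, ← (Nc.sum _ h1).pav_add (hxaI L) hy]
    congr 1
    ext z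
    rw [hTJ, norm_sum_sq, mul_add, Finset.mul_sum]
    rfl
  -- step 4: the diagonal terms
  choose! ε hε0 hε1 hε2 using m3
  choose! Λ hΛ0 hΛ1 hΛ2 using m4
  have hidx : ∀ L' ξ, P.piece G (i - 1) L' ξ ≠ 0 → P.idx (i - 1) ξ = L' := by
    intro L' ξ h
    by_contra h'
    exact h (Set.indicator_of_notMem (s := {ξ | P.idx (i - 1) ξ = L'}) h' G)
  set N : ℕ → ℝ := fun L' => ∫ ξ, ‖P.piece G (i - 1) L' ξ‖ ^ 2 with hN
  have hN0 : ∀ L', 0 ≤ N L' := fun L' => integral_nonneg fun ξ => by positivity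
  have hNs : ∑ L' ∈ Finset.range M, N L' ≤ 1 := by
    rw [hN, hM, tsq hG (i - 1)]; exact hGle
  set e : ℕ → ℕ → ℝ := fun L L' => (P.cn i * (ε L' L ^ 2 + 2 * ε L' L * P.mc i L L') +
    P.cn i * P.mc i L L' ^ 2 * (Cv * Lg / Real.log P.q) +
    Ct * (P.cn i * P.mc i L L' ^ 2 * min 1 √(P.y i * Λ L' L))) * N L' with he
  have hmc0 : ∀ L L', 0 ≤ P.mc i L L' := fun L L' => (Real.exp_pos _).le
  have t4 : Cl (fun x => ∑ L ∈ Finset.range M, ((∑ L' ∈ P.kids i (L / P.b),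
        pav (P.y i) (dir (P.cen (i - 1) L)) (fun z => P.cn i * P.v G K τ i (L / P.b) z *
          ‖P.T (P.piece G (i - 1) L') i L z‖ ^ 2) x) +
      pav (P.y i) (dir (P.cen (i - 1) L)) (P.xaI G K τ i L) x))
      (fun x => ∑ L ∈ Finset.range M, ((∑ L' ∈ P.kids i (L / P.b), P.cn i * P.mc i L L' ^ 2 *
        (P.v G K τ i (L / P.b) x * ‖P.gp G (i - 1) L' x‖ ^ 2)) +
      pav (P.y i) (dir (P.cen (i - 1) L)) (P.xaI G K τ i L) x))
      (∑ L ∈ Finset.range M, ((∑ L' ∈ P.kids i (L / P.b), e L L') + 0)) := by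
    refine Cl.sum _ fun L hL => Cl.add (Cl.sum _ fun L' hL' => ?_)
      (Cl.refl ((hxaI L).pav hy _))
    have hLM := Finset.mem_range.mp hL
    have hL'M : L' < M := (P.mem_kids.mp hL').1
    exact cl_one hCt (hps L') hy (hmc0 L L') (hε0 L' hL'M L)
      (fun ξ hξ => hε1 L' hL'M L hLM ξ ((hps L').supp ξ hξ) (hidx L' ξ hξ))
      (hvm _) (hv1 _) hCv0.le hlq
      (fun x t => (hV (L / P.b) x).2.2.2.2 L hLM rfl t) (hΛ0 L' hL'M L)
      (fun ξ hξ => hΛ1 L' hL'M L hLM ξ ((hps L').supp ξ hξ) (hidx L' ξ hξ)) cn0.le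
  -- step 5: normalisation
  set r : ℕ → ℝ := fun L' => ∑ L ∈ P.kids i (L' / P.b), P.cn i * P.mc i L L' ^ 2 with hr
  have hswap : ∀ φ : ℕ → ℕ → ℝ, ∑ L ∈ Finset.range M, ∑ L' ∈ P.kids i (L / P.b), φ L L' =
      ∑ L' ∈ Finset.range M, ∑ L ∈ P.kids i (L' / P.b), φ L L' := by
    intro φ
    apply Finset.sum_comm'
    intro L L'
    simp only [Finset.mem_range, P.mem_kids]
    constructor
    · rintro ⟨h1, h2, h3⟩; exact ⟨⟨h1, h3.symm⟩, h2⟩
    · rintro ⟨⟨h1, h3⟩, h2⟩; exact ⟨h1, h2, h3.symm⟩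
  have hre : ∀ x, ∑ L ∈ Finset.range M, ((∑ L' ∈ P.kids i (L / P.b), P.cn i *
        P.mc i L L' ^ 2 * (P.v G K τ i (L / P.b) x * ‖P.gp G (i - 1) L' x‖ ^ 2)) +
      pav (P.y i) (dir (P.cen (i - 1) L)) (P.xaI G K τ i L) x) =
      (∑ L' ∈ Finset.range M, r L' * P.v G K τ i (L' / P.b) x * ‖P.gp G (i - 1) L' x‖ ^ 2) +
      ∑ L ∈ Finset.range M, pav (P.y i) (dir (P.cen (i - 1) L)) (P.xaI G K τ i L) x := by
    intro x
    rw [Finset.sum_add_distrib, hswap]
    congr 1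
    refine Finset.sum_congr rfl fun L' _ => ?_
    simp only [hr]
    rw [Finset.sum_mul, Finset.sum_mul]
    refine Finset.sum_congr rfl fun L hL => ?_
    rw [(P.mem_kids.mp hL).2]
    ring
  have hgpN : ∀ L', Nc (fun x => ‖P.gp G (i - 1) L' x‖ ^ 2) := fun L' =>
    nc_inv (hps L').int (hps L').lp
  have hgpI : ∀ L', ∫ x, ‖P.gp G (i - 1) L' x‖ ^ 2 = N L' := fun L' =>
    (planch (hps L').int (hps L').lp).2
  have t5 : Cl (fun x => (∑ L' ∈ Finset.range M, r L' * P.v G K τ i (L' / P.b) x *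
        ‖P.gp G (i - 1) L' x‖ ^ 2) +
      ∑ L ∈ Finset.range M, pav (P.y i) (dir (P.cen (i - 1) L)) (P.xaI G K τ i L) x)
      (fun x => (∑ L' ∈ Finset.range M, P.v G K τ i (L' / P.b) x *
        ‖P.gp G (i - 1) L' x‖ ^ 2) +
      ∑ L ∈ Finset.range M, pav (P.y i) (dir (P.cen (i - 1) L)) (P.xaI G K τ i L) x)
      ((∑ L' ∈ Finset.range M, |r L' - 1| * N L') + 0) := by
    refine Cl.add (Cl.sum _ fun L' _ => ?_)
      (Cl.refl (Nc.sum _ fun L _ => (hxaI L).pav hy _))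
    rw [← hgpI L']
    refine Cl.weight (v := fun x => r L' * P.v G K τ i (L' / P.b) x) (hgpN L')
      (fun x => by positivity) (measurable_const.mul (hvm _)) (hvm _) (D := |r L'| + 1)
      (fun x => ?_) (fun x => ?_) fun x => ?_
    · rw [abs_mul]
      nlinarith [hv1 (L' / P.b) x, abs_nonneg (r L'), abs_nonneg (P.v G K τ i (L' / P.b) x)]
    · have := hv1 (L' / P.b) x
      have := abs_nonneg (r L')
      linarith
    · have : r L' * P.v G K τ i (L' / P.b) x - P.v G K τ i (L' / P.b) x =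
          (r L' - 1) * P.v G K τ i (L' / P.b) x := by ring
      rw [this, abs_mul]
      nlinarith [hv1 (L' / P.b) x, abs_nonneg (r L' - 1)]
  -- bounds of the errors
  set ex : ℝ := Real.exp (-(P.q : ℝ) ^ 2 / 4) with hex
  have hex0 : 0 < ex := Real.exp_pos _
  have hql : (P.q : ℝ) * lam ^ 2 = 1 := by
    rw [hlam, div_pow, Real.sq_sqrt hq0.le]; field_simp
  have hlam1 : lam ≤ 1 := by
    rw [hlam, div_le_one hsq]
    exact Real.one_le_sqrt.mpr (by linarith)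
  have hqinv : 1 / (P.q : ℝ) = lam ^ 2 := by
    field_simp
    linarith
  have hMe : (M : ℝ) * ex ^ 2 ≤ lam ^ 2 := by
    rw [← hqinv]
    refine le_trans ?_ has
    exact mul_le_mul_of_nonneg_right hMle (by positivity)
  have hTG := fam_sum (P := P) (Finset.range M) (c := fun _ => P.cn i) (y := fun _ => P.y i)
      (φ := fun L => P.cen (i - 1) L) (fun _ _ => hy) hCs hGs
  have hTG2 : ∑ L ∈ Finset.range M, P.cn i * ∫ z, ‖P.T G i L z‖ ^ 2 ≤ 2 := by
    refine hTG.trans ?_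
    linarith
  have b1 : lam * (2 * (∫ ξ, ‖F ξ‖ ^ 2) + 2 * ∫ ξ, ‖G ξ‖ ^ 2) +
        (2 * ∫ ξ, ‖F ξ - G ξ‖ ^ 2) / (2 * lam) ≤ (4 + 2 * (k + 1)) * lam := by
    rw [hFG.one]
    have h1 := hFG.gap
    have h2 : (2 * ∫ ξ, ‖F ξ - G ξ‖ ^ 2) / (2 * lam) ≤ 2 * (k + 1) * lam := by
      rw [div_le_iff₀ (by positivity)]
      have h3 : 2 * (P.k + 1) / (P.q : ℝ) = 2 * (k + 1) * lam ^ 2 := by
        rw [← hqinv, hk]; ring
      rw [h3] at h1
      nlinarith
    nlinarith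
  have b2 : ∑ L ∈ Finset.range M, P.cn i * (Cv / Real.log P.q) * ∫ z, ‖P.T G i L z‖ ^ 2 ≤
      2 * Cv / Real.log P.q := by
    have h1 : ∑ L ∈ Finset.range M, P.cn i * (Cv / Real.log P.q) * ∫ z, ‖P.T G i L z‖ ^ 2 =
        (Cv / Real.log P.q) * ∑ L ∈ Finset.range M, P.cn i * ∫ z, ‖P.T G i L z‖ ^ 2 := by
      rw [Finset.mul_sum]
      exact Finset.sum_congr rfl fun L _ => by ring
    rw [h1]
    calc (Cv / Real.log P.q) * ∑ L ∈ Finset.range M, P.cn i * ∫ z, ‖P.T G i L z‖ ^ 2 ≤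
        (Cv / Real.log P.q) * 2 := mul_le_mul_of_nonneg_left hTG2 (by positivity)
      _ = _ := by ring
  have b3 : (∑ L ∈ Finset.range M, (P.cn i * (lam * ((∫ z, ‖P.T G i L z‖ ^ 2) +
        ∫ z, ‖P.T (P.piece G i (L / P.b)) i L z‖ ^ 2) +
        (∫ z, ‖P.T (fun ξ => G ξ - P.piece G i (L / P.b) ξ) i L z‖ ^ 2) / (2 * lam)))) ≤
      5 * lam := by
    have hJ1 : ∀ L, ∫ z, ‖P.T (P.piece G i (L / P.b)) i L z‖ ^ 2 ≤ ∫ z, ‖P.T G i L z‖ ^ 2 := by
      intro L
      unfold T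
      rw [((Good.piece P hG i (L / P.b)).sp.sq hy _).2, (hGs.sq hy _).2]
      apply integral_mono ((Good.piece P hG i (L / P.b)).sp.sq hy _).1 (hGs.sq hy _).1
      intro ξ
      simp only
      have := norm_piece_le G i (L / P.b) ξ (P := P)
      gcongr
    have hJ2 : ∀ L < M, ∫ z, ‖P.T (fun ξ => G ξ - P.piece G i (L / P.b) ξ) i L z‖ ^ 2 ≤
        ex ^ 2 := by
      intro L hL
      have hsd : P.Sp (fun ξ => G ξ - P.piece G i (L / P.b) ξ) :=
        hGs.sub (Good.piece P hG i (L / P.b)).sp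
      have h0 : ∫ z, ‖P.T (fun ξ => G ξ - P.piece G i (L / P.b) ξ) i L z‖ ^ 2 ≤
          ∫ ξ, ex ^ 2 * ‖G ξ‖ ^ 2 := by
        unfold T
        rw [(hsd.sq hy _).2]
        apply integral_mono (hsd.sq hy _).1 ((int_sq hGs.lp).const_mul _)
        intro ξ
        simp only
        by_cases hξ : P.idx i ξ = L / P.b
        · have h1 : P.piece G i (L / P.b) ξ = G ξ := by
            unfold piece
            exact Set.indicator_of_mem (by exact hξ) _
          rw [h1, sub_self, norm_zero]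
          have : 0 ≤ ex ^ 2 * ‖G ξ‖ ^ 2 := by positivity
          simpa using this
        · have h1 : P.piece G i (L / P.b) ξ = 0 := by
            unfold piece
            exact Set.indicator_of_notMem (by exact hξ) _
          rw [h1, sub_zero]
          by_cases h2 : G ξ = 0
          · simp [h2]
          · have h3 := (m2 ξ (hG.supp ξ h2) L hL hξ).1
            have h4 : 0 ≤ P.mu i L ξ := (Real.exp_pos _).le
            unfold mu at h3 h4
            gcongr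
      refine h0.trans ?_
      rw [integral_const_mul]
      nlinarith [sq_nonneg ex]
    have hle : ∀ L ∈ Finset.range M, (P.cn i * (lam * ((∫ z, ‖P.T G i L z‖ ^ 2) +
        ∫ z, ‖P.T (P.piece G i (L / P.b)) i L z‖ ^ 2) +
        (∫ z, ‖P.T (fun ξ => G ξ - P.piece G i (L / P.b) ξ) i L z‖ ^ 2) / (2 * lam))) ≤
        2 * lam * (P.cn i * ∫ z, ‖P.T G i L z‖ ^ 2) + ex ^ 2 / lam := by
      intro L hL
      have h1 := hJ1 L
      have h2 := hJ2 L (Finset.mem_range.mp hL)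
      have h3 : (∫ z, ‖P.T (fun ξ => G ξ - P.piece G i (L / P.b) ξ) i L z‖ ^ 2) / (2 * lam) ≤
          ex ^ 2 / (2 * lam) := by gcongr
      have h4 : 0 ≤ ex ^ 2 / (2 * lam) := by positivity
      have h5 : ex ^ 2 / lam = 2 * (ex ^ 2 / (2 * lam)) := by field_simp
      have h6 : lam * ((∫ z, ‖P.T G i L z‖ ^ 2) +
        ∫ z, ‖P.T (P.piece G i (L / P.b)) i L z‖ ^ 2) ≤ 2 * lam * ∫ z, ‖P.T G i L z‖ ^ 2 := by
        nlinarith
      rw [h5]
      calc P.cn i * (lam * ((∫ z, ‖P.T G i L z‖ ^ 2) +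
        ∫ z, ‖P.T (P.piece G i (L / P.b)) i L z‖ ^ 2) +
        (∫ z, ‖P.T (fun ξ => G ξ - P.piece G i (L / P.b) ξ) i L z‖ ^ 2) / (2 * lam)) ≤
          P.cn i * (2 * lam * (∫ z, ‖P.T G i L z‖ ^ 2) + ex ^ 2 / (2 * lam)) :=
            mul_le_mul_of_nonneg_left (add_le_add h6 h3) cn0.le
        _ ≤ _ := by nlinarith
    refine (Finset.sum_le_sum hle).trans ?_
    rw [Finset.sum_add_distrib, ← Finset.mul_sum, Finset.sum_const, Finset.card_range,
      nsmul_eq_mul]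
    have h7 : (M : ℝ) * (ex ^ 2 / lam) ≤ lam := by
      rw [← mul_div_assoc, div_le_iff₀ hlam0]
      nlinarith
    nlinarith
  have b4 : (∑ L ∈ Finset.range M, ((∑ L' ∈ P.kids i (L / P.b), e L L') + 0)) ≤
      Cm * lam + Cv * Lg / Real.log P.q + Ct * (Cm * lam) := by
    simp only [add_zero]
    rw [hswap]
    have hnn : ∀ L' ∈ Finset.range M, ∀ L, 0 ≤ e L L' := by
      intro L' hL' L
      have h1 := hε0 L' (Finset.mem_range.mp hL') L
      have h2 := hmc0 L L'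
      have h3 := hN0 L'
      simp only [he]
      positivity
    have hcol : ∀ L' ∈ Finset.range M, ∑ L ∈ P.kids i (L' / P.b), e L L' ≤
        (Cm * lam + Cv * Lg / Real.log P.q + Ct * (Cm * lam)) * N L' := by
      intro L' hL'
      have hL'M := Finset.mem_range.mp hL'
      calc ∑ L ∈ P.kids i (L' / P.b), e L L' ≤ ∑ L ∈ Finset.range M, e L L' :=
            Finset.sum_le_sum_of_subset_of_nonneg (Finset.filter_subset _ _)
              fun L _ _ => hnn L' hL' L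
        _ = ((∑ L ∈ Finset.range M, P.cn i * (ε L' L ^ 2 + 2 * ε L' L * P.mc i L L')) +
            (P.cn i * ∑ L ∈ Finset.range M, P.mc i L L' ^ 2) * (Cv * Lg / Real.log P.q) +
            Ct * ∑ L ∈ Finset.range M, P.cn i * P.mc i L L' ^ 2 * min 1 √(P.y i * Λ L' L)) *
              N L' := by
            simp only [he]
            rw [← Finset.sum_mul]
            congr 1
            have e1 : (P.cn i * ∑ L ∈ Finset.range M, P.mc i L L' ^ 2) *
                (Cv * Lg / Real.log P.q) = ∑ L ∈ Finset.range M,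
                  P.cn i * P.mc i L L' ^ 2 * (Cv * Lg / Real.log P.q) := by
              rw [Finset.mul_sum, Finset.sum_mul]
            have e2 : (Ct * ∑ L ∈ Finset.range M, P.cn i * P.mc i L L' ^ 2 *
                min 1 √(P.y i * Λ L' L)) = ∑ L ∈ Finset.range M,
                  Ct * (P.cn i * P.mc i L L' ^ 2 * min 1 √(P.y i * Λ L' L)) := by
              rw [Finset.mul_sum]
            rw [e1, e2, ← Finset.sum_add_distrib, ← Finset.sum_add_distrib]
        _ ≤ _ := by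
            apply mul_le_mul_of_nonneg_right _ (hN0 L')
            have h1 := hε2 L' hL'M
            have h2 := hΛ2 L' hL'M
            rw [cn_norm P hi hik hL'M, one_mul]
            have h3 : Cm / (P.q : ℝ) ≤ Cm * lam := by
              rw [div_eq_mul_one_div, hqinv]
              apply mul_le_mul_of_nonneg_left _ hCm0.le
              nlinarith
            have h4 : Cm / √(P.q : ℝ) = Cm * lam := by
              rw [hlam]; ring
            rw [h4] at h2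
            have h5 := mul_le_mul_of_nonneg_left h2 hCt0.le
            linarith
    refine (Finset.sum_le_sum hcol).trans ?_
    rw [← Finset.mul_sum]
    have h6 : 0 ≤ Cm * lam + Cv * Lg / Real.log P.q + Ct * (Cm * lam) := by positivity
    nlinarith
  have b5 : ((∑ L' ∈ Finset.range M, |r L' - 1| * N L') + 0) ≤ 2 * lam := by
    have hcol : ∀ L' ∈ Finset.range M, |r L' - 1| * N L' ≤ (2 * lam) * N L' := by
      intro L' hL'
      have hL'M := Finset.mem_range.mp hL'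
      by_cases hex' : ∃ ξ, P.piece G (i - 1) L' ξ ≠ 0
      · obtain ⟨ξ, hξ⟩ := hex'
        have hgap : ξ ∈ P.gapSet := (Good.piece P hG (i - 1) L').supp ξ hξ
        have hid := hidx L' ξ hξ
        have hs := P.idx_succ (i := i - 1) (by omega) ξ
        rw [Nat.sub_add_cancel hi, hid] at hs
        apply mul_le_mul_of_nonneg_right _ (hN0 L')
        have h1 : 1 - r L' = ∑ L ∈ (Finset.range M).filter (fun L => ¬ L / P.b = L' / P.b),
            P.cn i * P.mc i L L' ^ 2 := by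
          rw [← cn_norm P hi hik hL'M, Finset.mul_sum,
            ← Finset.sum_filter_add_sum_filter_not (Finset.range M)
              (fun L => L / P.b = L' / P.b)]
          simp only [hr]
          unfold kids
          ring
        have h2 : 0 ≤ 1 - r L' := by
          rw [h1]
          exact Finset.sum_nonneg fun L _ => by positivity
        have h3 : 1 - r L' ≤ (M : ℝ) * (2 * ex ^ 2) := by
          rw [h1]
          calc ∑ L ∈ (Finset.range M).filter (fun L => ¬ L / P.b = L' / P.b),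
                P.cn i * P.mc i L L' ^ 2 ≤
              ∑ L ∈ (Finset.range M).filter (fun L => ¬ L / P.b = L' / P.b), 2 * ex ^ 2 := by
                refine Finset.sum_le_sum fun L hL => ?_
                have h4 := Finset.mem_filter.mp hL
                have h5 := (m2 ξ hgap L (Finset.mem_range.mp h4.1) (by
                  rw [hs]; exact fun h => h4.2 h.symm)).2
                rw [hid] at h5
                have h6 := hmc0 L L'
                have h7 : P.mc i L L' ^ 2 ≤ ex ^ 2 := by gcongr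
                nlinarith [sq_nonneg (P.mc i L L')]
            _ = (((Finset.range M).filter (fun L => ¬ L / P.b = L' / P.b)).card : ℝ) *
                (2 * ex ^ 2) := by rw [Finset.sum_const, nsmul_eq_mul]
            _ ≤ _ := by
                apply mul_le_mul_of_nonneg_right _ (by positivity)
                exact_mod_cast (Finset.card_filter_le _ _).trans_eq (Finset.card_range M)
        rw [abs_sub_comm, abs_of_nonneg h2]
        nlinarith
      · have h0 : N L' = 0 := by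
          simp only [hN]
          push Not at hex'
          simp [hex']
        rw [h0, mul_zero, mul_zero]
    rw [add_zero]
    refine (Finset.sum_le_sum hcol).trans ?_
    rw [← Finset.mul_sum]
    nlinarith
  have t3' := t3.congr (u' := _) (fun x => rfl) (w' := fun x => ∑ L ∈ Finset.range M,
      ((∑ L' ∈ P.kids i (L / P.b),
        pav (P.y i) (dir (P.cen (i - 1) L)) (fun z => P.cn i * P.v G K τ i (L / P.b) z *
          ‖P.T (P.piece G (i - 1) L') i L z‖ ^ 2) x) +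
      pav (P.y i) (dir (P.cen (i - 1) L)) (P.xaI G K τ i L) x))
      (fun x => (Finset.sum_congr rfl fun L _ => hsplit L x).symm)
  have t4' := t4.congr (u' := _) (fun x => rfl) (w' := _) (fun x => (hre x).symm)
  refine ((((t1.trans t2).trans t3').trans t4').trans t5).mono ?_
  have h1 : (4 * (k : ℝ) + 26 + 2 * Cm + 2 * Ct * Cm) / Real.log P.q ≥
      (2 * k + 13 + Cm + Ct * Cm) * lam := by
    have h2 : (2 * (k : ℝ) + 13 + Cm + Ct * Cm) * lam ≤
        (2 * k + 13 + Cm + Ct * Cm) * (2 / Real.log P.q) :=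
      mul_le_mul_of_nonneg_left hlamlog (by positivity)
    refine h2.trans (le_of_eq ?_)
    ring
  have h3 : (8 * ((k : ℝ) + 10) + 2 * Cv + 2 * Cm + Cv * Lg + 2 * Ct * Cm) / Real.log P.q =
      (4 * (k : ℝ) + 26 + 2 * Cm + 2 * Ct * Cm) / Real.log P.q + 2 * Cv / Real.log P.q +
      Cv * Lg / Real.log P.q + (4 * k + 54) / Real.log P.q := by ring
  have h4 : 0 ≤ (4 * (k : ℝ) + 54) / Real.log P.q := by positivity
  rw [h3]
  linarith

end basic

theorem diag (H y0 : ℝ) (K : Ker) (k : ℕ) : ∃ (C : ℝ) (q0 : ℕ), 0 < C ∧ ∀ P : Par, P.H = H →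
    P.y0 = y0 → P.k = k → q0 ≤ P.q → ∀ F G, P.Pair F G → ∀ τ : ℝ, 0 < τ →
    Integrable (fun x => P.mm G K F τ x - P.m0 G K G τ x - P.mS G K τ x - P.XS G K τ x -
      P.XA G K τ x) ∧
    ∫ x, |P.mm G K F τ x - P.m0 G K G τ x - P.mS G K τ x - P.XS G K τ x - P.XA G K τ x| ≤
      C / Real.log P.q := by
  obtain ⟨C1, q1, hC10, hC1⟩ := level K k
  obtain ⟨C0, hC00, hC0⟩ := mu0_C y0
  refine ⟨k * C1 + C0 * (4 + 2 * (k + 1)), q1, by positivity, ?_⟩
  intro P _ hy0 hk hq F G hFG τ hτ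
  have hG := Pair.good P hFG
  have hq4 := P.hq4
  have hqR : (4 : ℝ) ≤ P.q := by exact_mod_cast hq4
  have hq0 : (0 : ℝ) < P.q := by linarith
  have hlq : 0 < Real.log P.q := Real.log_pos (by linarith)
  have hsq : 0 < √(P.q : ℝ) := Real.sqrt_pos.mpr hq0
  set lam : ℝ := 1 / √(P.q : ℝ) with hlam
  have hlam0 : 0 < lam := by positivity
  have hlamlog : lam ≤ 2 / Real.log P.q := by
    rw [hlam, div_le_div_iff₀ hsq hlq]
    have : Real.log P.q = 2 * Real.log √(P.q : ℝ) := by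
      rw [Real.log_sqrt hq0.le]; ring
    rw [this]
    have := Real.log_le_sub_one_of_pos hsq
    linarith
  have hql : (P.q : ℝ) * lam ^ 2 = 1 := by
    rw [hlam, div_pow, Real.sq_sqrt hq0.le]; field_simp
  have hqinv : 1 / (P.q : ℝ) = lam ^ 2 := by
    field_simp
    linarith
  have t1 := Cl.sum (Finset.Icc 1 P.k) fun i hi =>
    hC1 P hk hq F G hFG τ hτ i (Finset.mem_Icc.mp hi).1 (Finset.mem_Icc.mp hi).2
  have hh := fun κ => cut_basic P K hG hτ (i := 1) (j := κ / P.b) P.hk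
  have hCs : ∀ ξ ∈ ann P.R P.H, ∑ κ ∈ Finset.range (P.M 0),
      1 * Real.exp (-(2 * π * P.y0 * (P.ρ - ⟪ξ, dir (P.cen 0 κ)⟫_ℝ))) ^ 2 ≤ C0 := by
    intro ξ hξ
    refine le_trans (le_of_eq ?_) (hC0 P hy0 ξ hξ)
    refine Finset.sum_congr rfl fun κ _ => ?_
    rw [one_mul, ← Real.exp_nat_mul]
    congr 1
    push_cast
    ring
  have t2 : Cl (P.m0 G K F τ) (P.m0 G K G τ)
      (lam * (C0 * (∫ ξ, ‖F ξ‖ ^ 2) + C0 * ∫ ξ, ‖G ξ‖ ^ 2) +
        (C0 * ∫ ξ, ‖F ξ - G ξ‖ ^ 2) / (2 * lam)) := by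
    exact cl_fam (P := P) (Finset.range (P.M 0)) (c := fun _ => 1) (y := fun _ => P.y0)
      (φ := fun κ => P.cen 0 κ) (fun _ _ => P.y0_pos) hCs hFG.sp hG.sp hlam0
      (W := fun κ z => P.h G K τ 1 (κ / P.b) z) (fun κ _ => (hh κ).1.measurable)
      fun κ _ x => by
        rw [abs_of_nonneg ((hh κ).2.1 x)]
        exact (hh κ).2.2.1 x
  have t3 := t1.add t2
  have b2 : lam * (C0 * (∫ ξ, ‖F ξ‖ ^ 2) + C0 * ∫ ξ, ‖G ξ‖ ^ 2) +
        (C0 * ∫ ξ, ‖F ξ - G ξ‖ ^ 2) / (2 * lam) ≤ C0 * (2 + (k + 1)) * lam := by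
    rw [hFG.one]
    have h1 := hFG.gap
    have hGle : ∫ ξ, ‖G ξ‖ ^ 2 ≤ 1 := hG.le
    have h2 : (C0 * ∫ ξ, ‖F ξ - G ξ‖ ^ 2) / (2 * lam) ≤ C0 * (k + 1) * lam := by
      rw [div_le_iff₀ (by positivity)]
      have h3 : 2 * (P.k + 1) / (P.q : ℝ) = 2 * (k + 1) * lam ^ 2 := by
        rw [← hqinv, hk]; ring
      rw [h3] at h1
      have := mul_le_mul_of_nonneg_left h1 hC00.le
      nlinarith
    have h4 : lam * (C0 * 1 + C0 * ∫ ξ, ‖G ξ‖ ^ 2) ≤ lam * (C0 * 1 + C0 * 1) := by gcongr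
    nlinarith
  have hle : ∑ i ∈ Finset.Icc 1 P.k, C1 / Real.log P.q +
      (lam * (C0 * (∫ ξ, ‖F ξ‖ ^ 2) + C0 * ∫ ξ, ‖G ξ‖ ^ 2) +
        (C0 * ∫ ξ, ‖F ξ - G ξ‖ ^ 2) / (2 * lam)) ≤
      (k * C1 + C0 * (4 + 2 * (k + 1))) / Real.log P.q := by
    rw [Finset.sum_const, Nat.card_Icc, Nat.add_sub_cancel, nsmul_eq_mul, hk]
    have h1 : C0 * (2 + ((k : ℝ) + 1)) * lam ≤ C0 * (2 + (k + 1)) * (2 / Real.log P.q) :=
      mul_le_mul_of_nonneg_left hlamlog (by positivity)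
    have h2 : (k * C1 + C0 * (4 + 2 * ((k : ℝ) + 1))) / Real.log P.q =
        k * (C1 / Real.log P.q) + C0 * (2 + (k + 1)) * (2 / Real.log P.q) := by ring
    rw [h2]
    linarith
  have t4 := t3.mono hle
  have e1 : ∀ x, P.mm G K F τ x - P.m0 G K G τ x - P.mS G K τ x - P.XS G K τ x -
      P.XA G K τ x = (∑ i ∈ Finset.Icc 1 P.k, ∑ L ∈ Finset.range (P.M (i - 1)),
        pav (P.y i) (dir (P.cen (i - 1) L))
        (fun z => P.cn i * max 0 (P.v G K τ i (L / P.b) z) * ‖P.T F i L z‖ ^ 2) x +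
          P.m0 G K F τ x) -
      (∑ i ∈ Finset.Icc 1 P.k, ((∑ L ∈ Finset.range (P.M (i - 1)),
        P.v G K τ i (L / P.b) x * ‖P.gp G (i - 1) L x‖ ^ 2) +
        ∑ L ∈ Finset.range (P.M (i - 1)), pav (P.y i) (dir (P.cen (i - 1) L))
          (P.xaI G K τ i L) x) + P.m0 G K G τ x) := by
    intro x
    rw [Finset.sum_add_distrib, telescope K hG τ x]
    have e2 : P.XA G K τ x = ∑ i ∈ Finset.Icc 1 P.k, ∑ L ∈ Finset.range (P.M (i - 1)),
        pav (P.y i) (dir (P.cen (i - 1) L)) (P.xaI G K τ i L) x := rfl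
    have e3 : P.mm G K F τ x = ∑ i ∈ Finset.Icc 1 P.k, ∑ L ∈ Finset.range (P.M (i - 1)),
        pav (P.y i) (dir (P.cen (i - 1) L))
        (fun z => P.cn i * max 0 (P.v G K τ i (L / P.b) z) * ‖P.T F i L z‖ ^ 2) x +
          P.m0 G K F τ x := rfl
    rw [e2, e3]
    ring
  simp_rw [e1]
  exact ⟨(t4.left.sub t4.right).int, t4.le⟩

end Par

end REPS
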