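import Pool.Agent.REPS.Defs2

/-! Abstract tools for the row DIAG: averages `pav` in `L¹`, commutators with slowly varying
weights, translates of band limited functions. -/

open MeasureTheory Filter Topology Real Metric FourierTransform
open scoped ENNReal NNReal InnerProductSpace

namespace REPS

open Helper77.TA

namespace Dg

variable {V : Type*} [NormedAddCommGroup V] [InnerProductSpace ℝ V] [FiniteDimensional ℝ V]
  [MeasurableSpace V] [BorelSpace V]

theorem pk_integrable {y : ℝ} (hy : 0 < y) : Integrable (pk y) := by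
  refine ⟨(measurable_pk y).aestronglyMeasurable, ?_⟩
  rw [hasFiniteIntegral_iff_ofReal (Eventually.of_forall (pk_nonneg hy)), lintegral_pk hy]
  exact ENNReal.one_lt_top

theorem pk_integral {y : ℝ} (hy : 0 < y) : ∫ t, pk y t = 1 := by
  rw [integral_eq_lintegral_of_nonneg_ae (Eventually.of_forall (pk_nonneg hy))
    (measurable_pk y).aestronglyMeasurable, lintegral_pk hy]
  rfl

theorem pk_scale {y : ℝ} (hy : 0 < y) (s : ℝ) : pk y (y * s) = y⁻¹ * pk 1 s := by
  unfold pk
  have h1 : (y * s) ^ 2 + y ^ 2 ≠ 0 := by positivity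
  have h2 : s ^ 2 + 1 ^ 2 ≠ 0 := by positivity
  have h3 := Real.pi_pos.ne'
  field_simp

theorem integral_pk_scale {y : ℝ} (hy : 0 < y) (f : ℝ → ℝ) :
    ∫ t, pk y t * f (t / y) = ∫ s, pk 1 s * f s := by
  have h1 : ∀ t, pk y t * f (t / y) = (fun s => y⁻¹ * (pk 1 s * f s)) (t / y) := by
    intro t
    simp only
    rw [← mul_assoc, ← pk_scale hy, mul_div_cancel₀ t hy.ne']
  simp_rw [h1]
  rw [Measure.integral_comp_div (fun s => y⁻¹ * (pk 1 s * f s)) y, integral_const_mul,
    abs_of_pos hy, smul_eq_mul, ← mul_assoc, mul_inv_cancel₀ hy.ne', one_mul]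

theorem integrable_pk_scale {y : ℝ} (hy : 0 < y) {f : ℝ → ℝ}
    (h : Integrable (fun s => pk 1 s * f s)) : Integrable (fun t => pk y t * f (t / y)) := by
  have h1 : ∀ t, pk y t * f (t / y) = (fun s => y⁻¹ * (pk 1 s * f s)) (t / y) := by
    intro t
    simp only
    rw [← mul_assoc, ← pk_scale hy, mul_div_cancel₀ t hy.ne']
  simp_rw [h1]
  exact (h.const_mul _).comp_div hy.ne'

/-- The majorant used for all moments of the kernel. -/
theorem integrable_major : Integrable (fun s : ℝ => (1 + ‖s‖ ^ 2) ^ (-(3 / 2 : ℝ) / 2)) := by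
  apply integrable_rpow_neg_one_add_norm_sq
  norm_num

theorem integrable_pk_log : Integrable (fun s : ℝ => pk 1 s * Real.log (1 + s ^ 2)) := by
  refine Integrable.mono' ((integrable_major).const_mul (4 * π⁻¹)) ?_ ?_
  · refine ((measurable_pk 1).mul ?_).aestronglyMeasurable
    fun_prop
  · filter_upwards with s
    have h0 : 0 < 1 + s ^ 2 := by positivity
    have h1 : 0 ≤ Real.log (1 + s ^ 2) := Real.log_nonneg (by nlinarith [sq_nonneg s])
    have h2 : Real.log (1 + s ^ 2) ≤ 4 * (1 + s ^ 2) ^ (1 / 4 : ℝ) := by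
      have := Real.log_le_rpow_div h0.le (show (0 : ℝ) < 1 / 4 by norm_num)
      linarith
    rw [Real.norm_of_nonneg (mul_nonneg (pk_nonneg one_pos s) h1), Real.norm_eq_abs, sq_abs]
    have h3 : pk 1 s = π⁻¹ * (1 + s ^ 2) ^ (-1 : ℝ) := by
      unfold pk
      rw [Real.rpow_neg_one]
      ring_nf
    have h4 : (1 + s ^ 2) ^ (-(3 / 2 : ℝ) / 2) =
        (1 + s ^ 2) ^ (-1 : ℝ) * (1 + s ^ 2) ^ (1 / 4 : ℝ) := by
      rw [← Real.rpow_add h0]; norm_num
    rw [h3, h4]
    have h5 : 0 ≤ π⁻¹ * (1 + s ^ 2) ^ (-1 : ℝ) := by positivity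
    calc π⁻¹ * (1 + s ^ 2) ^ (-1 : ℝ) * Real.log (1 + s ^ 2)
        ≤ π⁻¹ * (1 + s ^ 2) ^ (-1 : ℝ) * (4 * (1 + s ^ 2) ^ (1 / 4 : ℝ)) :=
          mul_le_mul_of_nonneg_left h2 h5
      _ = _ := by ring

theorem integrable_pk_sqrt : Integrable (fun s : ℝ => pk 1 s * √|s|) := by
  refine Integrable.mono' ((integrable_major).const_mul (π⁻¹)) ?_ ?_
  · refine ((measurable_pk 1).mul ?_).aestronglyMeasurable
    fun_prop
  · filter_upwards with s
    have h0 : 0 < 1 + s ^ 2 := by positivity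
    have h2 : √|s| ≤ (1 + s ^ 2) ^ (1 / 4 : ℝ) := by
      have h3 : |s| ≤ (1 + s ^ 2) ^ (1 / 2 : ℝ) := by
        rw [← Real.sqrt_eq_rpow]
        apply Real.le_sqrt_of_sq_le
        rw [sq_abs]; linarith
      calc √|s| ≤ √((1 + s ^ 2) ^ (1 / 2 : ℝ)) := Real.sqrt_le_sqrt h3
        _ = _ := by
          rw [Real.sqrt_eq_rpow, ← Real.rpow_mul h0.le]; norm_num
    rw [Real.norm_of_nonneg (mul_nonneg (pk_nonneg one_pos s) (Real.sqrt_nonneg _)),
      Real.norm_eq_abs, sq_abs]
    have h3 : pk 1 s = π⁻¹ * (1 + s ^ 2) ^ (-1 : ℝ) := by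
      unfold pk
      rw [Real.rpow_neg_one]
      ring_nf
    have h4 : (1 + s ^ 2) ^ (-(3 / 2 : ℝ) / 2) =
        (1 + s ^ 2) ^ (-1 : ℝ) * (1 + s ^ 2) ^ (1 / 4 : ℝ) := by
      rw [← Real.rpow_add h0]; norm_num
    rw [h3, h4]
    have h5 : 0 ≤ π⁻¹ * (1 + s ^ 2) ^ (-1 : ℝ) := by positivity
    calc π⁻¹ * (1 + s ^ 2) ^ (-1 : ℝ) * √|s|
        ≤ π⁻¹ * (1 + s ^ 2) ^ (-1 : ℝ) * ((1 + s ^ 2) ^ (1 / 4 : ℝ)) :=
          mul_le_mul_of_nonneg_left h2 h5
      _ = _ := by ring

/-- Measurable, bounded and integrable. -/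
structure Nc (u : V → ℝ) : Prop where
  meas : Measurable u
  int : Integrable u
  bdd : ∃ C, ∀ x, |u x| ≤ C

theorem Nc.add {u w : V → ℝ} (hu : Nc u) (hw : Nc w) : Nc (fun x => u x + w x) := by
  obtain ⟨C, hC⟩ := hu.bdd
  obtain ⟨D, hD⟩ := hw.bdd
  refine ⟨hu.meas.add hw.meas, hu.int.add hw.int, C + D, fun x => ?_⟩
  exact (abs_add_le _ _).trans (add_le_add (hC x) (hD x))

theorem Nc.sub {u w : V → ℝ} (hu : Nc u) (hw : Nc w) : Nc (fun x => u x - w x) := by
  obtain ⟨C, hC⟩ := hu.bdd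
  obtain ⟨D, hD⟩ := hw.bdd
  refine ⟨hu.meas.sub hw.meas, hu.int.sub hw.int, C + D, fun x => ?_⟩
  exact (abs_sub _ _).trans (add_le_add (hC x) (hD x))

theorem Nc.sum {ι : Type*} (s : Finset ι) {u : ι → V → ℝ} (hu : ∀ i ∈ s, Nc (u i)) :
    Nc (fun x => ∑ i ∈ s, u i x) := by
  classical
  induction s using Finset.induction_on with
  | empty => exact ⟨by simp, by simp, 0, by simp⟩
  | insert a s ha ih =>
    simp only [Finset.sum_insert ha]
    exact (hu a (Finset.mem_insert_self _ _)).add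
      (ih fun i hi => hu i (Finset.mem_insert_of_mem hi))

theorem Nc.bdd_mul {u w : V → ℝ} (hu : Nc u) (hw : Measurable w) {D : ℝ}
    (hD : ∀ x, |w x| ≤ D) : Nc (fun x => w x * u x) := by
  obtain ⟨C, hC⟩ := hu.bdd
  refine ⟨hw.mul hu.meas, ?_, D * C, fun x => ?_⟩
  · exact hu.int.bdd_mul hw.aestronglyMeasurable
      (Eventually.of_forall fun x => by rw [Real.norm_eq_abs]; exact hD x)
  · rw [abs_mul]
    exact mul_le_mul (hD x) (hC x) (abs_nonneg _) ((abs_nonneg _).trans (hD x))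

theorem Nc.const_mul {u : V → ℝ} (hu : Nc u) (c : ℝ) : Nc (fun x => c * u x) :=
  hu.bdd_mul measurable_const (D := |c|) fun _ => le_rfl

theorem Nc.abs {u : V → ℝ} (hu : Nc u) : Nc (fun x => |u x|) := by
  obtain ⟨C, hC⟩ := hu.bdd
  exact ⟨hu.meas.abs, hu.int.abs, C, fun x => by rw [abs_abs]; exact hC x⟩

theorem measurable_line (ω : V) : Measurable fun p : V × ℝ => p.1 - p.2 • ω :=
  measurable_fst.sub (measurable_snd.smul_const ω)

theorem slice_int {y : ℝ} (hy : 0 < y) (ω : V) {u : V → ℝ} (hu : Measurable u) {C : ℝ}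
    (hC : ∀ x, |u x| ≤ C) (x : V) : Integrable (fun t => pk y t * u (x - t • ω)) := by
  have h := (pk_integrable hy).bdd_mul (f := fun t => u (x - t • ω)) (c := C)
    (hu.comp (measurable_const.sub (measurable_id.smul_const ω))).aestronglyMeasurable
    (Eventually.of_forall fun t => by rw [Real.norm_eq_abs]; exact hC _)
  refine h.congr (Eventually.of_forall fun t => ?_)
  simp only
  ring

theorem Nc.slice {u : V → ℝ} (hu : Nc u) {y : ℝ} (hy : 0 < y) (ω x : V) :
    Integrable (fun t => pk y t * u (x - t • ω)) := by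
  obtain ⟨C, hC⟩ := hu.bdd
  exact slice_int hy ω hu.meas hC x

theorem Nc.prod {u : V → ℝ} (hu : Nc u) {y : ℝ} (hy : 0 < y) (ω : V) :
    Integrable (fun p : V × ℝ => pk y p.2 * u (p.1 - p.2 • ω)) (volume.prod volume) := by
  have hm : Measurable (fun p : V × ℝ => pk y p.2 * u (p.1 - p.2 • ω)) :=
    ((measurable_pk y).comp measurable_snd).mul (hu.meas.comp (measurable_line ω))
  rw [integrable_prod_iff' hm.aestronglyMeasurable]
  constructor
  · filter_upwards with t
    exact (hu.int.comp_sub_right (t • ω)).const_mul _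
  · have h1 : ∀ t, ∫ x, ‖pk y t * u (x - t • ω)‖ = pk y t * ∫ x, ‖u x‖ := by
      intro t
      simp_rw [norm_mul]
      rw [integral_const_mul, integral_sub_right_eq_self (fun x => ‖u x‖) (t • ω),
        Real.norm_of_nonneg (pk_nonneg hy t)]
    simp_rw [h1]
    exact (pk_integrable hy).mul_const _

theorem Nc.pav {u : V → ℝ} (hu : Nc u) {y : ℝ} (hy : 0 < y) (ω : V) : Nc (pav y ω u) := by
  obtain ⟨C, hC⟩ := hu.bdd
  refine ⟨?_, ?_, C, fun x => ?_⟩
  · have hm : Measurable (fun p : V × ℝ => pk y p.2 * u (p.1 - p.2 • ω)) :=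
      ((measurable_pk y).comp measurable_snd).mul (hu.meas.comp (measurable_line ω))
    exact (hm.stronglyMeasurable.integral_prod_right').measurable
  · exact (hu.prod hy ω).integral_prod_left
  · calc |REPS.pav y ω u x| ≤ ∫ t, ‖pk y t * u (x - t • ω)‖ :=
          norm_integral_le_integral_norm (fun t => pk y t * u (x - t • ω))
      _ ≤ ∫ t, pk y t * C := by
          apply integral_mono (hu.slice hy ω x).norm ((pk_integrable hy).mul_const _)
          intro t
          simp only [norm_mul, Real.norm_of_nonneg (pk_nonneg hy t), Real.norm_eq_abs]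
          exact mul_le_mul_of_nonneg_left (hC _) (pk_nonneg hy t)
      _ = C := by rw [integral_mul_const, pk_integral hy, one_mul]

theorem Nc.integral_pav {u : V → ℝ} (hu : Nc u) {y : ℝ} (hy : 0 < y) (ω : V) :
    ∫ x, REPS.pav y ω u x = ∫ x, u x := by
  unfold REPS.pav
  rw [integral_integral_swap (f := fun x t => pk y t * u (x - t • ω)) (hu.prod hy ω)]
  have h1 : ∀ t, ∫ x, pk y t * u (x - t • ω) = pk y t * ∫ x, u x := by
    intro t
    rw [integral_const_mul, integral_sub_right_eq_self u (t • ω)]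
  simp_rw [h1]
  rw [integral_mul_const, pk_integral hy, one_mul]

omit [FiniteDimensional ℝ V] [MeasurableSpace V] [BorelSpace V] in
theorem pav_nonneg {y : ℝ} (hy : 0 < y) (ω : V) {u : V → ℝ} (hu : ∀ x, 0 ≤ u x) (x : V) :
    0 ≤ REPS.pav y ω u x :=
  integral_nonneg fun t => mul_nonneg (pk_nonneg hy t) (hu _)

theorem Nc.pav_sub {u w : V → ℝ} (hu : Nc u) (hw : Nc w) {y : ℝ} (hy : 0 < y) (ω x : V) :
    REPS.pav y ω (fun z => u z - w z) x = REPS.pav y ω u x - REPS.pav y ω w x := by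
  unfold REPS.pav
  rw [← integral_sub (hu.slice hy ω x) (hw.slice hy ω x)]
  congr 1
  ext t
  ring

theorem Nc.pav_add {u w : V → ℝ} (hu : Nc u) (hw : Nc w) {y : ℝ} (hy : 0 < y) (ω x : V) :
    REPS.pav y ω (fun z => u z + w z) x = REPS.pav y ω u x + REPS.pav y ω w x := by
  unfold REPS.pav
  rw [← integral_add (hu.slice hy ω x) (hw.slice hy ω x)]
  congr 1
  ext t
  ring

omit [FiniteDimensional ℝ V] [MeasurableSpace V] [BorelSpace V] in
theorem pav_const_mul (y : ℝ) (ω : V) (c : ℝ) (u : V → ℝ) (x : V) :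
    REPS.pav y ω (fun z => c * u z) x = c * REPS.pav y ω u x := by
  unfold REPS.pav
  rw [← integral_const_mul]
  congr 1
  ext t
  ring

theorem pav_sum {ι : Type*} (s : Finset ι) {u : ι → V → ℝ} (hu : ∀ i ∈ s, Nc (u i)) {y : ℝ}
    (hy : 0 < y) (ω x : V) :
    REPS.pav y ω (fun z => ∑ i ∈ s, u i z) x = ∑ i ∈ s, REPS.pav y ω (u i) x := by
  unfold REPS.pav
  rw [← integral_finsetSum s fun i hi => (hu i hi).slice hy ω x]
  congr 1
  ext t
  rw [Finset.mul_sum]

theorem Nc.integral_abs_pav_le {u : V → ℝ} (hu : Nc u) {y : ℝ} (hy : 0 < y) (ω : V) :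
    ∫ x, |REPS.pav y ω u x| ≤ ∫ x, |u x| := by
  rw [← hu.abs.integral_pav hy ω]
  apply integral_mono (hu.pav hy ω).abs.int (hu.abs.pav hy ω).int
  intro x
  simp only
  unfold REPS.pav
  refine (abs_integral_le_integral_abs).trans_eq ?_
  congr 1
  ext t
  rw [abs_mul, abs_of_nonneg (pk_nonneg hy t)]

/-- `L¹` bound of averages of a family of functions. -/
theorem L1_swap {y : ℝ} (hy : 0 < y) {Φ : V → ℝ → ℝ} (hΦ : Measurable (Function.uncurry Φ))
    {η : ℝ → ℝ} (hη : Integrable (fun t => pk y t * η t))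
    (hΦi : ∀ t, Integrable (fun x => Φ x t)) (hb : ∀ t, ∫ x, |Φ x t| ≤ η t) :
    ∫ x, |∫ t, pk y t * Φ x t| ≤ ∫ t, pk y t * η t := by
  have hη0 : ∀ t, 0 ≤ η t := fun t => (integral_nonneg fun x => abs_nonneg _).trans (hb t)
  have hm : Measurable (fun p : V × ℝ => pk y p.2 * Φ p.1 p.2) :=
    ((measurable_pk y).comp measurable_snd).mul hΦ
  have h1 : ∫⁻ x, ‖∫ t, pk y t * Φ x t‖ₑ ≤ ∫⁻ t, ENNReal.ofReal (pk y t * η t) := by
    calc ∫⁻ x, ‖∫ t, pk y t * Φ x t‖ₑ ≤ ∫⁻ x, ∫⁻ t, ‖pk y t * Φ x t‖ₑ :=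
          lintegral_mono fun x => enorm_integral_le_lintegral_enorm _
      _ = ∫⁻ t, ∫⁻ x, ‖pk y t * Φ x t‖ₑ :=
          lintegral_lintegral_swap (f := fun x t => ‖pk y t * Φ x t‖ₑ) hm.enorm.aemeasurable
      _ ≤ ∫⁻ t, ENNReal.ofReal (pk y t * η t) := by
          refine lintegral_mono fun t => ?_
          simp only
          have h2 : ∫⁻ x, ‖pk y t * Φ x t‖ₑ = ENNReal.ofReal (∫ x, ‖pk y t * Φ x t‖) := by
            rw [ofReal_integral_eq_lintegral_ofReal ((hΦi t).const_mul _).norm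
              (Eventually.of_forall fun x => norm_nonneg _)]
            congr 1
            ext x
            rw [ofReal_norm]
          rw [h2]
          apply ENNReal.ofReal_le_ofReal
          simp_rw [norm_mul, Real.norm_of_nonneg (pk_nonneg hy t), Real.norm_eq_abs]
          rw [integral_const_mul]
          exact mul_le_mul_of_nonneg_left (hb t) (pk_nonneg hy t)
  have h3 : ∫ x, |∫ t, pk y t * Φ x t| = (∫⁻ x, ‖∫ t, pk y t * Φ x t‖ₑ).toReal := by
    rw [← integral_norm_eq_lintegral_enorm]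
    · rfl
    · exact (hm.stronglyMeasurable.integral_prod_right').aestronglyMeasurable
  rw [h3, integral_eq_lintegral_of_nonneg_ae
    (Eventually.of_forall fun t => mul_nonneg (pk_nonneg hy t) (hη0 t)) hη.aestronglyMeasurable]
  apply ENNReal.toReal_mono _ h1
  rw [← ofReal_integral_eq_lintegral_ofReal hη
    (Eventually.of_forall fun t => mul_nonneg (pk_nonneg hy t) (hη0 t))]
  exact ENNReal.ofReal_ne_top

/-- Slowly varying weights commute with averages. -/
theorem comm_weight {y : ℝ} (hy : 0 < y) (ω : V) {w u : V → ℝ} (hw : Measurable w)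
    (hw1 : ∀ x, |w x| ≤ 1) (hu : Nc u) (hu0 : ∀ x, 0 ≤ u x) {C lq : ℝ} (hC : 0 ≤ C)
    (hlq : 0 < lq)
    (hs : ∀ x t, |w (x - t • ω) - w x| ≤ (C + C * Real.log (1 + (t / y) ^ 2)) / lq) :
    ∫ x, |REPS.pav y ω (fun z => w z * u z) x - w x * REPS.pav y ω u x| ≤
      C * (1 + ∫ s, pk 1 s * Real.log (1 + s ^ 2)) / lq * ∫ x, u x := by
  set η : ℝ → ℝ := fun t => (C + C * Real.log (1 + (t / y) ^ 2)) / lq * ∫ x, u x with hη
  have hηi : Integrable (fun t => pk y t * η t) := by
    have h1 := integrable_pk_scale hy integrable_pk_log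
    have h2 : Integrable (fun t => (C * pk y t + C * (pk y t * Real.log (1 + (t / y) ^ 2))) *
        (lq⁻¹ * ∫ x, u x)) :=
      (((pk_integrable hy).const_mul C).add (h1.const_mul C)).mul_const _
    refine h2.congr (Eventually.of_forall fun t => ?_)
    simp only [hη]
    ring
  have hΦm : Measurable (Function.uncurry fun (x : V) (t : ℝ) =>
      (w (x - t • ω) - w x) * u (x - t • ω)) :=
    ((hw.comp (measurable_line ω)).sub (hw.comp measurable_fst)).mul
      (hu.meas.comp (measurable_line ω))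
  have hΦi : ∀ t : ℝ, Integrable (fun x => (w (x - t • ω) - w x) * u (x - t • ω)) := by
    intro t
    have h1 := (hu.int.comp_sub_right (t • ω))
    refine h1.bdd_mul (c := 2) ?_ (Eventually.of_forall fun x => ?_)
    · exact ((hw.comp (measurable_id.sub_const _)).sub hw).aestronglyMeasurable
    · rw [Real.norm_eq_abs]
      exact (abs_sub _ _).trans (by linarith [hw1 (x - t • ω), hw1 x])
  have key := L1_swap hy hΦm hηi hΦi (fun t => by
    calc ∫ x, |(w (x - t • ω) - w x) * u (x - t • ω)|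
        ≤ ∫ x, (C + C * Real.log (1 + (t / y) ^ 2)) / lq * u (x - t • ω) := by
          apply integral_mono (hΦi t).abs ((hu.int.comp_sub_right (t • ω)).const_mul _)
          intro x
          simp only [abs_mul, abs_of_nonneg (hu0 (x - t • ω))]
          exact mul_le_mul_of_nonneg_right (hs x t) (hu0 _)
      _ = η t := by
          rw [integral_const_mul, integral_sub_right_eq_self u (t • ω)])
  have e1 : ∀ x, REPS.pav y ω (fun z => w z * u z) x - w x * REPS.pav y ω u x =
      ∫ t, pk y t * ((w (x - t • ω) - w x) * u (x - t • ω)) := by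
    intro x
    unfold REPS.pav
    rw [← integral_const_mul, ← integral_sub ((hu.bdd_mul hw hw1).slice hy ω x)
      ((hu.slice hy ω x).const_mul _)]
    congr 1
    ext t
    ring
  simp_rw [e1]
  refine key.trans_eq ?_
  have e2 : ∀ t, pk y t * η t = (C * pk y t + C * (pk y t * Real.log (1 + (t / y) ^ 2))) *
        (lq⁻¹ * ∫ x, u x) := by
    intro t
    simp only [hη]
    ring
  simp_rw [e2]
  rw [integral_mul_const, integral_add ((pk_integrable hy).const_mul C)
    ((integrable_pk_scale hy integrable_pk_log).const_mul C), integral_const_mul,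
    integral_const_mul, pk_integral hy, integral_pk_scale hy (fun s => Real.log (1 + s ^ 2))]
  ring

end Dg

end REPS
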