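import Pool.Agent.REPS.DiagA

/-! Second part of the tools for the row DIAG: squares of `L²` functions, translates of band
limited functions. -/

open MeasureTheory Filter Topology Real Metric FourierTransform
open scoped ENNReal NNReal InnerProductSpace

namespace REPS

open Helper77.TA

namespace Dg

variable {V : Type*} [NormedAddCommGroup V] [InnerProductSpace ℝ V] [FiniteDimensional ℝ V]
  [MeasurableSpace V] [BorelSpace V]

theorem planch {a : V → ℂ} (h1 : Integrable a) (h2 : MemLp a 2) :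
    Integrable (fun x => ‖𝓕⁻ a x‖ ^ 2) ∧ ∫ x, ‖𝓕⁻ a x‖ ^ 2 = ∫ ξ, ‖a ξ‖ ^ 2 := by
  have hp := plancherel h1 h2
  have hc : Continuous (𝓕⁻ a) := continuous_fourierInv h1
  have e1 : ∫⁻ x, ENNReal.ofReal (‖𝓕⁻ a x‖ ^ 2) = ∫⁻ x, ‖𝓕⁻ a x‖ₑ ^ 2 := by
    congr 1; ext x
    rw [ENNReal.ofReal_pow (norm_nonneg _), ofReal_norm]
  have hi : Integrable (fun ξ => ‖a ξ‖ ^ 2) := h2.integrable_norm_pow (by norm_num)
  have e2 : ∫⁻ ξ, ENNReal.ofReal (‖a ξ‖ ^ 2) = ∫⁻ ξ, ‖a ξ‖ₑ ^ 2 := by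
    congr 1; ext x
    rw [ENNReal.ofReal_pow (norm_nonneg _), ofReal_norm]
  have e3 : ENNReal.ofReal (∫ ξ, ‖a ξ‖ ^ 2) = ∫⁻ ξ, ‖a ξ‖ₑ ^ 2 := by
    rw [ofReal_integral_eq_lintegral_ofReal hi (Eventually.of_forall fun x => by positivity), e2]
  constructor
  · refine ⟨(hc.norm.pow 2).aestronglyMeasurable, ?_⟩
    rw [hasFiniteIntegral_iff_ofReal (Eventually.of_forall fun x => by positivity), e1, hp, ← e3]
    exact ENNReal.ofReal_lt_top
  · have hm : AEStronglyMeasurable (fun x => ‖𝓕⁻ a x‖ ^ 2) volume :=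
      (hc.norm.pow 2).aestronglyMeasurable
    rw [integral_eq_lintegral_of_nonneg_ae (Eventually.of_forall fun x => by positivity) hm,
      e1, hp, ← e3, ENNReal.toReal_ofReal]
    exact integral_nonneg fun x => by positivity

theorem memLp_inv {a : V → ℂ} (h1 : Integrable a) (h2 : MemLp a 2) : MemLp (𝓕⁻ a) 2 := by
  rw [memLp_two_iff_integrable_sq_norm (continuous_fourierInv h1).aestronglyMeasurable]
  exact (planch h1 h2).1

omit [InnerProductSpace ℝ V] [FiniteDimensional ℝ V] [BorelSpace V] in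
theorem abs_sq_sub_le (u w : ℂ) : |‖u‖ ^ 2 - ‖w‖ ^ 2| ≤ ‖u - w‖ ^ 2 + 2 * (‖u - w‖ * ‖w‖) := by
  have h1 : |‖u‖ - ‖w‖| ≤ ‖u - w‖ := abs_norm_sub_norm_le u w
  have h2 := abs_le.mp h1
  rw [abs_le]
  constructor <;> nlinarith [norm_nonneg u, norm_nonneg w, norm_nonneg (u - w)]

theorem abs_sq_sub_le' (u w : ℂ) {lam : ℝ} (hl : 0 < lam) :
    |‖u‖ ^ 2 - ‖w‖ ^ 2| ≤ lam * (‖u‖ ^ 2 + ‖w‖ ^ 2) + ‖u - w‖ ^ 2 / (2 * lam) := by
  have h1 : |‖u‖ - ‖w‖| ≤ ‖u - w‖ := abs_norm_sub_norm_le u w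
  set x := ‖u - w‖ with hx
  set y := ‖u‖ + ‖w‖ with hy
  have h3 : |‖u‖ ^ 2 - ‖w‖ ^ 2| ≤ x * y := by
    have e : ‖u‖ ^ 2 - ‖w‖ ^ 2 = (‖u‖ - ‖w‖) * y := by rw [hy]; ring
    have hy0 : 0 ≤ y := by positivity
    rw [e, abs_mul, abs_of_nonneg hy0]
    exact mul_le_mul_of_nonneg_right h1 hy0
  have h4 : y ^ 2 ≤ 2 * (‖u‖ ^ 2 + ‖w‖ ^ 2) := by
    rw [hy]; nlinarith [sq_nonneg (‖u‖ - ‖w‖)]
  have h5 : x * y ≤ lam / 2 * y ^ 2 + x ^ 2 / (2 * lam) := by
    have h6 : 0 ≤ (lam * y - x) ^ 2 / (2 * lam) := by positivity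
    have h7 : (lam * y - x) ^ 2 / (2 * lam) = lam / 2 * y ^ 2 + x ^ 2 / (2 * lam) - x * y := by
      field_simp
      ring
    linarith
  nlinarith

theorem cs {f g : V → ℂ} (hf : MemLp f 2) (hg : MemLp g 2) {a b : ℝ} (ha : 0 ≤ a) (hb : 0 ≤ b)
    (h1 : ∫ x, ‖f x‖ ^ 2 ≤ a ^ 2) (h2 : ∫ x, ‖g x‖ ^ 2 ≤ b ^ 2) :
    ∫ x, ‖f x‖ * ‖g x‖ ≤ a * b := by
  have h2c : (2 : ℝ).HolderConjugate 2 := by
    rw [Real.holderConjugate_iff]; norm_num
  have h := integral_mul_le_Lp_mul_Lq_of_nonneg (μ := (volume : Measure V)) h2c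
    (f := fun x => ‖f x‖) (g := fun x => ‖g x‖)
    (Eventually.of_forall fun x => norm_nonneg _) (Eventually.of_forall fun x => norm_nonneg _)
    (by simpa using hf.norm) (by simpa using hg.norm)
  refine h.trans ?_
  have e : ∀ u : V → ℂ, (∫ x, ‖u x‖ ^ (2 : ℝ)) ^ (1 / (2 : ℝ)) = √(∫ x, ‖u x‖ ^ 2) := by
    intro u
    rw [← Real.sqrt_eq_rpow]
    congr 1
    congr 1
    ext x
    exact Real.rpow_natCast _ 2 ▸ rfl
  rw [e, e]
  have h3 : √(∫ x, ‖f x‖ ^ 2) ≤ a := Real.sqrt_le_iff.mpr ⟨ha, h1⟩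
  have h4 : √(∫ x, ‖g x‖ ^ 2) ≤ b := Real.sqrt_le_iff.mpr ⟨hb, h2⟩
  exact mul_le_mul h3 h4 (Real.sqrt_nonneg _) ha

theorem int_sq {f : V → ℂ} (hf : MemLp f 2) : Integrable (fun x => ‖f x‖ ^ 2) :=
  hf.integrable_norm_pow (by norm_num)

theorem int_mul {f g : V → ℂ} (hf : MemLp f 2) (hg : MemLp g 2) :
    Integrable (fun x => ‖f x‖ * ‖g x‖) := by
  have := MemLp.integrable_mul hf.norm hg.norm
  exact this

theorem sq_diff {f g : V → ℂ} (hf : MemLp f 2) (hg : MemLp g 2) {a b : ℝ} (ha : 0 ≤ a)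
    (hb : 0 ≤ b) (h1 : ∫ x, ‖f x - g x‖ ^ 2 ≤ a ^ 2) (h2 : ∫ x, ‖g x‖ ^ 2 ≤ b ^ 2) :
    ∫ x, |‖f x‖ ^ 2 - ‖g x‖ ^ 2| ≤ a ^ 2 + 2 * (a * b) := by
  have hd : MemLp (fun x => f x - g x) 2 := hf.sub hg
  calc ∫ x, |‖f x‖ ^ 2 - ‖g x‖ ^ 2|
      ≤ ∫ x, (‖f x - g x‖ ^ 2 + 2 * (‖f x - g x‖ * ‖g x‖)) :=
        integral_mono ((int_sq hf).sub (int_sq hg)).abs
          ((int_sq hd).add ((int_mul hd hg).const_mul 2)) fun x => abs_sq_sub_le _ _
    _ = (∫ x, ‖f x - g x‖ ^ 2) + 2 * ∫ x, ‖f x - g x‖ * ‖g x‖ := by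
        rw [integral_add (int_sq hd) ((int_mul hd hg).const_mul 2), integral_const_mul]
    _ ≤ _ := by
        have := cs hd hg ha hb h1 h2
        linarith

theorem sq_diff' {f g : V → ℂ} (hf : MemLp f 2) (hg : MemLp g 2) {lam : ℝ} (hl : 0 < lam) :
    ∫ x, |‖f x‖ ^ 2 - ‖g x‖ ^ 2| ≤ lam * ((∫ x, ‖f x‖ ^ 2) + ∫ x, ‖g x‖ ^ 2) +
      (∫ x, ‖f x - g x‖ ^ 2) / (2 * lam) := by
  have hd : MemLp (fun x => f x - g x) 2 := hf.sub hg
  have hs : Integrable (fun x => ‖f x‖ ^ 2 + ‖g x‖ ^ 2) := (int_sq hf).add (int_sq hg)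
  have hd' : Integrable (fun x => ‖f x - g x‖ ^ 2 / (2 * lam)) := (int_sq hd).div_const _
  calc ∫ x, |‖f x‖ ^ 2 - ‖g x‖ ^ 2|
      ≤ ∫ x, (lam * (‖f x‖ ^ 2 + ‖g x‖ ^ 2) + ‖f x - g x‖ ^ 2 / (2 * lam)) :=
        integral_mono ((int_sq hf).sub (int_sq hg)).abs ((hs.const_mul lam).add hd')
          fun x => abs_sq_sub_le' _ _ hl
    _ = _ := by
        rw [integral_add (hs.const_mul lam) hd', integral_const_mul,
          integral_add (int_sq hf) (int_sq hg), integral_div]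

/-- Translates of a band limited function, up to a modulation. -/
theorem trans_sq {G : V → ℂ} (h1 : Integrable G) (h2 : MemLp G 2) {ω c : V} {Λ : ℝ}
    (hΛ : 0 ≤ Λ) (hsupp : ∀ ξ, G ξ ≠ 0 → |⟪ξ - c, ω⟫_ℝ| ≤ Λ) (t : ℝ) :
    ∫ x, |‖𝓕⁻ G (x - t • ω)‖ ^ 2 - ‖𝓕⁻ G x‖ ^ 2| ≤
      8 * min 1 √(π * |t| * Λ) * ∫ ξ, ‖G ξ‖ ^ 2 := by
  set N := ∫ ξ, ‖G ξ‖ ^ 2 with hN
  have hN0 : 0 ≤ N := integral_nonneg fun ξ => by positivity
  set m : V → ℂ := fun ξ => Complex.exp ((2 * π * (-(t * ⟪ξ - c, ω⟫_ℝ)) : ℝ) * Complex.I) - 1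
    with hm
  set β : ℝ := 2 * min 1 (π * |t| * Λ) with hβ
  have hπ := Real.pi_pos
  have hβ0 : 0 ≤ β := by positivity
  have hmb : ∀ ξ, G ξ ≠ 0 → ‖m ξ‖ ≤ β := by
    intro ξ hξ
    rw [hβ, mul_min_of_nonneg _ _ (by norm_num : (0 : ℝ) ≤ 2)]
    apply le_min
    · calc ‖m ξ‖ ≤ ‖Complex.exp ((2 * π * (-(t * ⟪ξ - c, ω⟫_ℝ)) : ℝ) * Complex.I)‖ +
            ‖(1 : ℂ)‖ := norm_sub_le _ _
        _ = 2 * 1 := by rw [Complex.norm_exp_ofReal_mul_I, norm_one]; norm_num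
    · have h3 := Real.norm_exp_I_mul_ofReal_sub_one_le (x := 2 * π * (-(t * ⟪ξ - c, ω⟫_ℝ)))
      have h4 : ‖m ξ‖ ≤ ‖2 * π * (-(t * ⟪ξ - c, ω⟫_ℝ))‖ := by
        rw [hm]
        simp only
        rw [mul_comm]
        exact h3
      refine h4.trans ?_
      rw [Real.norm_eq_abs, abs_mul, abs_of_pos (by positivity : (0 : ℝ) < 2 * π), abs_neg,
        abs_mul]
      have h5 := mul_le_mul_of_nonneg_left (hsupp ξ hξ) (by positivity : 0 ≤ 2 * π * |t|)
      nlinarith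
  have hmc : Continuous m := by
    rw [hm]
    fun_prop
  have ha1 : Integrable (fun ξ => m ξ * G ξ) := by
    refine Integrable.mono' (h1.norm.const_mul β)
      (hmc.aestronglyMeasurable.mul h1.aestronglyMeasurable) (Eventually.of_forall fun ξ => ?_)
    by_cases h0 : G ξ = 0
    · simp [h0]
    · rw [norm_mul]; exact mul_le_mul_of_nonneg_right (hmb ξ h0) (norm_nonneg _)
  have ha2 : MemLp (fun ξ => m ξ * G ξ) 2 := by
    refine MemLp.mono (h2.const_mul (β : ℂ)) (hmc.aestronglyMeasurable.mul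
      h1.aestronglyMeasurable) (Eventually.of_forall fun ξ => ?_)
    by_cases h0 : G ξ = 0
    · simp [h0]
    · simp only [norm_mul]
      rw [Complex.norm_real, Real.norm_of_nonneg hβ0]
      exact mul_le_mul_of_nonneg_right (hmb ξ h0) (norm_nonneg _)
  have hgL := memLp_inv h1 h2
  set e0 : ℂ := Complex.exp ((2 * π * (t * ⟪c, ω⟫_ℝ) : ℝ) * Complex.I) with he0
  have he0n : ‖e0‖ = 1 := by rw [he0, Complex.norm_exp_ofReal_mul_I]
  have hU : ∀ x, e0 * 𝓕⁻ G (x - t • ω) - 𝓕⁻ G x = 𝓕⁻ (fun ξ => m ξ * G ξ) x := by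
    intro x
    rw [fourierInv_formula, fourierInv_formula, fourierInv_formula, ← integral_const_mul,
      ← integral_sub]
    · congr 1
      ext ξ
      simp only [hm, he0]
      have e1 : Complex.exp ((2 * π * (t * ⟪c, ω⟫_ℝ) : ℝ) * Complex.I) *
          (Complex.exp (2 * π * ⟪ξ, x - t • ω⟫_ℝ * Complex.I) * G ξ) =
          Complex.exp (2 * π * ⟪ξ, x⟫_ℝ * Complex.I) *
          (Complex.exp ((2 * π * (-(t * ⟪ξ - c, ω⟫_ℝ)) : ℝ) * Complex.I) * G ξ) := by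
        rw [← mul_assoc (Complex.exp _), ← mul_assoc (Complex.exp _), ← Complex.exp_add,
          ← Complex.exp_add, inner_sub_right, inner_smul_right, inner_sub_left]
        congr 2
        push_cast
        ring
      rw [e1]
      ring
    · refine Integrable.const_mul ?_ _
      refine Integrable.mono' h1.norm ?_ (Eventually.of_forall fun ξ => ?_)
      · refine AEStronglyMeasurable.mul ?_ h1.aestronglyMeasurable
        apply Continuous.aestronglyMeasurable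
        fun_prop
      · have : (2 * π * ⟪ξ, x - t • ω⟫_ℝ * Complex.I : ℂ) =
            ((2 * π * ⟪ξ, x - t • ω⟫_ℝ : ℝ) : ℂ) * Complex.I := by
          push_cast; ring
        rw [norm_mul, this, Complex.norm_exp_ofReal_mul_I, one_mul]
    · refine Integrable.mono' h1.norm ?_ (Eventually.of_forall fun ξ => ?_)
      · refine AEStronglyMeasurable.mul ?_ h1.aestronglyMeasurable
        apply Continuous.aestronglyMeasurable
        fun_prop
      · have : (2 * π * ⟪ξ, x⟫_ℝ * Complex.I : ℂ) =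
            ((2 * π * ⟪ξ, x⟫_ℝ : ℝ) : ℂ) * Complex.I := by
          push_cast; ring
        rw [norm_mul, this, Complex.norm_exp_ofReal_mul_I, one_mul]
  have hshift : MemLp (fun x => 𝓕⁻ G (x - t • ω)) 2 :=
    hgL.comp_measurePreserving (measurePreserving_sub_right volume (t • ω))
  have hfL : MemLp (fun x => e0 * 𝓕⁻ G (x - t • ω)) 2 := hshift.const_mul e0
  have key := sq_diff hfL hgL (a := β * √N) (b := √N) (by positivity) (by positivity) (by
    simp_rw [hU]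
    rw [(planch ha1 ha2).2, mul_pow, Real.sq_sqrt hN0, hN, ← integral_const_mul]
    apply integral_mono (int_sq ha2) ((int_sq h2).const_mul _)
    intro ξ
    simp only [norm_mul, mul_pow]
    by_cases h0 : G ξ = 0
    · simp [h0]
    · have := hmb ξ h0
      gcongr) (by
    rw [(planch h1 h2).2, Real.sq_sqrt hN0])
  have e3 : ∀ x, ‖e0 * 𝓕⁻ G (x - t • ω)‖ = ‖𝓕⁻ G (x - t • ω)‖ := by
    intro x
    rw [norm_mul, he0n, one_mul]
  simp_rw [e3] at key
  refine key.trans ?_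
  have h6 : (β * √N) ^ 2 + 2 * (β * √N * √N) = (β ^ 2 + 2 * β) * N := by
    have := Real.sq_sqrt hN0
    nlinarith
  rw [h6]
  apply mul_le_mul_of_nonneg_right _ hN0
  have h7 : β ≤ 2 * min 1 √(π * |t| * Λ) := by
    rw [hβ]
    apply mul_le_mul_of_nonneg_left _ (by norm_num)
    set z := π * |t| * Λ with hz
    have hz0 : 0 ≤ z := by positivity
    rcases le_total z 1 with h | h
    · rw [min_eq_right h]
      apply le_min h
      apply Real.le_sqrt_of_sq_le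
      nlinarith
    · rw [min_eq_left h, min_eq_left (Real.one_le_sqrt.mpr h)]
  have h8 : β ≤ 2 := by
    rw [hβ]
    have := min_le_left 1 (π * |t| * Λ)
    linarith
  nlinarith

/-- The `L¹` modulus of continuity of averages of squares of band limited functions. -/
theorem pav_trans : ∃ C : ℝ, 0 < C ∧ ∀ {G : V → ℂ}, Integrable G → MemLp G 2 → ∀ {ω c : V}
    {Λ : ℝ}, 0 ≤ Λ → (∀ ξ, G ξ ≠ 0 → |⟪ξ - c, ω⟫_ℝ| ≤ Λ) → ∀ {y : ℝ}, 0 < y →
    ∫ x, |REPS.pav y ω (fun z => ‖𝓕⁻ G z‖ ^ 2) x - ‖𝓕⁻ G x‖ ^ 2| ≤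
      C * min 1 √(y * Λ) * ∫ ξ, ‖G ξ‖ ^ 2 := by
  set S := ∫ s : ℝ, pk 1 s * √|s| with hS
  have hS0 : 0 ≤ S := integral_nonneg fun s => mul_nonneg (pk_nonneg one_pos s) (Real.sqrt_nonneg _)
  refine ⟨8 * (1 + √π * S), by positivity, ?_⟩
  intro G h1 h2 ω c Λ hΛ hsupp y hy
  set N := ∫ ξ, ‖G ξ‖ ^ 2 with hN
  have hN0 : 0 ≤ N := integral_nonneg fun ξ => by positivity
  have hc : Continuous (𝓕⁻ G) := continuous_fourierInv h1
  obtain ⟨hi, hpl⟩ := planch h1 h2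
  have hbd : ∃ C, ∀ x, |‖𝓕⁻ G x‖ ^ 2| ≤ C := by
    refine ⟨(∫ ξ, ‖G ξ‖) ^ 2, fun x => ?_⟩
    rw [abs_of_nonneg (by positivity)]
    have : ‖𝓕⁻ G x‖ ≤ ∫ ξ, ‖G ξ‖ := by
      rw [fourierInv_formula]
      apply norm_integral_le_of_norm_le h1.norm
      filter_upwards with ξ
      have : (2 * π * ⟪ξ, x⟫_ℝ * Complex.I : ℂ) = ((2 * π * ⟪ξ, x⟫_ℝ : ℝ) : ℂ) * Complex.I := by
        push_cast; ring
      rw [norm_mul, this, Complex.norm_exp_ofReal_mul_I, one_mul]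
    gcongr
  have hNc : Nc (fun x => ‖𝓕⁻ G x‖ ^ 2) := ⟨(hc.norm.pow 2).measurable, hi, hbd⟩
  set Φ : V → ℝ → ℝ := fun x t => ‖𝓕⁻ G (x - t • ω)‖ ^ 2 - ‖𝓕⁻ G x‖ ^ 2 with hΦ
  have hΦm : Measurable (Function.uncurry Φ) :=
    (hNc.meas.comp (measurable_line ω)).sub (hNc.meas.comp measurable_fst)
  have hΦi : ∀ t : ℝ, Integrable (fun x => Φ x t) := fun t =>
    (hi.comp_sub_right (t • ω)).sub hi
  set η : ℝ → ℝ := fun t => 8 * min 1 √(π * |t| * Λ) * N with hη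
  have hηm : Measurable η := by
    rw [hη]
    fun_prop
  have hη0 : ∀ t, 0 ≤ η t := fun t => by simp only [hη]; positivity
  have hη1 : ∀ t, η t ≤ 8 * N := by
    intro t
    simp only [hη]
    have := min_le_left 1 √(π * |t| * Λ)
    nlinarith
  have hηi : Integrable (fun t => pk y t * η t) := by
    have h := (pk_integrable hy).bdd_mul (f := η) (c := 8 * N) hηm.aestronglyMeasurable
      (Eventually.of_forall fun t => by rw [Real.norm_of_nonneg (hη0 t)]; exact hη1 t)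
    refine h.congr (Eventually.of_forall fun t => ?_)
    simp only
    ring
  have key := L1_swap hy hΦm hηi hΦi fun t => trans_sq h1 h2 hΛ hsupp t
  have e1 : ∀ x, REPS.pav y ω (fun z => ‖𝓕⁻ G z‖ ^ 2) x - ‖𝓕⁻ G x‖ ^ 2 =
      ∫ t, pk y t * Φ x t := by
    intro x
    unfold REPS.pav
    have : ‖𝓕⁻ G x‖ ^ 2 = ∫ t, pk y t * ‖𝓕⁻ G x‖ ^ 2 := by
      rw [integral_mul_const, pk_integral hy, one_mul]
    conv_lhs => rw [this]
    rw [← integral_sub (hNc.slice hy ω x) ((pk_integrable hy).mul_const _)]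
    congr 1
    ext t
    simp only [hΦ]
    ring
  simp_rw [e1]
  refine key.trans ?_
  have b1 : ∫ t, pk y t * η t ≤ 8 * N := by
    calc ∫ t, pk y t * η t ≤ ∫ t, pk y t * (8 * N) := by
          apply integral_mono hηi ((pk_integrable hy).mul_const _)
          intro t
          exact mul_le_mul_of_nonneg_left (hη1 t) (pk_nonneg hy t)
      _ = 8 * N := by rw [integral_mul_const, pk_integral hy, one_mul]
  have b2 : ∫ t, pk y t * η t ≤ 8 * N * (√π * √(y * Λ) * S) := by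
    calc ∫ t, pk y t * η t ≤ ∫ t, (pk y t * √|t / y|) * (8 * N * (√π * √(y * Λ))) := by
          apply integral_mono hηi ((integrable_pk_scale hy integrable_pk_sqrt).mul_const _)
          intro t
          simp only [hη]
          have h3 : √(π * |t| * Λ) = √|t / y| * (√π * √(y * Λ)) := by
            rw [← Real.sqrt_mul (by positivity), ← Real.sqrt_mul (by positivity), abs_div,
              abs_of_pos hy]
            congr 1
            field_simp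
          have h4 : min 1 √(π * |t| * Λ) ≤ √|t / y| * (√π * √(y * Λ)) :=
            (min_le_right _ _).trans_eq h3
          have h5 := pk_nonneg hy t
          calc pk y t * (8 * min 1 √(π * |t| * Λ) * N) =
              (pk y t * (8 * N)) * min 1 √(π * |t| * Λ) := by ring
            _ ≤ (pk y t * (8 * N)) * (√|t / y| * (√π * √(y * Λ))) :=
                mul_le_mul_of_nonneg_left h4 (by positivity)
            _ = _ := by ring
      _ = _ := by
          rw [integral_mul_const, integral_pk_scale hy (fun s => √|s|)]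
          ring
  rcases le_total 1 √(y * Λ) with h | h
  · rw [min_eq_left h]
    refine b1.trans ?_
    have : 0 ≤ √π * S := by positivity
    nlinarith
  · rw [min_eq_right h]
    refine b2.trans ?_
    have : 0 ≤ √(y * Λ) := Real.sqrt_nonneg _
    have h9 : 8 * (1 + √π * S) * √(y * Λ) * N = 8 * N * (√π * √(y * Λ) * S) +
      8 * √(y * Λ) * N := by ring
    rw [h9]
    have : 0 ≤ 8 * √(y * Λ) * N := by positivity
    linarith

end Dg

end REPS
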