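import Pool.Agent.REPS.DiagB
import Pool.Agent.REPS.Geom1

/-! Third part of the tools for the row DIAG: closeness in `L¹`, packets. -/

open MeasureTheory Filter Topology Real Metric FourierTransform
open scoped ENNReal NNReal InnerProductSpace

namespace REPS

open Helper77.TA

namespace Dg

section general

variable {V : Type*} [NormedAddCommGroup V] [InnerProductSpace ℝ V] [FiniteDimensional ℝ V]
  [MeasurableSpace V] [BorelSpace V]

/-- Closeness in `L¹`. -/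
structure Cl (u w : V → ℝ) (e : ℝ) : Prop where
  left : Nc u
  right : Nc w
  le : ∫ x, |u x - w x| ≤ e

theorem Cl.refl {u : V → ℝ} (hu : Nc u) : Cl u u 0 := ⟨hu, hu, by simp⟩

theorem Cl.mono {u w : V → ℝ} {e e' : ℝ} (h : Cl u w e) (he : e ≤ e') : Cl u w e' :=
  ⟨h.left, h.right, h.le.trans he⟩

theorem Cl.trans {u w z : V → ℝ} {e e' : ℝ} (h : Cl u w e) (h' : Cl w z e') :
    Cl u z (e + e') := by
  refine ⟨h.left, h'.right, ?_⟩
  calc ∫ x, |u x - z x| ≤ ∫ x, (|u x - w x| + |w x - z x|) :=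
        integral_mono (h.left.sub h'.right).int.abs
          ((h.left.sub h.right).int.abs.add (h'.left.sub h'.right).int.abs)
          fun x => abs_sub_le _ _ _
    _ = (∫ x, |u x - w x|) + ∫ x, |w x - z x| :=
        integral_add (h.left.sub h.right).int.abs (h'.left.sub h'.right).int.abs
    _ ≤ _ := add_le_add h.le h'.le

theorem Cl.add {u w u' w' : V → ℝ} {e e' : ℝ} (h : Cl u w e) (h' : Cl u' w' e') :
    Cl (fun x => u x + u' x) (fun x => w x + w' x) (e + e') := by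
  refine ⟨h.left.add h'.left, h.right.add h'.right, ?_⟩
  calc ∫ x, |u x + u' x - (w x + w' x)| ≤ ∫ x, (|u x - w x| + |u' x - w' x|) :=
        integral_mono ((h.left.add h'.left).sub (h.right.add h'.right)).int.abs
          ((h.left.sub h.right).int.abs.add (h'.left.sub h'.right).int.abs)
          fun x => by
            have : u x + u' x - (w x + w' x) = (u x - w x) + (u' x - w' x) := by ring
            simp only [this]
            exact abs_add_le _ _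
    _ = (∫ x, |u x - w x|) + ∫ x, |u' x - w' x| :=
        integral_add (h.left.sub h.right).int.abs (h'.left.sub h'.right).int.abs
    _ ≤ _ := add_le_add h.le h'.le

theorem Cl.sum {ι : Type*} (s : Finset ι) {u w : ι → V → ℝ} {e : ι → ℝ}
    (h : ∀ i ∈ s, Cl (u i) (w i) (e i)) :
    Cl (fun x => ∑ i ∈ s, u i x) (fun x => ∑ i ∈ s, w i x) (∑ i ∈ s, e i) := by
  classical
  induction s using Finset.induction_on with
  | empty => simpa using Cl.refl (u := fun _ : V => (0 : ℝ)) ⟨by simp, by simp, 0, by simp⟩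
  | insert a s ha ih =>
    simp only [Finset.sum_insert ha]
    exact (h a (Finset.mem_insert_self _ _)).add
      (ih fun i hi => h i (Finset.mem_insert_of_mem hi))

theorem Cl.pav {u w : V → ℝ} {e : ℝ} (h : Cl u w e) {y : ℝ} (hy : 0 < y) (ω : V) :
    Cl (REPS.pav y ω u) (REPS.pav y ω w) e := by
  refine ⟨h.left.pav hy ω, h.right.pav hy ω, ?_⟩
  simp_rw [← h.left.pav_sub h.right hy ω]
  exact ((h.left.sub h.right).integral_abs_pav_le hy ω).trans h.le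

theorem Cl.bdd_mul {u w : V → ℝ} {e : ℝ} (h : Cl u w e) {v : V → ℝ} (hv : Measurable v) {c : ℝ}
    (hc : ∀ x, |v x| ≤ c) : Cl (fun x => v x * u x) (fun x => v x * w x) (c * e) := by
  have hc0 : 0 ≤ c := (abs_nonneg _).trans (hc 0)
  refine ⟨h.left.bdd_mul hv hc, h.right.bdd_mul hv hc, ?_⟩
  calc ∫ x, |v x * u x - v x * w x| ≤ ∫ x, c * |u x - w x| := by
        apply integral_mono ((h.left.bdd_mul hv hc).sub (h.right.bdd_mul hv hc)).int.abs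
          ((h.left.sub h.right).int.abs.const_mul c)
        intro x
        simp only
        rw [← mul_sub, abs_mul]
        exact mul_le_mul_of_nonneg_right (hc x) (abs_nonneg _)
    _ = c * ∫ x, |u x - w x| := integral_const_mul _ _
    _ ≤ _ := mul_le_mul_of_nonneg_left h.le hc0

theorem Cl.const_mul {u w : V → ℝ} {e : ℝ} (h : Cl u w e) {c : ℝ} (hc : 0 ≤ c) :
    Cl (fun x => c * u x) (fun x => c * w x) (c * e) :=
  h.bdd_mul measurable_const fun _ => (abs_of_nonneg hc).le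

theorem Cl.congr {u w u' w' : V → ℝ} {e : ℝ} (h : Cl u w e) (hu : ∀ x, u' x = u x)
    (hw : ∀ x, w' x = w x) : Cl u' w' e := by
  have e1 : u' = u := funext hu
  have e2 : w' = w := funext hw
  rw [e1, e2]; exact h

/-- Change of the weight. -/
theorem Cl.weight {u v v' : V → ℝ} (hu : Nc u) (hu0 : ∀ x, 0 ≤ u x) (hv : Measurable v)
    (hv' : Measurable v') {D δ : ℝ} (hD : ∀ x, |v x| ≤ D) (hD' : ∀ x, |v' x| ≤ D)
    (hδ : ∀ x, |v x - v' x| ≤ δ) :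
    Cl (fun x => v x * u x) (fun x => v' x * u x) (δ * ∫ x, u x) := by
  refine ⟨hu.bdd_mul hv hD, hu.bdd_mul hv' hD', ?_⟩
  calc ∫ x, |v x * u x - v' x * u x| ≤ ∫ x, δ * u x := by
        apply integral_mono ((hu.bdd_mul hv hD).sub (hu.bdd_mul hv' hD')).int.abs
          (hu.int.const_mul δ)
        intro x
        simp only
        rw [← sub_mul, abs_mul, abs_of_nonneg (hu0 x)]
        exact mul_le_mul_of_nonneg_right (hδ x) (hu0 x)
    _ = _ := integral_const_mul _ _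

theorem nc_inv {a : V → ℂ} (h1 : Integrable a) (h2 : MemLp a 2) :
    Nc (fun x => ‖𝓕⁻ a x‖ ^ 2) := by
  have hc : Continuous (𝓕⁻ a) := continuous_fourierInv h1
  refine ⟨(hc.norm.pow 2).measurable, (planch h1 h2).1, (∫ ξ, ‖a ξ‖) ^ 2, fun x => ?_⟩
  rw [abs_of_nonneg (by positivity)]
  have : ‖𝓕⁻ a x‖ ≤ ∫ ξ, ‖a ξ‖ := by
    rw [fourierInv_formula]
    apply norm_integral_le_of_norm_le h1.norm
    filter_upwards with ξ
    have : (2 * π * ⟪ξ, x⟫_ℝ * Complex.I : ℂ) = ((2 * π * ⟪ξ, x⟫_ℝ : ℝ) : ℂ) * Complex.I := by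
      push_cast; ring
    rw [norm_mul, this, Complex.norm_exp_ofReal_mul_I, one_mul]
  gcongr

theorem nc_cross {a a' : V → ℂ} (h1 : Integrable a) (h2 : MemLp a 2) (h1' : Integrable a')
    (h2' : MemLp a' 2) : Nc (fun x => (𝓕⁻ a x * (starRingEnd ℂ) (𝓕⁻ a' x)).re) := by
  have hc : Continuous (𝓕⁻ a) := continuous_fourierInv h1
  have hc' : Continuous (𝓕⁻ a') := continuous_fourierInv h1'
  have n1 := nc_inv h1 h2
  have n2 := nc_inv h1' h2'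
  obtain ⟨C, hC⟩ := (n1.add n2).bdd
  have hb : ∀ x, |(𝓕⁻ a x * (starRingEnd ℂ) (𝓕⁻ a' x)).re| ≤ ‖𝓕⁻ a x‖ ^ 2 + ‖𝓕⁻ a' x‖ ^ 2 := by
    intro x
    refine (Complex.abs_re_le_norm _).trans ?_
    rw [norm_mul, RCLike.norm_conj]
    nlinarith [sq_nonneg (‖𝓕⁻ a x‖ - ‖𝓕⁻ a' x‖), norm_nonneg (𝓕⁻ a x), norm_nonneg (𝓕⁻ a' x)]
  have hm : Continuous (fun x => (𝓕⁻ a x * (starRingEnd ℂ) (𝓕⁻ a' x)).re) :=
    Complex.continuous_re.comp (hc.mul (Complex.continuous_conj.comp hc'))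
  refine ⟨hm.measurable, ?_, C, fun x => ?_⟩
  · exact Integrable.mono' (n1.add n2).int hm.aestronglyMeasurable
      (Eventually.of_forall fun x => by rw [Real.norm_eq_abs]; exact hb x)
  · exact (hb x).trans ((le_abs_self _).trans (hC x))

theorem norm_sum_sq {ι : Type*} [DecidableEq ι] (s : Finset ι) (z : ι → ℂ) :
    ‖∑ i ∈ s, z i‖ ^ 2 = ∑ i ∈ s, ‖z i‖ ^ 2 +
      ∑ p ∈ (s ×ˢ s).filter (fun p => p.1 ≠ p.2), (z p.1 * (starRingEnd ℂ) (z p.2)).re := by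
  have h1 : ∀ w : ℂ, ‖w‖ ^ 2 = (w * (starRingEnd ℂ) w).re := by
    intro w
    rw [Complex.mul_conj, Complex.ofReal_re, Complex.normSq_eq_norm_sq]
  rw [h1, map_sum, Finset.sum_mul_sum, Complex.re_sum]
  simp_rw [Complex.re_sum]
  rw [← Finset.sum_product', ← Finset.sum_filter_add_sum_filter_not (s ×ˢ s)
    (fun p => p.1 ≠ p.2), add_comm]
  congr 1
  have h2 : (s ×ˢ s).filter (fun p => ¬ p.1 ≠ p.2) = s.map ⟨fun i => (i, i), fun a b h => by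
      simpa using h⟩ := by
    ext ⟨a, b⟩
    simp only [Finset.mem_filter, Finset.mem_product, ne_eq, not_not, Finset.mem_map]
    constructor
    · rintro ⟨⟨ha, _⟩, rfl⟩
      exact ⟨a, ha, rfl⟩
    · rintro ⟨c, hc, h⟩
      have h3 : (c, c) = (a, b) := h
      rw [Prod.mk.injEq] at h3
      obtain ⟨rfl, rfl⟩ := h3
      exact ⟨⟨hc, hc⟩, rfl⟩
  rw [h2, Finset.sum_map]
  refine Finset.sum_congr rfl fun i _ => ?_
  rw [h1]
  rfl

end general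

end Dg

namespace Par

open Dg

variable (P : Par)

theorem inner_le {ξ : V2} (hξ : ξ ∈ ann P.R P.H) (φ : ℝ) : 0 ≤ P.ρ - ⟪ξ, dir φ⟫_ℝ := by
  have h1 := real_inner_le_norm ξ (dir φ)
  rw [norm_dir, mul_one] at h1
  have h2 := hξ.2
  unfold ρ
  linarith

theorem y_pos {i : ℕ} (hi : 1 ≤ i) : 0 < P.y i := by
  unfold y
  rw [if_neg (by omega)]
  have h1 : (0 : ℝ) < P.q := by exact_mod_cast P.q_pos
  have h2 := P.R_pos
  have h3 := P.l_pos i
  positivity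

theorem y0_pos : 0 < P.y0 := lt_of_lt_of_le one_pos P.hy0

/-- Integrable and square integrable spectra in the annulus. -/
structure Sp (a : V2 → ℂ) : Prop where
  int : Integrable a
  lp : MemLp a 2
  supp : ∀ ξ, a ξ ≠ 0 → ξ ∈ ann P.R P.H

variable {P}

theorem Sp.sub {a a' : V2 → ℂ} (h : P.Sp a) (h' : P.Sp a') : P.Sp (fun ξ => a ξ - a' ξ) := by
  refine ⟨h.int.sub h'.int, h.lp.sub h'.lp, fun ξ hξ => ?_⟩
  by_cases h0 : a ξ = 0
  · apply h'.supp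
    intro h1
    apply hξ
    rw [h0, h1, sub_zero]
  · exact h.supp ξ h0

theorem Good.sp {G : V2 → ℂ} (h : P.Good G) : P.Sp G := ⟨h.int, h.lp, fun ξ hξ => (h.supp ξ hξ).1⟩

theorem Pair.sp {F G : V2 → ℂ} (h : P.Pair F G) : P.Sp F := ⟨h.int, h.lp, h.supp⟩

theorem Sp.damp {a : V2 → ℂ} (h : P.Sp a) {y : ℝ} (hy : 0 < y) (φ : ℝ) :
    Integrable (damp a (dir φ) P.ρ y) ∧ MemLp (damp a (dir φ) P.ρ y) 2 := by
  have hle := norm_damp_le (g := a) (ω := dir φ) (ρ := P.ρ) hy.le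
    (fun ξ hξ => P.inner_le (h.supp ξ hξ) φ)
  have hm : AEStronglyMeasurable (Helper77.TA.damp a (dir φ) P.ρ y) volume :=
    (continuous_dampFactor (dir φ) P.ρ y).aestronglyMeasurable.mul h.int.aestronglyMeasurable
  exact ⟨Integrable.mono h.int hm (Eventually.of_forall hle),
    h.lp.mono hm (Eventually.of_forall hle)⟩

theorem Sp.nc {a : V2 → ℂ} (h : P.Sp a) {y : ℝ} (hy : 0 < y) (φ : ℝ) :
    Nc (fun x => ‖pkt a P.ρ y (dir φ) x‖ ^ 2) :=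
  nc_inv (h.damp hy φ).1 (h.damp hy φ).2

theorem Sp.memLp {a : V2 → ℂ} (h : P.Sp a) {y : ℝ} (hy : 0 < y) (φ : ℝ) :
    MemLp (pkt a P.ρ y (dir φ)) 2 :=
  memLp_inv (h.damp hy φ).1 (h.damp hy φ).2

/-- Square norm of a packet. -/
theorem Sp.sq {a : V2 → ℂ} (h : P.Sp a) {y : ℝ} (hy : 0 < y) (φ : ℝ) :
    Integrable (fun ξ => Real.exp (-(2 * π * y * (P.ρ - ⟪ξ, dir φ⟫_ℝ))) ^ 2 * ‖a ξ‖ ^ 2) ∧
    ∫ x, ‖pkt a P.ρ y (dir φ) x‖ ^ 2 =
      ∫ ξ, Real.exp (-(2 * π * y * (P.ρ - ⟪ξ, dir φ⟫_ℝ))) ^ 2 * ‖a ξ‖ ^ 2 := by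
  have e : ∀ ξ, ‖Helper77.TA.damp a (dir φ) P.ρ y ξ‖ ^ 2 =
      Real.exp (-(2 * π * y * (P.ρ - ⟪ξ, dir φ⟫_ℝ))) ^ 2 * ‖a ξ‖ ^ 2 := by
    intro ξ
    rw [Helper77.TA.damp, norm_mul, Complex.norm_real, Real.norm_of_nonneg (Real.exp_pos _).le,
      mul_pow]
  simp_rw [← e]
  exact ⟨int_sq (h.damp hy φ).2, (planch (h.damp hy φ).1 (h.damp hy φ).2).2⟩

theorem Sp.pkt_sub {a a' : V2 → ℂ} (h : P.Sp a) (h' : P.Sp a') {y : ℝ} (hy : 0 < y) (φ : ℝ)
    (x : V2) : pkt (fun ξ => a ξ - a' ξ) P.ρ y (dir φ) x =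
      pkt a P.ρ y (dir φ) x - pkt a' P.ρ y (dir φ) x := by
  unfold pkt
  have hI : ∀ {g : V2 → ℂ}, Integrable g →
      Integrable (fun ξ => Complex.exp (2 * π * ⟪ξ, x⟫_ℝ * Complex.I) * g ξ) := by
    intro g hg
    refine Integrable.mono' hg.norm ?_ (Eventually.of_forall fun ξ => ?_)
    · refine AEStronglyMeasurable.mul ?_ hg.aestronglyMeasurable
      apply Continuous.aestronglyMeasurable
      fun_prop
    · have : (2 * π * ⟪ξ, x⟫_ℝ * Complex.I : ℂ) =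
          ((2 * π * ⟪ξ, x⟫_ℝ : ℝ) : ℂ) * Complex.I := by
        push_cast; ring
      rw [norm_mul, this, Complex.norm_exp_ofReal_mul_I, one_mul]
  rw [fourierInv_formula, fourierInv_formula, fourierInv_formula,
    ← integral_sub (hI (h.damp hy φ).1) (hI (h'.damp hy φ).1)]
  congr 1
  ext ξ
  simp only [Helper77.TA.damp]
  ring

theorem Sp.pkt_sum {ι : Type*} (s : Finset ι) {a : ι → V2 → ℂ} (h : ∀ j ∈ s, P.Sp (a j)) {y : ℝ}
    (hy : 0 < y) (φ : ℝ) (x : V2) : pkt (fun ξ => ∑ j ∈ s, a j ξ) P.ρ y (dir φ) x =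
      ∑ j ∈ s, pkt (a j) P.ρ y (dir φ) x := by
  unfold pkt
  have hI : ∀ {g : V2 → ℂ}, Integrable g →
      Integrable (fun ξ => Complex.exp (2 * π * ⟪ξ, x⟫_ℝ * Complex.I) * g ξ) := by
    intro g hg
    refine Integrable.mono' hg.norm ?_ (Eventually.of_forall fun ξ => ?_)
    · refine AEStronglyMeasurable.mul ?_ hg.aestronglyMeasurable
      apply Continuous.aestronglyMeasurable
      fun_prop
    · have : (2 * π * ⟪ξ, x⟫_ℝ * Complex.I : ℂ) =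
          ((2 * π * ⟪ξ, x⟫_ℝ : ℝ) : ℂ) * Complex.I := by
        push_cast; ring
      rw [norm_mul, this, Complex.norm_exp_ofReal_mul_I, one_mul]
  simp_rw [fourierInv_formula]
  rw [← integral_finsetSum s fun j hj => hI ((h j hj).damp hy φ).1]
  congr 1
  ext ξ
  simp only [Helper77.TA.damp]
  rw [Finset.mul_sum, Finset.mul_sum]

/-- A family of packets with a pointwise bound of the multipliers. -/
theorem fam_sum {ι : Type*} (s : Finset ι) {c y φ : ι → ℝ} (hy : ∀ j ∈ s, 0 < y j) {Cs : ℝ}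
    (hCs : ∀ ξ ∈ ann P.R P.H, ∑ j ∈ s,
      c j * Real.exp (-(2 * π * y j * (P.ρ - ⟪ξ, dir (φ j)⟫_ℝ))) ^ 2 ≤ Cs)
    {a : V2 → ℂ} (ha : P.Sp a) :
    ∑ j ∈ s, c j * ∫ x, ‖pkt a P.ρ (y j) (dir (φ j)) x‖ ^ 2 ≤ Cs * ∫ ξ, ‖a ξ‖ ^ 2 := by
  calc ∑ j ∈ s, c j * ∫ x, ‖pkt a P.ρ (y j) (dir (φ j)) x‖ ^ 2 =
      ∑ j ∈ s, ∫ ξ, c j *
        (Real.exp (-(2 * π * y j * (P.ρ - ⟪ξ, dir (φ j)⟫_ℝ))) ^ 2 * ‖a ξ‖ ^ 2) := by
        refine Finset.sum_congr rfl fun j hj => ?_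
        rw [(ha.sq (hy j hj) (φ j)).2, integral_const_mul]
    _ = ∫ ξ, ∑ j ∈ s, c j *
        (Real.exp (-(2 * π * y j * (P.ρ - ⟪ξ, dir (φ j)⟫_ℝ))) ^ 2 * ‖a ξ‖ ^ 2) := by
        rw [integral_finsetSum s fun j hj => ((ha.sq (hy j hj) (φ j)).1.const_mul (c j))]
    _ ≤ ∫ ξ, Cs * ‖a ξ‖ ^ 2 := by
        apply integral_mono (integrable_finsetSum s fun j hj =>
          ((ha.sq (hy j hj) (φ j)).1.const_mul (c j))) ((int_sq ha.lp).const_mul Cs)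
        intro ξ
        simp only
        by_cases h0 : a ξ = 0
        · simp [h0]
        · have h1 := hCs ξ (ha.supp ξ h0)
          have h2 : ∑ j ∈ s, c j *
              (Real.exp (-(2 * π * y j * (P.ρ - ⟪ξ, dir (φ j)⟫_ℝ))) ^ 2 * ‖a ξ‖ ^ 2) =
              (∑ j ∈ s, c j * Real.exp (-(2 * π * y j * (P.ρ - ⟪ξ, dir (φ j)⟫_ℝ))) ^ 2) *
                ‖a ξ‖ ^ 2 := by
            rw [Finset.sum_mul]
            exact Finset.sum_congr rfl fun j _ => by ring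
          rw [h2]
          exact mul_le_mul_of_nonneg_right h1 (by positivity)
    _ = _ := integral_const_mul _ _

/-- Change of the function in one packet. -/
theorem cl_pkt {a a' : V2 → ℂ} (h : P.Sp a) (h' : P.Sp a') {y : ℝ} (hy : 0 < y) (φ : ℝ)
    {lam : ℝ} (hl : 0 < lam) {W : V2 → ℝ} (hW : Measurable W) {c : ℝ} (hc : ∀ x, |W x| ≤ c) :
    Cl (pav y (dir φ) (fun z => W z * ‖pkt a P.ρ y (dir φ) z‖ ^ 2))
      (pav y (dir φ) (fun z => W z * ‖pkt a' P.ρ y (dir φ) z‖ ^ 2))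
      (c * (lam * ((∫ x, ‖pkt a P.ρ y (dir φ) x‖ ^ 2) + ∫ x, ‖pkt a' P.ρ y (dir φ) x‖ ^ 2) +
        (∫ x, ‖pkt (fun ξ => a ξ - a' ξ) P.ρ y (dir φ) x‖ ^ 2) / (2 * lam))) := by
  apply Cl.pav _ hy
  apply Cl.bdd_mul _ hW hc
  refine ⟨h.nc hy φ, h'.nc hy φ, ?_⟩
  simp_rw [h.pkt_sub h' hy φ]
  exact sq_diff' (h.memLp hy φ) (h'.memLp hy φ) hl

/-- Change of the function in a family of packets. -/
theorem cl_fam {ι : Type*} (s : Finset ι) {c y φ : ι → ℝ} (hy : ∀ j ∈ s, 0 < y j) {Cs : ℝ}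
    (hCs : ∀ ξ ∈ ann P.R P.H, ∑ j ∈ s,
      c j * Real.exp (-(2 * π * y j * (P.ρ - ⟪ξ, dir (φ j)⟫_ℝ))) ^ 2 ≤ Cs)
    {a a' : V2 → ℂ} (h : P.Sp a) (h' : P.Sp a') {lam : ℝ} (hl : 0 < lam) {W : ι → V2 → ℝ}
    (hW : ∀ j ∈ s, Measurable (W j)) (hc : ∀ j ∈ s, ∀ x, |W j x| ≤ c j) :
    Cl (fun x => ∑ j ∈ s, pav (y j) (dir (φ j))
        (fun z => W j z * ‖pkt a P.ρ (y j) (dir (φ j)) z‖ ^ 2) x)
      (fun x => ∑ j ∈ s, pav (y j) (dir (φ j))
        (fun z => W j z * ‖pkt a' P.ρ (y j) (dir (φ j)) z‖ ^ 2) x)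
      (lam * (Cs * (∫ ξ, ‖a ξ‖ ^ 2) + Cs * ∫ ξ, ‖a' ξ‖ ^ 2) +
        (Cs * ∫ ξ, ‖a ξ - a' ξ‖ ^ 2) / (2 * lam)) := by
  refine (Cl.sum s fun j hj => cl_pkt h h' (hy j hj) (φ j) hl (hW j hj) (hc j hj)).mono ?_
  have e1 := fam_sum s (c := c) (φ := φ) hy hCs h
  have e2 := fam_sum s (c := c) (φ := φ) hy hCs h'
  have e3 := fam_sum s (c := c) (φ := φ) hy hCs (h.sub h')
  have e4 : ∑ j ∈ s, (c j * (lam * ((∫ x, ‖pkt a P.ρ (y j) (dir (φ j)) x‖ ^ 2) +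
      ∫ x, ‖pkt a' P.ρ (y j) (dir (φ j)) x‖ ^ 2) +
        (∫ x, ‖pkt (fun ξ => a ξ - a' ξ) P.ρ (y j) (dir (φ j)) x‖ ^ 2) / (2 * lam))) =
      lam * ((∑ j ∈ s, c j * ∫ x, ‖pkt a P.ρ (y j) (dir (φ j)) x‖ ^ 2) +
        ∑ j ∈ s, c j * ∫ x, ‖pkt a' P.ρ (y j) (dir (φ j)) x‖ ^ 2) +
      (∑ j ∈ s, c j * ∫ x, ‖pkt (fun ξ => a ξ - a' ξ) P.ρ (y j) (dir (φ j)) x‖ ^ 2) /
        (2 * lam) := by
    rw [← Finset.sum_add_distrib, Finset.mul_sum, Finset.sum_div, ← Finset.sum_add_distrib]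
    exact Finset.sum_congr rfl fun j _ => by ring
  rw [e4]
  gcongr

end Par

end REPS
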