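import Pool.Agent.REPS.Cut
import Pool.Agent.REPS.Norm
import Pool.Agent.REPS.Band

/-!
# Row DIAG: intermediate objects and signed averages (helper81)
-/

open MeasureTheory Filter Topology Real Metric FourierTransform
open scoped ENNReal NNReal InnerProductSpace

namespace REPS

open Helper77.TA

namespace Par

variable (P : Par) (G : V2 → ℂ) (K : Ker)

/-- Diagonal part of the stopped packets. -/
noncomputable def DG (τ : ℝ) (x : V2) : ℝ :=
  ∑ i ∈ Finset.Icc 1 P.k, ∑ L ∈ Finset.range (P.M (i - 1)),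
    pav (P.y i) (dir (P.cen (i - 1) L)) (fun z => P.cn i * P.v G K τ i (L / P.b) z *
      ∑ L' ∈ P.kids i (L / P.b), ‖P.T (P.piece G (i - 1) L') i L z‖ ^ 2) x

/-- Its limit form. -/
noncomputable def MG (τ : ℝ) (x : V2) : ℝ :=
  ∑ i ∈ Finset.Icc 1 P.k, ∑ L ∈ Finset.range (P.M (i - 1)),
    P.v G K τ i (L / P.b) x * ‖P.gp G (i - 1) L x‖ ^ 2

end Par

namespace DiagX

variable {V : Type*} [NormedAddCommGroup V] [InnerProductSpace ℝ V] [FiniteDimensional ℝ V]
  [MeasurableSpace V] [BorelSpace V]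

/-- Continuous, bounded and integrable. -/
structure Tame (u : V → ℝ) : Prop where
  cont : Continuous u
  bdd : ∃ C, ∀ x, |u x| ≤ C
  int : Integrable u

/-- Continuous and bounded. -/
structure CB (u : V → ℝ) : Prop where
  cont : Continuous u
  bdd : ∃ C, ∀ x, |u x| ≤ C

variable {u v w : V → ℝ} {y : ℝ}

theorem Tame.cb (hu : Tame u) : CB u := ⟨hu.cont, hu.bdd⟩

omit [InnerProductSpace ℝ V] [FiniteDimensional ℝ V] [MeasurableSpace V] [BorelSpace V] in
theorem CB.const (c : ℝ) : CB (fun _ : V => c) := ⟨continuous_const, ⟨|c|, fun _ => le_rfl⟩⟩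

omit [InnerProductSpace ℝ V] [FiniteDimensional ℝ V] [MeasurableSpace V] [BorelSpace V] in
theorem CB.mul (hu : CB u) (hv : CB v) : CB (fun x => u x * v x) := by
  obtain ⟨C, hC⟩ := hu.bdd
  obtain ⟨D, hD⟩ := hv.bdd
  refine ⟨hu.cont.mul hv.cont, ⟨C * D, fun x => ?_⟩⟩
  rw [abs_mul]
  exact mul_le_mul (hC x) (hD x) (abs_nonneg _) ((abs_nonneg _).trans (hC x))

omit [InnerProductSpace ℝ V] [FiniteDimensional ℝ V] [MeasurableSpace V] [BorelSpace V] in
theorem CB.add (hu : CB u) (hv : CB v) : CB (fun x => u x + v x) := by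
  obtain ⟨C, hC⟩ := hu.bdd
  obtain ⟨D, hD⟩ := hv.bdd
  exact ⟨hu.cont.add hv.cont, ⟨C + D, fun x => (abs_add_le _ _).trans (add_le_add (hC x) (hD x))⟩⟩

omit [InnerProductSpace ℝ V] [FiniteDimensional ℝ V] [MeasurableSpace V] [BorelSpace V] in
theorem CB.sub (hu : CB u) (hv : CB v) : CB (fun x => u x - v x) := by
  obtain ⟨C, hC⟩ := hu.bdd
  obtain ⟨D, hD⟩ := hv.bdd
  exact ⟨hu.cont.sub hv.cont, ⟨C + D, fun x => (abs_sub _ _).trans (add_le_add (hC x) (hD x))⟩⟩

omit [InnerProductSpace ℝ V] [FiniteDimensional ℝ V] [MeasurableSpace V] [BorelSpace V] in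
theorem CB.abs (hu : CB u) : CB (fun x => |u x|) := by
  obtain ⟨C, hC⟩ := hu.bdd
  exact ⟨hu.cont.abs, ⟨C, fun x => by rw [abs_abs]; exact hC x⟩⟩

omit [InnerProductSpace ℝ V] [FiniteDimensional ℝ V] [MeasurableSpace V] [BorelSpace V] in
theorem CB.sum {ι : Type*} (s : Finset ι) {f : ι → V → ℝ} (h : ∀ i ∈ s, CB (f i)) :
    CB (fun x => ∑ i ∈ s, f i x) := by
  classical
  induction s using Finset.induction_on with
  | empty => simpa using CB.const (V := V) 0
  | insert a s ha ih =>
    have h1 := h a (Finset.mem_insert_self _ _)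
    have h2 := ih fun i hi => h i (Finset.mem_insert_of_mem hi)
    simpa [Finset.sum_insert ha] using h1.add h2

theorem Tame.mulCB (hv : CB v) (hu : Tame u) : Tame (fun x => v x * u x) := by
  obtain ⟨C, hC⟩ := hv.bdd
  refine ⟨hv.cont.mul hu.cont, (hv.mul hu.cb).bdd, ?_⟩
  exact hu.int.bdd_mul hv.cont.aestronglyMeasurable
    (Eventually.of_forall fun x => by rw [Real.norm_eq_abs]; exact hC x)

theorem Tame.const_mul (hu : Tame u) (c : ℝ) : Tame (fun x => c * u x) :=
  Tame.mulCB (CB.const c) hu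

theorem Tame.add (hu : Tame u) (hv : Tame v) : Tame (fun x => u x + v x) :=
  ⟨hu.cont.add hv.cont, (hu.cb.add hv.cb).bdd, hu.int.add hv.int⟩

theorem Tame.sub (hu : Tame u) (hv : Tame v) : Tame (fun x => u x - v x) :=
  ⟨hu.cont.sub hv.cont, (hu.cb.sub hv.cb).bdd, hu.int.sub hv.int⟩

theorem Tame.abs (hu : Tame u) : Tame (fun x => |u x|) :=
  ⟨hu.cont.abs, hu.cb.abs.bdd, hu.int.abs⟩

theorem Tame.zero : Tame (fun _ : V => (0 : ℝ)) :=
  ⟨continuous_const, ⟨0, fun _ => by simp⟩, integrable_zero _ _ _⟩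

theorem Tame.sum {ι : Type*} (s : Finset ι) {f : ι → V → ℝ} (h : ∀ i ∈ s, Tame (f i)) :
    Tame (fun x => ∑ i ∈ s, f i x) :=
  ⟨continuous_finsetSum s fun i hi => (h i hi).cont, (CB.sum s fun i hi => (h i hi).cb).bdd,
    integrable_finsetSum s fun i hi => (h i hi).int⟩

omit [FiniteDimensional ℝ V] [MeasurableSpace V] [BorelSpace V] in
theorem CB.slice (hu : CB u) (hy : 0 < y) (ω x : V) :
    Integrable (fun t => pk y t * u (x - t • ω)) := by
  obtain ⟨C, hC⟩ := hu.bdd
  have h := (integrable_pk hy).bdd_mul (c := C) (f := fun t : ℝ => u (x - t • ω))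
    ((hu.cont.comp (by fun_prop)).aestronglyMeasurable) (Eventually.of_forall fun t => by
      rw [Real.norm_eq_abs]; exact hC _)
  refine h.congr (Eventually.of_forall fun t => ?_)
  simp only
  ring

omit [FiniteDimensional ℝ V] [MeasurableSpace V] [BorelSpace V] in
theorem pav_add (hy : 0 < y) (ω : V) (hu : CB u) (hv : CB v) (x : V) :
    pav y ω (fun z => u z + v z) x = pav y ω u x + pav y ω v x := by
  unfold pav
  rw [← integral_add (hu.slice hy ω x) (hv.slice hy ω x)]
  congr 1
  ext t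
  ring

omit [FiniteDimensional ℝ V] [MeasurableSpace V] [BorelSpace V] in
theorem pav_sub (hy : 0 < y) (ω : V) (hu : CB u) (hv : CB v) (x : V) :
    pav y ω (fun z => u z - v z) x = pav y ω u x - pav y ω v x := by
  unfold pav
  rw [← integral_sub (hu.slice hy ω x) (hv.slice hy ω x)]
  congr 1
  ext t
  ring

omit [FiniteDimensional ℝ V] [MeasurableSpace V] [BorelSpace V] in
theorem pav_cmul (y : ℝ) (ω : V) (c : ℝ) (u : V → ℝ) (x : V) :
    pav y ω (fun z => c * u z) x = c * pav y ω u x := by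
  unfold pav
  rw [← integral_const_mul]
  congr 1
  ext t
  ring

omit [FiniteDimensional ℝ V] [MeasurableSpace V] [BorelSpace V] in
theorem pav_sum {ι : Type*} (s : Finset ι) {f : ι → V → ℝ} (hy : 0 < y) (ω : V)
    (h : ∀ i ∈ s, CB (f i)) (x : V) :
    pav y ω (fun z => ∑ i ∈ s, f i z) x = ∑ i ∈ s, pav y ω (f i) x := by
  classical
  induction s using Finset.induction_on with
  | empty => simp [pav]
  | insert a s ha ih =>
    have h1 := h a (Finset.mem_insert_self _ _)
    have h2 : ∀ i ∈ s, CB (f i) := fun i hi => h i (Finset.mem_insert_of_mem hi)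
    simp only [Finset.sum_insert ha]
    rw [pav_add hy ω h1 (CB.sum s h2), ih h2]

theorem Tame.integrable_prod (hu : Tame u) (hy : 0 < y) (ω : V) :
    Integrable (Function.uncurry fun (x : V) (t : ℝ) => pk y t * u (x - t • ω))
      (volume.prod volume) := by
  have hm : AEStronglyMeasurable (Function.uncurry fun (x : V) (t : ℝ) =>
      pk y t * u (x - t • ω)) (volume.prod volume) := by
    refine Continuous.aestronglyMeasurable ?_
    exact ((continuous_pk hy).comp continuous_snd).mul (hu.cont.comp (by fun_prop))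
  rw [integrable_prod_iff' hm]
  have e1 : ∀ t : ℝ, ∫ x : V, |u (x - t • ω)| = ∫ x, |u x| := fun t =>
    integral_sub_right_eq_self (fun x => |u x|) _
  refine ⟨Eventually.of_forall fun t => ?_, ?_⟩
  · exact ((hu.int.comp_sub_right (t • ω)).const_mul (pk y t) :
      Integrable fun x => pk y t * u (x - t • ω))
  have e2 : ∀ t : ℝ, ∫ x : V, ‖Function.uncurry (fun (x : V) (t : ℝ) =>
      pk y t * u (x - t • ω)) (x, t)‖ = pk y t * ∫ x, |u x| := by
    intro t
    rw [← e1 t, ← integral_const_mul]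
    congr 1
    ext x
    simp only [Function.uncurry_apply_pair]
    rw [norm_mul, Real.norm_of_nonneg (pk_nonneg hy t), Real.norm_eq_abs]
  simp only [e2]
  exact (integrable_pk hy).mul_const _

omit [FiniteDimensional ℝ V] [MeasurableSpace V] [BorelSpace V] in
theorem CB.pav (hu : CB u) (hy : 0 < y) (ω : V) : CB (pav y ω u) := by
  obtain ⟨C, hC⟩ := hu.bdd
  constructor
  · refine continuous_of_dominated (F := fun (x : V) (t : ℝ) => pk y t * u (x - t • ω))
      (bound := fun t => pk y t * C) (fun x => (hu.slice hy ω x).aestronglyMeasurable)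
      (fun x => Eventually.of_forall fun t => ?_) ((integrable_pk hy).mul_const C)
      (Eventually.of_forall fun t => ?_)
    · rw [norm_mul, Real.norm_of_nonneg (pk_nonneg hy t), Real.norm_eq_abs]
      exact mul_le_mul_of_nonneg_left (hC _) (pk_nonneg hy t)
    · exact continuous_const.mul (hu.cont.comp (by fun_prop))
  · refine ⟨C, fun x => ?_⟩
    rw [← Real.norm_eq_abs]
    refine (norm_integral_le_of_norm_le ((integrable_pk hy).mul_const C)
      (Eventually.of_forall fun t => ?_)).trans ?_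
    · rw [norm_mul, Real.norm_of_nonneg (pk_nonneg hy t), Real.norm_eq_abs]
      exact mul_le_mul_of_nonneg_left (hC _) (pk_nonneg hy t)
    · rw [integral_mul_const, integral_pk hy, one_mul]

theorem Tame.pav (hu : Tame u) (hy : 0 < y) (ω : V) : Tame (pav y ω u) :=
  ⟨(hu.cb.pav hy ω).cont, (hu.cb.pav hy ω).bdd, (hu.integrable_prod hy ω).integral_prod_left⟩

omit [FiniteDimensional ℝ V] [MeasurableSpace V] [BorelSpace V] in
theorem abs_pav_le (hy : 0 < y) (ω : V) (x : V) :
    |pav y ω u x| ≤ pav y ω (fun z => |u z|) x := by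
  unfold pav
  rw [← Real.norm_eq_abs]
  refine (norm_integral_le_integral_norm _).trans (le_of_eq ?_)
  congr 1
  ext t
  rw [norm_mul, Real.norm_of_nonneg (pk_nonneg hy t), Real.norm_eq_abs]

theorem Tame.integral_pav (hu : Tame u) (hy : 0 < y) (ω : V) :
    ∫ x, REPS.pav y ω u x = ∫ x, u x := by
  unfold REPS.pav
  rw [integral_integral_swap (hu.integrable_prod hy ω)]
  have e1 : ∀ t : ℝ, ∫ x : V, pk y t * u (x - t • ω) = pk y t * ∫ x, u x := by
    intro t
    rw [integral_const_mul, integral_sub_right_eq_self u]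
  simp only [e1]
  rw [integral_mul_const, integral_pk hy, one_mul]

/-- The averages contract the `L¹` norm. -/
theorem Tame.integral_abs_pav_le (hu : Tame u) (hy : 0 < y) (ω : V) :
    ∫ x, |REPS.pav y ω u x| ≤ ∫ x, |u x| := by
  rw [← hu.abs.integral_pav hy ω]
  exact integral_mono (hu.pav hy ω).int.abs (hu.abs.pav hy ω).int fun x => abs_pav_le hy ω x

end DiagX

end REPS
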