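import Pool.Agent.REPS.PkB

/-!
# Poisson averages along lines: semigroup, subharmonicity, real exponential multipliers
-/

open MeasureTheory Filter Topology Real Metric FourierTransform
open scoped ENNReal NNReal InnerProductSpace Pointwise

namespace REPS

open Helper77.TA

/-! ### The half plane -/

theorem integral_angle_complex (f : ℝ → ℂ) :
    ∫ θ, f θ ∂angle = (2 * π)⁻¹ • ∫ θ in (0 : ℝ)..(2 * π), f θ := by
  rw [angle, integral_smul_measure, intervalIntegral.integral_of_le (by positivity),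
    ENNReal.toReal_ofReal (by positivity)]

/-- Mean value over the angle for bounded analytic functions with radial limits. -/
theorem mean_angle {G : ℂ → ℂ} (hG : AnalyticOnNhd ℂ G (ball 0 1)) {M : ℝ}
    (hM : ∀ w ∈ ball (0 : ℂ) 1, ‖G w‖ ≤ M) {G1 : ℝ → ℂ}
    (hlim : ∀ θ ∈ Set.Ioo (0 : ℝ) (2 * π),
      Tendsto (fun r : ℝ => G (circleMap 0 r θ)) (𝓝[<] 1) (𝓝 (G1 θ))) :
    ∫ θ, G1 θ ∂angle = G 0 := by
  have hmem : ∀ r : ℝ, 0 < r → r < 1 → ∀ θ : ℝ, circleMap 0 r θ ∈ ball (0 : ℂ) 1 := by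
    intro r h0 h1 θ
    rw [mem_ball_zero_iff, norm_circleMap_zero, abs_of_pos h0]
    exact h1
  have e1 : ∀ r : ℝ, 0 < r → r < 1 → ∫ θ, G (circleMap 0 r θ) ∂angle = G 0 := by
    intro r h0 h1
    have hd : DiffContOnCl ℂ G (ball 0 |r|) := by
      apply DifferentiableOn.diffContOnCl
      refine hG.differentiableOn.mono ?_
      rw [abs_of_pos h0, closure_ball _ h0.ne']
      exact closedBall_subset_ball h1
    have := hd.circleAverage
    rw [Real.circleAverage] at this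
    rw [integral_angle_complex, this]
  have hev : ∀ᶠ r : ℝ in 𝓝[<] 1, 0 < r ∧ r < 1 := by
    have h1 : ∀ᶠ r : ℝ in 𝓝[<] 1, r < 1 := eventually_mem_nhdsWithin
    have h2 : ∀ᶠ r : ℝ in 𝓝[<] 1, 0 < r :=
      (lt_mem_nhds (by norm_num : (0 : ℝ) < 1)).filter_mono nhdsWithin_le_nhds
    exact h2.and h1
  have e2 : Tendsto (fun r : ℝ => ∫ θ, G (circleMap 0 r θ) ∂angle) (𝓝[<] 1)
      (𝓝 (∫ θ, G1 θ ∂angle)) := by
    refine tendsto_integral_filter_of_dominated_convergence (fun _ => M) ?_ ?_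
      (integrable_const M) (ae_angle_of_forall hlim)
    · filter_upwards [hev] with r hr
      apply Continuous.aestronglyMeasurable
      rw [continuous_iff_continuousAt]
      intro θ
      exact (hG _ (hmem r hr.1 hr.2 θ)).continuousAt.comp (continuous_circleMap 0 r).continuousAt
    · filter_upwards [hev] with r hr
      exact Eventually.of_forall fun θ => hM _ (hmem r hr.1 hr.2 θ)
  have e3 : Tendsto (fun r : ℝ => ∫ θ, G (circleMap 0 r θ) ∂angle) (𝓝[<] 1) (𝓝 (G 0)) := by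
    refine Tendsto.congr' ?_ tendsto_const_nhds
    filter_upwards [hev] with r hr
    exact (e1 r hr.1 hr.2).symm
  have hne : (𝓝[<] (1 : ℝ)).NeBot := inferInstance
  exact tendsto_nhds_unique e2 e3

/-- The representation of the value at `i y` by the boundary values. -/
theorem halfplane_rep {h : ℂ → ℂ} (hh : ∀ z : ℂ, 0 ≤ z.im → DifferentiableAt ℂ h z) {M : ℝ}
    (hM : ∀ z : ℂ, 0 ≤ z.im → ‖h z‖ ≤ M) {y : ℝ} (hy : 0 < y) :
    ∫ θ, h (bdry y θ : ℂ) ∂angle = h (Complex.I * y) := by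
  have hcay : ∀ w ∈ ball (0 : ℂ) 1, 0 ≤ (cay y w).im := by
    intro w hw
    exact cay_im_nonneg hy (by simpa using hw)
  have hG : AnalyticOnNhd ℂ (fun w => h (cay y w)) (ball 0 1) := by
    apply DifferentiableOn.analyticOnNhd _ isOpen_ball
    intro w hw
    apply DifferentiableAt.differentiableWithinAt
    apply DifferentiableAt.comp
    · exact hh _ (hcay w hw)
    · unfold cay
      refine DifferentiableAt.div (by fun_prop) (by fun_prop) ?_
      intro h0
      have h1 : w = 1 := by rw [sub_eq_zero] at h0; exact h0.symm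
      rw [h1] at hw
      simp at hw
  have := mean_angle hG (M := M) (fun w hw => hM _ (hcay w hw))
    (G1 := fun θ => h (bdry y θ : ℂ))
    (fun θ hθ => ((hh _ (by simp)).continuousAt.tendsto).comp (tendsto_cay hθ))
  rw [this, cay_zero]

theorem integral_bdry {E : Type*} [NormedAddCommGroup E] [NormedSpace ℝ E] {y : ℝ} (hy : 0 < y)
    {F : ℝ → E} (hF : StronglyMeasurable F) :
    ∫ θ, F (bdry y θ) ∂angle = ∫ t, pk y t • F t := by
  have hpm : Measurable (TAM.cauchy y) := by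
    unfold TAM.cauchy
    fun_prop
  rw [← integral_map (measurable_bdry y).aemeasurable hF.aestronglyMeasurable, TAM.map_angle hy,
    integral_withDensity_eq_integral_toReal_smul hpm
      (Eventually.of_forall fun t => ENNReal.ofReal_lt_top)]
  refine integral_congr_ae (Eventually.of_forall fun t => ?_)
  have e1 : (TAM.cauchy y t).toReal = pk y t := ENNReal.toReal_ofReal (pk_nonneg hy t)
  simp only
  rw [e1]

theorem pk_cont {y : ℝ} (hy : 0 < y) : Continuous (pk y) := by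
  unfold pk
  refine continuous_const.mul (Continuous.inv₀ (by fun_prop) fun t => ?_)
  positivity

theorem pk_add {y z : ℝ} (hy : 0 < y) (hz : 0 < z) (t : ℝ) :
    ∫ s, pk y s * pk z (t - s) = pk (y + z) t := by
  set h : ℂ → ℂ := fun w => (π⁻¹ : ℝ) * (Complex.I / (w - t + Complex.I * z)) with hh
  have hne : ∀ w : ℂ, 0 ≤ w.im → w - t + Complex.I * z ≠ 0 := by
    intro w hw h0
    have h1 := congrArg Complex.im h0
    simp at h1
    linarith
  have hd : ∀ w : ℂ, 0 ≤ w.im → DifferentiableAt ℂ h w := by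
    intro w hw
    have h1 : DifferentiableAt ℂ (fun w : ℂ => w - t + Complex.I * z) w := by fun_prop
    exact ((differentiableAt_const Complex.I).div h1 (hne w hw)).const_mul _
  have hM : ∀ w : ℂ, 0 ≤ w.im → ‖h w‖ ≤ π⁻¹ * (1 / z) := by
    intro w hw
    have h1 : z ≤ ‖w - t + Complex.I * z‖ := by
      refine le_trans ?_ (Complex.abs_im_le_norm _)
      rw [le_abs]
      left
      simp
      exact hw
    rw [hh]
    simp only [norm_mul, norm_div, Complex.norm_real, Complex.norm_I]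
    rw [Real.norm_of_nonneg (by positivity)]
    gcongr
  have hre : ∀ s c : ℝ, 0 < c → ((π⁻¹ : ℝ) * (Complex.I / ((s : ℂ) + Complex.I * c))).re =
      pk c s := by
    intro s c hc
    rw [Complex.re_ofReal_mul, Complex.div_re]
    simp only [Complex.I_re, Complex.I_im, zero_mul, zero_div, zero_add, one_mul]
    unfold pk
    have e1 : Complex.normSq ((s : ℂ) + Complex.I * c) = s ^ 2 + c ^ 2 := by
      rw [Complex.normSq_apply]
      simp
      ring
    rw [e1]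
    simp
    ring
  have hc : StronglyMeasurable fun s : ℝ => h (s : ℂ) := by
    apply Continuous.stronglyMeasurable
    rw [continuous_iff_continuousAt]
    intro s
    exact (hd _ (by simp)).continuousAt.comp Complex.continuous_ofReal.continuousAt
  have key := halfplane_rep hd hM hy
  rw [integral_bdry hy (F := fun s : ℝ => h (s : ℂ)) hc] at key
  have hint : Integrable fun s : ℝ => pk y s • h (s : ℂ) := by
    refine Integrable.mono' ((integrable_pk hy).mul_const (π⁻¹ * (1 / z))) ?_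
      (Eventually.of_forall fun s => ?_)
    · exact (measurable_pk y).aestronglyMeasurable.smul hc.aestronglyMeasurable
    · rw [norm_smul, Real.norm_of_nonneg (pk_nonneg hy s)]
      exact mul_le_mul_of_nonneg_left (hM _ (by simp)) (pk_nonneg hy s)
  have k1 := Complex.reCLM.integral_comp_comm hint
  have k3 : ∀ s : ℝ, Complex.reCLM (pk y s • h (s : ℂ)) = pk y s * pk z (t - s) := by
    intro s
    rw [Complex.reCLM_apply, Complex.smul_re, smul_eq_mul]
    congr 1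
    have := hre (s - t) z hz
    rw [← pk_neg, neg_sub, ← this, hh]
    push_cast
    rfl
  simp_rw [k3] at k1
  rw [k1, key, Complex.reCLM_apply]
  have := hre (-t) (y + z) (by linarith)
  rw [← pk_neg, ← this, hh]
  simp only
  congr 3
  push_cast
  ring

/-! ### Averages -/

variable {V : Type*} [NormedAddCommGroup V] [InnerProductSpace ℝ V] [FiniteDimensional ℝ V]
  [MeasurableSpace V] [BorelSpace V]

omit [FiniteDimensional ℝ V] [MeasurableSpace V] [BorelSpace V] in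
theorem integrable_pav {y : ℝ} (hy : 0 < y) (ω : V) {u : V → ℝ} (hu : Continuous u) {C : ℝ}
    (hC : ∀ x, |u x| ≤ C) (x : V) : Integrable fun t => pk y t * u (x - t • ω) := by
  refine Integrable.mono' ((integrable_pk hy).mul_const C) ?_ (Eventually.of_forall fun t => ?_)
  · refine (measurable_pk y).aestronglyMeasurable.mul ?_
    apply Continuous.aestronglyMeasurable
    fun_prop
  · rw [norm_mul, Real.norm_of_nonneg (pk_nonneg hy t)]
    exact mul_le_mul_of_nonneg_left (hC _) (pk_nonneg hy t)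

omit [FiniteDimensional ℝ V] [MeasurableSpace V] [BorelSpace V] in
theorem pav_monoC {y : ℝ} (hy : 0 < y) (ω : V) {u v : V → ℝ} (hu : Continuous u)
    (hv : Continuous v) {C : ℝ} (hC : ∀ x, |u x| ≤ C) {C' : ℝ} (hC' : ∀ x, |v x| ≤ C')
    (h : ∀ x, u x ≤ v x) (x : V) : pav y ω u x ≤ pav y ω v x := by
  unfold pav
  refine integral_mono (integrable_pav hy ω hu hC x) (integrable_pav hy ω hv hC' x) fun t => ?_
  exact mul_le_mul_of_nonneg_left (h _) (pk_nonneg hy t)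

omit [FiniteDimensional ℝ V] [MeasurableSpace V] [BorelSpace V] in
theorem pav_bdd {y : ℝ} (hy : 0 < y) (ω : V) {u : V → ℝ} {C : ℝ}
    (hC : ∀ x, |u x| ≤ C) (x : V) : |pav y ω u x| ≤ C := by
  unfold pav
  rw [← Real.norm_eq_abs]
  refine (norm_integral_le_of_norm_le ((integrable_pk hy).mul_const C)
    (Eventually.of_forall fun t => ?_)).trans ?_
  · rw [norm_mul, Real.norm_of_nonneg (pk_nonneg hy t)]
    exact mul_le_mul_of_nonneg_left (hC _) (pk_nonneg hy t)
  · rw [integral_mul_const, integral_pk hy, one_mul]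

omit [FiniteDimensional ℝ V] [MeasurableSpace V] [BorelSpace V] in
theorem pav_cont {y : ℝ} (hy : 0 < y) (ω : V) {u : V → ℝ} (hu : Continuous u) {C : ℝ}
    (hC : ∀ x, |u x| ≤ C) : Continuous (pav y ω u) := by
  unfold pav
  refine continuous_of_dominated (bound := fun t => pk y t * C) (fun x => ?_) (fun x => ?_)
    ((integrable_pk hy).mul_const C) (Eventually.of_forall fun t => ?_)
  · refine (measurable_pk y).aestronglyMeasurable.mul ?_
    apply Continuous.aestronglyMeasurable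
    fun_prop
  · refine Eventually.of_forall fun t => ?_
    rw [norm_mul, Real.norm_of_nonneg (pk_nonneg hy t)]
    exact mul_le_mul_of_nonneg_left (hC _) (pk_nonneg hy t)
  · fun_prop

omit [FiniteDimensional ℝ V] [MeasurableSpace V] [BorelSpace V] in
theorem pav_neg (y : ℝ) (ω : V) (u : V → ℝ) (x : V) : pav y (-ω) u x = pav y ω u x := by
  unfold pav
  rw [← integral_neg_eq_self]
  refine integral_congr_ae (Eventually.of_forall fun t => ?_)
  simp only
  rw [pk_neg, neg_smul, smul_neg, neg_neg]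

omit [FiniteDimensional ℝ V] [MeasurableSpace V] [BorelSpace V] in
theorem pav_const_mul (y : ℝ) (ω : V) (c : ℝ) (u : V → ℝ) (x : V) :
    pav y ω (fun z => c * u z) x = c * pav y ω u x := by
  unfold pav
  rw [← integral_const_mul]
  refine integral_congr_ae (Eventually.of_forall fun t => ?_)
  simp only
  ring

omit [FiniteDimensional ℝ V] [MeasurableSpace V] [BorelSpace V] in
theorem pav_le {y : ℝ} (hy : 0 < y) (ω : V) {u v : V → ℝ} (hu : Continuous u)
    (hv : Continuous v) {C : ℝ} (hC : ∀ x, |u x| ≤ C) {C' : ℝ} (hC' : ∀ x, |v x| ≤ C')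
    {c : ℝ} (hc : 0 ≤ c) (h : ∀ x, u x ≤ c * v x) (x : V) : pav y ω u x ≤ c * pav y ω v x := by
  rw [← pav_const_mul]
  refine pav_monoC hy ω hu (v := fun z => c * v z) (by fun_prop) hC (C' := c * C')
    (fun z => ?_) h x
  rw [abs_mul, abs_of_nonneg hc]
  exact mul_le_mul_of_nonneg_left (hC' z) hc

omit [FiniteDimensional ℝ V] [MeasurableSpace V] [BorelSpace V] in
/-- The semigroup property. -/
theorem pav_pav {y z : ℝ} (hy : 0 < y) (hz : 0 < z) (ω : V) {u : V → ℝ} (hu : Continuous u)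
    {C : ℝ} (hC : ∀ x, |u x| ≤ C) (x : V) :
    pav y ω (pav z ω u) x = pav (y + z) ω u x := by
  have e1 : pav y ω (pav z ω u) x = ∫ t, ∫ r, pk y t * (pk z (r - t) * u (x - r • ω)) := by
    unfold pav
    refine integral_congr_ae (Eventually.of_forall fun t => ?_)
    simp only
    rw [← integral_const_mul, ← integral_sub_right_eq_self _ t]
    refine integral_congr_ae (Eventually.of_forall fun r => ?_)
    simp only
    rw [sub_sub x, ← add_smul, add_sub_cancel]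
  have hi : Integrable (fun p : ℝ × ℝ => pk y p.2 * (pk z (p.1 - p.2) * u (x - p.1 • ω)))
      (volume.prod volume) := by
    have h1 := Integrable.convolution_integrand (μ := (volume : Measure ℝ))
      (ν := (volume : Measure ℝ)) (ContinuousLinearMap.mul ℝ ℝ) (integrable_pk hy)
      (integrable_pk hz)
    simp only [ContinuousLinearMap.mul_apply'] at h1
    refine Integrable.mono' (h1.mul_const C) ?_ (Eventually.of_forall fun p => ?_)
    · refine AEStronglyMeasurable.mul ?_ (AEStronglyMeasurable.mul ?_ ?_)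
      · exact ((measurable_pk y).comp measurable_snd).aestronglyMeasurable
      · exact ((measurable_pk z).comp (measurable_fst.sub measurable_snd)).aestronglyMeasurable
      · apply Continuous.aestronglyMeasurable
        fun_prop
    · rw [norm_mul, norm_mul, Real.norm_of_nonneg (pk_nonneg hy _),
        Real.norm_of_nonneg (pk_nonneg hz _), ← mul_assoc]
      exact mul_le_mul_of_nonneg_left (hC _) (mul_nonneg (pk_nonneg hy _) (pk_nonneg hz _))
  rw [e1, integral_integral_swap (f := fun t r => pk y t * (pk z (r - t) * u (x - r • ω)))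
    hi.swap]
  unfold pav
  refine integral_congr_ae (Eventually.of_forall fun r => ?_)
  simp only
  rw [← pk_add hy hz r, ← integral_mul_const]
  refine integral_congr_ae (Eventually.of_forall fun t => ?_)
  simp only
  ring

/-! ### Subharmonicity -/

omit [FiniteDimensional ℝ V] [MeasurableSpace V] [BorelSpace V] in
theorem sq_mean_le {f : ℝ → ℝ} (hf : Measurable f) {C : ℝ} (hC : ∀ t, |f t| ≤ C) :
    (∫ θ, f θ ∂angle) ^ 2 ≤ ∫ θ, f θ ^ 2 ∂angle := by
  have hi : Integrable f angle := Integrable.of_bound hf.aestronglyMeasurable C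
    (Eventually.of_forall hC)
  have hi2 : Integrable (fun θ => f θ ^ 2) angle := by
    refine Integrable.of_bound (hf.pow_const 2).aestronglyMeasurable (C ^ 2)
      (Eventually.of_forall fun θ => ?_)
    rw [norm_pow, Real.norm_eq_abs]
    have := hC θ
    gcongr
  exact ConvexOn.map_integral_le (s := Set.univ) (g := fun t : ℝ => t ^ 2)
    (Even.convexOn_pow even_two) (by fun_prop) isClosed_univ
    (Eventually.of_forall fun _ => Set.mem_univ _) hi hi2

/-- The Fourier side translated by `x`. -/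
theorem transl_facts {G : V → ℂ} (h1 : Integrable G) (x : V) :
    Integrable (fun ξ => Complex.exp (2 * π * ⟪ξ, x⟫_ℝ * Complex.I) * G ξ) := by
  refine Integrable.mono' h1.norm ?_ (Eventually.of_forall fun ξ => ?_)
  · refine AEStronglyMeasurable.mul ?_ h1.aestronglyMeasurable
    apply Continuous.aestronglyMeasurable
    fun_prop
  · have : (2 * π * ⟪ξ, x⟫_ℝ * Complex.I : ℂ) = ((2 * π * ⟪ξ, x⟫_ℝ : ℝ) : ℂ) * Complex.I := by
      push_cast; ring
    rw [norm_mul, this, Complex.norm_exp_ofReal_mul_I, one_mul]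

theorem sq_cont {G : V → ℂ} (h1 : Integrable G) : Continuous fun z => ‖𝓕⁻ G z‖ ^ 2 :=
  (continuous_fourierInv h1).norm.pow 2

theorem norm_inv_le {G : V → ℂ} (h1 : Integrable G) (x : V) : ‖𝓕⁻ G x‖ ≤ ∫ ξ, ‖G ξ‖ := by
  rw [fourierInv_formula]
  apply norm_integral_le_of_norm_le h1.norm
  filter_upwards with ξ
  have : (2 * π * ⟪ξ, x⟫_ℝ * Complex.I : ℂ) = ((2 * π * ⟪ξ, x⟫_ℝ : ℝ) : ℂ) * Complex.I := by
    push_cast; ring
  rw [norm_mul, this, Complex.norm_exp_ofReal_mul_I, one_mul]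

theorem sq_bdd {G : V → ℂ} (h1 : Integrable G) (x : V) :
    |‖𝓕⁻ G x‖ ^ 2| ≤ (∫ ξ, ‖G ξ‖) ^ 2 := by
  rw [abs_of_nonneg (by positivity)]
  have := norm_inv_le h1 x
  gcongr

/-- Subharmonicity. -/
theorem pkt_sq_le {G : V → ℂ} (h1 : Integrable G) {ω : V} {ρ S : ℝ}
    (hsupp : ∀ ξ, G ξ ≠ 0 → 0 ≤ ρ - ⟪ξ, ω⟫_ℝ ∧ ρ - ⟪ξ, ω⟫_ℝ ≤ S) {y : ℝ} (hy : 0 < y) (x : V) :
    ‖pkt G ρ y ω x‖ ^ 2 ≤ pav y ω (fun z => ‖𝓕⁻ G z‖ ^ 2) x := by
  set g : V → ℂ := fun ξ => Complex.exp (2 * π * ⟪ξ, x⟫_ℝ * Complex.I) * G ξ with hg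
  have hgi : Integrable g := transl_facts h1 x
  have hg0 : ∀ ξ, g ξ ≠ 0 → G ξ ≠ 0 := by
    intro ξ h h0
    apply h
    rw [hg]; simp [h0]
  set σ : V → ℝ := fun ξ => ρ - ⟪ξ, ω⟫_ℝ with hσ
  have hσc : Continuous σ := by fun_prop
  set h : ℂ → ℂ := fun z => ∫ ξ, Complex.exp (2 * π * Complex.I * z * σ ξ) * g ξ with hh
  have hdiff : Differentiable ℂ h := differentiable_ext hgi hσc (S := S)
    fun ξ hξ => hsupp ξ (hg0 ξ hξ)
  have hbound : ∀ z : ℂ, 0 ≤ z.im → ‖h z‖ ≤ ∫ ξ, ‖g ξ‖ := fun z hz =>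
    bound_ext hgi (fun ξ hξ => (hsupp ξ (hg0 ξ hξ)).1) hz
  have hreal : ∀ t : ℝ, ‖h (t : ℂ)‖ = ‖𝓕⁻ G (x - t • ω)‖ := by
    intro t
    have e1 : h (t : ℂ) = Complex.exp (((2 * π * t * ρ : ℝ) : ℂ) * Complex.I) *
        𝓕⁻ G (x - t • ω) := by
      rw [fourierInv_formula, ← integral_const_mul]
      refine integral_congr_ae (Eventually.of_forall fun ξ => ?_)
      simp only [hg, hσ]
      rw [← mul_assoc, ← mul_assoc, ← Complex.exp_add, ← Complex.exp_add, inner_sub_right,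
        inner_smul_right]
      congr 2
      push_cast
      ring
    rw [e1, norm_mul, Complex.norm_exp_ofReal_mul_I, one_mul]
  have himag : h (Complex.I * y) = pkt G ρ y ω x := by
    rw [pkt, fourierInv_formula]
    refine integral_congr_ae (Eventually.of_forall fun ξ => ?_)
    simp only [hg, hσ, damp]
    have e2 : (2 * π * Complex.I * (Complex.I * y) * ((ρ - ⟪ξ, ω⟫_ℝ : ℝ) : ℂ) : ℂ) =
        ((-(2 * π * y * (ρ - ⟪ξ, ω⟫_ℝ)) : ℝ) : ℂ) := by
      push_cast
      ring_nf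
      rw [Complex.I_sq]
      ring
    rw [e2, ← Complex.ofReal_exp]
    ring
  have key := halfplane_rep (fun z _ => hdiff z) hbound hy
  have hF : Continuous fun t : ℝ => ‖𝓕⁻ G (x - t • ω)‖ ^ 2 :=
    (sq_cont h1).comp (by fun_prop)
  calc ‖pkt G ρ y ω x‖ ^ 2 = ‖∫ θ, h (bdry y θ : ℂ) ∂angle‖ ^ 2 := by rw [key, himag]
    _ ≤ (∫ θ, ‖h (bdry y θ : ℂ)‖ ∂angle) ^ 2 := by
        have := norm_integral_le_integral_norm (μ := angle) fun θ => h (bdry y θ : ℂ)
        gcongr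
    _ ≤ ∫ θ, ‖h (bdry y θ : ℂ)‖ ^ 2 ∂angle := by
        refine sq_mean_le (C := ∫ ξ, ‖g ξ‖) ?_ fun θ => ?_
        · exact (hdiff.continuous.measurable.comp
            (Complex.measurable_ofReal.comp (measurable_bdry y))).norm
        · rw [abs_of_nonneg (norm_nonneg _)]
          exact hbound _ (by simp)
    _ = ∫ θ, (fun t : ℝ => ‖𝓕⁻ G (x - t • ω)‖ ^ 2) (bdry y θ) ∂angle := by
        simp only [hreal]
    _ = pav y ω (fun z => ‖𝓕⁻ G z‖ ^ 2) x := by
        rw [integral_bdry hy hF.stronglyMeasurable]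
        rfl

/-! ### Real exponential multipliers -/

/-- The multiplier `exp (2 π s ξ · ω)`. -/
noncomputable def em (s : ℝ) (ω : V) (G : V → ℂ) (ξ : V) : ℂ :=
  ((Real.exp (2 * π * s * ⟪ξ, ω⟫_ℝ) : ℝ) : ℂ) * G ξ

omit [FiniteDimensional ℝ V] [MeasurableSpace V] [BorelSpace V] in
theorem em_ne {s : ℝ} {ω : V} {G : V → ℂ} {ξ : V} (h : em s ω G ξ ≠ 0) : G ξ ≠ 0 := by
  intro h0
  apply h
  rw [em, h0, mul_zero]

theorem em_int {G : V → ℂ} (h1 : Integrable G) {s : ℝ} {ω : V} {a h : ℝ}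
    (hsupp : ∀ ξ, G ξ ≠ 0 → a ≤ ⟪ξ, ω⟫_ℝ ∧ ⟪ξ, ω⟫_ℝ ≤ a + h) : Integrable (em s ω G) := by
  refine Integrable.mono' (h1.norm.const_mul (Real.exp (2 * π * |s| * (|a| + |a + h|)))) ?_
    (Eventually.of_forall fun ξ => ?_)
  · refine AEStronglyMeasurable.mul ?_ h1.aestronglyMeasurable
    apply Continuous.aestronglyMeasurable
    fun_prop
  · by_cases h0 : G ξ = 0
    · rw [em, h0]
      simp
    · rw [em, norm_mul, Complex.norm_real, Real.norm_of_nonneg (exp_pos _).le]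
      refine mul_le_mul_of_nonneg_right (Real.exp_le_exp.2 ?_) (norm_nonneg _)
      obtain ⟨h2, h3⟩ := hsupp ξ h0
      have h4 : |⟪ξ, ω⟫_ℝ| ≤ |a| + |a + h| := by
        rw [abs_le]
        have := neg_abs_le a
        have := le_abs_self (a + h)
        have := abs_nonneg a
        have := abs_nonneg (a + h)
        constructor <;> linarith
      calc 2 * π * s * ⟪ξ, ω⟫_ℝ ≤ |2 * π * s * ⟪ξ, ω⟫_ℝ| := le_abs_self _
        _ = 2 * π * |s| * |⟪ξ, ω⟫_ℝ| := by
            rw [abs_mul, abs_mul, abs_of_pos (by positivity : (0 : ℝ) < 2 * π)]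
        _ ≤ _ := by gcongr

/-- The multiplier for one sign. -/
theorem em_up {G : V → ℂ} (h1 : Integrable G) {ω : V} {a h s : ℝ} (hs : 0 < s)
    (hsupp : ∀ ξ, G ξ ≠ 0 → a ≤ ⟪ξ, ω⟫_ℝ ∧ ⟪ξ, ω⟫_ℝ ≤ a + h) (x : V) :
    ‖𝓕⁻ (em s ω G) x‖ ^ 2 ≤ Real.exp (4 * π * s * (a + h)) *
      pav s ω (fun z => ‖𝓕⁻ G z‖ ^ 2) x := by
  have key := pkt_sq_le h1 (ω := ω) (ρ := a + h) (S := h) (fun ξ hξ => by
    obtain ⟨h2, h3⟩ := hsupp ξ hξ
    constructor <;> linarith) hs x
  have e1 : 𝓕⁻ (em s ω G) x = ((Real.exp (2 * π * s * (a + h)) : ℝ) : ℂ) *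
      pkt G (a + h) s ω x := by
    rw [pkt, fourierInv_formula, fourierInv_formula, ← integral_const_mul]
    refine integral_congr_ae (Eventually.of_forall fun ξ => ?_)
    simp only [em, damp]
    have e2 : Real.exp (2 * π * s * ⟪ξ, ω⟫_ℝ) = Real.exp (2 * π * s * (a + h)) *
        Real.exp (-(2 * π * s * (a + h - ⟪ξ, ω⟫_ℝ))) := by
      rw [← Real.exp_add]
      congr 1
      ring
    rw [e2]
    push_cast
    ring
  rw [e1, norm_mul, mul_pow, Complex.norm_real, Real.norm_of_nonneg (exp_pos _).le,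
    ← Real.exp_nat_mul]
  have e3 : ((2 : ℕ) : ℝ) * (2 * π * s * (a + h)) = 4 * π * s * (a + h) := by
    push_cast
    ring
  rw [e3]
  exact mul_le_mul_of_nonneg_left key (exp_pos _).le

omit [FiniteDimensional ℝ V] [MeasurableSpace V] [BorelSpace V] in
theorem em_neg (s : ℝ) (ω : V) (G : V → ℂ) : em (-s) ω G = em s (-ω) G := by
  ext ξ
  rw [em, em, inner_neg_right]
  congr 3
  ring

omit [FiniteDimensional ℝ V] [MeasurableSpace V] [BorelSpace V] in
theorem em_em (s s' : ℝ) (ω ω' : V) (G : V → ℂ) (ξ : V) : em s ω (em s' ω' G) ξ =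
    ((Real.exp (2 * π * ⟪ξ, s • ω + s' • ω'⟫_ℝ) : ℝ) : ℂ) * G ξ := by
  rw [em, em, inner_add_right, inner_smul_right, inner_smul_right, ← mul_assoc]
  congr 1
  rw [← Complex.ofReal_mul, ← Real.exp_add]
  congr 2
  ring

/-- The multiplier for the other sign. -/
theorem em_down {G : V → ℂ} (h1 : Integrable G) {ω : V} {a h s : ℝ} (hs : 0 < s)
    (hsupp : ∀ ξ, G ξ ≠ 0 → a ≤ ⟪ξ, ω⟫_ℝ ∧ ⟪ξ, ω⟫_ℝ ≤ a + h) (x : V) :
    ‖𝓕⁻ (em (-s) ω G) x‖ ^ 2 ≤ Real.exp (-(4 * π * s * a)) *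
      pav s ω (fun z => ‖𝓕⁻ G z‖ ^ 2) x := by
  rw [em_neg, ← pav_neg]
  have key := em_up h1 (ω := -ω) (a := -(a + h)) (h := h) hs (fun ξ hξ => by
    obtain ⟨h2, h3⟩ := hsupp ξ hξ
    rw [inner_neg_right]
    constructor <;> linarith) x
  have e1 : 4 * π * s * (-(a + h) + h) = -(4 * π * s * a) := by ring
  rwa [e1] at key

/-- Real exponential multipliers along one direction. -/
theorem shift_one {G : V → ℂ} (h1 : Integrable G) {ω : V} (hω : ‖ω‖ = 1) {a h s y : ℝ}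
    (hh : 0 ≤ h) (hs : |s| ≤ y) (hy : 0 < y)
    (hsupp : ∀ ξ, G ξ ≠ 0 → a ≤ ⟪ξ, ω⟫_ℝ ∧ ⟪ξ, ω⟫_ℝ ≤ a + h) (x : V) :
    ‖𝓕⁻ (fun ξ => ((Real.exp (2 * π * s * ⟪ξ, ω⟫_ℝ) : ℝ) : ℂ) * G ξ) x‖ ^ 2 ≤
      Real.exp (4 * π * s * a + 2 * π * (y + s) * h) * pav y ω (fun z => ‖𝓕⁻ G z‖ ^ 2) x := by
  change ‖𝓕⁻ (em s ω G) x‖ ^ 2 ≤ _
  obtain ⟨hs1, hs2⟩ := abs_le.1 hs
  rcases hs2.eq_or_lt with rfl | hs2
  · have := em_up h1 hy hsupp x
    have e1 : 4 * π * s * a + 2 * π * (s + s) * h = 4 * π * s * (a + h) := by ring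
    rwa [e1]
  rcases hs1.eq_or_lt with rfl | hs1
  · have := em_down h1 hy hsupp x
    have e1 : 4 * π * -y * a + 2 * π * (y + -y) * h = -(4 * π * y * a) := by ring
    rwa [e1]
  set s₁ := (y + s) / 2 with hs₁
  set s₂ := (y - s) / 2 with hs₂
  have hp1 : 0 < s₁ := by rw [hs₁]; linarith
  have hp2 : 0 < s₂ := by rw [hs₂]; linarith
  have hi2 : Integrable (em (-s₂) ω G) := em_int h1 hsupp
  have k1 := em_up hi2 hp1 (fun ξ hξ => hsupp ξ (em_ne hξ)) x
  have e0 : em s₁ ω (em (-s₂) ω G) = em s ω G := by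
    ext ξ
    rw [em_em, em, inner_add_right, inner_smul_right, inner_smul_right]
    congr 3
    rw [hs₁, hs₂]
    ring
  rw [e0] at k1
  refine k1.trans ?_
  have k2 : ∀ z, ‖𝓕⁻ (em (-s₂) ω G) z‖ ^ 2 ≤ Real.exp (-(4 * π * s₂ * a)) *
      pav s₂ ω (fun z => ‖𝓕⁻ G z‖ ^ 2) z := em_down h1 hp2 hsupp
  have k3 := pav_le hp1 ω (sq_cont hi2) (pav_cont hp2 ω (sq_cont h1) (sq_bdd h1)) (sq_bdd hi2)
    (pav_bdd hp2 ω (sq_bdd h1)) (exp_pos _).le k2 x
  rw [pav_pav hp1 hp2 ω (sq_cont h1) (sq_bdd h1)] at k3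
  have e1 : s₁ + s₂ = y := by rw [hs₁, hs₂]; ring
  rw [e1] at k3
  calc Real.exp (4 * π * s₁ * (a + h)) * pav s₁ ω (fun z => ‖𝓕⁻ (em (-s₂) ω G) z‖ ^ 2) x ≤
      Real.exp (4 * π * s₁ * (a + h)) * (Real.exp (-(4 * π * s₂ * a)) *
        pav y ω (fun z => ‖𝓕⁻ G z‖ ^ 2) x) := mul_le_mul_of_nonneg_left k3 (exp_pos _).le
    _ = _ := by
        rw [← mul_assoc, ← Real.exp_add]
        congr 2
        rw [hs₁, hs₂]
        ring

/-- Real exponential multipliers along two orthogonal directions. -/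
theorem shift_two {G : V → ℂ} (h1 : Integrable G) {ω ω' : V} (hω : ‖ω‖ = 1) (hω' : ‖ω'‖ = 1)
    {a h s y a' h' s' y' : ℝ} (hh : 0 ≤ h) (hs : |s| ≤ y) (hy : 0 < y)
    (hh' : 0 ≤ h') (hs' : |s'| ≤ y') (hy' : 0 < y')
    (hsupp : ∀ ξ, G ξ ≠ 0 → (a ≤ ⟪ξ, ω⟫_ℝ ∧ ⟪ξ, ω⟫_ℝ ≤ a + h) ∧
      (a' ≤ ⟪ξ, ω'⟫_ℝ ∧ ⟪ξ, ω'⟫_ℝ ≤ a' + h')) (x : V) :
    ‖𝓕⁻ (fun ξ => ((Real.exp (2 * π * ⟪ξ, s • ω + s' • ω'⟫_ℝ) : ℝ) : ℂ) * G ξ) x‖ ^ 2 ≤
      Real.exp ((4 * π * s * a + 2 * π * (y + s) * h) +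
        (4 * π * s' * a' + 2 * π * (y' + s') * h')) *
        pav y ω (pav y' ω' (fun z => ‖𝓕⁻ G z‖ ^ 2)) x := by
  have hi : Integrable (em s' ω' G) := em_int h1 fun ξ hξ => (hsupp ξ hξ).2
  have k1 := shift_one hi hω hh hs hy (fun ξ hξ => (hsupp ξ (em_ne hξ)).1) x
  have e0 : (fun ξ => ((Real.exp (2 * π * s * ⟪ξ, ω⟫_ℝ) : ℝ) : ℂ) * em s' ω' G ξ) =
      fun ξ => ((Real.exp (2 * π * ⟪ξ, s • ω + s' • ω'⟫_ℝ) : ℝ) : ℂ) * G ξ := by
    ext ξ
    rw [← em_em]
    rfl
  rw [e0] at k1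
  refine k1.trans ?_
  have k2 : ∀ z, ‖𝓕⁻ (em s' ω' G) z‖ ^ 2 ≤
      Real.exp (4 * π * s' * a' + 2 * π * (y' + s') * h') *
        pav y' ω' (fun z => ‖𝓕⁻ G z‖ ^ 2) z := fun z =>
    shift_one h1 hω' hh' hs' hy' (fun ξ hξ => (hsupp ξ hξ).2) z
  have k3 := pav_le hy ω (sq_cont hi) (pav_cont hy' ω' (sq_cont h1) (sq_bdd h1)) (sq_bdd hi)
    (pav_bdd hy' ω' (sq_bdd h1)) (exp_pos _).le k2 x
  refine (mul_le_mul_of_nonneg_left k3 (exp_pos _).le).trans (le_of_eq ?_)
  rw [Real.exp_add (4 * π * s * a + 2 * π * (y + s) * h)]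
  ring

end REPS
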