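import Pool.Agent.REPS.Defs2
import Pool.Agent.REPS.Sh
import Pool.Agent.REPS.Geom1
import Pool.Agent.REPS.Dom1

/-!
# ROW DOM2 (helper43): the packets of the pieces are dominated by the densities `E`
-/

open MeasureTheory Filter Topology Real Metric FourierTransform
open scoped ENNReal NNReal InnerProductSpace Pointwise

namespace REPS

open Helper77.TA

namespace Dom2

/-! ### The kernel at two scales -/

theorem pk_scale_le {y l : ℝ} (hy : 0 < y) (hl : 1 ≤ l) (t : ℝ) : pk (l * y) t ≤ l * pk y t := by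
  unfold pk
  have hπ := Real.pi_pos
  have h1 : 0 < t ^ 2 + y ^ 2 := by positivity
  have h2 : t ^ 2 + y ^ 2 ≤ t ^ 2 + (l * y) ^ 2 := by
    have : y ≤ l * y := by nlinarith
    have := pow_le_pow_left₀ hy.le this 2
    linarith
  have h3 : (t ^ 2 + (l * y) ^ 2)⁻¹ ≤ (t ^ 2 + y ^ 2)⁻¹ := inv_anti₀ h1 h2
  calc π⁻¹ * (l * y) * (t ^ 2 + (l * y) ^ 2)⁻¹ ≤ π⁻¹ * (l * y) * (t ^ 2 + y ^ 2)⁻¹ :=
        mul_le_mul_of_nonneg_left h3 (by positivity)
    _ = l * (π⁻¹ * y * (t ^ 2 + y ^ 2)⁻¹) := by ring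

variable {V : Type*} [NormedAddCommGroup V] [InnerProductSpace ℝ V]

theorem pav_scale_le {y l : ℝ} (hy : 0 < y) (hl : 1 ≤ l) (ω : V) {u : V → ℝ} (hu : Continuous u)
    (hu0 : ∀ x, 0 ≤ u x) {C : ℝ} (hC : ∀ x, |u x| ≤ C) (x : V) :
    pav (l * y) ω u x ≤ l * pav y ω u x := by
  have hly : 0 < l * y := by positivity
  unfold pav
  rw [← integral_const_mul]
  refine integral_mono (integrable_pav hly ω hu hC x)
    ((integrable_pav hy ω hu hC x).const_mul l) fun t => ?_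
  simp only
  rw [← mul_assoc]
  exact mul_le_mul_of_nonneg_right (pk_scale_le hy hl t) (hu0 _)

/-! ### The pieces -/

variable (P : Par)

theorem measurable_trn (α : ℝ) : Measurable (trn α) := by
  unfold trn
  refine measurable_fract.comp (Measurable.div_const (Measurable.sub_const ?_ _) _)
  refine Complex.measurable_arg.comp ?_
  refine Complex.measurableEquivRealProd.symm.measurable.comp
    (f := fun ξ : V2 => ((ξ 0, ξ 1) : ℝ × ℝ)) ?_
  fun_prop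

theorem measurable_idx (i : ℕ) : Measurable (P.idx i) := by
  unfold Par.idx
  exact Nat.measurable_floor.comp ((measurable_trn P.α).const_mul _)

theorem measurableSet_idx (i j : ℕ) : MeasurableSet {ξ | P.idx i ξ = j} :=
  measurable_idx P i (measurableSet_singleton j)

variable {P} {G : V2 → ℂ}

theorem int_piece (hG : P.Good G) (i j : ℕ) : Integrable (P.piece G i j) :=
  hG.int.indicator (measurableSet_idx P i j)

theorem R_ge : (2 : ℝ) ≤ P.R ∧ P.H ≤ P.R := by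
  have h1 := P.hR
  have hq : (4 : ℝ) ≤ P.q := by exact_mod_cast P.hq4
  have h2 : (P.q : ℝ) ≤ (P.q : ℝ) ^ (4 * P.k) := by
    have hk := P.hk
    calc (P.q : ℝ) = (P.q : ℝ) ^ 1 := (pow_one _).symm
      _ ≤ _ := pow_le_pow_right₀ (by linarith) (by omega)
  have h3 : (P.q : ℝ) ≤ √P.R := h2.trans h1
  have h4 : √P.R * √P.R = P.R := Real.mul_self_sqrt P.R_pos.le
  have h5 := P.hqH
  have h6 := P.hH
  constructor
  · nlinarith
  · nlinarith

/-- The support of a piece of level `0`, in the frame of the centre of its arc. -/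
theorem supp_piece (hG : P.Good G) {κ : ℕ} {ξ : V2} (hξ : P.piece G 0 κ ξ ≠ 0) :
    (P.R - 1 ≤ ⟪ξ, dir (P.cen 0 κ)⟫_ℝ ∧ ⟪ξ, dir (P.cen 0 κ)⟫_ℝ ≤ P.R - 1 + (P.H + 1)) ∧
    (-(π / 2 * √P.R) ≤ ⟪ξ, nrm (P.cen 0 κ)⟫_ℝ ∧
      ⟪ξ, nrm (P.cen 0 κ)⟫_ℝ ≤ -(π / 2 * √P.R) + π * √P.R) := by
  have hξ1 : ξ ∈ {ξ | P.idx 0 ξ = κ} := by
    by_contra h
    exact hξ (Set.indicator_of_notMem h _)
  have hξ2 : G ξ ≠ 0 := by
    intro h
    apply hξ
    unfold Par.piece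
    rw [Set.indicator_apply, h]
    simp
  have hξ3 : ξ ∈ ann P.R P.H := (hG.supp ξ hξ2).1
  obtain ⟨r, φ, e, hr1, hr2, hφ⟩ := P.ann_rep hξ3
  obtain ⟨hφ1, hφ2⟩ := hφ 0 (Nat.zero_le _)
  have hid : P.idx 0 ξ = κ := hξ1
  rw [hid] at hφ1 hφ2
  obtain ⟨hR2, hHR⟩ := R_ge (P := P)
  obtain ⟨hl1, hl2⟩ := P.l_zero_bounds
  have hs := P.sqrtR_pos
  have hRR : √P.R * √P.R = P.R := Real.mul_self_sqrt P.R_pos.le
  have hl := P.l_pos 0
  have hπ := Real.pi_pos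
  have hπ4 := Real.pi_le_four
  set x := φ - P.cen 0 κ with hx
  have hx1 : |x| ≤ P.l 0 / 2 := by
    rw [hx, Par.cen, abs_le]
    constructor <;> linarith
  have hx2 : x ^ 2 ≤ (P.l 0 / 2) ^ 2 := by
    rw [← sq_abs]
    exact pow_le_pow_left₀ (abs_nonneg _) hx1 2
  have hRl : P.R * P.l 0 ^ 2 ≤ (π / 2) ^ 2 := by
    calc P.R * P.l 0 ^ 2 = (√P.R * P.l 0) ^ 2 := by rw [mul_pow, sq (√P.R), hRR]
      _ ≤ _ := pow_le_pow_left₀ (by positivity) hl2 2
  have hπ2 : π ^ 2 ≤ 16 := by nlinarith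
  have hc1 := Real.one_sub_sq_div_two_le_cos (x := x)
  have hc2 := Real.cos_le_one x
  have hr : 0 < r := by linarith [P.R_pos]
  have i1 : ⟪ξ, dir (P.cen 0 κ)⟫_ℝ = r * Real.cos x := by
    rw [e, real_inner_smul_left, inner_dir_dir]
  have i2 : ⟪ξ, nrm (P.cen 0 κ)⟫_ℝ = r * Real.sin x := by
    rw [e, real_inner_smul_left, real_inner_comm, inner_nrm_dir]
  have hsin : |Real.sin x| ≤ |x| := Real.abs_sin_le_abs
  have hrs : |r * Real.sin x| ≤ π / 2 * √P.R := by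
    rw [abs_mul, abs_of_pos hr]
    calc r * |Real.sin x| ≤ (P.R + P.H) * (P.l 0 / 2) :=
          mul_le_mul hr2 (hsin.trans hx1) (abs_nonneg _) (by linarith)
      _ ≤ (P.R + P.R) * (P.l 0 / 2) := by gcongr
      _ = P.R * P.l 0 := by ring
      _ = √P.R * (√P.R * P.l 0) := by rw [← mul_assoc, hRR]
      _ ≤ √P.R * (π / 2) := by gcongr
      _ = _ := by ring
  rw [i1, i2]
  refine ⟨⟨?_, ?_⟩, ?_⟩
  · have h1 : P.R * (1 - x ^ 2 / 2) ≤ r * Real.cos x := by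
      have : 0 ≤ 1 - x ^ 2 / 2 := by
        have : x ^ 2 ≤ 2 := by
          by_contra hcon
          have h3 : P.R * x ^ 2 ≤ P.R * (P.l 0 / 2) ^ 2 := by gcongr
          nlinarith
        linarith
      calc P.R * (1 - x ^ 2 / 2) ≤ r * (1 - x ^ 2 / 2) := by gcongr
        _ ≤ _ := by gcongr
    have h2 : P.R * x ^ 2 ≤ P.R * (P.l 0 / 2) ^ 2 := by
      have := P.R_pos
      gcongr
    nlinarith
  · nlinarith
  · have := abs_le.1 hrs
    constructor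
    · linarith [this.1]
    · linarith [this.2]

/-- The basic domination. -/
theorem dom0 (hG : P.Good G) (κ : ℕ) {g : V2 → ℂ} (hi : Integrable g)
    (hgp : ∀ ξ, g ξ ≠ 0 → P.piece G 0 κ ξ ≠ 0) {s s' l : ℝ} (hs : |s| ≤ P.y0) (hl : 1 ≤ l)
    (hs' : |s'| ≤ l * (1 / √P.R)) (x : V2) :
    ‖𝓕⁻ (fun ξ => ((Real.exp (2 * π * ⟪ξ, s • dir (P.cen 0 κ) + s' • nrm (P.cen 0 κ)⟫_ℝ) : ℝ) :
      ℂ) * g ξ) x‖ ^ 2 ≤
      l * Real.exp (4 * π * s * (P.R - 1) + 2 * π * (P.y0 + s) * (P.H + 1) + 2 * π ^ 2 * l) *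
        pav P.y0 (dir (P.cen 0 κ)) (pav (1 / √P.R) (nrm (P.cen 0 κ))
        (fun z => ‖𝓕⁻ g z‖ ^ 2)) x := by
  have hsq := P.sqrtR_pos
  have hy0 : 0 < P.y0 := by linarith [P.hy0]
  have hy' : 0 < 1 / √P.R := by positivity
  have k1 := shift_two hi (norm_dir (P.cen 0 κ)) (norm_nrm (P.cen 0 κ)) (a := P.R - 1)
    (h := P.H + 1) (s := s) (y := P.y0) (a' := -(π / 2 * √P.R)) (h' := π * √P.R) (s' := s')
    (y' := l * (1 / √P.R)) (by linarith [P.hH]) hs hy0 (by positivity) hs' (by positivity)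
    (fun ξ hξ => supp_piece hG (hgp ξ hξ)) x
  refine k1.trans ?_
  have e1 : (4 * π * s * (P.R - 1) + 2 * π * (P.y0 + s) * (P.H + 1)) +
      (4 * π * s' * -(π / 2 * √P.R) + 2 * π * (l * (1 / √P.R) + s') * (π * √P.R)) =
      4 * π * s * (P.R - 1) + 2 * π * (P.y0 + s) * (P.H + 1) + 2 * π ^ 2 * l := by
    field_simp
    ring
  rw [e1]
  have k2 : pav P.y0 (dir (P.cen 0 κ)) (pav (l * (1 / √P.R)) (nrm (P.cen 0 κ))
      (fun z => ‖𝓕⁻ g z‖ ^ 2)) x ≤ l * pav P.y0 (dir (P.cen 0 κ))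
        (pav (1 / √P.R) (nrm (P.cen 0 κ)) (fun z => ‖𝓕⁻ g z‖ ^ 2)) x := by
    refine pav_le hy0 _ (pav_cont (by positivity) _ (sq_cont hi) (sq_bdd hi))
      (pav_cont (by positivity) _ (sq_cont hi) (sq_bdd hi))
      (pav_bdd (by positivity) _ (sq_bdd hi)) (pav_bdd (by positivity) _ (sq_bdd hi))
      (by linarith) (fun z => ?_) x
    exact pav_scale_le hy' hl _ (sq_cont hi) (fun z => by positivity) (sq_bdd hi) z
  refine (mul_le_mul_of_nonneg_left k2 (Real.exp_pos _).le).trans (le_of_eq ?_)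
  ring

theorem dom (hG : P.Good G) (κ : ℕ) {s s' l : ℝ} (hs : |s| ≤ P.y0) (hl : 1 ≤ l)
    (hs' : |s'| ≤ l * (1 / √P.R)) (x : V2) :
    ‖𝓕⁻ (fun ξ => ((Real.exp (2 * π * ⟪ξ, s • dir (P.cen 0 κ) + s' • nrm (P.cen 0 κ)⟫_ℝ) : ℝ) :
      ℂ) * P.piece G 0 κ ξ) x‖ ^ 2 ≤
      l * Real.exp (4 * π * s * (P.R - 1) + 2 * π * (P.y0 + s) * (P.H + 1) + 2 * π ^ 2 * l) *
        P.E G κ x :=
  dom0 hG κ (int_piece hG 0 κ) (fun _ h => h) hs hl hs' x

/-- Rotated directions in a frame. -/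
theorem dir_rot (φ ψ : ℝ) : dir φ = Real.cos (φ - ψ) • dir ψ + Real.sin (φ - ψ) • nrm ψ := by
  have h : φ = (φ - ψ) + ψ := by ring
  have h1 : Real.cos φ = Real.cos (φ - ψ) * Real.cos ψ - Real.sin (φ - ψ) * Real.sin ψ := by
    rw [← Real.cos_add, ← h]
  have h2 : Real.sin φ = Real.sin (φ - ψ) * Real.cos ψ + Real.cos (φ - ψ) * Real.sin ψ := by
    rw [← Real.sin_add, ← h]
  ext i
  fin_cases i
  · simp [dir, nrm, h1]
    ring
  · simp [dir, nrm, h2]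
    ring

/-- A packet as an exponential multiplier. -/
theorem pkt_eq (G : V2 → ℂ) (ρ y φ ψ : ℝ) (x : V2) :
    ‖pkt G ρ y (dir φ) x‖ ^ 2 = Real.exp (-(4 * π * y * ρ)) *
      ‖𝓕⁻ (fun ξ => ((Real.exp (2 * π * ⟪ξ, (y * Real.cos (φ - ψ)) • dir ψ +
        (y * Real.sin (φ - ψ)) • nrm ψ⟫_ℝ) : ℝ) : ℂ) * G ξ) x‖ ^ 2 := by
  have e : pkt G ρ y (dir φ) x = ((Real.exp (-(2 * π * y * ρ)) : ℝ) : ℂ) *
      𝓕⁻ (fun ξ => ((Real.exp (2 * π * ⟪ξ, (y * Real.cos (φ - ψ)) • dir ψ +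
        (y * Real.sin (φ - ψ)) • nrm ψ⟫_ℝ) : ℝ) : ℂ) * G ξ) x := by
    rw [pkt, fourierInv_formula, fourierInv_formula, ← integral_const_mul]
    refine integral_congr_ae (Eventually.of_forall fun ξ => ?_)
    simp only [damp]
    have e2 : Real.exp (-(2 * π * y * (ρ - ⟪ξ, dir φ⟫_ℝ))) = Real.exp (-(2 * π * y * ρ)) *
        Real.exp (2 * π * ⟪ξ, (y * Real.cos (φ - ψ)) • dir ψ +
        (y * Real.sin (φ - ψ)) • nrm ψ⟫_ℝ) := by
      rw [← Real.exp_add]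
      congr 1
      have : (y * Real.cos (φ - ψ)) • dir ψ + (y * Real.sin (φ - ψ)) • nrm ψ = y • dir φ := by
        rw [dir_rot φ ψ, smul_add, smul_smul, smul_smul]
      rw [this, inner_smul_right]
      ring
    rw [e2]
    push_cast
    ring
  rw [e, norm_mul, mul_pow, Complex.norm_real, Real.norm_of_nonneg (Real.exp_pos _).le,
    ← Real.exp_nat_mul]
  congr 2
  push_cast
  ring

/-- The domination for the packets of a piece. -/
theorem dom_pkt (hG : P.Good G) (κ : ℕ) {y φ l : ℝ} (hy : 0 ≤ y) (hyy : y ≤ P.y0) (hl : 1 ≤ l)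
    (hs' : |y * Real.sin (φ - P.cen 0 κ)| ≤ l * (1 / √P.R)) (x : V2) :
    ‖pkt (P.piece G 0 κ) P.ρ y (dir φ) x‖ ^ 2 ≤
      l * Real.exp (4 * π * y * (Real.cos (φ - P.cen 0 κ) * (P.R - 1) - P.ρ) +
        2 * π * (P.y0 + y * Real.cos (φ - P.cen 0 κ)) * (P.H + 1) + 2 * π ^ 2 * l) *
        P.E G κ x := by
  rw [pkt_eq _ _ _ φ (P.cen 0 κ)]
  have hs : |y * Real.cos (φ - P.cen 0 κ)| ≤ P.y0 := by
    rw [abs_mul, abs_of_nonneg hy]
    have := Real.abs_cos_le_one (φ - P.cen 0 κ)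
    nlinarith [abs_nonneg (Real.cos (φ - P.cen 0 κ))]
  have k := dom hG κ hs hl hs' x
  refine (mul_le_mul_of_nonneg_left k (Real.exp_pos _).le).trans (le_of_eq ?_)
  rw [← mul_assoc, mul_left_comm, ← Real.exp_add]
  congr 3
  ring

theorem E_nonneg (P : Par) (G : V2 → ℂ) (κ : ℕ) (x : V2) : 0 ≤ P.E G κ x := by
  have hsq := P.sqrtR_pos
  have hy0 : 0 < P.y0 := by linarith [P.hy0]
  unfold Par.E
  refine integral_nonneg fun t => mul_nonneg (pk_nonneg hy0 _) ?_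
  exact integral_nonneg fun t => mul_nonneg (pk_nonneg (by positivity) _) (by positivity)

end Dom2

namespace Par

open Dom2

theorem K1 (H y0 : ℝ) : ∃ C : ℝ, 0 < C ∧ ∀ P : Par, P.H = H → P.y0 = y0 →
    ∀ G, P.Good G → ∀ κ < P.M 0, ∀ x, ‖P.gp G 0 κ x‖ ^ 2 ≤ C * P.E G κ x ∧
      ‖P.T0 (P.piece G 0 κ) κ x‖ ^ 2 ≤ C * P.E G κ x ∧
      ‖P.gp G 0 κ x‖ ^ 2 ≤ C * pav P.y0 (dir (P.cen 0 κ)) (pav (1 / √P.R) (nrm (P.cen 0 κ))
        (fun z => ‖P.T0 (P.piece G 0 κ) κ z‖ ^ 2)) x := by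
  refine ⟨Real.exp (4 * π * |y0| * (|H| + 1) + 2 * π ^ 2), Real.exp_pos _, ?_⟩
  rintro P rfl rfl G hG κ hκ x
  have hH := P.hH
  have hy0 := P.hy0
  have hπ := Real.pi_pos
  have hsq := P.sqrtR_pos
  rw [abs_of_pos (by linarith : 0 < P.H), abs_of_pos (by linarith : 0 < P.y0)]
  have hE := E_nonneg P G κ x
  have hyH : 0 ≤ π * P.y0 * (P.H + 1) := by positivity
  refine ⟨?_, ?_, ?_⟩
  · have k := dom hG κ (s := 0) (s' := 0) (l := 1) (by simp; linarith) le_rfl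
      (by simp) x
    simp only [zero_smul, add_zero, inner_zero_right, mul_zero, Real.exp_zero, Complex.ofReal_one,
      one_mul, zero_mul, zero_add] at k
    refine k.trans (mul_le_mul_of_nonneg_right (Real.exp_le_exp.2 ?_) hE)
    nlinarith
  · have k := dom_pkt hG κ (y := P.y0) (φ := P.cen 0 κ) (l := 1) (by linarith) le_rfl le_rfl
      (by simp) x
    rw [sub_self, Real.cos_zero, one_mul, one_mul, mul_one] at k
    refine k.trans (mul_le_mul_of_nonneg_right (Real.exp_le_exp.2 ?_) hE)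
    unfold ρ
    nlinarith
  · set ω := dir (P.cen 0 κ) with hω
    set g := damp (P.piece G 0 κ) ω P.ρ P.y0 with hg
    have hpi := int_piece hG 0 κ
    have hi : Integrable g :=
      Integrable.mono hpi ((continuous_dampFactor ω P.ρ P.y0).aestronglyMeasurable.mul
        hpi.aestronglyMeasurable) (Eventually.of_forall
          (norm_damp_le (g := P.piece G 0 κ) (by linarith) (fun ξ hξ => by
            have := (supp_piece hG hξ).1.2
            unfold ρ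
            linarith)))
    have hsupp : ∀ ξ, g ξ ≠ 0 → P.piece G 0 κ ξ ≠ 0 := by
      intro ξ h h0
      apply h
      rw [hg]
      simp [damp, h0]
    have k := dom0 hG κ hi hsupp (s := -P.y0) (s' := 0) (l := 1)
      (by rw [abs_neg, abs_of_pos (by linarith)]) le_rfl (by simp) x
    have e : P.gp G 0 κ x = ((Real.exp (2 * π * P.y0 * P.ρ) : ℝ) : ℂ) *
        𝓕⁻ (fun ξ => ((Real.exp (2 * π * ⟪ξ, (-P.y0) • dir (P.cen 0 κ) +
          (0 : ℝ) • nrm (P.cen 0 κ)⟫_ℝ) : ℝ) : ℂ) * g ξ) x := by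
      rw [gp, fourierInv_formula, fourierInv_formula, ← integral_const_mul]
      refine integral_congr_ae (Eventually.of_forall fun ξ => ?_)
      simp only [hg, damp]
      have e2 : (1 : ℝ) = Real.exp (2 * π * P.y0 * P.ρ) *
          (Real.exp (2 * π * ⟪ξ, (-P.y0) • dir (P.cen 0 κ) + (0 : ℝ) • nrm (P.cen 0 κ)⟫_ℝ) *
          Real.exp (-(2 * π * P.y0 * (P.ρ - ⟪ξ, ω⟫_ℝ)))) := by
        rw [← Real.exp_add, ← Real.exp_add, zero_smul, add_zero, inner_smul_right, ← hω,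
          ← Real.exp_zero]
        congr 1
        ring
      have e3 : (1 : ℂ) = ((Real.exp (2 * π * P.y0 * P.ρ) : ℝ) : ℂ) *
          (((Real.exp (2 * π * ⟪ξ, (-P.y0) • dir (P.cen 0 κ) +
            (0 : ℝ) • nrm (P.cen 0 κ)⟫_ℝ) : ℝ) : ℂ) *
          ((Real.exp (-(2 * π * P.y0 * (P.ρ - ⟪ξ, ω⟫_ℝ))) : ℝ) : ℂ)) := by
        exact_mod_cast e2
      calc Complex.exp (2 * π * ⟪ξ, x⟫_ℝ * Complex.I) * P.piece G 0 κ ξ =
          1 * (Complex.exp (2 * π * ⟪ξ, x⟫_ℝ * Complex.I) * P.piece G 0 κ ξ) := by ring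
        _ = _ := by rw [e3]; ring
    rw [e, norm_mul, mul_pow, Complex.norm_real, Real.norm_of_nonneg (Real.exp_pos _).le,
      ← Real.exp_nat_mul]
    refine (mul_le_mul_of_nonneg_left k (Real.exp_pos _).le).trans ?_
    rw [one_mul, ← mul_assoc, ← Real.exp_add]
    refine mul_le_mul_of_nonneg_right (Real.exp_le_exp.2 ?_) ?_
    · push_cast
      unfold ρ
      nlinarith
    · refine integral_nonneg fun t => mul_nonneg (pk_nonneg (by linarith) _) ?_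
      exact integral_nonneg fun t => mul_nonneg (pk_nonneg (by positivity) _) (by positivity)

theorem l_eq (P : Par) {i : ℕ} (hi : i ≤ P.k) : P.l i = (P.b : ℝ) ^ i * P.l 0 := by
  induction i with
  | zero => simp
  | succ n ih =>
    rw [P.l_succ hi, ih (by omega), pow_succ]
    ring

theorem K2 (H y0 : ℝ) : ∃ C : ℝ, 0 < C ∧ ∀ P : Par, P.H = H → P.y0 = y0 →
    ∀ G, P.Good G → ∀ i, 1 ≤ i → i ≤ P.k → ∀ κ < P.M 0, ∀ L < P.M (i - 1),
      κ / P.b ^ i = L / P.b → ∀ x, ‖P.T (P.piece G 0 κ) i L x‖ ^ 2 ≤ C * P.E G κ x := by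
  refine ⟨2 * Real.exp (4 * π * |y0| * (|H| + 1) + 4 * π ^ 2), by positivity, ?_⟩
  rintro P rfl rfl G hG i hi1 hik κ hκ L hL hκL x
  have hH := P.hH
  have hy0 := P.hy0
  have hπ := Real.pi_pos
  have hπ3 := Real.pi_gt_three
  have hsq := P.sqrtR_pos
  have hRpos := P.R_pos
  rw [abs_of_pos (by linarith : 0 < P.H), abs_of_pos (by linarith : 0 < P.y0)]
  have hE := E_nonneg P G κ x
  have hl0 := P.l_pos 0
  have hli := P.l_pos i
  obtain ⟨hb1, hb2⟩ := P.l_zero_bounds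
  have hq4 : (4 : ℝ) ≤ P.q := by exact_mod_cast P.hq4
  have hRR : √P.R * √P.R = P.R := Real.mul_self_sqrt hRpos.le
  have hbq : (P.b : ℝ) = (P.q : ℝ) ^ 4 := by
    unfold b
    push_cast
    rfl
  have hb1' : (1 : ℝ) ≤ P.b := by
    rw [hbq]
    exact one_le_pow₀ (by linarith)
  have hle := P.l_eq hik
  have hbi : (P.b : ℝ) ≤ (P.b : ℝ) ^ i := by
    calc (P.b : ℝ) = (P.b : ℝ) ^ 1 := (pow_one _).symm
      _ ≤ _ := pow_le_pow_right₀ hb1' hi1
  have hbl : (P.b : ℝ) * P.l 0 ≤ P.l i := by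
    rw [hle]
    gcongr
  have hRl : P.R * P.l 0 ^ 2 = (√P.R * P.l 0) ^ 2 := by rw [mul_pow, sq (√P.R), hRR]
  have hyi : P.y i = (P.q : ℝ) ^ 4 / (P.R * P.l i ^ 2) := by
    unfold y
    rw [if_neg (by omega)]
  have hyi0 : 0 < P.y i := by
    rw [hyi]
    have := P.q_pos
    positivity
  have hy1 : P.y i ≤ 1 := by
    rw [hyi, div_le_one (by positivity), ← hbq]
    calc (P.b : ℝ) ≤ (P.b : ℝ) ^ 2 * (√P.R * P.l 0) ^ 2 := by
          have h1 : (1 : ℝ) / 2 ≤ (√P.R * P.l 0) ^ 2 := by nlinarith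
          have h2 : (2 : ℝ) ≤ P.b := by
            rw [hbq]
            calc (2 : ℝ) ≤ 4 ^ 4 := by norm_num
              _ ≤ _ := by gcongr
          have h3 : (P.b : ℝ) ^ 2 * (1 / 2) ≤ (P.b : ℝ) ^ 2 * (√P.R * P.l 0) ^ 2 := by gcongr
          nlinarith
      _ = P.R * ((P.b : ℝ) * P.l 0) ^ 2 := by rw [← hRl]; ring
      _ ≤ P.R * P.l i ^ 2 := by gcongr
  have hyl : P.y i * P.l i ≤ 2 * (1 / √P.R) := by
    have e1 : P.y i * P.l i = (P.b : ℝ) / (P.R * P.l i) := by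
      rw [hyi, hbq]
      field_simp
    rw [e1, mul_one_div, div_le_div_iff₀ (by positivity) hsq]
    calc (P.b : ℝ) * √P.R ≤ 2 * ((P.b : ℝ) * √P.R * (√P.R * P.l 0)) := by
          have : (1 : ℝ) / 2 ≤ √P.R * P.l 0 := by linarith
          have h2 : (P.b : ℝ) * √P.R * (1 / 2) ≤ (P.b : ℝ) * √P.R * (√P.R * P.l 0) := by gcongr
          linarith
      _ = 2 * ((√P.R * √P.R) * ((P.b : ℝ) * P.l 0)) := by ring
      _ = 2 * (P.R * ((P.b : ℝ) * P.l 0)) := by rw [hRR]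
      _ ≤ 2 * (P.R * P.l i) := by gcongr
  have hli' : P.l i = P.b * P.l (i - 1) := by
    have := P.l_succ (i := i - 1) (by omega)
    rwa [Nat.sub_add_cancel hi1] at this
  have hΔ : |P.cen (i - 1) L - P.cen 0 κ| ≤ P.l i := by
    have hl1 := P.l_pos (i - 1)
    set j := L / P.b with hj
    have hbp := P.b_pos
    have a1 : j * P.b ≤ L := Nat.div_mul_le_self _ _
    have a2 : L + 1 ≤ (j + 1) * P.b := by
      have := Nat.lt_div_mul_add (a := L) hbp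
      rw [← hj] at this
      nlinarith
    have hbip : 0 < P.b ^ i := pow_pos hbp _
    have a3 : j * P.b ^ i ≤ κ := by
      rw [← hκL]
      exact Nat.div_mul_le_self _ _
    have a4 : κ + 1 ≤ (j + 1) * P.b ^ i := by
      have := Nat.lt_div_mul_add (a := κ) hbip
      rw [hκL] at this
      nlinarith
    have b1 : (j : ℝ) * P.b ≤ L := by exact_mod_cast a1
    have b2 : (L : ℝ) + 1 ≤ (j + 1) * P.b := by exact_mod_cast a2
    have b3 : (j : ℝ) * (P.b : ℝ) ^ i ≤ κ := by exact_mod_cast a3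
    have b4 : (κ : ℝ) + 1 ≤ (j + 1) * (P.b : ℝ) ^ i := by exact_mod_cast a4
    have c1 : (j : ℝ) * P.l i ≤ L * P.l (i - 1) := by
      rw [hli', ← mul_assoc]
      gcongr
    have c2 : ((L : ℝ) + 1) * P.l (i - 1) ≤ (j + 1) * P.l i := by
      rw [hli', ← mul_assoc]
      gcongr
    have c3 : (j : ℝ) * P.l i ≤ κ * P.l 0 := by
      rw [hle, ← mul_assoc]
      gcongr
    have c4 : ((κ : ℝ) + 1) * P.l 0 ≤ (j + 1) * P.l i := by
      rw [hle, ← mul_assoc]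
      gcongr
    unfold cen
    rw [abs_le]
    constructor <;> linarith
  have hs' : |P.y i * Real.sin (P.cen (i - 1) L - P.cen 0 κ)| ≤ 2 * (1 / √P.R) := by
    rw [abs_mul, abs_of_pos hyi0]
    refine le_trans ?_ hyl
    have : |Real.sin (P.cen (i - 1) L - P.cen 0 κ)| ≤ |P.cen (i - 1) L - P.cen 0 κ| :=
      Real.abs_sin_le_abs
    have := this.trans hΔ
    gcongr
  have k := dom_pkt hG κ (y := P.y i) (φ := P.cen (i - 1) L) (l := 2) hyi0.le
    (hy1.trans hy0) (by norm_num) hs' x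
  refine k.trans (mul_le_mul_of_nonneg_right ?_ hE)
  refine mul_le_mul_of_nonneg_left (Real.exp_le_exp.2 ?_) (by norm_num)
  set c := Real.cos (P.cen (i - 1) L - P.cen 0 κ) with hc
  have hc1 : c ≤ 1 := Real.cos_le_one _
  obtain ⟨hR2, hHR⟩ := R_ge (P := P)
  have t1 : 4 * π * P.y i * (c * (P.R - 1) - P.ρ) ≤ 0 := by
    have : c * (P.R - 1) - P.ρ ≤ 0 := by
      unfold ρ
      nlinarith
    exact mul_nonpos_of_nonneg_of_nonpos (by positivity) this
  have t2 : 2 * π * (P.y0 + P.y i * c) * (P.H + 1) ≤ 2 * π * (P.y0 + P.y0) * (P.H + 1) := by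
    have h5 : P.y i * c ≤ P.y i * 1 := mul_le_mul_of_nonneg_left hc1 hyi0.le
    have h6 : P.y0 + P.y i * c ≤ P.y0 + P.y0 := by linarith
    have h7 : 0 ≤ P.H + 1 := by linarith
    exact mul_le_mul_of_nonneg_right (mul_le_mul_of_nonneg_left h6 (by positivity)) h7
  linarith

/-- The cyclic distance as an angle. -/
theorem cd_angle (P : Par) {κ κ' : ℕ} (hκ : κ < P.M 0) (hκ' : κ' < P.M 0) :
    0 ≤ P.cd κ κ' ∧ P.cd κ κ' * P.l 0 ≤ π ∧
    Real.cos (P.cen 0 κ - P.cen 0 κ') = Real.cos (P.cd κ κ' * P.l 0) ∧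
    |Real.sin (P.cen 0 κ - P.cen 0 κ')| = |Real.sin (P.cd κ κ' * P.l 0)| := by
  have hM := P.l_mul_M 0
  have hl := P.l_pos 0
  have h1 : (κ : ℝ) < P.M 0 := by exact_mod_cast hκ
  have h2 : (κ' : ℝ) < P.M 0 := by exact_mod_cast hκ'
  have h3 : (0 : ℝ) ≤ κ := Nat.cast_nonneg _
  have h4 : (0 : ℝ) ≤ κ' := Nat.cast_nonneg _
  set n := |(κ : ℝ) - κ'| with hn
  have hn0 : 0 ≤ n := abs_nonneg _
  have hnM : n ≤ P.M 0 := by
    rw [hn, abs_le]
    constructor <;> linarith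
  have e1 : P.cen 0 κ - P.cen 0 κ' = ((κ : ℝ) - κ') * P.l 0 := by
    unfold cen
    ring
  have e2 : Real.cos (P.cen 0 κ - P.cen 0 κ') = Real.cos (n * P.l 0) := by
    rw [e1, ← Real.cos_abs, abs_mul, abs_of_pos hl]
  have e3 : |Real.sin (P.cen 0 κ - P.cen 0 κ')| = |Real.sin (n * P.l 0)| := by
    rw [e1]
    rcases abs_cases ((κ : ℝ) - κ') with ⟨h, _⟩ | ⟨h, _⟩
    · rw [hn, h]
    · rw [hn, h, neg_mul, Real.sin_neg, abs_neg]
  rw [e2, e3]
  unfold cd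
  rw [← hn]
  rcases le_total n (P.M 0 - n) with h | h
  · rw [min_eq_left h]
    refine ⟨hn0, ?_, rfl, rfl⟩
    nlinarith
  · rw [min_eq_right h]
    have e4 : ((P.M 0 : ℝ) - n) * P.l 0 = 2 * π - n * P.l 0 := by
      rw [sub_mul, ← hM]
      ring
    refine ⟨by linarith, ?_, ?_, ?_⟩
    · nlinarith
    · rw [e4, Real.cos_two_pi_sub]
    · rw [e4, Real.sin_two_pi_sub, abs_neg]

theorem K3 (H y0 : ℝ) : ∃ C : ℝ, 0 < C ∧ ∀ P : Par, P.H = H → P.y0 = y0 →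
    ∀ G, P.Good G → ∀ κ < P.M 0, ∀ κ' < P.M 0, ∀ x,
      ‖P.T0 (P.piece G 0 κ') κ x‖ ^ 2 ≤ C * Real.exp (-(2 * P.cd κ κ')) * P.E G κ' x := by
  refine ⟨Real.exp (2 * π ^ 2 + 700 * |y0|), Real.exp_pos _, ?_⟩
  rintro P rfl rfl G hG κ hκ κ' hκ' x
  have hH := P.hH
  have hy0 := P.hy0
  have hπ := Real.pi_pos
  have hπ3 := Real.pi_gt_three
  have hπ4 := Real.pi_lt_d2
  have hsq := P.sqrtR_pos
  have hRpos := P.R_pos
  rw [abs_of_pos (by linarith : 0 < P.y0)]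
  have hE := E_nonneg P G κ' x
  have hl0 := P.l_pos 0
  obtain ⟨hb1, hb2⟩ := P.l_zero_bounds
  have hRR : √P.R * √P.R = P.R := Real.mul_self_sqrt hRpos.le
  obtain ⟨hc0, hcπ, hcos, hsin⟩ := P.cd_angle hκ hκ'
  set c := P.cd κ κ' with hc
  obtain ⟨hR2, hHR⟩ := R_ge (P := P)
  have hs' : |P.y0 * Real.sin (P.cen 0 κ - P.cen 0 κ')| ≤ (1 + 2 * P.y0 * c) * (1 / √P.R) := by
    rw [abs_mul, abs_of_pos (by linarith : 0 < P.y0), hsin]
    have h1 : |Real.sin (c * P.l 0)| ≤ c * P.l 0 := by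
      have : |Real.sin (c * P.l 0)| ≤ |c * P.l 0| := Real.abs_sin_le_abs
      rwa [abs_of_nonneg (by positivity : 0 ≤ c * P.l 0)] at this
    have h2 : P.l 0 ≤ 2 * (1 / √P.R) := by
      rw [mul_one_div, le_div_iff₀ hsq]
      linarith
    calc P.y0 * |Real.sin (c * P.l 0)| ≤ P.y0 * (c * (2 * (1 / √P.R))) := by
          have := h1.trans (mul_le_mul_of_nonneg_left h2 hc0)
          gcongr
      _ = 2 * P.y0 * c * (1 / √P.R) := by ring
      _ ≤ (1 + 2 * P.y0 * c) * (1 / √P.R) := by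
          gcongr
          linarith
  have k := dom_pkt hG κ' (y := P.y0) (φ := P.cen 0 κ) (l := 1 + 2 * P.y0 * c) (by linarith)
    le_rfl (by nlinarith [mul_nonneg (by linarith : 0 ≤ P.y0) hc0]) hs' x
  refine k.trans (mul_le_mul_of_nonneg_right ?_ hE)
  rw [hcos]
  set C := Real.cos (c * P.l 0) with hC
  have hC1 : C ≤ 1 := Real.cos_le_one _
  have hC2 : C ≤ 1 - 2 / π ^ 2 * (c * P.l 0) ^ 2 := by
    refine Real.cos_le_one_sub_mul_cos_sq ?_
    rw [abs_of_nonneg (by positivity)]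
    exact hcπ
  have key : c ^ 2 / 16 ≤ (1 - C) * (P.R - 1) := by
    have h1 : P.R / 2 ≤ P.R - 1 := by linarith
    have h2 : (π / 4) ^ 2 ≤ P.R * P.l 0 ^ 2 := by
      calc (π / 4) ^ 2 ≤ (√P.R * P.l 0) ^ 2 := pow_le_pow_left₀ (by positivity) hb1 2
        _ = _ := by rw [mul_pow, sq (√P.R), hRR]
    calc c ^ 2 / 16 = (π / 4) ^ 2 * (c ^ 2 / π ^ 2) := by
          field_simp
          norm_num
      _ ≤ P.R * P.l 0 ^ 2 * (c ^ 2 / π ^ 2) := by gcongr
      _ = (2 / π ^ 2 * (c * P.l 0) ^ 2) * (P.R / 2) := by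
          field_simp
      _ ≤ (1 - C) * (P.R - 1) := by
          refine mul_le_mul (by linarith) h1 (by positivity) (by linarith)
  have hyc : 0 ≤ P.y0 * c := by positivity
  have hl : 1 + 2 * P.y0 * c ≤ Real.exp (2 * P.y0 * c) := by
    have := Real.add_one_le_exp (2 * P.y0 * c)
    linarith
  calc (1 + 2 * P.y0 * c) * Real.exp (4 * π * P.y0 * (C * (P.R - 1) - P.ρ) +
        2 * π * (P.y0 + P.y0 * C) * (P.H + 1) + 2 * π ^ 2 * (1 + 2 * P.y0 * c)) ≤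
      Real.exp (2 * P.y0 * c) * Real.exp (4 * π * P.y0 * (C * (P.R - 1) - P.ρ) +
        2 * π * (P.y0 + P.y0 * C) * (P.H + 1) + 2 * π ^ 2 * (1 + 2 * P.y0 * c)) := by gcongr
    _ = Real.exp (2 * P.y0 * c + (4 * π * P.y0 * (C * (P.R - 1) - P.ρ) +
        2 * π * (P.y0 + P.y0 * C) * (P.H + 1) + 2 * π ^ 2 * (1 + 2 * P.y0 * c))) := by
        rw [← Real.exp_add]
    _ ≤ Real.exp ((2 * π ^ 2 + 700 * P.y0) + -(2 * c)) := by
        refine Real.exp_le_exp.2 ?_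
        have t1 : 4 * π * P.y0 * (C * (P.R - 1) - P.ρ) + 2 * π * (P.y0 + P.y0 * C) * (P.H + 1) ≤
            -(4 * π * P.y0 * ((1 - C) * (P.R - 1))) := by
          have h8 : 0 ≤ π * P.y0 * (1 - C) * (P.H + 1) := by
            have : 0 ≤ 1 - C := by linarith
            positivity
          have e8 : 4 * π * P.y0 * (C * (P.R - 1) - P.ρ) +
              2 * π * (P.y0 + P.y0 * C) * (P.H + 1) =
              -(4 * π * P.y0 * ((1 - C) * (P.R - 1))) -
                2 * (π * P.y0 * (1 - C) * (P.H + 1)) := by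
            unfold ρ
            ring
          linarith
        have t2 : π * P.y0 * (c ^ 2 / 16) ≤ π * P.y0 * ((1 - C) * (P.R - 1)) := by gcongr
        have t3 : π * P.y0 * c ^ 2 ≥ 3 * P.y0 * c ^ 2 := by
          have : 3 * P.y0 ≤ π * P.y0 := mul_le_mul_of_nonneg_right hπ3.le (by linarith)
          exact mul_le_mul_of_nonneg_right this (sq_nonneg c)
        have t4 : 4 * π ^ 2 * (P.y0 * c) ≤ 40 * (P.y0 * c) := by
          have : 4 * π ^ 2 ≤ 40 := by nlinarith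
          gcongr
        have t5 : c ≤ P.y0 * c := le_mul_of_one_le_left hc0 hy0
        have t6 : 44 * (P.y0 * c) - 3 / 4 * (P.y0 * c ^ 2) ≤ 700 * P.y0 := by
          have h9 : 0 ≤ P.y0 * (c - 88 / 3) ^ 2 := by positivity
          have e9 : P.y0 * (c - 88 / 3) ^ 2 =
              P.y0 * c ^ 2 - 176 / 3 * (P.y0 * c) + 7744 / 9 * P.y0 := by ring
          linarith
        have t7 : 2 * π ^ 2 * (1 + 2 * P.y0 * c) = 2 * π ^ 2 + 4 * π ^ 2 * (P.y0 * c) := by ring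
        have t8 : 4 * π * P.y0 * ((1 - C) * (P.R - 1)) = 4 * (π * P.y0 * ((1 - C) * (P.R - 1))) := by
          ring
        have t9 : π * P.y0 * (c ^ 2 / 16) = (π * P.y0 * c ^ 2) / 16 := by ring
        have t10 : 3 * P.y0 * c ^ 2 = 3 * (P.y0 * c ^ 2) := by ring
        have t11 : 2 * P.y0 * c = 2 * (P.y0 * c) := by ring
        rw [t7, t11]
        rw [t8] at t1
        rw [t9] at t2
        rw [t10] at t3
        linarith
    _ = _ := by rw [Real.exp_add]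

theorem cd_symm (P : Par) (κ κ' : ℕ) : P.cd κ κ' = P.cd κ' κ := by
  unfold cd
  rw [abs_sub_comm]

/-- A packet is the sum of the packets of the pieces. -/
theorem T0_eq_sum (P : Par) {G : V2 → ℂ} (hG : P.Good G) (κ : ℕ) (x : V2) :
    P.T0 G κ x = ∑ κ' ∈ Finset.range (P.M 0), P.T0 (P.piece G 0 κ') κ x := by
  have hi : ∀ κ' ∈ Finset.range (P.M 0), Integrable fun ξ =>
      Complex.exp (2 * π * ⟪ξ, x⟫_ℝ * Complex.I) *
        damp (P.piece G 0 κ') (dir (P.cen 0 κ)) P.ρ P.y0 ξ := by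
    intro κ' _
    have hpi := int_piece hG 0 κ'
    refine transl_facts (G := damp (P.piece G 0 κ') (dir (P.cen 0 κ)) P.ρ P.y0) ?_ x
    refine Integrable.mono hpi ((continuous_dampFactor _ P.ρ P.y0).aestronglyMeasurable.mul
        hpi.aestronglyMeasurable) (Eventually.of_forall
          (norm_damp_le (g := P.piece G 0 κ') (by linarith [P.hy0]) (fun ξ hξ => ?_)))
    have h0 : G ξ ≠ 0 := by
      intro h
      apply hξ
      unfold piece
      rw [Set.indicator_apply, h]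
      simp
    have h1 : ‖ξ‖ ≤ P.R + P.H := (hG.supp ξ h0).1.2
    have h2 : ⟪ξ, dir (P.cen 0 κ)⟫_ℝ ≤ ‖ξ‖ * ‖dir (P.cen 0 κ)‖ := real_inner_le_norm _ _
    rw [norm_dir, mul_one] at h2
    unfold ρ
    linarith
  unfold T0 pkt
  simp only [fourierInv_formula]
  rw [← integral_finsetSum _ hi]
  refine integral_congr_ae (Eventually.of_forall fun ξ => ?_)
  simp only [damp, piece]
  rw [Finset.sum_eq_single_of_mem (P.idx 0 ξ) (Finset.mem_range.2 (P.idx_lt 0 ξ))]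
  · rw [Set.indicator_of_mem (by simp : ξ ∈ {η | P.idx 0 η = P.idx 0 ξ})]
  · intro j _ hj
    rw [Set.indicator_of_notMem (by simp; exact fun h => hj h.symm)]
    simp

theorem K3sum (H y0 : ℝ) : ∃ C : ℝ, 0 < C ∧ ∀ P : Par, P.H = H → P.y0 = y0 →
    ∀ G, P.Good G → ∀ κ < P.M 0, ∀ x, ‖P.T0 G κ x‖ ^ 2 ≤
      C * ∑ κ' ∈ Finset.range (P.M 0), Real.exp (-(P.cd κ κ')) * P.E G κ' x := by
  obtain ⟨C, hC, hK⟩ := K3 H y0
  refine ⟨4 * C, by positivity, ?_⟩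
  intro P hPH hPy G hG κ hκ x
  rw [P.T0_eq_sum hG κ x]
  have h1 : ‖∑ κ' ∈ Finset.range (P.M 0), P.T0 (P.piece G 0 κ') κ x‖ ^ 2 ≤
      (∑ κ' ∈ Finset.range (P.M 0), Real.exp (-(P.cd κ κ'))) *
      ∑ κ' ∈ Finset.range (P.M 0), Real.exp (P.cd κ κ') * ‖P.T0 (P.piece G 0 κ') κ x‖ ^ 2 := by
    refine (pow_le_pow_left₀ (norm_nonneg _) (norm_sum_le _ _) 2).trans ?_
    refine Finset.sum_sq_le_sum_mul_sum_of_sq_le_mul _ (fun i _ => (Real.exp_pos _).le)
      (fun i _ => by positivity) fun i _ => ?_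
    rw [← mul_assoc, ← Real.exp_add, neg_add_cancel, Real.exp_zero, one_mul]
  refine h1.trans ?_
  have h2 : ∑ κ' ∈ Finset.range (P.M 0), Real.exp (-(P.cd κ κ')) ≤ 4 := by
    have := cd_sum P κ hκ
    simpa only [P.cd_symm κ] using this
  have h3 : ∑ κ' ∈ Finset.range (P.M 0), Real.exp (P.cd κ κ') *
      ‖P.T0 (P.piece G 0 κ') κ x‖ ^ 2 ≤
      C * ∑ κ' ∈ Finset.range (P.M 0), Real.exp (-(P.cd κ κ')) * P.E G κ' x := by
    rw [Finset.mul_sum]
    refine Finset.sum_le_sum fun κ' hκ' => ?_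
    have k := hK P hPH hPy G hG κ hκ κ' (Finset.mem_range.1 hκ') x
    refine (mul_le_mul_of_nonneg_left k (Real.exp_pos _).le).trans (le_of_eq ?_)
    have e : Real.exp (P.cd κ κ') * Real.exp (-(2 * P.cd κ κ')) = Real.exp (-(P.cd κ κ')) := by
      rw [← Real.exp_add]
      congr 1
      ring
    calc Real.exp (P.cd κ κ') * (C * Real.exp (-(2 * P.cd κ κ')) * P.E G κ' x) =
        C * (Real.exp (P.cd κ κ') * Real.exp (-(2 * P.cd κ κ'))) * P.E G κ' x := by ring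
      _ = _ := by rw [e]; ring
  calc _ ≤ 4 * (C * ∑ κ' ∈ Finset.range (P.M 0), Real.exp (-(P.cd κ κ')) * P.E G κ' x) := by
        refine mul_le_mul h2 h3 (Finset.sum_nonneg fun i _ => by positivity) (by norm_num)
    _ = _ := by ring

end Par

end REPS
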