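import Pool.Agent.REPS.Cut
import Pool.Agent.REPS.Norm
import Pool.Agent.REPS.Dom2
import Pool.Agent.REPS.Piece
import Pool.Agent.REPS.Geom2

/-!
Project 16, row L2X: the cross terms are orthogonal enough.
-/

open MeasureTheory Filter Topology Real Metric FourierTransform
open scoped ENNReal NNReal InnerProductSpace Pointwise

namespace REPS

open Helper77.TA

namespace X16

/-! ### Abstract part -/

theorem near_card (a : Finset ℕ) (r : ℕ) {D : ℝ} (hD : 0 ≤ D) :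
    ((a.filter (fun s : ℕ => |(r : ℝ) - (s : ℝ)| ≤ D)).card : ℝ) ≤ 2 * D + 1 := by
  have h1 : a.filter (fun s : ℕ => |(r : ℝ) - (s : ℝ)| ≤ D) ⊆ Finset.Icc (r - ⌊D⌋₊) (r + ⌊D⌋₊) := by
    intro s hs
    rw [Finset.mem_filter] at hs
    rw [Finset.mem_Icc]
    have h2 := abs_le.1 hs.2
    have h6 := Nat.lt_floor_add_one D
    constructor
    · by_contra hcon
      have h4 : s + ⌊D⌋₊ + 1 ≤ r := by omega
      have h5 : (s : ℝ) + ⌊D⌋₊ + 1 ≤ r := by exact_mod_cast h4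
      linarith
    · by_contra hcon
      have h4 : r + ⌊D⌋₊ + 1 ≤ s := by omega
      have h5 : (r : ℝ) + ⌊D⌋₊ + 1 ≤ s := by exact_mod_cast h4
      linarith
  have h2 := Finset.card_le_card h1
  rw [Nat.card_Icc] at h2
  have h3 : (a.filter (fun s : ℕ => |(r : ℝ) - (s : ℝ)| ≤ D)).card ≤ 2 * ⌊D⌋₊ + 1 := by omega
  have h4 : ((a.filter (fun s : ℕ => |(r : ℝ) - (s : ℝ)| ≤ D)).card : ℝ) ≤ 2 * ⌊D⌋₊ + 1 := by
    exact_mod_cast h3
  linarith [Nat.floor_le hD]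

theorem near_sum (a : Finset ℕ) (g : ℕ → ℝ) {D : ℝ} (hD : 0 ≤ D) :
    ∑ p ∈ (a ×ˢ a).filter (fun p : ℕ × ℕ => |(p.1 : ℝ) - (p.2 : ℝ)| ≤ D), g p.1 * g p.2 ≤
      (2 * D + 1) * ∑ r ∈ a, g r ^ 2 := by
  classical
  have h1 : ∀ r ∈ a, ∑ s ∈ a, (if |(r : ℝ) - s| ≤ D then g r ^ 2 / 2 else 0) ≤
      (2 * D + 1) * (g r ^ 2 / 2) := by
    intro r _
    rw [← Finset.sum_filter, Finset.sum_const, nsmul_eq_mul]
    exact mul_le_mul_of_nonneg_right (near_card a r hD) (by positivity)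
  have h2 : ∑ r ∈ a, ∑ s ∈ a, (if |(r : ℝ) - s| ≤ D then g s ^ 2 / 2 else 0) =
      ∑ r ∈ a, ∑ s ∈ a, (if |(r : ℝ) - s| ≤ D then g r ^ 2 / 2 else 0) := by
    rw [Finset.sum_comm]
    refine Finset.sum_congr rfl fun s _ => Finset.sum_congr rfl fun r _ => ?_
    rw [abs_sub_comm]
  rw [Finset.sum_filter, Finset.sum_product]
  calc ∑ r ∈ a, ∑ s ∈ a, (if |(((r, s) : ℕ × ℕ).1 : ℝ) - ((r, s) : ℕ × ℕ).2| ≤ D then
        g ((r, s) : ℕ × ℕ).1 * g ((r, s) : ℕ × ℕ).2 else 0)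
      ≤ ∑ r ∈ a, ∑ s ∈ a, ((if |(r : ℝ) - s| ≤ D then g r ^ 2 / 2 else 0) +
          (if |(r : ℝ) - s| ≤ D then g s ^ 2 / 2 else 0)) := by
        refine Finset.sum_le_sum fun r _ => Finset.sum_le_sum fun s _ => ?_
        simp only
        split_ifs
        · nlinarith [sq_nonneg (g r - g s)]
        · simp
    _ = 2 * ∑ r ∈ a, ∑ s ∈ a, (if |(r : ℝ) - s| ≤ D then g r ^ 2 / 2 else 0) := by
        simp only [Finset.sum_add_distrib]
        rw [h2]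
        ring
    _ ≤ 2 * ∑ r ∈ a, (2 * D + 1) * (g r ^ 2 / 2) := by
        have := Finset.sum_le_sum h1
        linarith
    _ = _ := by
        rw [Finset.mul_sum, Finset.mul_sum]
        refine Finset.sum_congr rfl fun r _ => ?_
        ring

theorem band_bdd_mul {W : V2 → ℝ} {c : ℝ} {Z S T : Set V2} {F G : V2 → ℂ}
    (hW : Band (fun x => ((W x - c : ℝ) : ℂ)) Z) (hF : Band F S) (hG : Band G T) :
    Integrable (fun x => (W x : ℂ) * (F x * G x)) := by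
  have h1 := (hF.integrable_mul hG).const_mul (c : ℂ)
  have h2 := hW.integrable_mul (hF.mul hG)
  refine (h1.add h2).congr (Filter.Eventually.of_forall fun x => ?_)
  simp only [Pi.add_apply]
  push_cast
  ring

/-- Integrals of products without resonance vanish. -/
theorem integral_zero {W : V2 → ℝ} {c : ℝ} {Z S T : Set V2} {F G : V2 → ℂ}
    (hW : Band (fun x => ((W x - c : ℝ) : ℂ)) Z) (hF : Band F S) (hG : Band G T)
    (h0 : (0 : V2) ∈ Z) (hd : ∀ ξ ∈ S, ∀ η ∈ T, -(ξ + η) ∉ Z) :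
    ∫ x, (W x : ℂ) * (F x * G x) = 0 := by
  have h1 : ∫ x, F x * G x = 0 := by
    refine hF.integral_mul_eq_zero hG ?_
    rw [Set.disjoint_left]
    intro ξ hξ hη
    have := hd ξ hξ (-ξ) hη
    simp only [add_neg_cancel, neg_zero] at this
    exact this h0
  have h2 : ∫ x, ((W x - c : ℝ) : ℂ) * (F x * G x) = 0 := by
    refine hW.integral_mul_eq_zero (hF.mul hG) ?_
    rw [Set.disjoint_left]
    intro z hz hz'
    rw [Set.mem_neg, Set.mem_add] at hz'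
    obtain ⟨ξ, hξ, η, hη, h⟩ := hz'
    apply hd ξ hξ η hη
    rw [h, neg_neg]
    exact hz
  have e : ∀ x, (W x : ℂ) * (F x * G x) =
      (c : ℂ) * (F x * G x) + ((W x - c : ℝ) : ℂ) * (F x * G x) := by
    intro x
    push_cast
    ring
  simp_rw [e]
  rw [integral_add ((hF.integrable_mul hG).const_mul (c : ℂ)) (hW.integrable_mul (hF.mul hG)),
    integral_const_mul, h1, h2]
  simp

theorem sq_sum_eq (a : Finset ℕ) (z : ℕ → ℂ) : ((‖∑ κ ∈ a, z κ‖ ^ 2 : ℝ) : ℂ) =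
    ∑ p ∈ a ×ˢ a, z p.1 * (starRingEnd ℂ) (z p.2) := by
  rw [← mul_conj_self, map_sum, Finset.sum_mul_sum, Finset.sum_product]

/-- Biorthogonality. -/
theorem biorth {a a' : Finset ℕ} {f : ℕ → V2 → ℂ} {S : ℕ → Set V2}
    (hf : ∀ κ ∈ a, Band (f κ) (S κ)) (hf' : ∀ κ ∈ a', Band (f κ) (S κ)) {D : ℝ} (hD : 0 ≤ D)
    {W : V2 → ℝ} {c : ℝ} {Z : Set V2} (hW : Band (fun x => ((W x - c : ℝ) : ℂ)) Z)
    (hW0 : ∀ x, 0 ≤ W x) (h0 : (0 : V2) ∈ Z)
    (hfar : ∀ κ₁ ∈ a, ∀ κ₂ ∈ a, ∀ κ₃ ∈ a', ∀ κ₄ ∈ a',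
      ¬ (|(κ₁ : ℝ) - κ₂| ≤ D ∧ |(κ₃ : ℝ) - κ₄| ≤ D) → ∀ ξ₁ ∈ S κ₁, ∀ ξ₂ ∈ S κ₂, ∀ ξ₃ ∈ S κ₃,
      ∀ ξ₄ ∈ S κ₄, -((ξ₁ - ξ₂) + (ξ₃ - ξ₄)) ∉ Z)
    {Q : V2 → ℝ} (hQ : Integrable Q) (hQ0 : ∀ x, 0 ≤ Q x)
    (hm : ∀ x, ∑ κ ∈ a, ‖f κ x‖ ^ 2 ≤ Q x) (hm' : ∀ x, ∑ κ ∈ a', ‖f κ x‖ ^ 2 ≤ Q x) {l : ℝ}
    (hl : ∀ x, W x * Q x ≤ l) :
    Integrable (fun x => W x * (‖∑ κ ∈ a, f κ x‖ ^ 2 * ‖∑ κ ∈ a', f κ x‖ ^ 2)) ∧
    ∫ x, W x * (‖∑ κ ∈ a, f κ x‖ ^ 2 * ‖∑ κ ∈ a', f κ x‖ ^ 2) ≤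
      (2 * D + 1) ^ 2 * (l * ∫ x, Q x) := by
  classical
  set t : (ℕ × ℕ) × (ℕ × ℕ) → V2 → ℂ := fun p x => (W x : ℂ) *
    ((f p.1.1 x * (starRingEnd ℂ) (f p.1.2 x)) * (f p.2.1 x * (starRingEnd ℂ) (f p.2.2 x)))
    with ht
  set I := (a ×ˢ a) ×ˢ (a' ×ˢ a') with hI
  have hb : ∀ p ∈ a ×ˢ a, Band (fun x => f p.1 x * (starRingEnd ℂ) (f p.2 x))
      (S p.1 + -S p.2) := by
    intro p hp
    rw [Finset.mem_product] at hp
    exact (hf _ hp.1).mul (hf _ hp.2).conj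
  have hb' : ∀ p ∈ a' ×ˢ a', Band (fun x => f p.1 x * (starRingEnd ℂ) (f p.2 x))
      (S p.1 + -S p.2) := by
    intro p hp
    rw [Finset.mem_product] at hp
    exact (hf' _ hp.1).mul (hf' _ hp.2).conj
  have hint : ∀ p ∈ I, Integrable (t p) := by
    intro p hp
    rw [hI, Finset.mem_product] at hp
    exact band_bdd_mul hW (hb _ hp.1) (hb' _ hp.2)
  have hexp : ∀ x, ((W x * (‖∑ κ ∈ a, f κ x‖ ^ 2 * ‖∑ κ ∈ a', f κ x‖ ^ 2) : ℝ) : ℂ) =
      ∑ p ∈ I, t p x := by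
    intro x
    have e : ∑ p ∈ I, t p x = ∑ p ∈ a ×ˢ a, ∑ p' ∈ a' ×ˢ a', t (p, p') x := by
      rw [hI, Finset.sum_product]
    rw [Complex.ofReal_mul, Complex.ofReal_mul, sq_sum_eq, sq_sum_eq, Finset.sum_mul_sum, e,
      Finset.mul_sum]
    apply Finset.sum_congr rfl
    intro p _
    rw [Finset.mul_sum]
  have hsumint : Integrable (fun x => ∑ p ∈ I, t p x) := integrable_finsetSum _ hint
  have hI1 : Integrable (fun x => W x * (‖∑ κ ∈ a, f κ x‖ ^ 2 * ‖∑ κ ∈ a', f κ x‖ ^ 2)) := by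
    have := hsumint.re
    refine this.congr (Filter.Eventually.of_forall fun x => ?_)
    simp only
    rw [← hexp x]
    exact Complex.ofReal_re _
  refine ⟨hI1, ?_⟩
  set R := (a ×ˢ a).filter (fun p : ℕ × ℕ => |(p.1 : ℝ) - (p.2 : ℝ)| ≤ D) with hR
  set R' := (a' ×ˢ a').filter (fun p : ℕ × ℕ => |(p.1 : ℝ) - (p.2 : ℝ)| ≤ D) with hR'
  have hRI : R ×ˢ R' ⊆ I := Finset.product_subset_product (Finset.filter_subset _ _)
    (Finset.filter_subset _ _)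
  have hzero : ∀ p ∈ I, p ∉ R ×ˢ R' → ∫ x, t p x = 0 := by
    intro p hp hpR
    rw [hI, Finset.mem_product, Finset.mem_product, Finset.mem_product] at hp
    obtain ⟨⟨p1, p2⟩, p3, p4⟩ := hp
    have hnear : ¬ (|(p.1.1 : ℝ) - p.1.2| ≤ D ∧ |(p.2.1 : ℝ) - p.2.2| ≤ D) := by
      intro h
      apply hpR
      rw [Finset.mem_product, hR, hR', Finset.mem_filter, Finset.mem_filter,
        Finset.mem_product, Finset.mem_product]
      exact ⟨⟨⟨p1, p2⟩, h.1⟩, ⟨p3, p4⟩, h.2⟩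
    refine integral_zero hW (hb p.1 (Finset.mem_product.2 ⟨p1, p2⟩))
      (hb' p.2 (Finset.mem_product.2 ⟨p3, p4⟩)) h0 ?_
    intro ξ hξ η hη
    rw [Set.mem_add] at hξ hη
    obtain ⟨ξ₁, h1, ξ₂, h2, rfl⟩ := hξ
    obtain ⟨ξ₃, h3, ξ₄, h4, rfl⟩ := hη
    have := hfar p.1.1 p1 p.1.2 p2 p.2.1 p3 p.2.2 p4 hnear ξ₁ h1 (-ξ₂) h2 ξ₃ h3 (-ξ₄) h4
    simpa only [sub_neg_eq_add] using this
  have e1 : ((∫ x, W x * (‖∑ κ ∈ a, f κ x‖ ^ 2 * ‖∑ κ ∈ a', f κ x‖ ^ 2) : ℝ) : ℂ) =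
      ∑ p ∈ R ×ˢ R', ∫ x, t p x := by
    rw [← integral_complex_ofReal]
    simp_rw [hexp]
    rw [integral_finsetSum _ hint]
    exact (Finset.sum_subset hRI hzero).symm
  have hint' : ∀ p ∈ R ×ˢ R', Integrable fun x => ‖t p x‖ := fun p hp => (hint p (hRI hp)).norm
  have e2 : ∫ x, W x * (‖∑ κ ∈ a, f κ x‖ ^ 2 * ‖∑ κ ∈ a', f κ x‖ ^ 2) ≤
      ∑ p ∈ R ×ˢ R', ∫ x, ‖t p x‖ := by
    have h1 := congrArg Complex.re e1
    rw [Complex.ofReal_re] at h1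
    rw [h1]
    refine (Complex.re_le_norm _).trans ((norm_sum_le _ _).trans ?_)
    exact Finset.sum_le_sum fun p _ => norm_integral_le_integral_norm _
  refine e2.trans ?_
  rw [← integral_finsetSum _ hint', ← integral_const_mul, ← integral_const_mul]
  refine integral_mono (integrable_finsetSum _ hint') ((hQ.const_mul l).const_mul _)
    fun x => ?_
  have e3 : ∑ p ∈ R ×ˢ R', ‖t p x‖ = W x * ((∑ p ∈ R, ‖f p.1 x‖ * ‖f p.2 x‖) *
      ∑ p ∈ R', ‖f p.1 x‖ * ‖f p.2 x‖) := by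
    rw [Finset.sum_mul_sum, Finset.mul_sum, Finset.sum_product]
    refine Finset.sum_congr rfl fun p _ => ?_
    rw [Finset.mul_sum]
    refine Finset.sum_congr rfl fun p' _ => ?_
    simp only [ht, norm_mul, RCLike.norm_conj, Complex.norm_real, Real.norm_of_nonneg (hW0 x)]
  have n1 := near_sum a (fun κ => ‖f κ x‖) hD
  have n2 := near_sum a' (fun κ => ‖f κ x‖) hD
  have hD1 : 0 ≤ 2 * D + 1 := by linarith
  have m1 : ∑ p ∈ R, ‖f p.1 x‖ * ‖f p.2 x‖ ≤ (2 * D + 1) * Q x :=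
    n1.trans (mul_le_mul_of_nonneg_left (hm x) hD1)
  have m2 : ∑ p ∈ R', ‖f p.1 x‖ * ‖f p.2 x‖ ≤ (2 * D + 1) * Q x :=
    n2.trans (mul_le_mul_of_nonneg_left (hm' x) hD1)
  have p1 : 0 ≤ ∑ p ∈ R, ‖f p.1 x‖ * ‖f p.2 x‖ := Finset.sum_nonneg fun p _ => by positivity
  have p2 : 0 ≤ ∑ p ∈ R', ‖f p.1 x‖ * ‖f p.2 x‖ := Finset.sum_nonneg fun p _ => by positivity
  have hQx := hQ0 x
  calc ∑ p ∈ R ×ˢ R', ‖t p x‖ = W x * ((∑ p ∈ R, ‖f p.1 x‖ * ‖f p.2 x‖) *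
        ∑ p ∈ R', ‖f p.1 x‖ * ‖f p.2 x‖) := e3
    _ ≤ W x * (((2 * D + 1) * Q x) * ((2 * D + 1) * Q x)) := by
        refine mul_le_mul_of_nonneg_left ?_ (hW0 x)
        exact mul_le_mul m1 m2 p2 (by positivity)
    _ = (2 * D + 1) ^ 2 * ((W x * Q x) * Q x) := by ring
    _ ≤ (2 * D + 1) ^ 2 * (l * Q x) := by
        refine mul_le_mul_of_nonneg_left ?_ (by positivity)
        exact mul_le_mul_of_nonneg_right (hl x) hQx

/-! ### Averages along lines -/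

theorem pavC_int {F : V2 → ℂ} (hF : Integrable F) (hc : Continuous F) {y : ℝ} (hy : 0 < y)
    (ω : V2) : Integrable (pavC y ω F) ∧ ∫ x, pavC y ω F x = ∫ x, F x := by
  set g : ℝ × V2 → ℂ := fun p => (pk y p.1 : ℂ) * F (p.2 - p.1 • ω) with hg
  have hmeas : AEStronglyMeasurable g (volume.prod volume) := by
    apply Measurable.aestronglyMeasurable
    refine ((Complex.measurable_ofReal.comp (measurable_pk y)).comp measurable_fst).mul
      (hc.measurable.comp ?_)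
    fun_prop
  have hint : Integrable g (volume.prod volume) := by
    rw [integrable_prod_iff hmeas]
    refine ⟨Filter.Eventually.of_forall fun t =>
      (hF.comp_sub_right (t • ω)).const_mul (pk y t : ℂ), ?_⟩
    have e : (fun t : ℝ => ∫ x, ‖g (t, x)‖) = fun t => pk y t * ∫ x, ‖F x‖ := by
      ext t
      simp only [hg, norm_mul, Complex.norm_real, Real.norm_of_nonneg (pk_nonneg hy t)]
      rw [integral_const_mul, integral_sub_right_eq_self (fun x => ‖F x‖) (t • ω)]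
    rw [e]
    exact (integrable_pk hy).mul_const _
  have e1 : pavC y ω F = fun x => ∫ t, g (t, x) := rfl
  refine ⟨?_, ?_⟩
  · rw [e1]
    exact hint.integral_prod_right
  · rw [e1, integral_integral_swap (f := fun x t => g (t, x)) hint.swap]
    have e2 : ∀ t, ∫ x, g (t, x) = (pk y t : ℂ) * ∫ x, F x := by
      intro t
      simp only [hg]
      rw [integral_const_mul, integral_sub_right_eq_self F (t • ω)]
    simp_rw [e2]
    rw [integral_mul_const, integral_complex_ofReal, integral_pk hy]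
    simp

theorem pav_re {F : V2 → ℂ} {S : Set V2} (hF : Band F S) {y : ℝ} (hy : 0 < y) (ω x : V2) :
    pav y ω (fun z => (F z).re) x = (pavC y ω F x).re := by
  obtain ⟨C, hC⟩ := hF.bdd
  have hint : Integrable fun t => (pk y t : ℂ) * F (x - t • ω) := by
    refine ((integrable_pk hy).mul_const C).mono' ?_ ?_
    · exact ((Complex.measurable_ofReal.comp (measurable_pk y)).aestronglyMeasurable).mul
        (hF.cont.comp (by fun_prop)).aestronglyMeasurable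
    · filter_upwards with t
      rw [norm_mul, Complex.norm_real, Real.norm_of_nonneg (pk_nonneg hy t)]
      exact mul_le_mul_of_nonneg_left (hC _) (pk_nonneg hy t)
  have h1 := integral_re hint
  unfold pav pavC
  refine Eq.trans ?_ h1
  refine integral_congr_ae (Filter.Eventually.of_forall fun t => ?_)
  simp only
  exact (Complex.re_ofReal_mul _ _).symm

theorem sq_norm_sum_le {ι : Type*} (s : Finset ι) (z : ι → ℂ) :
    ‖∑ i ∈ s, z i‖ ^ 2 ≤ s.card * ∑ i ∈ s, ‖z i‖ ^ 2 :=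
  (pow_le_pow_left₀ (norm_nonneg _) (norm_sum_le s z) 2).trans
    (sq_sum_le_card_mul_sum_sq (s := s) (f := fun i => ‖z i‖))

end X16

namespace Par

open X16

variable (P : Par)

/-! ### Geometry of the weights -/

theorem lx_B_nonneg : 0 ≤ P.B := by
  unfold B A
  positivity

theorem lx_l_nonneg (i : ℕ) : 0 ≤ P.l i := by
  unfold l
  positivity

theorem lx_zero_mem_wbox {c : ℝ} (hc : 0 ≤ c) (i j : ℕ) : (0 : V2) ∈ P.wbox c i j := by
  have h1 := P.lx_B_nonneg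
  have h2 := P.lx_l_nonneg i
  constructor
  · rw [inner_zero_left, abs_zero]
    positivity
  · rw [inner_zero_left, abs_zero]
    positivity

theorem lx_neg_mem_wbox {c : ℝ} {i j : ℕ} {z : V2} (h : z ∈ P.wbox c i j) : -z ∈ P.wbox c i j := by
  constructor
  · rw [inner_neg_left, abs_neg]
    exact h.1
  · rw [inner_neg_left, abs_neg]
    exact h.2

theorem lx_wbox_mono {c c' : ℝ} (hc : c ≤ c') (i j : ℕ) : P.wbox c i j ⊆ P.wbox c' i j := by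
  have h1 := P.lx_B_nonneg
  have h2 := P.lx_l_nonneg i
  rintro z ⟨ha, hb⟩
  refine ⟨ha.trans ?_, hb.trans ?_⟩
  · gcongr
  · gcongr

theorem lx_add_mem_wbox {i j : ℕ} {z z' : V2} (h : z ∈ P.wbox 2 i j) (h' : z' ∈ P.wbox 2 i j) :
    z + z' ∈ P.wbox 4 i j := by
  obtain ⟨h1, h2⟩ := h
  obtain ⟨h3, h4⟩ := h'
  constructor
  · rw [inner_add_left]
    refine (abs_add_le _ _).trans ((add_le_add h1 h3).trans ?_)
    linarith
  · rw [inner_add_left]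
    refine (abs_add_le _ _).trans ((add_le_add h2 h4).trans ?_)
    linarith

theorem lx_idx_anc {i n : ℕ} (hi : i + n ≤ P.k) (ξ : V2) :
    P.idx (i + n) ξ = P.idx i ξ / P.b ^ n := by
  induction n with
  | zero => simp
  | succ n ih =>
    rw [← add_assoc, P.idx_succ (by omega), ih (by omega), Nat.div_div_eq_div_mul, pow_succ]

theorem lx_idx_kid {i j L : ℕ} (hi : 1 ≤ i) (hik : i ≤ P.k) (hL : L / P.b = j) {ξ : V2}
    (h : P.idx (i - 1) ξ = L) : P.idx i ξ = j := by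
  have h1 : i = i - 1 + 1 := by omega
  rw [h1, P.idx_succ (by omega), h, hL]

/-- Spectrum of the cross terms of the node `(i, j)`. -/
def lx_SX (i j : ℕ) : Set V2 := {s | ∃ ξ₁ ξ₂ z : V2, ξ₁ ∈ P.gapSet ∧ ξ₂ ∈ P.gapSet ∧
  P.idx i ξ₁ = j ∧ P.idx i ξ₂ = j ∧ P.idx (i - 1) ξ₁ ≠ P.idx (i - 1) ξ₂ ∧ z ∈ P.wbox 2 i j ∧
  s = ξ₁ - ξ₂ + z}

theorem lx_SX_disj {i j j' : ℕ} (hi : 1 ≤ i) (hik : i ≤ P.k) (hjj : j ≠ j')
    (hroot : j / P.b ^ (P.k - i) = j' / P.b ^ (P.k - i)) : Disjoint (P.lx_SX i j) (P.lx_SX i j') := by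
  rw [Set.disjoint_left]
  rintro s ⟨ξ₁, ξ₂, z, h1, h2, j1, j2, h12, hz, hs⟩ ⟨ξ₃, ξ₄, z', h3, h4, j3, j4, h34, hz', hs'⟩
  have hk : i + (P.k - i) = P.k := by omega
  refine P.geo_three hi hik h1 h2 h3 h4 j1 j2 j3 j4 ?_ h12 h34 hjj hz hz' (hs.symm.trans hs')
  have e1 := P.lx_idx_anc (i := i) (n := P.k - i) (by omega) ξ₁
  have e2 := P.lx_idx_anc (i := i) (n := P.k - i) (by omega) ξ₃
  rw [hk] at e1 e2
  rw [e1, e2, j1, j3, hroot]

/-- The weights of the node `(i, j)`. -/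
structure lx_Wt (i j : ℕ) (W : V2 → ℝ) (c : ℝ) : Prop where
  cont : Continuous W
  bdd : ∀ x, |W x| ≤ 1
  band : Band (fun x => ((W x - c : ℝ) : ℂ)) (P.wbox 2 i j ∩ Metric.closedBall 0 (4 * P.B))

variable {P}

theorem lx_Wt.sq {i j : ℕ} {W : V2 → ℝ} {c : ℝ} (h : P.lx_Wt i j W c) :
    Band (fun x => ((W x ^ 2 - c ^ 2 : ℝ) : ℂ)) (P.wbox 4 i j) := by
  have h1 : Band (fun x => ((W x - c : ℝ) : ℂ)) (P.wbox 2 i j) := h.band.mono Set.inter_subset_left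
  have h2 := (h1.mul h1).mono (T := P.wbox 4 i j) (by
    rintro _ ⟨z, hz, z', hz', rfl⟩
    exact P.lx_add_mem_wbox hz hz')
  have h3 := (h1.mono (P.lx_wbox_mono (by norm_num : (2 : ℝ) ≤ 4) i j)).smul ((2 * c : ℝ) : ℂ)
  have h4 := h2.add h3
  have e : (fun x => ((W x ^ 2 - c ^ 2 : ℝ) : ℂ)) = fun x =>
      ((W x - c : ℝ) : ℂ) * ((W x - c : ℝ) : ℂ) + ((2 * c : ℝ) : ℂ) * ((W x - c : ℝ) : ℂ) := by
    ext x
    push_cast
    ring
  rw [e]
  exact h4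

variable (P)

/-- The cross terms of the node `(i, j)` with weight `W`. -/
noncomputable def lx_nod (G : V2 → ℂ) (i j : ℕ) (W : V2 → ℝ) (x : V2) : ℂ :=
  (W x : ℂ) * ∑ p ∈ P.pairs i j, P.gp G (i - 1) p.1 x * (starRingEnd ℂ) (P.gp G (i - 1) p.2 x)

theorem lx_nod_re (G : V2 → ℂ) (i j : ℕ) (W : V2 → ℝ) (x : V2) : (P.lx_nod G i j W x).re =
    W x * ∑ p ∈ P.pairs i j,
      (P.gp G (i - 1) p.1 x * (starRingEnd ℂ) (P.gp G (i - 1) p.2 x)).re := by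
  unfold lx_nod
  rw [Complex.re_ofReal_mul, Complex.re_sum]

theorem lx_mem_pairs {i j : ℕ} {p : ℕ × ℕ} (hp : p ∈ P.pairs i j) :
    (p.1 < P.M (i - 1) ∧ p.1 / P.b = j) ∧ (p.2 < P.M (i - 1) ∧ p.2 / P.b = j) ∧ p.1 ≠ p.2 := by
  unfold pairs kids at hp
  rw [Finset.mem_filter, Finset.mem_product, Finset.mem_filter, Finset.mem_filter,
    Finset.mem_range, Finset.mem_range] at hp
  exact ⟨hp.1.1, hp.1.2, hp.2⟩

variable {P} {G : V2 → ℂ}

theorem lx_nod_term {i j : ℕ} {W : V2 → ℝ} {c : ℝ} (hG : P.Good G) (hi : 1 ≤ i) (hik : i ≤ P.k)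
    (h : P.lx_Wt i j W c) {p : ℕ × ℕ} (hp : p ∈ P.pairs i j) :
    Band (fun x => (W x : ℂ) * (P.gp G (i - 1) p.1 x *
      (starRingEnd ℂ) (P.gp G (i - 1) p.2 x))) (P.lx_SX i j) ∧
    Integrable (fun x => (W x : ℂ) * (P.gp G (i - 1) p.1 x *
      (starRingEnd ℂ) (P.gp G (i - 1) p.2 x))) ∧
    ∫ x, (W x : ℂ) * (P.gp G (i - 1) p.1 x * (starRingEnd ℂ) (P.gp G (i - 1) p.2 x)) = 0 := by
  obtain ⟨⟨-, p1⟩, ⟨-, p2⟩, p12⟩ := P.lx_mem_pairs hp
  have b1 := P.band_gp hG (i - 1) p.1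
  have b2 := (P.band_gp hG (i - 1) p.2).conj
  have b3 := b1.mul b2
  refine ⟨?_, ?_, ?_⟩
  · have h1 := (b3.smul (c : ℂ)).mono (T := P.lx_SX i j) (by
      rintro _ ⟨ξ, hξ, η, hη, rfl⟩
      refine ⟨ξ, -η, 0, hξ.1, hη.1, P.lx_idx_kid hi hik p1 hξ.2, P.lx_idx_kid hi hik p2 hη.2, ?_,
        P.lx_zero_mem_wbox (by norm_num) i j, ?_⟩
      · rw [hξ.2, hη.2]
        exact p12
      · simp)
    have h2 := (h.band.mul b3).mono (T := P.lx_SX i j) (by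
      rintro _ ⟨z, hz, _, ⟨ξ, hξ, η, hη, rfl⟩, rfl⟩
      refine ⟨ξ, -η, z, hξ.1, hη.1, P.lx_idx_kid hi hik p1 hξ.2, P.lx_idx_kid hi hik p2 hη.2, ?_,
        hz.1, ?_⟩
      · rw [hξ.2, hη.2]
        exact p12
      · simp only [sub_neg_eq_add]
        abel)
    have e : (fun x => (W x : ℂ) * (P.gp G (i - 1) p.1 x *
        (starRingEnd ℂ) (P.gp G (i - 1) p.2 x))) = fun x =>
        (c : ℂ) * (P.gp G (i - 1) p.1 x * (starRingEnd ℂ) (P.gp G (i - 1) p.2 x)) +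
        ((W x - c : ℝ) : ℂ) * (P.gp G (i - 1) p.1 x *
          (starRingEnd ℂ) (P.gp G (i - 1) p.2 x)) := by
      ext x
      push_cast
      ring
    rw [e]
    exact h1.add h2
  · exact band_bdd_mul h.band b1 b2
  · refine integral_zero h.band b1 b2 ⟨P.lx_zero_mem_wbox (by norm_num) i j, ?_⟩ ?_
    · rw [Metric.mem_closedBall, dist_self]
      have := P.lx_B_nonneg
      positivity
    · rintro ξ hξ η hη hz
      have h1 := hz.2
      rw [Metric.mem_closedBall, dist_zero_right, norm_neg] at h1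
      have h2 := P.geo_one hξ.1 hη.1 (by
        intro h3
        apply p12
        have e1 := P.lx_idx_anc (i := 0) (n := i - 1) (by omega) ξ
        have e2 := P.lx_idx_anc (i := 0) (n := i - 1) (by omega) (-η)
        rw [zero_add] at e1 e2
        rw [← hξ.2, ← hη.2, e1, e2, h3])
      rw [sub_neg_eq_add] at h2
      have := P.lx_B_nonneg
      linarith

theorem lx_nod_eq (G : V2 → ℂ) (i j : ℕ) (W : V2 → ℝ) : P.lx_nod G i j W = fun x =>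
    ∑ p ∈ P.pairs i j, (W x : ℂ) * (P.gp G (i - 1) p.1 x *
      (starRingEnd ℂ) (P.gp G (i - 1) p.2 x)) := by
  ext x
  unfold lx_nod
  rw [Finset.mul_sum]

theorem lx_nod_band {i j : ℕ} {W : V2 → ℝ} {c : ℝ} (hG : P.Good G) (hi : 1 ≤ i) (hik : i ≤ P.k)
    (h : P.lx_Wt i j W c) : Band (P.lx_nod G i j W) (P.lx_SX i j) := by
  rw [lx_nod_eq]
  exact Band.sum _ fun p hp => (lx_nod_term hG hi hik h hp).1

theorem lx_nod_int {i j : ℕ} {W : V2 → ℝ} {c : ℝ} (hG : P.Good G) (hi : 1 ≤ i) (hik : i ≤ P.k)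
    (h : P.lx_Wt i j W c) : Integrable (P.lx_nod G i j W) ∧ ∫ x, P.lx_nod G i j W x = 0 := by
  rw [lx_nod_eq]
  refine ⟨integrable_finsetSum _ fun p hp => (lx_nod_term hG hi hik h hp).2.1, ?_⟩
  rw [integral_finsetSum _ fun p hp => (lx_nod_term hG hi hik h hp).2.1]
  exact Finset.sum_eq_zero fun p hp => (lx_nod_term hG hi hik h hp).2.2

variable (P) in
theorem lx_card_kids (i j : ℕ) : (P.kids i j).card ≤ P.b := by
  have h1 : P.kids i j ⊆ Finset.Ico (j * P.b) ((j + 1) * P.b) := by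
    intro L hL
    unfold kids at hL
    rw [Finset.mem_filter] at hL
    rw [Finset.mem_Ico, ← hL.2]
    exact ⟨Nat.div_mul_le_self _ _, (Nat.div_lt_iff_lt_mul P.b_pos).1 (Nat.lt_succ_self _)⟩
  refine (Finset.card_le_card h1).trans ?_
  rw [Nat.card_Ico]
  have : (j + 1) * P.b = j * P.b + P.b := by ring
  omega

variable (P) in
theorem lx_card_pairs (i j : ℕ) : ((P.pairs i j).card : ℝ) ≤ (P.b : ℝ) ^ 2 := by
  have h1 : (P.pairs i j).card ≤ P.b * P.b := by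
    unfold pairs
    refine (Finset.card_filter_le _ _).trans ?_
    rw [Finset.card_product]
    exact Nat.mul_le_mul (P.lx_card_kids i j) (P.lx_card_kids i j)
  rw [sq]
  exact_mod_cast h1

/-- The finest lx_arcs of the node `(i, j)`. -/
abbrev lx_arcs (P : Par) (i j : ℕ) : Finset ℕ :=
  (Finset.range (P.M 0)).filter (fun κ => κ / P.b ^ i = j)

theorem lx_pair_sq {i j : ℕ} {W : V2 → ℝ} {c : ℝ} (hG : P.Good G) (hi : 1 ≤ i) (hik : i ≤ P.k)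
    (h : P.lx_Wt i j W c) {Q : V2 → ℝ} (hQ : Integrable Q) (hQ0 : ∀ x, 0 ≤ Q x)
    (hm : ∀ x, ∑ κ ∈ P.lx_arcs i j, ‖P.gp G 0 κ x‖ ^ 2 ≤ Q x) {l : ℝ}
    (hl : ∀ x, W x ^ 2 * Q x ≤ l) {p : ℕ × ℕ} (hp : p ∈ P.pairs i j) :
    Integrable (fun x => W x ^ 2 * (‖P.gp G (i - 1) p.1 x‖ ^ 2 * ‖P.gp G (i - 1) p.2 x‖ ^ 2)) ∧
    ∫ x, W x ^ 2 * (‖P.gp G (i - 1) p.1 x‖ ^ 2 * ‖P.gp G (i - 1) p.2 x‖ ^ 2) ≤
      (2 * (20 * P.q * P.H) + 1) ^ 2 * (l * ∫ x, Q x) := by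
  obtain ⟨⟨-, p1⟩, ⟨-, p2⟩, p12⟩ := P.lx_mem_pairs hp
  have hsub : ∀ {L : ℕ}, L / P.b = j → P.lx_arcs (i - 1) L ⊆ P.lx_arcs i j := by
    intro L hL κ hκ
    rw [Finset.mem_filter] at hκ ⊢
    refine ⟨hκ.1, ?_⟩
    have h1 : i = i - 1 + 1 := by omega
    rw [h1, pow_succ, ← Nat.div_div_eq_div_mul, hκ.2, hL]
  have hmL : ∀ {L : ℕ}, L / P.b = j → ∀ x, ∑ κ ∈ P.lx_arcs (i - 1) L, ‖P.gp G 0 κ x‖ ^ 2 ≤ Q x :=
    fun hL x => (Finset.sum_le_sum_of_subset_of_nonneg (hsub hL) fun _ _ _ => by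
      positivity).trans (hm x)
  have hidx : ∀ {ξ : V2} {κ L : ℕ}, P.idx 0 ξ = κ → κ / P.b ^ (i - 1) = L →
      P.idx (i - 1) ξ = L := by
    intro ξ κ L h1 h2
    have e1 := P.lx_idx_anc (i := 0) (n := i - 1) (by omega) ξ
    rw [zero_add] at e1
    rw [e1, h1, h2]
  have hD : (0 : ℝ) ≤ 20 * P.q * P.H := by
    have := P.hH
    positivity
  have key := biorth (a := P.lx_arcs (i - 1) p.1) (a' := P.lx_arcs (i - 1) p.2)
    (f := fun κ => P.gp G 0 κ) (S := fun κ => {ξ | ξ ∈ P.gapSet ∧ P.idx 0 ξ = κ})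
    (fun κ _ => P.band_gp hG 0 κ) (fun κ _ => P.band_gp hG 0 κ) hD
    (W := fun x => W x ^ 2) (c := c ^ 2) h.sq (fun x => sq_nonneg _)
    (P.lx_zero_mem_wbox (by norm_num) i j) (by
      intro κ₁ k1 κ₂ k2 κ₃ k3 κ₄ k4 hfar ξ₁ h1 ξ₂ h2 ξ₃ h3 ξ₄ h4 hz
      rw [Finset.mem_filter] at k1 k2 k3 k4
      apply hfar
      have hz' := P.lx_neg_mem_wbox hz
      rw [neg_neg] at hz'
      have i1 := hidx h1.2 k1.2
      have i2 := hidx h2.2 k2.2
      have i3 := hidx h3.2 k3.2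
      have i4 := hidx h4.2 k4.2
      have g1 := P.geo_two hi hik h1.1 h2.1 h3.1 h4.1 (P.lx_idx_kid hi hik p1 i1)
        (P.lx_idx_kid hi hik p1 i2) (P.lx_idx_kid hi hik p2 i3) (P.lx_idx_kid hi hik p2 i4)
        (i1.trans i2.symm) (i3.trans i4.symm) (by rw [i1, i3]; exact p12) hz' rfl
      have g2 := P.geo_two hi hik h3.1 h4.1 h1.1 h2.1 (P.lx_idx_kid hi hik p2 i3)
        (P.lx_idx_kid hi hik p2 i4) (P.lx_idx_kid hi hik p1 i1) (P.lx_idx_kid hi hik p1 i2)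
        (i3.trans i4.symm) (i1.trans i2.symm) (by rw [i1, i3]; exact p12.symm)
        (by rw [add_comm]; exact hz') rfl
      rw [h1.2, h2.2] at g1
      rw [h3.2, h4.2] at g2
      exact ⟨g1, g2⟩)
    hQ hQ0 (hmL p1) (hmL p2) hl
  have e : ∀ x, W x ^ 2 * (‖P.gp G (i - 1) p.1 x‖ ^ 2 * ‖P.gp G (i - 1) p.2 x‖ ^ 2) =
      W x ^ 2 * (‖∑ κ ∈ P.lx_arcs (i - 1) p.1, P.gp G 0 κ x‖ ^ 2 *
        ‖∑ κ ∈ P.lx_arcs (i - 1) p.2, P.gp G 0 κ x‖ ^ 2) := by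
    intro x
    rw [P.gp_eq_sum hG (by omega : i - 1 ≤ P.k) (j := p.1) x,
      P.gp_eq_sum hG (by omega : i - 1 ≤ P.k) (j := p.2) x]
  simp only [e]
  exact key

theorem lx_nod_sq {i j : ℕ} {W : V2 → ℝ} {c : ℝ} (hG : P.Good G) (hi : 1 ≤ i) (hik : i ≤ P.k)
    (h : P.lx_Wt i j W c) {Q : V2 → ℝ} (hQ : Integrable Q) (hQ0 : ∀ x, 0 ≤ Q x)
    (hm : ∀ x, ∑ κ ∈ P.lx_arcs i j, ‖P.gp G 0 κ x‖ ^ 2 ≤ Q x) {l : ℝ} (hl0 : 0 ≤ l)
    (hl : ∀ x, W x ^ 2 * Q x ≤ l) :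
    ∫ x, ‖P.lx_nod G i j W x‖ ^ 2 ≤
      (P.b : ℝ) ^ 4 * ((2 * (20 * P.q * P.H) + 1) ^ 2 * (l * ∫ x, Q x)) := by
  set T : ℝ := (2 * (20 * P.q * P.H) + 1) ^ 2 * (l * ∫ x, Q x) with hT
  have hT0 : 0 ≤ T := by
    have := integral_nonneg (μ := volume) (f := Q) hQ0
    positivity
  set N : ℝ := ((P.pairs i j).card : ℝ) with hN
  have hN0 : 0 ≤ N := Nat.cast_nonneg _
  have hNb : N ≤ (P.b : ℝ) ^ 2 := P.lx_card_pairs i j
  have hpt : ∀ x, ‖P.lx_nod G i j W x‖ ^ 2 ≤ ∑ p ∈ P.pairs i j, N *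
      (W x ^ 2 * (‖P.gp G (i - 1) p.1 x‖ ^ 2 * ‖P.gp G (i - 1) p.2 x‖ ^ 2)) := by
    intro x
    rw [lx_nod_eq]
    simp only
    have h1 := norm_sum_le (P.pairs i j) (fun p => (W x : ℂ) * (P.gp G (i - 1) p.1 x *
      (starRingEnd ℂ) (P.gp G (i - 1) p.2 x)))
    have h2 := sq_sum_le_card_mul_sum_sq (s := P.pairs i j) (f := fun p => ‖(W x : ℂ) *
      (P.gp G (i - 1) p.1 x * (starRingEnd ℂ) (P.gp G (i - 1) p.2 x))‖)
    refine (pow_le_pow_left₀ (norm_nonneg _) h1 2).trans (h2.trans (le_of_eq ?_))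
    rw [Finset.mul_sum]
    refine Finset.sum_congr rfl fun p _ => ?_
    rw [norm_mul, norm_mul, RCLike.norm_conj, Complex.norm_real, mul_pow, mul_pow,
      Real.norm_eq_abs, sq_abs]
  have hint : ∀ p ∈ P.pairs i j, Integrable fun x => N *
      (W x ^ 2 * (‖P.gp G (i - 1) p.1 x‖ ^ 2 * ‖P.gp G (i - 1) p.2 x‖ ^ 2)) := fun p hp =>
    (lx_pair_sq hG hi hik h hQ hQ0 hm hl hp).1.const_mul N
  have hsq : Integrable fun x => ‖P.lx_nod G i j W x‖ ^ 2 :=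
    (lx_nod_band hG hi hik h).memLp.integrable_norm_pow (by norm_num)
  calc ∫ x, ‖P.lx_nod G i j W x‖ ^ 2
      ≤ ∫ x, ∑ p ∈ P.pairs i j, N *
        (W x ^ 2 * (‖P.gp G (i - 1) p.1 x‖ ^ 2 * ‖P.gp G (i - 1) p.2 x‖ ^ 2)) :=
        integral_mono hsq (integrable_finsetSum _ hint) hpt
    _ = ∑ p ∈ P.pairs i j, N * ∫ x,
        (W x ^ 2 * (‖P.gp G (i - 1) p.1 x‖ ^ 2 * ‖P.gp G (i - 1) p.2 x‖ ^ 2)) := by
        rw [integral_finsetSum _ hint]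
        exact Finset.sum_congr rfl fun p _ => integral_const_mul _ _
    _ ≤ ∑ p ∈ P.pairs i j, N * T := Finset.sum_le_sum fun p hp =>
        mul_le_mul_of_nonneg_left (lx_pair_sq hG hi hik h hQ hQ0 hm hl hp).2 hN0
    _ = N * N * T := by
        rw [Finset.sum_const, nsmul_eq_mul]
        ring
    _ ≤ (P.b : ℝ) ^ 4 * T := by
        refine mul_le_mul_of_nonneg_right ?_ hT0
        nlinarith

/-! ### One level -/

theorem lx_level_sq {i : ℕ} (hi : 1 ≤ i) (hik : i ≤ P.k) {U : ℕ → V2 → ℂ}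
    (hU : ∀ j, Band (U j) (P.lx_SX i j)) :
    ∫ x, ‖∑ j ∈ Finset.range (P.M i), U j x‖ ^ 2 ≤
      8 * ∑ j ∈ Finset.range (P.M i), ∫ x, ‖U j x‖ ^ 2 := by
  classical
  set rt : ℕ → ℕ := fun j => j / P.b ^ (P.k - i) with hrt
  have hmap : ∀ j ∈ Finset.range (P.M i), rt j ∈ Finset.range 8 := by
    intro j hj
    rw [Finset.mem_range] at hj ⊢
    unfold M at hj
    rw [hrt]
    exact Nat.div_lt_of_lt_mul (by rw [mul_comm]; exact hj)
  have hfib : ∀ r, ∫ x, ‖∑ j ∈ (Finset.range (P.M i)).filter (fun j => rt j = r), U j x‖ ^ 2 =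
      ∑ j ∈ (Finset.range (P.M i)).filter (fun j => rt j = r), ∫ x, ‖U j x‖ ^ 2 := by
    intro r
    refine band_sum_sq _ (fun j _ => hU j) fun j hj j' hj' hne => ?_
    rw [Finset.mem_filter] at hj hj'
    exact P.lx_SX_disj hi hik hne (hj.2.trans hj'.2.symm)
  have hpt : ∀ x, ‖∑ j ∈ Finset.range (P.M i), U j x‖ ^ 2 ≤ 8 * ∑ r ∈ Finset.range 8,
      ‖∑ j ∈ (Finset.range (P.M i)).filter (fun j => rt j = r), U j x‖ ^ 2 := by
    intro x
    rw [← Finset.sum_fiberwise_of_maps_to hmap]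
    have := sq_norm_sum_le (Finset.range 8)
      (fun r => ∑ j ∈ (Finset.range (P.M i)).filter (fun j => rt j = r), U j x)
    rw [Finset.card_range] at this
    exact_mod_cast this
  have hb : ∀ s : Finset ℕ, Integrable fun x => ‖∑ j ∈ s, U j x‖ ^ 2 := by
    intro s
    have h1 : Band (fun x => ∑ j ∈ s, U j x) Set.univ :=
      Band.sum s fun j _ => (hU j).mono (Set.subset_univ _)
    exact h1.memLp.integrable_norm_pow (by norm_num)
  calc ∫ x, ‖∑ j ∈ Finset.range (P.M i), U j x‖ ^ 2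
      ≤ ∫ x, 8 * ∑ r ∈ Finset.range 8,
          ‖∑ j ∈ (Finset.range (P.M i)).filter (fun j => rt j = r), U j x‖ ^ 2 :=
        integral_mono (hb _) ((integrable_finsetSum _ fun r _ => hb _).const_mul 8) hpt
    _ = 8 * ∑ r ∈ Finset.range 8,
          ∫ x, ‖∑ j ∈ (Finset.range (P.M i)).filter (fun j => rt j = r), U j x‖ ^ 2 := by
        rw [integral_const_mul, integral_finsetSum _ fun r _ => hb _]
    _ = 8 * ∑ r ∈ Finset.range 8,
          ∑ j ∈ (Finset.range (P.M i)).filter (fun j => rt j = r), ∫ x, ‖U j x‖ ^ 2 := by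
        simp only [hfib]
    _ = _ := by rw [Finset.sum_fiberwise_of_maps_to hmap]

/-! ### Packets -/

theorem lx_y_pos (P : Par) {i : ℕ} (hi : 1 ≤ i) : 0 < P.y i := by
  have h1 : i ≠ 0 := by omega
  unfold y
  rw [if_neg h1]
  have h2 := P.R_pos
  have h3 := P.l_pos i
  have h4 := P.q_pos
  positivity

theorem lx_good_damp (hG : P.Good G) {ω : V2} (hω : ‖ω‖ = 1) {y : ℝ} (hy : 0 ≤ y) :
    P.Good (damp G ω P.ρ y) := by
  have hsupp : ∀ ξ, G ξ ≠ 0 → 0 ≤ P.ρ - ⟪ξ, ω⟫_ℝ := by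
    intro ξ hξ
    have h1 := (hG.supp ξ hξ).1.2
    have h2 : ⟪ξ, ω⟫_ℝ ≤ ‖ξ‖ := by
      have := real_inner_le_norm ξ ω
      rwa [hω, mul_one] at this
    unfold ρ
    linarith
  have hle : ∀ ξ, ‖damp G ω P.ρ y ξ‖ ≤ ‖G ξ‖ := norm_damp_le (g := G) hy hsupp
  have hm : Measurable (damp G ω P.ρ y) := by
    unfold damp
    refine Measurable.mul ?_ hG.meas
    exact (continuous_dampFactor ω P.ρ y).measurable
  refine ⟨hm, hG.int.mono hm.aestronglyMeasurable (Filter.Eventually.of_forall hle),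
    hG.lp.mono hm.aestronglyMeasurable (Filter.Eventually.of_forall hle), ?_, ?_⟩
  · intro ξ hξ
    refine hG.supp ξ ?_
    intro h0
    apply hξ
    unfold damp
    rw [h0, mul_zero]
  · refine le_trans ?_ hG.le
    refine integral_mono_of_nonneg (Filter.Eventually.of_forall fun ξ => by positivity)
      (hG.lp.integrable_norm_pow (by norm_num)) (Filter.Eventually.of_forall fun ξ => ?_)
    exact pow_le_pow_left₀ (norm_nonneg _) (hle ξ) 2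

/-- The damped function of the packet `(i, L)`. -/
noncomputable abbrev lx_dG (P : Par) (G : V2 → ℂ) (i L : ℕ) : V2 → ℂ :=
  damp G (dir (P.cen (i - 1) L)) P.ρ (P.y i)

theorem lx_T_eq (P : Par) (G : V2 → ℂ) (i' p i L : ℕ) :
    P.T (P.piece G i' p) i L = P.gp (P.lx_dG G i L) i' p := by
  have e : damp (P.piece G i' p) (dir (P.cen (i - 1) L)) P.ρ (P.y i) =
      P.piece (P.lx_dG G i L) i' p := by
    ext ξ
    unfold piece lx_dG damp
    by_cases h : ξ ∈ {ξ | P.idx i' ξ = p}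
    · rw [Set.indicator_of_mem h, Set.indicator_of_mem h]
    · rw [Set.indicator_of_notMem h, Set.indicator_of_notMem h, mul_zero]
  ext x
  unfold T pkt gp
  rw [e]

/-- The stopped packets of the node `(i, j)`. -/
noncomputable def lx_UA (P : Par) (G : V2 → ℂ) (i j : ℕ) (W : V2 → ℝ) (x : V2) : ℂ :=
  ∑ L ∈ P.kids i j, pavC (P.y i) (dir (P.cen (i - 1) L))
    (fun z => (P.cn i : ℂ) * P.lx_nod (P.lx_dG G i L) i j W z) x

theorem lx_UA_term {i j : ℕ} {W : V2 → ℝ} {c : ℝ} (hG : P.Good G) (hi : 1 ≤ i) (hik : i ≤ P.k)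
    (h : P.lx_Wt i j W c) (L : ℕ) :
    Band (fun z => (P.cn i : ℂ) * P.lx_nod (P.lx_dG G i L) i j W z) (P.lx_SX i j) :=
  (lx_nod_band (lx_good_damp hG (norm_dir _) (P.lx_y_pos hi).le) hi hik h).smul _

theorem lx_UA_band {i j : ℕ} {W : V2 → ℝ} {c : ℝ} (hG : P.Good G) (hi : 1 ≤ i) (hik : i ≤ P.k)
    (h : P.lx_Wt i j W c) : Band (P.lx_UA G i j W) (P.lx_SX i j) :=
  Band.sum _ fun L _ => (lx_UA_term hG hi hik h L).pavC (P.lx_y_pos hi) _

theorem lx_UA_int {i j : ℕ} {W : V2 → ℝ} {c : ℝ} (hG : P.Good G) (hi : 1 ≤ i) (hik : i ≤ P.k)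
    (h : P.lx_Wt i j W c) : Integrable (P.lx_UA G i j W) ∧ ∫ x, P.lx_UA G i j W x = 0 := by
  have key : ∀ L, Integrable (pavC (P.y i) (dir (P.cen (i - 1) L))
      (fun z => (P.cn i : ℂ) * P.lx_nod (P.lx_dG G i L) i j W z)) ∧
      ∫ x, pavC (P.y i) (dir (P.cen (i - 1) L))
        (fun z => (P.cn i : ℂ) * P.lx_nod (P.lx_dG G i L) i j W z) x = 0 := by
    intro L
    obtain ⟨h1, h2⟩ := lx_nod_int (lx_good_damp hG (norm_dir (P.cen (i - 1) L)) (P.lx_y_pos hi).le)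
      hi hik h
    obtain ⟨h3, h4⟩ := pavC_int (h1.const_mul (P.cn i : ℂ)) (lx_UA_term hG hi hik h L).cont
      (P.lx_y_pos hi) (dir (P.cen (i - 1) L))
    refine ⟨h3, ?_⟩
    rw [h4, integral_const_mul, h2, mul_zero]
  refine ⟨integrable_finsetSum _ fun L _ => (key L).1, ?_⟩
  unfold lx_UA
  rw [integral_finsetSum _ fun L _ => (key L).1]
  exact Finset.sum_eq_zero fun L _ => (key L).2

theorem lx_UA_sq {i j : ℕ} {W : V2 → ℝ} {c : ℝ} (hG : P.Good G) (hi : 1 ≤ i) (hik : i ≤ P.k)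
    (h : P.lx_Wt i j W c) {Q : V2 → ℝ} (hQ : Integrable Q) (hQ0 : ∀ x, 0 ≤ Q x)
    (hm : ∀ L ∈ P.kids i j, ∀ x, ∑ κ ∈ P.lx_arcs i j, ‖P.gp (P.lx_dG G i L) 0 κ x‖ ^ 2 ≤ Q x) {l : ℝ}
    (hl0 : 0 ≤ l) (hl : ∀ x, W x ^ 2 * Q x ≤ l) :
    ∫ x, ‖P.lx_UA G i j W x‖ ^ 2 ≤ 4 * (P.b : ℝ) ^ 2 *
      ((P.b : ℝ) ^ 4 * ((2 * (20 * P.q * P.H) + 1) ^ 2 * (l * ∫ x, Q x))) := by
  set T : ℝ := (P.b : ℝ) ^ 4 * ((2 * (20 * P.q * P.H) + 1) ^ 2 * (l * ∫ x, Q x)) with hT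
  have hT0 : 0 ≤ T := by
    have := integral_nonneg (μ := volume) (f := Q) hQ0
    positivity
  have hcn := P.cn_pos_le hi hik
  set N : ℝ := ((P.kids i j).card : ℝ) with hN
  have hN0 : 0 ≤ N := Nat.cast_nonneg _
  have hNb : N ≤ (P.b : ℝ) := by
    rw [hN]
    exact_mod_cast P.lx_card_kids i j
  set F : ℕ → V2 → ℂ := fun L => pavC (P.y i) (dir (P.cen (i - 1) L))
    (fun z => (P.cn i : ℂ) * P.lx_nod (P.lx_dG G i L) i j W z) with hF
  have hFb : ∀ L, Band (F L) (P.lx_SX i j) := fun L =>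
    (lx_UA_term hG hi hik h L).pavC (P.lx_y_pos hi) _
  have hF2 : ∀ L, Integrable fun x => ‖F L x‖ ^ 2 := fun L =>
    (hFb L).memLp.integrable_norm_pow (by norm_num)
  have hone : ∀ L ∈ P.kids i j, ∫ x, ‖F L x‖ ^ 2 ≤ 4 * T := by
    intro L hL
    have h1 := integral_norm_sq_pavC_le (lx_UA_term hG hi hik h L) (P.lx_y_pos hi)
      (dir (P.cen (i - 1) L))
    have h2 := lx_nod_sq (lx_good_damp hG (norm_dir (P.cen (i - 1) L)) (P.lx_y_pos hi).le) hi hik h hQ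
      hQ0 (hm L hL) hl0 hl
    refine h1.trans ?_
    have e : ∀ x, ‖(P.cn i : ℂ) * P.lx_nod (P.lx_dG G i L) i j W x‖ ^ 2 =
        P.cn i ^ 2 * ‖P.lx_nod (P.lx_dG G i L) i j W x‖ ^ 2 := by
      intro x
      rw [norm_mul, mul_pow, Complex.norm_real, Real.norm_eq_abs, sq_abs]
    simp_rw [e]
    rw [integral_const_mul]
    have h3 : P.cn i ^ 2 ≤ 4 := by nlinarith [hcn.1, hcn.2]
    have h4 : 0 ≤ ∫ x, ‖P.lx_nod (P.lx_dG G i L) i j W x‖ ^ 2 :=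
      integral_nonneg fun x => by positivity
    exact mul_le_mul h3 h2 h4 (by norm_num)
  calc ∫ x, ‖P.lx_UA G i j W x‖ ^ 2 ≤ ∫ x, N * ∑ L ∈ P.kids i j, ‖F L x‖ ^ 2 := by
        refine integral_mono ((lx_UA_band hG hi hik h).memLp.integrable_norm_pow (by norm_num))
          ((integrable_finsetSum _ fun L _ => hF2 L).const_mul N) fun x => ?_
        exact sq_norm_sum_le (P.kids i j) fun L => F L x
    _ = N * ∑ L ∈ P.kids i j, ∫ x, ‖F L x‖ ^ 2 := by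
        rw [integral_const_mul, integral_finsetSum _ fun L _ => hF2 L]
    _ ≤ N * ∑ L ∈ P.kids i j, 4 * T :=
        mul_le_mul_of_nonneg_left (Finset.sum_le_sum hone) hN0
    _ = N * N * (4 * T) := by
        rw [Finset.sum_const, nsmul_eq_mul]
        ring
    _ ≤ 4 * (P.b : ℝ) ^ 2 * T := by
        have : N * N ≤ (P.b : ℝ) ^ 2 := by nlinarith
        nlinarith

/-! ### The weights -/

theorem lx_wt_S (K : Ker) (hG : P.Good G) {τ : ℝ} (hτ : 0 < τ) {i : ℕ} (hik : i + 1 ≤ P.k)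
    (j : ℕ) : P.lx_Wt i j (fun x => 1 - P.h G K τ (i + 1) (j / P.b) x) 1 := by
  obtain ⟨h1, h2, h3, -, -, h6⟩ := P.cut_basic K hG hτ (j := j / P.b) hik
  refine ⟨continuous_const.sub h1, fun x => ?_, ?_⟩
  · rw [abs_le]
    have := h2 x
    have := h3 x
    constructor <;> linarith
  · have h7 := (h6.smul (-1)).mono (T := P.wbox 2 i j ∩ Metric.closedBall 0 (4 * P.B)) (by
      intro z hz
      refine ⟨P.fbox_parent_subset hik hz, ?_⟩
      refine Metric.closedBall_subset_closedBall ?_ (P.fbox_subset_ball hik hz)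
      have := P.lx_B_nonneg
      linarith)
    convert h7 using 2 with x
    push_cast
    ring

theorem lx_wt_A (K : Ker) (hG : P.Good G) {τ : ℝ} (hτ : 0 < τ) {i : ℕ} (hik : i ≤ P.k) (j : ℕ) :
    ∃ c : ℝ, P.lx_Wt i j (P.v G K τ i j) c := by
  obtain ⟨h1, h2, h3, -, -, h6⟩ := P.cut_basic K hG hτ (j := j) hik
  have hB := P.lx_B_nonneg
  have h7 := (h6.smul (-1)).mono (T := P.wbox 2 i j ∩ Metric.closedBall 0 (4 * P.B)) (by
    intro z hz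
    refine ⟨P.fbox_subset hik hz, ?_⟩
    exact Metric.closedBall_subset_closedBall (by linarith) (P.fbox_subset_ball hik hz))
  by_cases hi : i = P.k
  · refine ⟨1, ?_⟩
    have e : P.v G K τ i j = fun x => 1 - P.h G K τ i j x := by
      ext x
      unfold v
      rw [if_pos hi]
    rw [e]
    refine ⟨continuous_const.sub h1, fun x => ?_, ?_⟩
    · rw [abs_le]
      have := h2 x
      have := h3 x
      constructor <;> linarith
    · convert h7 using 2 with x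
      push_cast
      ring
  · refine ⟨0, ?_⟩
    have hi' : i + 1 ≤ P.k := by omega
    obtain ⟨g1, g2, g3, -, -, g6⟩ := P.cut_basic K hG hτ (j := j / P.b) hi'
    have e : P.v G K τ i j = fun x => P.h G K τ (i + 1) (j / P.b) x - P.h G K τ i j x := by
      ext x
      unfold v
      rw [if_neg hi]
    rw [e]
    refine ⟨g1.sub h1, fun x => ?_, ?_⟩
    · rw [abs_le]
      have := h2 x
      have := h3 x
      have := g2 x
      have := g3 x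
      constructor <;> linarith
    · have g7 := g6.mono (T := P.wbox 2 i j ∩ Metric.closedBall 0 (4 * P.B)) (by
        intro z hz
        refine ⟨P.fbox_parent_subset hi' hz, ?_⟩
        exact Metric.closedBall_subset_closedBall (by linarith) (P.fbox_subset_ball hi' hz))
      have g8 := g7.add h7
      convert g8 using 2 with x
      push_cast
      ring

/-! ### Assembly -/

theorem lx_map (P : Par) {i : ℕ} (hi : 1 ≤ i) (hik : i ≤ P.k) :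
    ∀ L ∈ Finset.range (P.M (i - 1)), L / P.b ∈ Finset.range (P.M i) := by
  intro L hL
  rw [Finset.mem_range] at hL ⊢
  have h1 := P.M_succ (i := i - 1) (by omega)
  have h2 : i - 1 + 1 = i := by omega
  rw [h2] at h1
  rw [h1] at hL
  exact Nat.div_lt_of_lt_mul hL

theorem lx_map0 (P : Par) {i : ℕ} (hik : i ≤ P.k) :
    ∀ κ ∈ Finset.range (P.M 0), κ / P.b ^ i ∈ Finset.range (P.M i) := by
  intro κ hκ
  rw [Finset.mem_range] at hκ ⊢
  have h1 : P.M 0 = P.b ^ i * P.M i := by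
    unfold M
    have h2 : P.k = i + (P.k - i) := by omega
    rw [Nat.sub_zero]
    conv_lhs => rw [h2, pow_add]
    ring
  rw [h1] at hκ
  exact Nat.div_lt_of_lt_mul hκ

theorem lx_XS_re (P : Par) (G : V2 → ℂ) (K : Ker) (τ : ℝ) (x : V2) : P.XS G K τ x =
    (∑ i ∈ Finset.Ico 1 P.k, ∑ j ∈ Finset.range (P.M i),
      P.lx_nod G i j (fun z => 1 - P.h G K τ (i + 1) (j / P.b) z) x).re := by
  unfold XS
  rw [Complex.re_sum]
  refine Finset.sum_congr rfl fun i _ => ?_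
  rw [Complex.re_sum]
  refine Finset.sum_congr rfl fun j _ => ?_
  rw [lx_nod_re]

theorem lx_XA_re (K : Ker) (hG : P.Good G) {τ : ℝ} (hτ : 0 < τ) (x : V2) : P.XA G K τ x =
    (∑ i ∈ Finset.Icc 1 P.k, ∑ j ∈ Finset.range (P.M i),
      P.lx_UA G i j (P.v G K τ i j) x).re := by
  unfold XA
  rw [Complex.re_sum]
  refine Finset.sum_congr rfl fun i hi => ?_
  rw [Finset.mem_Icc] at hi
  rw [Complex.re_sum, ← Finset.sum_fiberwise_of_maps_to (P.lx_map hi.1 hi.2)]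
  refine Finset.sum_congr rfl fun j _ => ?_
  unfold lx_UA
  rw [Complex.re_sum]
  refine Finset.sum_congr rfl fun L hL => ?_
  have hLj : L / P.b = j := (Finset.mem_filter.1 hL).2
  obtain ⟨c, hc⟩ := lx_wt_A K hG hτ hi.2 j
  rw [← pav_re (lx_UA_term hG hi.1 hi.2 hc L) (lx_y_pos P hi.1), hLj]
  congr 1
  ext z
  rw [Complex.re_ofReal_mul, lx_nod_re, mul_assoc]
  simp only [lx_T_eq]

theorem X_int (P : Par) (K : Ker) {G : V2 → ℂ} (hG : P.Good G) {τ : ℝ} (hτ : 0 < τ) :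
    Integrable (fun x => P.XS G K τ x + P.XA G K τ x) ∧
      ∫ x, (P.XS G K τ x + P.XA G K τ x) = 0 := by
  have hS : ∀ i ∈ Finset.Ico 1 P.k, ∀ j,
      Integrable (P.lx_nod G i j (fun z => 1 - P.h G K τ (i + 1) (j / P.b) z)) ∧
      ∫ x, P.lx_nod G i j (fun z => 1 - P.h G K τ (i + 1) (j / P.b) z) x = 0 := by
    intro i hi j
    rw [Finset.mem_Ico] at hi
    exact lx_nod_int hG hi.1 (by omega) (lx_wt_S K hG hτ (by omega) j)
  have hA : ∀ i ∈ Finset.Icc 1 P.k, ∀ j, Integrable (P.lx_UA G i j (P.v G K τ i j)) ∧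
      ∫ x, P.lx_UA G i j (P.v G K τ i j) x = 0 := by
    intro i hi j
    rw [Finset.mem_Icc] at hi
    obtain ⟨c, hc⟩ := lx_wt_A K hG hτ hi.2 j
    exact lx_UA_int hG hi.1 hi.2 hc
  have iS : Integrable (fun x => ∑ i ∈ Finset.Ico 1 P.k, ∑ j ∈ Finset.range (P.M i),
      P.lx_nod G i j (fun z => 1 - P.h G K τ (i + 1) (j / P.b) z) x) :=
    integrable_finsetSum _ fun i hi => integrable_finsetSum _ fun j _ => (hS i hi j).1
  have iA : Integrable (fun x => ∑ i ∈ Finset.Icc 1 P.k, ∑ j ∈ Finset.range (P.M i),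
      P.lx_UA G i j (P.v G K τ i j) x) :=
    integrable_finsetSum _ fun i hi => integrable_finsetSum _ fun j _ => (hA i hi j).1
  have zS : ∫ x, (∑ i ∈ Finset.Ico 1 P.k, ∑ j ∈ Finset.range (P.M i),
      P.lx_nod G i j (fun z => 1 - P.h G K τ (i + 1) (j / P.b) z) x) = 0 := by
    rw [integral_finsetSum _ fun i hi => integrable_finsetSum _ fun j _ => (hS i hi j).1]
    refine Finset.sum_eq_zero fun i hi => ?_
    rw [integral_finsetSum _ fun j _ => (hS i hi j).1]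
    exact Finset.sum_eq_zero fun j _ => (hS i hi j).2
  have zA : ∫ x, (∑ i ∈ Finset.Icc 1 P.k, ∑ j ∈ Finset.range (P.M i),
      P.lx_UA G i j (P.v G K τ i j) x) = 0 := by
    rw [integral_finsetSum _ fun i hi => integrable_finsetSum _ fun j _ => (hA i hi j).1]
    refine Finset.sum_eq_zero fun i hi => ?_
    rw [integral_finsetSum _ fun j _ => (hA i hi j).1]
    exact Finset.sum_eq_zero fun j _ => (hA i hi j).2
  have e : ∀ x, P.XS G K τ x + P.XA G K τ x = ((∑ i ∈ Finset.Ico 1 P.k,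
      ∑ j ∈ Finset.range (P.M i),
      P.lx_nod G i j (fun z => 1 - P.h G K τ (i + 1) (j / P.b) z) x) +
      ∑ i ∈ Finset.Icc 1 P.k, ∑ j ∈ Finset.range (P.M i),
      P.lx_UA G i j (P.v G K τ i j) x).re := by
    intro x
    rw [lx_XS_re, lx_XA_re K hG hτ, Complex.add_re]
  simp_rw [e]
  have h1 := iS.add iA
  refine ⟨h1.re, ?_⟩
  have h2 := integral_re h1
  refine h2.trans ?_
  have h3 := integral_add iS iA
  rw [zS, zA, add_zero] at h3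
  simp only [Pi.add_apply] at h3 ⊢
  rw [h3]
  simp

/-- Majorant of the squares of the finest pieces of a node. -/
noncomputable def lx_Q (P : Par) (G : V2 → ℂ) (C : ℝ) (i j : ℕ) (x : V2) : ℝ :=
  C * (P.A ^ 2 * P.Sn G i j x)

theorem lx_Q_facts (hG : P.Good G) {C : ℝ} (hC : 0 ≤ C) (i j : ℕ) :
    Integrable (P.lx_Q G C i j) ∧ (∀ x, 0 ≤ P.lx_Q G C i j x) ∧
    ∫ x, P.lx_Q G C i j x = C * (P.A ^ 2 *
      ∑ κ ∈ P.lx_arcs i j, ∫ x, ‖P.gp G 0 κ x‖ ^ 2) := by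
  have hS : ∀ κ, Integrable (P.Sb G κ) := fun κ => (dens_basic P hG κ).2.2.2.2.2.2.1
  have hS0 : ∀ κ x, 0 ≤ P.Sb G κ x := fun κ => (dens_basic P hG κ).2.1
  have hSi : ∀ κ, ∫ x, P.Sb G κ x = ∫ x, ‖P.gp G 0 κ x‖ ^ 2 := fun κ =>
    (dens_basic P hG κ).2.2.2.2.2.2.2.2.1
  have hn : Integrable (P.Sn G i j) := integrable_finsetSum _ fun κ _ => hS κ
  refine ⟨(hn.const_mul _).const_mul _, fun x => ?_, ?_⟩
  · have : 0 ≤ P.Sn G i j x := Finset.sum_nonneg fun κ _ => hS0 κ x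
    unfold lx_Q
    positivity
  · unfold lx_Q
    rw [integral_const_mul, integral_const_mul]
    unfold Sn
    rw [integral_finsetSum _ fun κ _ => hS κ]
    simp_rw [hSi]

theorem lx_Q_sum (hG : P.Good G) {C : ℝ} (hC : 0 ≤ C) {i : ℕ} (hik : i ≤ P.k) :
    ∑ j ∈ Finset.range (P.M i), ∫ x, P.lx_Q G C i j x ≤ C * P.A ^ 2 := by
  classical
  have e : ∀ j ∈ Finset.range (P.M i), ∫ x, P.lx_Q G C i j x = C * (P.A ^ 2 *
      ∑ κ ∈ P.lx_arcs i j, ∫ x, ‖P.gp G 0 κ x‖ ^ 2) := fun j _ => (lx_Q_facts hG hC i j).2.2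
  rw [Finset.sum_congr rfl e, ← Finset.mul_sum, ← Finset.mul_sum,
    Finset.sum_fiberwise_of_maps_to (P.lx_map0 hik), P.sum_sq hG]
  have h1 := hG.le
  have h2 : 0 ≤ C * P.A ^ 2 := by positivity
  nlinarith

theorem lx_Q_dom (hG : P.Good G) {C : ℝ} (hC : 0 ≤ C) {i j : ℕ} {F : ℕ → V2 → ℂ}
    (hF : ∀ κ ∈ P.lx_arcs i j, ∀ x, ‖F κ x‖ ^ 2 ≤ C * P.E G κ x) (x : V2) :
    ∑ κ ∈ P.lx_arcs i j, ‖F κ x‖ ^ 2 ≤ P.lx_Q G C i j x := by
  unfold lx_Q Sn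
  rw [Finset.mul_sum, Finset.mul_sum]
  refine Finset.sum_le_sum fun κ hκ => (hF κ hκ x).trans ?_
  exact mul_le_mul_of_nonneg_left ((dens_basic P hG κ).2.2.1 x) hC

theorem lx_Sn_mono (hG : P.Good G) {i : ℕ} (j : ℕ) (x : V2) :
    P.Sn G i j x ≤ P.Sn G (i + 1) (j / P.b) x := by
  unfold Sn
  refine Finset.sum_le_sum_of_subset_of_nonneg ?_ fun κ _ _ => (dens_basic P hG κ).2.1 x
  intro κ hκ
  rw [Finset.mem_filter] at hκ ⊢
  refine ⟨hκ.1, ?_⟩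
  rw [pow_succ, ← Nat.div_div_eq_div_mul, hκ.2]

theorem lx_num {b A q D l C Cc τ H k : ℝ} (hq1 : 1 ≤ q) (hH : 1 ≤ H) (hb : b = q ^ 4)
    (hA : A = q ^ 8) (hD : D = 2 * (20 * q * H) + 1) (hC : 0 ≤ C) (hCc : 0 ≤ Cc) (hτ : 0 ≤ τ)
    (hl : l = C * (A ^ 2 * (Cc * q * τ)))
    (hq : 80 * 1681 * k ^ 2 * H ^ 2 * C ^ 2 * Cc ≤ q) :
    80 * k ^ 2 * b ^ 2 * (b ^ 4 * (D ^ 2 * (l * (C * A ^ 2)))) ≤ q ^ 100 * τ := by
  have h1 : D ≤ 41 * q * H := by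
    have : 1 ≤ q * H := one_le_mul_of_one_le_of_one_le hq1 hH
    rw [hD]
    nlinarith
  have hD0 : 0 ≤ D := by
    rw [hD]
    positivity
  have h2 : D ^ 2 ≤ (41 * q * H) ^ 2 := pow_le_pow_left₀ hD0 h1 2
  have hq0 : 0 ≤ q := by linarith
  calc 80 * k ^ 2 * b ^ 2 * (b ^ 4 * (D ^ 2 * (l * (C * A ^ 2))))
      = (80 * k ^ 2 * b ^ 6 * (l * (C * A ^ 2))) * D ^ 2 := by ring
    _ ≤ (80 * k ^ 2 * b ^ 6 * (l * (C * A ^ 2))) * (41 * q * H) ^ 2 := by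
        refine mul_le_mul_of_nonneg_left h2 ?_
        rw [hl, hb, hA]
        positivity
    _ = (80 * 1681 * k ^ 2 * H ^ 2 * C ^ 2 * Cc) * (q ^ 59 * τ) := by
        rw [hl, hb, hA]
        ring
    _ ≤ q * (q ^ 59 * τ) := mul_le_mul_of_nonneg_right hq (by positivity)
    _ = q ^ 60 * τ := by ring
    _ ≤ q ^ 100 * τ := mul_le_mul_of_nonneg_right (pow_le_pow_right₀ hq1 (by norm_num)) hτ

/-- Sum over the nodes of a level. -/
theorem lx_level (hG : P.Good G) {i : ℕ} (hi : 1 ≤ i) (hik : i ≤ P.k) {U : ℕ → V2 → ℂ}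
    (hU : ∀ j, Band (U j) (P.lx_SX i j)) {C l m : ℝ} (hC : 0 ≤ C) (hl : 0 ≤ l) (hm : 0 ≤ m)
    (h : ∀ j, ∫ x, ‖U j x‖ ^ 2 ≤ m * ((P.b : ℝ) ^ 4 *
      ((2 * (20 * P.q * P.H) + 1) ^ 2 * (l * ∫ x, P.lx_Q G C i j x)))) :
    ∫ x, ‖∑ j ∈ Finset.range (P.M i), U j x‖ ^ 2 ≤ 8 * (m * ((P.b : ℝ) ^ 4 *
      ((2 * (20 * P.q * P.H) + 1) ^ 2 * (l * (C * P.A ^ 2))))) := by
  refine (lx_level_sq hi hik hU).trans ?_
  refine mul_le_mul_of_nonneg_left ?_ (by norm_num)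
  refine (Finset.sum_le_sum fun j _ => h j).trans ?_
  rw [← Finset.mul_sum, ← Finset.mul_sum, ← Finset.mul_sum, ← Finset.mul_sum]
  have h1 := lx_Q_sum hG hC hik
  have h2 : (0 : ℝ) ≤ (P.b : ℝ) ^ 4 := by positivity
  exact mul_le_mul_of_nonneg_left (mul_le_mul_of_nonneg_left (mul_le_mul_of_nonneg_left
    (mul_le_mul_of_nonneg_left h1 hl) (by positivity)) h2) hm

/-- Square of a sum over the levels. -/
theorem lx_levels (s : Finset ℕ) {k : ℝ} (hs : (s.card : ℝ) ≤ k) {F : ℕ → V2 → ℂ}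
    (hF : ∀ i ∈ s, Band (F i) Set.univ) {m : ℝ} (hm : 0 ≤ m)
    (h : ∀ i ∈ s, ∫ x, ‖F i x‖ ^ 2 ≤ m) :
    ∫ x, ‖∑ i ∈ s, F i x‖ ^ 2 ≤ k ^ 2 * m := by
  have hi : ∀ i ∈ s, Integrable fun x => ‖F i x‖ ^ 2 := fun i hi =>
    (hF i hi).memLp.integrable_norm_pow (by norm_num)
  have hk : 0 ≤ (s.card : ℝ) := Nat.cast_nonneg _
  calc ∫ x, ‖∑ i ∈ s, F i x‖ ^ 2 ≤ ∫ x, (s.card : ℝ) * ∑ i ∈ s, ‖F i x‖ ^ 2 := by
        refine integral_mono ((Band.sum s hF).memLp.integrable_norm_pow (by norm_num))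
          ((integrable_finsetSum _ hi).const_mul _) fun x => ?_
        exact sq_norm_sum_le s fun i => F i x
    _ = (s.card : ℝ) * ∑ i ∈ s, ∫ x, ‖F i x‖ ^ 2 := by
        rw [integral_const_mul, integral_finsetSum _ hi]
    _ ≤ (s.card : ℝ) * ∑ i ∈ s, m := mul_le_mul_of_nonneg_left (Finset.sum_le_sum h) hk
    _ = (s.card : ℝ) ^ 2 * m := by
        rw [Finset.sum_const, nsmul_eq_mul]
        ring
    _ ≤ k ^ 2 * m := mul_le_mul_of_nonneg_right (pow_le_pow_left₀ hk hs 2) hm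

theorem X_sq (H y0 : ℝ) (K : Ker) (k : ℕ) : ∃ q0 : ℕ, ∀ P : Par, P.H = H →
    P.y0 = y0 → P.k = k → q0 ≤ P.q → ∀ G, P.Good G → ∀ τ : ℝ, 0 < τ →
    Integrable (fun x => (P.XS G K τ x + P.XA G K τ x) ^ 2) ∧
    ∫ x, (P.XS G K τ x + P.XA G K τ x) ^ 2 ≤ (P.q : ℝ) ^ 100 * τ := by
  obtain ⟨C1, hC1, k1⟩ := K1 H y0
  obtain ⟨C2, hC2, k2⟩ := K2 H y0
  obtain ⟨C3, hC3, k3⟩ := cut_C K
  obtain ⟨C4, hC4, k4⟩ := v_C K
  set C := max C1 C2 with hCdef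
  set Cc := max C3 C4 with hCcdef
  have hC : 0 ≤ C := hC1.le.trans (le_max_left _ _)
  have hCc : 0 ≤ Cc := hC3.le.trans (le_max_left _ _)
  refine ⟨⌈80 * 1681 * (k : ℝ) ^ 2 * H ^ 2 * C ^ 2 * Cc⌉₊, ?_⟩
  intro P hPH hPy hPk hq G hG τ hτ
  have hqr : 80 * 1681 * (P.k : ℝ) ^ 2 * P.H ^ 2 * C ^ 2 * Cc ≤ P.q := by
    rw [hPH, hPk]
    exact (Nat.le_ceil _).trans (by exact_mod_cast hq)
  have hq1 : (1 : ℝ) ≤ P.q := by
    have := P.hq4
    exact_mod_cast (by omega : 1 ≤ P.q)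
  have hb1 : (1 : ℝ) ≤ P.b := by exact_mod_cast P.b_pos
  set l : ℝ := C * (P.A ^ 2 * (Cc * P.q * τ)) with hl
  have hA2 : 0 ≤ P.A ^ 2 := by positivity
  have hl0 : 0 ≤ l := by
    rw [hl]
    positivity
  have hE0 : ∀ κ x, 0 ≤ P.E G κ x := fun κ => (dens_basic P hG κ).1
  -- the weight of the telescoping
  have hSn0 : ∀ i j x, 0 ≤ P.Sn G i j x := fun i j x =>
    Finset.sum_nonneg fun κ _ => (dens_basic P hG κ).2.1 x
  have hS : ∀ i ∈ Finset.Ico 1 P.k, ∀ j,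
      ∫ x, ‖P.lx_nod G i j (fun z => 1 - P.h G K τ (i + 1) (j / P.b) z) x‖ ^ 2 ≤
        1 * ((P.b : ℝ) ^ 4 * ((2 * (20 * P.q * P.H) + 1) ^ 2 *
          (l * ∫ x, P.lx_Q G C i j x))) := by
    intro i hi j
    rw [Finset.mem_Ico] at hi
    obtain ⟨q1, q2, -⟩ := lx_Q_facts hG hC i j
    rw [one_mul]
    refine lx_nod_sq hG hi.1 (by omega) (lx_wt_S K hG hτ (by omega) j) q1 q2
      (lx_Q_dom hG hC fun κ hκ x => ?_) hl0 fun x => ?_
    · have h1 := (k1 P hPH hPy G hG κ (Finset.mem_range.1 (Finset.mem_filter.1 hκ).1) x).1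
      exact h1.trans (mul_le_mul_of_nonneg_right (le_max_left _ _) (hE0 κ x))
    · have h1 := (k3 P G hG τ hτ (i + 1) (by omega) (j / P.b) x).2.2.1
      have h2 := lx_Sn_mono hG (i := i) j x
      have h3 : (1 - P.h G K τ (i + 1) (j / P.b) x) ^ 2 * P.Sn G i j x ≤ Cc * P.q * τ := by
        refine (mul_le_mul_of_nonneg_left h2 (sq_nonneg _)).trans (h1.trans ?_)
        have : C3 ≤ Cc := le_max_left _ _
        gcongr
      calc (1 - P.h G K τ (i + 1) (j / P.b) x) ^ 2 * P.lx_Q G C i j x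
          = C * (P.A ^ 2 * ((1 - P.h G K τ (i + 1) (j / P.b) x) ^ 2 * P.Sn G i j x)) := by
            unfold lx_Q
            ring
        _ ≤ l := by
            rw [hl]
            gcongr
  have hA : ∀ i ∈ Finset.Icc 1 P.k, ∀ j, ∫ x, ‖P.lx_UA G i j (P.v G K τ i j) x‖ ^ 2 ≤
      (4 * (P.b : ℝ) ^ 2) * ((P.b : ℝ) ^ 4 * ((2 * (20 * P.q * P.H) + 1) ^ 2 *
        (l * ∫ x, P.lx_Q G C i j x))) := by
    intro i hi j
    rw [Finset.mem_Icc] at hi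
    obtain ⟨q1, q2, -⟩ := lx_Q_facts hG hC i j
    obtain ⟨c, hc⟩ := lx_wt_A K hG hτ hi.2 j
    refine lx_UA_sq hG hi.1 hi.2 hc q1 q2 (fun L hL => lx_Q_dom hG hC fun κ hκ x => ?_) hl0
      fun x => ?_
    · rw [Finset.mem_filter, Finset.mem_range] at hκ
      have hL' := Finset.mem_filter.1 hL
      rw [Finset.mem_range] at hL'
      have h1 := k2 P hPH hPy G hG i hi.1 hi.2 κ hκ.1 L hL'.1 (hκ.2.trans hL'.2.symm) x
      rw [lx_T_eq] at h1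
      exact h1.trans (mul_le_mul_of_nonneg_right (le_max_right _ _) (hE0 κ x))
    · have h1 := (k4 P G hG τ hτ i hi.1 hi.2 j x).2.2.2.1
      have h3 : P.v G K τ i j x ^ 2 * P.Sn G i j x ≤ Cc * P.q * τ := by
        refine h1.trans ?_
        have : C4 ≤ Cc := le_max_right _ _
        gcongr
      calc P.v G K τ i j x ^ 2 * P.lx_Q G C i j x
          = C * (P.A ^ 2 * (P.v G K τ i j x ^ 2 * P.Sn G i j x)) := by
            unfold lx_Q
            ring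
        _ ≤ l := by
            rw [hl]
            gcongr
  set S1 : ℝ := (P.b : ℝ) ^ 4 * ((2 * (20 * P.q * P.H) + 1) ^ 2 * (l * (C * P.A ^ 2))) with hS1
  have hS10 : 0 ≤ S1 := by
    rw [hS1]
    positivity
  set FS : ℕ → V2 → ℂ := fun i x => ∑ j ∈ Finset.range (P.M i),
    P.lx_nod G i j (fun z => 1 - P.h G K τ (i + 1) (j / P.b) z) x with hFS
  set FA : ℕ → V2 → ℂ := fun i x => ∑ j ∈ Finset.range (P.M i),
    P.lx_UA G i j (P.v G K τ i j) x with hFA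
  have bS : ∀ i ∈ Finset.Ico 1 P.k, Band (FS i) Set.univ := by
    intro i hi
    rw [Finset.mem_Ico] at hi
    exact Band.sum _ fun j _ => (lx_nod_band hG hi.1 (by omega)
      (lx_wt_S K hG hτ (by omega) j)).mono (Set.subset_univ _)
  have bA : ∀ i ∈ Finset.Icc 1 P.k, Band (FA i) Set.univ := by
    intro i hi
    rw [Finset.mem_Icc] at hi
    refine Band.sum _ fun j _ => ?_
    obtain ⟨c, hc⟩ := lx_wt_A K hG hτ hi.2 j
    exact (lx_UA_band hG hi.1 hi.2 hc).mono (Set.subset_univ _)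
  have nS : ∀ i ∈ Finset.Ico 1 P.k, ∫ x, ‖FS i x‖ ^ 2 ≤ 8 * (1 * S1) := by
    intro i hi
    have hi' := hi
    rw [Finset.mem_Ico] at hi'
    exact lx_level hG hi'.1 (by omega) (fun j => lx_nod_band hG hi'.1 (by omega)
      (lx_wt_S K hG hτ (by omega) j)) hC hl0 zero_le_one (hS i hi)
  have nA : ∀ i ∈ Finset.Icc 1 P.k, ∫ x, ‖FA i x‖ ^ 2 ≤ 8 * (4 * (P.b : ℝ) ^ 2 * S1) := by
    intro i hi
    have hi' := hi
    rw [Finset.mem_Icc] at hi'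
    exact lx_level hG hi'.1 hi'.2 (fun j => by
      obtain ⟨c, hc⟩ := lx_wt_A K hG hτ hi'.2 j
      exact lx_UA_band hG hi'.1 hi'.2 hc) hC hl0 (by positivity) (hA i hi)
  have cS : ((Finset.Ico 1 P.k).card : ℝ) ≤ P.k := by
    rw [Nat.card_Ico]
    exact_mod_cast Nat.sub_le _ _
  have cA : ((Finset.Icc 1 P.k).card : ℝ) ≤ P.k := by
    rw [Nat.card_Icc]
    simp
  have mS := lx_levels (Finset.Ico 1 P.k) cS bS (by positivity) nS
  have mA := lx_levels (Finset.Icc 1 P.k) cA bA (by positivity) nA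
  have tS : Band (fun x => ∑ i ∈ Finset.Ico 1 P.k, FS i x) Set.univ := Band.sum _ bS
  have tA : Band (fun x => ∑ i ∈ Finset.Icc 1 P.k, FA i x) Set.univ := Band.sum _ bA
  have iS : Integrable fun x => ‖∑ i ∈ Finset.Ico 1 P.k, FS i x‖ ^ 2 :=
    tS.memLp.integrable_norm_pow (by norm_num)
  have iA : Integrable fun x => ‖∑ i ∈ Finset.Icc 1 P.k, FA i x‖ ^ 2 :=
    tA.memLp.integrable_norm_pow (by norm_num)
  have e : ∀ x, P.XS G K τ x + P.XA G K τ x = ((∑ i ∈ Finset.Ico 1 P.k, FS i x) +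
      ∑ i ∈ Finset.Icc 1 P.k, FA i x).re := by
    intro x
    rw [lx_XS_re, lx_XA_re K hG hτ, Complex.add_re]
  have hpt : ∀ x, (P.XS G K τ x + P.XA G K τ x) ^ 2 ≤
      2 * ‖∑ i ∈ Finset.Ico 1 P.k, FS i x‖ ^ 2 + 2 * ‖∑ i ∈ Finset.Icc 1 P.k, FA i x‖ ^ 2 := by
    intro x
    rw [e x]
    set u := ∑ i ∈ Finset.Ico 1 P.k, FS i x
    set w := ∑ i ∈ Finset.Icc 1 P.k, FA i x
    have h1 : |(u + w).re| ≤ ‖u‖ + ‖w‖ := (Complex.abs_re_le_norm _).trans (norm_add_le _ _)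
    have h2 : (u + w).re ^ 2 ≤ (‖u‖ + ‖w‖) ^ 2 := by
      rw [← sq_abs]
      exact pow_le_pow_left₀ (abs_nonneg _) h1 2
    nlinarith [sq_nonneg (‖u‖ - ‖w‖)]
  have hcont : Continuous fun x => P.XS G K τ x + P.XA G K τ x := by
    simp_rw [e]
    exact Complex.continuous_re.comp (tS.cont.add tA.cont)
  have hI : Integrable fun x => 2 * ‖∑ i ∈ Finset.Ico 1 P.k, FS i x‖ ^ 2 +
      2 * ‖∑ i ∈ Finset.Icc 1 P.k, FA i x‖ ^ 2 := (iS.const_mul 2).add (iA.const_mul 2)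
  have hsq : Integrable (fun x => (P.XS G K τ x + P.XA G K τ x) ^ 2) := by
    refine hI.mono' (hcont.pow 2).aestronglyMeasurable (Filter.Eventually.of_forall fun x => ?_)
    rw [Real.norm_of_nonneg (sq_nonneg _)]
    exact hpt x
  refine ⟨hsq, ?_⟩
  have hfin := lx_num (b := P.b) (A := P.A) (q := P.q) (D := 2 * (20 * P.q * P.H) + 1) (l := l)
    (C := C) (Cc := Cc) (τ := τ) (H := P.H) (k := P.k) hq1 P.hH
    (by unfold b; push_cast; rfl) rfl rfl hC hCc hτ.le hl hqr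
  calc ∫ x, (P.XS G K τ x + P.XA G K τ x) ^ 2
      ≤ ∫ x, (2 * ‖∑ i ∈ Finset.Ico 1 P.k, FS i x‖ ^ 2 +
        2 * ‖∑ i ∈ Finset.Icc 1 P.k, FA i x‖ ^ 2) := integral_mono hsq hI hpt
    _ = 2 * (∫ x, ‖∑ i ∈ Finset.Ico 1 P.k, FS i x‖ ^ 2) +
        2 * ∫ x, ‖∑ i ∈ Finset.Icc 1 P.k, FA i x‖ ^ 2 := by
        rw [integral_add (iS.const_mul 2) (iA.const_mul 2), integral_const_mul,
          integral_const_mul]
    _ ≤ 2 * ((P.k : ℝ) ^ 2 * (8 * (1 * S1))) +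
        2 * ((P.k : ℝ) ^ 2 * (8 * (4 * (P.b : ℝ) ^ 2 * S1))) := by linarith
    _ ≤ 80 * (P.k : ℝ) ^ 2 * (P.b : ℝ) ^ 2 * S1 := by
        have h1 : 0 ≤ (P.k : ℝ) ^ 2 * S1 := by positivity
        have h2 : (1 : ℝ) ≤ (P.b : ℝ) ^ 2 := one_le_pow₀ hb1
        nlinarith
    _ ≤ _ := hfin

end Par

end REPS
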