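import Pool.Agent.REPS.Nik
import Pool.Agent.REPS.Dom1
import Pool.Agent.REPS.Dom2
import Pool.Agent.REPS.Piece

open MeasureTheory Filter Topology Real Metric FourierTransform
open scoped ENNReal NNReal InnerProductSpace Pointwise

namespace REPS

open Helper77.TA

namespace Nt

theorem pk_le {y : ℝ} (hy : 0 < y) (t : ℝ) : pk y t ≤ y⁻¹ := by
  unfold pk
  have h1 : π⁻¹ ≤ 1 := inv_le_one_of_one_le₀ (by linarith [Real.pi_gt_three])
  have h2 : (t ^ 2 + y ^ 2)⁻¹ ≤ (y ^ 2)⁻¹ :=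
    inv_anti₀ (by positivity) (by nlinarith [sq_nonneg t])
  calc π⁻¹ * y * (t ^ 2 + y ^ 2)⁻¹ ≤ 1 * y * (y ^ 2)⁻¹ := by gcongr
    _ = y⁻¹ := by field_simp

theorem pk_le' {y t : ℝ} (hy : 0 < y) (ht : 0 < t) : pk y t ≤ y * t ^ (-2 : ℝ) := by
  unfold pk
  have h1 : π⁻¹ ≤ 1 := inv_le_one_of_one_le₀ (by linarith [Real.pi_gt_three])
  have h2 : (t ^ 2 + y ^ 2)⁻¹ ≤ (t ^ 2)⁻¹ :=
    inv_anti₀ (by positivity) (by nlinarith [sq_nonneg y])
  have h3 : t ^ (-2 : ℝ) = (t ^ 2)⁻¹ := by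
    rw [Real.rpow_neg ht.le]
    norm_num
  rw [h3]
  calc π⁻¹ * y * (t ^ 2 + y ^ 2)⁻¹ ≤ 1 * y * (t ^ 2)⁻¹ := by gcongr
    _ = y * (t ^ 2)⁻¹ := by ring

theorem pk_neg (y t : ℝ) : pk y (-t) = pk y t := by
  unfold pk
  rw [neg_sq]

theorem lint_tail1 {y T : ℝ} (hy : 0 < y) (hT : 0 < T) :
    ∫⁻ t in Set.Ioi T, ENNReal.ofReal (pk y t) ≤ ENNReal.ofReal (y / T) := by
  have hint : IntegrableOn (fun t : ℝ => y * t ^ (-2 : ℝ)) (Set.Ioi T) :=
    (integrableOn_Ioi_rpow_of_lt (by norm_num) hT).const_mul y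
  calc ∫⁻ t in Set.Ioi T, ENNReal.ofReal (pk y t)
      ≤ ∫⁻ t in Set.Ioi T, ENNReal.ofReal (y * t ^ (-2 : ℝ)) := by
        refine setLIntegral_mono' measurableSet_Ioi fun t ht => ?_
        exact ENNReal.ofReal_le_ofReal (pk_le' hy (hT.trans ht))
    _ = ENNReal.ofReal (∫ t in Set.Ioi T, y * t ^ (-2 : ℝ)) := by
        rw [ofReal_integral_eq_lintegral_ofReal hint]
        refine (ae_restrict_iff' measurableSet_Ioi).2 (ae_of_all _ fun t ht => ?_)
        have : (0 : ℝ) < t := hT.trans ht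
        show (0 : ℝ) ≤ y * t ^ (-2 : ℝ)
        positivity
    _ = ENNReal.ofReal (y / T) := by
        rw [integral_const_mul, integral_Ioi_rpow_of_lt (by norm_num) hT]
        congr 1
        have : T ^ ((-2 : ℝ) + 1) = T⁻¹ := by
          norm_num
          rw [Real.rpow_neg_one]
        rw [this]
        field_simp
        norm_num

theorem lint_tail {y T : ℝ} (hy : 0 < y) (hT : 0 < T) :
    ∫⁻ t in (Set.Icc (-T) T)ᶜ, ENNReal.ofReal (pk y t) ≤ ENNReal.ofReal (2 * y / T) := by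
  have h1 : (Set.Icc (-T) T)ᶜ ⊆ Set.Ioi T ∪ Set.Iio (-T) := by
    intro t ht
    by_contra hcon
    simp only [Set.mem_union, Set.mem_Ioi, Set.mem_Iio, not_or, not_lt] at hcon
    exact ht ⟨hcon.2, hcon.1⟩
  have h2 : ∫⁻ t in Set.Iio (-T), ENNReal.ofReal (pk y t) =
      ∫⁻ t in Set.Ioi T, ENNReal.ofReal (pk y t) := by
    rw [← lintegral_indicator measurableSet_Iio, ← lintegral_indicator measurableSet_Ioi,
      ← lintegral_neg_eq_self]
    refine lintegral_congr fun t => ?_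
    by_cases ht : T < t
    · rw [Set.indicator_of_mem (show -t ∈ Set.Iio (-T) by simpa using ht),
        Set.indicator_of_mem (show t ∈ Set.Ioi T from ht), pk_neg]
    · rw [Set.indicator_of_notMem (show -t ∉ Set.Iio (-T) by simpa using ht),
        Set.indicator_of_notMem (show t ∉ Set.Ioi T from ht)]
  calc ∫⁻ t in (Set.Icc (-T) T)ᶜ, ENNReal.ofReal (pk y t)
      ≤ ∫⁻ t in Set.Ioi T ∪ Set.Iio (-T), ENNReal.ofReal (pk y t) :=
        lintegral_mono_set h1
    _ ≤ (∫⁻ t in Set.Ioi T, ENNReal.ofReal (pk y t)) +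
        ∫⁻ t in Set.Iio (-T), ENNReal.ofReal (pk y t) := lintegral_union_le _ _ _
    _ ≤ ENNReal.ofReal (y / T) + ENNReal.ofReal (y / T) := by
        rw [h2]
        exact add_le_add (lint_tail1 hy hT) (lint_tail1 hy hT)
    _ = _ := by
        rw [← ENNReal.ofReal_add (by positivity) (by positivity)]
        congr 1
        ring

/-- Poisson average of a nonnegative function. -/
noncomputable def lpav (y : ℝ) (ω : V2) (u : V2 → ℝ≥0∞) (x : V2) : ℝ≥0∞ :=
  ∫⁻ t, ENNReal.ofReal (pk y t) * u (x - t • ω)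

theorem pk_meas' (y : ℝ) : Measurable fun t => ENNReal.ofReal (pk y t) :=
  ENNReal.measurable_ofReal.comp (measurable_pk y)

theorem lpav_le {y T : ℝ} (hy : 0 < y) (hT : 0 < T) (ω : V2) {u b : V2 → ℝ≥0∞} {c : ℝ≥0∞}
    (hu : ∀ z, u z ≤ 1) (hb : ∀ z, u z ≤ c + b z) (hbm : Measurable b) (x : V2) :
    lpav y ω u x ≤ ENNReal.ofReal (2 * y / T) + c +
      ENNReal.ofReal y⁻¹ * ∫⁻ t in Set.Icc (-T) T, b (x - t • ω) := by
  have hm : Measurable fun t : ℝ => b (x - t • ω) := by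
    refine hbm.comp ?_
    fun_prop
  unfold lpav
  rw [← lintegral_add_compl _ (measurableSet_Icc (a := -T) (b := T)), add_comm]
  have h1 : ∫⁻ t in (Set.Icc (-T) T)ᶜ, ENNReal.ofReal (pk y t) * u (x - t • ω) ≤
      ENNReal.ofReal (2 * y / T) := by
    refine le_trans ?_ (lint_tail hy hT)
    refine lintegral_mono fun t => ?_
    calc ENNReal.ofReal (pk y t) * u (x - t • ω) ≤ ENNReal.ofReal (pk y t) * 1 :=
          mul_le_mul_right (hu _) _
      _ = _ := mul_one _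
  have h2 : ∫⁻ t in Set.Icc (-T) T, ENNReal.ofReal (pk y t) * u (x - t • ω) ≤
      c + ENNReal.ofReal y⁻¹ * ∫⁻ t in Set.Icc (-T) T, b (x - t • ω) := by
    calc ∫⁻ t in Set.Icc (-T) T, ENNReal.ofReal (pk y t) * u (x - t • ω)
        ≤ ∫⁻ t in Set.Icc (-T) T, (ENNReal.ofReal (pk y t) * c +
            ENNReal.ofReal y⁻¹ * b (x - t • ω)) := by
          refine lintegral_mono fun t => ?_
          calc ENNReal.ofReal (pk y t) * u (x - t • ω)
              ≤ ENNReal.ofReal (pk y t) * (c + b (x - t • ω)) := mul_le_mul_right (hb _) _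
            _ = ENNReal.ofReal (pk y t) * c + ENNReal.ofReal (pk y t) * b (x - t • ω) :=
                mul_add _ _ _
            _ ≤ _ := by
                gcongr
                exact pk_le hy t
      _ = (∫⁻ t in Set.Icc (-T) T, ENNReal.ofReal (pk y t)) * c +
            ENNReal.ofReal y⁻¹ * ∫⁻ t in Set.Icc (-T) T, b (x - t • ω) := by
          rw [lintegral_add_left ((pk_meas' y).mul_const c), lintegral_mul_const _ (pk_meas' y),
            lintegral_const_mul _ hm]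
      _ ≤ _ := by
          gcongr
          calc (∫⁻ t in Set.Icc (-T) T, ENNReal.ofReal (pk y t)) * c
              ≤ (∫⁻ t, ENNReal.ofReal (pk y t)) * c :=
                mul_le_mul_left (setLIntegral_le_lintegral _ _) _
            _ = c := by rw [lintegral_pk hy, one_mul]
  calc _ ≤ ENNReal.ofReal (2 * y / T) +
        (c + ENNReal.ofReal y⁻¹ * ∫⁻ t in Set.Icc (-T) T, b (x - t • ω)) := add_le_add h1 h2
    _ = _ := by rw [add_assoc]

theorem lpav_le_one {y : ℝ} (hy : 0 < y) (ω : V2) {u : V2 → ℝ≥0∞} (hu : ∀ z, u z ≤ 1) (x : V2) :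
    lpav y ω u x ≤ 1 := by
  unfold lpav
  calc _ ≤ ∫⁻ t, ENNReal.ofReal (pk y t) := by
        refine lintegral_mono fun t => ?_
        calc ENNReal.ofReal (pk y t) * u (x - t • ω) ≤ ENNReal.ofReal (pk y t) * 1 :=
              mul_le_mul_right (hu _) _
          _ = _ := mul_one _
    _ = 1 := lintegral_pk hy

theorem ofReal_integral_le' {α : Type*} [MeasurableSpace α] (μ : Measure α) {g : α → ℝ}
    (hg : ∀ x, 0 ≤ g x) : ENNReal.ofReal (∫ x, g x ∂μ) ≤ ∫⁻ x, ENNReal.ofReal (g x) ∂μ := by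
  by_cases h : Integrable g μ
  · exact (ofReal_integral_eq_lintegral_ofReal h (ae_of_all _ hg)).le
  · rw [integral_undef h]
    simp

theorem pav_nonneg {y : ℝ} (hy : 0 < y) (ω : V2) {v : V2 → ℝ} (hv : ∀ z, 0 ≤ v z) (x : V2) :
    0 ≤ pav y ω v x :=
  integral_nonneg fun t => mul_nonneg (pk_nonneg hy t) (hv _)

theorem ofReal_pav_le {y : ℝ} (hy : 0 < y) (ω : V2) {v : V2 → ℝ} {u : V2 → ℝ≥0∞}
    (hv : ∀ z, 0 ≤ v z) (hu : ∀ z, ENNReal.ofReal (v z) ≤ u z) (x : V2) :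
    ENNReal.ofReal (pav y ω v x) ≤ lpav y ω u x := by
  unfold pav lpav
  refine (ofReal_integral_le' _ fun t => mul_nonneg (pk_nonneg hy t) (hv _)).trans ?_
  refine lintegral_mono fun t => ?_
  rw [ENNReal.ofReal_mul (pk_nonneg hy t)]
  exact mul_le_mul_right (hu _) _

/-- Box average of an indicator. -/
noncomputable def J (T w φ : ℝ) (U : Set V2) (x : V2) : ℝ≥0∞ :=
  ∫⁻ y, U.indicator 1 y * Nik.Bk T w φ (x - y)

theorem frame_eq (φ : ℝ) (z : V2) : z = ⟪z, dir φ⟫_ℝ • dir φ + ⟪z, nrm φ⟫_ℝ • nrm φ := by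
  have h := Real.sin_sq_add_cos_sq φ
  rw [Nik.inner_two, Nik.inner_two]
  ext i
  fin_cases i
  · simp [dir, nrm]
    linear_combination (-z 0) * h
  · simp [dir, nrm]
    linear_combination (-z 1) * h

theorem J_eq {T w : ℝ} (φ : ℝ) {U : Set V2} (hU : MeasurableSet U) (x : V2) :
    J T w φ U x = ENNReal.ofReal (4 * T * w)⁻¹ * ∫⁻ t in Set.Icc (-T) T,
      ∫⁻ s in Set.Icc (-w) w, U.indicator 1 (x - t • dir φ - s • nrm φ) := by
  have hm : Measurable fun p : ℝ × ℝ =>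
      U.indicator (1 : V2 → ℝ≥0∞) (x - p.1 • dir φ - p.2 • nrm φ) := by
    refine (measurable_one.indicator hU).comp ?_
    fun_prop
  have hms : ∀ t : ℝ, Measurable fun s : ℝ =>
      U.indicator (1 : V2 → ℝ≥0∞) (x - t • dir φ - s • nrm φ) := by
    intro t
    refine (measurable_one.indicator hU).comp ?_
    fun_prop
  set c := ENNReal.ofReal (4 * T * w)⁻¹ with hc
  set g : ℝ × ℝ → ℝ≥0∞ := fun p => U.indicator 1 (x - p.1 • dir φ - p.2 • nrm φ) *
    (Set.Icc (-T) T ×ˢ Set.Icc (-w) w).indicator (fun _ => c) p with hg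
  have hgm : Measurable g :=
    hm.mul (measurable_const.indicator (measurableSet_Icc.prod measurableSet_Icc))
  have e1 : J T w φ U x = ∫⁻ z, g (Nik.frm φ z) := by
    unfold J
    rw [← lintegral_sub_left_eq_self (fun y => U.indicator 1 y * Nik.Bk T w φ (x - y)) x]
    refine lintegral_congr fun z => ?_
    rw [sub_sub_cancel]
    simp only [hg, Nik.frm]
    congr 1
    · congr 1
      rw [sub_sub, ← frame_eq φ z]
    · unfold Nik.Bk
      rw [Nik.box_eq]
      rfl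
  rw [e1, Nik.lint_frm φ hgm, Measure.volume_eq_prod, lintegral_prod _ hgm.aemeasurable]
  have e2 : ∀ t : ℝ, ∫⁻ s, g (t, s) = (Set.Icc (-T) T).indicator (fun t => c *
      ∫⁻ s in Set.Icc (-w) w, U.indicator 1 (x - t • dir φ - s • nrm φ)) t := by
    intro t
    by_cases ht : t ∈ Set.Icc (-T) T
    · rw [Set.indicator_of_mem ht, ← lintegral_indicator measurableSet_Icc,
        ← lintegral_const_mul _ ((hms t).indicator measurableSet_Icc)]
      refine lintegral_congr fun s => ?_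
      by_cases hs : s ∈ Set.Icc (-w) w
      · rw [Set.indicator_of_mem hs]
        simp only [hg]
        rw [Set.indicator_of_mem (show (t, s) ∈ Set.Icc (-T) T ×ˢ Set.Icc (-w) w from ⟨ht, hs⟩),
          mul_comm]
      · rw [Set.indicator_of_notMem hs]
        simp only [hg]
        rw [Set.indicator_of_notMem (show (t, s) ∉ Set.Icc (-T) T ×ˢ Set.Icc (-w) w from
          fun h => hs h.2)]
        simp
    · rw [Set.indicator_of_notMem ht]
      have : ∀ s, g (t, s) = 0 := by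
        intro s
        simp only [hg]
        rw [Set.indicator_of_notMem (show (t, s) ∉ Set.Icc (-T) T ×ˢ Set.Icc (-w) w from
          fun h => ht h.1)]
        simp
      simp_rw [this]
      simp
  simp_rw [e2]
  rw [lintegral_indicator measurableSet_Icc, lintegral_const_mul]
  exact Measurable.lintegral_prod_right' (f := fun p : ℝ × ℝ =>
      U.indicator (1 : V2 → ℝ≥0∞) (x - p.1 • dir φ - p.2 • nrm φ)) hm

/-- The plane version. -/
theorem plane_eq {T w : ℝ} (hT : 0 < T) (hw : 0 < w) (φ : ℝ) {U : Set V2} (hU : MeasurableSet U)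
    (x : V2) : ∫⁻ t in Set.Icc (-T) T, ∫⁻ s in Set.Icc (-w) w,
      U.indicator 1 (x - t • dir φ - s • nrm φ) = ENNReal.ofReal (4 * T * w) * J T w φ U x := by
  rw [J_eq φ hU, ← mul_assoc, ← ENNReal.ofReal_mul (by positivity), mul_inv_cancel₀ (by positivity),
    ENNReal.ofReal_one, one_mul]

/-- From a line to a box. -/
theorem line_le {T w w0 : ℝ} (hT : 0 < T) (hw0 : 0 < w0) (hw : w0 ≤ w) (φ : ℝ) {V0 V1 : Set V2}
    (hV1 : MeasurableSet V1) (h : ∀ z ∈ V0, ∀ s, |s| ≤ w0 → z - s • nrm φ ∈ V1) (x : V2) :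
    ∫⁻ t in Set.Icc (-T) T, V0.indicator 1 (x - t • dir φ) ≤
      ENNReal.ofReal (2 * T * (w / w0)) * J T w φ V1 x := by
  have hwp : 0 < w := hw0.trans_le hw
  have h1 : ∀ t : ℝ, ENNReal.ofReal (2 * w0) * V0.indicator 1 (x - t • dir φ) ≤
      ∫⁻ s in Set.Icc (-w) w, V1.indicator 1 (x - t • dir φ - s • nrm φ) := by
    intro t
    by_cases hz : x - t • dir φ ∈ V0
    · rw [Set.indicator_of_mem hz, Pi.one_apply, mul_one]
      calc ENNReal.ofReal (2 * w0) = ∫⁻ s in Set.Icc (-w0) w0, 1 := by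
            rw [setLIntegral_const, one_mul, Real.volume_Icc]
            congr 1
            ring
        _ ≤ ∫⁻ s in Set.Icc (-w0) w0, V1.indicator 1 (x - t • dir φ - s • nrm φ) := by
            refine setLIntegral_mono' measurableSet_Icc fun s hs => ?_
            rw [Set.indicator_of_mem (h _ hz s (abs_le.2 hs))]
            exact le_rfl
        _ ≤ _ := lintegral_mono_set (Set.Icc_subset_Icc (by linarith) hw)
    · rw [Set.indicator_of_notMem hz, mul_zero]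
      exact zero_le
  have h2 : ENNReal.ofReal (2 * w0) * ∫⁻ t in Set.Icc (-T) T, V0.indicator 1 (x - t • dir φ) ≤
      ENNReal.ofReal (4 * T * w) * J T w φ V1 x := by
    rw [← plane_eq hT hwp φ hV1 x]
    calc ENNReal.ofReal (2 * w0) * ∫⁻ t in Set.Icc (-T) T, V0.indicator 1 (x - t • dir φ)
        ≤ ∫⁻ t in Set.Icc (-T) T, ENNReal.ofReal (2 * w0) * V0.indicator 1 (x - t • dir φ) :=
          lintegral_const_mul_le _ _
      _ ≤ _ := lintegral_mono h1
  have h3 : ENNReal.ofReal (2 * w0)⁻¹ * (ENNReal.ofReal (2 * w0) *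
      ∫⁻ t in Set.Icc (-T) T, V0.indicator 1 (x - t • dir φ)) ≤
      ENNReal.ofReal (2 * w0)⁻¹ * (ENNReal.ofReal (4 * T * w) * J T w φ V1 x) := by
    gcongr
  rw [← mul_assoc, ← mul_assoc, ← ENNReal.ofReal_mul (by positivity),
    ← ENNReal.ofReal_mul (by positivity), inv_mul_cancel₀ (by positivity), ENNReal.ofReal_one,
    one_mul] at h3
  refine h3.trans (le_of_eq ?_)
  congr 2
  field_simp
  ring

theorem J_meas (T w φ : ℝ) {U : Set V2} (hU : MeasurableSet U) : Measurable (J T w φ U) := by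
  unfold J
  apply Measurable.lintegral_prod_right'
    (f := fun p : V2 × V2 => U.indicator 1 p.2 * Nik.Bk T w φ (p.1 - p.2))
  exact ((measurable_one.indicator hU).comp measurable_snd).mul
    ((Nik.Bk_meas T w φ).comp (measurable_fst.sub measurable_snd))

/-- The square function estimate in the form used here. -/
theorem lnik {ι : Type} [Fintype ι] (φ : ι → ℝ) {T w : ℝ} (hw : 0 < w) (hwT : w ≤ T)
    (F : ι → V2 → ℝ≥0∞) (hF : ∀ j, Measurable (F j)) (L : ℝ≥0∞) (hL : ∀ x, ∑ j, F j x ≤ L)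
    {U : Set V2} (hU : MeasurableSet U) :
    (∑ j, ∫⁻ x, F j x * J T w (φ j) U x) ^ 2 ≤
      volume U * (L * ENNReal.ofReal (16 * (1 + Real.log (T / w))) * ∑ j, ∫⁻ x, F j x) := by
  have hcore := Nik.core φ hw hwT F hF L hL
  have hDm := Nik.dd_meas φ T w F hF
  have hcs := Nik.cauchy_sq hU hDm
  have e3 : ∫⁻ y, U.indicator 1 y * ∑ j, ∫⁻ x, F j x * Nik.Bk T w (φ j) (x - y) =
      ∑ j, ∫⁻ x, F j x * J T w (φ j) U x := by
    unfold J
    simp_rw [Finset.mul_sum]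
    rw [lintegral_finsetSum]
    · refine Finset.sum_congr rfl fun j _ => ?_
      have h1 : ∀ y, U.indicator 1 y * ∫⁻ x, F j x * Nik.Bk T w (φ j) (x - y) =
          ∫⁻ x, U.indicator 1 y * (F j x * Nik.Bk T w (φ j) (x - y)) := by
        intro y
        rw [lintegral_const_mul]
        exact (hF j).mul ((Nik.Bk_meas T w (φ j)).comp (measurable_id.sub measurable_const))
      simp_rw [h1]
      rw [lintegral_lintegral_swap]
      · refine lintegral_congr fun x => ?_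
        rw [← lintegral_const_mul]
        · refine lintegral_congr fun y => ?_
          ring
        · exact (measurable_one.indicator hU).mul
            ((Nik.Bk_meas T w (φ j)).comp (measurable_const.sub measurable_id))
      · refine Measurable.aemeasurable ?_
        exact ((measurable_one.indicator hU).comp measurable_fst).mul
          (((hF j).comp measurable_snd).mul
            ((Nik.Bk_meas T w (φ j)).comp (measurable_snd.sub measurable_fst)))
    · intro j _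
      refine (measurable_one.indicator hU).mul ?_
      apply Measurable.lintegral_prod_right'
        (f := fun p : V2 × V2 => F j p.2 * Nik.Bk T w (φ j) (p.2 - p.1))
      exact ((hF j).comp measurable_snd).mul
        ((Nik.Bk_meas T w (φ j)).comp (measurable_snd.sub measurable_fst))
  rw [← e3]
  refine hcs.trans ?_
  gcongr

/-- From the square to the first power. -/
theorem lnik_sqrt {ι : Type} [Fintype ι] (φ : ι → ℝ) {T w : ℝ} (hw : 0 < w) (hwT : w ≤ T)
    (F : ι → V2 → ℝ≥0∞) (hF : ∀ j, Measurable (F j)) {L S v : ℝ} (hL0 : 0 ≤ L) (hS0 : 0 ≤ S)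
    (hv0 : 0 ≤ v)
    (hL : ∀ x, ∑ j, F j x ≤ ENNReal.ofReal L) (hS : ∑ j, ∫⁻ x, F j x ≤ ENNReal.ofReal S)
    {U : Set V2} (hU : MeasurableSet U) (hv : volume U ≤ ENNReal.ofReal v) :
    ∑ j, ∫⁻ x, F j x * J T w (φ j) U x ≤
      ENNReal.ofReal (√(v * (L * (16 * (1 + Real.log (T / w))) * S))) := by
  have hlog : 0 ≤ Real.log (T / w) := Real.log_nonneg ((one_le_div hw).2 hwT)
  have h1 := lnik φ hw hwT F hF _ hL hU
  have h2 : (∑ j, ∫⁻ x, F j x * J T w (φ j) U x) ^ 2 ≤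
      ENNReal.ofReal (√(v * (L * (16 * (1 + Real.log (T / w))) * S))) ^ 2 := by
    rw [← ENNReal.ofReal_pow (Real.sqrt_nonneg _), Real.sq_sqrt (by positivity),
      ENNReal.ofReal_mul hv0, ENNReal.ofReal_mul (by positivity), ENNReal.ofReal_mul hL0]
    refine h1.trans ?_
    gcongr
  exact (ENNReal.pow_le_pow_left_iff two_ne_zero).1 h2

/-! ### Sums over the cyclic distance -/

/-- profile -/
noncomputable def pf (n : ℕ) : ℝ := Real.exp (-(n : ℝ)) * (1 + (n : ℝ) ^ 2)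

theorem pf_nonneg (n : ℕ) : 0 ≤ pf n := by unfold pf; positivity

theorem pf_summable : Summable pf := by
  have h0 := Real.summable_pow_mul_exp_neg_nat_mul 0 (r := 1) one_pos
  have h2 := Real.summable_pow_mul_exp_neg_nat_mul 2 (r := 1) one_pos
  refine (h0.add h2).congr fun n => ?_
  unfold pf
  rw [pow_zero, one_mul, neg_one_mul]
  ring

theorem inj_sum (s : Finset ℕ) (a : ℕ → ℕ) (ha : Set.InjOn a s) :
    ∑ κ ∈ s, pf (a κ) ≤ ∑' n, pf n := by
  rw [← Finset.sum_image ha]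
  exact pf_summable.sum_le_tsum _ fun n _ => pf_nonneg n

theorem cds : ∃ Cs : ℝ, 0 < Cs ∧ ∀ P : Par, ∀ κ' < P.M 0,
    ∑ κ ∈ Finset.range (P.M 0), Real.exp (-(P.cd κ κ')) * (1 + P.cd κ κ' ^ 2) ≤ Cs := by
  refine ⟨4 * ∑' n, pf n, ?_, ?_⟩
  · have : 0 < ∑' n, pf n := by
      refine pf_summable.tsum_pos pf_nonneg 0 ?_
      unfold pf; positivity
    positivity
  · intro P κ' hκ'
    set M := P.M 0
    have hp : ∀ κ ∈ Finset.range M, Real.exp (-(P.cd κ κ')) * (1 + P.cd κ κ' ^ 2) ≤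
        (if κ' ≤ κ then pf (κ - κ') + pf (M - (κ - κ')) else 0) +
          (if κ < κ' then pf (κ' - κ) + pf (M - (κ' - κ)) else 0) := by
      intro κ hκ
      have hκM : κ < M := Finset.mem_range.1 hκ
      unfold Par.cd
      rcases le_or_gt κ' κ with hle | hlt
      · rw [if_pos hle, if_neg (by omega), add_zero]
        have e1 : |(κ : ℝ) - κ'| = ((κ - κ' : ℕ) : ℝ) := by
          rw [Nat.cast_sub hle, abs_of_nonneg]
          have : (κ' : ℝ) ≤ κ := by exact_mod_cast hle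
          linarith
        have e2 : (P.M 0 : ℝ) - ((κ - κ' : ℕ) : ℝ) = ((M - (κ - κ') : ℕ) : ℝ) := by
          rw [Nat.cast_sub (by omega : κ - κ' ≤ M)]
        rw [e1, e2]
        rcases min_choice ((κ - κ' : ℕ) : ℝ) ((M - (κ - κ') : ℕ) : ℝ) with h | h
        · rw [h]
          have := pf_nonneg (M - (κ - κ'))
          show pf (κ - κ') ≤ _
          linarith
        · rw [h]
          have := pf_nonneg (κ - κ')
          show pf (M - (κ - κ')) ≤ _
          linarith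
      · rw [if_neg (by omega), if_pos hlt, zero_add]
        have e1 : |(κ : ℝ) - κ'| = ((κ' - κ : ℕ) : ℝ) := by
          rw [Nat.cast_sub hlt.le, abs_of_nonpos]
          · ring
          have : (κ : ℝ) ≤ κ' := by exact_mod_cast hlt.le
          linarith
        have e2 : (P.M 0 : ℝ) - ((κ' - κ : ℕ) : ℝ) = ((M - (κ' - κ) : ℕ) : ℝ) := by
          rw [Nat.cast_sub (by omega : κ' - κ ≤ M)]
        rw [e1, e2]
        rcases min_choice ((κ' - κ : ℕ) : ℝ) ((M - (κ' - κ) : ℕ) : ℝ) with h | h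
        · rw [h]
          have := pf_nonneg (M - (κ' - κ))
          show pf (κ' - κ) ≤ _
          linarith
        · rw [h]
          have := pf_nonneg (κ' - κ)
          show pf (M - (κ' - κ)) ≤ _
          linarith
    refine (Finset.sum_le_sum hp).trans ?_
    rw [Finset.sum_add_distrib, ← Finset.sum_filter, ← Finset.sum_filter,
      Finset.sum_add_distrib, Finset.sum_add_distrib]
    have h1 := inj_sum ((Finset.range M).filter fun κ => κ' ≤ κ) (fun κ => κ - κ') (by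
      intro a ha b hb hab
      simp only [Finset.coe_filter, Set.mem_ofPred_eq, Finset.mem_range] at ha hb hab
      omega)
    have h2 := inj_sum ((Finset.range M).filter fun κ => κ' ≤ κ) (fun κ => M - (κ - κ')) (by
      intro a ha b hb hab
      simp only [Finset.coe_filter, Set.mem_ofPred_eq, Finset.mem_range] at ha hb hab
      omega)
    have h3 := inj_sum ((Finset.range M).filter fun κ => κ < κ') (fun κ => κ' - κ) (by
      intro a ha b hb hab
      simp only [Finset.coe_filter, Set.mem_ofPred_eq, Finset.mem_range] at ha hb hab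
      omega)
    have h4 := inj_sum ((Finset.range M).filter fun κ => κ < κ') (fun κ => M - (κ' - κ)) (by
      intro a ha b hb hab
      simp only [Finset.coe_filter, Set.mem_ofPred_eq, Finset.mem_range] at ha hb hab
      omega)
    linarith

/-! ### The total density -/

theorem q_ge (P : Par) : (4 : ℝ) ≤ P.q := by exact_mod_cast P.hq4

theorem sqrtR_pos (P : Par) : 1 ≤ √P.R := by
  refine le_trans ?_ P.hR
  exact one_le_pow₀ (by linarith [q_ge P])

theorem A_ge (P : Par) : 1 ≤ P.A := by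
  unfold Par.A
  exact one_le_pow₀ (by linarith [q_ge P])

theorem log_le (P : Par) : 1 + Real.log √P.R ≤ (P.q : ℝ) ^ 2 := by
  have hq := q_ge P
  have hk : (8 * P.k : ℝ) ≤ P.q := by exact_mod_cast P.hq
  have h1 : Real.log √P.R ≤ Real.log (2 * (P.q : ℝ) ^ (4 * P.k)) :=
    Real.log_le_log (by linarith [sqrtR_pos P]) P.hR'
  rw [Real.log_mul (by norm_num) (by positivity), Real.log_pow] at h1
  have h2 : Real.log (P.q : ℝ) ≤ P.q := by
    have := Real.log_le_sub_one_of_pos (by linarith : (0 : ℝ) < P.q)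
    linarith
  have h3 : Real.log 2 ≤ 1 := by
    have := Real.log_le_sub_one_of_pos (by norm_num : (0 : ℝ) < 2)
    linarith
  have h4 : ((4 * P.k : ℕ) : ℝ) ≤ P.q / 2 := by
    push_cast
    linarith
  have h5 : 0 ≤ Real.log (P.q : ℝ) := Real.log_nonneg (by linarith)
  have h6 : ((4 * P.k : ℕ) : ℝ) * Real.log P.q ≤ P.q / 2 * P.q := by
    apply mul_le_mul h4 h2 h5 (by positivity)
  nlinarith

theorem St_facts (P : Par) {G : V2 → ℂ} (hG : P.Good G) : Continuous (P.St G) ∧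
    (∀ x, 0 ≤ P.St G x) ∧ ∫⁻ x, ENNReal.ofReal (P.St G x) ≤ 1 ∧
    ∑ κ ∈ Finset.range (P.M 0), ∫ x, ‖P.gp G 0 κ x‖ ^ 2 ≤ 1 := by
  have hb := fun κ => Par.dens_basic P hG κ
  have h1 : Continuous (P.St G) := by
    unfold Par.St
    exact continuous_finsetSum _ fun κ _ => (hb κ).2.2.2.2.1
  have h2 : ∀ x, 0 ≤ P.St G x := by
    intro x
    unfold Par.St
    exact Finset.sum_nonneg fun κ _ => (hb κ).2.1 x
  have h4 : ∑ κ ∈ Finset.range (P.M 0), ∫ x, ‖P.gp G 0 κ x‖ ^ 2 ≤ 1 := by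
    rw [Par.sum_sq P hG]
    exact hG.le
  refine ⟨h1, h2, ?_, h4⟩
  have hint : Integrable (P.St G) := by
    unfold Par.St
    exact integrable_finsetSum _ fun κ _ => (hb κ).2.2.2.2.2.2.1
  rw [← ofReal_integral_eq_lintegral_ofReal hint (ae_of_all _ h2), ← ENNReal.ofReal_one]
  apply ENNReal.ofReal_le_ofReal
  refine le_trans (le_of_eq ?_) h4
  unfold Par.St
  rw [integral_finsetSum _ fun κ _ => (hb κ).2.2.2.2.2.2.1]
  exact Finset.sum_congr rfl fun κ _ => (hb κ).2.2.2.2.2.2.2.2.1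

theorem vol_le (P : Par) {G : V2 → ℂ} (hG : P.Good G) {s : ℝ} (hs : 0 < s) :
    volume {x | s ≤ P.St G x} ≤ ENNReal.ofReal (1 / s) := by
  obtain ⟨h1, h2, h3, _⟩ := St_facts P hG
  have h4 := mul_meas_ge_le_lintegral₀ (μ := volume)
    (ENNReal.measurable_ofReal.comp h1.measurable).aemeasurable (ENNReal.ofReal s)
  have h5 : {x | ENNReal.ofReal s ≤ (ENNReal.ofReal ∘ P.St G) x} = {x | s ≤ P.St G x} := by
    ext x
    exact ENNReal.ofReal_le_ofReal_iff (h2 x)
  rw [h5] at h4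
  have h6 : ENNReal.ofReal s * volume {x | s ≤ P.St G x} ≤ 1 := h4.trans h3
  calc volume {x | s ≤ P.St G x} =
        ENNReal.ofReal (1 / s) * (ENNReal.ofReal s * volume {x | s ≤ P.St G x}) := by
        rw [← mul_assoc, ← ENNReal.ofReal_mul (by positivity), one_div,
          inv_mul_cancel₀ hs.ne', ENNReal.ofReal_one, one_mul]
    _ ≤ ENNReal.ofReal (1 / s) * 1 := by gcongr
    _ = _ := mul_one _

/-- Harnack for the total density across. -/
theorem har_cross {C : ℝ} (hC : 1 ≤ C) (P : Par) {G : V2 → ℂ} (hG : P.Good G)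
    (hH : ∀ x z, P.St G (x + z) ≤ C * (1 + (√P.R / P.A * ‖z‖) ^ 2) ^ 2 * P.St G x)
    (φ : ℝ) {hi : ℝ} (z : V2) (hz : z ∈ {x | hi ≤ P.St G x}) (s : ℝ) (hs : |s| ≤ 1 / √P.R) :
    z - s • nrm φ ∈ {x | hi / (4 * C) ≤ P.St G x} := by
  have hR := sqrtR_pos P
  have hA := A_ge P
  have h2 := (St_facts P hG).2.1
  have h3 := hH (z - s • nrm φ) (s • nrm φ)
  rw [sub_add_cancel] at h3
  have hn : ‖nrm φ‖ = 1 := by
    have h := Nik.inner_two (nrm φ) (nrm φ)
    rw [real_inner_self_eq_norm_sq] at h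
    have h1 : (nrm φ) 0 * (nrm φ) 0 + (nrm φ) 1 * (nrm φ) 1 = 1 := by
      simp [nrm]
      nlinarith [Real.sin_sq_add_cos_sq φ]
    rw [h1] at h
    nlinarith [norm_nonneg (nrm φ)]
  have h4 : √P.R / P.A * ‖s • nrm φ‖ ≤ 1 := by
    rw [norm_smul, hn, mul_one, Real.norm_eq_abs]
    calc √P.R / P.A * |s| ≤ √P.R / P.A * (1 / √P.R) := by gcongr
      _ = 1 / P.A := by
        have : √P.R ≠ 0 := by positivity
        field_simp
      _ ≤ 1 := (div_le_one (by linarith)).2 hA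
  have h5 : (1 + (√P.R / P.A * ‖s • nrm φ‖) ^ 2) ^ 2 ≤ 4 := by
    have h0 : 0 ≤ √P.R / P.A * ‖s • nrm φ‖ := by positivity
    have : (√P.R / P.A * ‖s • nrm φ‖) ^ 2 ≤ 1 := by nlinarith
    nlinarith [sq_nonneg (√P.R / P.A * ‖s • nrm φ‖)]
  show hi / (4 * C) ≤ P.St G (z - s • nrm φ)
  rw [div_le_iff₀ (by positivity)]
  have hz' : hi ≤ P.St G z := hz
  have h6 := h2 (z - s • nrm φ)
  calc hi ≤ C * (1 + (√P.R / P.A * ‖s • nrm φ‖) ^ 2) ^ 2 * P.St G (z - s • nrm φ) :=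
        hz'.trans h3
    _ ≤ C * 4 * P.St G (z - s • nrm φ) := by gcongr
    _ = _ := by ring

theorem J_mono (T w φ : ℝ) {U V : Set V2} (h : U ⊆ V) (x : V2) : J T w φ U x ≤ J T w φ V x := by
  unfold J
  refine lintegral_mono fun y => ?_
  refine mul_le_mul_left ?_ _
  exact Set.indicator_le_indicator_of_subset h (fun _ => zero_le_one) y

/-- Pointwise bound of the line average. -/
theorem pav_line_le (P : Par) (φ : ℝ) {V0 V1 : Set V2} (hV0 : MeasurableSet V0)
    (hV1 : MeasurableSet V1)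
    (h : ∀ z ∈ V0, ∀ s, |s| ≤ 1 / √P.R → z - s • nrm φ ∈ V1) (x : V2) :
    ENNReal.ofReal (pav P.y0 (dir φ) (V0.indicator 1) x) ≤ ENNReal.ofReal (2 * P.y0 / P.q) +
      ENNReal.ofReal (2 * (P.q : ℝ) ^ 2) * J P.q (P.q / √P.R) φ V1 x := by
  have hq := q_ge P
  have hR := sqrtR_pos P
  have hy := P.hy0
  have hq0 : (0 : ℝ) < P.q := by linarith
  have hR0 : 0 < √P.R := by linarith
  have h0 : ∀ z : V2, 0 ≤ V0.indicator (1 : V2 → ℝ) z := fun z =>
    Set.indicator_nonneg (fun _ _ => zero_le_one) _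
  have h1 : ∀ z : V2, ENNReal.ofReal (V0.indicator (1 : V2 → ℝ) z) ≤
      V0.indicator (1 : V2 → ℝ≥0∞) z := by
    intro z
    by_cases hz : z ∈ V0 <;> simp [hz]
  have h1' : ∀ z : V2, V0.indicator (1 : V2 → ℝ≥0∞) z ≤ 1 := by
    intro z
    by_cases hz : z ∈ V0 <;> simp [hz]
  refine (ofReal_pav_le (by linarith) (dir φ) h0 h1 x).trans ?_
  refine (lpav_le (c := 0) (by linarith) hq0 (dir φ) h1' (fun z => by rw [zero_add])
    (measurable_one.indicator hV0) x).trans ?_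
  rw [add_zero]
  refine add_le_add le_rfl ?_
  have h3 := line_le (w := P.q / √P.R) hq0 (by positivity : 0 < 1 / √P.R)
    (by gcongr; linarith) φ hV1 h x
  have h4 : 2 * (P.q : ℝ) * (P.q / √P.R / (1 / √P.R)) = 2 * (P.q : ℝ) ^ 2 := by
    field_simp
  rw [h4] at h3
  calc ENNReal.ofReal P.y0⁻¹ * ∫⁻ t in Set.Icc (-(P.q : ℝ)) P.q, V0.indicator 1 (x - t • dir φ)
      ≤ 1 * ∫⁻ t in Set.Icc (-(P.q : ℝ)) P.q, V0.indicator 1 (x - t • dir φ) := by
        gcongr
        rw [← ENNReal.ofReal_one]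
        exact ENNReal.ofReal_le_ofReal (inv_le_one_of_one_le₀ hy)
    _ ≤ _ := by rw [one_mul]; exact h3

/-- Pointwise bound of the plane average. -/
theorem pav_plane_le (P : Par) (φ : ℝ) {V0 : Set V2} (hV0 : MeasurableSet V0) (x : V2) :
    ENNReal.ofReal (pav P.y0 (dir φ) (pav (1 / √P.R) (nrm φ) (V0.indicator 1)) x) ≤
      ENNReal.ofReal (2 * P.y0 / P.q) + ENNReal.ofReal (2 / P.q) +
      ENNReal.ofReal (4 * (P.q : ℝ) ^ 2) * J P.q (P.q / √P.R) φ V0 x := by
  have hq := q_ge P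
  have hR := sqrtR_pos P
  have hy := P.hy0
  have hq0 : (0 : ℝ) < P.q := by linarith
  have hR0 : 0 < √P.R := by linarith
  have hr : 0 < 1 / √P.R := by positivity
  have h0 : ∀ z : V2, 0 ≤ V0.indicator (1 : V2 → ℝ) z := fun z =>
    Set.indicator_nonneg (fun _ _ => zero_le_one) _
  have h1 : ∀ z : V2, ENNReal.ofReal (V0.indicator (1 : V2 → ℝ) z) ≤
      V0.indicator (1 : V2 → ℝ≥0∞) z := by
    intro z
    by_cases hz : z ∈ V0 <;> simp [hz]
  have h1' : ∀ z : V2, V0.indicator (1 : V2 → ℝ≥0∞) z ≤ 1 := by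
    intro z
    by_cases hz : z ∈ V0 <;> simp [hz]
  have h2 : ∀ z, ENNReal.ofReal (pav (1 / √P.R) (nrm φ) (V0.indicator 1) z) ≤
      lpav (1 / √P.R) (nrm φ) (V0.indicator 1) z := ofReal_pav_le hr (nrm φ) h0 h1
  have hw : 0 < P.q / √P.R := by positivity
  have h3 : ∀ z, lpav (1 / √P.R) (nrm φ) (V0.indicator 1) z ≤ ENNReal.ofReal (2 / P.q) +
      ENNReal.ofReal √P.R * ∫⁻ s in Set.Icc (-(P.q / √P.R)) (P.q / √P.R),
        V0.indicator 1 (z - s • nrm φ) := by
    intro z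
    have h4 := lpav_le (c := 0) hr hw (nrm φ) h1' (fun z => by rw [zero_add])
      (measurable_one.indicator hV0) z
    have e1 : 2 * (1 / √P.R) / (P.q / √P.R) = 2 / (P.q : ℝ) := by field_simp
    have e2 : (1 / √P.R)⁻¹ = √P.R := by rw [one_div, inv_inv]
    rw [add_zero, e1, e2] at h4
    exact h4
  have hm : Measurable fun z : V2 => ENNReal.ofReal √P.R *
      ∫⁻ s in Set.Icc (-(P.q / √P.R)) (P.q / √P.R), V0.indicator 1 (z - s • nrm φ) := by
    refine Measurable.const_mul ?_ _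
    apply Measurable.lintegral_prod_right'
      (f := fun p : V2 × ℝ => V0.indicator (1 : V2 → ℝ≥0∞) (p.1 - p.2 • nrm φ))
    refine (measurable_one.indicator hV0).comp ?_
    fun_prop
  refine (ofReal_pav_le (by linarith) (dir φ) (fun z => pav_nonneg hr _ h0 z) h2 x).trans ?_
  refine (lpav_le (by linarith) hq0 (dir φ) (lpav_le_one hr _ h1') h3 hm x).trans ?_
  refine add_le_add le_rfl ?_
  rw [lintegral_const_mul]
  · rw [plane_eq hq0 hw φ hV0 x]
    calc ENNReal.ofReal P.y0⁻¹ * (ENNReal.ofReal √P.R *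
          (ENNReal.ofReal (4 * P.q * (P.q / √P.R)) * J P.q (P.q / √P.R) φ V0 x))
        ≤ 1 * (ENNReal.ofReal √P.R *
          (ENNReal.ofReal (4 * P.q * (P.q / √P.R)) * J P.q (P.q / √P.R) φ V0 x)) := by
          gcongr
          rw [← ENNReal.ofReal_one]
          exact ENNReal.ofReal_le_ofReal (inv_le_one_of_one_le₀ hy)
      _ = _ := by
          rw [one_mul, ← mul_assoc, ← ENNReal.ofReal_mul hR0.le]
          congr 2
          field_simp
  · apply Measurable.lintegral_prod_right'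
      (f := fun p : ℝ × ℝ => V0.indicator (1 : V2 → ℝ≥0∞) (x - p.1 • dir φ - p.2 • nrm φ))
    refine (measurable_one.indicator hV0).comp ?_
    fun_prop

theorem q_pow (P : Par) {a b : ℕ} (h : a ≤ b) : (P.q : ℝ) ^ a ≤ (P.q : ℝ) ^ b :=
  pow_le_pow_right₀ (by linarith [q_ge P]) h

/-- The square function estimate for the total density. -/
theorem lnik_St {C : ℝ} (hC : 1 ≤ C) (P : Par) {G : V2 → ℂ} (hG : P.Good G)
    (F : ℕ → V2 → ℝ≥0∞) (hF : ∀ j, Measurable (F j)) {L S hi : ℝ} (hL0 : 0 ≤ L) (hS0 : 0 ≤ S)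
    (hhi : 0 < hi) (hL : ∀ x, ∑ j ∈ Finset.range (P.M 0), F j x ≤ ENNReal.ofReal L)
    (hS : ∑ j ∈ Finset.range (P.M 0), ∫⁻ x, F j x ≤ ENNReal.ofReal S) :
    ∑ j ∈ Finset.range (P.M 0), ∫⁻ x, F j x *
        J P.q (P.q / √P.R) (P.cen 0 j) {x | hi / (4 * C) ≤ P.St G x} x ≤
      ENNReal.ofReal (√(64 * C * (P.q : ℝ) ^ 2 * (L / hi) * S)) := by
  have hq := q_ge P
  have hR := sqrtR_pos P
  have hq0 : (0 : ℝ) < P.q := by linarith
  have hR0 : 0 < √P.R := by linarith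
  have hw : 0 < P.q / √P.R := by positivity
  have hwT : P.q / √P.R ≤ P.q := div_le_self hq0.le hR
  have hU : MeasurableSet {x | hi / (4 * C) ≤ P.St G x} :=
    (isClosed_le continuous_const (St_facts P hG).1).measurableSet
  have hv := vol_le P hG (s := hi / (4 * C)) (by positivity)
  have hL' : ∀ x, ∑ j : Fin (P.M 0), F j x ≤ ENNReal.ofReal L := by
    intro x
    rw [Fin.sum_univ_eq_sum_range (fun j => F j x)]
    exact hL x
  have hS' : ∑ j : Fin (P.M 0), ∫⁻ x, F j x ≤ ENNReal.ofReal S := by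
    rw [Fin.sum_univ_eq_sum_range (fun j => ∫⁻ x, F j x)]
    exact hS
  have h1 := lnik_sqrt (ι := Fin (P.M 0)) (fun j => P.cen 0 j) hw hwT (fun j => F j)
    (fun j => hF j) hL0 hS0 (by positivity : 0 ≤ 1 / (hi / (4 * C))) hL' hS' hU hv
  rw [Fin.sum_univ_eq_sum_range (fun j => ∫⁻ x, F j x *
        J P.q (P.q / √P.R) (P.cen 0 j) {x | hi / (4 * C) ≤ P.St G x} x)] at h1
  refine h1.trans ?_
  apply ENNReal.ofReal_le_ofReal
  apply Real.sqrt_le_sqrt
  have e1 : (P.q : ℝ) / (P.q / √P.R) = √P.R := by field_simp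
  rw [e1]
  have h2 := log_le P
  calc 1 / (hi / (4 * C)) * (L * (16 * (1 + Real.log √P.R)) * S)
      ≤ 1 / (hi / (4 * C)) * (L * (16 * (P.q : ℝ) ^ 2) * S) := by gcongr
    _ = _ := by field_simp; ring

end Nt

namespace Par

open Nt

theorem nt (H y0 : ℝ) : ∃ C : ℝ, 0 < C ∧ ∀ k : ℕ, ∃ q0 : ℕ, ∀ P : Par, P.H = H → P.y0 = y0 →
    P.k = k → q0 ≤ P.q → ∀ G, P.Good G → ∀ f : ℕ → V2 → ℝ, (∀ κ, Measurable (f κ)) →
    (∀ κ x, 0 ≤ f κ x) → (∀ κ, Integrable (f κ)) →
    (∀ x, ∑ κ ∈ Finset.range (P.M 0), f κ x ≤ (P.q : ℝ) ^ 40 * P.St G x) →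
    ∀ lo hi : ℝ, 0 < lo → lo ≤ hi →
    (∑ κ ∈ Finset.range (P.M 0), ∫ x in {x | P.St G x < lo}, f κ x *
        pav P.y0 (dir (P.cen 0 κ)) ({x | hi ≤ P.St G x}.indicator 1) x) +
      (∑ κ ∈ Finset.range (P.M 0), ∫ x in {x | P.St G x < lo}, f κ x *
        pav P.y0 (dir (P.cen 0 κ)) (pav (1 / √P.R) (nrm (P.cen 0 κ))
          ({x | hi ≤ P.St G x}.indicator 1)) x) ≤
      C / P.q * (∑ κ ∈ Finset.range (P.M 0), ∫ x, f κ x) +
      (P.q : ℝ) ^ 100 * √(lo / hi) * √(∑ κ ∈ Finset.range (P.M 0), ∫ x, f κ x) := by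
  obtain ⟨CH, hCH, hHar⟩ := HAR_St
  refine ⟨4 * |y0| + 2, by positivity, fun k => ⟨⌈CH⌉₊, ?_⟩⟩
  intro P hPH hPy hPk hq0 G hG f hfm hf0 hfi hsum lo hi hlo hlohi
  have hhi : 0 < hi := hlo.trans_le hlohi
  have hCq : CH ≤ P.q := (Nat.le_ceil CH).trans (by exact_mod_cast hq0)
  have hq := q_ge P
  have hR := sqrtR_pos P
  have hy := P.hy0
  have hqp : (0 : ℝ) < P.q := by linarith
  obtain ⟨hSc, hS0, hS1, hS2⟩ := St_facts P hG
  have hV0 : MeasurableSet {x | hi ≤ P.St G x} :=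
    (isClosed_le continuous_const hSc).measurableSet
  have hV1 : MeasurableSet {x | hi / (4 * CH) ≤ P.St G x} :=
    (isClosed_le continuous_const hSc).measurableSet
  have hLm : MeasurableSet {x | P.St G x < lo} :=
    (isOpen_lt hSc continuous_const).measurableSet
  have hsub : {x | hi ≤ P.St G x} ⊆ {x | hi / (4 * CH) ≤ P.St G x} := by
    intro x hx
    have hx' : hi ≤ P.St G x := hx
    exact le_trans (div_le_self hhi.le (by linarith)) hx'
  set S := ∑ κ ∈ Finset.range (P.M 0), ∫ x, f κ x with hSd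
  have hSnn : 0 ≤ S := Finset.sum_nonneg fun κ _ => integral_nonneg (hf0 κ)
  set V1 := {x | hi / (4 * CH) ≤ P.St G x} with hV1d
  -- pointwise bound of both kernels
  have hpt : ∀ κ x,
      ENNReal.ofReal (pav P.y0 (dir (P.cen 0 κ)) ({x | hi ≤ P.St G x}.indicator 1) x) +
      ENNReal.ofReal (pav P.y0 (dir (P.cen 0 κ)) (pav (1 / √P.R) (nrm (P.cen 0 κ))
          ({x | hi ≤ P.St G x}.indicator 1)) x) ≤
      ENNReal.ofReal ((4 * |y0| + 2) / P.q) +
        ENNReal.ofReal (6 * (P.q : ℝ) ^ 2) * J P.q (P.q / √P.R) (P.cen 0 κ) V1 x := by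
    intro κ x
    have h1 := pav_line_le P (P.cen 0 κ) hV0 hV1
      (fun z hz s hs => har_cross hCH P hG (fun x z => hHar P G hG x z) (P.cen 0 κ) z hz s hs) x
    have h2 := (pav_plane_le P (P.cen 0 κ) hV0 x).trans (add_le_add_right
      (mul_le_mul_right (J_mono P.q (P.q / √P.R) (P.cen 0 κ) hsub x)
        (ENNReal.ofReal (4 * (P.q : ℝ) ^ 2))) _)
    refine (add_le_add h1 h2).trans (le_of_eq ?_)
    have e1 : ENNReal.ofReal ((4 * |y0| + 2) / P.q) = ENNReal.ofReal (2 * P.y0 / P.q) +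
        (ENNReal.ofReal (2 * P.y0 / P.q) + ENNReal.ofReal (2 / P.q)) := by
      rw [← ENNReal.ofReal_add (by positivity) (by positivity),
        ← ENNReal.ofReal_add (by positivity) (by positivity), ← hPy, abs_of_nonneg (by linarith)]
      congr 1
      field_simp
      ring
    have e2 : ENNReal.ofReal (6 * (P.q : ℝ) ^ 2) = ENNReal.ofReal (2 * (P.q : ℝ) ^ 2) +
        ENNReal.ofReal (4 * (P.q : ℝ) ^ 2) := by
      rw [← ENNReal.ofReal_add (by positivity) (by positivity)]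
      congr 1
      ring
    rw [e1, e2, add_mul]
    ring
  have hrp : 0 < 1 / √P.R := by
    have : 0 < √P.R := by linarith
    positivity
  have hind0 : ∀ z : V2, 0 ≤ {x | hi ≤ P.St G x}.indicator (1 : V2 → ℝ) z := fun z =>
    Set.indicator_nonneg (fun _ _ => zero_le_one) _
  have hA0 : ∀ κ x, 0 ≤ f κ x *
      pav P.y0 (dir (P.cen 0 κ)) ({x | hi ≤ P.St G x}.indicator 1) x := fun κ x =>
    mul_nonneg (hf0 κ x) (pav_nonneg (by linarith) _ hind0 x)
  have hB0 : ∀ κ x, 0 ≤ f κ x * pav P.y0 (dir (P.cen 0 κ)) (pav (1 / √P.R) (nrm (P.cen 0 κ))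
          ({x | hi ≤ P.St G x}.indicator 1)) x := fun κ x =>
    mul_nonneg (hf0 κ x) (pav_nonneg (by linarith) _ (fun z => pav_nonneg hrp _ hind0 z) x)
  have hFm : ∀ κ, Measurable ({x | P.St G x < lo}.indicator
      fun x => ENNReal.ofReal (f κ x)) := fun κ =>
    (ENNReal.measurable_ofReal.comp (hfm κ)).indicator hLm
  -- the bound of the box term
  have hbox := lnik_St hCH P hG (fun κ => {x | P.St G x < lo}.indicator
      fun x => ENNReal.ofReal (f κ x)) hFm (L := (P.q : ℝ) ^ 40 * lo) (S := S) (hi := hi)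
      (by positivity) hSnn hhi (by
        intro x
        by_cases hx : x ∈ {x | P.St G x < lo}
        · simp only [Set.indicator_of_mem hx]
          rw [← ENNReal.ofReal_sum_of_nonneg fun κ _ => hf0 κ x]
          apply ENNReal.ofReal_le_ofReal
          refine (hsum x).trans ?_
          have hx' : P.St G x < lo := hx
          gcongr
        · simp only [Set.indicator_of_notMem hx]
          simp) (by
        rw [hSd, ENNReal.ofReal_sum_of_nonneg fun κ _ => integral_nonneg (hf0 κ)]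
        refine Finset.sum_le_sum fun κ _ => ?_
        rw [ofReal_integral_eq_lintegral_ofReal (hfi κ) (ae_of_all _ (hf0 κ))]
        refine lintegral_mono fun x => ?_
        exact Set.indicator_le_self _ _ x)
  have hmain : ENNReal.ofReal ((∑ κ ∈ Finset.range (P.M 0), ∫ x in {x | P.St G x < lo}, f κ x *
        pav P.y0 (dir (P.cen 0 κ)) ({x | hi ≤ P.St G x}.indicator 1) x) +
      (∑ κ ∈ Finset.range (P.M 0), ∫ x in {x | P.St G x < lo}, f κ x *
        pav P.y0 (dir (P.cen 0 κ)) (pav (1 / √P.R) (nrm (P.cen 0 κ))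
          ({x | hi ≤ P.St G x}.indicator 1)) x)) ≤
      ENNReal.ofReal ((4 * |y0| + 2) / P.q * S + 6 * (P.q : ℝ) ^ 2 *
        √(64 * CH * (P.q : ℝ) ^ 2 * ((P.q : ℝ) ^ 40 * lo / hi) * S)) := by
    rw [← Finset.sum_add_distrib, ENNReal.ofReal_sum_of_nonneg fun κ _ =>
      add_nonneg (integral_nonneg (hA0 κ)) (integral_nonneg (hB0 κ))]
    have hk : ∀ κ, ENNReal.ofReal ((∫ x in {x | P.St G x < lo}, f κ x *
        pav P.y0 (dir (P.cen 0 κ)) ({x | hi ≤ P.St G x}.indicator 1) x) +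
        ∫ x in {x | P.St G x < lo}, f κ x * pav P.y0 (dir (P.cen 0 κ))
          (pav (1 / √P.R) (nrm (P.cen 0 κ)) ({x | hi ≤ P.St G x}.indicator 1)) x) ≤
        ENNReal.ofReal ((4 * |y0| + 2) / P.q) * (∫⁻ x, ENNReal.ofReal (f κ x)) +
        ENNReal.ofReal (6 * (P.q : ℝ) ^ 2) * ∫⁻ x, {x | P.St G x < lo}.indicator
          (fun x => ENNReal.ofReal (f κ x)) x * J P.q (P.q / √P.R) (P.cen 0 κ) V1 x := by
      intro κ
      have hJ := J_meas P.q (P.q / √P.R) (P.cen 0 κ) hV1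
      have hfm' : Measurable fun x => ENNReal.ofReal (f κ x) :=
        ENNReal.measurable_ofReal.comp (hfm κ)
      rw [ENNReal.ofReal_add (integral_nonneg (hA0 κ)) (integral_nonneg (hB0 κ))]
      calc _ ≤ (∫⁻ x in {x | P.St G x < lo}, ENNReal.ofReal (f κ x *
              pav P.y0 (dir (P.cen 0 κ)) ({x | hi ≤ P.St G x}.indicator 1) x)) +
            ∫⁻ x in {x | P.St G x < lo}, ENNReal.ofReal (f κ x * pav P.y0 (dir (P.cen 0 κ))
              (pav (1 / √P.R) (nrm (P.cen 0 κ)) ({x | hi ≤ P.St G x}.indicator 1)) x) :=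
            add_le_add (ofReal_integral_le' _ (hA0 κ)) (ofReal_integral_le' _ (hB0 κ))
        _ ≤ ∫⁻ x in {x | P.St G x < lo}, (ENNReal.ofReal (f κ x *
              pav P.y0 (dir (P.cen 0 κ)) ({x | hi ≤ P.St G x}.indicator 1) x) +
              ENNReal.ofReal (f κ x * pav P.y0 (dir (P.cen 0 κ))
              (pav (1 / √P.R) (nrm (P.cen 0 κ)) ({x | hi ≤ P.St G x}.indicator 1)) x)) :=
            le_lintegral_add _ _
        _ ≤ ∫⁻ x in {x | P.St G x < lo}, (ENNReal.ofReal ((4 * |y0| + 2) / P.q) *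
              ENNReal.ofReal (f κ x) + ENNReal.ofReal (6 * (P.q : ℝ) ^ 2) *
              (ENNReal.ofReal (f κ x) * J P.q (P.q / √P.R) (P.cen 0 κ) V1 x)) := by
            refine lintegral_mono fun x => ?_
            rw [ENNReal.ofReal_mul (hf0 κ x), ENNReal.ofReal_mul (hf0 κ x), ← mul_add]
            refine (mul_le_mul_right (hpt κ x) _).trans (le_of_eq ?_)
            ring
        _ = ENNReal.ofReal ((4 * |y0| + 2) / P.q) *
              (∫⁻ x in {x | P.St G x < lo}, ENNReal.ofReal (f κ x)) +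
            ENNReal.ofReal (6 * (P.q : ℝ) ^ 2) * ∫⁻ x in {x | P.St G x < lo},
              (ENNReal.ofReal (f κ x) * J P.q (P.q / √P.R) (P.cen 0 κ) V1 x) := by
            have hfJ : Measurable fun x => ENNReal.ofReal (f κ x) *
                J P.q (P.q / √P.R) (P.cen 0 κ) V1 x := hfm'.mul hJ
            rw [lintegral_add_left (hfm'.const_mul _), lintegral_const_mul _ hfm',
              lintegral_const_mul _ hfJ]
        _ ≤ _ := by
            refine add_le_add (mul_le_mul_right (setLIntegral_le_lintegral _ _) _)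
              (mul_le_mul_right ?_ _)
            rw [← lintegral_indicator hLm]
            refine lintegral_mono fun x => ?_
            by_cases hx : x ∈ {x | P.St G x < lo}
            · rw [Set.indicator_of_mem hx, Set.indicator_of_mem hx]
            · rw [Set.indicator_of_notMem hx]
              exact zero_le
    refine (Finset.sum_le_sum fun κ _ => hk κ).trans ?_
    rw [Finset.sum_add_distrib, ← Finset.mul_sum, ← Finset.mul_sum,
      ENNReal.ofReal_add (by positivity) (by positivity),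
      ENNReal.ofReal_mul (p := (4 * |y0| + 2) / P.q) (by positivity),
      ENNReal.ofReal_mul (p := 6 * (P.q : ℝ) ^ 2) (by positivity)]
    refine add_le_add (mul_le_mul_right ?_ _) (mul_le_mul_right hbox _)
    rw [hSd, ENNReal.ofReal_sum_of_nonneg fun κ _ => integral_nonneg (hf0 κ)]
    refine le_of_eq (Finset.sum_congr rfl fun κ _ => ?_)
    rw [ofReal_integral_eq_lintegral_ofReal (hfi κ) (ae_of_all _ (hf0 κ))]
  rw [ENNReal.ofReal_le_ofReal_iff (by positivity)] at hmain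
  refine hmain.trans ?_
  refine add_le_add le_rfl ?_
  have e1 : 6 * (P.q : ℝ) ^ 2 * √(64 * CH * (P.q : ℝ) ^ 2 * ((P.q : ℝ) ^ 40 * lo / hi) * S) =
      √(2304 * CH * (P.q : ℝ) ^ 46 * (lo / hi) * S) := by
    have : 6 * (P.q : ℝ) ^ 2 = √(36 * (P.q : ℝ) ^ 4) := by
      rw [show 36 * (P.q : ℝ) ^ 4 = (6 * (P.q : ℝ) ^ 2) ^ 2 by ring, Real.sqrt_sq (by positivity)]
    rw [this, ← Real.sqrt_mul (by positivity)]
    congr 1
    ring
  have e2 : (P.q : ℝ) ^ 100 * √(lo / hi) * √S = √((P.q : ℝ) ^ 200 * (lo / hi) * S) := by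
    have : (P.q : ℝ) ^ 100 = √((P.q : ℝ) ^ 200) := by
      rw [show (P.q : ℝ) ^ 200 = ((P.q : ℝ) ^ 100) ^ 2 by ring, Real.sqrt_sq (by positivity)]
    rw [this, ← Real.sqrt_mul (by positivity), ← Real.sqrt_mul (by positivity)]
  rw [e1, e2]
  apply Real.sqrt_le_sqrt
  have h3 : (2304 : ℝ) ≤ (P.q : ℝ) ^ 6 := by
    calc (2304 : ℝ) ≤ 4 ^ 6 := by norm_num
      _ ≤ (P.q : ℝ) ^ 6 := by gcongr
  have h4 : 2304 * CH * (P.q : ℝ) ^ 46 ≤ (P.q : ℝ) ^ 200 := by
    calc 2304 * CH * (P.q : ℝ) ^ 46 ≤ (P.q : ℝ) ^ 6 * P.q * (P.q : ℝ) ^ 46 := by gcongr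
      _ = (P.q : ℝ) ^ 53 := by ring
      _ ≤ _ := q_pow P (by norm_num)
  gcongr

end Par

namespace Nt

theorem sum_E_le (P : Par) {G : V2 → ℂ} (hG : P.Good G) (x : V2) :
    ∑ κ ∈ Finset.range (P.M 0), P.E G κ x ≤ P.A ^ 2 * P.St G x := by
  unfold Par.St
  rw [Finset.mul_sum]
  exact Finset.sum_le_sum fun κ _ => (Par.dens_basic P hG κ).2.2.1 x

theorem comb_nonneg (P : Par) {G : V2 → ℂ} (hG : P.Good G) {a : ℕ → ℕ → ℝ}
    (ha : ∀ κ κ', 0 ≤ a κ κ') {c : ℝ} (hc : 0 ≤ c) (κ : ℕ) (x : V2) :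
    0 ≤ c * ∑ κ' ∈ Finset.range (P.M 0), a κ κ' * P.E G κ' x :=
  mul_nonneg hc (Finset.sum_nonneg fun κ' _ =>
    mul_nonneg (ha κ κ') ((Par.dens_basic P hG κ').1 x))

theorem comb_cont (P : Par) {G : V2 → ℂ} (hG : P.Good G) (a : ℕ → ℕ → ℝ) (c : ℝ) (κ : ℕ) :
    Continuous fun x => c * ∑ κ' ∈ Finset.range (P.M 0), a κ κ' * P.E G κ' x := by
  refine continuous_const.mul (continuous_finsetSum _ fun κ' _ => ?_)
  exact continuous_const.mul (Par.dens_basic P hG κ').2.2.2.1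

theorem comb_int (P : Par) {G : V2 → ℂ} (hG : P.Good G) (a : ℕ → ℕ → ℝ) (c : ℝ) (κ : ℕ) :
    Integrable fun x => c * ∑ κ' ∈ Finset.range (P.M 0), a κ κ' * P.E G κ' x := by
  refine Integrable.const_mul (integrable_finsetSum _ fun κ' _ => ?_) c
  exact (Par.dens_basic P hG κ').2.2.2.2.2.1.const_mul _

theorem comb_mass (P : Par) {G : V2 → ℂ} (hG : P.Good G) {a : ℕ → ℕ → ℝ}
    (ha : ∀ κ κ', 0 ≤ a κ κ') {c B : ℝ} (hc : 0 ≤ c) (hB0 : 0 ≤ B)
    (hB : ∀ κ' < P.M 0, ∑ κ ∈ Finset.range (P.M 0), a κ κ' ≤ B) :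
    ∑ κ ∈ Finset.range (P.M 0), ∫⁻ x, ENNReal.ofReal
      (c * ∑ κ' ∈ Finset.range (P.M 0), a κ κ' * P.E G κ' x) ≤ ENNReal.ofReal (c * B) := by
  have h1 : ∀ κ, ∫⁻ x, ENNReal.ofReal
      (c * ∑ κ' ∈ Finset.range (P.M 0), a κ κ' * P.E G κ' x) =
      ENNReal.ofReal (c * ∑ κ' ∈ Finset.range (P.M 0), a κ κ' * ∫ x, ‖P.gp G 0 κ' x‖ ^ 2) := by
    intro κ
    rw [← ofReal_integral_eq_lintegral_ofReal (comb_int P hG a c κ)
      (ae_of_all _ (comb_nonneg P hG ha hc κ)), integral_const_mul, integral_finsetSum]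
    · congr 2
      refine Finset.sum_congr rfl fun κ' _ => ?_
      rw [integral_const_mul, (Par.dens_basic P hG κ').2.2.2.2.2.2.2.1]
    · exact fun κ' _ => (Par.dens_basic P hG κ').2.2.2.2.2.1.const_mul _
  have hI : ∀ κ', 0 ≤ ∫ x, ‖P.gp G 0 κ' x‖ ^ 2 := fun κ' => integral_nonneg fun x => by positivity
  simp_rw [h1]
  rw [← ENNReal.ofReal_sum_of_nonneg fun κ _ => mul_nonneg hc (Finset.sum_nonneg fun κ' _ =>
    mul_nonneg (ha κ κ') (hI κ'))]
  apply ENNReal.ofReal_le_ofReal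
  rw [← Finset.mul_sum, Finset.sum_comm]
  simp_rw [← Finset.sum_mul]
  refine mul_le_mul_of_nonneg_left ?_ hc
  calc ∑ κ' ∈ Finset.range (P.M 0), (∑ κ ∈ Finset.range (P.M 0), a κ κ') *
        ∫ x, ‖P.gp G 0 κ' x‖ ^ 2
      ≤ ∑ κ' ∈ Finset.range (P.M 0), B * ∫ x, ‖P.gp G 0 κ' x‖ ^ 2 := by
        refine Finset.sum_le_sum fun κ' hκ' => ?_
        exact mul_le_mul_of_nonneg_right (hB κ' (Finset.mem_range.1 hκ')) (hI κ')
    _ = B * ∑ κ' ∈ Finset.range (P.M 0), ∫ x, ‖P.gp G 0 κ' x‖ ^ 2 := by rw [Finset.mul_sum]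
    _ ≤ B * 1 := mul_le_mul_of_nonneg_left (St_facts P hG).2.2.2 hB0
    _ = B := mul_one B

theorem comb_sup (P : Par) {G : V2 → ℂ} (hG : P.Good G) {a : ℕ → ℕ → ℝ}
    (ha : ∀ κ κ', 0 ≤ a κ κ') {c B : ℝ} (hc : 0 ≤ c) (hB0 : 0 ≤ B)
    (hB : ∀ κ' < P.M 0, ∑ κ ∈ Finset.range (P.M 0), a κ κ' ≤ B) (x : V2) :
    ∑ κ ∈ Finset.range (P.M 0), ENNReal.ofReal
      (c * ∑ κ' ∈ Finset.range (P.M 0), a κ κ' * P.E G κ' x) ≤
      ENNReal.ofReal (c * B * P.A ^ 2 * P.St G x) := by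
  rw [← ENNReal.ofReal_sum_of_nonneg fun κ _ => comb_nonneg P hG ha hc κ x]
  apply ENNReal.ofReal_le_ofReal
  rw [← Finset.mul_sum, Finset.sum_comm]
  simp_rw [← Finset.sum_mul]
  have hE : ∀ κ', 0 ≤ P.E G κ' x := fun κ' => (Par.dens_basic P hG κ').1 x
  calc c * ∑ κ' ∈ Finset.range (P.M 0), (∑ κ ∈ Finset.range (P.M 0), a κ κ') * P.E G κ' x
      ≤ c * ∑ κ' ∈ Finset.range (P.M 0), B * P.E G κ' x := by
        refine mul_le_mul_of_nonneg_left (Finset.sum_le_sum fun κ' hκ' => ?_) hc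
        exact mul_le_mul_of_nonneg_right (hB κ' (Finset.mem_range.1 hκ')) (hE κ')
    _ = c * B * ∑ κ' ∈ Finset.range (P.M 0), P.E G κ' x := by rw [← Finset.mul_sum]; ring
    _ ≤ c * B * (P.A ^ 2 * P.St G x) :=
        mul_le_mul_of_nonneg_left (sum_E_le P hG x) (by positivity)
    _ = _ := by ring

/-- Swap of the transport. -/
theorem swap (q : ℝ) (ω : V2) {V Lo : Set V2} (hV : MeasurableSet V) (hLo : MeasurableSet Lo)
    {g f : V2 → ℝ≥0∞} (hg : Measurable g) (hf : Measurable f)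
    (hgf : ∀ x t, |t| ≤ q → g (x + t • ω) ≤ f x) :
    ∫⁻ x, V.indicator 1 x * (g x * ∫⁻ t in Set.Icc (-q) q, Lo.indicator 1 (x - t • ω)) ≤
      ∫⁻ x, Lo.indicator f x * ∫⁻ t in Set.Icc (-q) q, V.indicator 1 (x - t • ω) := by
  have m1 : Measurable fun p : V2 × ℝ => Lo.indicator (1 : V2 → ℝ≥0∞) (p.1 - p.2 • ω) := by
    refine (measurable_one.indicator hLo).comp ?_
    fun_prop
  have m2 : Measurable fun p : ℝ × V2 => V.indicator (1 : V2 → ℝ≥0∞) (p.2 + p.1 • ω) := by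
    refine (measurable_one.indicator hV).comp ?_
    fun_prop
  have mV : Measurable (V.indicator (1 : V2 → ℝ≥0∞)) := measurable_one.indicator hV
  have e1 : ∀ x, V.indicator 1 x * (g x * ∫⁻ t in Set.Icc (-q) q, Lo.indicator 1 (x - t • ω)) =
      ∫⁻ t in Set.Icc (-q) q, V.indicator 1 x * (g x * Lo.indicator 1 (x - t • ω)) := by
    intro x
    have hm : Measurable fun t : ℝ => Lo.indicator (1 : V2 → ℝ≥0∞) (x - t • ω) :=
      m1.comp (measurable_const.prodMk measurable_id)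
    rw [lintegral_const_mul _ (hm.const_mul _), lintegral_const_mul _ hm]
  simp_rw [e1]
  rw [lintegral_lintegral_swap]
  · calc ∫⁻ t in Set.Icc (-q) q, ∫⁻ x, V.indicator 1 x * (g x * Lo.indicator 1 (x - t • ω))
        ≤ ∫⁻ t in Set.Icc (-q) q, ∫⁻ x, Lo.indicator f x * V.indicator 1 (x + t • ω) := by
          refine setLIntegral_mono' measurableSet_Icc fun t ht => ?_
          rw [← lintegral_add_right_eq_self (fun x =>
            V.indicator 1 x * (g x * Lo.indicator 1 (x - t • ω))) (t • ω)]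
          refine lintegral_mono fun x => ?_
          rw [add_sub_cancel_right]
          by_cases h1 : x ∈ Lo
          · rw [Set.indicator_of_mem h1, Set.indicator_of_mem h1, Pi.one_apply, mul_one, mul_comm]
            exact mul_le_mul_left (hgf x t (abs_le.2 ht)) _
          · rw [Set.indicator_of_notMem h1, Set.indicator_of_notMem h1]
            simp
      _ = ∫⁻ x, ∫⁻ t in Set.Icc (-q) q, Lo.indicator f x * V.indicator 1 (x + t • ω) := by
          rw [lintegral_lintegral_swap]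
          exact (((hf.indicator hLo).comp measurable_snd).mul m2).aemeasurable
      _ = ∫⁻ x, Lo.indicator f x * ∫⁻ t in Set.Icc (-q) q, V.indicator 1 (x - t • ω) := by
          refine lintegral_congr fun x => ?_
          have hm : Measurable fun t : ℝ => V.indicator (1 : V2 → ℝ≥0∞) (x + t • ω) :=
            m2.comp (measurable_id.prodMk measurable_const)
          rw [lintegral_const_mul _ hm]
          congr 1
          rw [← lintegral_indicator measurableSet_Icc, ← lintegral_indicator measurableSet_Icc,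
            ← lintegral_neg_eq_self]
          refine lintegral_congr fun t => ?_
          by_cases ht : t ∈ Set.Icc (-q) q
          · have ht' : -t ∈ Set.Icc (-q) q := ⟨by linarith [ht.2], by linarith [ht.1]⟩
            rw [Set.indicator_of_mem ht, Set.indicator_of_mem ht', neg_smul, ← sub_eq_add_neg]
          · have ht' : -t ∉ Set.Icc (-q) q := fun h => ht ⟨by linarith [h.2], by linarith [h.1]⟩
            rw [Set.indicator_of_notMem ht, Set.indicator_of_notMem ht']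
  · refine Measurable.aemeasurable ?_
    exact (mV.comp measurable_fst).mul ((hg.comp measurable_fst).mul m1)

/-- General form of `nt'`. -/
theorem gen (y0 C1 : ℝ) (hC1 : 0 < C1) : ∃ C : ℝ, 0 < C ∧ ∃ q0 : ℕ, ∀ P : Par, P.y0 = y0 →
    q0 ≤ P.q → ∀ G, P.Good G → ∀ u : ℕ → V2 → ℝ, (∀ κ x, 0 ≤ u κ x) →
    (∀ κ < P.M 0, ∀ x, u κ x ≤
      C1 * ∑ κ' ∈ Finset.range (P.M 0), Real.exp (-(P.cd κ κ')) * P.E G κ' x) →
    ∀ w : V2 → ℝ, (∀ x, 0 ≤ w x) → (∀ x, w x ≤ 1) → ∀ lo hi : ℝ, 0 < lo → lo ≤ hi →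
    (∀ x, P.St G x < hi → w x ≤ 1 / P.q) →
    ∑ κ ∈ Finset.range (P.M 0), ∫ x, w x * u κ x *
        pav P.y0 (dir (P.cen 0 κ)) ({x | P.St G x < lo}.indicator 1) x ≤
      C / P.q + (P.q : ℝ) ^ 99 * √(lo / hi) := by
  obtain ⟨CH, hCH, hHar⟩ := Par.HAR_St
  obtain ⟨CE, hCE, hHE⟩ := Par.HAR_E y0
  obtain ⟨Cs, hCs, hcds⟩ := cds
  set C2 := C1 * CE * Cs with hC2
  refine ⟨4 * C1 * (2 * |y0| + 1), by positivity, ⌈CH * C2 ^ 2⌉₊, ?_⟩
  intro P hPy hq0 G hG u hu0 hu w hw0 hw1 lo hi hlo hlohi hwq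
  have hhi : 0 < hi := hlo.trans_le hlohi
  have hCq : CH * C2 ^ 2 ≤ P.q := (Nat.le_ceil _).trans (by exact_mod_cast hq0)
  have hq := q_ge P
  have hR := sqrtR_pos P
  have hy := P.hy0
  have hqp : (0 : ℝ) < P.q := by linarith
  have hRp : 0 < √P.R := by linarith
  obtain ⟨hSc, hS0, hS1, hS2⟩ := St_facts P hG
  have hV0 : MeasurableSet {x | hi ≤ P.St G x} :=
    (isClosed_le continuous_const hSc).measurableSet
  have hV1 : MeasurableSet {x | hi / (4 * CH) ≤ P.St G x} :=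
    (isClosed_le continuous_const hSc).measurableSet
  have hLm : MeasurableSet {x | P.St G x < lo} :=
    (isOpen_lt hSc continuous_const).measurableSet
  set V0 := {x | hi ≤ P.St G x} with hV0d
  set V1 := {x | hi / (4 * CH) ≤ P.St G x} with hV1d
  set Lo := {x | P.St G x < lo} with hLod
  set a1 : ℕ → ℕ → ℝ := fun κ κ' => Real.exp (-(P.cd κ κ')) with ha1
  set a2 : ℕ → ℕ → ℝ := fun κ κ' => Real.exp (-(P.cd κ κ')) * (1 + P.cd κ κ' ^ 2) with ha2
  have ha1p : ∀ κ κ', 0 ≤ a1 κ κ' := fun κ κ' => (Real.exp_pos _).le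
  have ha2p : ∀ κ κ', 0 ≤ a2 κ κ' := fun κ κ' => by positivity
  set c2 := C1 * CE * (1 + (P.q : ℝ) ^ 2) ^ 2 with hc2
  set g : ℕ → V2 → ℝ≥0∞ := fun κ x => ENNReal.ofReal
    (C1 * ∑ κ' ∈ Finset.range (P.M 0), a1 κ κ' * P.E G κ' x) with hg
  set f : ℕ → V2 → ℝ≥0∞ := fun κ x => ENNReal.ofReal
    (c2 * ∑ κ' ∈ Finset.range (P.M 0), a2 κ κ' * P.E G κ' x) with hf
  have hgm : ∀ κ, Measurable (g κ) := fun κ =>
    ENNReal.measurable_ofReal.comp (comb_cont P hG a1 C1 κ).measurable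
  have hfm : ∀ κ, Measurable (f κ) := fun κ =>
    ENNReal.measurable_ofReal.comp (comb_cont P hG a2 c2 κ).measurable
  have hgf : ∀ κ < P.M 0, ∀ x t, |t| ≤ (P.q : ℝ) → g κ (x + t • dir (P.cen 0 κ)) ≤ f κ x := by
    intro κ hκ x t ht
    apply ENNReal.ofReal_le_ofReal
    have ht2 : t ^ 2 ≤ (P.q : ℝ) ^ 2 := sq_le_sq.2 (by rwa [abs_of_nonneg hqp.le])
    have h1 : ∀ κ' ∈ Finset.range (P.M 0), a1 κ κ' * P.E G κ' (x + t • dir (P.cen 0 κ)) ≤
        CE * (1 + (P.q : ℝ) ^ 2) ^ 2 * (a2 κ κ' * P.E G κ' x) := by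
      intro κ' hκ'
      have h2 := hHE P hPy G hG κ hκ κ' (Finset.mem_range.1 hκ') x t
      have hE := (Par.dens_basic P hG κ').1 x
      have h3 : CE * (1 + t ^ 2) * (1 + (t * P.cd κ κ') ^ 2) ≤
          CE * (1 + (P.q : ℝ) ^ 2) * ((1 + (P.q : ℝ) ^ 2) * (1 + P.cd κ κ' ^ 2)) := by
        have h4 : 1 + (t * P.cd κ κ') ^ 2 ≤ (1 + (P.q : ℝ) ^ 2) * (1 + P.cd κ κ' ^ 2) := by
          have : (t * P.cd κ κ') ^ 2 ≤ (P.q : ℝ) ^ 2 * P.cd κ κ' ^ 2 := by
            rw [mul_pow]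
            exact mul_le_mul_of_nonneg_right ht2 (sq_nonneg _)
          nlinarith [sq_nonneg (P.q : ℝ), sq_nonneg (P.cd κ κ')]
        gcongr
      calc a1 κ κ' * P.E G κ' (x + t • dir (P.cen 0 κ))
          ≤ a1 κ κ' * (CE * (1 + t ^ 2) * (1 + (t * P.cd κ κ') ^ 2) * P.E G κ' x) :=
            mul_le_mul_of_nonneg_left h2 (ha1p κ κ')
        _ ≤ a1 κ κ' * (CE * (1 + (P.q : ℝ) ^ 2) *
            ((1 + (P.q : ℝ) ^ 2) * (1 + P.cd κ κ' ^ 2)) * P.E G κ' x) :=
            mul_le_mul_of_nonneg_left (mul_le_mul_of_nonneg_right h3 hE) (ha1p κ κ')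
        _ = _ := by simp only [ha1, ha2]; ring
    calc C1 * ∑ κ' ∈ Finset.range (P.M 0), a1 κ κ' * P.E G κ' (x + t • dir (P.cen 0 κ))
        ≤ C1 * ∑ κ' ∈ Finset.range (P.M 0), CE * (1 + (P.q : ℝ) ^ 2) ^ 2 *
            (a2 κ κ' * P.E G κ' x) :=
          mul_le_mul_of_nonneg_left (Finset.sum_le_sum h1) hC1.le
      _ = _ := by rw [← Finset.mul_sum, hc2]; ring
  -- pointwise
  have hlo0 : ∀ z : V2, 0 ≤ Lo.indicator (1 : V2 → ℝ) z := fun z =>
    Set.indicator_nonneg (fun _ _ => zero_le_one) _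
  have hlo1 : ∀ z : V2, ENNReal.ofReal (Lo.indicator (1 : V2 → ℝ) z) ≤
      Lo.indicator (1 : V2 → ℝ≥0∞) z := by
    intro z
    by_cases hz : z ∈ Lo <;> simp [hz]
  have hlo1' : ∀ z : V2, Lo.indicator (1 : V2 → ℝ≥0∞) z ≤ 1 := by
    intro z
    by_cases hz : z ∈ Lo <;> simp [hz]
  have hy0 : 0 < P.y0 := by linarith
  have hpt : ∀ κ < P.M 0, ∀ x, ENNReal.ofReal (w x * u κ x *
        pav P.y0 (dir (P.cen 0 κ)) (Lo.indicator 1) x) ≤
      ENNReal.ofReal ((2 * |y0| + 1) / P.q) * g κ x + V0.indicator 1 x *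
        (g κ x * ∫⁻ t in Set.Icc (-(P.q : ℝ)) P.q, Lo.indicator 1 (x - t • dir (P.cen 0 κ))) := by
    intro κ hκ x
    have hp0 := pav_nonneg hy0 (dir (P.cen 0 κ)) hlo0 x
    have hpl := ofReal_pav_le hy0 (dir (P.cen 0 κ)) hlo0 hlo1 x
    have hp1 := hpl.trans (lpav_le_one hy0 (dir (P.cen 0 κ)) hlo1' x)
    have hp2 := hpl.trans (lpav_le (c := 0) hy0 hqp (dir (P.cen 0 κ)) hlo1'
      (fun z => by rw [zero_add]) (measurable_one.indicator hLm) x)
    rw [add_zero] at hp2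
    have hinv : ENNReal.ofReal P.y0⁻¹ ≤ 1 := by
      rw [← ENNReal.ofReal_one]
      exact ENNReal.ofReal_le_ofReal (inv_le_one_of_one_le₀ hy)
    have hp3 : ENNReal.ofReal (pav P.y0 (dir (P.cen 0 κ)) (Lo.indicator 1) x) ≤
        ENNReal.ofReal (2 * P.y0 / P.q) +
          ∫⁻ t in Set.Icc (-(P.q : ℝ)) P.q, Lo.indicator 1 (x - t • dir (P.cen 0 κ)) := by
      refine hp2.trans (add_le_add le_rfl ?_)
      calc _ ≤ 1 * ∫⁻ t in Set.Icc (-(P.q : ℝ)) P.q,
            Lo.indicator 1 (x - t • dir (P.cen 0 κ)) := mul_le_mul_left hinv _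
        _ = _ := one_mul _
    have hug : ENNReal.ofReal (u κ x) ≤ g κ x := ENNReal.ofReal_le_ofReal (hu κ hκ x)
    rw [ENNReal.ofReal_mul (mul_nonneg (hw0 x) (hu0 κ x)), ENNReal.ofReal_mul (hw0 x)]
    have hc : ENNReal.ofReal ((2 * |y0| + 1) / P.q) = ENNReal.ofReal (2 * P.y0 / P.q) +
        ENNReal.ofReal (1 / P.q) := by
      rw [← ENNReal.ofReal_add (by positivity) (by positivity), ← hPy, abs_of_nonneg hy0.le]
      congr 1
      field_simp
    by_cases hx : x ∈ V0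
    · have hw' : ENNReal.ofReal (w x) ≤ 1 := by
        rw [← ENNReal.ofReal_one]
        exact ENNReal.ofReal_le_ofReal (hw1 x)
      rw [Set.indicator_of_mem hx, Pi.one_apply, one_mul]
      calc ENNReal.ofReal (w x) * ENNReal.ofReal (u κ x) *
            ENNReal.ofReal (pav P.y0 (dir (P.cen 0 κ)) (Lo.indicator 1) x)
          ≤ 1 * g κ x * (ENNReal.ofReal (2 * P.y0 / P.q) +
            ∫⁻ t in Set.Icc (-(P.q : ℝ)) P.q, Lo.indicator 1 (x - t • dir (P.cen 0 κ))) :=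
            mul_le_mul' (mul_le_mul' hw' hug) hp3
        _ = ENNReal.ofReal (2 * P.y0 / P.q) * g κ x + g κ x *
            ∫⁻ t in Set.Icc (-(P.q : ℝ)) P.q, Lo.indicator 1 (x - t • dir (P.cen 0 κ)) := by
            rw [one_mul, mul_add, mul_comm (g κ x)]
        _ ≤ _ := by
            refine add_le_add (mul_le_mul_left ?_ _) le_rfl
            rw [hc]
            exact le_self_add
    · have hx' : P.St G x < hi := not_le.1 hx
      have hw' : ENNReal.ofReal (w x) ≤ ENNReal.ofReal (1 / P.q) :=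
        ENNReal.ofReal_le_ofReal (hwq x hx')
      rw [Set.indicator_of_notMem hx, zero_mul, add_zero]
      calc ENNReal.ofReal (w x) * ENNReal.ofReal (u κ x) *
            ENNReal.ofReal (pav P.y0 (dir (P.cen 0 κ)) (Lo.indicator 1) x)
          ≤ ENNReal.ofReal (1 / P.q) * g κ x * 1 :=
            mul_le_mul' (mul_le_mul' hw' hug) hp1
        _ = ENNReal.ofReal (1 / P.q) * g κ x := mul_one _
        _ ≤ _ := by
            refine mul_le_mul_left ?_ _
            rw [hc]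
            exact le_add_self
  have hgnn : ∀ κ x, 0 ≤ w x * u κ x *
      pav P.y0 (dir (P.cen 0 κ)) (Lo.indicator 1) x := fun κ x =>
    mul_nonneg (mul_nonneg (hw0 x) (hu0 κ x)) (pav_nonneg hy0 _ hlo0 x)
  have hind : ∀ κ x, ∫⁻ t in Set.Icc (-(P.q : ℝ)) P.q, V0.indicator 1 (x - t • dir (P.cen 0 κ)) ≤
      ENNReal.ofReal (2 * (P.q : ℝ) ^ 2) * J P.q (P.q / √P.R) (P.cen 0 κ) V1 x := by
    intro κ x
    have h3 := line_le (w := P.q / √P.R) hqp (by positivity : 0 < 1 / √P.R)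
      (by gcongr; linarith) (P.cen 0 κ) hV1 (fun z hz s hs => har_cross hCH P hG
        (fun x z => hHar P G hG x z) (P.cen 0 κ) z hz s hs) x
    have h4 : 2 * (P.q : ℝ) * (P.q / √P.R / (1 / √P.R)) = 2 * (P.q : ℝ) ^ 2 := by
      field_simp
    rw [h4] at h3
    exact h3
  have hk : ∀ κ ∈ Finset.range (P.M 0), ENNReal.ofReal (∫ x, w x * u κ x *
        pav P.y0 (dir (P.cen 0 κ)) (Lo.indicator 1) x) ≤
      ENNReal.ofReal ((2 * |y0| + 1) / P.q) * (∫⁻ x, g κ x) +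
        ENNReal.ofReal (2 * (P.q : ℝ) ^ 2) * ∫⁻ x, Lo.indicator (f κ) x *
          J P.q (P.q / √P.R) (P.cen 0 κ) V1 x := by
    intro κ hκ
    have hJ := J_meas P.q (P.q / √P.R) (P.cen 0 κ) hV1
    have hfJ : Measurable fun x => Lo.indicator (f κ) x *
        J P.q (P.q / √P.R) (P.cen 0 κ) V1 x := ((hfm κ).indicator hLm).mul hJ
    calc _ ≤ ∫⁻ x, ENNReal.ofReal (w x * u κ x *
          pav P.y0 (dir (P.cen 0 κ)) (Lo.indicator 1) x) := ofReal_integral_le' _ (hgnn κ)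
      _ ≤ ∫⁻ x, (ENNReal.ofReal ((2 * |y0| + 1) / P.q) * g κ x + V0.indicator 1 x *
        (g κ x * ∫⁻ t in Set.Icc (-(P.q : ℝ)) P.q,
          Lo.indicator 1 (x - t • dir (P.cen 0 κ)))) :=
          lintegral_mono (hpt κ (Finset.mem_range.1 hκ))
      _ = ENNReal.ofReal ((2 * |y0| + 1) / P.q) * (∫⁻ x, g κ x) + ∫⁻ x, V0.indicator 1 x *
        (g κ x * ∫⁻ t in Set.Icc (-(P.q : ℝ)) P.q,
          Lo.indicator 1 (x - t • dir (P.cen 0 κ))) := by
          rw [lintegral_add_left ((hgm κ).const_mul _), lintegral_const_mul _ (hgm κ)]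
      _ ≤ ENNReal.ofReal ((2 * |y0| + 1) / P.q) * (∫⁻ x, g κ x) + ∫⁻ x, Lo.indicator (f κ) x *
          ∫⁻ t in Set.Icc (-(P.q : ℝ)) P.q, V0.indicator 1 (x - t • dir (P.cen 0 κ)) :=
          add_le_add le_rfl (swap P.q (dir (P.cen 0 κ)) hV0 hLm (hgm κ) (hfm κ)
            (hgf κ (Finset.mem_range.1 hκ)))
      _ ≤ _ := by
          refine add_le_add le_rfl ?_
          rw [← lintegral_const_mul _ hfJ]
          refine lintegral_mono fun x => ?_
          refine (mul_le_mul_right (hind κ x) _).trans (le_of_eq ?_)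
          ring
  have hbox := lnik_St hCH P hG (fun κ => Lo.indicator (f κ)) (fun κ => (hfm κ).indicator hLm)
      (L := c2 * Cs * P.A ^ 2 * lo) (S := c2 * Cs) (hi := hi)
      (by positivity) (by positivity) hhi (by
        intro x
        by_cases hx : x ∈ Lo
        · simp only [Set.indicator_of_mem hx]
          refine (comb_sup P hG ha2p (by positivity) hCs.le (hcds P) x).trans ?_
          apply ENNReal.ofReal_le_ofReal
          have hx' : P.St G x < lo := hx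
          gcongr
        · simp only [Set.indicator_of_notMem hx]
          simp) (by
        refine le_trans (Finset.sum_le_sum fun κ _ => lintegral_mono fun x =>
          Set.indicator_le_self _ _ x) ?_
        exact comb_mass P hG ha2p (by positivity) hCs.le (hcds P))
  have hmass := comb_mass P hG ha1p hC1.le (by norm_num : (0 : ℝ) ≤ 4) (Par.cd_sum P)
  have hmain : ENNReal.ofReal (∑ κ ∈ Finset.range (P.M 0), ∫ x, w x * u κ x *
        pav P.y0 (dir (P.cen 0 κ)) (Lo.indicator 1) x) ≤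
      ENNReal.ofReal ((2 * |y0| + 1) / P.q * (C1 * 4) + 2 * (P.q : ℝ) ^ 2 *
        √(64 * CH * (P.q : ℝ) ^ 2 * (c2 * Cs * P.A ^ 2 * lo / hi) * (c2 * Cs))) := by
    rw [ENNReal.ofReal_sum_of_nonneg fun κ _ => integral_nonneg (hgnn κ)]
    refine (Finset.sum_le_sum hk).trans ?_
    rw [Finset.sum_add_distrib, ← Finset.mul_sum, ← Finset.mul_sum,
      ENNReal.ofReal_add (by positivity) (by positivity),
      ENNReal.ofReal_mul (p := (2 * |y0| + 1) / P.q) (by positivity),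
      ENNReal.ofReal_mul (p := 2 * (P.q : ℝ) ^ 2) (by positivity)]
    exact add_le_add (mul_le_mul_right hmass _) (mul_le_mul_right hbox _)
  rw [ENNReal.ofReal_le_ofReal_iff (by positivity)] at hmain
  refine hmain.trans ?_
  refine add_le_add (le_of_eq (by ring)) ?_
  have e1 : 2 * (P.q : ℝ) ^ 2 *
      √(64 * CH * (P.q : ℝ) ^ 2 * (c2 * Cs * P.A ^ 2 * lo / hi) * (c2 * Cs)) =
      √(256 * (CH * C2 ^ 2) * (P.q : ℝ) ^ 22 * (1 + (P.q : ℝ) ^ 2) ^ 4 * (lo / hi)) := by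
    have : 2 * (P.q : ℝ) ^ 2 = √(4 * (P.q : ℝ) ^ 4) := by
      rw [show 4 * (P.q : ℝ) ^ 4 = (2 * (P.q : ℝ) ^ 2) ^ 2 by ring, Real.sqrt_sq (by positivity)]
    rw [this, ← Real.sqrt_mul (by positivity), hc2, hC2, Par.A]
    congr 1
    ring
  have e2 : (P.q : ℝ) ^ 99 * √(lo / hi) = √((P.q : ℝ) ^ 198 * (lo / hi)) := by
    have : (P.q : ℝ) ^ 99 = √((P.q : ℝ) ^ 198) := by
      rw [show (P.q : ℝ) ^ 198 = ((P.q : ℝ) ^ 99) ^ 2 by ring, Real.sqrt_sq (by positivity)]
    rw [this, ← Real.sqrt_mul (by positivity)]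
  rw [e1, e2]
  apply Real.sqrt_le_sqrt
  have h3 : (4096 : ℝ) ≤ (P.q : ℝ) ^ 6 := by
    calc (4096 : ℝ) ≤ 4 ^ 6 := by norm_num
      _ ≤ (P.q : ℝ) ^ 6 := by gcongr
  have h5 : (1 + (P.q : ℝ) ^ 2) ^ 4 ≤ 16 * (P.q : ℝ) ^ 8 := by
    calc (1 + (P.q : ℝ) ^ 2) ^ 4 ≤ (2 * (P.q : ℝ) ^ 2) ^ 4 := by
          gcongr
          nlinarith
      _ = _ := by ring
  have h4 : 256 * (CH * C2 ^ 2) * (P.q : ℝ) ^ 22 * (1 + (P.q : ℝ) ^ 2) ^ 4 ≤ (P.q : ℝ) ^ 198 := by
    calc 256 * (CH * C2 ^ 2) * (P.q : ℝ) ^ 22 * (1 + (P.q : ℝ) ^ 2) ^ 4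
        ≤ 256 * P.q * (P.q : ℝ) ^ 22 * (16 * (P.q : ℝ) ^ 8) := by gcongr
      _ = 4096 * (P.q : ℝ) ^ 31 := by ring
      _ ≤ (P.q : ℝ) ^ 6 * (P.q : ℝ) ^ 31 := by gcongr
      _ = (P.q : ℝ) ^ 37 := by ring
      _ ≤ _ := q_pow P (by norm_num)
  gcongr

end Nt

namespace Par

open Nt

theorem nt' (H y0 : ℝ) : ∃ C : ℝ, 0 < C ∧ ∀ k : ℕ, ∃ q0 : ℕ, ∀ P : Par, P.H = H → P.y0 = y0 →
    P.k = k → q0 ≤ P.q → ∀ G, P.Good G → ∀ w : V2 → ℝ, Measurable w → (∀ x, 0 ≤ w x) →
    (∀ x, w x ≤ 1) → ∀ lo hi : ℝ, 0 < lo → lo ≤ hi →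
    (∀ x, P.St G x < hi → w x ≤ 1 / P.q) →
    (∑ κ ∈ Finset.range (P.M 0), ∫ x, w x * ‖P.T0 G κ x‖ ^ 2 *
        pav P.y0 (dir (P.cen 0 κ)) ({x | P.St G x < lo}.indicator 1) x) +
      (∑ κ ∈ Finset.range (P.M 0), ∫ x, w x * ‖P.T0 (P.piece G 0 κ) κ x‖ ^ 2 *
        pav P.y0 (dir (P.cen 0 κ)) ({x | P.St G x < lo}.indicator 1) x) ≤
      C / P.q + (P.q : ℝ) ^ 100 * √(lo / hi) := by
  obtain ⟨C1, hC1, hK1⟩ := K1 H y0
  obtain ⟨C3, hC3, hK3⟩ := K3sum H y0
  obtain ⟨D1, hD1, q1, h1⟩ := gen y0 C1 hC1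
  obtain ⟨D3, hD3, q3, h3⟩ := gen y0 C3 hC3
  refine ⟨D3 + D1, by positivity, fun k => ⟨max q1 q3, ?_⟩⟩
  intro P hPH hPy hPk hq0 G hG w hwm hw0 hw1 lo hi hlo hlohi hwq
  have hq := q_ge P
  have hqp : (0 : ℝ) < P.q := by linarith
  have A1 := h3 P hPy ((le_max_right _ _).trans hq0) G hG (fun κ x => ‖P.T0 G κ x‖ ^ 2)
    (fun κ x => by positivity) (fun κ hκ x => hK3 P hPH hPy G hG κ hκ x) w hw0 hw1 lo hi hlo
    hlohi hwq
  have A2 := h1 P hPy ((le_max_left _ _).trans hq0) G hG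
    (fun κ x => ‖P.T0 (P.piece G 0 κ) κ x‖ ^ 2)
    (fun κ x => by positivity) (fun κ hκ x => by
      refine ((hK1 P hPH hPy G hG κ hκ x).2.1).trans ?_
      refine mul_le_mul_of_nonneg_left ?_ hC1.le
      have h0 : P.cd κ κ = 0 := by
        unfold cd
        rw [sub_self, abs_zero, sub_zero]
        exact min_eq_left (Nat.cast_nonneg _)
      have h4 := Finset.single_le_sum (f := fun κ' => Real.exp (-(P.cd κ κ')) * P.E G κ' x)
        (fun κ' _ => mul_nonneg (Real.exp_pos _).le ((dens_basic P hG κ').1 x))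
        (Finset.mem_range.2 hκ)
      simpa [h0] using h4) w hw0 hw1 lo hi hlo hlohi hwq
  refine (add_le_add A1 A2).trans ?_
  have h5 : (P.q : ℝ) ^ 99 * √(lo / hi) + (P.q : ℝ) ^ 99 * √(lo / hi) ≤
      (P.q : ℝ) ^ 100 * √(lo / hi) := by
    have : (2 : ℝ) * (P.q : ℝ) ^ 99 ≤ (P.q : ℝ) ^ 100 := by
      rw [pow_succ, mul_comm]
      exact mul_le_mul_of_nonneg_left (by linarith) (by positivity)
    calc _ = (2 * (P.q : ℝ) ^ 99) * √(lo / hi) := by ring
      _ ≤ _ := mul_le_mul_of_nonneg_right this (Real.sqrt_nonneg _)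
  have h6 : D3 / P.q + D1 / P.q = (D3 + D1) / P.q := by ring
  linarith

end Par
end REPS
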