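import Pool.Agent.REPS.LowerA
import Pool.Agent.REPS.Nt
import Pool.Agent.REPS.L2x
import Pool.Agent.REPS.Diag

/-!
# Row LOWER of project 16 (MP_fe240d_an): lower bound for the mass of the packets
-/

open MeasureTheory Filter Topology Real Metric FourierTransform
open scoped ENNReal NNReal InnerProductSpace Pointwise

namespace REPS

open Helper77.TA LowerRow

namespace Par

/-- Lower bound for the mass of the packets. -/
theorem lower (H y0 θ : ℝ) (hθ : 0 < θ) (K : Ker) : ∃ c₀ : ℝ, 0 < c₀ ∧ ∀ (k c : ℕ), 2000 ≤ c →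
    ∀ ε : ℝ, 0 < ε → ∃ q0 : ℕ, ∀ P : Par, P.H = H → P.y0 = y0 → P.k = k → q0 ≤ P.q →
    ∀ F G, P.Pair F G → ∀ E : Set V2, MeasurableSet E →
    (∀ φ : ℝ, ∀ x, θ ≤ pav P.y0 (dir φ) (E.indicator 1) x) →
    ∀ n : ℤ, -(8 * k : ℤ) ≤ n → n ≤ 8 * k → P.Gm G c (n + 1) ≤ 4 * P.Gm G c n →
    c₀ * P.Gm G c n - ε ≤
      ∫ x in E ∩ {x | P.lam c (n + 1) ≤ P.St G x}, P.mm G K F (P.lam c (n + 2)) x := by
  by_cases hy1 : 1 ≤ y0
  swap
  · refine ⟨1, one_pos, fun k c _ ε _ => ⟨0, fun P _ hPy => ?_⟩⟩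
    exact absurd (hPy ▸ P.hy0) hy1
  have hy0 : 0 < y0 := zero_lt_one.trans_le hy1
  obtain ⟨C1, hC1, hK1⟩ := K1 H y0
  obtain ⟨Cn, hCn, hnt⟩ := nt H y0
  obtain ⟨Cm, hCm, hnt'⟩ := nt' H y0
  obtain ⟨CT, hCT, hcutT⟩ := cutT_C K
  obtain ⟨Ch, hCh, hh1⟩ := h1_C K
  obtain ⟨s0, hs0, hslow⟩ := exists_slow hy0 (half_pos hθ)
  set ℓ : ℝ := 16 * C1 / θ with hℓ
  have hℓ0 : 0 < ℓ := by positivity
  set a : ℝ := Real.exp (-ℓ) with ha
  have ha0 : 0 < a := Real.exp_pos _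
  have ha1 : a ≤ 1 := Real.exp_le_one_iff.mpr (by linarith)
  have hla : -Real.log a = ℓ := by rw [ha, Real.log_exp, neg_neg]
  set Cs : ℝ := max (ℓ * (4 / θ)) (2 / a) with hCs
  have hCs0 : 0 < Cs := lt_max_of_lt_left (by positivity)
  refine ⟨1 / (2 * C1 * Cs), by positivity, fun k c hc ε hε => ?_⟩
  set c₀ : ℝ := 1 / (2 * C1 * Cs) with hc₀
  have hc₀0 : 0 < c₀ := by positivity
  obtain ⟨q1, hnt⟩ := hnt k
  obtain ⟨q2, hnt'⟩ := hnt' k
  obtain ⟨Cd, q3, hCd, hdiag⟩ := diag H y0 K k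
  obtain ⟨q4, hX⟩ := X_sq H y0 K k
  -- the errors
  set e1 : ℝ → ℝ := fun x => Cn / x * C1 + 1 / x * √C1 with he1
  set ν : ℝ → ℝ := fun x => (Cm + 1) / x with hν
  set Er : ℝ → ℝ := fun x => ℓ * (4 / θ) * ν x + (ℓ + 10 * Real.log x) * ν x + 4 * C1 * e1 x +
    (x ^ 10)⁻¹ with hEr
  have hlogx : Tendsto (fun x : ℝ => Real.log x / x) atTop (𝓝 0) := by
    have := Real.tendsto_pow_log_div_mul_add_atTop 1 0 1 one_ne_zero
    simpa using this
  have hinv : Tendsto (fun x : ℝ => x⁻¹) atTop (𝓝 0) := tendsto_inv_atTop_zero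
  have hE1 : Tendsto e1 atTop (𝓝 0) := by
    have h1 : e1 = fun x => (Cn * C1 + √C1) * x⁻¹ := by
      funext x
      simp only [he1]
      rw [div_eq_mul_inv, one_div]
      ring
    rw [h1]
    simpa using hinv.const_mul (Cn * C1 + √C1)
  have hEν : Tendsto ν atTop (𝓝 0) := by
    have h1 : ν = fun x => (Cm + 1) * x⁻¹ := by
      funext x
      simp only [hν]
      rw [div_eq_mul_inv]
    rw [h1]
    simpa using hinv.const_mul (Cm + 1)
  have hEr' : Tendsto Er atTop (𝓝 0) := by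
    have h1 : Tendsto (fun x : ℝ => (x ^ 10)⁻¹) atTop (𝓝 0) :=
      tendsto_inv_atTop_zero.comp (tendsto_pow_atTop (by norm_num))
    have h2 : Tendsto (fun x : ℝ => (ℓ + 10 * Real.log x) * ν x) atTop (𝓝 0) := by
      have h3 : (fun x : ℝ => (ℓ + 10 * Real.log x) * ν x) =
          fun x => ℓ * ν x + 10 * (Cm + 1) * (Real.log x / x) := by
        funext x
        simp only [hν]
        ring
      rw [h3]
      simpa using (hEν.const_mul ℓ).add (hlogx.const_mul (10 * (Cm + 1)))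
    have h4 := (((hEν.const_mul (ℓ * (4 / θ))).add h2).add (hE1.const_mul (4 * C1))).add h1
    simpa using h4
  have hlog : Tendsto (fun x : ℝ => (Real.log x)⁻¹) atTop (𝓝 0) :=
    tendsto_inv_atTop_zero.comp Real.tendsto_log_atTop
  have hfin : Tendsto (fun x : ℝ => c₀ * (2 * C1 * Er x + C1 * e1 x) + Cd * (Real.log x)⁻¹ +
      x⁻¹) atTop (𝓝 0) := by
    have h1 := ((((hEr'.const_mul (2 * C1)).add (hE1.const_mul C1)).const_mul c₀).add
      (hlog.const_mul Cd)).add hinv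
    simpa using h1
  have ev1 : ∀ᶠ x : ℝ in atTop, C1 ≤ x ^ 24 :=
    (tendsto_pow_atTop (by norm_num)).eventually_ge_atTop C1
  have ev2 : ∀ᶠ x : ℝ in atTop, CT * (Real.log x)⁻¹ ≤ 1 / 2 := by
    have h1 := hlog.const_mul CT
    rw [mul_zero] at h1
    exact (h1.eventually (ge_mem_nhds (by norm_num : (0 : ℝ) < 1 / 2)))
  have ev3 : ∀ᶠ x : ℝ in atTop, CT ^ 2 ≤ x := eventually_ge_atTop _
  have ev4 : ∀ᶠ x : ℝ in atTop, (Ch + Ch * Real.log s0) * (Real.log x)⁻¹ ≤ 1 / 4 := by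
    have h1 := hlog.const_mul (Ch + Ch * Real.log s0)
    rw [mul_zero] at h1
    exact (h1.eventually (ge_mem_nhds (by norm_num : (0 : ℝ) < 1 / 4)))
  have ev5 := hfin.eventually (ge_mem_nhds hε)
  obtain ⟨q5, hq5⟩ := eventually_atTop.mp (tendsto_natCast_atTop_atTop.eventually
    (ev1.and (ev2.and (ev3.and (ev4.and ev5)))))
  refine ⟨max q1 (max q2 (max q3 (max q4 q5))), fun P hPH hPy hPk hPq F G hFG E hE hEθ n hn1 hn2
    hGm => ?_⟩
  simp only [max_le_iff] at hPq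
  obtain ⟨p1, p2, p3, p4, p5⟩ := hPq
  obtain ⟨ev1, ev2, ev3, ev4, ev5⟩ := hq5 P.q p5
  have hG := Pair.good P hFG
  have hq4 := P.q_geL
  have hq0 : (0 : ℝ) < P.q := by linarith
  have hq1 : (1 : ℝ) ≤ P.q := by linarith
  have hlq : 0 < Real.log P.q := Real.log_pos (by linarith)
  -- the weight
  set lam : ℝ := P.lam c n with hlam
  have hlam0 : 0 < lam := P.lam_posL c n
  set τ' : ℝ := lam / (P.q : ℝ) ^ 203 with hτ'
  have hτ'0 : 0 < τ' := by positivity
  obtain ⟨w1, w2, w3, w4, w5⟩ := cutT_basic P K hG hτ'0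
  set w : V2 → ℝ := P.hT G K τ' with hw
  have hwlo : ∀ x, lam / (P.q : ℝ) ^ 202 ≤ P.St G x → 1 / 2 ≤ w x := by
    intro x hx
    have h1 := (hcutT P G hG τ' hτ'0 x).1
    have h2 : P.clamp τ' (P.St G x) = 1 := by
      have h3 : (P.q : ℝ) ≤ P.St G x / τ' := by
        rw [le_div_iff₀ hτ'0]
        refine le_trans (le_of_eq ?_) hx
        rw [hτ']
        field_simp
      have h4 : 1 ≤ Real.log (P.St G x / τ') / Real.log P.q := by
        rw [le_div_iff₀ hlq, one_mul]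
        exact Real.log_le_log hq0 h3
      unfold clamp
      rw [min_eq_left h4, max_eq_right zero_le_one]
    rw [h2, div_eq_mul_inv] at h1
    have h5 := (abs_le.mp (h1.trans ev2)).1
    linarith
  -- part (a)
  have hA := P.lower_A hC1 hCn hG (fun κ hκ x => hK1 P hPH hPy G hG κ hκ x)
    (fun f hf hf0 hfi hfs lo hi hlo hle =>
      hnt P hPH hPy hPk p1 G hG f hf hf0 hfi hfs lo hi hlo hle) w1.measurable w2 w3
    (lo := lam / (P.q : ℝ) ^ 202) (hi := lam) (by positivity)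
    (div_le_self hlam0.le (one_le_pow₀ hq1)) hwlo ev1
  have hAe : Cn / P.q * C1 + (P.q : ℝ) ^ 100 * √(lam / (P.q : ℝ) ^ 202 / lam) * √C1 ≤
      e1 P.q := by
    have h1 : (P.q : ℝ) ^ 100 * √(lam / (P.q : ℝ) ^ 202 / lam) ≤ 1 / P.q :=
      pow_sqrt_leL hq1 (c := 202) le_rfl (le_of_eq (by field_simp))
    have h2 := mul_le_mul_of_nonneg_right h1 (Real.sqrt_nonneg C1)
    simp only [he1]
    linarith
  -- part (b)
  set U : Set V2 := {x | P.lam c (n + 1) ≤ P.St G x} with hU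
  have hUm : MeasurableSet U := measurableSet_le measurable_const (P.St_contL hG).measurable
  have hUc : Uᶜ = {x | P.St G x < P.lam c (n + 1)} := by
    ext x
    simp [hU]
  have hlam1 : P.lam c (n + 1) = lam / (P.q : ℝ) ^ c := P.lam_succL c n
  have hνle := hnt' P hPH hPy hPk p2 G hG w w1.measurable w2 w3 (P.lam c (n + 1))
    (lam / (P.q : ℝ) ^ 206) (P.lam_posL c (n + 1)) (by
      rw [hlam1]
      exact div_le_div_of_nonneg_left hlam0.le (by positivity)
        (pow_le_pow_right₀ hq1 (by omega))) (by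
      intro x hx
      refine ((hcutT P G hG τ' hτ'0 x).2).trans ?_
      have h1 : P.St G x / τ' ≤ 1 / (P.q : ℝ) ^ 3 := by
        rw [div_le_iff₀ hτ'0]
        refine hx.le.trans (le_of_eq ?_)
        rw [hτ']
        field_simp
      have h2 : √(P.St G x / τ') ≤ √(1 / (P.q : ℝ) ^ 3) := Real.sqrt_le_sqrt h1
      refine (mul_le_mul_of_nonneg_left h2 hCT.le).trans ?_
      refine le_of_sq_le_sq ?_ (by positivity)
      rw [mul_pow, Real.sq_sqrt (by positivity)]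
      rw [div_pow, one_pow, mul_one_div, div_le_div_iff₀ (by positivity) (by positivity)]
      have h3 := mul_le_mul_of_nonneg_right ev3 (pow_pos hq0 2).le
      linarith)
  have hνν : Cm / P.q + (P.q : ℝ) ^ 100 * √(P.lam c (n + 1) / (lam / (P.q : ℝ) ^ 206)) ≤
      ν P.q := by
    have h1 : (P.q : ℝ) ^ 100 * √(P.lam c (n + 1) / (lam / (P.q : ℝ) ^ 206)) ≤ 1 / P.q := by
      refine pow_sqrt_leL hq1 (c := c - 206) (by omega) (le_of_eq ?_)
      rw [hlam1]
      have h2 : (P.q : ℝ) ^ c = (P.q : ℝ) ^ (c - 206) * (P.q : ℝ) ^ 206 := by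
        rw [← pow_add]
        congr 1
        omega
      rw [h2]
      field_simp
    simp only [hν]
    rw [add_div]
    linarith
  rw [← hUc] at hνle
  have hB := P.lower_B (τ := P.lam c (n + 2)) hθ ha0 ha1 (half_pos hθ).le
    (one_le_pow₀ (n := 10) hq1) hG K (P.lam_posL c (n + 2)) w1 w2 w3 w5 hE hUm hEθ (by
      intro κ hκ x hx
      refine pav_slow P.y0_posL _ (measurableSet_le ((cut_basic P K hG
        (P.lam_posL c (n + 2)) (i := 1) (j := κ / P.b) P.hk).1).measurable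
          measurable_const).compl (s := s0) (fun t ht => ?_) (by rw [hPy]; exact hslow)
      by_contra hcon
      have h1 := hh1 P G hG (P.lam c (n + 2)) (P.lam_posL c (n + 2)) κ hκ x t
      have h2 : 1 / 2 < P.h G K (P.lam c (n + 2)) 1 (κ / P.b)
          (x - t • dir (P.cen 0 κ)) := not_le.mp ht
      have h3 := (abs_le.mp h1).2
      have h4 : (Ch + Ch * Real.log (1 + t ^ 2)) / Real.log P.q ≤ 1 / 4 := by
        refine le_trans ?_ ev4
        rw [div_eq_mul_inv]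
        refine mul_le_mul_of_nonneg_right ?_ (inv_nonneg.mpr hlq.le)
        have h5 : Real.log (1 + t ^ 2) ≤ Real.log s0 :=
          Real.log_le_log (by positivity) (not_lt.mp hcon)
        have := mul_le_mul_of_nonneg_left h5 hCh.le
        linarith
      linarith) (hνle.trans hνν)
  obtain ⟨B1, B2, B3, B4, B5⟩ := hB
  have hEU : MeasurableSet (E ∩ U) := hE.inter hUm
  set m₀ : ℝ := ∫ x in E ∩ U, P.m0 G K G (P.lam c (n + 2)) x with hm₀
  set mₛ : ℝ := ∫ x in E ∩ U, P.mS G K (P.lam c (n + 2)) x with hmₛ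
  have hm₀0 : 0 ≤ m₀ := integral_nonneg B3
  have hmₛ0 : 0 ≤ mₛ := integral_nonneg B4
  set Pp : ℝ := ∑ κ ∈ Finset.range (P.M 0), ∫ x, w x * ‖P.T0 (P.piece G 0 κ) κ x‖ ^ 2 with hPp
  have hGn : P.Gm G c n ≤ C1 * (2 * Pp + e1 P.q) := by
    refine le_trans hA (mul_le_mul_of_nonneg_left ?_ hC1.le)
    linarith
  have hmain : c₀ * P.Gm G c n ≤ m₀ + mₛ + c₀ * (2 * C1 * Er P.q + C1 * e1 P.q) := by
    have hGm' : ∫ x in U, P.D1 G x ≤ 4 * P.Gm G c n := hGm
    have h1 : -Real.log a * (θ - θ / 2) = 8 * C1 := by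
      rw [hla, hℓ]
      field_simp
      norm_num
    rw [h1, hla, Real.log_pow] at B5
    have hs1 : ℓ * (4 / θ) * m₀ ≤ Cs * m₀ :=
      mul_le_mul_of_nonneg_right (le_max_left _ _) hm₀0
    have hs2 : 2 / a * mₛ ≤ Cs * mₛ := mul_le_mul_of_nonneg_right (le_max_right _ _) hmₛ0
    have hP : Pp ≤ Cs * (m₀ + mₛ) + Er P.q := by
      simp only [hEr]
      push_cast at B5
      linarith
    have h2 : P.Gm G c n ≤ 2 * C1 * Cs * (m₀ + mₛ) + (2 * C1 * Er P.q + C1 * e1 P.q) := by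
      have h3 := mul_le_mul_of_nonneg_left hP (by positivity : (0 : ℝ) ≤ 2 * C1)
      linarith
    have h4 := mul_le_mul_of_nonneg_left h2 hc₀0.le
    have h5 : c₀ * (2 * C1 * Cs * (m₀ + mₛ)) = m₀ + mₛ := by
      rw [hc₀]
      field_simp
    linarith
  -- the cross terms
  obtain ⟨X1, -⟩ := X_int P K hG (P.lam_posL c (n + 2))
  obtain ⟨X2, X3⟩ := hX P hPH hPy hPk p4 G hG (P.lam c (n + 2)) (P.lam_posL c (n + 2))
  obtain ⟨D1, D2⟩ := hdiag P hPH hPy hPk p3 F G hFG (P.lam c (n + 2)) (P.lam_posL c (n + 2))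
  set X : V2 → ℝ := fun x => P.XS G K (P.lam c (n + 2)) x + P.XA G K (P.lam c (n + 2)) x with hXd
  set D : V2 → ℝ := fun x => P.mm G K F (P.lam c (n + 2)) x - P.m0 G K G (P.lam c (n + 2)) x -
    P.mS G K (P.lam c (n + 2)) x - P.XS G K (P.lam c (n + 2)) x -
    P.XA G K (P.lam c (n + 2)) x with hDd
  have hsum : ∫ x in E ∩ U, P.mm G K F (P.lam c (n + 2)) x =
      (∫ x in E ∩ U, D x) + m₀ + mₛ + ∫ x in E ∩ U, X x := by
    rw [hm₀, hmₛ, ← integral_add4 D1.integrableOn B1.integrableOn B2.integrableOn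
      X1.integrableOn]
    refine integral_congr_ae (Eventually.of_forall fun x => ?_)
    simp only [hXd, hDd]
    ring
  have hDle : |∫ x in E ∩ U, D x| ≤ Cd * (Real.log P.q)⁻¹ := by
    rw [← div_eq_mul_inv]
    refine (abs_integral_le_integral_abs).trans (le_trans ?_ D2)
    exact setIntegral_le_integral D1.abs (Eventually.of_forall fun x => abs_nonneg _)
  have hXle : |∫ x in E ∩ U, X x| ≤ (P.q : ℝ)⁻¹ := by
    obtain ⟨v1, v2⟩ := P.St_volumeL hG (P.lam_posL c (n + 1))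
    have v3 : volume (E ∩ U) ≠ ∞ := ne_top_of_le_ne_top v1 (measure_mono Set.inter_subset_right)
    have v4 : volume.real (E ∩ U) ≤ (P.lam c (n + 1))⁻¹ :=
      (measureReal_mono Set.inter_subset_right v1).trans v2
    have h1 : (∫ x in E ∩ U, X x) ^ 2 ≤ volume.real (E ∩ U) * ∫ x, X x ^ 2 :=
      sq_setIntegral_le v3 X1 X2
    have h2 : volume.real (E ∩ U) * ∫ x, X x ^ 2 ≤ ((P.q : ℝ)⁻¹) ^ 2 := by
      have h3 : 0 ≤ ∫ x, X x ^ 2 := integral_nonneg fun x => sq_nonneg _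
      have h4 : volume.real (E ∩ U) * ∫ x, X x ^ 2 ≤ (P.lam c (n + 1))⁻¹ *
          ((P.q : ℝ) ^ 100 * P.lam c (n + 2)) :=
        mul_le_mul v4 X3 h3 (inv_nonneg.mpr (P.lam_posL c (n + 1)).le)
      have h5 : P.lam c (n + 2) = P.lam c (n + 1) / (P.q : ℝ) ^ c := by
        have := P.lam_succL c (n + 1)
        rwa [add_assoc] at this
      refine h4.trans ?_
      have h6 := P.lam_posL c (n + 1)
      rw [h5, inv_pow]
      have h7 : (P.lam c (n + 1))⁻¹ * ((P.q : ℝ) ^ 100 * (P.lam c (n + 1) / (P.q : ℝ) ^ c)) =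
          (P.q : ℝ) ^ 100 / (P.q : ℝ) ^ c := by
        field_simp
      rw [h7, div_le_iff₀ (by positivity), inv_mul_eq_div, le_div_iff₀ (by positivity), ← pow_add]
      exact pow_le_pow_right₀ hq1 (by omega)
    exact abs_le_of_sq_le_sq (h1.trans h2) (by positivity)
  rw [hsum]
  have h1 := (abs_le.mp hDle).1
  have h2 := (abs_le.mp hXle).1
  linarith

end Par

end REPS
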