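import Pool.Agent.REPS.MassF

open MeasureTheory Filter Topology Real Metric FourierTransform
open scoped ENNReal NNReal InnerProductSpace

namespace REPS
namespace Mass

open Helper77.TA

section levels

variable {P : Par} {G : V2 → ℂ} {τ : ℝ}

theorem Gm_nonneg (P : Par) (G : V2 → ℂ) (c : ℕ) (j : ℤ) : 0 ≤ P.Gm G c j :=
  integral_nonneg fun x => D1_nonneg G x

theorem St_le_top (hG : P.Good G) {c : ℕ} (hc : 1 ≤ c) (x : V2) :
    P.St G x ≤ P.lam c (-(8 * P.k : ℤ)) := by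
  have hq := q_real_ge P
  have hq0 := q_real_pos P
  have h1 := St_sup hG x
  have h2 : P.lam c (-(8 * P.k : ℤ)) = (P.q : ℝ) ^ (c * (8 * P.k)) := by
    unfold Par.lam
    rw [neg_neg, pow_mul]
    have : ((8 * P.k : ℤ)) = ((8 * P.k : ℕ) : ℤ) := by push_cast; rfl
    rw [this, zpow_natCast]
  rw [h2]
  refine h1.trans ?_
  rw [A_sq, div_le_iff₀ (by positivity)]
  have h3 := P.hR'
  have h4 : (2 : ℝ) ≤ (P.q : ℝ) ^ 16 := by
    have : (P.q : ℝ) ^ 1 ≤ (P.q : ℝ) ^ 16 := pow_le_pow_right₀ (by linarith) (by norm_num)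
    linarith
  have h5 : (P.q : ℝ) ^ (4 * P.k) ≤ (P.q : ℝ) ^ (c * (8 * P.k)) :=
    pow_le_pow_right₀ (by linarith) (by nlinarith [P.hk])
  calc √P.R ≤ 2 * (P.q : ℝ) ^ (4 * P.k) := h3
    _ ≤ (P.q : ℝ) ^ 16 * (P.q : ℝ) ^ (c * (8 * P.k)) := by gcongr
    _ = _ := mul_comm _ _

theorem Gm_step (hG : P.Good G) {c : ℕ} (hc : 2000 ≤ c) (j : ℤ) :
    ∫ x in {x | P.lam c j * ((P.q : ℝ) ^ 407)⁻¹ ≤ P.St G x}, P.D1 G x ≤ P.Gm G c (j + 1) := by
  unfold Par.Gm
  refine setIntegral_mono_set (D1_int hG).integrableOn (ae_of_all _ fun x => D1_nonneg G x)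
    (ae_of_all _ fun x hx => ?_)
  have hq := q_real_ge P
  have hq0 := q_real_pos P
  have h1 := lam_succ P c j
  have h2 : P.lam c (j + 1) ≤ P.lam c j * ((P.q : ℝ) ^ 407)⁻¹ := by
    rw [← h1, mul_assoc]
    have h3 : (1 : ℝ) ≤ (P.q : ℝ) ^ c * ((P.q : ℝ) ^ 407)⁻¹ := by
      rw [← div_eq_mul_inv, one_le_div₀ (by positivity)]
      exact pow_le_pow_right₀ (by linarith) (by omega)
    have h4 := lam_pos P c (j + 1)
    nlinarith
  exact h2.trans hx

theorem a_ind (K : Ker) (hG : P.Good G) (hτ : 0 < τ) (s : ℝ) :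
    Integrable (fun x => (P.m0 G K G τ x + P.mS G K τ x) * ind P G s x) ∧
    ∫ x, (P.m0 G K G τ x + P.mS G K τ x) * ind P G s x ≤
      (∑ κ ∈ Finset.range (P.M 0), ∫ x, ‖P.T0 G κ x‖ ^ 2 *
        pav P.y0 (dir (P.cen 0 κ)) (ind P G s) x) +
      ∫ x in {x | s ≤ P.St G x}, P.D1 G x := by
  have hi0 := m0_int K hG hτ hG.int hG.lp (good_ann hG)
  have hiS := mS_int K hG hτ
  have j0 : Integrable fun x => P.m0 G K G τ x * ind P G s x :=
    mul_bd_int hi0 (ind_meas hG s) (ind_abs P G s)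
  have jS : Integrable fun x => P.mS G K τ x * ind P G s x :=
    mul_bd_int hiS (ind_meas hG s) (ind_abs P G s)
  have jD : Integrable fun x => P.D1 G x * ind P G s x :=
    mul_bd_int (D1_int hG) (ind_meas hG s) (ind_abs P G s)
  have e : (fun x => (P.m0 G K G τ x + P.mS G K τ x) * ind P G s x) = fun x =>
      P.m0 G K G τ x * ind P G s x + P.mS G K τ x * ind P G s x := by
    funext x
    ring
  rw [e]
  refine ⟨j0.add jS, ?_⟩
  rw [integral_add j0 jS]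
  refine add_le_add ?_ ?_
  · have hi := fun κ => hT0_int K hG hτ hG.int hG.lp (good_ann hG) κ
    have e1 : (fun x => P.m0 G K G τ x * ind P G s x) = fun x =>
        ∑ κ ∈ Finset.range (P.M 0), pav P.y0 (dir (P.cen 0 κ))
          (fun z => P.h G K τ 1 (κ / P.b) z * ‖P.T0 G κ z‖ ^ 2) x * ind P G s x := by
      funext x
      rw [m0_eq, ← Finset.sum_mul]
    rw [e1, integral_finsetSum _ fun κ _ => mul_bd_int (pav_int (y0_pos P) _ (hi κ))
      (ind_meas hG s) (ind_abs P G s)]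
    refine Finset.sum_le_sum fun κ _ => ?_
    rw [adj (y0_pos P) _ (hi κ) (ind_meas hG s) (ind_abs P G s)]
    have hpm := pav_meas P.y0 (dir (P.cen 0 κ)) (ind_meas hG s)
    have hpn := pav_nonneg (y0_pos P) (dir (P.cen 0 κ)) (ind_nonneg P G s)
    have hpl := pav_le (y0_pos P) (dir (P.cen 0 κ)) (ind_meas hG s) (ind_nonneg P G s)
      (ind_le P G s)
    have hpa : ∀ x, |pav P.y0 (dir (P.cen 0 κ)) (ind P G s) x| ≤ 1 := fun x => by
      rw [abs_of_nonneg (hpn x)]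
      exact hpl x
    refine integral_mono (mul_bd_int (hi κ) hpm hpa) (mul_bd_int (T0_int hG κ) hpm hpa) fun x => ?_
    refine mul_le_mul_of_nonneg_right ?_ (hpn x)
    have h1 := h_le K hG hτ P.hk (κ / P.b) x
    have h2 : 0 ≤ ‖P.T0 G κ x‖ ^ 2 := by positivity
    nlinarith
  · rw [← int_mul_ind hG s]
    exact integral_mono jS jD fun x =>
      mul_le_mul_of_nonneg_right (mS_le K hG hτ x) (ind_nonneg P G s x)

/-- The pointwise bound behind `mass_upper`. -/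
theorem pt_bound (K : Ker) {F : V2 → ℂ} (hG : P.Good G) {c : ℕ} (hc : 1 ≤ c) {n : ℤ}
    (hn : -(8 * P.k : ℤ) ≤ n + 2) {Cm : ℝ} (hCm : 0 < Cm) (x : V2)
    (hm : P.m0 G K G (P.lam c (n + 2)) x + P.mS G K (P.lam c (n + 2)) x ≤
      Cm * (P.q : ℝ) ^ 20 * P.St G x + tl P G K (P.lam c (n + 2)) x) :
    P.mm G K F (P.lam c (n + 2)) x * Real.log (max 1 (P.NN G K (P.lam c (n + 2)) x)) ≤
      6 * Real.log P.q * P.mm G K F (P.lam c (n + 2)) x +
      (4 * P.k + 4) * Real.log P.q * |rr P G K F (P.lam c (n + 2)) x| +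
      112 * Real.log P.q * |XX P G K (P.lam c (n + 2)) x| +
      (4 * P.k + 4) * Real.log P.q * (((P.q : ℝ) ^ 101)⁻¹ * (P.lam c (n + 2))⁻¹) *
        XX P G K (P.lam c (n + 2)) x ^ 2 +
      ((4 * P.k + 4) * Real.log P.q + Cm) * (((P.q : ℝ) ^ 10)⁻¹ * P.lam c (n + 2)) *
        Wp P G K (P.lam c (n + 2)) x +
      (4 * P.k + 4) * Real.log P.q * tl P G K (P.lam c (n + 2)) x +
      (1 + 30 * Real.log P.q) * (P.m0 G K G (P.lam c (n + 2)) x + P.mS G K (P.lam c (n + 2)) x) +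
      c * Real.log P.q * ∑ j ∈ Finset.Icc (-(8 * P.k : ℤ)) (n + 2),
        (P.m0 G K G (P.lam c (n + 2)) x + P.mS G K (P.lam c (n + 2)) x) *
          ind P G (P.lam c j) x := by
  have hτ := lam_pos P c (n + 2)
  have hlay := layer P c (St_le_top hG hc x) (n + 2) hn
  have hind : ∀ j : ℤ, (if P.lam c j ≤ P.St G x then 1 else 0 : ℝ) = ind P G (P.lam c j) x := by
    intro j
    unfold ind
    by_cases hj : P.lam c j ≤ P.St G x
    · rw [if_pos hj, Set.indicator_of_mem (show x ∈ {x | P.lam c j ≤ P.St G x} from hj),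
        Pi.one_apply]
    · rw [if_neg hj, Set.indicator_of_notMem (show x ∉ {x | P.lam c j ≤ P.St G x} from hj)]
  rw [Finset.sum_congr rfl fun j _ => hind j] at hlay
  rw [← Finset.mul_sum]
  set τ := P.lam c (n + 2) with hτdef
  have hq := q_real_ge P
  have hlog1 := log_q_ge P
  have hdec := mm_dec P G K F τ x
  have hmm0 := mm_nonneg K hG hτ F x
  have hNN := log_NN_le K hG hτ x
  have hℓ0 := ell_nonneg K hG hτ x
  have hℓL := ell_le K hG hτ x
  have hW0 := Wp_nonneg K hG hτ x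
  have ht0 := tl_nonneg K hG hτ x
  have hS0 := St_nonneg hG x
  have ha0 : 0 ≤ P.m0 G K G τ x + P.mS G K τ x :=
    add_nonneg (m0_nonneg K hG hτ G x) (mS_nonneg K hG hτ x)
  have hX := X_pt (X := XX P G K τ x) hq hτ hW0 rfl hℓL
  have hJ0 : 0 ≤ ∑ j ∈ Finset.Icc (-(8 * P.k : ℤ)) (n + 2), ind P G (P.lam c j) x :=
    Finset.sum_nonneg fun j _ => ind_nonneg P G _ x
  generalize (∑ j ∈ Finset.Icc (-(8 * P.k : ℤ)) (n + 2), ind P G (P.lam c j) x) = J at hlay hJ0 ⊢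
  generalize P.mm G K F τ x = mm at hdec hmm0 ⊢
  generalize P.m0 G K G τ x + P.mS G K τ x = a at hm hdec ha0 ⊢
  generalize rr P G K F τ x = r at hdec ⊢
  generalize XX P G K τ x = X at hdec hX ⊢
  generalize tl P G K τ x = t at hm ht0 ⊢
  generalize P.St G x = S at hm hlay hS0
  generalize Real.log (max 1 (P.NN G K τ x)) = LN at hNN ⊢
  generalize Wp P G K τ x = w at *
  obtain ⟨L, hL⟩ : ∃ L : ℝ, L = (4 * P.k + 4) * Real.log P.q := ⟨_, rfl⟩
  rw [← hL] at hℓL hX ⊢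
  have hL0 : 0 ≤ L := hℓ0.trans hℓL
  generalize hlq : Real.log P.q = lq at *
  generalize hqq : (P.q : ℝ) = q at *
  have hq0 : 0 < q := by linarith
  -- the main term
  have hM0 : 0 ≤ min a (Cm * q ^ 20 * S) := le_min ha0 (by positivity)
  have hpt := M1_pt hq hτ hS0 hW0 hM0 hCm (min_le_right a (Cm * q ^ 20 * S))
  rw [hlq] at hpt
  have hMa : min a (Cm * q ^ 20 * S) ≤ a := min_le_left _ _
  have haM : a ≤ min a (Cm * q ^ 20 * S) + t := by
    rcases min_choice a (Cm * q ^ 20 * S) with h | h <;> rw [h] <;> linarith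
  generalize min a (Cm * q ^ 20 * S) = M at hM0 hpt hMa haM
  generalize hℓ : Real.log (1 + w) = ℓ at *
  have hlm0 : 0 ≤ Real.log (max 1 (S / τ)) := Real.log_nonneg (le_max_left _ _)
  generalize Real.log (max 1 (S / τ)) = lm at *
  have g1 : mm * LN ≤ mm * (6 * lq + ℓ) := mul_le_mul_of_nonneg_left hNN hmm0
  have g2 : r * ℓ ≤ L * |r| := by
    calc r * ℓ ≤ |r| * ℓ := mul_le_mul_of_nonneg_right (le_abs_self r) hℓ0
      _ ≤ |r| * L := mul_le_mul_of_nonneg_left hℓL (abs_nonneg r)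
      _ = L * |r| := mul_comm _ _
  have g3 : X * ℓ ≤ |X| * ℓ := mul_le_mul_of_nonneg_right (le_abs_self X) hℓ0
  have g4 : a * ℓ ≤ M * ℓ + t * L := by
    have h1 : a * ℓ ≤ (M + t) * ℓ := mul_le_mul_of_nonneg_right haM hℓ0
    have h2 : t * ℓ ≤ t * L := mul_le_mul_of_nonneg_left hℓL ht0
    nlinarith
  have g5 : M * (1 + lm) ≤ a * (1 + lm) := mul_le_mul_of_nonneg_right hMa (by linarith)
  have g6 : 30 * lq * M ≤ 30 * lq * a := mul_le_mul_of_nonneg_left hMa (by linarith)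
  have g7 : a * lm ≤ a * (c * lq * J) := mul_le_mul_of_nonneg_left hlay ha0
  have e1 : mm * (6 * lq + ℓ) = 6 * lq * mm + r * ℓ + a * ℓ + X * ℓ := by
    rw [hdec]
    ring
  have e2 : L * ((q ^ 101)⁻¹ * τ⁻¹ * X ^ 2 + (q ^ 10)⁻¹ * τ * w) =
      L * ((q ^ 101)⁻¹ * τ⁻¹) * X ^ 2 + L * ((q ^ 10)⁻¹ * τ) * w := by ring
  have e3 : (L + Cm) * ((q ^ 10)⁻¹ * τ) * w = L * ((q ^ 10)⁻¹ * τ) * w +
      Cm * (q ^ 10)⁻¹ * τ * w := by ring
  have e4 : a * (1 + lm) = a + a * lm := by ring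
  have e5 : (1 + 30 * lq) * a = a + 30 * lq * a := by ring
  have e6 : a * (c * lq * J) = c * lq * (a * J) := by ring
  have e7 : t * L = L * t := mul_comm _ _
  linarith

end levels

theorem sum_shift (f : ℤ → ℝ) (hf : ∀ j, 0 ≤ f j) (a b : ℤ) :
    ∑ j ∈ Finset.Icc a b, f (j + 1) ≤ ∑ j ∈ Finset.Icc a (b + 1), f j := by
  have e : ∑ j ∈ Finset.Icc a b, f (j + 1) = ∑ j ∈ Finset.Icc (a + 1) (b + 1), f j := by
    rw [← Finset.sum_image (s := Finset.Icc a b) (g := fun j => j + 1) (f := f)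
      (fun x _ y _ h => by simpa using h)]
    congr 1
    ext j
    simp only [Finset.mem_image, Finset.mem_Icc]
    constructor
    · rintro ⟨i, ⟨h1, h2⟩, rfl⟩
      omega
    · intro h
      exact ⟨j - 1, by omega, by omega⟩
  rw [e]
  exact Finset.sum_le_sum_of_subset_of_nonneg
    (Finset.Icc_subset_Icc (by omega) le_rfl) fun j _ _ => hf j

theorem fin_arith {lq q Cp Cm Cl Ck CT y k c ε SG : ℝ} (hlq : 1 ≤ lq) (hq : 4 ≤ q)
    (hCp : 0 < Cp) (hCm : 0 < Cm) (hCl : 0 < Cl) (hCT : 0 < CT) (hy : 0 < y) (hk : 0 ≤ k)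
    (hc : 0 ≤ c) (hε : 0 < ε) (hSG : 0 ≤ SG) (h1 : 2 * ((4 * k + 4) * Ck) / ε ≤ lq)
    (h2 : 2 * ((4 * k + 4) * (2 + 2 * y * CT) + Cm + c * (16 * k + 3) * Cl) / ε ≤ q) :
    6 * lq * Cp + (4 * k + 4) * Ck + 112 * lq * Cp + (4 * k + 4) * lq * q⁻¹ +
      ((4 * k + 4) * lq + Cm) * q⁻¹ + (4 * k + 4) * lq * (2 * y / q * CT) +
      (1 + 30 * lq) * Cp + c * lq * ((16 * k + 3) * (Cl / q) + (1 + Cl) * SG) ≤
    lq * (149 * Cp + (1 + Cl) + (149 * Cp + (1 + Cl)) * c * SG + ε) := by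
  have hq0 : 0 < q := by linarith
  have hlq0 : 0 < lq := by linarith
  rw [div_le_iff₀ hε] at h1 h2
  obtain ⟨T, hT⟩ : ∃ T : ℝ, T = (4 * k + 4) * (2 + 2 * y * CT) + Cm + c * (16 * k + 3) * Cl :=
    ⟨_, rfl⟩
  rw [← hT] at h2
  have h3 : T * q⁻¹ ≤ ε / 2 := by
    rw [← div_eq_mul_inv, div_le_iff₀ hq0]
    linarith
  have h4 := mul_le_mul_of_nonneg_left h3 hlq0.le
  have h5 : Cm * q⁻¹ ≤ lq * (Cm * q⁻¹) := by
    have : 0 ≤ Cm * q⁻¹ := by positivity
    nlinarith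
  have e1 : (4 * k + 4) * lq * q⁻¹ + ((4 * k + 4) * lq + Cm) * q⁻¹ +
      (4 * k + 4) * lq * (2 * y / q * CT) + c * lq * ((16 * k + 3) * (Cl / q)) =
      lq * (T * q⁻¹) - lq * (Cm * q⁻¹) + Cm * q⁻¹ := by
    rw [hT]
    field_simp
    ring
  have h6 : (4 * k + 4) * Ck ≤ lq * (ε / 2) := by linarith
  have h7 : Cp ≤ lq * Cp := by nlinarith
  have h8 : 0 ≤ lq * (149 * Cp * c * SG) := by positivity
  have h9 : 0 ≤ lq * (1 + Cl) := by positivity
  have e2 : lq * (149 * Cp + (1 + Cl) + (149 * Cp + (1 + Cl)) * c * SG + ε) =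
      149 * (lq * Cp) + lq * (1 + Cl) + lq * (149 * Cp * c * SG) +
      c * lq * ((1 + Cl) * SG) + lq * (ε / 2) + lq * (ε / 2) := by ring
  have e3 : c * lq * ((16 * k + 3) * (Cl / q) + (1 + Cl) * SG) =
      c * lq * ((16 * k + 3) * (Cl / q)) + c * lq * ((1 + Cl) * SG) := by ring
  have e4 : 6 * lq * Cp = 6 * (lq * Cp) := by ring
  have e5 : 112 * lq * Cp = 112 * (lq * Cp) := by ring
  have e6 : (1 + 30 * lq) * Cp = Cp + 30 * (lq * Cp) := by ring
  rw [e2, e3, e4, e5, e6]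
  linarith

end Mass

namespace Par

open Mass

theorem mass_upper (H y0 : ℝ) (K : Ker) : ∃ C : ℝ, 0 < C ∧ ∀ (k c : ℕ), 2000 ≤ c → ∀ ε : ℝ,
    0 < ε → ∃ q0 : ℕ, ∀ P : Par, P.H = H → P.y0 = y0 → P.k = k → q0 ≤ P.q → ∀ F G, P.Pair F G →
    ∀ n : ℤ, -(8 * k : ℤ) ≤ n → n ≤ 8 * k → ∫ x, P.mm G K F (P.lam c (n + 2)) x *
        Real.log (max 1 (P.NN G K (P.lam c (n + 2)) x)) ≤
      Real.log P.q * (C + C * c * ∑ j ∈ Finset.Icc (-(8 * k : ℤ)) (n + 3), P.Gm G c j + ε) := by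
  obtain ⟨Cp, hCp, hparts⟩ := parts H y0 K
  obtain ⟨Cm, hCm, hm0⟩ := m0_pt H y0 K
  obtain ⟨Cl, hCl, hml⟩ := ml H y0 K
  obtain ⟨CT, hCT, hTt⟩ := T0_total H y0
  refine ⟨149 * Cp + (1 + Cl), by positivity, fun k c hc ε hε => ?_⟩
  obtain ⟨Ck, qa, hCk, hpk⟩ := hparts k
  obtain ⟨qb, hmlk⟩ := hml k
  obtain ⟨qc, hXs⟩ := X_sq H y0 K k
  -- the small terms
  set Q1 : ℝ := 2 * ((4 * k + 4) * Ck) / ε with hQ1
  set Q2 : ℝ := 2 * ((4 * k + 4) * (2 + 2 * |y0| * CT) + Cm + c * (16 * k + 3) * Cl) / ε with hQ2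
  obtain ⟨qd, hqd⟩ := log_large Q1
  obtain ⟨qe, hqe⟩ := exists_nat_ge Q2
  refine ⟨max qa (max qb (max qc (max qd qe))), fun P hH hy hk hq F G hP n hn1 hn2 => ?_⟩
  subst hk
  have hqa : qa ≤ P.q := (le_max_left _ _).trans hq
  have hq := (le_max_right _ _).trans hq
  have hqb : qb ≤ P.q := (le_max_left _ _).trans hq
  have hq := (le_max_right _ _).trans hq
  have hqc : qc ≤ P.q := (le_max_left _ _).trans hq
  have hq := (le_max_right _ _).trans hq
  have hqd' : qd ≤ P.q := (le_max_left _ _).trans hq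
  have hqe' : qe ≤ P.q := (le_max_right _ _).trans hq
  have hG := Pair.good P hP
  have hτ := lam_pos P c (n + 2)
  obtain ⟨i_r, b_r, b_mm, i_X, b_X, b_a⟩ := hpk P hH hy rfl hqa F G hP _ hτ
  obtain ⟨i_X2, b_X2⟩ := hXs P hH hy rfl hqc G hG _ hτ
  have hlog1 := log_q_ge P
  have hq4 := q_real_ge P
  have hqp := q_real_pos P
  have i_mm := mm_int K hG hτ hP.int hP.lp hP.supp
  have i_a : Integrable fun x => P.m0 G K G (P.lam c (n + 2)) x + P.mS G K (P.lam c (n + 2)) x :=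
    (m0_int K hG hτ hG.int hG.lp (good_ann hG)).add (mS_int K hG hτ)
  have i_W := Wp_int K hG hτ
  have i_t := tl_int K hG hτ
  have b_W := Wp_total K hG hτ
  have b_t := (tl_total K hG hτ).trans (mul_le_mul_of_nonneg_left (hTt P hH hy G hG)
    (by have := y0_pos P; positivity : 0 ≤ 2 * P.y0 / P.q))
  have h_j := fun j : ℤ => a_ind K hG hτ (P.lam c j)
  -- bound of the terms of the layer cake
  have b_j : ∀ j : ℤ, ∫ x, (P.m0 G K G (P.lam c (n + 2)) x + P.mS G K (P.lam c (n + 2)) x) *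
      ind P G (P.lam c j) x ≤ Cl / P.q + Cl * P.Gm G c (j + 1) + P.Gm G c j := by
    intro j
    have h1 := (h_j j).2
    have h2 := hmlk P hH hy rfl hqb G hG (P.lam c j) (lam_pos P c j)
    have h3 := mul_le_mul_of_nonneg_left (Gm_step hG hc j) hCl.le
    have h4 : ∫ x in {x | P.lam c j ≤ P.St G x}, P.D1 G x = P.Gm G c j := rfl
    linarith
  have hpt := fun x => pt_bound K (F := F) hG (by omega : 1 ≤ c) (by omega) hCm x
    (hm0 P hH hy G hG (P.lam c (n + 2)) hτ x)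
  have hi_lq : 0 ≤ Real.log P.q := by linarith
  set τ := P.lam c (n + 2) with hτdef
  obtain ⟨L, hL⟩ : ∃ L : ℝ, L = (4 * P.k + 4) * Real.log P.q := ⟨_, rfl⟩
  have hL0 : 0 ≤ L := by rw [hL]; positivity
  simp only [← hL] at hpt
  have i1 : Integrable fun x => 6 * Real.log P.q * P.mm G K F τ x := i_mm.const_mul _
  have i2 : Integrable fun x => L * |rr P G K F τ x| := i_r.abs.const_mul _
  have i3 : Integrable fun x => 112 * Real.log P.q * |XX P G K τ x| := i_X.abs.const_mul _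
  have i4 : Integrable fun x => L * (((P.q : ℝ) ^ 101)⁻¹ * τ⁻¹) * XX P G K τ x ^ 2 :=
    i_X2.const_mul _
  have i5 : Integrable fun x => (L + Cm) * (((P.q : ℝ) ^ 10)⁻¹ * τ) * Wp P G K τ x :=
    i_W.const_mul _
  have i6 : Integrable fun x => L * tl P G K τ x := i_t.const_mul _
  have i7 : Integrable fun x => (1 + 30 * Real.log P.q) *
      (P.m0 G K G τ x + P.mS G K τ x) := i_a.const_mul _
  have i8 : Integrable fun x => c * Real.log P.q * ∑ j ∈ Finset.Icc (-(8 * P.k : ℤ)) (n + 2),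
      (P.m0 G K G τ x + P.mS G K τ x) * ind P G (P.lam c j) x :=
    (integrable_finsetSum _ fun j _ => (h_j j).1).const_mul _
  have i12 := i1.add i2
  have i123 := i12.add i3
  have i1234 := i123.add i4
  have i12345 := i1234.add i5
  have i123456 := i12345.add i6
  have i1234567 := i123456.add i7
  have i12345678 := i1234567.add i8
  have hmain : ∫ x, P.mm G K F τ x * Real.log (max 1 (P.NN G K τ x)) ≤
      6 * Real.log P.q * (∫ x, P.mm G K F τ x) + L * (∫ x, |rr P G K F τ x|) +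
      112 * Real.log P.q * (∫ x, |XX P G K τ x|) +
      L * (((P.q : ℝ) ^ 101)⁻¹ * τ⁻¹) * (∫ x, XX P G K τ x ^ 2) +
      (L + Cm) * (((P.q : ℝ) ^ 10)⁻¹ * τ) * (∫ x, Wp P G K τ x) +
      L * (∫ x, tl P G K τ x) +
      (1 + 30 * Real.log P.q) * (∫ x, (P.m0 G K G τ x + P.mS G K τ x)) +
      c * Real.log P.q * ∑ j ∈ Finset.Icc (-(8 * P.k : ℤ)) (n + 2),
        ∫ x, (P.m0 G K G τ x + P.mS G K τ x) * ind P G (P.lam c j) x := by
    refine (integral_mono_of_nonneg (ae_of_all _ fun x => mul_nonneg (mm_nonneg K hG hτ F x)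
      (Real.log_nonneg (le_max_left _ _))) i12345678 (ae_of_all _ hpt)).trans (le_of_eq ?_)
    rw [integral_add' i1234567 i8, integral_add' i123456 i7, integral_add' i12345 i6,
      integral_add' i1234 i5, integral_add' i123 i4, integral_add' i12 i3, integral_add' i1 i2,
      integral_const_mul, integral_const_mul, integral_const_mul, integral_const_mul,
      integral_const_mul, integral_const_mul, integral_const_mul, integral_const_mul,
      integral_finsetSum _ fun j _ => (h_j j).1]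
  have hlq0 : 0 < Real.log P.q := by linarith
  have b4 : L * (((P.q : ℝ) ^ 101)⁻¹ * τ⁻¹) * (∫ x, XX P G K τ x ^ 2) ≤ L * (P.q : ℝ)⁻¹ := by
    have h1 : (((P.q : ℝ) ^ 101)⁻¹ * τ⁻¹) * (∫ x, XX P G K τ x ^ 2) ≤
        (((P.q : ℝ) ^ 101)⁻¹ * τ⁻¹) * ((P.q : ℝ) ^ 100 * τ) :=
      mul_le_mul_of_nonneg_left b_X2 (by positivity)
    have h2 : (((P.q : ℝ) ^ 101)⁻¹ * τ⁻¹) * ((P.q : ℝ) ^ 100 * τ) = (P.q : ℝ)⁻¹ := by
      field_simp
    rw [mul_assoc]
    exact mul_le_mul_of_nonneg_left (h1.trans h2.le) hL0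
  have b5 : (L + Cm) * (((P.q : ℝ) ^ 10)⁻¹ * τ) * (∫ x, Wp P G K τ x) ≤
      (L + Cm) * (P.q : ℝ)⁻¹ := by
    have h1 : (((P.q : ℝ) ^ 10)⁻¹ * τ) * (∫ x, Wp P G K τ x) ≤
        (((P.q : ℝ) ^ 10)⁻¹ * τ) * ((P.q : ℝ) ^ 9 * τ⁻¹) :=
      mul_le_mul_of_nonneg_left b_W (by positivity)
    have h2 : (((P.q : ℝ) ^ 10)⁻¹ * τ) * ((P.q : ℝ) ^ 9 * τ⁻¹) = (P.q : ℝ)⁻¹ := by
      field_simp
    rw [mul_assoc]
    exact mul_le_mul_of_nonneg_left (h1.trans h2.le) (by positivity)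
  have b2 : L * (∫ x, |rr P G K F τ x|) ≤ (4 * P.k + 4) * Ck := by
    have h1 := mul_le_mul_of_nonneg_left b_r hL0
    have h2 : L * (Ck / Real.log P.q) = (4 * P.k + 4) * Ck := by
      rw [hL]
      field_simp
    linarith
  have b6 : L * (∫ x, tl P G K τ x) ≤ L * (2 * P.y0 / P.q * CT) :=
    mul_le_mul_of_nonneg_left b_t hL0
  have b8 : ∑ j ∈ Finset.Icc (-(8 * P.k : ℤ)) (n + 2),
      ∫ x, (P.m0 G K G τ x + P.mS G K τ x) * ind P G (P.lam c j) x ≤
      (16 * P.k + 3) * (Cl / P.q) +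
        (1 + Cl) * ∑ j ∈ Finset.Icc (-(8 * P.k : ℤ)) (n + 3), P.Gm G c j := by
    refine (Finset.sum_le_sum fun j _ => b_j j).trans ?_
    rw [Finset.sum_add_distrib, Finset.sum_add_distrib, Finset.sum_const, nsmul_eq_mul,
      ← Finset.mul_sum]
    have h1 : ((Finset.Icc (-(8 * P.k : ℤ)) (n + 2)).card : ℝ) ≤ 16 * P.k + 3 := by
      rw [Int.card_Icc]
      have : (n + 2 + 1 - -(8 * P.k : ℤ)).toNat ≤ 16 * P.k + 3 := by omega
      exact_mod_cast this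
    have h2 := sum_shift (P.Gm G c) (Gm_nonneg P G c) (-(8 * P.k : ℤ)) (n + 2)
    have e3 : n + 2 + 1 = n + 3 := by ring
    rw [e3] at h2
    have h3 : ∑ j ∈ Finset.Icc (-(8 * P.k : ℤ)) (n + 2), P.Gm G c j ≤
        ∑ j ∈ Finset.Icc (-(8 * P.k : ℤ)) (n + 3), P.Gm G c j :=
      Finset.sum_le_sum_of_subset_of_nonneg (Finset.Icc_subset_Icc le_rfl (by omega))
        fun j _ _ => Gm_nonneg P G c j
    have h4 : ((Finset.Icc (-(8 * P.k : ℤ)) (n + 2)).card : ℝ) * (Cl / P.q) ≤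
        (16 * P.k + 3) * (Cl / P.q) := mul_le_mul_of_nonneg_right h1 (by positivity)
    have h5 := mul_le_mul_of_nonneg_left h2 hCl.le
    linarith
  have hSG0 : 0 ≤ ∑ j ∈ Finset.Icc (-(8 * P.k : ℤ)) (n + 3), P.Gm G c j :=
    Finset.sum_nonneg fun j _ => Gm_nonneg P G c j
  have b8' := mul_le_mul_of_nonneg_left b8 (by positivity : 0 ≤ c * Real.log P.q)
  have b1 := mul_le_mul_of_nonneg_left b_mm (by positivity : 0 ≤ 6 * Real.log P.q)
  have b3 := mul_le_mul_of_nonneg_left b_X (by positivity : 0 ≤ 112 * Real.log P.q)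
  have b7 := mul_le_mul_of_nonneg_left b_a (by positivity : 0 ≤ 1 + 30 * Real.log P.q)
  have hy0' : |y0| = P.y0 := by rw [← hy, abs_of_pos (y0_pos P)]
  have hlq := hqd P.q hqd'
  have hqq : Q2 ≤ P.q := hqe.trans (by exact_mod_cast hqe')
  rw [hQ2, hy0'] at hqq
  refine hmain.trans ((add_le_add (add_le_add (add_le_add (add_le_add (add_le_add (add_le_add
    (add_le_add b1 b2) b3) b4) b5) b6) b7) b8').trans ?_)
  rw [hL]
  exact fin_arith hlog1 hq4 hCp hCm hCl hCT (y0_pos P) (Nat.cast_nonneg _) (Nat.cast_nonneg _)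
    hε hSG0 hlq hqq

end Par
end REPS
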