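import Pool.Agent.REPS.EndC
import Pool.Agent.REPS.Mass
import Pool.Agent.REPS.Lower

open MeasureTheory Filter Topology Real Metric FourierTransform
open scoped ENNReal NNReal InnerProductSpace Pointwise

namespace REPS

open Helper77.TA

namespace Par

/-- The core: no function which is small on `E`. -/
theorem core (H y0 θ β C0 : ℝ) (hθ : 0 < θ) (hβ : 0 < β) : ∃ R0 : ℝ, ∀ R : ℝ, R0 ≤ R →
    ∀ E : Set V2, MeasurableSet E → (∀ φ : ℝ, ∀ x, θ ≤ pav y0 (dir φ) (E.indicator 1) x) →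
    1 ≤ H → 1 ≤ y0 → ∀ F : V2 → ℂ, Measurable F → Integrable F → MemLp F 2 →
    (∀ ξ, F ξ ≠ 0 → ξ ∈ ann R H) → ∫ x, ‖𝓕⁻ F x‖ ^ 2 = 1 → ∀ b0 : V2,
    Integrable (fun x => ‖x - b0‖ ^ 2 * ‖𝓕⁻ F x‖ ^ 2) →
    ∫ x, ‖x - b0‖ ^ 2 * ‖𝓕⁻ F x‖ ^ 2 ≤ C0 → C0 * R ^ (-β) < ∫ x in E, ‖𝓕⁻ F x‖ ^ 2 := by
  classical
  obtain ⟨p, Ψ, hp, hsupp, hΨ, hΨc, hΨ0, hΨ1, hΨ2⟩ := exists_kernel
  set K : Ker := ⟨p, Ψ, hp, hsupp, hΨ, hΨc, hΨ0, hΨ1, hΨ2⟩ with hK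
  obtain ⟨Cm, hCm, hmass⟩ := mass_upper H y0 K
  obtain ⟨c₀, hc₀, hlow⟩ := lower H y0 θ hθ K
  obtain ⟨Cb, hCb, hbasic⟩ := mm_basic H y0 K
  obtain ⟨Z, c, ε, hZ, hc, hε, hfin⟩ := exists_constsE Cm c₀ β hCm hc₀ hβ
  have hk1 : 1 ≤ c * Z := Nat.mul_pos (by omega) (by omega)
  obtain ⟨qm, hqm⟩ := hmass (c * Z) c hc ε hε
  obtain ⟨ql, hql⟩ := hlow (c * Z) c hc ε hε
  obtain ⟨qb, hqb⟩ := hbasic (c * Z)
  obtain ⟨qt, hqt⟩ := tail_mass K C0
  obtain ⟨qe, hqe⟩ := exists_nat_ge (Real.exp ((|C0| + 1) / ε))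
  obtain ⟨qH, hqH⟩ := exists_nat_ge (4 * H)
  obtain ⟨qy, hqy⟩ := exists_nat_ge y0
  obtain ⟨R0, hR01, hR0⟩ := exists_qE (c * Z) hk1
    (qm + ql + qb + qt + qe + qH + qy + 4 + 16 * (c * Z + 1))
  refine ⟨R0, ?_⟩
  intro R hR E hE hEθ hH hy0 F hFm hFi hF2 hFs hF1 b0 hb0i hb0
  by_contra hcon
  rw [not_lt] at hcon
  obtain ⟨q, hqq, hq8, hqR, hqR'⟩ := hR0 R hR
  have hk0 : 1 ≤ c * Z := hk1
  obtain ⟨α, hα⟩ := exists_gap (c * Z) q hk0 (by omega) hFm hF2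
  have hqHq : (qH : ℝ) ≤ q := by exact_mod_cast (by omega : qH ≤ q)
  have hqyq : (qy : ℝ) ≤ q := by exact_mod_cast (by omega : qy ≤ q)
  have hqeq : (qe : ℝ) ≤ q := by exact_mod_cast (by omega : qe ≤ q)
  set P : Par := ⟨c * Z, q, R, H, y0, α, hk0, by omega, by omega, hH, by linarith, hy0,
    by linarith, hqR, hqR'⟩ with hPdef
  have hone : ∫ ξ, ‖F ξ‖ ^ 2 = 1 := by
    rw [← band_plancherel hFi hF2, hF1]
  have hPair : P.Pair F (P.gapSet.indicator F) :=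
    ⟨hFm, hFi, hF2, hFs, hone, rfl, P.gap_boundE hFm hF2 hFs hα hone⟩
  set G : V2 → ℂ := P.gapSet.indicator F with hGdef
  have hG : P.Good G := Pair.good P hPair
  have hPk : P.k = c * Z := rfl
  have hPq : P.q = q := rfl
  -- tail
  have htl := P.tail_lamE (c := c) (Z := Z) rfl (by
    show 4 ≤ c * Z
    nlinarith)
  have htail : 1 / 2 ≤ P.Gm G c (8 * Z) := by
    refine hqt P (by rw [hPq]; omega) F G hPair b0 hb0i hb0 _ htl.1 htl.2 ?_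
    rw [hPq, hPk]
    omega
  obtain ⟨n, hn1, hn2, hn3, hn4, hn5⟩ := argmaxE (P.Gm G c) (4 * Z + 1 : ℕ) (8 * Z)
    (by push_cast; omega) (fun n => (P.Gm_factsE hG c n).1) (fun n => (P.Gm_factsE hG c n).2)
    (fun n hn => P.Gm_zeroE hG (by omega) rfl hn) htail
  set τ : ℝ := P.lam c (n + 2) with hτ
  have hτ0 : 0 < τ := P.lam_posE c _
  have hZk : (Z : ℤ) * 2000 ≤ (c * Z : ℕ) := by
    push_cast
    nlinarith
  have hnk1 : -(8 * (c * Z : ℕ) : ℤ) ≤ n := by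
    push_cast at hn1 hZk ⊢
    omega
  have hnk2 : n ≤ 8 * (c * Z : ℕ) := by
    push_cast at hn1 hZk ⊢
    omega
  obtain ⟨hNm, hN0, hN, hm0, hmi, -⟩ := hqb P rfl rfl rfl (by rw [hPq]; omega) F G hPair τ hτ0
  have hup := hqm P rfl rfl rfl (by rw [hPq]; omega) F G hPair n hnk1 hnk2
  have hlo := hql P rfl rfl rfl (by rw [hPq]; omega) F G hPair E hE hEθ n hnk1 hnk2 hn3
  have hSt := P.meas_StE hG
  have hSm : MeasurableSet (E ∩ {x | P.lam c (n + 1) ≤ P.St G x}) :=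
    hE.inter (measurableSet_le measurable_const hSt.measurable)
  have hq1 : (1 : ℝ) ≤ q := by exact_mod_cast (by omega : 1 ≤ q)
  have hineq := P.end_ineqE K hPair hτ0 hNm hN (one_le_pow₀ hq1) hm0 hmi hβ
    (hR01.trans hR) hE hSm Set.inter_subset_left hcon
  have hmF0 : 0 ≤ ∫ x in E ∩ {x | P.lam c (n + 1) ≤ P.St G x}, P.mm G K F τ x :=
    integral_nonneg hm0
  set mF : ℝ := ∫ x in E ∩ {x | P.lam c (n + 1) ≤ P.St G x}, P.mm G K F τ x with hmF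
  have hlq1 : (|C0| + 1) / ε ≤ Real.log q := by
    have h1 : Real.exp ((|C0| + 1) / ε) ≤ q := hqe.trans hqeq
    have h2 := Real.log_le_log (Real.exp_pos _) h1
    rwa [Real.log_exp] at h2
  have hlq0 : 0 < Real.log q := lt_of_lt_of_le (by positivity) hlq1
  have hlR := P.log_R_geE
  rw [hPk, hPq] at hlR
  push_cast at hlR
  have hfin' := hfin (P.Gm G c n)
    (∑ j ∈ Finset.Icc (-(8 * (c * Z : ℕ)) : ℤ) (n + 3), P.Gm G c j) (Real.log q) C0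
    (by
      refine le_trans (le_of_eq ?_) hn4
      congr 2) (hn5 _) (by
        rw [div_le_iff₀ hlq0]
        rw [div_le_iff₀ hε] at hlq1
        linarith) hlq0
  have h3 : β * (8 * (c * Z) * Real.log q) * (c₀ * P.Gm G c n - ε) ≤
      β * Real.log R * mF := by
    calc β * (8 * (c * Z) * Real.log q) * (c₀ * P.Gm G c n - ε)
        ≤ β * (8 * (c * Z) * Real.log q) * mF := by
          apply mul_le_mul_of_nonneg_left hlo
          positivity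
      _ ≤ β * Real.log R * mF := by
          apply mul_le_mul_of_nonneg_right _ hmF0
          exact mul_le_mul_of_nonneg_left hlR hβ.le
  rw [hPq] at hup
  have h4 : β * (8 * (c * Z) * Real.log q) * (c₀ * P.Gm G c n - ε) ≤
      C0 + 1 + Real.log q * (Cm + Cm * c *
        ∑ j ∈ Finset.Icc (-(8 * (c * Z : ℕ)) : ℤ) (n + 3), P.Gm G c j + ε) := by
    refine h3.trans (hineq.trans ?_)
    linarith
  have h5 : (C0 + 1) / Real.log q + (Cm + Cm * c *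
        ∑ j ∈ Finset.Icc (-(8 * (c * Z : ℕ)) : ℤ) (n + 3), P.Gm G c j + ε) =
      (C0 + 1 + Real.log q * (Cm + Cm * c *
        ∑ j ∈ Finset.Icc (-(8 * (c * Z : ℕ)) : ℤ) (n + 3), P.Gm G c j + ε)) / Real.log q := by
    rw [add_div (C0 + 1), mul_div_cancel_left₀ _ hlq0.ne']
  rw [h5, div_lt_iff₀ hlq0] at hfin'
  linarith

end Par

end REPS
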