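import Pool.Agent.REPS.Nk
import Pool.Agent.REPS.Cut
import Pool.Agent.REPS.Norm
import Pool.Agent.REPS.Piece
import Pool.Agent.REPS.Geom1

open MeasureTheory Filter Topology Real Metric FourierTransform
open scoped ENNReal NNReal InnerProductSpace Pointwise

namespace REPS

open Helper77.TA

namespace Par

theorem R_posE (P : Par) : 0 < P.R := by
  have h1 := P.hR
  have h2 : 0 < (P.q : ℝ) ^ (4 * P.k) := by
    have : (0 : ℝ) < P.q := by exact_mod_cast (by have := P.hq4; omega : 0 < P.q)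
    positivity
  have h3 : 0 < √P.R := h2.trans_le h1
  exact Real.sqrt_pos.mp h3

theorem q_posE (P : Par) : (0 : ℝ) < P.q := by
  exact_mod_cast (by have := P.hq4; omega : 0 < P.q)

theorem y_posE (P : Par) (i : ℕ) : 0 < P.y i := by
  unfold y
  split_ifs
  · have := P.hy0
    linarith
  · have h1 := P.R_posE
    have h2 := P.q_posE
    have h3 : 0 < P.l i := by
      unfold l M
      have : 0 < P.b := by
        unfold b
        have := P.hq4
        positivity
      positivity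
    positivity

/-- NK* for the packets of the construction. -/
theorem nk_parE (P : Par) (K : Ker) {F G : V2 → ℂ} (hP : P.Pair F G) {τ : ℝ}
    (hh0 : ∀ i j x, i ≤ P.k → 0 ≤ P.h G K τ i j x) (hh1 : ∀ i j x, i ≤ P.k → P.h G K τ i j x ≤ 1)
    (hhm : ∀ i j, i ≤ P.k → Measurable (P.h G K τ i j))
    {N a : ℝ} (hNm : Measurable (P.NN G K τ)) (hN : ∀ x, P.NN G K τ x ≤ N) (hN1 : 1 ≤ N)
    {A : V2 → ℝ} (hA : Measurable A) (ha : 0 < a) (haA : ∀ x, a ≤ A x) (hA1 : ∀ x, A x ≤ 1)
    (hcn : ∀ i, 1 ≤ i → i ≤ P.k → 0 ≤ P.cn i ∧ P.cn i ≤ 2)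
    :
    ∫ x, P.mm G K F τ x * (1 - Real.log (A x) - Real.log (max 1 (P.NN G K τ x))) ≤
      ∫ x, ‖𝓕⁻ F x‖ ^ 2 / A x := by
  classical
  set S : Finset (Σ _ : ℕ, ℕ) := (Finset.Icc 1 P.k).sigma fun i => Finset.range (P.M (i - 1))
    with hS
  set ω : (↥S) ⊕ (↥(Finset.range (P.M 0))) → V2 := Sum.elim
    (fun p => dir (P.cen (p.1.1 - 1) p.1.2)) (fun κ => dir (P.cen 0 κ.1)) with hω
  set y : (↥S) ⊕ (↥(Finset.range (P.M 0))) → ℝ := Sum.elim
    (fun p => P.y p.1.1) (fun _ => P.y0) with hy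
  set v : (↥S) ⊕ (↥(Finset.range (P.M 0))) → V2 → ℝ := Sum.elim
    (fun p z => P.cn p.1.1 * max 0 (P.v G K τ p.1.1 (p.1.2 / P.b) z))
    (fun κ z => P.h G K τ 1 (κ.1 / P.b) z) with hv
  have hmem : ∀ p : ↥S, 1 ≤ p.1.1 ∧ p.1.1 ≤ P.k := by
    intro p
    exact Finset.mem_Icc.mp (Finset.mem_sigma.mp p.2).1
  have hvm : ∀ i j, i ≤ P.k → Measurable (P.v G K τ i j) := by
    intro i j hi
    unfold Par.v
    split_ifs with h
    · exact measurable_const.sub (hhm _ _ hi)
    · exact (hhm _ _ (by omega)).sub (hhm _ _ hi)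
  have hv1 : ∀ i j x, i ≤ P.k → P.v G K τ i j x ≤ 1 := by
    intro i j x hi
    unfold Par.v
    split_ifs with h
    · linarith [hh0 i j x hi]
    · linarith [hh1 (i + 1) (j / P.b) x (by omega), hh0 i j x hi]
  have hRpos := P.R_posE
  have key := nk (ι := (↥S) ⊕ (↥(Finset.range (P.M 0)))) hP.int hP.lp (ρ := P.ρ)
    (S := 2 * P.ρ) ω ?_ ?_ y ?_ v ?_ ?_ (K := max N 2) (a := a) ?_
    (fun x => max 1 (P.NN G K τ x)) A (measurable_const.max hNm) hA (fun x => le_max_left _ _)
    ?_ ha haA ?_ ?_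
  · have e1 : ∀ x, (∑ j, pav (y j) (ω j) (fun z => v j z * ‖pkt F P.ρ (y j) (ω j) z‖ ^ 2) x) =
        P.mm G K F τ x := by
      intro x
      rw [Fintype.sum_sum_type]
      simp only [hω, hy, hv, Sum.elim_inl, Sum.elim_inr]
      unfold mm mA m0
      congr 1
      · rw [Finset.sum_coe_sort S (fun p => pav (P.y p.1) (dir (P.cen (p.1 - 1) p.2))
          (fun z => P.cn p.1 * max 0 (P.v G K τ p.1 (p.2 / P.b) z) *
            ‖pkt F P.ρ (P.y p.1) (dir (P.cen (p.1 - 1) p.2)) z‖ ^ 2) x), hS, Finset.sum_sigma]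
        rfl
      · rw [Finset.sum_coe_sort (Finset.range (P.M 0)) (fun κ => pav P.y0 (dir (P.cen 0 κ))
          (fun z => P.h G K τ 1 (κ / P.b) z * ‖pkt F P.ρ P.y0 (dir (P.cen 0 κ)) z‖ ^ 2) x)]
        rfl
    simp only [e1] at key
    exact key
  · rintro (p | κ) <;> simp only [hω, Sum.elim_inl, Sum.elim_inr] <;> exact norm_dir _
  · intro j ξ hξ
    have h1 := hP.supp ξ hξ
    have h2 : ‖ξ‖ ≤ P.ρ := h1.2
    have h3 : ‖ω j‖ = 1 := by
      rcases j with (p | κ) <;> simp only [hω, Sum.elim_inl, Sum.elim_inr] <;> exact norm_dir _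
    have h4 := abs_le.mp (abs_real_inner_le_norm ξ (ω j))
    rw [h3, mul_one] at h4
    constructor <;> linarith [h4.1, h4.2]
  · rintro (p | κ)
    · exact P.y_posE _
    · have := P.hy0
      simp only [hy, Sum.elim_inr]
      linarith
  · rintro (p | κ)
    · exact measurable_const.mul (measurable_const.max (hvm _ _ (hmem p).2))
    · exact hhm _ _ P.hk
  · rintro (p | κ) x
    · exact mul_nonneg (hcn _ (hmem p).1 (hmem p).2).1 (le_max_left _ _)
    · exact hh0 _ _ _ P.hk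
  · rintro (p | κ) x
    · simp only [hv, Sum.elim_inl]
      have h1 := hcn _ (hmem p).1 (hmem p).2
      have h2 : max 0 (P.v G K τ p.1.1 (p.1.2 / P.b) x) ≤ 1 :=
        max_le zero_le_one (hv1 _ _ _ (hmem p).2)
      have h3 : 0 ≤ max 0 (P.v G K τ p.1.1 (p.1.2 / P.b) x) := le_max_left _ _
      calc P.cn p.1.1 * max 0 (P.v G K τ p.1.1 (p.1.2 / P.b) x) ≤ 2 * 1 := by
            apply mul_le_mul h1.2 h2 h3 (by norm_num)
        _ ≤ max N 2 := by
            rw [mul_one]
            exact le_max_right _ _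
    · simp only [hv, Sum.elim_inr]
      exact (hh1 _ _ _ P.hk).trans (by
        have := le_max_right N 2
        linarith)
  · intro x
    apply max_le
    · exact hN1.trans (le_max_left _ _)
    · exact (hN x).trans (le_max_left _ _)
  · intro x
    exact (hA1 x).trans (by
      have := le_max_right N 2
      linarith)
  · intro x
    have e2 : ∑ j, pav (y j) (ω j) (v j) x = P.NN G K τ x := by
      rw [Fintype.sum_sum_type]
      simp only [hω, hy, hv, Sum.elim_inl, Sum.elim_inr]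
      unfold NN
      congr 1
      · rw [Finset.sum_coe_sort S (fun p => pav (P.y p.1) (dir (P.cen (p.1 - 1) p.2))
          (fun z => P.cn p.1 * max 0 (P.v G K τ p.1 (p.2 / P.b) z)) x), hS, Finset.sum_sigma]
      · rw [Finset.sum_coe_sort (Finset.range (P.M 0)) (fun κ => pav P.y0 (dir (P.cen 0 κ))
          (fun z => P.h G K τ 1 (κ / P.b) z) x)]
    rw [e2]
    exact le_max_right _ _

end Par

end REPS
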