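import Pool.Agent.REPS.Defs2

open MeasureTheory Filter Topology Real Metric FourierTransform
open scoped ENNReal NNReal InnerProductSpace Pointwise

namespace REPS

open Helper77.TA

namespace Par

/-- The discrete argmaxE. `G n` for `n ≥ -a`; `G` is nonnegative, vanishes below `-a`, at most `1`,
at least `1/2` at `N`. -/
theorem argmaxE (g : ℤ → ℝ) (a N : ℤ) (haN : -a ≤ N) (h0 : ∀ n, 0 ≤ g n) (h1 : ∀ n, g n ≤ 1)
    (hz : ∀ n, n < -a → g n = 0) (hN : 1 / 2 ≤ g N) : ∃ n : ℤ, -a ≤ n ∧ n ≤ N ∧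
      g (n + 1) ≤ 4 * g n ∧ (2 : ℝ) ^ (-(N + a) : ℤ) / 2 ≤ g n ∧
      ∀ lo : ℤ, ∑ j ∈ Finset.Icc lo (n + 3), g j ≤ 30 * g n := by
  obtain ⟨n, hn, hmax⟩ := Finset.exists_max_image (Finset.Icc (-a) N)
    (fun n => g n * (2 : ℝ) ^ (-n)) ⟨N, by simp [haN]⟩
  rw [Finset.mem_Icc] at hn
  have two0 : (0 : ℝ) < 2 := two_pos
  have hle : ∀ m, -a ≤ m → m ≤ N → g m ≤ 2 ^ (m - n) * g n := by
    intro m hm1 hm2
    have h := hmax m (by rw [Finset.mem_Icc]; exact ⟨hm1, hm2⟩)
    have e1 : g m = (g m * (2 : ℝ) ^ (-m)) * 2 ^ m := by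
      rw [mul_assoc, ← zpow_add₀ two0.ne']
      simp
    have e2 : (2 : ℝ) ^ (m - n) * g n = (g n * (2 : ℝ) ^ (-n)) * 2 ^ m := by
      rw [sub_eq_add_neg, zpow_add₀ two0.ne']
      ring
    rw [e1, e2]
    gcongr
  have hle2 : ∀ m, m ≤ N → g m ≤ 2 ^ (m - n) * g n := by
    intro m hm
    by_cases h : -a ≤ m
    · exact hle m h hm
    · rw [hz m (by omega)]
      have := h0 n
      positivity
  have hgN : g N ≤ 2 ^ (N - n) * g n := hle N haN le_rfl
  have hgn : (2 : ℝ) ^ (-(N - n)) / 2 ≤ g n := by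
    rw [zpow_neg]
    have h3 : 1 / 2 ≤ 2 ^ (N - n) * g n := hN.trans hgN
    have h4 : (0 : ℝ) < 2 ^ (N - n) := by positivity
    rw [div_le_iff₀ two0, inv_le_iff_one_le_mul₀ h4]
    linarith
  -- above `N`
  have hup : ∀ m : ℕ, g (n + m) ≤ 2 ^ (m + 1) * g n := by
    intro m
    by_cases h : n + m ≤ N
    · have h5 := hle2 (n + m) h
      have e3 : (n + m - n : ℤ) = m := by ring
      rw [e3, zpow_natCast] at h5
      refine h5.trans ?_
      have := h0 n
      rw [pow_succ]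
      have h6 : (0 : ℝ) < 2 ^ m := by positivity
      nlinarith
    · have h7 : g (n + m) ≤ 1 := h1 _
      have h8 : (N - n : ℤ) ≤ m := by omega
      have h9 : (2 : ℝ) ^ (N - n) ≤ 2 ^ (m : ℤ) := zpow_le_zpow_right₀ one_le_two h8
      rw [zpow_natCast] at h9
      have := h0 n
      have h10 : 1 / 2 ≤ 2 ^ m * g n := hN.trans (hgN.trans (by gcongr))
      rw [pow_succ]
      linarith
  refine ⟨n, hn.1, hn.2, ?_, ?_, ?_⟩
  · have := hup 1
    push_cast at this
    norm_num at this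
    exact this
  · refine le_trans ?_ hgn
    have : (2 : ℝ) ^ (-(N + a) : ℤ) ≤ 2 ^ (-(N - n)) :=
      zpow_le_zpow_right₀ one_le_two (by omega)
    gcongr
  · intro lo
    -- sum below `n`
    have hbelow : ∀ K : ℕ, ∀ lo : ℤ, n + 1 - lo ≤ K →
        ∑ j ∈ Finset.Icc lo n, g j ≤ (2 - 2 * 2 ^ (-(K : ℤ))) * g n := by
      intro K
      induction K with
      | zero =>
        intro lo hlo
        have : Finset.Icc lo n = ∅ := by
          rw [Finset.Icc_eq_empty_iff]
          push_cast at hlo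
          omega
        rw [this]
        simp
      | succ K ih =>
        intro lo hlo
        by_cases h : lo ≤ n
        · have e4 : Finset.Icc lo n = insert lo (Finset.Icc (lo + 1) n) := by
            ext j
            simp only [Finset.mem_insert, Finset.mem_Icc]
            omega
          rw [e4, Finset.sum_insert (by simp)]
          have h11 := ih (lo + 1) (by push_cast at hlo ⊢; omega)
          have h12 := hle2 lo (h.trans hn.2)
          by_cases h13 : n + 1 - lo ≤ K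
          · have h14 := ih lo h13
            rw [e4, Finset.sum_insert (by simp)] at h14
            refine h14.trans ?_
            have := h0 n
            have h15 : (2 : ℝ) ^ (-((K + 1 : ℕ) : ℤ)) ≤ 2 ^ (-(K : ℤ)) :=
              zpow_le_zpow_right₀ one_le_two (by push_cast; omega)
            gcongr
          · have e5 : lo - n = -(K : ℤ) := by push_cast at hlo; omega
            rw [e5] at h12
            have h16 := ih (lo + 1) (by omega)
            have e6 : (2 : ℝ) ^ (-((K + 1 : ℕ) : ℤ)) = 2 ^ (-(K : ℤ)) / 2 := by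
              push_cast
              rw [neg_add, zpow_add₀ two0.ne']
              norm_num
              ring
            rw [e6]
            nlinarith
        · have : Finset.Icc lo n = ∅ := by
            rw [Finset.Icc_eq_empty_iff]
            exact h
          rw [this, Finset.sum_empty]
          have h17 : (2 : ℝ) ^ (-((K + 1 : ℕ) : ℤ)) ≤ 2 ^ (0 : ℤ) :=
            zpow_le_zpow_right₀ one_le_two (by push_cast; omega)
          rw [zpow_zero] at h17
          have := h0 n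
          have h18 : 0 ≤ 2 - 2 * (2 : ℝ) ^ (-((K + 1 : ℕ) : ℤ)) := by linarith
          positivity
    have hb : ∑ j ∈ Finset.Icc lo n, g j ≤ 2 * g n := by
      have h19 := hbelow (n + 1 - lo).toNat lo (Int.self_le_toNat _)
      refine h19.trans ?_
      have := h0 n
      have h20 : (0 : ℝ) < 2 ^ (-(((n + 1 - lo).toNat : ℕ) : ℤ)) := by positivity
      nlinarith
    have hsub : ∑ j ∈ Finset.Icc lo (n + 3), g j ≤
        ∑ j ∈ Finset.Icc lo n, g j + ∑ j ∈ ({n + 1, n + 2, n + 3} : Finset ℤ), g j := by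
      have e7 : Finset.Icc lo (n + 3) ⊆ Finset.Icc lo n ∪ {n + 1, n + 2, n + 3} := by
        intro j hj
        simp only [Finset.mem_union, Finset.mem_Icc, Finset.mem_insert,
          Finset.mem_singleton] at hj ⊢
        omega
      refine (Finset.sum_le_sum_of_subset_of_nonneg e7 fun _ _ _ => h0 _).trans ?_
      rw [← Finset.sum_union_inter]
      have : 0 ≤ ∑ j ∈ Finset.Icc lo n ∩ {n + 1, n + 2, n + 3}, g j :=
        Finset.sum_nonneg fun _ _ => h0 _
      linarith
    have e8 : ∑ j ∈ ({n + 1, n + 2, n + 3} : Finset ℤ), g j = g (n + 1) + (g (n + 2) + g (n + 3)) := by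
      rw [Finset.sum_insert (by simp), Finset.sum_insert (by simp), Finset.sum_singleton]
    have u1 := hup 1
    have u2 := hup 2
    have u3 := hup 3
    push_cast at u1 u2 u3
    norm_num at u1 u2 u3
    rw [e8] at hsub
    linarith

theorem exists_qE (k : ℕ) (hk : 1 ≤ k) (q1 : ℕ) : ∃ R0 : ℝ, 1 ≤ R0 ∧ ∀ R : ℝ, R0 ≤ R →
    ∃ q : ℕ, q1 ≤ q ∧ 8 * k ≤ q ∧ (q : ℝ) ^ (4 * k) ≤ √R ∧ √R ≤ 2 * (q : ℝ) ^ (4 * k) := by
  set Q : ℕ := q1 + 8 * k + 1 with hQ
  refine ⟨(Q : ℝ) ^ (8 * k), one_le_pow₀ (by rw [hQ]; push_cast; linarith [(Nat.cast_nonneg q1 : (0 : ℝ) ≤ q1), (Nat.cast_nonneg k : (0 : ℝ) ≤ k)]), ?_⟩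
  intro R hR
  have hR0 : 0 ≤ R := le_trans (by positivity) hR
  set x : ℝ := R ^ ((1 : ℝ) / (8 * k)) with hx
  have hk0 : (0 : ℝ) < k := by exact_mod_cast hk
  have hx0 : 0 ≤ x := Real.rpow_nonneg hR0 _
  have hxR : x ^ (8 * k) = R := by
    rw [hx, ← Real.rpow_natCast, ← Real.rpow_mul hR0]
    push_cast
    rw [one_div, inv_mul_cancel₀ (by positivity), Real.rpow_one]
  have hsq : √R = x ^ (4 * k) := by
    rw [← hxR, show 8 * k = (4 * k) * 2 by ring, pow_mul]
    exact Real.sqrt_sq (by positivity)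
  have hQx : (Q : ℝ) ≤ x := by
    have h1 : (Q : ℝ) ^ (8 * k) ≤ x ^ (8 * k) := by rw [hxR]; exact hR
    exact le_of_pow_le_pow_left₀ (by omega) hx0 h1
  refine ⟨⌊x⌋₊, ?_, ?_, ?_, ?_⟩
  · exact Nat.le_floor (le_trans (by rw [hQ]; push_cast; linarith) hQx)
  · exact Nat.le_floor (le_trans (by rw [hQ]; push_cast; linarith) hQx)
  · rw [hsq]
    exact pow_le_pow_left₀ (Nat.cast_nonneg _) (Nat.floor_le hx0) _
  · rw [hsq]
    set q : ℝ := (⌊x⌋₊ : ℝ) with hq
    have h2 : x ≤ q + 1 := (Nat.lt_floor_add_one x).le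
    have h8 : (8 * k : ℝ) ≤ q := by
      have : (8 * k : ℕ) ≤ ⌊x⌋₊ := Nat.le_floor (le_trans (by rw [hQ]; push_cast; linarith) hQx)
      rw [hq]
      exact_mod_cast this
    have hq0 : 0 < q := by linarith
    have h3 : x ^ (4 * k) ≤ (q + 1) ^ (4 * k) := pow_le_pow_left₀ hx0 h2 _
    have h4 : (q + 1) ^ (4 * k) = q ^ (4 * k) * (1 + 1 / q) ^ (4 * k) := by
      rw [← mul_pow]
      congr 1
      field_simp
    have h5 : (1 + 1 / q) ^ (4 * k) ≤ 2 := by
      have h6 : 1 + 1 / q ≤ Real.exp (1 / q) := by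
        have := Real.add_one_le_exp (1 / q)
        linarith
      calc (1 + 1 / q) ^ (4 * k) ≤ (Real.exp (1 / q)) ^ (4 * k) :=
            pow_le_pow_left₀ (by positivity) h6 _
        _ = Real.exp ((4 * k : ℕ) * (1 / q)) := by rw [← Real.exp_nat_mul]
        _ ≤ Real.exp (1 / 2) := by
            apply Real.exp_le_exp.mpr
            push_cast
            rw [mul_one_div, div_le_iff₀ hq0]
            linarith
        _ ≤ 2 := by
            have h7 := Real.exp_one_lt_d9
            have h9 : Real.exp (1 / 2) ^ 2 = Real.exp 1 := by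
              rw [← Real.exp_nat_mul]
              norm_num
            nlinarith [Real.exp_pos (1 / 2)]
    rw [h4] at h3
    refine h3.trans ?_
    rw [mul_comm 2]
    exact mul_le_mul_of_nonneg_left h5 (by positivity)

/-- Choice of the constants. -/
theorem exists_constsE (C c₀ β : ℝ) (hC : 0 < C) (hc₀ : 0 < c₀) (hβ : 0 < β) :
    ∃ (Z c : ℕ) (ε : ℝ), 1 ≤ Z ∧ 2000 ≤ c ∧ 0 < ε ∧
      ∀ (g s lq C0 : ℝ), (2 : ℝ) ^ (-((8 * Z + (4 * Z + 1) : ℕ) : ℤ)) / 2 ≤ g → s ≤ 30 * g →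
        (|C0| + 1) / lq ≤ ε → 0 < lq →
        (C0 + 1) / lq + (C + C * c * s + ε) < 8 * (c * Z) * β * (c₀ * g - ε) := by
  obtain ⟨Z, hZ⟩ := exists_nat_ge (60 * C / (8 * β * c₀))
  set Z' := Z + 1 with hZ'
  set μ : ℝ := C * (2 : ℝ) ^ (-((8 * Z' + (4 * Z' + 1) : ℕ) : ℤ)) with hμ
  have hμ0 : 0 < μ := by positivity
  obtain ⟨c', hc2, hc⟩ : ∃ c' : ℕ, 2000 ≤ c' ∧ C / μ ≤ c' := by
    obtain ⟨c, hc⟩ := exists_nat_ge (C / μ)
    exact ⟨max c 2000, le_max_right _ _, hc.trans (by exact_mod_cast le_max_left _ _)⟩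
  have hc1 : (1 : ℝ) ≤ c' := by exact_mod_cast (by omega : 1 ≤ c')
  have hc0 : (0 : ℝ) < c' := by linarith
  have hZ0 : (0 : ℝ) < Z' := by rw [hZ']; positivity
  set ε : ℝ := min 1 (min (μ / (8 * Z' * β)) μ) with hε
  have hε0 : 0 < ε := by
    rw [hε]
    refine lt_min one_pos (lt_min (by positivity) hμ0)
  refine ⟨Z', c', ε, by omega, hc2, hε0, ?_⟩
  intro g s lq C0 hg hs hlq hlq0
  have h1 : 60 * C ≤ 8 * Z' * β * c₀ := by
    have : 60 * C / (8 * β * c₀) ≤ Z' := hZ.trans (by rw [hZ']; push_cast; linarith)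
    rw [div_le_iff₀ (by positivity)] at this
    linarith
  have h2 : C ≤ c' * μ := by
    rwa [div_le_iff₀ hμ0] at hc
  have h3 : ε ≤ μ := (min_le_right _ _).trans (min_le_right _ _)
  have h4 : 8 * Z' * β * ε ≤ μ := by
    have : ε ≤ μ / (8 * Z' * β) := (min_le_right _ _).trans (min_le_left _ _)
    rw [le_div_iff₀ (by positivity)] at this
    linarith
  have h5 : μ ≤ 2 * (C * g) := by
    have : C * ((2 : ℝ) ^ (-((8 * Z' + (4 * Z' + 1) : ℕ) : ℤ)) / 2) ≤ C * g :=
      mul_le_mul_of_nonneg_left hg hC.le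
    rw [hμ]
    linarith
  have h6 : (C0 + 1) / lq ≤ ε := by
    refine le_trans ?_ hlq
    have := le_abs_self C0
    gcongr
  have h7 : C * c' * s ≤ 30 * (c' * (C * g)) := by
    have : C * c' * s ≤ C * c' * (30 * g) := mul_le_mul_of_nonneg_left hs (by positivity)
    linarith
  have hg0 : 0 < C * g := by linarith
  have h8 : 60 * C * g ≤ 8 * Z' * β * c₀ * g := by
    have : 0 < g := by
      by_contra hcon
      push Not at hcon
      nlinarith
    exact mul_le_mul_of_nonneg_right h1 this.le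
  -- total
  have h9 : (C0 + 1) / lq + (C + C * c' * s + ε) ≤ c' * (μ + 2 * μ + 30 * (C * g)) := by
    have : ε ≤ c' * μ := by nlinarith
    nlinarith
  have h10 : c' * (60 * (C * g) - μ) ≤ 8 * (c' * Z') * β * (c₀ * g - ε) := by
    have : 8 * (c' * Z') * β * (c₀ * g - ε) = c' * (8 * Z' * β * c₀ * g - 8 * Z' * β * ε) := by ring
    rw [this]
    apply mul_le_mul_of_nonneg_left _ hc0.le
    linarith
  refine lt_of_le_of_lt h9 (lt_of_lt_of_le ?_ h10)
  apply mul_lt_mul_of_pos_left _ hc0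
  linarith

end Par

end REPS
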