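import Pool.Agent.REPS.Defs

open MeasureTheory Filter Topology Real Metric FourierTransform
open scoped ENNReal NNReal InnerProductSpace

namespace REPS

namespace GapAux

/-- indicator of the fractional parts near an integer -/
noncomputable def g (q : ℕ) : ℝ → ℝ :=
  {u : ℝ | ¬ (1 / (q : ℝ) ≤ Int.fract u ∧ Int.fract u ≤ 1 - 1 / (q : ℝ))}.indicator 1

theorem measurableSet_bad (q : ℕ) :
    MeasurableSet {u : ℝ | ¬ (1 / (q : ℝ) ≤ Int.fract u ∧ Int.fract u ≤ 1 - 1 / (q : ℝ))} := by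
  have h1 : MeasurableSet {u : ℝ | 1 / (q : ℝ) ≤ Int.fract u} :=
    measurableSet_le measurable_const measurable_fract
  have h2 : MeasurableSet {u : ℝ | Int.fract u ≤ 1 - 1 / (q : ℝ)} :=
    measurableSet_le measurable_fract measurable_const
  exact (h1.inter h2).compl

theorem measurable_g (q : ℕ) : Measurable (g q) :=
  measurable_one.indicator (measurableSet_bad q)

theorem g_nonneg (q : ℕ) (u : ℝ) : 0 ≤ g q u :=
  Set.indicator_nonneg (fun _ _ => zero_le_one) u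

theorem g_le_one (q : ℕ) (u : ℝ) : g q u ≤ 1 := by
  unfold g
  exact Set.indicator_le_self' (fun _ _ => zero_le_one) u

theorem g_periodic (q : ℕ) : Function.Periodic (g q) 1 := by
  intro u
  have h : ∀ v : ℝ, g q v = if ¬ (1 / (q : ℝ) ≤ Int.fract v ∧ Int.fract v ≤ 1 - 1 / (q : ℝ))
      then 1 else 0 := fun v => by
    unfold g
    rw [Set.indicator_apply]
    rfl
  rw [h, h, Int.fract_add_one]

theorem g_intervalIntegrable (q : ℕ) (a b : ℝ) : IntervalIntegrable (g q) volume a b := by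
  rw [intervalIntegrable_iff]
  refine Measure.integrableOn_of_bounded (M := 1) ?_ (measurable_g q).aestronglyMeasurable ?_
  · exact measure_Ioc_lt_top.ne
  · refine ae_of_all _ fun u => ?_
    rw [Real.norm_eq_abs, abs_of_nonneg (g_nonneg q u)]
    exact g_le_one q u

theorem integral_g_le (q : ℕ) (hq : 4 ≤ q) : ∫ u in (0 : ℝ)..1, g q u ≤ 2 / q := by
  have hq0 : (0 : ℝ) < q := by
    have : 0 < q := by omega
    exact_mod_cast this
  rw [intervalIntegral.integral_of_le zero_le_one]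
  unfold g
  rw [integral_indicator_one (measurableSet_bad q), measureReal_restrict_apply (measurableSet_bad q)]
  have hsub : {u : ℝ | ¬ (1 / (q : ℝ) ≤ Int.fract u ∧ Int.fract u ≤ 1 - 1 / (q : ℝ))} ∩ Set.Ioc 0 1
      ⊆ Set.Icc 0 (1 / (q : ℝ)) ∪ Set.Icc (1 - 1 / (q : ℝ)) 1 := by
    rintro u ⟨hu, hu0, hu1⟩
    rcases eq_or_lt_of_le hu1 with h1 | h1
    · right
      rw [h1]
      refine ⟨?_, le_refl _⟩
      have : 0 < 1 / (q : ℝ) := by positivity
      linarith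
    · have hf : Int.fract u = u := Int.fract_eq_self.mpr ⟨hu0.le, h1⟩
      simp only [Set.mem_ofPred_eq, hf, not_and_or, not_le] at hu
      rcases hu with hu | hu
      · exact Or.inl ⟨hu0.le, hu.le⟩
      · exact Or.inr ⟨hu.le, hu1⟩
  refine (measureReal_mono hsub (by
    refine ne_of_lt (lt_of_le_of_lt (measure_union_le _ _) ?_)
    exact ENNReal.add_lt_top.mpr ⟨measure_Icc_lt_top, measure_Icc_lt_top⟩)).trans ?_
  refine (measureReal_union_le _ _).trans ?_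
  rw [Real.volume_real_Icc, Real.volume_real_Icc]
  have h2 : 0 ≤ 1 / (q : ℝ) := by positivity
  rw [max_eq_left (by linarith), max_eq_left (by linarith)]
  have : (2 : ℝ) / q = 1 / q + 1 / q := by ring
  rw [this]
  linarith

theorem fract_nat_mul_fract (M : ℕ) (x : ℝ) :
    Int.fract ((M : ℝ) * Int.fract x) = Int.fract ((M : ℝ) * x) := by
  have h : (M : ℝ) * Int.fract x = (M : ℝ) * x - (((M : ℤ) * ⌊x⌋ : ℤ) : ℝ) := by
    rw [Int.fract]
    push_cast
    ring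
  rw [h, Int.fract_sub_intCast]

theorem integral_g_comp (q : ℕ) (hq : 4 ≤ q) (M : ℕ) (hM : 0 < M) (c : ℝ) :
    ∫ β in (0 : ℝ)..1, g q ((M : ℝ) * (c - β)) ≤ 2 / q := by
  have hM0 : (M : ℝ) ≠ 0 := by
    have := hM.ne'
    exact_mod_cast this
  have h1 : (fun β : ℝ => g q ((M : ℝ) * (c - β))) = fun β => g q ((M : ℝ) * c - (M : ℝ) * β) := by
    funext β
    congr 1
    ring
  rw [h1, intervalIntegral.integral_comp_sub_mul (fun u => g q u) hM0 ((M : ℝ) * c)]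
  have h2 : ∫ u in ((M : ℝ) * c - (M : ℝ) * 1)..((M : ℝ) * c - (M : ℝ) * 0), g q u
      = (M : ℤ) • ∫ u in ((M : ℝ) * c - (M : ℝ) * 1)..((M : ℝ) * c - (M : ℝ) * 1 + 1), g q u := by
    rw [← (g_periodic q).intervalIntegral_add_zsmul_eq (M : ℤ) _ (g_intervalIntegrable q)]
    congr 1
    rw [zsmul_eq_mul]
    push_cast
    ring
  have h3 : ∫ u in ((M : ℝ) * c - (M : ℝ) * 1)..((M : ℝ) * c - (M : ℝ) * 1 + 1), g q u
      = ∫ u in (0 : ℝ)..(0 + 1), g q u := (g_periodic q).intervalIntegral_add_eq _ _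
  rw [h2, h3, zero_add, zsmul_eq_mul, smul_eq_mul]
  push_cast
  rw [← mul_assoc, inv_mul_cancel₀ hM0, one_mul]
  exact integral_g_le q hq

/-- angle in turns -/
noncomputable def tu (ξ : V2) : ℝ := Complex.arg ⟨ξ 0, ξ 1⟩ / (2 * π)

theorem measurable_tu : Measurable tu := by
  have h0 : Measurable fun ξ : V2 => (⟨ξ 0, ξ 1⟩ : ℂ) := by
    have h : (fun ξ : V2 => (⟨ξ 0, ξ 1⟩ : ℂ))
        = fun ξ : V2 => ((ξ 0 : ℝ) : ℂ) + ((ξ 1 : ℝ) : ℂ) * Complex.I := by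
      funext ξ
      exact Complex.mk_eq_add_mul_I _ _
    rw [h]
    have c0 : Continuous fun ξ : V2 => ξ 0 := by fun_prop
    have c1 : Continuous fun ξ : V2 => ξ 1 := by fun_prop
    exact ((Complex.continuous_ofReal.comp c0).add
      ((Complex.continuous_ofReal.comp c1).mul continuous_const)).measurable
  exact (Complex.measurable_arg.comp h0).div_const _

theorem trn_eq (β : ℝ) (ξ : V2) : trn (2 * π * β) ξ = Int.fract (tu ξ - β) := by
  unfold trn tu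
  congr 1
  have h : (2 * π : ℝ) ≠ 0 := by positivity
  field_simp

/-- sum of the indicators of the bad sets -/
noncomputable def Hs (k q : ℕ) (β : ℝ) (ξ : V2) : ℝ :=
  ∑ i ∈ Finset.range (k + 1), g q (((8 * (q ^ 4) ^ (k - i) : ℕ) : ℝ) * (tu ξ - β))

theorem measurable_Hs (k q : ℕ) : Measurable (Function.uncurry (Hs k q)) := by
  have h : ∀ i ∈ Finset.range (k + 1), Measurable fun z : ℝ × V2 =>
      g q (((8 * (q ^ 4) ^ (k - i) : ℕ) : ℝ) * (tu z.2 - z.1)) := fun i _ =>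
    (measurable_g q).comp
      (measurable_const.mul ((measurable_tu.comp measurable_snd).sub measurable_fst))
  exact Finset.measurable_fun_sum _ h

theorem measurableSet_exists (k q : ℕ) (α : ℝ) :
    MeasurableSet {ξ : V2 | ∃ i ≤ k, ¬ (1 / (q : ℝ) ≤
          Int.fract (((8 * (q ^ 4) ^ (k - i) : ℕ) : ℝ) * trn α ξ) ∧
          Int.fract (((8 * (q ^ 4) ^ (k - i) : ℕ) : ℝ) * trn α ξ) ≤ 1 - 1 / (q : ℝ))} := by
  have ht : Measurable fun ξ : V2 => trn α ξ := by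
    have h : (fun ξ : V2 => trn α ξ) = fun ξ => Int.fract (tu ξ - α / (2 * π)) := by
      funext ξ
      unfold trn tu
      rw [sub_div]
    rw [h]
    exact measurable_fract.comp (measurable_tu.sub_const _)
  have h : {ξ : V2 | ∃ i ≤ k, ¬ (1 / (q : ℝ) ≤
          Int.fract (((8 * (q ^ 4) ^ (k - i) : ℕ) : ℝ) * trn α ξ) ∧
          Int.fract (((8 * (q ^ 4) ^ (k - i) : ℕ) : ℝ) * trn α ξ) ≤ 1 - 1 / (q : ℝ))}
      = ⋃ i ∈ Set.Iic k, (fun ξ : V2 => ((8 * (q ^ 4) ^ (k - i) : ℕ) : ℝ) * trn α ξ) ⁻¹'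
        {u : ℝ | ¬ (1 / (q : ℝ) ≤ Int.fract u ∧ Int.fract u ≤ 1 - 1 / (q : ℝ))} := by
    ext ξ
    simp only [Set.mem_iUnion, Set.mem_Iic, Set.mem_preimage, Set.mem_ofPred_eq, exists_prop]
  rw [h]
  exact MeasurableSet.biUnion (Set.to_countable _) fun i _ =>
    (measurable_const.mul ht) (measurableSet_bad q)

theorem Hs_nonneg (k q : ℕ) (β : ℝ) (ξ : V2) : 0 ≤ Hs k q β ξ :=
  Finset.sum_nonneg fun _ _ => g_nonneg q _

theorem Hs_le (k q : ℕ) (β : ℝ) (ξ : V2) : Hs k q β ξ ≤ k + 1 := by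
  unfold Hs
  refine (Finset.sum_le_sum fun i _ => g_le_one q _).trans ?_
  simp

theorem one_le_Hs (k q : ℕ) (β : ℝ) (ξ : V2)
    (h : ∃ i ≤ k, ¬ (1 / (q : ℝ) ≤
          Int.fract (((8 * (q ^ 4) ^ (k - i) : ℕ) : ℝ) * trn (2 * π * β) ξ) ∧
          Int.fract (((8 * (q ^ 4) ^ (k - i) : ℕ) : ℝ) * trn (2 * π * β) ξ) ≤ 1 - 1 / (q : ℝ))) :
    1 ≤ Hs k q β ξ := by
  obtain ⟨i, hi, hbad⟩ := h
  rw [trn_eq, fract_nat_mul_fract] at hbad
  have h1 : g q (((8 * (q ^ 4) ^ (k - i) : ℕ) : ℝ) * (tu ξ - β)) = 1 := by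
    unfold g
    rw [Set.indicator_of_mem (by exact hbad)]
    rfl
  rw [← h1]
  exact Finset.single_le_sum (f := fun i =>
    g q (((8 * (q ^ 4) ^ (k - i) : ℕ) : ℝ) * (tu ξ - β))) (fun _ _ => g_nonneg q _)
    (Finset.mem_range.mpr (Nat.lt_succ_of_le hi))

theorem integral_Hs_le (k q : ℕ) (hq : 4 ≤ q) (ξ : V2) :
    ∫ β in Set.Ioc (0 : ℝ) 1, Hs k q β ξ ≤ 2 * (k + 1) / q := by
  have hq0 : 0 < q := by omega
  rw [← intervalIntegral.integral_of_le zero_le_one]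
  unfold Hs
  rw [intervalIntegral.integral_finsetSum]
  · refine (Finset.sum_le_sum fun i _ => integral_g_comp q hq (8 * (q ^ 4) ^ (k - i))
      (by positivity) (tu ξ)).trans ?_
    rw [Finset.sum_const, Finset.card_range, nsmul_eq_mul]
    push_cast
    apply le_of_eq
    ring
  · intro i _
    rw [intervalIntegrable_iff]
    refine Measure.integrableOn_of_bounded (M := 1) measure_Ioc_lt_top.ne ?_ ?_
    · refine ((measurable_g q).comp (measurable_const.mul ?_)).aestronglyMeasurable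
      exact measurable_const.sub measurable_id
    · refine ae_of_all _ fun u => ?_
      rw [Real.norm_eq_abs, abs_of_nonneg (g_nonneg q _)]
      exact g_le_one q _

theorem integrable_Hs_mul (k q : ℕ) {F : V2 → ℂ} (h2 : MemLp F 2) (β : ℝ) :
    Integrable fun ξ : V2 => Hs k q β ξ * ‖F ξ‖ ^ 2 := by
  have hI : Integrable (fun ξ => ‖F ξ‖ ^ 2) := h2.integrable_norm_pow (by norm_num)
  have hmeas : Measurable fun ξ : V2 => Hs k q β ξ :=
    (measurable_Hs k q).of_uncurry_left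
  refine hI.bdd_mul (c := (k : ℝ) + 1) hmeas.aestronglyMeasurable ?_
  refine ae_of_all _ fun z => ?_
  rw [Real.norm_eq_abs, abs_of_nonneg (Hs_nonneg k q _ _)]
  exact Hs_le k q _ _

theorem integrable_prod (k q : ℕ) {F : V2 → ℂ} (h2 : MemLp F 2) :
    Integrable (Function.uncurry fun β ξ => Hs k q β ξ * ‖F ξ‖ ^ 2)
      ((volume.restrict (Set.Ioc (0 : ℝ) 1)).prod volume) := by
  have hI : Integrable (fun ξ => ‖F ξ‖ ^ 2) := h2.integrable_norm_pow (by norm_num)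
  have h1 : Integrable (fun z : ℝ × V2 => ‖F z.2‖ ^ 2)
      ((volume.restrict (Set.Ioc (0 : ℝ) 1)).prod volume) := hI.comp_snd _
  have h3 : (Function.uncurry fun β ξ => Hs k q β ξ * ‖F ξ‖ ^ 2)
      = fun z : ℝ × V2 => Function.uncurry (Hs k q) z * ‖F z.2‖ ^ 2 := rfl
  rw [h3]
  refine h1.bdd_mul (c := (k : ℝ) + 1) (measurable_Hs k q).aestronglyMeasurable ?_
  refine ae_of_all _ fun z => ?_
  show ‖Hs k q z.1 z.2‖ ≤ _
  rw [Real.norm_eq_abs, abs_of_nonneg (Hs_nonneg k q _ _)]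
  exact Hs_le k q _ _

theorem exists_good (k q : ℕ) (hq : 4 ≤ q) {F : V2 → ℂ} (h2 : MemLp F 2) : ∃ β : ℝ,
    ∫ ξ, Hs k q β ξ * ‖F ξ‖ ^ 2 ≤ 2 * (k + 1) / q * ∫ ξ, ‖F ξ‖ ^ 2 := by
  have hI : Integrable (fun ξ => ‖F ξ‖ ^ 2) := h2.integrable_norm_pow (by norm_num)
  have hprob : IsProbabilityMeasure (volume.restrict (Set.Ioc (0 : ℝ) 1)) := by
    constructor
    rw [Measure.restrict_apply_univ, Real.volume_Ioc]
    simp
  have hprod := integrable_prod k q h2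
  obtain ⟨β, hβ⟩ := exists_le_integral (μ := volume.restrict (Set.Ioc (0 : ℝ) 1))
    hprod.integral_prod_left
  refine ⟨β, ?_⟩
  have h4 : ∫ ξ, Hs k q β ξ * ‖F ξ‖ ^ 2
      ≤ ∫ b in Set.Ioc (0 : ℝ) 1, (∫ ξ, Hs k q b ξ * ‖F ξ‖ ^ 2) := hβ
  have h5 : ∫ b in Set.Ioc (0 : ℝ) 1, (∫ ξ, Hs k q b ξ * ‖F ξ‖ ^ 2)
      = ∫ ξ, (∫ b in Set.Ioc (0 : ℝ) 1, Hs k q b ξ * ‖F ξ‖ ^ 2) := integral_integral_swap hprod
  rw [h5] at h4
  refine h4.trans ?_
  rw [← integral_const_mul]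
  refine integral_mono_ae hprod.integral_prod_right (hI.const_mul _) (ae_of_all _ fun ξ => ?_)
  show ∫ b in Set.Ioc (0 : ℝ) 1, Hs k q b ξ * ‖F ξ‖ ^ 2 ≤ 2 * (k + 1) / q * ‖F ξ‖ ^ 2
  rw [integral_mul_const]
  exact mul_le_mul_of_nonneg_right (integral_Hs_le k q hq ξ) (by positivity)

end GapAux

open GapAux in
/-- A good rotation of the grid. -/
theorem exists_gap (k q : ℕ) (hk : 1 ≤ k) (hq : 4 ≤ q) {F : V2 → ℂ} (hF : Measurable F)
    (h2 : MemLp F 2) : ∃ α : ℝ,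
      ∫ ξ in {ξ : V2 | ∃ i ≤ k, ¬ (1 / (q : ℝ) ≤
          Int.fract (((8 * (q ^ 4) ^ (k - i) : ℕ) : ℝ) * trn α ξ) ∧
          Int.fract (((8 * (q ^ 4) ^ (k - i) : ℕ) : ℝ) * trn α ξ) ≤ 1 - 1 / (q : ℝ))},
        ‖F ξ‖ ^ 2 ≤ 2 * (k + 1) / q * ∫ ξ, ‖F ξ‖ ^ 2 := by
  have _ := hk
  have _ := hF
  have hI : Integrable (fun ξ => ‖F ξ‖ ^ 2) := h2.integrable_norm_pow (by norm_num)
  obtain ⟨β, hβ⟩ := exists_good k q hq h2
  refine ⟨2 * π * β, ?_⟩
  have hint := integrable_Hs_mul k q h2 β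
  have hm := measurableSet_exists k q (2 * π * β)
  refine le_trans ?_ hβ
  refine le_trans (setIntegral_mono_on hI.integrableOn hint.integrableOn hm
    fun ξ hξ => ?_) (setIntegral_le_integral hint (ae_of_all _ fun ξ => ?_))
  · have h1 : 1 ≤ Hs k q β ξ := one_le_Hs k q β ξ hξ
    show ‖F ξ‖ ^ 2 ≤ Hs k q β ξ * ‖F ξ‖ ^ 2
    exact le_mul_of_one_le_left (by positivity) h1
  · exact mul_nonneg (Hs_nonneg k q _ _) (by positivity)

end REPS
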