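import Pool.Agent.REPS.Piece
import Pool.Agent.REPS.Cut
import Pool.Agent.REPS.Dom2

/-!
# ROW TAIL (helper43): most of the mass is above any small threshold
-/

open MeasureTheory Filter Topology Real Metric FourierTransform
open scoped ENNReal NNReal InnerProductSpace Pointwise Convolution

namespace REPS

open Helper77.TA

namespace Tail

/-! ### The smooth localisation -/

/-- The indicator of a ball. -/
noncomputable def ind (b0 : V2) (r : ℝ) : V2 → ℝ := (closedBall b0 r).indicator (fun _ => (1 : ℝ))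

/-- The smoothed indicator of a ball. -/
noncomputable def ph (K : Ker) (B : ℝ) (b0 : V2) (r : ℝ) (x : V2) : ℝ :=
  ∫ z, ind b0 r z * scl K.Ψ B B 0 (x - z)

variable {K : Ker} {B : ℝ} {b0 : V2} {r : ℝ}

theorem ind_int (b0 : V2) (r : ℝ) : Integrable (ind b0 r) :=
  (integrable_indicator_iff measurableSet_closedBall).2
    (integrableOn_const (measure_closedBall_lt_top).ne)

theorem ind_meas (b0 : V2) (r : ℝ) : Measurable (ind b0 r) :=
  measurable_const.indicator measurableSet_closedBall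

theorem ind_nonneg (b0 : V2) (r : ℝ) (z : V2) :
    0 ≤ ind b0 r z :=
  Set.indicator_nonneg (fun _ _ => zero_le_one) z

theorem ind_le_one (b0 : V2) (r : ℝ) (z : V2) :
    ind b0 r z ≤ 1 :=
  Set.indicator_le_self' (fun _ _ => zero_le_one) z

theorem scl_int (K : Ker) (hB : 0 < B) : Integrable (scl K.Ψ B B 0) := by
  by_contra h
  have := Par.scl_oneC K hB hB 0
  rw [integral_undef h] at this
  exact zero_ne_one this

theorem ph_eq (x : V2) : ph K B b0 r x =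
    ∫ z, ind b0 r (x - z) * scl K.Ψ B B 0 z := by
  rw [ph, ← integral_sub_left_eq_self
    (fun z => ind b0 r z * scl K.Ψ B B 0 (x - z)) volume x]
  simp only [sub_sub_cancel]

theorem ph_nonneg (hB : 0 < B) (x : V2) : 0 ≤ ph K B b0 r x :=
  integral_nonneg fun z => mul_nonneg (ind_nonneg b0 r z) (Par.scl_nonnegC K hB hB 0 _)

theorem int1 (hB : 0 < B) (x : V2) : Integrable fun z =>
    ind b0 r (x - z) * scl K.Ψ B B 0 z := by
  refine (scl_int K hB).bdd_mul (c := 1) ((ind_meas b0 r).comp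
    (measurable_const.sub measurable_id)).aestronglyMeasurable (Eventually.of_forall fun z => ?_)
  rw [Real.norm_of_nonneg (ind_nonneg b0 r _)]
  exact ind_le_one b0 r _

theorem ph_conv : ph K B b0 r =
    ind b0 r ⋆[ContinuousLinearMap.mul ℝ ℝ]
      scl K.Ψ B B 0 := by
  ext x
  rw [convolution_def]
  rfl

theorem ph_int (hB : 0 < B) : Integrable (ph K B b0 r) := by
  rw [ph_conv]
  exact (ind_int b0 r).integrable_convolution _ (scl_int K hB)

theorem ph_integral (hB : 0 < B) (hr : 0 ≤ r) : ∫ x, ph K B b0 r x = π * r ^ 2 := by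
  rw [ph_conv, integral_convolution _ (ind_int b0 r) (scl_int K hB), Par.scl_oneC K hB hB 0]
  simp only [ContinuousLinearMap.mul_apply', mul_one]
  rw [ind, integral_indicator_const _ measurableSet_closedBall, smul_eq_mul, mul_one,
    Measure.real, EuclideanSpace.volume_closedBall_fin_two, ENNReal.toReal_mul,
    ENNReal.toReal_pow, ENNReal.toReal_ofReal hr, ENNReal.toReal_ofReal Real.pi_pos.le]
  ring

theorem ph_le_one (hB : 0 < B) (x : V2) : ph K B b0 r x ≤ 1 := by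
  rw [ph_eq, ← Par.scl_oneC K hB hB 0]
  refine integral_mono (int1 hB x) (scl_int K hB) fun z => ?_
  have := mul_le_mul_of_nonneg_right (ind_le_one b0 r (x - z)) (Par.scl_nonnegC K hB hB 0 z)
  rwa [one_mul] at this

theorem moment (K : Ker) (hB : 0 < B) :
    Integrable (fun z => (1 + (B * ‖z‖) ^ 2) * scl K.Ψ B B 0 z) ∧
      ∫ z, (1 + (B * ‖z‖) ^ 2) * scl K.Ψ B B 0 z ≤ Par.MKC K := by
  refine Par.ker_momentC K hB hB 0 (N := fun z => B * ‖z‖) (by fun_prop) fun x => ?_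
  rw [Par.frm_norm_sqC, mul_pow, norm_sq_frame 0 x]
  nlinarith [sq_nonneg (B * ⟪x, dir 0⟫_ℝ), sq_nonneg (B * ⟪x, nrm 0⟫_ℝ)]

/-- The complement of the smoothed indicator. -/
theorem one_sub_ph (hB : 0 < B) (hr : 0 < r) (x : V2) :
    1 - ph K B b0 r x ≤ 4 / r ^ 2 * ‖x - b0‖ ^ 2 + 4 * Par.MKC K / (B * r) ^ 2 := by
  have hM := Par.MK_oneC K
  rcases le_or_gt (r / 2) ‖x - b0‖ with h | h
  · have h1 := ph_nonneg (K := K) (b0 := b0) (r := r) hB x
    have h2 : 1 ≤ 4 / r ^ 2 * ‖x - b0‖ ^ 2 := by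
      rw [div_mul_eq_mul_div, le_div_iff₀ (by positivity)]
      nlinarith
    have h3 : 0 ≤ 4 * Par.MKC K / (B * r) ^ 2 := by positivity
    linarith
  · obtain ⟨m1, m2⟩ := moment K hB
    have e1 : 1 - ph K B b0 r x = ∫ z, (1 - ind b0 r
        (x - z)) * scl K.Ψ B B 0 z := by
      have e0 := integral_sub (scl_int K hB) (int1 (K := K) (b0 := b0) (r := r) hB x)
      rw [Par.scl_oneC K hB hB 0] at e0
      rw [ph_eq, ← e0]
      refine integral_congr_ae (Eventually.of_forall fun z => ?_)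
      simp only
      ring
    have h2 : ∫ z, (1 - ind b0 r (x - z)) *
        scl K.Ψ B B 0 z ≤ ∫ z, 4 / (B * r) ^ 2 * ((1 + (B * ‖z‖) ^ 2) * scl K.Ψ B B 0 z) := by
      refine integral_mono_of_nonneg (Eventually.of_forall fun z => ?_) (m1.const_mul _)
        (Eventually.of_forall fun z => ?_)
      · have := ind_le_one b0 r (x - z)
        exact mul_nonneg (by linarith) (Par.scl_nonnegC K hB hB 0 _)
      · simp only
        rw [← mul_assoc]
        refine mul_le_mul_of_nonneg_right ?_ (Par.scl_nonnegC K hB hB 0 _)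
        by_cases hz : x - z ∈ closedBall b0 r
        · rw [ind, Set.indicator_of_mem hz, sub_self]
          positivity
        · rw [ind, Set.indicator_of_notMem hz, sub_zero]
          rw [mem_closedBall, dist_eq_norm, not_le] at hz
          have h3 : ‖x - z - b0‖ ≤ ‖x - b0‖ + ‖z‖ := by
            have : x - z - b0 = (x - b0) - z := by abel
            rw [this]
            exact norm_sub_le _ _
          have h4 : r / 2 < ‖z‖ := by linarith
          rw [div_mul_eq_mul_div, le_div_iff₀ (by positivity)]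
          have h5 : B * (r / 2) ≤ B * ‖z‖ := by gcongr
          have h6 : (B * (r / 2)) ^ 2 ≤ (B * ‖z‖) ^ 2 := by gcongr
          nlinarith
    rw [e1]
    refine h2.trans ?_
    rw [integral_const_mul]
    have h7 : 4 / (B * r) ^ 2 * ∫ z, (1 + (B * ‖z‖) ^ 2) * scl K.Ψ B B 0 z ≤
        4 / (B * r) ^ 2 * Par.MKC K := by gcongr
    refine h7.trans ?_
    have h8 : 0 ≤ 4 / r ^ 2 * ‖x - b0‖ ^ 2 := by positivity
    have e8 : 4 / (B * r) ^ 2 * Par.MKC K = 4 * Par.MKC K / (B * r) ^ 2 := by ring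
    linarith

theorem ph_band (hB : 0 < B) : Band (fun x => ((ph K B b0 r x : ℝ) : ℂ))
    (closedBall 0 (8 * B)) := by
  obtain ⟨p, hp, hpc, hpb, hpi⟩ := scl_spec K.hp K.hsupp K.hΨ hB hB 0
  have h1 := band_conv hp hpc (ind_meas b0 r) (ind_int b0 r)
  have e1 : (fun x => ((ph K B b0 r x : ℝ) : ℂ)) = fun x =>
      ∫ z, ((ind b0 r z : ℝ) : ℂ) * 𝓕⁻ p (x - z) := by
    ext x
    rw [ph, ← integral_complex_ofReal]
    refine integral_congr_ae (Eventually.of_forall fun z => ?_)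
    simp only
    rw [hpi]
    push_cast
    ring
  rw [e1]
  refine h1.mono fun ξ hξ => ?_
  obtain ⟨h2, h3⟩ := hpb ξ hξ
  rw [mem_closedBall, dist_zero_right]
  have h4 := norm_sq_frame 0 ξ
  have h5 : ⟪ξ, dir 0⟫_ℝ ^ 2 ≤ B ^ 2 := sq_le_sq' (abs_le.1 h2).1 (abs_le.1 h2).2
  have h6 : ⟪ξ, nrm 0⟫_ℝ ^ 2 ≤ B ^ 2 := sq_le_sq' (abs_le.1 h3).1 (abs_le.1 h3).2
  refine abs_le_of_sq_le_sq' ?_ (by positivity) |>.2
  nlinarith

/-! ### The sharp square function is bounded by the smooth one -/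

variable {P : Par} {G : V2 → ℂ}

theorem gp_le (hG : P.Good G) (κ : ℕ) (x : V2) :
    ‖P.gp G 0 κ x‖ ^ 2 ≤ Real.exp (4 * π + 2 * π ^ 2) * (P.q : ℝ) ^ 17 * P.Sb G κ x := by
  have hsq := P.sqrtR_pos
  have hH := P.hH
  have hi := Dom2.int_piece hG 0 κ
  have hA := P.A_ge_one
  have hq4 : (4 : ℝ) ≤ P.q := by exact_mod_cast P.hq4
  have k1 := shift_two hi (norm_dir (P.cen 0 κ)) (norm_nrm (P.cen 0 κ)) (a := P.R - 1)
    (h := P.H + 1) (s := 0) (y := 1 / P.H) (a' := -(π / 2 * √P.R)) (h' := π * √P.R) (s' := 0)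
    (y' := 1 / √P.R) (by linarith) (by simp; linarith) (by positivity) (by positivity)
    (by simp) (by positivity) (fun ξ hξ => Dom2.supp_piece hG hξ) x
  simp only [zero_smul, add_zero, inner_zero_right, mul_zero, Real.exp_zero, Complex.ofReal_one,
      one_mul, zero_mul, zero_add] at k1
  have k2 := (P.dom_nice hG 0 κ).pav2_le (y := 1 / P.H) (y' := 1 / √P.R) (z := P.A)
    (z' := P.A / √P.R) (by positivity) (by positivity) ?_ ?_ (dir (P.cen 0 κ))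
    (nrm (P.cen 0 κ)) x
  · have e1 : P.A / (1 / P.H) * (P.A / √P.R / (1 / √P.R)) = P.A ^ 2 * P.H := by
      field_simp
    rw [e1] at k2
    refine k1.trans ?_
    have h1 : Real.exp (2 * π * (1 / P.H) * (P.H + 1) + 2 * π * (1 / √P.R) * (π * √P.R)) ≤
        Real.exp (4 * π + 2 * π ^ 2) := by
      refine Real.exp_le_exp.2 ?_
      have hπ := Real.pi_pos
      have e2 : 2 * π * (1 / P.H) * (P.H + 1) = 2 * π + 2 * π * (1 / P.H) := by
        field_simp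
      have e3 : 2 * π * (1 / √P.R) * (π * √P.R) = 2 * π ^ 2 := by
        field_simp
      have h2 : 1 / P.H ≤ 1 := by
        rw [div_le_one (by linarith)]
        exact hH
      rw [e2, e3]
      nlinarith
    have hS : 0 ≤ P.Sb G κ x := (P.dens_basic hG κ).2.1 x
    have h3 : P.A ^ 2 * P.H ≤ (P.q : ℝ) ^ 17 := by
      have h4 := P.hqH
      have e4 : (P.q : ℝ) ^ 17 = P.A ^ 2 * P.q := by
        unfold Par.A
        ring
      rw [e4]
      have : P.H ≤ P.q := by linarith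
      gcongr
    have h5 : 0 ≤ pav (1 / P.H) (dir (P.cen 0 κ)) (pav (1 / √P.R) (nrm (P.cen 0 κ))
        fun z => ‖𝓕⁻ (P.piece G 0 κ) z‖ ^ 2) x :=
      av_nonneg (fun x => av_nonneg (fun z => sq_nonneg _) (by positivity) _ _) (by positivity) _ _
    calc _ ≤ Real.exp (4 * π + 2 * π ^ 2) * (P.A ^ 2 * P.H * P.Sb G κ x) := by
          refine mul_le_mul h1 k2 h5 (Real.exp_pos _).le
      _ ≤ Real.exp (4 * π + 2 * π ^ 2) * ((P.q : ℝ) ^ 17 * P.Sb G κ x) := by gcongr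
      _ = _ := by ring
  · refine le_trans ?_ hA
    rw [div_le_one (by linarith)]
    exact hH
  · gcongr

theorem D1_le (hG : P.Good G) (x : V2) :
    P.D1 G x ≤ Real.exp (4 * π + 2 * π ^ 2) * (P.q : ℝ) ^ 17 * P.St G x := by
  unfold Par.D1 Par.St
  rw [Finset.mul_sum]
  exact Finset.sum_le_sum fun κ _ => gp_le hG κ x

theorem D1_int (hG : P.Good G) : Integrable (P.D1 G) ∧
    ∫ x, P.D1 G x = ∑ κ ∈ Finset.range (P.M 0), ∫ x, ‖P.gp G 0 κ x‖ ^ 2 := by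
  have h : ∀ κ ∈ Finset.range (P.M 0), Integrable fun x => ‖P.gp G 0 κ x‖ ^ 2 := fun κ _ =>
    (P.dom_nice hG 0 κ).int
  exact ⟨integrable_finsetSum _ h, integral_finsetSum _ h⟩

theorem D1_nonneg (P : Par) (G : V2 → ℂ) (x : V2) : 0 ≤ P.D1 G x :=
  Finset.sum_nonneg fun _ _ => sq_nonneg _

/-- The mass of the gapped part. -/
theorem mass_pair {F : V2 → ℂ} (hP : P.Pair F G) :
    ∫ ξ, ‖G ξ‖ ^ 2 = 1 - ∫ ξ, ‖F ξ - G ξ‖ ^ 2 := by
  have hG := Par.Pair.good P hP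
  have hF2 : Integrable fun ξ => ‖F ξ‖ ^ 2 :=
    (memLp_two_iff_integrable_sq_norm hP.meas.aestronglyMeasurable).1 hP.lp
  have hFG : MemLp (fun ξ => F ξ - G ξ) 2 := hP.lp.sub hG.lp
  have hFG2 : Integrable fun ξ => ‖F ξ - G ξ‖ ^ 2 :=
    (memLp_two_iff_integrable_sq_norm hFG.aestronglyMeasurable).1 hFG
  have e : ∀ ξ, ‖G ξ‖ ^ 2 = ‖F ξ‖ ^ 2 - ‖F ξ - G ξ‖ ^ 2 := by
    intro ξ
    rw [hP.eq]
    by_cases h : ξ ∈ P.gapSet
    · rw [Set.indicator_of_mem h]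
      simp
    · rw [Set.indicator_of_notMem h]
      simp
  rw [← hP.one, ← integral_sub hF2 hFG2]
  exact integral_congr_ae (Eventually.of_forall e)

end Tail

namespace Par

open Tail

theorem tail_mass (K : Ker) (C0 : ℝ) : ∃ q0 : ℕ, ∀ P : Par, q0 ≤ P.q → ∀ F G, P.Pair F G →
    ∀ b0 : V2, Integrable (fun x => ‖x - b0‖ ^ 2 * ‖𝓕⁻ F x‖ ^ 2) →
    ∫ x, ‖x - b0‖ ^ 2 * ‖𝓕⁻ F x‖ ^ 2 ≤ C0 → ∀ s : ℝ, 0 < s → s ≤ ((P.q : ℝ) ^ 30)⁻¹ →
    16 * (P.k + 1) ≤ P.q → 1 / 2 ≤ ∫ x in {x | s ≤ P.St G x}, P.D1 G x := by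
  set C1 : ℝ := Real.exp (4 * π + 2 * π ^ 2) with hC1
  have hC1p : 0 < C1 := Real.exp_pos _
  have hM := MK_oneC K
  obtain ⟨q0, hq0⟩ := exists_nat_ge (256 * |C0| + 256 * MKC K + 128 * C1)
  refine ⟨q0, ?_⟩
  intro P hPq F G hP b0 hmi hm s hs hsq hk
  have hG := Pair.good P hP
  have hq4 : (4 : ℝ) ≤ P.q := by exact_mod_cast P.hq4
  have hq1 : (1 : ℝ) ≤ P.q := by linarith
  have hqq : 256 * |C0| + 256 * MKC K + 128 * C1 ≤ P.q :=
    hq0.trans (by exact_mod_cast hPq)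
  have hB := P.B_posC
  set r : ℝ := (P.q : ℝ) ^ 5 with hr
  have hr0 : 0 < r := by positivity
  set φ := ph K P.B b0 r with hφ
  have hφ0 : ∀ x, 0 ≤ φ x := fun x => ph_nonneg hB x
  have hφ1 : ∀ x, φ x ≤ 1 := fun x => ph_le_one hB x
  have hφi : Integrable φ := ph_int hB
  have hφm := hφi.aestronglyMeasurable
  obtain ⟨hDi, hDe⟩ := D1_int hG
  have hD0 := D1_nonneg P G
  set d := ∫ ξ, ‖F ξ - G ξ‖ ^ 2 with hd
  have hd8 : d ≤ 1 / 8 := by
    refine hP.gap.trans ?_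
    have : (16 : ℝ) * (P.k + 1) ≤ P.q := by exact_mod_cast hk
    rw [div_le_div_iff₀ (by linarith) (by norm_num)]
    linarith
  have hd0 : 0 ≤ d := integral_nonneg fun _ => sq_nonneg _
  have hDt : ∫ x, P.D1 G x = 1 - d := by
    rw [hDe, sum_sq P hG, mass_pair hP]
  -- the integral outside the ball
  have hWm : AEStronglyMeasurable (fun x => 1 - φ x) volume := aestronglyMeasurable_const.sub hφm
  have hWb : ∀ x, ‖1 - φ x‖ ≤ 1 := fun x => by
    rw [Real.norm_eq_abs, abs_le]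
    constructor <;> linarith [hφ0 x, hφ1 x]
  have hφb : ∀ x, ‖φ x‖ ≤ 1 := fun x => by
    rw [Real.norm_of_nonneg (hφ0 x)]
    exact hφ1 x
  have hWD : Integrable fun x => (1 - φ x) * P.D1 G x :=
    hDi.bdd_mul (c := 1) hWm (Eventually.of_forall hWb)
  have hφD : Integrable fun x => φ x * P.D1 G x :=
    hDi.bdd_mul (c := 1) hφm (Eventually.of_forall hφb)
  have hfi : Integrable fun x => ‖𝓕⁻ F x‖ ^ 2 :=
    (memLp_two_iff_integrable_sq_norm (continuous_fourierInv hP.int).aestronglyMeasurable).1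
      (Helper77.TA.memLp_fourierInv hP.int hP.lp)
  have hgi : Integrable fun x => ‖𝓕⁻ G x‖ ^ 2 :=
    (memLp_two_iff_integrable_sq_norm (continuous_fourierInv hG.int).aestronglyMeasurable).1
      (Helper77.TA.memLp_fourierInv hG.int hG.lp)
  have hDF : Integrable fun ξ => G ξ - F ξ := hG.int.sub hP.int
  have hDF2 : MemLp (fun ξ => G ξ - F ξ) 2 := hG.lp.sub hP.lp
  have hei : Integrable fun x => ‖𝓕⁻ (fun ξ => G ξ - F ξ) x‖ ^ 2 :=
    (memLp_two_iff_integrable_sq_norm (continuous_fourierInv hDF).aestronglyMeasurable).1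
      (Helper77.TA.memLp_fourierInv hDF hDF2)
  have hde : ∫ x, ‖𝓕⁻ (fun ξ => G ξ - F ξ) x‖ ^ 2 = d := by
    rw [band_plancherel hDF hDF2, hd]
    refine integral_congr_ae (Eventually.of_forall fun ξ => ?_)
    simp only
    rw [norm_sub_rev]
  have hf1 : ∫ x, ‖𝓕⁻ F x‖ ^ 2 = 1 := by
    rw [band_plancherel hP.int hP.lp, hP.one]
  have hWD1 : ∫ x, (1 - φ x) * P.D1 G x = ∫ x, (1 - φ x) * ‖𝓕⁻ G x‖ ^ 2 := by
    symm
    refine local_orth' P hG (W := fun x => 1 - φ x) 1 ?_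
    have h1 := (ph_band (K := K) (b0 := b0) (r := r) hB).smul (-1)
    have e : (fun x => ((1 - φ x - 1 : ℝ) : ℂ)) = fun x => (-1 : ℂ) *
        ((ph K P.B b0 r x : ℝ) : ℂ) := by
      ext x
      rw [hφ]
      push_cast
      ring
    rw [e]
    exact h1
  have hpt : ∀ x, ‖𝓕⁻ G x‖ ^ 2 ≤ 2 * ‖𝓕⁻ F x‖ ^ 2 + 2 * ‖𝓕⁻ (fun ξ => G ξ - F ξ) x‖ ^ 2 := by
    intro x
    have e : 𝓕⁻ G x = 𝓕⁻ F x + 𝓕⁻ (fun ξ => G ξ - F ξ) x := by
      have h0 := congrFun (fourierInv_add' hP.int hDF) x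
      have e0 : (fun ξ => F ξ + (G ξ - F ξ)) = G := by
        funext ξ
        ring
      rw [e0] at h0
      exact h0
    rw [e]
    have h1 := norm_add_le (𝓕⁻ F x) (𝓕⁻ (fun ξ => G ξ - F ξ) x)
    have h2 := pow_le_pow_left₀ (norm_nonneg _) h1 2
    nlinarith [sq_nonneg (‖𝓕⁻ F x‖ - ‖𝓕⁻ (fun ξ => G ξ - F ξ) x‖)]
  set a := 4 / r ^ 2 with ha
  set c := 4 * MKC K / (P.B * r) ^ 2 with hc
  have hbnd : ∀ x, (1 - φ x) * ‖𝓕⁻ G x‖ ^ 2 ≤ 2 * (a * (‖x - b0‖ ^ 2 * ‖𝓕⁻ F x‖ ^ 2)) +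
      2 * (c * ‖𝓕⁻ F x‖ ^ 2) + 2 * ‖𝓕⁻ (fun ξ => G ξ - F ξ) x‖ ^ 2 := by
    intro x
    have h1 : 1 - φ x ≤ a * ‖x - b0‖ ^ 2 + c := one_sub_ph hB hr0 x
    have h2 : 0 ≤ 1 - φ x := by linarith [hφ1 x]
    have h3 : (1 - φ x) * ‖𝓕⁻ G x‖ ^ 2 ≤ (1 - φ x) * (2 * ‖𝓕⁻ F x‖ ^ 2 +
        2 * ‖𝓕⁻ (fun ξ => G ξ - F ξ) x‖ ^ 2) := mul_le_mul_of_nonneg_left (hpt x) h2
    have h4 : (1 - φ x) * ‖𝓕⁻ F x‖ ^ 2 ≤ (a * ‖x - b0‖ ^ 2 + c) * ‖𝓕⁻ F x‖ ^ 2 :=
      mul_le_mul_of_nonneg_right h1 (sq_nonneg _)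
    have h5 : (1 - φ x) * ‖𝓕⁻ (fun ξ => G ξ - F ξ) x‖ ^ 2 ≤
        1 * ‖𝓕⁻ (fun ξ => G ξ - F ξ) x‖ ^ 2 :=
      mul_le_mul_of_nonneg_right (by linarith [hφ0 x]) (sq_nonneg _)
    nlinarith
  have hW : ∫ x, (1 - φ x) * P.D1 G x ≤ 2 * (a * C0) + 2 * c + 2 * d := by
    rw [hWD1]
    have i1 := (hmi.const_mul a).const_mul 2
    have i2 := (hfi.const_mul c).const_mul 2
    have i3 := hei.const_mul 2
    have h1 : ∫ x, (1 - φ x) * ‖𝓕⁻ G x‖ ^ 2 ≤ ∫ x, (2 * (a * (‖x - b0‖ ^ 2 * ‖𝓕⁻ F x‖ ^ 2)) +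
      2 * (c * ‖𝓕⁻ F x‖ ^ 2) + 2 * ‖𝓕⁻ (fun ξ => G ξ - F ξ) x‖ ^ 2) :=
      integral_mono (hgi.bdd_mul (c := 1) hWm (Eventually.of_forall hWb)) ((i1.add i2).add i3)
        hbnd
    refine h1.trans ?_
    have e1 : ∫ x, (2 * (a * (‖x - b0‖ ^ 2 * ‖𝓕⁻ F x‖ ^ 2)) +
      2 * (c * ‖𝓕⁻ F x‖ ^ 2) + 2 * ‖𝓕⁻ (fun ξ => G ξ - F ξ) x‖ ^ 2) =
      2 * (a * ∫ x, ‖x - b0‖ ^ 2 * ‖𝓕⁻ F x‖ ^ 2) + 2 * (c * ∫ x, ‖𝓕⁻ F x‖ ^ 2) +
        2 * ∫ x, ‖𝓕⁻ (fun ξ => G ξ - F ξ) x‖ ^ 2 := by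
      rw [integral_add (f := fun x => 2 * (a * (‖x - b0‖ ^ 2 * ‖𝓕⁻ F x‖ ^ 2)) +
        2 * (c * ‖𝓕⁻ F x‖ ^ 2)) (i1.add i2) i3, integral_add i1 i2]
      simp only [integral_const_mul]
    rw [e1, hf1, hde]
    have ha0 : 0 ≤ a := by positivity
    have := mul_le_mul_of_nonneg_left hm ha0
    linarith
  -- the part of the ball
  set U : Set V2 := {x | P.St G x < s} with hU
  have hUm : MeasurableSet U := measurableSet_lt (P.St_contC hG).measurable measurable_const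
  have hUc : {x | s ≤ P.St G x} = Uᶜ := by
    ext x
    simp [hU]
  have hin : ∫ x in U, φ x * P.D1 G x ≤ C1 * (P.q : ℝ) ^ 17 * s * (π * r ^ 2) := by
    have h1 : ∫ x in U, φ x * P.D1 G x ≤ ∫ x in U, C1 * (P.q : ℝ) ^ 17 * s * φ x := by
      refine setIntegral_mono_on hφD.integrableOn (hφi.const_mul _).integrableOn hUm
        fun x hx => ?_
      have h2 := D1_le hG x
      have h3 : P.St G x ≤ s := le_of_lt hx
      have h4 : P.D1 G x ≤ C1 * (P.q : ℝ) ^ 17 * s :=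
        h2.trans (mul_le_mul_of_nonneg_left h3 (by positivity))
      calc φ x * P.D1 G x ≤ φ x * (C1 * (P.q : ℝ) ^ 17 * s) :=
            mul_le_mul_of_nonneg_left h4 (hφ0 x)
        _ = _ := by ring
    refine h1.trans ?_
    have h5 : ∫ x in U, C1 * (P.q : ℝ) ^ 17 * s * φ x ≤ ∫ x, C1 * (P.q : ℝ) ^ 17 * s * φ x :=
      setIntegral_le_integral (hφi.const_mul _) (Eventually.of_forall fun x =>
        mul_nonneg (by positivity) (hφ0 x))
    refine h5.trans (le_of_eq ?_)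
    rw [integral_const_mul, hφ, ph_integral hB hr0.le]
  have hUD : ∫ x in U, P.D1 G x ≤ C1 * (P.q : ℝ) ^ 17 * s * (π * r ^ 2) +
      (2 * (a * C0) + 2 * c + 2 * d) := by
    have e1 : ∫ x in U, P.D1 G x =
        (∫ x in U, φ x * P.D1 G x) + ∫ x in U, (1 - φ x) * P.D1 G x := by
      rw [← integral_add hφD.integrableOn hWD.integrableOn]
      refine integral_congr_ae (Eventually.of_forall fun x => ?_)
      simp only
      ring
    have h2 : ∫ x in U, (1 - φ x) * P.D1 G x ≤ ∫ x, (1 - φ x) * P.D1 G x :=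
      setIntegral_le_integral hWD (Eventually.of_forall fun x =>
        mul_nonneg (by linarith [hφ1 x]) (hD0 x))
    rw [e1]
    linarith
  have hfin : ∫ x in {x | s ≤ P.St G x}, P.D1 G x = (1 - d) - ∫ x in U, P.D1 G x := by
    rw [hUc, ← hDt, ← integral_add_compl hUm hDi]
    ring
  rw [hfin]
  -- the constants
  have n1 : C1 * (P.q : ℝ) ^ 17 * s * (π * r ^ 2) ≤ 1 / 32 := by
    have h1 : C1 * (P.q : ℝ) ^ 17 * s * (π * r ^ 2) ≤
        C1 * (P.q : ℝ) ^ 17 * ((P.q : ℝ) ^ 30)⁻¹ * (4 * r ^ 2) := by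
      have := Real.pi_le_four
      gcongr
    refine h1.trans ?_
    have e : C1 * (P.q : ℝ) ^ 17 * ((P.q : ℝ) ^ 30)⁻¹ * (4 * r ^ 2) = 4 * C1 / (P.q : ℝ) ^ 3 := by
      rw [hr]
      field_simp
    rw [e, div_le_iff₀ (by positivity)]
    have h2 : (P.q : ℝ) ≤ (P.q : ℝ) ^ 3 := by
      calc (P.q : ℝ) = (P.q : ℝ) ^ 1 := (pow_one _).symm
        _ ≤ _ := pow_le_pow_right₀ hq1 (by norm_num)
    have h3 := abs_nonneg C0
    linarith
  have n2 : 2 * (a * C0) ≤ 1 / 32 := by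
    have h1 : 2 * (a * C0) ≤ 2 * (a * |C0|) := by
      have : 0 ≤ a := by positivity
      have := le_abs_self C0
      gcongr
    refine h1.trans ?_
    have e : 2 * (a * |C0|) = 8 * |C0| / (P.q : ℝ) ^ 10 := by
      rw [ha, hr]
      ring
    rw [e, div_le_iff₀ (by positivity)]
    have h2 : (P.q : ℝ) ≤ (P.q : ℝ) ^ 10 := by
      calc (P.q : ℝ) = (P.q : ℝ) ^ 1 := (pow_one _).symm
        _ ≤ _ := pow_le_pow_right₀ hq1 (by norm_num)
    have h3 := abs_nonneg C0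
    linarith
  have n3 : 2 * c ≤ 1 / 32 := by
    have hBr : (P.q : ℝ) ≤ P.B * r := by
      have e : P.B * r = √P.R / (P.q : ℝ) ^ 3 := by
        rw [hr]
        unfold B A
        field_simp
      rw [e, le_div_iff₀ (by positivity)]
      calc (P.q : ℝ) * (P.q : ℝ) ^ 3 = (P.q : ℝ) ^ 4 := by ring
        _ ≤ (P.q : ℝ) ^ (4 * P.k) := pow_le_pow_right₀ hq1 (by have := P.hk; omega)
        _ ≤ _ := P.hR
    have h2 : (P.q : ℝ) ≤ (P.B * r) ^ 2 := by
      calc (P.q : ℝ) ≤ (P.q : ℝ) ^ 2 := by nlinarith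
        _ ≤ _ := by gcongr
    have e : 2 * c = 8 * MKC K / (P.B * r) ^ 2 := by
      rw [hc]
      ring
    rw [e, div_le_iff₀ (by positivity)]
    have h3 := abs_nonneg C0
    linarith
  linarith

end Par

end REPS
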