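import Pool.Agent.REPS.Psi
import Pool.Agent.REPS.Gap
import Pool.Agent.REPS.Tail
import Pool.Agent.REPS.EndA
import Pool.Agent.REPS.EndB

open MeasureTheory Filter Topology Real Metric FourierTransform
open scoped ENNReal NNReal InnerProductSpace Pointwise

namespace REPS

open Helper77.TA

namespace Par

theorem mem_gap_complE (P : Par) {ξ : V2} (h1 : ξ ∈ ann P.R P.H) (h2 : ξ ∉ P.gapSet) :
    ∃ i ≤ P.k, ¬ (1 / (P.q : ℝ) ≤
      Int.fract (((8 * (P.q ^ 4) ^ (P.k - i) : ℕ) : ℝ) * trn P.α ξ) ∧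
      Int.fract (((8 * (P.q ^ 4) ^ (P.k - i) : ℕ) : ℝ) * trn P.α ξ) ≤ 1 - 1 / (P.q : ℝ)) := by
  by_contra hcon
  push Not at hcon
  apply h2
  refine ⟨h1, fun i hi => ?_⟩
  have := hcon i hi
  exact this

theorem meas_trnE (α : ℝ) : Measurable (trn α) := by
  unfold trn
  apply Measurable.fract
  apply Measurable.div_const
  apply Measurable.sub_const
  apply Complex.measurable_arg.comp
  have : (fun ξ : V2 => (⟨ξ 0, ξ 1⟩ : ℂ)) = fun ξ => ((ξ 0 : ℝ) : ℂ) + ((ξ 1 : ℝ) : ℂ) * Complex.I := by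
    ext ξ
    apply Complex.ext <;> simp
  rw [this]
  fun_prop

theorem meas_gapSetE (P : Par) : MeasurableSet P.gapSet := by
  have h1 : MeasurableSet (ann P.R P.H) := by
    have e : ann P.R P.H = {ξ : V2 | P.R ≤ ‖ξ‖} ∩ {ξ : V2 | ‖ξ‖ ≤ P.R + P.H} := rfl
    rw [e]
    exact (measurableSet_le measurable_const measurable_norm).inter
      (measurableSet_le measurable_norm measurable_const)
  have h2 : ∀ i, MeasurableSet {ξ : V2 | 1 / (P.q : ℝ) ≤ Int.fract ((P.M i : ℝ) * trn P.α ξ) ∧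
      Int.fract ((P.M i : ℝ) * trn P.α ξ) ≤ 1 - 1 / (P.q : ℝ)} := by
    intro i
    have hm : Measurable fun ξ : V2 => Int.fract ((P.M i : ℝ) * trn P.α ξ) :=
      ((meas_trnE P.α).const_mul _).fract
    exact (measurableSet_le measurable_const hm).inter (measurableSet_le hm measurable_const)
  have e : P.gapSet = ann P.R P.H ∩ ⋂ i ∈ {i | i ≤ P.k},
      {ξ : V2 | 1 / (P.q : ℝ) ≤ Int.fract ((P.M i : ℝ) * trn P.α ξ) ∧
        Int.fract ((P.M i : ℝ) * trn P.α ξ) ≤ 1 - 1 / (P.q : ℝ)} := by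
    ext ξ
    simp only [gapSet, Set.mem_setOf_eq, Set.mem_inter_iff, Set.mem_iInter]
  rw [e]
  exact h1.inter (MeasurableSet.biInter (Set.to_countable _) fun i _ => h2 i)

theorem D1_nonnegE (P : Par) (G : V2 → ℂ) (x : V2) : 0 ≤ P.D1 G x :=
  Finset.sum_nonneg fun _ _ => by positivity

theorem D1_intE (P : Par) {G : V2 → ℂ} (hG : P.Good G) :
    Integrable (P.D1 G) ∧ ∫ x, P.D1 G x ≤ 1 := by
  have h1 : ∀ κ, Integrable fun x => ‖P.gp G 0 κ x‖ ^ 2 := by
    intro κ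
    exact (P.band_gp hG 0 κ).memLp.norm.integrable_sq
  refine ⟨integrable_finset_sum _ fun κ _ => h1 κ, ?_⟩
  unfold D1
  rw [integral_finset_sum _ fun κ _ => h1 κ, P.sum_sq hG]
  exact hG.le

theorem Gm_factsE (P : Par) {G : V2 → ℂ} (hG : P.Good G) (c : ℕ) (n : ℤ) :
    0 ≤ P.Gm G c n ∧ P.Gm G c n ≤ 1 := by
  refine ⟨integral_nonneg fun x => P.D1_nonnegE G x, ?_⟩
  exact (setIntegral_le_integral (P.D1_intE hG).1
    (Eventually.of_forall fun x => P.D1_nonnegE G x)).trans (P.D1_intE hG).2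

theorem St_leE (P : Par) {G : V2 → ℂ} (hG : P.Good G) (x : V2) : P.St G x ≤ √P.R := by
  have h1 : ∀ κ, P.Sb G κ x ≤ √P.R * ∫ z, ‖P.gp G 0 κ z‖ ^ 2 := by
    intro κ
    refine ((P.dens_basic hG κ).2.2.2.2.2.2.2.2.2 x).trans ?_
    have hA : 1 ≤ P.A ^ 2 := by
      unfold A
      have : (1 : ℝ) ≤ P.q := by exact_mod_cast (by have := P.hq4; omega : 1 ≤ P.q)
      exact one_le_pow₀ (one_le_pow₀ this)
    have h0 : 0 ≤ ∫ z, ‖P.gp G 0 κ z‖ ^ 2 := integral_nonneg fun _ => by positivity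
    apply mul_le_mul_of_nonneg_right _ h0
    exact div_le_self (Real.sqrt_nonneg _) hA
  unfold St
  calc ∑ κ ∈ Finset.range (P.M 0), P.Sb G κ x
      ≤ ∑ κ ∈ Finset.range (P.M 0), √P.R * ∫ z, ‖P.gp G 0 κ z‖ ^ 2 :=
        Finset.sum_le_sum fun κ _ => h1 κ
    _ = √P.R * ∫ ξ, ‖G ξ‖ ^ 2 := by rw [← Finset.mul_sum, P.sum_sq hG]
    _ ≤ √P.R * 1 := mul_le_mul_of_nonneg_left hG.le (Real.sqrt_nonneg _)
    _ = √P.R := mul_one _

theorem Gm_zeroE (P : Par) {G : V2 → ℂ} (hG : P.Good G) {c Z : ℕ} (hc : 1 ≤ c)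
    (hk : P.k = c * Z) {n : ℤ} (hn : n < -(4 * Z + 1 : ℕ)) : P.Gm G c n = 0 := by
  have hq4 : (4 : ℝ) ≤ P.q := by exact_mod_cast P.hq4
  have hq1 : (1 : ℝ) ≤ P.q := by linarith
  have hemp : {x | P.lam c n ≤ P.St G x} = ∅ := by
    rw [Set.eq_empty_iff_forall_notMem]
    intro x hx
    have h1 : P.lam c n ≤ P.St G x := hx
    have h2 := P.St_leE hG x
    have h3 := P.hR'
    have h4 : 2 * (P.q : ℝ) ^ (4 * P.k) < P.lam c n := by
      unfold lam
      have h5 : ((P.q : ℝ) ^ c) ^ ((4 * Z + 1 : ℕ) : ℤ) ≤ ((P.q : ℝ) ^ c) ^ (-n) :=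
        zpow_le_zpow_right₀ (one_le_pow₀ hq1) (by omega)
      refine lt_of_lt_of_le ?_ h5
      rw [zpow_natCast, ← pow_mul, hk]
      have e : c * (4 * Z + 1) = 4 * (c * Z) + c := by ring
      rw [e, pow_add, mul_comm]
      have h6 : (2 : ℝ) < (P.q : ℝ) ^ c := by
        calc (2 : ℝ) < P.q := by linarith
          _ = (P.q : ℝ) ^ 1 := (pow_one _).symm
          _ ≤ (P.q : ℝ) ^ c := pow_le_pow_right₀ hq1 hc
      exact mul_lt_mul_of_pos_left h6 (by positivity)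
    linarith
  unfold Gm
  rw [hemp]
  simp

theorem gap_boundE (P : Par) {F : V2 → ℂ} (hFm : Measurable F) (hF2 : MemLp F 2)
    (hFs : ∀ ξ, F ξ ≠ 0 → ξ ∈ ann P.R P.H)
    (h : ∫ ξ in {ξ : V2 | ∃ i ≤ P.k, ¬ (1 / (P.q : ℝ) ≤
          Int.fract (((8 * (P.q ^ 4) ^ (P.k - i) : ℕ) : ℝ) * trn P.α ξ) ∧
          Int.fract (((8 * (P.q ^ 4) ^ (P.k - i) : ℕ) : ℝ) * trn P.α ξ) ≤ 1 - 1 / (P.q : ℝ))},
        ‖F ξ‖ ^ 2 ≤ 2 * (P.k + 1) / P.q * ∫ ξ, ‖F ξ‖ ^ 2) (h1 : ∫ ξ, ‖F ξ‖ ^ 2 = 1) :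
    ∫ ξ, ‖F ξ - P.gapSet.indicator F ξ‖ ^ 2 ≤ 2 * (P.k + 1) / P.q := by
  set S : Set V2 := {ξ : V2 | ∃ i ≤ P.k, ¬ (1 / (P.q : ℝ) ≤
          Int.fract (((8 * (P.q ^ 4) ^ (P.k - i) : ℕ) : ℝ) * trn P.α ξ) ∧
          Int.fract (((8 * (P.q ^ 4) ^ (P.k - i) : ℕ) : ℝ) * trn P.α ξ) ≤ 1 - 1 / (P.q : ℝ))}
    with hS
  have hSm : MeasurableSet S := by
    have e : S = ⋃ i ∈ {i | i ≤ P.k}, {ξ : V2 | ¬ (1 / (P.q : ℝ) ≤
          Int.fract (((8 * (P.q ^ 4) ^ (P.k - i) : ℕ) : ℝ) * trn P.α ξ) ∧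
          Int.fract (((8 * (P.q ^ 4) ^ (P.k - i) : ℕ) : ℝ) * trn P.α ξ) ≤ 1 - 1 / (P.q : ℝ))} := by
      ext ξ
      simp only [hS, Set.mem_setOf_eq, Set.mem_iUnion, exists_prop]
    rw [e]
    refine MeasurableSet.biUnion (Set.to_countable _) fun i _ => ?_
    have hm : Measurable fun ξ : V2 =>
        Int.fract (((8 * (P.q ^ 4) ^ (P.k - i) : ℕ) : ℝ) * trn P.α ξ) :=
      ((meas_trnE P.α).const_mul _).fract
    exact ((measurableSet_le measurable_const hm).inter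
      (measurableSet_le hm measurable_const)).compl
  rw [h1, mul_one] at h
  refine le_trans ?_ h
  rw [← integral_indicator hSm]
  have hi : Integrable fun ξ => ‖F ξ‖ ^ 2 := hF2.norm.integrable_sq
  refine integral_mono_of_nonneg (Eventually.of_forall fun ξ => by positivity)
    (hi.indicator hSm) (Eventually.of_forall fun ξ => ?_)
  show ‖F ξ - P.gapSet.indicator F ξ‖ ^ 2 ≤ S.indicator (fun ξ => ‖F ξ‖ ^ 2) ξ
  by_cases hξ : ξ ∈ P.gapSet
  · rw [Set.indicator_of_mem hξ]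
    have h0 : 0 ≤ S.indicator (fun ξ => ‖F ξ‖ ^ 2) ξ :=
      Set.indicator_nonneg (fun _ _ => by positivity) _
    simpa using h0
  · rw [Set.indicator_of_notMem hξ, sub_zero]
    by_cases hF : F ξ = 0
    · rw [hF]
      have h0 : 0 ≤ S.indicator (fun ξ => ‖F ξ‖ ^ 2) ξ :=
        Set.indicator_nonneg (fun _ _ => by positivity) _
      simpa using h0
    · have hmem : ξ ∈ S := P.mem_gap_complE (hFs ξ hF) hξ
      rw [Set.indicator_of_mem hmem]

theorem tail_lamE (P : Par) {c Z : ℕ} (hk : P.k = c * Z) (h4 : 4 ≤ P.k) :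
    0 < P.lam c (8 * Z) ∧ P.lam c (8 * Z) ≤ ((P.q : ℝ) ^ 30)⁻¹ := by
  have hq0 := P.q_posE
  have hq1 : (1 : ℝ) ≤ P.q := by exact_mod_cast (by have := P.hq4; omega : 1 ≤ P.q)
  unfold lam
  refine ⟨by positivity, ?_⟩
  rw [zpow_neg]
  have e : ((P.q : ℝ) ^ c) ^ (8 * (Z : ℤ)) = (P.q : ℝ) ^ (8 * P.k) := by
    rw [show (8 * (Z : ℤ)) = ((8 * Z : ℕ) : ℤ) by push_cast; ring, zpow_natCast, ← pow_mul, hk]
    congr 1
    ring
  rw [e]
  apply inv_anti₀ (by positivity)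
  exact pow_le_pow_right₀ hq1 (by omega)

theorem lam_posE (P : Par) (c : ℕ) (n : ℤ) : 0 < P.lam c n := by
  have hq0 := P.q_posE
  unfold lam
  positivity

theorem meas_StE (P : Par) {G : V2 → ℂ} (hG : P.Good G) : Continuous (P.St G) := by
  unfold St
  exact continuous_finset_sum _ fun κ _ => (P.dens_basic hG κ).2.2.2.2.1

theorem log_R_geE (P : Par) : 8 * P.k * Real.log P.q ≤ Real.log P.R := by
  have hq0 := P.q_posE
  have hR := P.R_posE
  have h1 : (P.q : ℝ) ^ (8 * P.k) ≤ P.R := by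
    have h2 : ((P.q : ℝ) ^ (4 * P.k)) ^ 2 ≤ √P.R ^ 2 := pow_le_pow_left₀ (by positivity) P.hR 2
    rw [Real.sq_sqrt hR.le, ← pow_mul] at h2
    calc (P.q : ℝ) ^ (8 * P.k) = (P.q : ℝ) ^ (4 * P.k * 2) := by congr 1; ring
      _ ≤ P.R := h2
  have h3 := Real.log_le_log (by positivity) h1
  rw [Real.log_pow] at h3
  push_cast at h3
  exact h3

/-- The inequality of section 9. -/
theorem end_ineqE (P : Par) (K : Ker) {F G : V2 → ℂ} (hP : P.Pair F G) {τ : ℝ} (hτ : 0 < τ)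
    {N : ℝ} (hNm : Measurable (P.NN G K τ)) (hN : ∀ x, P.NN G K τ x ≤ N)
    (hN1 : 1 ≤ N) (hm0 : ∀ x, 0 ≤ P.mm G K F τ x) (hmi : Integrable (P.mm G K F τ))
    {β C0 : ℝ} (hβ : 0 < β) (hR1 : 1 ≤ P.R) {E S : Set V2} (hE : MeasurableSet E)
    (hS : MeasurableSet S) (hSE : S ⊆ E)
    (hcon : ∫ x in E, ‖𝓕⁻ F x‖ ^ 2 ≤ C0 * P.R ^ (-β)) :
    β * Real.log P.R * ∫ x in S, P.mm G K F τ x ≤ C0 + 1 +
      ∫ x, P.mm G K F τ x * Real.log (max 1 (P.NN G K τ x)) := by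
  classical
  have hG : P.Good G := Pair.good P hP
  have hR := P.R_posE
  set r : ℝ := P.R ^ (-β) with hr
  have hr0 : 0 < r := Real.rpow_pos_of_pos hR _
  have hr1 : r ≤ 1 := Real.rpow_le_one_of_one_le_of_nonpos hR1 (by linarith)
  set A : V2 → ℝ := fun x => if x ∈ S then r else 1 with hA
  have hAm : Measurable A := Measurable.ite hS measurable_const measurable_const
  have hA0 : ∀ x, r ≤ A x := by
    intro x
    simp only [hA]
    split_ifs
    · exact le_rfl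
    · exact hr1
  have hA1 : ∀ x, A x ≤ 1 := by
    intro x
    simp only [hA]
    split_ifs
    · exact hr1
    · exact le_rfl
  have key := P.nk_parE K hP (τ := τ) (fun i j x hi => (P.cut_basic K hG hτ hi).2.1 x)
    (fun i j x hi => (P.cut_basic K hG hτ hi).2.2.1 x)
    (fun i j hi => (P.cut_basic K hG hτ hi).1.measurable) hNm hN hN1 hAm hr0 hA0 hA1
    (fun i h1 h2 => ⟨(P.cn_pos_le h1 h2).1.le, (P.cn_pos_le h1 h2).2⟩)
  -- right hand side
  have hF2 : Integrable fun x => ‖𝓕⁻ F x‖ ^ 2 := by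
    have hb : Band (𝓕⁻ F) (ann P.R P.H) := ⟨F, hP.int, hP.lp, hP.supp, rfl⟩
    exact hb.memLp.norm.integrable_sq
  have hone : ∫ x, ‖𝓕⁻ F x‖ ^ 2 = 1 := by
    rw [band_plancherel hP.int hP.lp, hP.one]
  have hrhs : ∫ x, ‖𝓕⁻ F x‖ ^ 2 / A x ≤ C0 + 1 := by
    have h1 : ∫ x, ‖𝓕⁻ F x‖ ^ 2 / A x ≤
        ∫ x, (S.indicator (fun x => r⁻¹ * ‖𝓕⁻ F x‖ ^ 2) x + ‖𝓕⁻ F x‖ ^ 2) := by
      refine integral_mono_of_nonneg (Eventually.of_forall fun x => ?_)
        (((hF2.const_mul _).indicator hS).add hF2) (Eventually.of_forall fun x => ?_)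
      · exact div_nonneg (by positivity) (hr0.le.trans (hA0 x))
      · simp only [hA, Set.indicator]
        split_ifs
        · rw [div_eq_inv_mul]
          linarith [sq_nonneg ‖𝓕⁻ F x‖]
        · rw [div_one]
          linarith
    refine h1.trans ?_
    rw [integral_add ((hF2.const_mul _).indicator hS) hF2, integral_indicator hS,
      integral_const_mul, hone]
    have h2 : ∫ x in S, ‖𝓕⁻ F x‖ ^ 2 ≤ C0 * r :=
      (setIntegral_mono_set hF2.integrableOn (Eventually.of_forall fun x => by positivity)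
        (Eventually.of_forall hSE)).trans hcon
    have h3 : r⁻¹ * ∫ x in S, ‖𝓕⁻ F x‖ ^ 2 ≤ C0 := by
      rw [inv_mul_le_iff₀ hr0]
      linarith
    linarith
  -- left hand side
  have hlog : ∀ x, Real.log (A x) = S.indicator (fun _ => -(β * Real.log P.R)) x := by
    intro x
    simp only [hA, Set.indicator]
    split_ifs
    · rw [hr, Real.log_rpow hR]
      ring
    · exact Real.log_one
  have hlN : Integrable fun x => P.mm G K F τ x * Real.log (max 1 (P.NN G K τ x)) := by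
    refine hmi.mul_bdd (c := Real.log N) ?_ (Eventually.of_forall fun x => ?_)
    · exact (Real.measurable_log.comp (measurable_const.max hNm)).aestronglyMeasurable
    · have h1 : 0 ≤ Real.log (max 1 (P.NN G K τ x)) := Real.log_nonneg (le_max_left _ _)
      rw [Real.norm_of_nonneg h1]
      exact Real.log_le_log (by positivity) (max_le hN1 (hN x))
  have hlhs : ∫ x, P.mm G K F τ x *
        (1 - Real.log (A x) - Real.log (max 1 (P.NN G K τ x))) =
      (∫ x, P.mm G K F τ x) + β * Real.log P.R * (∫ x in S, P.mm G K F τ x) -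
      ∫ x, P.mm G K F τ x * Real.log (max 1 (P.NN G K τ x)) := by
    have e : ∀ x, P.mm G K F τ x *
        (1 - Real.log (A x) - Real.log (max 1 (P.NN G K τ x))) =
        (P.mm G K F τ x + S.indicator (fun x => β * Real.log P.R * P.mm G K F τ x) x) -
          P.mm G K F τ x * Real.log (max 1 (P.NN G K τ x)) := by
      intro x
      rw [hlog]
      simp only [Set.indicator]
      split_ifs <;> ring
    rw [integral_congr_ae (Eventually.of_forall e)]
    have i1 : Integrable (fun x => S.indicator (fun x => β * Real.log P.R * P.mm G K F τ x) x) :=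
      (hmi.const_mul _).indicator hS
    rw [integral_sub (f := fun x => P.mm G K F τ x +
      S.indicator (fun x => β * Real.log P.R * P.mm G K F τ x) x) (hmi.add i1) hlN,
      integral_add hmi i1, integral_indicator hS, integral_const_mul]
  rw [hlhs] at key
  have h0 : 0 ≤ ∫ x, P.mm G K F τ x := integral_nonneg hm0
  linarith

end Par

end REPS
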