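import Pool.Agent.REPS.Psi

/-!
# Localisation in space
-/

open MeasureTheory Filter Topology Real Metric FourierTransform
open scoped ENNReal NNReal InnerProductSpace Pointwise Convolution ContDiff

namespace REPS

open Helper77.TA

/-- The localising function. -/
noncomputable def lchi (x : V2) : ℝ := (𝓕 bmpC (-x)).re

/-- The shifted bump on the Fourier side. -/
noncomputable def lbmp (b : V2) (ξ : V2) : ℂ := (Real.fourierChar (-⟪ξ, b⟫_ℝ) : ℂ) * bmpC ξ

theorem lbmp_cont (b : V2) : Continuous (lbmp b) := by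
  unfold lbmp
  refine Continuous.mul ?_ bmpC_cont
  exact continuous_subtype_val.comp (Real.continuous_fourierChar.comp
    (continuous_id.inner continuous_const).neg)

theorem lbmp_norm (b ξ : V2) : ‖lbmp b ξ‖ = ‖bmpC ξ‖ := by
  rw [lbmp, norm_mul, Circle.norm_coe, one_mul]

theorem lbmp_compact (b : V2) : HasCompactSupport (lbmp b) := bmpC_compact.mul_left

theorem lbmp_int (b : V2) : Integrable (lbmp b) :=
  (lbmp_cont b).integrable_of_hasCompactSupport (lbmp_compact b)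

theorem lbmp_supp {b ξ : V2} (h : lbmp b ξ ≠ 0) : ‖ξ‖ < 1 / 2 :=
  bmpC_supp fun h1 => h (by rw [lbmp, h1, mul_zero])

theorem fourierInv_lbmp (b x : V2) : 𝓕⁻ (lbmp b) x = (lchi (x - b) : ℂ) := by
  rw [lchi, ← fourier_bmpC_real, ← Real.fourierInv_eq_fourier_neg, Real.fourierInv_eq,
    Real.fourierInv_eq]
  congr 1
  ext ξ
  rw [Circle.smul_def, Circle.smul_def, smul_eq_mul, smul_eq_mul, lbmp, inner_sub_right,
    sub_eq_add_neg, AddChar.map_add_eq_mul, Circle.coe_mul, mul_assoc]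

theorem lchi_cont : Continuous lchi := by
  have h1 : ∀ x, lchi x = (𝓕⁻ (lbmp 0) x).re := by
    intro x
    rw [fourierInv_lbmp, sub_zero, Complex.ofReal_re]
  have h2 : lchi = fun x => (𝓕⁻ (lbmp 0) x).re := funext h1
  rw [h2]
  exact Complex.continuous_re.comp (continuous_fourierInv (lbmp_int 0))

theorem lchi_abs (x : V2) : |lchi x| = ‖𝓕 bmpC (-x)‖ := by
  conv_rhs => rw [fourier_bmpC_real]
  rw [Complex.norm_real, Real.norm_eq_abs, lchi]

theorem lchi_bdd (n : ℕ) : ∃ C, 0 ≤ C ∧ ∀ x, ‖x‖ ^ n * |lchi x| ≤ C := by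
  set S : SchwartzMap V2 ℂ := bmpC_compact.toSchwartzMap bmpC_contDiff with hS
  have hF : ((𝓕 S : SchwartzMap V2 ℂ) : V2 → ℂ) = 𝓕 bmpC := by
    rw [SchwartzMap.fourier_coe]
    rfl
  refine ⟨SchwartzMap.seminorm ℝ n 0 (𝓕 S), apply_nonneg _ _, fun x => ?_⟩
  have h := SchwartzMap.norm_pow_mul_le_seminorm ℝ (𝓕 S) n (-x)
  rw [norm_neg, hF] at h
  rw [lchi_abs]
  exact h

theorem lchi_integrable (n : ℕ) : Integrable fun x => ‖x‖ ^ n * |lchi x| := by
  set S : SchwartzMap V2 ℂ := bmpC_compact.toSchwartzMap bmpC_contDiff with hS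
  have hF : ((𝓕 S : SchwartzMap V2 ℂ) : V2 → ℂ) = 𝓕 bmpC := by
    rw [SchwartzMap.fourier_coe]
    rfl
  have h1 := ((𝓕 S : SchwartzMap V2 ℂ).integrable_pow_mul volume n).comp_neg
  refine h1.congr (Eventually.of_forall fun x => ?_)
  simp only [norm_neg, hF, lchi_abs]

theorem lchi_sq_integrable (n : ℕ) : Integrable fun x => ‖x‖ ^ n * lchi x ^ 2 := by
  obtain ⟨C, -, hC⟩ := lchi_bdd 0
  have h1 := (lchi_integrable n).bdd_mul (c := C) (f := fun x => |lchi x|)
    (lchi_cont.abs.aestronglyMeasurable) (Eventually.of_forall fun x => by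
      rw [Real.norm_eq_abs, abs_abs]; simpa using hC x)
  refine h1.congr (Eventually.of_forall fun x => ?_)
  simp only
  rw [← sq_abs (lchi x)]
  ring

theorem lchi_sq_bdd (n : ℕ) : ∃ C, ∀ x, ‖x‖ ^ n * lchi x ^ 2 ≤ C := by
  obtain ⟨C, hC0, hC⟩ := lchi_bdd 0
  obtain ⟨C', hC0', hC'⟩ := lchi_bdd n
  refine ⟨C' * C, fun x => ?_⟩
  have h1 := hC x
  have h2 := hC' x
  rw [pow_zero, one_mul] at h1
  rw [← sq_abs (lchi x)]
  calc ‖x‖ ^ n * |lchi x| ^ 2 = (‖x‖ ^ n * |lchi x|) * |lchi x| := by ring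
    _ ≤ C' * C := mul_le_mul h2 h1 (abs_nonneg _) hC0'

theorem lchi_mass_pos : 0 < ∫ x, lchi x ^ 2 := by
  have h0 : Integrable (fun x => lchi x ^ 2) := by simpa using lchi_sq_integrable 0
  rw [integral_pos_iff_support_of_nonneg (fun x => sq_nonneg _) h0]
  refine (lchi_cont.pow 2).isOpen_support.measure_pos volume ⟨0, ?_⟩
  have h2 : lchi 0 = ∫ x, bmp x := by
    rw [lchi, neg_zero, Real.fourier_eq]
    simp only [inner_zero_right, neg_zero, AddChar.map_zero_eq_one, one_smul]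
    have h4 : (∫ v : V2, bmpC v) = ((∫ v : V2, bmp v : ℝ) : ℂ) := integral_ofReal
    rw [h4, Complex.ofReal_re]
  have h3 : 0 < ∫ x, bmp x := bmp.integral_pos
  exact (pow_pos (h2 ▸ h3) 2).ne'

/-- Averages over the position of the window. -/
theorem window_avg {u w : V2 → ℝ} (hu : Integrable u) (hw : Integrable w) :
    Integrable (fun b => ∫ x, u x * w (x - b)) ∧
      ∫ b, ∫ x, u x * w (x - b) = (∫ x, u x) * ∫ x, w x := by
  have h1 : (fun b => ∫ x, u x * w (x - b)) =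
      (u ⋆[ContinuousLinearMap.mul ℝ ℝ] fun y => w (-y)) := by
    ext b
    rw [convolution_def]
    congr 1
    ext x
    simp
  rw [h1]
  refine ⟨hu.integrable_convolution _ hw.comp_neg, ?_⟩
  rw [integral_convolution _ hu hw.comp_neg, integral_neg_eq_self]
  rfl

theorem window_integrable {u w : V2 → ℝ} (hu : Integrable u) (hw : Continuous w) {C : ℝ}
    (hC : ∀ x, |w x| ≤ C) (b : V2) : Integrable fun x => u x * w (x - b) := by
  have h1 := hu.bdd_mul (c := C) (f := fun x => w (x - b))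
    ((hw.comp (continuous_id.sub continuous_const)).aestronglyMeasurable)
    (Eventually.of_forall fun x => hC _)
  refine h1.congr (Eventually.of_forall fun x => ?_)
  simp only
  ring

theorem localise : ∃ C0 : ℝ, 0 < C0 ∧ ∀ (F : V2 → ℂ) (R h σ : ℝ) (E : Set V2), 1 ≤ R → 0 ≤ h →
    0 < σ → Measurable F → Integrable F → MemLp F 2 → (∀ ξ, F ξ ≠ 0 → ξ ∈ ann R h) →
    MeasurableSet E → 0 < ∫ x, ‖𝓕⁻ F x‖ ^ 2 →
    (∫ x in E, ‖𝓕⁻ F x‖ ^ 2 ≤ σ * ∫ x, ‖𝓕⁻ F x‖ ^ 2) →
    ∃ (F' : V2 → ℂ) (b0 : V2), Measurable F' ∧ Integrable F' ∧ MemLp F' 2 ∧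
      (∀ ξ, F' ξ ≠ 0 → ξ ∈ ann (R - 1) (h + 2)) ∧ ∫ x, ‖𝓕⁻ F' x‖ ^ 2 = 1 ∧
      ∫ x in E, ‖𝓕⁻ F' x‖ ^ 2 ≤ C0 * σ ∧
      Integrable (fun x => ‖x - b0‖ ^ 2 * ‖𝓕⁻ F' x‖ ^ 2) ∧
      ∫ x, ‖x - b0‖ ^ 2 * ‖𝓕⁻ F' x‖ ^ 2 ≤ C0 := by
  set N : ℝ := ∫ x, lchi x ^ 2 with hN
  set M : ℝ := ∫ x : V2, ‖x‖ ^ 2 * lchi x ^ 2 with hM
  have hNpos : 0 < N := lchi_mass_pos
  have hM0 : 0 ≤ M := integral_nonneg fun x => by positivity
  have hMpos : 0 < M + 1 := by linarith
  obtain ⟨Ca, hCa⟩ := lchi_sq_bdd 0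
  obtain ⟨Cb, hCb⟩ := lchi_sq_bdd 2
  have hw1 : Continuous fun x : V2 => lchi x ^ 2 := lchi_cont.pow 2
  have hw2 : Continuous fun x : V2 => ‖x‖ ^ 2 * lchi x ^ 2 := (continuous_norm.pow 2).mul hw1
  have hw1b : ∀ x : V2, |lchi x ^ 2| ≤ Ca := fun x => by
    rw [abs_of_nonneg (sq_nonneg _)]; simpa using hCa x
  have hw2b : ∀ x : V2, |‖x‖ ^ 2 * lchi x ^ 2| ≤ Cb := fun x => by
    rw [abs_of_nonneg (by positivity)]; exact hCb x
  have hw1i : Integrable fun x : V2 => lchi x ^ 2 := by simpa using lchi_sq_integrable 0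
  have hw2i : Integrable fun x : V2 => ‖x‖ ^ 2 * lchi x ^ 2 := lchi_sq_integrable 2
  refine ⟨4 + 4 * (M + 1) / N, by positivity, ?_⟩
  intro F R h σ E hR hh hσ hFm hFi hF2 hsupp hE hmass hmassE
  set u : V2 → ℝ := fun x => ‖𝓕⁻ F x‖ ^ 2 with hu
  have hui : Integrable u := by
    by_contra hc
    rw [integral_undef hc] at hmass
    exact lt_irrefl _ hmass
  have hu0 : ∀ x, 0 ≤ u x := fun x => sq_nonneg _
  have huE : Integrable (E.indicator u) := hui.indicator hE
  have hue : ∫ x, E.indicator u x = ∫ x in E, u x := integral_indicator hE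
  obtain ⟨ai, ae⟩ := window_avg hui hw1i
  obtain ⟨ei, ee⟩ := window_avg huE hw1i
  obtain ⟨mi, me⟩ := window_avg hui hw2i
  set a : V2 → ℝ := fun b => ∫ x, u x * lchi (x - b) ^ 2 with ha
  set e : V2 → ℝ := fun b => ∫ x, E.indicator u x * lchi (x - b) ^ 2 with he
  set m : V2 → ℝ := fun b => ∫ x, u x * (‖x - b‖ ^ 2 * lchi (x - b) ^ 2) with hm
  have he0 : ∀ b, 0 ≤ e b := fun b => integral_nonneg fun x =>
    mul_nonneg (Set.indicator_nonneg (fun _ _ => hu0 _) _) (sq_nonneg _)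
  have hm0 : ∀ b, 0 ≤ m b := fun b => integral_nonneg fun x =>
    mul_nonneg (hu0 _) (by positivity)
  have key : ∃ b, 0 < a b - (4 * σ)⁻¹ * e b - (N / (4 * (M + 1))) * m b := by
    by_contra hc
    push Not at hc
    have h1 : ∫ b, (a b - (4 * σ)⁻¹ * e b - (N / (4 * (M + 1))) * m b) ≤ 0 :=
      integral_nonpos hc
    have h1' : ∫ b, (a b - (4 * σ)⁻¹ * e b - (N / (4 * (M + 1))) * m b) =
        (∫ b, a b) - (4 * σ)⁻¹ * (∫ b, e b) - (N / (4 * (M + 1))) * ∫ b, m b := by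
      have i1 : Integrable fun b => a b - (4 * σ)⁻¹ * e b := ai.sub (ei.const_mul _)
      rw [integral_sub i1 (mi.const_mul _), integral_sub ai (ei.const_mul _),
        integral_const_mul, integral_const_mul]
    rw [h1', ae, ee, me, hue] at h1
    have h2 : (4 * σ)⁻¹ * ((∫ x in E, u x) * N) ≤ (∫ x, u x) * N / 4 := by
      have h3 : (4 * σ)⁻¹ * ((∫ x in E, u x) * N) ≤ (4 * σ)⁻¹ * ((σ * ∫ x, u x) * N) := by
        have : (∫ x in E, u x) * N ≤ (σ * ∫ x, u x) * N :=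
          mul_le_mul_of_nonneg_right hmassE hNpos.le
        exact mul_le_mul_of_nonneg_left this (by positivity)
      refine h3.trans (le_of_eq ?_)
      field_simp
    have h4 : N / (4 * (M + 1)) * ((∫ x, u x) * M) ≤ (∫ x, u x) * N / 4 := by
      have h5 : N / (4 * (M + 1)) * ((∫ x, u x) * M) ≤
          N / (4 * (M + 1)) * ((∫ x, u x) * (M + 1)) := by
        have : (∫ x, u x) * M ≤ (∫ x, u x) * (M + 1) :=
          mul_le_mul_of_nonneg_left (by linarith) hmass.le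
        exact mul_le_mul_of_nonneg_left this (by positivity)
      refine h5.trans (le_of_eq ?_)
      field_simp
    have h6 : 0 < (∫ x, u x) * N := mul_pos hmass hNpos
    linarith
  obtain ⟨b, hb⟩ := key
  have hab : 0 < a b := by
    have h1 : 0 ≤ (4 * σ)⁻¹ * e b := mul_nonneg (by positivity) (he0 b)
    have h2 : 0 ≤ (N / (4 * (M + 1))) * m b := mul_nonneg (by positivity) (hm0 b)
    linarith
  have heb : e b ≤ 4 * σ * a b := by
    have h2 : 0 ≤ (N / (4 * (M + 1))) * m b := mul_nonneg (by positivity) (hm0 b)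
    have h3 : (4 * σ)⁻¹ * e b ≤ a b := by linarith
    have h4 : 4 * σ * ((4 * σ)⁻¹ * e b) ≤ 4 * σ * a b :=
      mul_le_mul_of_nonneg_left h3 (by positivity)
    rwa [← mul_assoc, mul_inv_cancel₀ (by positivity), one_mul] at h4
  have hmb : m b ≤ 4 * (M + 1) / N * a b := by
    have h1 : 0 ≤ (4 * σ)⁻¹ * e b := mul_nonneg (by positivity) (he0 b)
    have h3 : (N / (4 * (M + 1))) * m b ≤ a b := by linarith
    have h4 : 4 * (M + 1) / N * ((N / (4 * (M + 1))) * m b) ≤ 4 * (M + 1) / N * a b :=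
      mul_le_mul_of_nonneg_left h3 (by positivity)
    have h5 : 4 * (M + 1) / N * (N / (4 * (M + 1))) = 1 := by field_simp
    rwa [← mul_assoc, h5, one_mul] at h4
  set s : ℝ := (√(a b))⁻¹ with hs
  have hspos : 0 < s := inv_pos.mpr (Real.sqrt_pos.mpr hab)
  have hs2 : s ^ 2 * a b = 1 := by
    rw [hs, inv_pow, Real.sq_sqrt hab.le, inv_mul_cancel₀ hab.ne']
  set G : V2 → ℂ := F ⋆[ContinuousLinearMap.mul ℂ ℂ] lbmp b with hG
  have hGc : Continuous G := (lbmp_compact b).continuous_convolution_right _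
    hFi.locallyIntegrable (lbmp_cont b)
  have hGi : Integrable G := hFi.integrable_convolution _ (lbmp_int b)
  have hGinv : ∀ x, 𝓕⁻ G x = 𝓕⁻ F x * (lchi (x - b) : ℂ) := by
    intro x
    rw [Real.fourierInv_eq_fourier_neg, hG, Real.fourier_mul_convolution_eq hFi (lbmp_int b),
      ← Real.fourierInv_eq_fourier_neg, ← Real.fourierInv_eq_fourier_neg, fourierInv_lbmp]
  have hFinv : ∀ x, 𝓕⁻ (fun ξ => (s : ℂ) * G ξ) x = (s : ℂ) * (𝓕⁻ F x * (lchi (x - b) : ℂ)) := by
    intro x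
    rw [← hGinv, Real.fourierInv_eq, Real.fourierInv_eq, ← integral_const_mul]
    congr 1
    ext ξ
    rw [Circle.smul_def, Circle.smul_def, smul_eq_mul, smul_eq_mul]
    ring
  have hsq : ∀ x, ‖𝓕⁻ (fun ξ => (s : ℂ) * G ξ) x‖ ^ 2 = s ^ 2 * (u x * lchi (x - b) ^ 2) := by
    intro x
    rw [hFinv, norm_mul, norm_mul, Complex.norm_real, Complex.norm_real, Real.norm_eq_abs,
      Real.norm_eq_abs, mul_pow, mul_pow, sq_abs, sq_abs]
  have hGb : ∃ C, ∀ ξ, ‖G ξ‖ ≤ C := by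
    obtain ⟨C, hC⟩ := (lbmp_cont b).bounded_above_of_compact_support (lbmp_compact b)
    refine ⟨(∫ x, ‖F x‖) * C, fun ξ => ?_⟩
    rw [hG, convolution_def]
    refine (norm_integral_le_integral_norm _).trans ?_
    rw [← integral_mul_const]
    refine integral_mono_of_nonneg (Eventually.of_forall fun _ => norm_nonneg _)
      (hFi.norm.mul_const _) (Eventually.of_forall fun x => ?_)
    simp only [ContinuousLinearMap.mul_apply', norm_mul]
    exact mul_le_mul_of_nonneg_left (hC _) (norm_nonneg _)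
  obtain ⟨CG, hCG⟩ := hGb
  have hGc' : Continuous fun ξ => (s : ℂ) * G ξ := continuous_const.mul hGc
  refine ⟨fun ξ => (s : ℂ) * G ξ, b, hGc'.measurable, hGi.const_mul _,
    ?_, ?_, ?_, ?_, ?_, ?_⟩
  · refine (memLp_two_iff_integrable_sq_norm hGc'.aestronglyMeasurable).mpr ?_
    have h1 := ((hGi.const_mul (s : ℂ)).norm).bdd_mul (c := s * CG)
      (f := fun ξ => ‖(s : ℂ) * G ξ‖)
      (hGc'.norm.aestronglyMeasurable) (Eventually.of_forall fun ξ => by
        rw [norm_norm, norm_mul, Complex.norm_real, Real.norm_eq_abs, abs_of_pos hspos]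
        exact mul_le_mul_of_nonneg_left (hCG ξ) hspos.le)
    refine h1.congr (Eventually.of_forall fun ξ => ?_)
    simp only
    ring
  · intro ξ hξ
    have h1 : ξ ∈ Function.support G := fun h2 => hξ (by simp only [h2, mul_zero])
    have h2 := support_convolution_subset (μ := volume) (ContinuousLinearMap.mul ℂ ℂ)
      (f := F) (g := lbmp b) h1
    obtain ⟨c, hc, d, hd, rfl⟩ := h2
    have h3 := hsupp c hc
    have h4 := lbmp_supp hd
    have h5 : ‖c + d‖ ≤ ‖c‖ + ‖d‖ := norm_add_le c d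
    have h6 : ‖c‖ ≤ ‖c + d‖ + ‖d‖ := by
      have := norm_sub_le (c + d) d
      rwa [add_sub_cancel_right] at this
    rw [ann, Set.mem_ofPred_eq] at h3 ⊢
    constructor <;> linarith [h3.1, h3.2]
  · simp only [hsq]
    rw [integral_const_mul]
    exact hs2
  · simp only [hsq]
    rw [integral_const_mul]
    have h1 : ∫ x in E, u x * lchi (x - b) ^ 2 = e b := by
      rw [he, ← integral_indicator hE]
      congr 1
      ext x
      by_cases hx : x ∈ E
      · rw [Set.indicator_of_mem hx, Set.indicator_of_mem hx]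
      · rw [Set.indicator_of_notMem hx, Set.indicator_of_notMem hx, zero_mul]
    rw [h1]
    have h2 : s ^ 2 * e b ≤ s ^ 2 * (4 * σ * a b) :=
      mul_le_mul_of_nonneg_left heb (sq_nonneg _)
    have h3 : s ^ 2 * (4 * σ * a b) = 4 * σ := by
      rw [mul_left_comm, hs2, mul_one]
    rw [h3] at h2
    refine h2.trans (mul_le_mul_of_nonneg_right ?_ hσ.le)
    have : 0 ≤ 4 * (M + 1) / N := by positivity
    linarith
  · simp only [hsq]
    refine ((window_integrable hui hw2 hw2b b).const_mul (s ^ 2)).congr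
      (Eventually.of_forall fun x => ?_)
    simp only
    ring
  · simp only [hsq]
    have h1 : (∫ x, ‖x - b‖ ^ 2 * (s ^ 2 * (u x * lchi (x - b) ^ 2))) = s ^ 2 * m b := by
      rw [hm, ← integral_const_mul]
      congr 1
      ext x
      ring
    rw [h1]
    have h2 : s ^ 2 * m b ≤ s ^ 2 * (4 * (M + 1) / N * a b) :=
      mul_le_mul_of_nonneg_left hmb (sq_nonneg _)
    have h3 : s ^ 2 * (4 * (M + 1) / N * a b) = 4 * (M + 1) / N := by
      rw [mul_left_comm, hs2, mul_one]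
    rw [h3] at h2
    linarith

end REPS
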