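import Pool.Agent.REPS.End
import Pool.Agent.REPS.Loc
import Pool.Agent.Helper77.TA.Poly

open MeasureTheory Filter Topology Real Metric FourierTransform
open scoped ENNReal NNReal InnerProductSpace Pointwise

namespace REPS

open Helper77.TA

/-- Lower bound of the Cauchy averages of a thick set. -/
theorem pav_geE {E : Set V2} (hE : MeasurableSet E) {L θ y : ℝ} (hL : 0 < L) (hθ : 0 < θ)
    (hy : 0 < y) (hLy : L ≤ y) (hg : GCC E L θ) (φ : ℝ) (x : V2) :
    θ / 3 ≤ pav y (dir φ) (E.indicator 1) x := by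
  have hω : ‖dir φ‖ = 1 := norm_dir φ
  set ω := dir φ with hωdef
  have hm : Measurable fun t : ℝ => x - t • ω := measurable_const.sub (measurable_id.smul_const ω)
  have hA : MeasurableSet {t : ℝ | x - t • ω ∈ E} := hm hE
  set A : Set ℝ := {t : ℝ | x - t • ω ∈ E} with hAdef
  have h1 : ∀ s : ℝ, ENNReal.ofReal (θ * L) ≤ volume (A ∩ Set.Icc s (s + L)) := by
    intro s
    refine (hg ω hω (x + (-L - s) • ω)).trans ?_
    have e1 : {t : ℝ | t ∈ Set.Icc 0 L ∧ (x + (-L - s) • ω) + t • ω ∈ E} =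
        (fun t : ℝ => (s + L) - t) ⁻¹' ({t : ℝ | x - t • ω ∈ E} ∩ Set.Icc s (s + L)) := by
      ext t
      simp only [Set.mem_preimage, Set.mem_inter_iff, Set.mem_Icc, Set.mem_ofPred_eq]
      have e2 : (x + (-L - s) • ω) + t • ω = x - ((s + L) - t) • ω := by
        rw [sub_smul, sub_smul, add_smul, neg_smul]; abel
      rw [e2]
      constructor
      · rintro ⟨⟨h1, h2⟩, h3⟩
        exact ⟨h3, by linarith, by linarith⟩
      · rintro ⟨h3, h1, h2⟩
        exact ⟨⟨by linarith, by linarith⟩, h3⟩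
    rw [e1, (Measure.measurePreserving_sub_left volume (s + L)).measure_preimage
      (hA.inter measurableSet_Icc).nullMeasurableSet]
  have h2 := density_ge hy hL hθ.le hA (Eventually.of_forall h1)
  have h3 : 1 + L / y + (L / y) ^ 2 ≤ 3 := by
    have h4 : L / y ≤ 1 := by
      rw [div_le_one hy]
      exact hLy
    have h5 : 0 ≤ L / y := by positivity
    nlinarith
  have e3 : pav y ω (E.indicator 1) x = (∫⁻ t in A, ENNReal.ofReal (pk y t)).toReal := by
    unfold pav
    rw [← lintegral_indicator hA, ← integral_toReal]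
    · apply integral_congr_ae
      refine Eventually.of_forall fun t => ?_
      show pk y t * (E.indicator (1 : V2 → ℝ) (x - t • ω)) =
        (A.indicator (fun t => ENNReal.ofReal (pk y t)) t).toReal
      by_cases h : x - t • ω ∈ E
      · have hA' : t ∈ A := h
        rw [Set.indicator_of_mem h, Set.indicator_of_mem hA',
          ENNReal.toReal_ofReal (pk_nonneg hy t)]
        simp
      · have hA' : t ∉ A := h
        rw [Set.indicator_of_notMem h, Set.indicator_of_notMem hA']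
        simp
    · exact ((measurable_pk y).ennreal_ofReal.indicator hA).aemeasurable
    · refine Eventually.of_forall fun t => ?_
      simp only [Set.indicator]
      split_ifs
      · exact ENNReal.ofReal_lt_top
      · exact ENNReal.zero_lt_top
  rw [e3]
  have hfin : ∫⁻ t in A, ENNReal.ofReal (pk y t) ≠ ∞ := by
    refine ne_top_of_le_ne_top ?_ (setLIntegral_le_lintegral A _)
    rw [lintegral_pk hy]
    exact ENNReal.one_ne_top
  have h6 : ENNReal.ofReal θ ≤ ENNReal.ofReal 3 * ∫⁻ t in A, ENNReal.ofReal (pk y t) :=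
    h2.trans (by gcongr)
  have h7 := ENNReal.toReal_mono (ENNReal.mul_ne_top ENNReal.ofReal_ne_top hfin) h6
  rw [ENNReal.toReal_mul, ENNReal.toReal_ofReal hθ.le, ENNReal.toReal_ofReal (by norm_num)] at h7
  linarith

theorem eLpNorm_twoE {g : V2 → ℂ} {μ : Measure V2} (hg : MemLp g 2 μ) :
    eLpNorm g 2 μ = ENNReal.ofReal (√(∫ x, ‖g x‖ ^ 2 ∂μ)) := by
  rw [hg.eLpNorm_eq_integral_rpow_norm (by norm_num) (by norm_num)]
  congr 1
  rw [Real.sqrt_eq_rpow]
  norm_num

theorem meas_annE (R h : ℝ) : MeasurableSet (ann R h) := by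
  have e : ann R h = {ξ : V2 | R ≤ ‖ξ‖} ∩ {ξ : V2 | ‖ξ‖ ≤ R + h} := rfl
  rw [e]
  exact (measurableSet_le measurable_const measurable_norm).inter
    (measurableSet_le measurable_norm measurable_const)

/-- A measurable representative with support in the annulus. -/
theorem exists_ann_repE {R h : ℝ} (f : L2 V2) (hf : SpectrumIn f {ξ | R ≤ ‖ξ‖ ∧ ‖ξ‖ ≤ R + h}) :
    ∃ F : V2 → ℂ, Measurable F ∧ Integrable F ∧ MemLp F 2 ∧ (∀ ξ, F ξ ≠ 0 → ξ ∈ ann R h) ∧
      (f : V2 → ℂ) =ᵐ[volume] 𝓕⁻ F := by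
  obtain ⟨g, hg1, hg2, -, hgf, hfg, -⟩ := TAM.exists_rep (ρ := R + h) f (by
    filter_upwards [hf] with ξ hξ h0
    exact (hξ h0).2)
  set g' : V2 → ℂ := hg1.1.mk g with hg'
  have hg'm : Measurable g' := hg1.1.stronglyMeasurable_mk.measurable
  have hgg' : g =ᵐ[volume] g' := hg1.1.ae_eq_mk
  set F : V2 → ℂ := (ann R h).indicator g' with hF
  have hFg : F =ᵐ[volume] g := by
    filter_upwards [hgg', hgf, hf] with ξ h1 h2 h3
    by_cases hξ : ξ ∈ ann R h
    · rw [hF, Set.indicator_of_mem hξ, ← h1]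
    · rw [hF, Set.indicator_of_notMem hξ]
      by_contra hcon
      apply hξ
      apply h3
      rw [← h2]
      exact fun h => hcon h.symm
  refine ⟨F, hg'm.indicator (meas_annE R h), hg1.congr hFg.symm, hg2.ae_eq hFg.symm, ?_, ?_⟩
  · intro ξ hξ
    by_contra hcon
    exact hξ (by rw [hF, Set.indicator_of_notMem hcon])
  · have e : 𝓕⁻ F = 𝓕⁻ g := by
      ext x
      rw [fourierInv_formula, fourierInv_formula]
      apply integral_congr_ae
      filter_upwards [hFg] with ξ hξ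
      rw [hξ]
    rw [e]
    exact hfg

theorem main (L θ h ε : ℝ) (hL : 0 < L) (hθ : 0 < θ) (hθ1 : θ ≤ 1) (hh : 0 ≤ h) (hε : 0 < ε) :
    ∃ C : ℝ, ∀ E : Set V2, NullMeasurableSet E → Helper77.TA.GCC E L θ → ∀ R : ℝ, 0 ≤ R →
      ∀ f : Helper77.TA.L2 V2, Helper77.TA.SpectrumIn f {ξ | R ≤ ‖ξ‖ ∧ ‖ξ‖ ≤ R + h} →
        Helper77.TA.Controlled E (C * (1 + R) ^ ε) f := by
  obtain ⟨C0, hC0, hloc⟩ := localise
  obtain ⟨R0, hR0⟩ := Par.core (h + 2) (max 1 L) (θ / 3) (2 * ε) C0 (by positivity)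
    (by positivity)
  set R1 : ℝ := max R0 1 with hR1
  have hR11 : 1 ≤ R1 := le_max_right _ _
  set C1 : ℝ := ((((1 : ℕ) : ℝ) + 1) * 4 ^ (1 + 1) *
        exp (1 + 8 * π * L * θ * ((1 + 3 * h) / 2) / (θ - θ / 2))) ^ (1 / (2 * (θ / 2))) with hC1
  set C : ℝ := max 1 (C1 * (2 + R1) ^ (((1 : ℕ) : ℝ) / (4 * (θ / 2)))) with hC
  have hC1' : 1 ≤ C := le_max_left _ _
  refine ⟨C, ?_⟩
  intro E hE hg R hR f hf
  have hone : 1 ≤ (1 + R) ^ ε := Real.one_le_rpow (by linarith) hε.le
  by_cases hRR : R < R1 + 1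
  · have h1 := annulus_poly (V := V2) (n := 1) (by simp) hL (a := θ / 2) (by positivity)
      (by linarith) hθ1 hh hE hg hR f hf
    refine h1.trans (mul_le_mul' (ENNReal.ofReal_le_ofReal ?_) le_rfl)
    calc _ ≤ C1 * (2 + R1) ^ (((1 : ℕ) : ℝ) / (4 * (θ / 2))) := by
          rw [hC1]
          gcongr ?_ * ?_ ^ _
          linarith
      _ ≤ C := le_max_right _ _
      _ ≤ C * (1 + R) ^ ε := by nlinarith
  · rw [not_lt] at hRR
    by_contra hcon
    unfold Controlled at hcon
    rw [not_le] at hcon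
    set E' : Set V2 := toMeasurable volume E with hE'
    have hE'm : MeasurableSet E' := measurableSet_toMeasurable _ _
    have hEE' : E ⊆ E' := subset_toMeasurable _ _
    have hE'ae : E' =ᵐ[volume] E := hE.toMeasurable_ae_eq
    have hg' : GCC E' L θ := by
      intro ω hω x
      refine (hg ω hω x).trans (measure_mono fun t ht => ?_)
      exact ⟨ht.1, hEE' ht.2⟩
    obtain ⟨F, hFm, hF1, hF2, hFs, hfF⟩ := exists_ann_repE f hf
    have hres : volume.restrict E = volume.restrict E' := (Measure.restrict_congr_set hE'ae).symm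
    have hband : Band (𝓕⁻ F) (ann R h) := ⟨F, hF1, hF2, hFs, rfl⟩
    have hb : MemLp (𝓕⁻ F) 2 volume := hband.memLp
    have e1 : eLpNorm f 2 volume = ENNReal.ofReal (√(∫ x, ‖𝓕⁻ F x‖ ^ 2)) := by
      rw [eLpNorm_congr_ae hfF, eLpNorm_twoE hb]
    have e2 : eLpNorm f 2 (volume.restrict E) =
        ENNReal.ofReal (√(∫ x in E', ‖𝓕⁻ F x‖ ^ 2)) := by
      rw [hres, eLpNorm_congr_ae (ae_restrict_of_ae hfF), eLpNorm_twoE (hb.restrict E')]
    have hC' : 0 < C * (1 + R) ^ ε := by positivity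
    rw [e1, e2, ← ENNReal.ofReal_mul hC'.le] at hcon
    have h2 := (ENNReal.ofReal_lt_ofReal_iff_of_nonneg (by positivity)).mp hcon
    set a : ℝ := ∫ x in E', ‖𝓕⁻ F x‖ ^ 2 with ha
    set b : ℝ := ∫ x, ‖𝓕⁻ F x‖ ^ 2 with hbdef
    have ha0 : 0 ≤ a := integral_nonneg fun _ => by positivity
    have hb0 : 0 ≤ b := integral_nonneg fun _ => by positivity
    have h3 : (C * (1 + R) ^ ε) ^ 2 * a < b := by
      have h4 := mul_self_lt_mul_self (by positivity) h2
      have h5 := Real.mul_self_sqrt ha0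
      have h6 := Real.mul_self_sqrt hb0
      calc (C * (1 + R) ^ ε) ^ 2 * a = (C * (1 + R) ^ ε) ^ 2 * (√a * √a) := by rw [h5]
        _ = (C * (1 + R) ^ ε * √a) * (C * (1 + R) ^ ε * √a) := by ring
        _ < √b * √b := h4
        _ = b := h6
    have hb1 : 0 < b := lt_of_le_of_lt (by positivity) h3
    set σ : ℝ := ((C * (1 + R) ^ ε) ^ 2)⁻¹ with hσ
    have hσ0 : 0 < σ := by positivity
    have h7 : a ≤ σ * b := by
      rw [hσ, inv_mul_eq_div, le_div_iff₀ (by positivity)]
      linarith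
    obtain ⟨F', b0, hF'm, hF'1, hF'2, hF's, hF'one, hF'E, hF'i, hF'c⟩ :=
      hloc F R h σ E' (by linarith) hh hσ0 hFm hF1 hF2 hFs hE'm hb1 h7
    have h8 := hR0 (R - 1) (by
      have := le_max_left R0 1
      linarith) E' hE'm (fun φ x => pav_geE hE'm hL hθ (by positivity) (le_max_right _ _) hg' φ x)
      (by linarith) (le_max_left _ _) F' hF'm hF'1 hF'2 hF's hF'one b0 hF'i hF'c
    have h9 : σ ≤ (R - 1) ^ (-(2 * ε)) := by
      have hR10 : 0 < R - 1 := by linarith
      rw [hσ, Real.rpow_neg hR10.le]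
      apply inv_anti₀ (by positivity)
      calc (R - 1) ^ (2 * ε) ≤ (1 + R) ^ (2 * ε) := by
            apply Real.rpow_le_rpow hR10.le (by linarith) (by positivity)
        _ = ((1 + R) ^ ε) ^ 2 := by
            rw [← Real.rpow_natCast, ← Real.rpow_mul (by linarith)]
            congr 1
            push_cast
            ring
        _ ≤ (C * (1 + R) ^ ε) ^ 2 := by
            apply pow_le_pow_left₀ (by positivity)
            nlinarith
    have h10 : C0 * σ ≤ C0 * (R - 1) ^ (-(2 * ε)) := mul_le_mul_of_nonneg_left h9 hC0.le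
    linarith

end REPS
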