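import Pool.Agent.REPS.Nk
import Pool.Agent.REPS.Band
import Pool.Agent.REPS.Geom2
import Pool.Agent.REPS.Piece
import Pool.Agent.REPS.Dom2
import Pool.Agent.REPS.Cut

/-!
# Row LOWER of project 16 (MP_fe240d_an), first part: one use of the Jensen inequality for each
packet, and the sections 8 (a), (b) of the page
-/

open MeasureTheory Filter Topology Real Metric FourierTransform
open scoped ENNReal NNReal InnerProductSpace Pointwise

namespace REPS

open Helper77.TA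

set_option linter.unusedSectionVars false

namespace LowerRow

section general

theorem integral_lin3 {α : Type*} [MeasurableSpace α] {μ : Measure α} {f g h : α → ℝ}
    (hf : Integrable f μ) (hg : Integrable g μ) (hh : Integrable h μ) (b c : ℝ) :
    Integrable (fun x => f x + b * g x + c * h x) μ ∧
      ∫ x, (f x + b * g x + c * h x) ∂μ = (∫ x, f x ∂μ) + b * (∫ x, g x ∂μ) +
        c * (∫ x, h x ∂μ) := by
  have h1 : Integrable (fun x => f x + b * g x) μ := hf.add (hg.const_mul b)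
  have h2 : Integrable (fun x => c * h x) μ := hh.const_mul c
  refine ⟨h1.add h2, ?_⟩
  have e1 : ∫ x, (f x + b * g x + c * h x) ∂μ =
      (∫ x, (f x + b * g x) ∂μ) + ∫ x, c * h x ∂μ := integral_add h1 h2
  have e2 : ∫ x, (f x + b * g x) ∂μ = (∫ x, f x ∂μ) + ∫ x, b * g x ∂μ :=
    integral_add hf (hg.const_mul b)
  rw [e1, e2, integral_const_mul, integral_const_mul]

theorem integral_add4 {α : Type*} [MeasurableSpace α] {μ : Measure α} {f g h k : α → ℝ}
    (hf : Integrable f μ) (hg : Integrable g μ) (hh : Integrable h μ) (hk : Integrable k μ) :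
    ∫ x, (f x + g x + h x + k x) ∂μ = (∫ x, f x ∂μ) + (∫ x, g x ∂μ) + (∫ x, h x ∂μ) +
      ∫ x, k x ∂μ := by
  obtain ⟨h1, h2⟩ := integral_lin3 hf hg hh 1 1
  obtain ⟨-, h3⟩ := integral_lin3 h1 hk hk 1 0
  rw [h2] at h3
  simp only [one_mul, zero_mul, add_zero] at h3
  exact h3

/-- Cauchy-Schwarz on a set of finite measure. -/
theorem sq_setIntegral_le {α : Type*} [MeasurableSpace α] {μ : Measure α} {S : Set α}
    (hv : μ S ≠ ∞) {X : α → ℝ} (h1 : Integrable X μ)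
    (h2 : Integrable (fun x => X x ^ 2) μ) :
    (∫ x in S, X x ∂μ) ^ 2 ≤ μ.real S * ∫ x, X x ^ 2 ∂μ := by
  have hc : IntegrableOn (fun _ => (1 : ℝ)) S μ := integrableOn_const hv
  have h3 : ∀ m : ℝ, 0 ≤ μ.real S * (m * m) + (-2 * ∫ x in S, X x ∂μ) * m +
      ∫ x in S, X x ^ 2 ∂μ := by
    intro m
    obtain ⟨-, k2⟩ := integral_lin3 h2.integrableOn h1.integrableOn hc (-2 * m) (m * m)
    have k3 : 0 ≤ ∫ x in S, (X x ^ 2 + (-2 * m) * X x + (m * m) * 1) ∂μ :=
      integral_nonneg fun x => by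
        have : X x ^ 2 + (-2 * m) * X x + (m * m) * 1 = (X x - m) ^ 2 := by ring
        simp only [this]
        exact sq_nonneg _
    rw [k2, integral_const, measureReal_restrict_apply_univ, smul_eq_mul, mul_one] at k3
    linarith
  have h4 := discrim_le_zero h3
  rw [discrim] at h4
  have h5 : ∫ x in S, X x ^ 2 ∂μ ≤ ∫ x, X x ^ 2 ∂μ :=
    setIntegral_le_integral h2 (Eventually.of_forall fun x => sq_nonneg _)
  have h6 : μ.real S * ∫ x in S, X x ^ 2 ∂μ ≤ μ.real S * ∫ x, X x ^ 2 ∂μ :=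
    mul_le_mul_of_nonneg_left h5 measureReal_nonneg
  nlinarith

variable {V : Type*} [NormedAddCommGroup V] [InnerProductSpace ℝ V] [FiniteDimensional ℝ V]
  [MeasurableSpace V] [BorelSpace V]

theorem pav_comm {y y' : ℝ} (hy : 0 < y) (hy' : 0 < y') (ω ω' : V) {g : V → ℝ}
    (hg : Measurable g) {C : ℝ} (hC : ∀ x, |g x| ≤ C) (x : V) :
    pav y ω (pav y' ω' g) x = pav y' ω' (pav y ω g) x := by
  have hp := pm_prob hy
  have hp' := pm_prob hy'
  rw [pav_eq hy, pav_eq hy']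
  simp only [pav_eq hy, pav_eq hy']
  have h1 : Integrable (Function.uncurry fun (t s : ℝ) => g (x - t • ω - s • ω'))
      ((pm y).prod (pm y')) := by
    refine Integrable.of_bound (C := C) ?_ (Eventually.of_forall fun p => hC _)
    have h2 : Measurable fun p : ℝ × ℝ => g (x - p.1 • ω - p.2 • ω') :=
      hg.comp ((measurable_const.sub (measurable_fst.smul_const ω)).sub
        (measurable_snd.smul_const ω'))
    exact h2.aestronglyMeasurable
  rw [integral_integral_swap h1]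
  refine integral_congr_ae (Eventually.of_forall fun s => ?_)
  simp only
  refine integral_congr_ae (Eventually.of_forall fun t => ?_)
  simp only
  congr 1
  abel

theorem abs_indicator_one_le (S : Set V) (x : V) : |S.indicator (1 : V → ℝ) x| ≤ 1 := by
  by_cases h : x ∈ S
  · simp [h]
  · simp [h]

theorem measurable_indicator_one {S : Set V} (hS : MeasurableSet S) :
    Measurable (S.indicator (1 : V → ℝ)) := measurable_one.indicator hS

theorem pav_ind_nonneg {y : ℝ} (hy : 0 < y) (ω : V) (S : Set V) (x : V) :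
    0 ≤ pav y ω (S.indicator 1) x :=
  pav_nonnegM hy ω (fun z => Set.indicator_nonneg (fun _ _ => zero_le_one) z) x

theorem pav_ind_le_one {y : ℝ} (hy : 0 < y) (ω : V) {S : Set V} (hS : MeasurableSet S) (x : V) :
    pav y ω (S.indicator 1) x ≤ 1 :=
  pav_leM hy ω (measurable_indicator_one hS) (abs_indicator_one_le S) x

/-- Averages of indicators of `E`, of its part in `U ∩ Z`, of the complements. -/
theorem pav_ind_sub {y : ℝ} (hy : 0 < y) (ω : V) {E U Z : Set V} (hE : MeasurableSet E)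
    (hU : MeasurableSet U) (hZ : MeasurableSet Z) (x : V) :
    pav y ω (E.indicator 1) x - pav y ω (Zᶜ.indicator 1) x - pav y ω (Uᶜ.indicator 1) x ≤
      pav y ω ((E ∩ U ∩ Z).indicator 1) x := by
  rw [pav_eq hy, pav_eq hy, pav_eq hy, pav_eq hy]
  have i1 := integrable_line hy ω (measurable_indicator_one hE) (abs_indicator_one_le E) x
  have i2 := integrable_line hy ω (measurable_indicator_one hZ.compl) (abs_indicator_one_le Zᶜ) x
  have i3 := integrable_line hy ω (measurable_indicator_one hU.compl) (abs_indicator_one_le Uᶜ) x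
  have i4 := integrable_line hy ω (measurable_indicator_one ((hE.inter hU).inter hZ))
    (abs_indicator_one_le (E ∩ U ∩ Z)) x
  obtain ⟨j1, j2⟩ := integral_lin3 i1 i2 i3 (-1) (-1)
  have j3 := integral_mono j1 i4 (fun t => ?_)
  · rw [j2] at j3
    linarith
  by_cases h1 : x - t • ω ∈ E <;> by_cases h2 : x - t • ω ∈ U <;> by_cases h3 : x - t • ω ∈ Z <;>
    simp [h1, h2, h3]

/-- One use of the Jensen inequality, for one packet. -/
theorem lower_one {G : V → ℂ} (h1 : Integrable G) (h2 : MemLp G 2) {ρ S : ℝ} {ω : V}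
    (hω : ‖ω‖ = 1) (hsupp : ∀ ξ, G ξ ≠ 0 → 0 ≤ ρ - ⟪ξ, ω⟫_ℝ ∧ ρ - ⟪ξ, ω⟫_ℝ ≤ S) {y : ℝ}
    (hy : 0 < y) {w : V → ℝ} (hw : Measurable w) (hw0 : ∀ x, 0 ≤ w x) (hw1 : ∀ x, w x ≤ 1)
    {Z U : Set V} (hZ : MeasurableSet Z) (hU : MeasurableSet U) (hZU : Z ⊆ U) {a Q : ℝ}
    (ha : 0 < a) (ha1 : a ≤ 1) (hQ : 1 ≤ Q) :
    (∫ x, w x * ‖pkt G ρ y ω x‖ ^ 2) +
      (-Real.log a) * (∫ x, w x * ‖pkt G ρ y ω x‖ ^ 2 * pav y ω (Z.indicator 1) x) -
      Real.log Q * (∫ x, w x * ‖pkt G ρ y ω x‖ ^ 2 * pav y ω (Uᶜ.indicator 1) x) ≤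
    a⁻¹ * (∫ x in Z, ‖𝓕⁻ G x‖ ^ 2) + (∫ x in U, ‖𝓕⁻ G x‖ ^ 2) +
      Q⁻¹ * (∫ x, ‖𝓕⁻ G x‖ ^ 2) := by
  classical
  set A : V → ℝ := fun x => if x ∈ Z then a else if x ∈ U then 1 else Q with hA
  have hAm : Measurable A := Measurable.ite hZ measurable_const
    (Measurable.ite hU measurable_const measurable_const)
  have hAa : ∀ x, a ≤ A x := by
    intro x
    simp only [hA]
    split_ifs
    · exact le_rfl
    · exact ha1
    · exact ha1.trans hQ
  have hAQ : ∀ x, A x ≤ Q := by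
    intro x
    simp only [hA]
    split_ifs
    · exact ha1.trans hQ
    · exact hQ
    · exact le_rfl
  have hnk := nk (ι := Unit) h1 h2 (fun _ => ω) (fun _ => hω) (fun _ => hsupp) (fun _ => y)
    (fun _ => hy) (fun _ => w) (fun _ => hw) (fun _ => hw0) (K := Q) (a := a)
    (fun _ x => (hw1 x).trans hQ) (fun _ => 1) A measurable_const hAm (fun _ => le_rfl)
    (fun _ => hQ) ha hAa hAQ (fun x => by
      rw [Finset.univ_unique, Finset.sum_singleton]
      exact pav_leM hy ω hw (fun z => by rw [abs_of_nonneg (hw0 z)]; exact hw1 z) x)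
  simp only [Finset.univ_unique, Finset.sum_singleton, Real.log_one, sub_zero] at hnk
  -- the function `φ = w |T G|²`
  have hpc : Continuous fun x => ‖pkt G ρ y ω x‖ ^ 2 :=
    (continuous_pkt h1 hsupp hy).norm.pow 2
  have hpi : Integrable fun x => ‖pkt G ρ y ω x‖ ^ 2 :=
    integrable_sq_fourierInv (integrable_damp h1 hsupp hy) (memLp_damp h1 h2 hsupp hy)
  set φ : V → ℝ := fun x => w x * ‖pkt G ρ y ω x‖ ^ 2 with hφ
  have hφm : Measurable φ := hw.mul hpc.measurable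
  have hφi : Integrable φ := by
    refine hpi.mono' hφm.aestronglyMeasurable (Eventually.of_forall fun x => ?_)
    rw [hφ, Real.norm_of_nonneg (mul_nonneg (hw0 x) (sq_nonneg _))]
    exact mul_le_of_le_one_left (sq_nonneg _) (hw1 x)
  obtain ⟨a1, a2, a3⟩ := pav_adj hy ω hφi hφm (measurable_indicator_one hZ)
    (abs_indicator_one_le Z)
  obtain ⟨b1, b2, b3⟩ := pav_adj hy ω hφi hφm (measurable_indicator_one hU.compl)
    (abs_indicator_one_le Uᶜ)
  obtain ⟨c1, c2⟩ := integral_pav hy ω hφi hφm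
  have hlog : ∀ x, 1 - Real.log (A x) = 1 + (-Real.log a) * Z.indicator 1 x -
      Real.log Q * Uᶜ.indicator 1 x := by
    intro x
    simp only [hA, Set.indicator_apply, Set.mem_compl_iff, Pi.one_apply]
    by_cases hx : x ∈ Z
    · have hx' := hZU hx
      simp only [hx, hx', if_true, not_true_eq_false, if_false]
      ring
    · by_cases hx' : x ∈ U
      · simp [hx, hx']
      · simp [hx, hx']
  have hL : ∫ x, pav y ω φ x * (1 - Real.log (A x)) =
      (∫ x, φ x) + (-Real.log a) * (∫ x, φ x * pav y ω (Z.indicator 1) x) -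
        Real.log Q * (∫ x, φ x * pav y ω (Uᶜ.indicator 1) x) := by
    rw [a3, b3, ← c2]
    obtain ⟨-, j2⟩ := integral_lin3 c1 a2 b2 (-Real.log a) (-Real.log Q)
    rw [sub_eq_add_neg, ← neg_mul, ← j2]
    refine integral_congr_ae (Eventually.of_forall fun x => ?_)
    simp only [hlog]
    ring
  rw [hL] at hnk
  refine hnk.trans ?_
  have hFi : Integrable fun x => ‖𝓕⁻ G x‖ ^ 2 := integrable_sq_fourierInv h1 h2
  rw [← integral_indicator hZ, ← integral_indicator hU]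
  obtain ⟨k1, k2⟩ := integral_lin3 (hFi.indicator hU) (hFi.indicator hZ) hFi a⁻¹ Q⁻¹
  rw [add_comm (a⁻¹ * _), ← k2]
  refine integral_mono_of_nonneg (Eventually.of_forall fun x => ?_) k1
    (Eventually.of_forall fun x => ?_)
  · exact div_nonneg (sq_nonneg _) (ha.le.trans (hAa x))
  · have hn : 0 ≤ ‖𝓕⁻ G x‖ ^ 2 := sq_nonneg _
    have hai : 0 < a⁻¹ := inv_pos.mpr ha
    have hQi : 0 < Q⁻¹ := inv_pos.mpr (zero_lt_one.trans_le hQ)
    simp only [hA, Set.indicator_apply]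
    by_cases hx : x ∈ Z
    · have hx' := hZU hx
      simp only [hx, hx', if_true]
      rw [div_eq_inv_mul]
      nlinarith [mul_nonneg hQi.le hn]
    · by_cases hx' : x ∈ U
      · simp only [hx, hx', if_true, if_false, mul_zero, div_one]
        nlinarith [mul_nonneg hQi.le hn]
      · simp only [hx, hx', if_false, mul_zero, zero_add]
        rw [div_eq_inv_mul]

/-- Averages of the indicator of a set which is reached only by long translations. -/
theorem pav_slow {y : ℝ} (hy : 0 < y) (ω : V) {S : Set V} (hS : MeasurableSet S) {x : V}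
    {s ε : ℝ} (h : ∀ t : ℝ, x - t • ω ∈ S → s < 1 + t ^ 2)
    (hs : (pm y).real {t | s < 1 + t ^ 2} ≤ ε) : pav y ω (S.indicator 1) x ≤ ε := by
  have hp := pm_prob hy
  have hm : MeasurableSet {t : ℝ | s < 1 + t ^ 2} :=
    measurableSet_lt measurable_const (by fun_prop)
  rw [pav_eq hy]
  have h1 : ∫ t, S.indicator (1 : V → ℝ) (x - t • ω) ∂(pm y) ≤
      ∫ t, {t : ℝ | s < 1 + t ^ 2}.indicator (1 : ℝ → ℝ) t ∂(pm y) := by
    refine integral_mono (integrable_line hy ω (measurable_indicator_one hS)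
      (abs_indicator_one_le S) x) ((integrable_const (1 : ℝ)).indicator hm) fun t => ?_
    by_cases h2 : x - t • ω ∈ S
    · have h3 : t ∈ {t : ℝ | s < 1 + t ^ 2} := h t h2
      rw [Set.indicator_of_mem h2, Set.indicator_of_mem h3]
      simp
    · rw [Set.indicator_of_notMem h2]
      exact Set.indicator_nonneg (fun _ _ => zero_le_one) _
  rw [integral_indicator_one hm] at h1
  exact h1.trans hs

theorem exists_slow {y : ℝ} (hy : 0 < y) {ε : ℝ} (hε : 0 < ε) :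
    ∃ s : ℝ, 1 ≤ s ∧ (pm y).real {t | s < 1 + t ^ 2} ≤ ε := by
  have hp := pm_prob hy
  have h1 := tendsto_measure_iInter_atTop (μ := pm y)
    (s := fun n : ℕ => {t : ℝ | (n : ℝ) < 1 + t ^ 2})
    (fun n => (measurableSet_lt measurable_const (by fun_prop)).nullMeasurableSet)
    (fun m n hmn t ht => by
      have : (m : ℝ) ≤ n := by exact_mod_cast hmn
      exact lt_of_le_of_lt this ht) ⟨0, measure_ne_top _ _⟩
  have h2 : ⋂ n : ℕ, {t : ℝ | (n : ℝ) < 1 + t ^ 2} = ∅ := by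
    ext t
    simp only [Set.mem_iInter, Set.mem_ofPred_eq, Set.mem_empty_iff_false, iff_false, not_forall,
      not_lt]
    exact exists_nat_ge _
  rw [h2, measure_empty] at h1
  have h3 := (ENNReal.tendsto_atTop_zero.mp h1) (ENNReal.ofReal ε) (ENNReal.ofReal_pos.mpr hε)
  obtain ⟨N, hN⟩ := h3
  refine ⟨(max N 1 : ℕ), by simp, ?_⟩
  have h4 := hN (max N 1) (le_max_left _ _)
  exact ENNReal.toReal_le_of_le_ofReal hε.le h4

end general

end LowerRow

open LowerRow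

namespace Par

variable (P : Par) {G : V2 → ℂ}

theorem y0_posL : 0 < P.y0 := zero_lt_one.trans_le P.hy0

theorem q_geL : (4 : ℝ) ≤ P.q := by exact_mod_cast P.hq4

theorem sqrtR_posL : 0 < √P.R := by
  have h1 := P.hR
  have h2 := P.q_geL
  have h3 : (0 : ℝ) < (P.q : ℝ) ^ (4 * P.k) := by positivity
  exact h3.trans_le h1

theorem supp_dirL {F : V2 → ℂ} (hF : ∀ ξ, F ξ ≠ 0 → ξ ∈ ann P.R P.H) (φ : ℝ) (ξ : V2)
    (h : F ξ ≠ 0) : 0 ≤ P.ρ - ⟪ξ, dir φ⟫_ℝ ∧ P.ρ - ⟪ξ, dir φ⟫_ℝ ≤ 2 * P.ρ := by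
  have h1 := (hF ξ h).2
  have h2 := abs_real_inner_le_norm ξ (dir φ)
  rw [norm_dir, mul_one] at h2
  have h3 := abs_le.mp (h2.trans h1)
  unfold ρ
  constructor
  · linarith [h3.2]
  · linarith [h3.1]

theorem Good.annL {P : Par} (hG : P.Good G) : ∀ ξ, G ξ ≠ 0 → ξ ∈ ann P.R P.H :=
  fun ξ h => (hG.supp ξ h).1

theorem T0_contL (hG : P.Good G) (κ : ℕ) : Continuous fun x => ‖P.T0 G κ x‖ ^ 2 :=
  (continuous_pkt hG.int (P.supp_dirL hG.annL _) P.y0_posL).norm.pow 2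

theorem T0_intL (hG : P.Good G) (κ : ℕ) : Integrable fun x => ‖P.T0 G κ x‖ ^ 2 :=
  integrable_sq_fourierInv (integrable_damp hG.int (P.supp_dirL hG.annL _) P.y0_posL)
    (memLp_damp hG.int hG.lp (P.supp_dirL hG.annL _) P.y0_posL)

theorem gp_intL (hG : P.Good G) (i j : ℕ) : Integrable fun x => ‖P.gp G i j x‖ ^ 2 :=
  integrable_sq_fourierInv (Good.piece P hG i j).int (Good.piece P hG i j).lp

theorem gp_contL (hG : P.Good G) (i j : ℕ) : Continuous fun x => ‖P.gp G i j x‖ ^ 2 :=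
  (continuous_fourierInv (Good.piece P hG i j).int).norm.pow 2

theorem St_contL (hG : P.Good G) : Continuous (P.St G) := by
  unfold St
  exact continuous_finsetSum _ fun κ _ => (dens_basic P hG κ).2.2.2.2.1

theorem sum_gp_leL (hG : P.Good G) :
    ∑ κ ∈ Finset.range (P.M 0), ∫ x, ‖P.gp G 0 κ x‖ ^ 2 ≤ 1 := by
  rw [sum_sq P hG]
  exact hG.le

theorem St_intL (hG : P.Good G) : Integrable (P.St G) ∧ ∫ x, P.St G x ≤ 1 := by
  have h1 : ∀ κ ∈ Finset.range (P.M 0), Integrable (P.Sb G κ) := fun κ _ =>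
    (dens_basic P hG κ).2.2.2.2.2.2.1
  refine ⟨integrable_finsetSum _ h1, ?_⟩
  have h2 : ∫ x, P.St G x = ∑ κ ∈ Finset.range (P.M 0), ∫ x, P.Sb G κ x :=
    integral_finsetSum _ h1
  rw [h2, Finset.sum_congr rfl fun κ _ => (dens_basic P hG κ).2.2.2.2.2.2.2.2.1]
  exact P.sum_gp_leL hG

theorem St_nonnegL (hG : P.Good G) (x : V2) : 0 ≤ P.St G x :=
  Finset.sum_nonneg fun κ _ => (dens_basic P hG κ).2.1 x

theorem St_volumeL (hG : P.Good G) {s : ℝ} (hs : 0 < s) :
    volume {x | s ≤ P.St G x} ≠ ∞ ∧ volume.real {x | s ≤ P.St G x} ≤ s⁻¹ := by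
  obtain ⟨h1, h2⟩ := P.St_intL hG
  have h3 : volume {x | s ≤ P.St G x} < ∞ := by
    have := h1.measure_norm_ge_lt_top hs
    refine lt_of_le_of_lt (measure_mono fun x hx => ?_) this
    have h4 : P.St G x ≤ ‖P.St G x‖ := le_abs_self _
    exact hx.trans h4
  refine ⟨h3.ne, ?_⟩
  have h5 := mul_meas_ge_le_integral_of_nonneg (μ := volume)
    (Eventually.of_forall (P.St_nonnegL hG)) h1 s
  rw [inv_eq_one_div, le_div_iff₀ hs, mul_comm]
  exact h5.trans h2

/-- Section 8 (a) of the page. -/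
theorem lower_A {C1 Cn : ℝ} (hC1 : 0 < C1) (hCn : 0 < Cn) (hG : P.Good G)
    (hK : ∀ κ < P.M 0, ∀ x, ‖P.gp G 0 κ x‖ ^ 2 ≤ C1 * P.E G κ x ∧
      ‖P.T0 (P.piece G 0 κ) κ x‖ ^ 2 ≤ C1 * P.E G κ x ∧
      ‖P.gp G 0 κ x‖ ^ 2 ≤ C1 * pav P.y0 (dir (P.cen 0 κ)) (pav (1 / √P.R) (nrm (P.cen 0 κ))
        (fun z => ‖P.T0 (P.piece G 0 κ) κ z‖ ^ 2)) x)
    (hnt : ∀ f : ℕ → V2 → ℝ, (∀ κ, Measurable (f κ)) →
      (∀ κ x, 0 ≤ f κ x) → (∀ κ, Integrable (f κ)) →
      (∀ x, ∑ κ ∈ Finset.range (P.M 0), f κ x ≤ (P.q : ℝ) ^ 40 * P.St G x) →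
      ∀ lo hi : ℝ, 0 < lo → lo ≤ hi →
      (∑ κ ∈ Finset.range (P.M 0), ∫ x in {x | P.St G x < lo}, f κ x *
        pav P.y0 (dir (P.cen 0 κ)) ({x | hi ≤ P.St G x}.indicator 1) x) +
      (∑ κ ∈ Finset.range (P.M 0), ∫ x in {x | P.St G x < lo}, f κ x *
        pav P.y0 (dir (P.cen 0 κ)) (pav (1 / √P.R) (nrm (P.cen 0 κ))
          ({x | hi ≤ P.St G x}.indicator 1)) x) ≤
      Cn / P.q * (∑ κ ∈ Finset.range (P.M 0), ∫ x, f κ x) +
      (P.q : ℝ) ^ 100 * √(lo / hi) * √(∑ κ ∈ Finset.range (P.M 0), ∫ x, f κ x))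
    {w : V2 → ℝ} (hw : Measurable w) (hw0 : ∀ x, 0 ≤ w x) (hw1 : ∀ x, w x ≤ 1)
    {lo hi : ℝ} (hlo : 0 < lo) (hle : lo ≤ hi) (hwlo : ∀ x, lo ≤ P.St G x → 1 / 2 ≤ w x)
    (hq : C1 ≤ (P.q : ℝ) ^ 24) :
    ∫ x in {x | hi ≤ P.St G x}, P.D1 G x ≤
      C1 * (2 * (∑ κ ∈ Finset.range (P.M 0), ∫ x, w x * ‖P.T0 (P.piece G 0 κ) κ x‖ ^ 2) +
        Cn / P.q * C1 + (P.q : ℝ) ^ 100 * √(lo / hi) * √C1) := by
  have hq4 := P.q_geL
  have hy0 := P.y0_posL
  have hy1 : 0 < 1 / √P.R := one_div_pos.mpr P.sqrtR_posL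
  set u : ℕ → V2 → ℝ := fun κ x => ‖P.T0 (P.piece G 0 κ) κ x‖ ^ 2 with hu
  have huc : ∀ κ, Continuous (u κ) := fun κ => P.T0_contL (Good.piece P hG 0 κ) κ
  have hui : ∀ κ, Integrable (u κ) := fun κ => P.T0_intL (Good.piece P hG 0 κ) κ
  have hu0 : ∀ κ x, 0 ≤ u κ x := fun κ x => sq_nonneg _
  set B : Set V2 := {x | hi ≤ P.St G x} with hB
  have hBm : MeasurableSet B := measurableSet_le measurable_const (P.St_contL hG).measurable
  set L : Set V2 := {x | P.St G x < lo} with hL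
  have hLm : MeasurableSet L := measurableSet_lt (P.St_contL hG).measurable measurable_const
  have hib := measurable_indicator_one hBm
  set Q : ℕ → V2 → ℝ := fun κ => pav P.y0 (dir (P.cen 0 κ)) (pav (1 / √P.R)
    (nrm (P.cen 0 κ)) (B.indicator 1)) with hQ
  have hQ0' : ∀ κ x, 0 ≤ pav (1 / √P.R) (nrm (P.cen 0 κ)) (B.indicator 1) x := fun κ x =>
    pav_ind_nonneg hy1 _ B x
  have hQ1' : ∀ κ x, |pav (1 / √P.R) (nrm (P.cen 0 κ)) (B.indicator 1) x| ≤ 1 := fun κ x => by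
    rw [abs_of_nonneg (hQ0' κ x)]
    exact pav_ind_le_one hy1 _ hBm x
  have hQm' : ∀ κ, Measurable (pav (1 / √P.R) (nrm (P.cen 0 κ)) (B.indicator 1)) := fun κ =>
    measurable_pav hy1 _ hib
  have hQ0 : ∀ κ x, 0 ≤ Q κ x := fun κ x => pav_nonnegM hy0 _ (hQ0' κ) x
  have hQ1 : ∀ κ x, Q κ x ≤ 1 := fun κ x => pav_leM hy0 _ (hQm' κ) (hQ1' κ) x
  have hQm : ∀ κ, Measurable (Q κ) := fun κ => measurable_pav hy0 _ (hQm' κ)
  have huQ : ∀ κ, Integrable fun x => u κ x * Q κ x := fun κ => by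
    refine (hui κ).mono' ((huc κ).measurable.mul (hQm κ)).aestronglyMeasurable
      (Eventually.of_forall fun x => ?_)
    rw [Real.norm_of_nonneg (mul_nonneg (hu0 κ x) (hQ0 κ x))]
    exact mul_le_of_le_one_right (hu0 κ x) (hQ1 κ x)
  have hwu : ∀ κ, Integrable fun x => w x * u κ x := fun κ => by
    refine (hui κ).mono' (hw.mul (huc κ).measurable).aestronglyMeasurable
      (Eventually.of_forall fun x => ?_)
    rw [Real.norm_of_nonneg (mul_nonneg (hw0 x) (hu0 κ x))]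
    exact mul_le_of_le_one_left (hu0 κ x) (hw1 x)
  -- total mass
  have hM : ∑ κ ∈ Finset.range (P.M 0), ∫ x, u κ x ≤ C1 := by
    calc ∑ κ ∈ Finset.range (P.M 0), ∫ x, u κ x
        ≤ ∑ κ ∈ Finset.range (P.M 0), C1 * ∫ x, ‖P.gp G 0 κ x‖ ^ 2 := by
          refine Finset.sum_le_sum fun κ hκ => ?_
          obtain ⟨-, -, -, -, -, d6, -, d8, -⟩ := dens_basic P hG κ
          rw [← d8, ← integral_const_mul]
          exact integral_mono (hui κ) (d6.const_mul C1) fun x =>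
            (hK κ (Finset.mem_range.mp hκ) x).2.1
      _ = C1 * ∑ κ ∈ Finset.range (P.M 0), ∫ x, ‖P.gp G 0 κ x‖ ^ 2 := by
          rw [Finset.mul_sum]
      _ ≤ C1 := by
          have := P.sum_gp_leL hG
          nlinarith
  have hM0 : 0 ≤ ∑ κ ∈ Finset.range (P.M 0), ∫ x, u κ x :=
    Finset.sum_nonneg fun κ _ => integral_nonneg (hu0 κ)
  -- the transport
  have hn := hnt u (fun κ => (huc κ).measurable) hu0 hui (fun x => by
    unfold St
    rw [Finset.mul_sum]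
    refine Finset.sum_le_sum fun κ hκ => ?_
    obtain ⟨-, d2, d3, -⟩ := dens_basic P hG κ
    have h1 := (hK κ (Finset.mem_range.mp hκ) x).2.1
    have h2 := d3 x
    have h3 := d2 x
    have h4 : P.A ^ 2 = (P.q : ℝ) ^ 16 := by
      unfold A
      ring
    rw [h4] at h2
    calc u κ x ≤ C1 * P.E G κ x := h1
      _ ≤ C1 * ((P.q : ℝ) ^ 16 * P.Sb G κ x) := mul_le_mul_of_nonneg_left h2 hC1.le
      _ ≤ (P.q : ℝ) ^ 24 * ((P.q : ℝ) ^ 16 * P.Sb G κ x) := by
          refine mul_le_mul_of_nonneg_right hq (by positivity)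
      _ = (P.q : ℝ) ^ 40 * P.Sb G κ x := by ring) lo hi hlo hle
  have hn1 : 0 ≤ ∑ κ ∈ Finset.range (P.M 0), ∫ x in {x | P.St G x < lo}, u κ x *
        pav P.y0 (dir (P.cen 0 κ)) ({x | hi ≤ P.St G x}.indicator 1) x :=
    Finset.sum_nonneg fun κ _ => integral_nonneg fun x =>
      mul_nonneg (hu0 κ x) (pav_ind_nonneg hy0 _ _ x)
  have hn2 : ∑ κ ∈ Finset.range (P.M 0), ∫ x in L, u κ x * Q κ x ≤
      Cn / P.q * C1 + (P.q : ℝ) ^ 100 * √(lo / hi) * √C1 := by
    refine (le_trans ?_ hn).trans ?_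
    · exact le_add_of_nonneg_left hn1
    · have hqp : (0 : ℝ) < P.q := by linarith
      gcongr
  -- one piece
  have hone : ∀ κ ∈ Finset.range (P.M 0), ∫ x in B, ‖P.gp G 0 κ x‖ ^ 2 ≤
      C1 * (2 * (∫ x, w x * u κ x) + ∫ x in L, u κ x * Q κ x) := by
    intro κ hκ
    have hκ' := Finset.mem_range.mp hκ
    obtain ⟨p1, p2⟩ := integral_pav hy1 (nrm (P.cen 0 κ)) (hui κ) (huc κ).measurable
    have p3 := measurable_pav hy1 (nrm (P.cen 0 κ)) (huc κ).measurable
    obtain ⟨a1, a2, a3⟩ := pav_adj hy0 (dir (P.cen 0 κ)) p1 p3 hib (abs_indicator_one_le B)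
    have b0 : ∀ x, |pav P.y0 (dir (P.cen 0 κ)) (B.indicator 1) x| ≤ 1 := fun x => by
      rw [abs_of_nonneg (pav_ind_nonneg hy0 _ B x)]
      exact pav_ind_le_one hy0 _ hBm x
    obtain ⟨b1, b2, b3⟩ := pav_adj hy1 (nrm (P.cen 0 κ)) (hui κ) (huc κ).measurable
      (measurable_pav hy0 (dir (P.cen 0 κ)) hib) b0
    have h1 : ∫ x in B, ‖P.gp G 0 κ x‖ ^ 2 ≤ C1 * ∫ x, u κ x * Q κ x := by
      have h2 : ∫ x, u κ x * Q κ x = ∫ x, pav P.y0 (dir (P.cen 0 κ)) (pav (1 / √P.R)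
          (nrm (P.cen 0 κ)) (u κ)) x * B.indicator 1 x := by
        rw [← a3, ← b3]
        refine integral_congr_ae (Eventually.of_forall fun x => ?_)
        simp only [hQ]
        rw [pav_comm hy0 hy1 _ _ hib (abs_indicator_one_le B)]
      rw [h2, ← integral_const_mul, ← integral_indicator hBm]
      refine integral_mono ((P.gp_intL hG 0 κ).indicator hBm) (a2.const_mul C1) fun x => ?_
      by_cases hx : x ∈ B
      · simp only [Set.indicator_of_mem hx, Pi.one_apply, mul_one]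
        exact (hK κ hκ' x).2.2
      · simp only [Set.indicator_of_notMem hx, mul_zero]
        exact le_rfl
    refine h1.trans (mul_le_mul_of_nonneg_left ?_ hC1.le)
    rw [← integral_indicator hLm, ← integral_const_mul, ← integral_add ((hwu κ).const_mul 2)
      ((huQ κ).indicator hLm)]
    refine integral_mono (huQ κ) (((hwu κ).const_mul 2).add ((huQ κ).indicator hLm))
      fun x => ?_
    simp only
    by_cases hx : x ∈ L
    · simp only [Set.indicator_of_mem hx]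
      have := mul_nonneg (hw0 x) (hu0 κ x)
      linarith
    · simp only [Set.indicator_of_notMem hx, add_zero]
      have h3 : 1 / 2 ≤ w x := hwlo x (not_lt.mp hx)
      have h4 := hQ1 κ x
      have h5 := hu0 κ x
      nlinarith [mul_le_of_le_one_right h5 h4]
  have hD : ∫ x in B, P.D1 G x = ∑ κ ∈ Finset.range (P.M 0), ∫ x in B, ‖P.gp G 0 κ x‖ ^ 2 :=
    integral_finsetSum _ fun κ _ => (P.gp_intL hG 0 κ).integrableOn
  rw [hD]
  refine (Finset.sum_le_sum hone).trans ?_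
  rw [← Finset.mul_sum, Finset.sum_add_distrib, ← Finset.mul_sum]
  refine mul_le_mul_of_nonneg_left ?_ hC1.le
  linarith

/-- Section 8 (b) of the page: the stopped part and the unit packets. -/
theorem lower_B {θ a ε ν Qc : ℝ} (hθ : 0 < θ) (ha : 0 < a) (ha1 : a ≤ 1) (hε : 0 ≤ ε)
    (hQc : 1 ≤ Qc) (hG : P.Good G) (K : Ker) {τ : ℝ} (hτ : 0 < τ) {w : V2 → ℝ}
    (hw : Continuous w) (hw0 : ∀ x, 0 ≤ w x) (hw1 : ∀ x, w x ≤ 1)
    (hwB : Band (fun x => (w x : ℂ)) (Metric.closedBall 0 (2 * P.B)))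
    {E U : Set V2} (hE : MeasurableSet E) (hU : MeasurableSet U)
    (hEθ : ∀ φ x, θ ≤ pav P.y0 (dir φ) (E.indicator 1) x)
    (hslow : ∀ κ < P.M 0, ∀ x, P.h G K τ 1 (κ / P.b) x ≤ 1 / 4 →
      pav P.y0 (dir (P.cen 0 κ)) ({x | P.h G K τ 1 (κ / P.b) x ≤ 1 / 2}ᶜ.indicator 1) x ≤ ε)
    (hν : (∑ κ ∈ Finset.range (P.M 0), ∫ x, w x * ‖P.T0 G κ x‖ ^ 2 *
        pav P.y0 (dir (P.cen 0 κ)) (Uᶜ.indicator 1) x) +
      (∑ κ ∈ Finset.range (P.M 0), ∫ x, w x * ‖P.T0 (P.piece G 0 κ) κ x‖ ^ 2 *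
        pav P.y0 (dir (P.cen 0 κ)) (Uᶜ.indicator 1) x) ≤ ν) :
    Integrable (P.m0 G K G τ) ∧ Integrable (P.mS G K τ) ∧ (∀ x, 0 ≤ P.m0 G K G τ x) ∧
      (∀ x, 0 ≤ P.mS G K τ x) ∧
    (1 + (-Real.log a) * (θ - ε)) *
        (∑ κ ∈ Finset.range (P.M 0), ∫ x, w x * ‖P.T0 (P.piece G 0 κ) κ x‖ ^ 2) ≤
      (-Real.log a) * (4 / θ) * ((∫ x in E ∩ U, P.m0 G K G τ x) + ν) +
      ((-Real.log a) + Real.log Qc) * ν + 2 / a * (∫ x in E ∩ U, P.mS G K τ x) +
      (∫ x in U, P.D1 G x) + Qc⁻¹ := by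
  have hy0 := P.y0_posL
  have hk := P.hk
  have hla : 0 ≤ -Real.log a := neg_nonneg.mpr (Real.log_nonpos ha.le ha1)
  have hlQ : 0 ≤ Real.log Qc := Real.log_nonneg hQc
  -- notation
  set u : ℕ → V2 → ℝ := fun κ x => ‖P.T0 (P.piece G 0 κ) κ x‖ ^ 2 with hu
  have huc : ∀ κ, Continuous (u κ) := fun κ => P.T0_contL (Good.piece P hG 0 κ) κ
  have hui : ∀ κ, Integrable (u κ) := fun κ => P.T0_intL (Good.piece P hG 0 κ) κ
  have hu0 : ∀ κ x, 0 ≤ u κ x := fun κ x => sq_nonneg _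
  set v : ℕ → V2 → ℝ := fun κ x => ‖P.T0 G κ x‖ ^ 2 with hv
  have hvc : ∀ κ, Continuous (v κ) := fun κ => P.T0_contL hG κ
  have hvi : ∀ κ, Integrable (v κ) := fun κ => P.T0_intL hG κ
  have hv0 : ∀ κ x, 0 ≤ v κ x := fun κ x => sq_nonneg _
  set g : ℕ → V2 → ℝ := fun κ x => ‖P.gp G 0 κ x‖ ^ 2 with hg
  have hgc : ∀ κ, Continuous (g κ) := fun κ => P.gp_contL hG 0 κ
  have hgi : ∀ κ, Integrable (g κ) := fun κ => P.gp_intL hG 0 κ
  have hg0 : ∀ κ x, 0 ≤ g κ x := fun κ x => sq_nonneg _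
  set h : ℕ → V2 → ℝ := fun κ => P.h G K τ 1 (κ / P.b) with hh
  have hhb := fun κ : ℕ => cut_basic P K hG hτ (i := 1) (j := κ / P.b) hk
  have hhc : ∀ κ, Continuous (h κ) := fun κ => (hhb κ).1
  have hh0 : ∀ κ x, 0 ≤ h κ x := fun κ => (hhb κ).2.1
  have hh1 : ∀ κ x, h κ x ≤ 1 := fun κ => (hhb κ).2.2.1
  have hhB : ∀ κ, Band (fun x => (h κ x : ℂ)) (P.fbox 1 (κ / P.b)) := fun κ =>
    (hhb κ).2.2.2.2.2
  set N : ℕ → V2 → ℝ := fun κ => pav P.y0 (dir (P.cen 0 κ)) (Uᶜ.indicator 1) with hN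
  have hNm : ∀ κ, Measurable (N κ) := fun κ =>
    measurable_pav hy0 _ (measurable_indicator_one hU.compl)
  have hN0 : ∀ κ x, 0 ≤ N κ x := fun κ x => pav_ind_nonneg hy0 _ _ x
  have hN1 : ∀ κ x, N κ x ≤ 1 := fun κ x => pav_ind_le_one hy0 _ hU.compl x
  -- multiplication by bounded functions
  have hmul : ∀ {f b : V2 → ℝ}, Integrable f → Measurable f → (∀ x, 0 ≤ f x) → Measurable b →
      (∀ x, 0 ≤ b x) → (∀ x, b x ≤ 1) → Integrable fun x => b x * f x := by
    intro f b hf hfm hf0 hb hb0 hb1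
    refine hf.mono' (hb.mul hfm).aestronglyMeasurable (Eventually.of_forall fun x => ?_)
    rw [Real.norm_of_nonneg (mul_nonneg (hb0 x) (hf0 x))]
    exact mul_le_of_le_one_left (hf0 x) (hb1 x)
  have hwu : ∀ κ, Integrable fun x => w x * u κ x := fun κ =>
    hmul (hui κ) (huc κ).measurable (hu0 κ) hw.measurable hw0 hw1
  have hwv : ∀ κ, Integrable fun x => w x * v κ x := fun κ =>
    hmul (hvi κ) (hvc κ).measurable (hv0 κ) hw.measurable hw0 hw1
  have hwum : ∀ κ, Measurable fun x => w x * u κ x := fun κ =>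
    hw.measurable.mul (huc κ).measurable
  have hwvm : ∀ κ, Measurable fun x => w x * v κ x := fun κ =>
    hw.measurable.mul (hvc κ).measurable
  have hwu0 : ∀ κ x, 0 ≤ w x * u κ x := fun κ x => mul_nonneg (hw0 x) (hu0 κ x)
  have hwv0 : ∀ κ x, 0 ≤ w x * v κ x := fun κ x => mul_nonneg (hw0 x) (hv0 κ x)
  set H : ℕ → Set V2 := fun κ => {x | 1 / 4 < h κ x} with hH
  have hHm : ∀ κ, MeasurableSet (H κ) := fun κ =>
    measurableSet_lt measurable_const (hhc κ).measurable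
  have hHi : ∀ κ, Integrable fun x => (H κ).indicator 1 x * (w x * u κ x) := fun κ =>
    hmul (hwu κ) (hwum κ) (hwu0 κ) (measurable_indicator_one (hHm κ))
      (fun x => Set.indicator_nonneg (fun _ _ => zero_le_one) x)
      (fun x => (le_abs_self _).trans (abs_indicator_one_le _ x))
  have hNu : ∀ κ, Integrable fun x => N κ x * (w x * u κ x) := fun κ =>
    hmul (hwu κ) (hwum κ) (hwu0 κ) (hNm κ) (hN0 κ) (hN1 κ)
  have hNv : ∀ κ, Integrable fun x => N κ x * (w x * v κ x) := fun κ =>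
    hmul (hwv κ) (hwvm κ) (hwv0 κ) (hNm κ) (hN0 κ) (hN1 κ)
  have hhwv : ∀ κ, Integrable fun x => h κ x * (w x * v κ x) := fun κ =>
    hmul (hwv κ) (hwvm κ) (hwv0 κ) (hhc κ).measurable (hh0 κ) (hh1 κ)
  have hhwu : ∀ κ, Integrable fun x => h κ x * (w x * u κ x) := fun κ =>
    hmul (hwu κ) (hwum κ) (hwu0 κ) (hhc κ).measurable (hh0 κ) (hh1 κ)
  have hhv : ∀ κ, Integrable fun x => h κ x * v κ x := fun κ =>
    hmul (hvi κ) (hvc κ).measurable (hv0 κ) (hhc κ).measurable (hh0 κ) (hh1 κ)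
  have hhvm : ∀ κ, Measurable fun x => h κ x * v κ x := fun κ =>
    (hhc κ).measurable.mul (hvc κ).measurable
  have hhg : ∀ κ, Integrable fun x => (1 - h κ x) * g κ x := fun κ =>
    hmul (hgi κ) (hgc κ).measurable (hg0 κ) (measurable_const.sub (hhc κ).measurable)
      (fun x => sub_nonneg.mpr (hh1 κ x)) (fun x => by linarith [hh0 κ x])
  have hEU : MeasurableSet (E ∩ U) := hE.inter hU
  -- integrability and positivity of the two densities
  have hm0i : Integrable (P.m0 G K G τ) := integrable_finsetSum _ fun κ _ =>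
    (integral_pav hy0 _ (hhv κ) (hhvm κ)).1
  have hmSi : Integrable (P.mS G K τ) := integrable_finsetSum _ fun κ _ => hhg κ
  have hm00 : ∀ x, 0 ≤ P.m0 G K G τ x := fun x => Finset.sum_nonneg fun κ _ =>
    pav_nonnegM hy0 _ (fun z => mul_nonneg (hh0 κ z) (hv0 κ z)) x
  have hmS0 : ∀ x, 0 ≤ P.mS G K τ x := fun x => Finset.sum_nonneg fun κ _ =>
    mul_nonneg (sub_nonneg.mpr (hh1 κ x)) (hg0 κ x)
  refine ⟨hm0i, hmSi, hm00, hmS0, ?_⟩
  set Pp : ℕ → ℝ := fun κ => ∫ x, w x * u κ x with hPp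
  set QfK : ℕ → ℝ := fun κ => ∫ x, (H κ).indicator 1 x * (w x * u κ x) with hQq
  set Nu : ℕ → ℝ := fun κ => ∫ x, N κ x * (w x * u κ x) with hNu'
  set Nv : ℕ → ℝ := fun κ => ∫ x, N κ x * (w x * v κ x) with hNv'
  have hν' : (∑ κ ∈ Finset.range (P.M 0), Nv κ) + ∑ κ ∈ Finset.range (P.M 0), Nu κ ≤ ν := by
    refine le_trans (le_of_eq ?_) hν
    congr 1
    · refine Finset.sum_congr rfl fun κ _ => integral_congr_ae (Eventually.of_forall fun x => ?_)
      simp only [hv, hN]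
      ring
    · refine Finset.sum_congr rfl fun κ _ => integral_congr_ae (Eventually.of_forall fun x => ?_)
      simp only [hu, hN]
      ring
  have hNu0 : ∀ κ, 0 ≤ Nu κ := fun κ => integral_nonneg fun x =>
    mul_nonneg (hN0 κ x) (hwu0 κ x)
  have hNv0 : ∀ κ, 0 ≤ Nv κ := fun κ => integral_nonneg fun x =>
    mul_nonneg (hN0 κ x) (hwv0 κ x)
  have hQ0 : ∀ κ, 0 ≤ QfK κ := fun κ => integral_nonneg fun x =>
    mul_nonneg (Set.indicator_nonneg (fun _ _ => zero_le_one) x) (hwu0 κ x)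
  -- (1) local orthogonality
  have hloc : ∀ κ ∈ Finset.range (P.M 0), 1 / 4 * QfK κ ≤ ∫ x, h κ x * (w x * v κ x) := by
    intro κ hκ
    have hB0 : 0 ≤ P.B := by
      unfold B A
      positivity
    have hWB : Band (fun x => ((w x * h κ x - 0 : ℝ) : ℂ)) (Metric.closedBall 0 (8 * P.B)) := by
      have h1 := (hwB.mul (hhB κ)).mono (T := Metric.closedBall 0 (8 * P.B)) (by
        rintro z ⟨a', ha', b', hb', rfl⟩
        have h2 := fbox_subset_ball P hk hb'
        rw [mem_closedBall_zero_iff] at ha' h2 ⊢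
        exact (norm_add_le _ _).trans (by linarith))
      have h3 : (fun x => ((w x * h κ x - 0 : ℝ) : ℂ)) = fun x => (w x : ℂ) * (h κ x : ℂ) := by
        funext x
        push_cast
        ring
      rw [h3]
      exact h1
    have h1 := local_orth P hG (W := fun x => w x * h κ x) 0 hWB κ
    have h2 : ∫ x, h κ x * (w x * v κ x) = ∑ κ' ∈ Finset.range (P.M 0),
        ∫ x, w x * h κ x * ‖P.T0 (P.piece G 0 κ') κ x‖ ^ 2 := by
      rw [← h1]
      refine integral_congr_ae (Eventually.of_forall fun x => ?_)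
      simp only [hv]
      ring
    have h3 : ∫ x, w x * h κ x * ‖P.T0 (P.piece G 0 κ) κ x‖ ^ 2 ≤
        ∑ κ' ∈ Finset.range (P.M 0), ∫ x, w x * h κ x * ‖P.T0 (P.piece G 0 κ') κ x‖ ^ 2 :=
      Finset.single_le_sum (f := fun κ' => ∫ x, w x * h κ x * ‖P.T0 (P.piece G 0 κ') κ x‖ ^ 2)
        (fun κ' _ => integral_nonneg fun x =>
          mul_nonneg (mul_nonneg (hw0 x) (hh0 κ x)) (sq_nonneg _)) hκ
    rw [h2]
    refine le_trans ?_ h3
    rw [← integral_const_mul]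
    refine integral_mono ((hHi κ).const_mul _) ?_ fun x => ?_
    · refine (hhwu κ).congr (Eventually.of_forall fun x => ?_)
      simp only [hu]
      ring
    · have h4 := hwu0 κ x
      simp only
      by_cases hx : x ∈ H κ
      · have h5 : 1 / 4 < h κ x := hx
        rw [Set.indicator_of_mem hx, Pi.one_apply, one_mul]
        have h6 : w x * h κ x * ‖P.T0 (P.piece G 0 κ) κ x‖ ^ 2 = h κ x * (w x * u κ x) := by
          simp only [hu]
          ring
        rw [h6]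
        nlinarith
      · rw [Set.indicator_of_notMem hx]
        have h6 : 0 ≤ w x * h κ x * ‖P.T0 (P.piece G 0 κ) κ x‖ ^ 2 :=
          mul_nonneg (mul_nonneg (hw0 x) (hh0 κ x)) (sq_nonneg _)
        linarith
  -- (2) the unit packets
  have hm : θ * (1 / 4) * (∑ κ ∈ Finset.range (P.M 0), QfK κ) ≤
      (∫ x in E ∩ U, P.m0 G K G τ x) + ν := by
    have h1 : ∫ x in E ∩ U, P.m0 G K G τ x = ∑ κ ∈ Finset.range (P.M 0),
        ∫ x in E ∩ U, pav P.y0 (dir (P.cen 0 κ)) (fun z => h κ z * v κ z) x :=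
      integral_finsetSum _ fun κ _ => (integral_pav hy0 _ (hhv κ) (hhvm κ)).1.integrableOn
    have h2 : ∀ κ ∈ Finset.range (P.M 0), θ * (1 / 4) * QfK κ - Nv κ ≤
        ∫ x in E ∩ U, pav P.y0 (dir (P.cen 0 κ)) (fun z => h κ z * v κ z) x := by
      intro κ hκ
      obtain ⟨a1, a2, a3⟩ := pav_adj hy0 (dir (P.cen 0 κ)) (hhv κ) (hhvm κ)
        (measurable_indicator_one hEU) (abs_indicator_one_le (E ∩ U))
      have h3 : ∫ x in E ∩ U, pav P.y0 (dir (P.cen 0 κ)) (fun z => h κ z * v κ z) x =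
          ∫ x, h κ x * v κ x * pav P.y0 (dir (P.cen 0 κ)) ((E ∩ U).indicator 1) x := by
        rw [a3, ← integral_indicator hEU]
        refine integral_congr_ae (Eventually.of_forall fun x => ?_)
        by_cases hx : x ∈ E ∩ U
        · simp [hx]
        · simp [hx]
      rw [h3]
      have h4 : θ * (1 / 4) * QfK κ - Nv κ ≤ ∫ x, (θ * (h κ x * (w x * v κ x)) +
          (-1) * (N κ x * (w x * v κ x)) + 0 * (h κ x * (w x * v κ x))) := by
        obtain ⟨-, k2⟩ := integral_lin3 ((hhwv κ).const_mul θ) (hNv κ) (hhwv κ) (-1) 0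
        rw [k2, integral_const_mul]
        have := hloc κ hκ
        nlinarith
      refine h4.trans (integral_mono (integral_lin3 ((hhwv κ).const_mul θ) (hNv κ) (hhwv κ)
        (-1) 0).1 a1 fun x => ?_)
      have h5 := pav_ind_sub hy0 (dir (P.cen 0 κ)) hE hU MeasurableSet.univ x
      rw [Set.compl_univ, Set.inter_univ] at h5
      have h6 : pav P.y0 (dir (P.cen 0 κ)) ((∅ : Set V2).indicator 1) x = 0 := by
        rw [pav_eq hy0]
        simp
      rw [h6, sub_zero] at h5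
      have h7 := hEθ (P.cen 0 κ) x
      have h8 : 0 ≤ pav P.y0 (dir (P.cen 0 κ)) ((E ∩ U).indicator 1) x :=
        pav_ind_nonneg hy0 _ _ x
      have h9 : θ - N κ x ≤ pav P.y0 (dir (P.cen 0 κ)) ((E ∩ U).indicator 1) x := by
        simp only [hN]
        linarith
      have b1 := hh0 κ x
      have b2 := hh1 κ x
      have b3 := hw0 x
      have b4 := hw1 x
      have b5 := hv0 κ x
      have b6 := hN0 κ x
      have c1 : h κ x * (w x * v κ x) * (θ - N κ x) ≤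
          h κ x * (w x * v κ x) * pav P.y0 (dir (P.cen 0 κ)) ((E ∩ U).indicator 1) x :=
        mul_le_mul_of_nonneg_left h9 (by positivity)
      have c2 : h κ x * (w x * v κ x) * pav P.y0 (dir (P.cen 0 κ)) ((E ∩ U).indicator 1) x ≤
          h κ x * v κ x * pav P.y0 (dir (P.cen 0 κ)) ((E ∩ U).indicator 1) x := by
        refine mul_le_mul_of_nonneg_right ?_ h8
        exact mul_le_mul_of_nonneg_left (mul_le_of_le_one_left b5 b4) b1
      have c3 : h κ x * (w x * v κ x) * N κ x ≤ N κ x * (w x * v κ x) := by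
        have : h κ x * ((w x * v κ x) * N κ x) ≤ 1 * ((w x * v κ x) * N κ x) :=
          mul_le_mul_of_nonneg_right b2 (by positivity)
        linarith
      simp only
      nlinarith
    rw [h1]
    have h3 := Finset.sum_le_sum h2
    rw [Finset.sum_sub_distrib, ← Finset.mul_sum] at h3
    have h4 : 0 ≤ ∑ κ ∈ Finset.range (P.M 0), Nu κ := Finset.sum_nonneg fun κ _ => hNu0 κ
    linarith
  -- (3) one piece
  have hone : ∀ κ ∈ Finset.range (P.M 0),
      (1 + (-Real.log a) * (θ - ε)) * Pp κ ≤ (-Real.log a) * QfK κ +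
        ((-Real.log a) + Real.log Qc) * Nu κ +
        2 / a * (∫ x in E ∩ U, (1 - h κ x) * g κ x) + (∫ x in U, g κ x) +
        Qc⁻¹ * ∫ x, g κ x := by
    intro κ hκ
    have hκ' := Finset.mem_range.mp hκ
    have hHc : MeasurableSet {x | h κ x ≤ 1 / 2} :=
      measurableSet_le (hhc κ).measurable measurable_const
    have hZ := (hE.inter hU).inter hHc
    have hGp := Good.piece P hG 0 κ
    have h1 := lower_one hGp.int hGp.lp (norm_dir (P.cen 0 κ))
      (P.supp_dirL hGp.annL (P.cen 0 κ)) hy0 hw.measurable hw0 hw1 hZ hU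
      (fun x hx => hx.1.2) ha ha1 hQc
    have hZi : Integrable fun x => w x * u κ x * pav P.y0 (dir (P.cen 0 κ))
        ((E ∩ U ∩ {x | h κ x ≤ 1 / 2}).indicator 1) x :=
      (pav_adj hy0 (dir (P.cen 0 κ)) (hwu κ) (hwum κ) (measurable_indicator_one hZ)
        (abs_indicator_one_le _)).1
    have h2 : (θ - ε) * Pp κ - QfK κ - Nu κ ≤ ∫ x, w x * u κ x * pav P.y0 (dir (P.cen 0 κ))
        ((E ∩ U ∩ {x | h κ x ≤ 1 / 2}).indicator 1) x := by
      obtain ⟨k1, k2⟩ := integral_lin3 ((hwu κ).const_mul (θ - ε)) (hHi κ) (hNu κ) (-1) (-1)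
      have k3 := integral_mono k1 hZi (fun x => ?_)
      · rw [k2, integral_const_mul] at k3
        linarith
      have h5 := pav_ind_sub hy0 (dir (P.cen 0 κ)) hE hU hHc x
      have h7 := hEθ (P.cen 0 κ) x
      have h6 : pav P.y0 (dir (P.cen 0 κ)) ({x | h κ x ≤ 1 / 2}ᶜ.indicator 1) x ≤
          (H κ).indicator 1 x + ε := by
        by_cases hx : x ∈ H κ
        · rw [Set.indicator_of_mem hx, Pi.one_apply]
          have := pav_ind_le_one hy0 (dir (P.cen 0 κ)) hHc.compl x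
          linarith
        · rw [Set.indicator_of_notMem hx, zero_add]
          exact hslow κ hκ' x (not_lt.mp hx)
      have h8 : θ - ε - (H κ).indicator 1 x - N κ x ≤ pav P.y0 (dir (P.cen 0 κ))
          ((E ∩ U ∩ {x | h κ x ≤ 1 / 2}).indicator 1) x := by
        simp only [hN]
        linarith
      have h9 := mul_le_mul_of_nonneg_left h8 (hwu0 κ x)
      simp only
      nlinarith
    have h3 : ∫ x in E ∩ U ∩ {x | h κ x ≤ 1 / 2}, g κ x ≤
        2 * ∫ x in E ∩ U, (1 - h κ x) * g κ x := by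
      rw [← integral_const_mul, ← integral_indicator hZ, ← integral_indicator hEU]
      refine integral_mono ((hgi κ).indicator hZ) (((hhg κ).const_mul 2).indicator hEU)
        fun x => ?_
      by_cases hx : x ∈ E ∩ U ∩ {x | h κ x ≤ 1 / 2}
      · rw [Set.indicator_of_mem hx, Set.indicator_of_mem hx.1]
        have h4 : h κ x ≤ 1 / 2 := hx.2
        have h5 := hg0 κ x
        nlinarith
      · rw [Set.indicator_of_notMem hx]
        exact Set.indicator_nonneg (fun z _ => mul_nonneg zero_le_two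
          (mul_nonneg (sub_nonneg.mpr (hh1 κ z)) (hg0 κ z))) x
    have h4 : (∫ x, w x * ‖pkt (P.piece G 0 κ) P.ρ P.y0 (dir (P.cen 0 κ)) x‖ ^ 2 *
        pav P.y0 (dir (P.cen 0 κ)) (Uᶜ.indicator 1) x) = Nu κ := by
      refine integral_congr_ae (Eventually.of_forall fun x => ?_)
      simp only [hN, hu, T0]
      ring
    rw [h4] at h1
    have h5 : (-Real.log a) * ((θ - ε) * Pp κ - QfK κ - Nu κ) ≤ (-Real.log a) *
        ∫ x, w x * u κ x * pav P.y0 (dir (P.cen 0 κ))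
          ((E ∩ U ∩ {x | h κ x ≤ 1 / 2}).indicator 1) x := mul_le_mul_of_nonneg_left h2 hla
    have h6 : a⁻¹ * ∫ x in E ∩ U ∩ {x | h κ x ≤ 1 / 2}, g κ x ≤
        a⁻¹ * (2 * ∫ x in E ∩ U, (1 - h κ x) * g κ x) :=
      mul_le_mul_of_nonneg_left h3 (inv_nonneg.mpr ha.le)
    have h7 : Pp κ + (-Real.log a) * (∫ x, w x * u κ x * pav P.y0 (dir (P.cen 0 κ))
          ((E ∩ U ∩ {x | h κ x ≤ 1 / 2}).indicator 1) x) - Real.log Qc * Nu κ ≤
        a⁻¹ * (∫ x in E ∩ U ∩ {x | h κ x ≤ 1 / 2}, g κ x) + (∫ x in U, g κ x) +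
          Qc⁻¹ * ∫ x, g κ x := h1
    have h8 : a⁻¹ * (2 * ∫ x in E ∩ U, (1 - h κ x) * g κ x) =
        2 / a * ∫ x in E ∩ U, (1 - h κ x) * g κ x := by
      rw [div_eq_mul_inv]
      ring
    linarith
  -- (4) the sum
  have hs := Finset.sum_le_sum hone
  simp only [Finset.sum_add_distrib, ← Finset.mul_sum] at hs
  have hS1 : ∫ x in E ∩ U, P.mS G K τ x = ∑ κ ∈ Finset.range (P.M 0),
      ∫ x in E ∩ U, (1 - h κ x) * g κ x :=
    integral_finsetSum _ fun κ _ => (hhg κ).integrableOn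
  have hS2 : ∫ x in U, P.D1 G x = ∑ κ ∈ Finset.range (P.M 0), ∫ x in U, g κ x :=
    integral_finsetSum _ fun κ _ => (hgi κ).integrableOn
  have hS3 : Qc⁻¹ * ∑ κ ∈ Finset.range (P.M 0), ∫ x, g κ x ≤ Qc⁻¹ :=
    mul_le_of_le_one_right (inv_nonneg.mpr (zero_le_one.trans hQc)) (P.sum_gp_leL hG)
  rw [hS1, hS2]
  have hNle : ∑ κ ∈ Finset.range (P.M 0), Nu κ ≤ ν := by
    have : 0 ≤ ∑ κ ∈ Finset.range (P.M 0), Nv κ := Finset.sum_nonneg fun κ _ => hNv0 κ
    linarith
  have h1 : ((-Real.log a) + Real.log Qc) * ∑ κ ∈ Finset.range (P.M 0), Nu κ ≤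
      ((-Real.log a) + Real.log Qc) * ν :=
    mul_le_mul_of_nonneg_left hNle (add_nonneg hla hlQ)
  have h2 : (-Real.log a) * ∑ κ ∈ Finset.range (P.M 0), QfK κ ≤
      (-Real.log a) * (4 / θ) * ((∫ x in E ∩ U, P.m0 G K G τ x) + ν) := by
    rw [mul_assoc]
    refine mul_le_mul_of_nonneg_left ?_ hla
    rw [div_mul_eq_mul_div, le_div_iff₀ hθ]
    linarith
  linarith

theorem lam_posL (c : ℕ) (n : ℤ) : 0 < P.lam c n := by
  have h := P.q_geL
  unfold lam
  positivity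

theorem lam_succL (c : ℕ) (n : ℤ) : P.lam c (n + 1) = P.lam c n / (P.q : ℝ) ^ c := by
  have h := P.q_geL
  have h1 : ((P.q : ℝ) ^ c) ≠ 0 := by positivity
  unfold lam
  rw [neg_add, zpow_add₀ h1, zpow_neg_one]
  rfl

/-- Powers of `q` in the error terms. -/
theorem pow_sqrt_leL {q : ℝ} (hq : 1 ≤ q) {c : ℕ} (hc : 202 ≤ c) {r : ℝ}
    (hr : r ≤ 1 / q ^ c) : q ^ 100 * √r ≤ 1 / q := by
  have hq0 : 0 < q := zero_lt_one.trans_le hq
  have h1 : √r ≤ 1 / q ^ 101 := by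
    rw [Real.sqrt_le_left (by positivity)]
    refine hr.trans ?_
    rw [div_pow, one_pow, ← pow_mul]
    exact one_div_le_one_div_of_le (by positivity) (pow_le_pow_right₀ hq hc)
  calc q ^ 100 * √r ≤ q ^ 100 * (1 / q ^ 101) := mul_le_mul_of_nonneg_left h1 (by positivity)
    _ = 1 / q := by field_simp

end Par

end REPS
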