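import Pool.Agent.REPS.Defs2

open MeasureTheory Filter Topology Real Metric FourierTransform
open scoped ENNReal NNReal InnerProductSpace

namespace REPS
namespace Mass

open Helper77.TA

theorem pk_even (y t : ℝ) : pk y (-t) = pk y t := by
  unfold pk
  rw [neg_sq]

theorem integrable_pk {y : ℝ} (hy : 0 < y) : Integrable (pk y) := by
  refine ⟨(measurable_pk y).aestronglyMeasurable, ?_⟩
  rw [hasFiniteIntegral_iff_ofReal (ae_of_all _ (pk_nonneg hy)), lintegral_pk hy]
  exact ENNReal.one_lt_top

theorem integral_pk {y : ℝ} (hy : 0 < y) : ∫ t, pk y t = 1 := by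
  rw [integral_eq_lintegral_of_nonneg_ae (ae_of_all _ (pk_nonneg hy))
    (measurable_pk y).aestronglyMeasurable, lintegral_pk hy, ENNReal.toReal_one]

theorem meas_shift {E : Type*} [MeasurableSpace E] (ω : V2) {u : V2 → E} (hu : Measurable u) :
    Measurable (fun p : V2 × ℝ => u (p.1 - p.2 • ω)) :=
  hu.comp (measurable_fst.sub (measurable_snd.smul_const ω))

theorem pav_meas (y : ℝ) (ω : V2) {u : V2 → ℝ} (hu : Measurable u) : Measurable (pav y ω u) := by
  have h : StronglyMeasurable (Function.uncurry fun (x : V2) (t : ℝ) => pk y t * u (x - t • ω)) :=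
    (((measurable_pk y).comp measurable_snd).mul (meas_shift ω hu)).stronglyMeasurable
  exact h.integral_prod_right.measurable

theorem pav_nonneg {y : ℝ} (hy : 0 < y) (ω : V2) {u : V2 → ℝ} (hu : ∀ x, 0 ≤ u x) (x : V2) :
    0 ≤ pav y ω u x :=
  integral_nonneg fun t => mul_nonneg (pk_nonneg hy t) (hu _)

theorem line_meas (ω x : V2) {u : V2 → ℝ} (hu : Measurable u) :
    Measurable fun t : ℝ => u (x - t • ω) :=
  hu.comp (measurable_const.sub (measurable_id.smul_const ω))

theorem line_int {y : ℝ} (hy : 0 < y) (ω x : V2) {u : V2 → ℝ} (hu : Measurable u) {c : ℝ}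
    (hc : ∀ x, |u x| ≤ c) : Integrable fun t => pk y t * u (x - t • ω) :=
  (integrable_pk hy).mul_bdd (line_meas ω x hu).aestronglyMeasurable
    (ae_of_all _ fun t => (Real.norm_eq_abs _).trans_le (hc (x - t • ω)))

theorem pav_le {y : ℝ} (hy : 0 < y) (ω : V2) {u : V2 → ℝ} (hu : Measurable u)
    {c : ℝ} (h0 : ∀ x, 0 ≤ u x) (hc : ∀ x, u x ≤ c) (x : V2) : pav y ω u x ≤ c := by
  have h1 : ∀ x, |u x| ≤ c := fun x => by rw [abs_of_nonneg (h0 x)]; exact hc x
  calc pav y ω u x ≤ ∫ t, pk y t * c :=
        integral_mono (line_int hy ω x hu h1) ((integrable_pk hy).mul_const c)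
          fun t => mul_le_mul_of_nonneg_left (hc _) (pk_nonneg hy t)
    _ = c := by rw [integral_mul_const, integral_pk hy, one_mul]

theorem pav_mono {y : ℝ} (hy : 0 < y) (ω : V2) {u w : V2 → ℝ} (hu : Measurable u)
    (hw : Measurable w) {c : ℝ} (h0 : ∀ x, 0 ≤ u x) (h1 : ∀ x, u x ≤ w x) (hc : ∀ x, w x ≤ c)
    (x : V2) : pav y ω u x ≤ pav y ω w x :=
  integral_mono
    (line_int hy ω x hu (c := c) fun x => by
      rw [abs_of_nonneg (h0 x)]; exact (h1 x).trans (hc x))
    (line_int hy ω x hw (c := c) fun x => by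
      rw [abs_of_nonneg ((h0 x).trans (h1 x))]; exact hc x)
    fun t => mul_le_mul_of_nonneg_left (h1 _) (pk_nonneg hy t)

/-- The shear `(t, x) ↦ (t, x - t ω)`. -/
theorem shear_mp (ω : V2) : MeasurePreserving (fun p : ℝ × V2 => (p.1, p.2 - p.1 • ω))
    (volume.prod volume) (volume.prod volume) := by
  have h := MeasurePreserving.skew_product (MeasurePreserving.id (volume : Measure ℝ))
    (g := fun (t : ℝ) (x : V2) => x - t • ω) (μc := (volume : Measure V2))
    (μd := (volume : Measure V2))
    (measurable_snd.sub (measurable_fst.smul_const ω))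
    (ae_of_all _ fun t => (measurePreserving_sub_right volume (t • ω)).map_eq)
  exact h

theorem prod_int {y : ℝ} (hy : 0 < y) (ω : V2) {u : V2 → ℝ} (hu : Integrable u) :
    Integrable (fun p : ℝ × V2 => pk y p.1 * u (p.2 - p.1 • ω)) (volume.prod volume) := by
  have h1 : Integrable (fun p : ℝ × V2 => pk y p.1 * u p.2) (volume.prod volume) :=
    (integrable_pk hy).mul_prod hu
  exact (shear_mp ω).integrable_comp_of_integrable h1

theorem pav_int {y : ℝ} (hy : 0 < y) (ω : V2) {u : V2 → ℝ} (hu : Integrable u) :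
    Integrable (pav y ω u) := (prod_int hy ω hu).integral_prod_right

theorem integral_pav {y : ℝ} (hy : 0 < y) (ω : V2) {u : V2 → ℝ} (hu : Integrable u) :
    ∫ x, pav y ω u x = ∫ x, u x := by
  have h := prod_int hy ω hu
  calc ∫ x, pav y ω u x = ∫ t, ∫ x, pk y t * u (x - t • ω) :=
        (integral_integral_swap (f := fun t x => pk y t * u (x - t • ω)) h).symm
    _ = ∫ t, pk y t * ∫ x, u x := by
        congr 1
        funext t
        rw [integral_const_mul, integral_sub_right_eq_self (fun x => u x)]
    _ = ∫ x, u x := by rw [integral_mul_const, integral_pk hy, one_mul]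

theorem adj {y : ℝ} (hy : 0 < y) (ω : V2) {u w : V2 → ℝ} (hu : Integrable u)
    (hw : Measurable w) {c : ℝ} (hc : ∀ x, |w x| ≤ c) :
    ∫ x, pav y ω u x * w x = ∫ x, u x * pav y ω w x := by
  have h := prod_int hy ω hu
  have h2 : Integrable (fun p : ℝ × V2 => pk y p.1 * u (p.2 - p.1 • ω) * w p.2)
      (volume.prod volume) :=
    h.mul_bdd (hw.comp measurable_snd).aestronglyMeasurable
      (ae_of_all _ fun p => (Real.norm_eq_abs _).trans_le (hc p.2))
  have h3 : Integrable (fun p : ℝ × V2 => pk y p.1 * u p.2 * w (p.2 - p.1 • ω))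
      (volume.prod volume) :=
    ((integrable_pk hy).mul_prod hu).mul_bdd
      (hw.comp (measurable_snd.sub (measurable_fst.smul_const ω))).aestronglyMeasurable
      (ae_of_all _ fun p => (Real.norm_eq_abs _).trans_le (hc _))
  calc ∫ x, pav y ω u x * w x = ∫ x, ∫ t, pk y t * u (x - t • ω) * w x := by
        congr 1
        funext x
        rw [integral_mul_const]
        rfl
    _ = ∫ t, ∫ x, pk y t * u (x - t • ω) * w x :=
        (integral_integral_swap (f := fun t x => pk y t * u (x - t • ω) * w x) h2).symm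
    _ = ∫ t, ∫ x, pk y t * u x * w (x + t • ω) := by
        congr 1
        funext t
        rw [← integral_add_right_eq_self (fun x => pk y t * u (x - t • ω) * w x) (t • ω)]
        congr 1
        funext x
        rw [add_sub_cancel_right]
    _ = ∫ t, ∫ x, pk y t * u x * w (x - t • ω) := by
        rw [← integral_neg_eq_self (fun t => ∫ x, pk y t * u x * w (x + t • ω))]
        congr 1
        funext t
        congr 1
        funext x
        rw [pk_even, neg_smul, sub_eq_add_neg]
    _ = ∫ x, ∫ t, pk y t * u x * w (x - t • ω) :=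
        integral_integral_swap (f := fun t x => pk y t * u x * w (x - t • ω)) h3
    _ = ∫ x, u x * pav y ω w x := by
        congr 1
        funext x
        rw [pav, ← integral_const_mul]
        congr 1
        funext t
        ring

end Mass
end REPS
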