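import Pool.Agent.REPS.MassA
import Pool.Agent.REPS.Diag
import Pool.Agent.REPS.L2x
import Pool.Agent.REPS.Nt
import Pool.Agent.Helper77.TA.Gabor

open MeasureTheory Filter Topology Real Metric FourierTransform
open scoped ENNReal NNReal InnerProductSpace

namespace REPS
namespace Mass

open Helper77.TA

/-! ### Packets of functions supported in the annulus -/

section packets

variable {R H y : ℝ} {F : V2 → ℂ} {ω : V2}

theorem supp_bd (hs : ∀ ξ, F ξ ≠ 0 → ξ ∈ ann R H) (hω : ‖ω‖ = 1) :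
    ∀ ξ, F ξ ≠ 0 → 0 ≤ (R + H) - ⟪ξ, ω⟫_ℝ := by
  intro ξ hξ
  have h1 := (hs ξ hξ).2
  have h2 := real_inner_le_norm ξ ω
  rw [hω, mul_one] at h2
  linarith

theorem damp_int (h1 : Integrable F) (hs : ∀ ξ, F ξ ≠ 0 → ξ ∈ ann R H) (hω : ‖ω‖ = 1)
    (hy : 0 < y) : Integrable (damp F ω (R + H) y) :=
  Integrable.mono h1 ((continuous_dampFactor ω (R + H) y).aestronglyMeasurable.mul
    h1.aestronglyMeasurable) (ae_of_all _ (norm_damp_le (g := F) hy.le (supp_bd hs hω)))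

theorem damp_lp (h1 : Integrable F) (h2 : MemLp F 2) (hs : ∀ ξ, F ξ ≠ 0 → ξ ∈ ann R H)
    (hω : ‖ω‖ = 1) (hy : 0 < y) : MemLp (damp F ω (R + H) y) 2 :=
  h2.mono ((continuous_dampFactor ω (R + H) y).aestronglyMeasurable.mul
    h1.aestronglyMeasurable) (ae_of_all _ (norm_damp_le (g := F) hy.le (supp_bd hs hω)))

theorem pkt_cont (h1 : Integrable F) (hs : ∀ ξ, F ξ ≠ 0 → ξ ∈ ann R H) (hω : ‖ω‖ = 1)
    (hy : 0 < y) : Continuous (pkt F (R + H) y ω) :=
  continuous_fourierInv (damp_int h1 hs hω hy)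

theorem pkt_sq_int (h1 : Integrable F) (h2 : MemLp F 2) (hs : ∀ ξ, F ξ ≠ 0 → ξ ∈ ann R H)
    (hω : ‖ω‖ = 1) (hy : 0 < y) : Integrable fun x => ‖pkt F (R + H) y ω x‖ ^ 2 :=
  (memLp_fourierInv (damp_int h1 hs hω hy) (damp_lp h1 h2 hs hω hy)).integrable_norm_pow
    two_ne_zero

end packets

/-! ### The densities -/

section dens

variable {P : Par} {G : V2 → ℂ}

theorem y0_pos (P : Par) : 0 < P.y0 := lt_of_lt_of_le one_pos P.hy0

theorem q_real_pos (P : Par) : (0 : ℝ) < P.q := by exact_mod_cast P.q_pos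

theorem q_real_ge (P : Par) : (4 : ℝ) ≤ P.q := by exact_mod_cast P.hq4

theorem log_q_ge (P : Par) : 1 ≤ Real.log P.q := by
  rw [Real.le_log_iff_exp_le (q_real_pos P)]
  have := Real.exp_one_lt_d9
  have := q_real_ge P
  linarith

theorem y_pos (P : Par) (i : ℕ) : 0 < P.y i := by
  unfold Par.y
  split_ifs
  · exact y0_pos P
  · have := P.R_pos
    have := P.l_pos i
    have := q_real_pos P
    positivity

theorem good_ann (hG : P.Good G) : ∀ ξ, G ξ ≠ 0 → ξ ∈ ann P.R P.H := fun ξ hξ =>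
  (hG.supp ξ hξ).1

theorem T0_cont (hG : P.Good G) (κ : ℕ) : Continuous (P.T0 G κ) :=
  pkt_cont hG.int (good_ann hG) (norm_dir _) (y0_pos P)

theorem T0_int (hG : P.Good G) (κ : ℕ) : Integrable fun x => ‖P.T0 G κ x‖ ^ 2 :=
  pkt_sq_int hG.int hG.lp (good_ann hG) (norm_dir _) (y0_pos P)

theorem gp_cont (hG : P.Good G) (i j : ℕ) : Continuous (P.gp G i j) :=
  continuous_fourierInv (hG.piece P i j).int

theorem gp_int (hG : P.Good G) (i j : ℕ) : Integrable fun x => ‖P.gp G i j x‖ ^ 2 :=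
  (memLp_fourierInv (hG.piece P i j).int (hG.piece P i j).lp).integrable_norm_pow two_ne_zero

theorem E_nonneg (hG : P.Good G) (κ : ℕ) (x : V2) : 0 ≤ P.E G κ x :=
  (Par.dens_basic P hG κ).1 x

theorem Sb_nonneg (hG : P.Good G) (κ : ℕ) (x : V2) : 0 ≤ P.Sb G κ x :=
  (Par.dens_basic P hG κ).2.1 x

theorem E_le (hG : P.Good G) (κ : ℕ) (x : V2) : P.E G κ x ≤ P.A ^ 2 * P.Sb G κ x :=
  (Par.dens_basic P hG κ).2.2.1 x

theorem E_cont (hG : P.Good G) (κ : ℕ) : Continuous (P.E G κ) :=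
  (Par.dens_basic P hG κ).2.2.2.1

theorem Sb_cont (hG : P.Good G) (κ : ℕ) : Continuous (P.Sb G κ) :=
  (Par.dens_basic P hG κ).2.2.2.2.1

theorem E_int (hG : P.Good G) (κ : ℕ) : Integrable (P.E G κ) :=
  (Par.dens_basic P hG κ).2.2.2.2.2.1

theorem Sb_int (hG : P.Good G) (κ : ℕ) : Integrable (P.Sb G κ) :=
  (Par.dens_basic P hG κ).2.2.2.2.2.2.1

theorem E_eq (hG : P.Good G) (κ : ℕ) : ∫ x, P.E G κ x = ∫ x, ‖P.gp G 0 κ x‖ ^ 2 :=
  (Par.dens_basic P hG κ).2.2.2.2.2.2.2.1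

theorem Sb_eq (hG : P.Good G) (κ : ℕ) : ∫ x, P.Sb G κ x = ∫ x, ‖P.gp G 0 κ x‖ ^ 2 :=
  (Par.dens_basic P hG κ).2.2.2.2.2.2.2.2.1

theorem Sb_sup (hG : P.Good G) (κ : ℕ) (x : V2) :
    P.Sb G κ x ≤ √P.R / P.A ^ 2 * ∫ z, ‖P.gp G 0 κ z‖ ^ 2 :=
  (Par.dens_basic P hG κ).2.2.2.2.2.2.2.2.2 x

theorem sum_gp_le (hG : P.Good G) : ∑ κ ∈ Finset.range (P.M 0), ∫ x, ‖P.gp G 0 κ x‖ ^ 2 ≤ 1 := by
  rw [Par.sum_sq P hG]
  exact hG.le

theorem St_cont (hG : P.Good G) : Continuous (P.St G) :=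
  continuous_finsetSum _ fun κ _ => Sb_cont hG κ

theorem St_nonneg (hG : P.Good G) (x : V2) : 0 ≤ P.St G x :=
  Finset.sum_nonneg fun κ _ => Sb_nonneg hG κ x

theorem St_int (hG : P.Good G) : Integrable (P.St G) :=
  integrable_finsetSum _ fun κ _ => Sb_int hG κ

theorem St_total (hG : P.Good G) : ∫ x, P.St G x ≤ 1 := by
  unfold Par.St
  rw [integral_finsetSum _ fun κ _ => Sb_int hG κ]
  rw [Finset.sum_congr rfl fun κ _ => Sb_eq hG κ]
  exact sum_gp_le hG

theorem A_pos (P : Par) : 0 < P.A := by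
  unfold Par.A
  have := q_real_pos P
  positivity

theorem St_sup (hG : P.Good G) (x : V2) : P.St G x ≤ √P.R / P.A ^ 2 := by
  have hA := A_pos P
  have hR := P.sqrtR_pos
  calc P.St G x ≤ ∑ κ ∈ Finset.range (P.M 0), √P.R / P.A ^ 2 * ∫ z, ‖P.gp G 0 κ z‖ ^ 2 :=
        Finset.sum_le_sum fun κ _ => Sb_sup hG κ x
    _ = √P.R / P.A ^ 2 * ∑ κ ∈ Finset.range (P.M 0), ∫ z, ‖P.gp G 0 κ z‖ ^ 2 := by
        rw [Finset.mul_sum]
    _ ≤ √P.R / P.A ^ 2 * 1 :=
        mul_le_mul_of_nonneg_left (sum_gp_le hG) (by positivity)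
    _ = _ := mul_one _

theorem D1_cont (hG : P.Good G) : Continuous (P.D1 G) :=
  continuous_finsetSum _ fun κ _ => ((gp_cont hG 0 κ).norm.pow 2)

theorem D1_nonneg (G : V2 → ℂ) (x : V2) : 0 ≤ P.D1 G x :=
  Finset.sum_nonneg fun κ _ => by positivity

theorem D1_int (hG : P.Good G) : Integrable (P.D1 G) :=
  integrable_finsetSum _ fun κ _ => gp_int hG 0 κ

theorem D1_total (hG : P.Good G) : ∫ x, P.D1 G x ≤ 1 := by
  unfold Par.D1
  rw [integral_finsetSum _ fun κ _ => gp_int hG 0 κ]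
  exact sum_gp_le hG

/-- Sum of the densities at the natural scale. -/
noncomputable def SE (P : Par) (G : V2 → ℂ) (x : V2) : ℝ := ∑ κ ∈ Finset.range (P.M 0), P.E G κ x

theorem SE_nonneg (hG : P.Good G) (x : V2) : 0 ≤ SE P G x :=
  Finset.sum_nonneg fun κ _ => E_nonneg hG κ x

theorem SE_int (hG : P.Good G) : Integrable (SE P G) :=
  integrable_finsetSum _ fun κ _ => E_int hG κ

theorem SE_total (hG : P.Good G) : ∫ x, SE P G x ≤ 1 := by
  unfold SE
  rw [integral_finsetSum _ fun κ _ => E_int hG κ]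
  rw [Finset.sum_congr rfl fun κ _ => E_eq hG κ]
  exact sum_gp_le hG

theorem SE_le (hG : P.Good G) (x : V2) : SE P G x ≤ P.A ^ 2 * P.St G x := by
  unfold SE Par.St
  rw [Finset.mul_sum]
  exact Finset.sum_le_sum fun κ _ => E_le hG κ x

theorem T0sum (H y0 : ℝ) : ∃ C : ℝ, 0 < C ∧ ∀ P : Par, P.H = H → P.y0 = y0 → ∀ G, P.Good G →
    ∀ x, ∑ κ ∈ Finset.range (P.M 0), ‖P.T0 G κ x‖ ^ 2 ≤ C * SE P G x := by
  obtain ⟨C, hC, h⟩ := Par.K3sum H y0
  refine ⟨C * 4, by positivity, fun P hH hy G hG x => ?_⟩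
  calc ∑ κ ∈ Finset.range (P.M 0), ‖P.T0 G κ x‖ ^ 2 ≤ ∑ κ ∈ Finset.range (P.M 0),
        C * ∑ κ' ∈ Finset.range (P.M 0), Real.exp (-(P.cd κ κ')) * P.E G κ' x :=
        Finset.sum_le_sum fun κ hκ => h P hH hy G hG κ (Finset.mem_range.mp hκ) x
    _ = C * ∑ κ' ∈ Finset.range (P.M 0), (∑ κ ∈ Finset.range (P.M 0),
        Real.exp (-(P.cd κ κ'))) * P.E G κ' x := by
        rw [← Finset.mul_sum, Finset.sum_comm]
        congr 1
        exact Finset.sum_congr rfl fun κ' _ => (Finset.sum_mul _ _ _).symm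
    _ ≤ C * ∑ κ' ∈ Finset.range (P.M 0), 4 * P.E G κ' x := by
        refine mul_le_mul_of_nonneg_left (Finset.sum_le_sum fun κ' hκ' => ?_) hC.le
        exact mul_le_mul_of_nonneg_right (Par.cd_sum P κ' (Finset.mem_range.mp hκ'))
          (E_nonneg hG κ' x)
    _ = C * 4 * SE P G x := by
        unfold SE
        rw [← Finset.mul_sum]
        ring

theorem D1_le (H y0 : ℝ) : ∃ C : ℝ, 0 < C ∧ ∀ P : Par, P.H = H → P.y0 = y0 → ∀ G, P.Good G →
    ∀ x, P.D1 G x ≤ C * SE P G x := by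
  obtain ⟨C, hC, h⟩ := Par.K1 H y0
  refine ⟨C, hC, fun P hH hy G hG x => ?_⟩
  unfold Par.D1 SE
  rw [Finset.mul_sum]
  exact Finset.sum_le_sum fun κ hκ => (h P hH hy G hG κ (Finset.mem_range.mp hκ) x).1

theorem T0_total (H y0 : ℝ) : ∃ C : ℝ, 0 < C ∧ ∀ P : Par, P.H = H → P.y0 = y0 → ∀ G, P.Good G →
    ∑ κ ∈ Finset.range (P.M 0), ∫ x, ‖P.T0 G κ x‖ ^ 2 ≤ C := by
  obtain ⟨C, hC, h⟩ := T0sum H y0
  refine ⟨C, hC, fun P hH hy G hG => ?_⟩
  rw [← integral_finsetSum _ fun κ _ => T0_int hG κ]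
  calc ∫ x, ∑ κ ∈ Finset.range (P.M 0), ‖P.T0 G κ x‖ ^ 2 ≤ ∫ x, C * SE P G x :=
        integral_mono (integrable_finsetSum _ fun κ _ => T0_int hG κ) ((SE_int hG).const_mul C)
          fun x => h P hH hy G hG x
    _ = C * ∫ x, SE P G x := integral_const_mul _ _
    _ ≤ C * 1 := mul_le_mul_of_nonneg_left (SE_total hG) hC.le
    _ = C := mul_one C

/-- Indicator of the set where the total density is at least `s`. -/
noncomputable def ind (P : Par) (G : V2 → ℂ) (s : ℝ) : V2 → ℝ := {x | s ≤ P.St G x}.indicator 1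

theorem set_meas (hG : P.Good G) (s : ℝ) : MeasurableSet {x | s ≤ P.St G x} :=
  measurableSet_le measurable_const (St_cont hG).measurable

theorem set_meas' (hG : P.Good G) (s : ℝ) : MeasurableSet {x | P.St G x < s} :=
  measurableSet_lt (St_cont hG).measurable measurable_const

theorem ind_meas (hG : P.Good G) (s : ℝ) : Measurable (ind P G s) :=
  measurable_one.indicator (set_meas hG s)

theorem ind_nonneg (P : Par) (G : V2 → ℂ) (s : ℝ) (x : V2) : 0 ≤ ind P G s x :=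
  Set.indicator_nonneg (fun _ _ => zero_le_one) x

theorem ind_le (P : Par) (G : V2 → ℂ) (s : ℝ) (x : V2) : ind P G s x ≤ 1 := by
  unfold ind
  by_cases h : x ∈ {x | s ≤ P.St G x}
  · rw [Set.indicator_of_mem h, Pi.one_apply]
  · rw [Set.indicator_of_notMem h]
    exact zero_le_one

theorem ind_abs (P : Par) (G : V2 → ℂ) (s : ℝ) (x : V2) : |ind P G s x| ≤ 1 := by
  rw [abs_of_nonneg (ind_nonneg P G s x)]
  exact ind_le P G s x

theorem int_mul_ind (hG : P.Good G) (s : ℝ) (f : V2 → ℝ) :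
    ∫ x, f x * ind P G s x = ∫ x in {x | s ≤ P.St G x}, f x := by
  rw [← integral_indicator (set_meas hG s)]
  congr 1
  funext x
  unfold ind
  by_cases h : x ∈ {x | s ≤ P.St G x}
  · rw [Set.indicator_of_mem h, Set.indicator_of_mem h, Pi.one_apply, mul_one]
  · rw [Set.indicator_of_notMem h, Set.indicator_of_notMem h, mul_zero]

end dens

/-! ### Averages -/

theorem mul_bd_int {u w : V2 → ℝ} (hu : Integrable u) (hw : Measurable w) {c : ℝ}
    (hc : ∀ x, |w x| ≤ c) : Integrable fun x => u x * w x :=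
  hu.mul_bdd hw.aestronglyMeasurable (ae_of_all _ fun x => (Real.norm_eq_abs _).trans_le (hc x))

theorem pav_comm {y y' : ℝ} (hy : 0 < y) (hy' : 0 < y') (ω ω' : V2) {u : V2 → ℝ}
    (hu : Measurable u) {c : ℝ} (hc : ∀ x, |u x| ≤ c) (x : V2) :
    pav y ω (pav y' ω' u) x = pav y' ω' (pav y ω u) x := by
  have h : Integrable (fun p : ℝ × ℝ => pk y p.1 * pk y' p.2 * u (x - p.1 • ω - p.2 • ω'))
      (volume.prod volume) := by
    refine ((integrable_pk hy).mul_prod (integrable_pk hy')).mul_bdd ?_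
      (ae_of_all _ fun p => (Real.norm_eq_abs _).trans_le (hc _))
    exact (hu.comp ((measurable_const.sub (measurable_fst.smul_const ω)).sub
      (measurable_snd.smul_const ω'))).aestronglyMeasurable
  calc pav y ω (pav y' ω' u) x
      = ∫ t, ∫ s, pk y t * pk y' s * u (x - t • ω - s • ω') := by
        unfold pav
        congr 1
        funext t
        rw [← integral_const_mul]
        congr 1
        funext s
        ring
    _ = ∫ s, ∫ t, pk y t * pk y' s * u (x - t • ω - s • ω') :=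
        integral_integral_swap (f := fun t s => pk y t * pk y' s * u (x - t • ω - s • ω')) h
    _ = pav y' ω' (pav y ω u) x := by
        unfold pav
        congr 1
        funext s
        rw [← integral_const_mul]
        congr 1
        funext t
        rw [sub_right_comm]
        ring

/-- Pointwise splitting of an average at `|t| = q`. -/
theorem pav_split {y q : ℝ} (hy : 0 < y) (hq : 0 < q) (ω : V2) {u : V2 → ℝ} (hu : Measurable u)
    {c : ℝ} (h0 : ∀ x, 0 ≤ u x) (hc : ∀ x, u x ≤ c) (x : V2) {b : ℝ} (hb : 0 ≤ b)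
    (h : ∀ t : ℝ, |t| ≤ q → u (x - t • ω) ≤ b) :
    pav y ω u x ≤ b + 2 * y / q * pav q ω u x := by
  have h1 : ∀ x, |u x| ≤ c := fun x => by rw [abs_of_nonneg (h0 x)]; exact hc x
  have e : b + 2 * y / q * pav q ω u x =
      ∫ t, (pk y t * b + 2 * y / q * (pk q t * u (x - t • ω))) := by
    rw [integral_add ((integrable_pk hy).mul_const b)
      ((line_int hq ω x hu h1).const_mul _), integral_mul_const, integral_pk hy, one_mul,
      integral_const_mul]
    rfl
  rw [e]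
  refine integral_mono (line_int hy ω x hu h1) (((integrable_pk hy).mul_const b).add
      ((line_int hq ω x hu h1).const_mul _)) fun t => ?_
  simp only
  have hu0 := h0 (x - t • ω)
  have hk := pk_nonneg hy t
  have hk' := pk_nonneg hq t
  by_cases ht : |t| ≤ q
  · have h2 := mul_le_mul_of_nonneg_left (h t ht) hk
    have h3 : 0 ≤ 2 * y / q * (pk q t * u (x - t • ω)) := by positivity
    linarith
  · push Not at ht
    have h4 : q ^ 2 ≤ t ^ 2 := by
      rw [← sq_abs t]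
      exact pow_le_pow_left₀ hq.le ht.le 2
    have h5 : pk y t ≤ 2 * y / q * pk q t := by
      have e1 : 2 * y / q * pk q t = 2 * (π⁻¹ * y * (t ^ 2 + q ^ 2)⁻¹) := by
        unfold pk
        field_simp
      rw [e1]
      unfold pk
      have h6 : (t ^ 2 + y ^ 2)⁻¹ ≤ 2 * (t ^ 2 + q ^ 2)⁻¹ := by
        rw [← div_eq_mul_inv, le_div_iff₀ (by positivity), inv_mul_le_iff₀ (by positivity)]
        nlinarith [sq_nonneg y]
      have h7 : 0 ≤ π⁻¹ * y := by positivity
      nlinarith [mul_le_mul_of_nonneg_left h6 h7]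
    have h8 := mul_le_mul_of_nonneg_right h5 hu0
    have h9 : 0 ≤ pk y t * b := by positivity
    nlinarith

/-! ### The sum over the arcs with a polynomial weight -/

theorem geom_le {r : ℝ} (h0 : 0 ≤ r) (h1 : r ≤ 2 / 3) (s : Finset ℕ) (φ : ℕ → ℕ)
    (hφ : Set.InjOn φ s) : ∑ i ∈ s, r ^ φ i ≤ 3 := by
  have hr : r < 1 := by linarith
  rw [← Finset.sum_image (f := fun j => r ^ j) hφ]
  calc ∑ j ∈ s.image φ, r ^ j ≤ ∑' j, r ^ j :=
        (summable_geometric_of_lt_one h0 hr).sum_le_tsum _ fun j _ => pow_nonneg h0 j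
    _ = (1 - r)⁻¹ := tsum_geometric_of_lt_one h0 hr
    _ ≤ 3 := by
        rw [inv_le_comm₀ (by linarith) (by norm_num)]
        linarith

theorem cd_nonneg (P : Par) {κ κ' : ℕ} (h : κ < P.M 0) (h' : κ' < P.M 0) : 0 ≤ P.cd κ κ' := by
  unfold Par.cd
  have h1 : (κ : ℝ) < P.M 0 := by exact_mod_cast h
  have h2 : (κ' : ℝ) < P.M 0 := by exact_mod_cast h'
  have h3 : (0 : ℝ) ≤ κ := Nat.cast_nonneg _
  have h4 : (0 : ℝ) ≤ κ' := Nat.cast_nonneg _
  refine le_min (abs_nonneg _) ?_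
  rw [sub_nonneg, abs_le]
  constructor <;> linarith

theorem exp_half_le : Real.exp (-(1 / 2)) ≤ 2 / 3 := by
  rw [Real.exp_neg, inv_le_comm₀ (Real.exp_pos _) (by norm_num)]
  have := Real.add_one_le_exp (1 / 2 : ℝ)
  linarith

theorem poly_exp {x : ℝ} (hx : 0 ≤ x) : Real.exp (-x) * (1 + x ^ 2) ≤ 16 * Real.exp (-(x / 2)) := by
  have h1 : 1 + x ^ 2 ≤ 16 * Real.exp (x / 2) := by
    have := Real.quadratic_le_exp_of_nonneg (x := x / 2) (by positivity)
    nlinarith
  have h2 : Real.exp (-x) * (16 * Real.exp (x / 2)) = 16 * Real.exp (-(x / 2)) := by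
    rw [mul_left_comm, ← Real.exp_add]
    congr 2
    ring
  rw [← h2]
  exact mul_le_mul_of_nonneg_left h1 (Real.exp_pos _).le

theorem cd_sum2 (P : Par) {κ' : ℕ} (h' : κ' < P.M 0) :
    ∑ κ ∈ Finset.range (P.M 0), Real.exp (-(P.cd κ κ')) * (1 + P.cd κ κ' ^ 2) ≤ 192 := by
  set r : ℝ := Real.exp (-(1 / 2)) with hr
  have hr0 : 0 ≤ r := (Real.exp_pos _).le
  have hpow : ∀ n : ℕ, Real.exp (-((n : ℝ) / 2)) = r ^ n := fun n => by
    rw [hr, ← Real.exp_nat_mul]
    congr 1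
    ring
  have key : ∀ κ ∈ Finset.range (P.M 0), Real.exp (-(P.cd κ κ')) * (1 + P.cd κ κ' ^ 2) ≤
      16 * (if κ ≤ κ' then r ^ (κ' - κ) + r ^ κ else r ^ (κ - κ') + r ^ (P.M 0 - κ)) := by
    intro κ hκ
    have hκ := Finset.mem_range.mp hκ
    refine (poly_exp (cd_nonneg P hκ h')).trans (mul_le_mul_of_nonneg_left ?_ (by norm_num))
    have hcase : P.cd κ κ' = |(κ : ℝ) - κ'| ∨ P.cd κ κ' = P.M 0 - |(κ : ℝ) - κ'| := by
      unfold Par.cd
      exact min_choice _ _
    split_ifs with hle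
    · have e1 : |(κ : ℝ) - κ'| = ((κ' - κ : ℕ) : ℝ) := by
        rw [Nat.cast_sub hle, abs_sub_comm, abs_of_nonneg]
        have : (κ : ℝ) ≤ κ' := by exact_mod_cast hle
        linarith
      rcases hcase with h | h
      · rw [h, e1, hpow]
        have : 0 ≤ r ^ κ := pow_nonneg hr0 _
        linarith
      · have e2 : (κ : ℝ) ≤ P.cd κ κ' := by
          rw [h, e1, Nat.cast_sub hle]
          have : (κ' : ℝ) ≤ P.M 0 := by exact_mod_cast h'.le
          linarith
        have : 0 ≤ r ^ (κ' - κ) := pow_nonneg hr0 _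
        have h5 : Real.exp (-(P.cd κ κ' / 2)) ≤ r ^ κ := by
          rw [← hpow]
          exact Real.exp_le_exp.mpr (by linarith)
        linarith
    · push Not at hle
      have e1 : |(κ : ℝ) - κ'| = ((κ - κ' : ℕ) : ℝ) := by
        rw [Nat.cast_sub hle.le, abs_of_nonneg]
        have : (κ' : ℝ) ≤ κ := by exact_mod_cast hle.le
        linarith
      rcases hcase with h | h
      · rw [h, e1, hpow]
        have : 0 ≤ r ^ (P.M 0 - κ) := pow_nonneg hr0 _
        linarith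
      · have e2 : ((P.M 0 - κ : ℕ) : ℝ) ≤ P.cd κ κ' := by
          rw [h, e1, Nat.cast_sub hle.le, Nat.cast_sub hκ.le]
          have : (0 : ℝ) ≤ κ' := Nat.cast_nonneg _
          linarith
        have : 0 ≤ r ^ (κ - κ') := pow_nonneg hr0 _
        have h5 : Real.exp (-(P.cd κ κ' / 2)) ≤ r ^ (P.M 0 - κ) := by
          rw [← hpow]
          exact Real.exp_le_exp.mpr (by linarith)
        linarith
  refine (Finset.sum_le_sum key).trans ?_
  rw [← Finset.mul_sum, Finset.sum_ite, Finset.sum_add_distrib, Finset.sum_add_distrib]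
  have g1 := geom_le hr0 exp_half_le ((Finset.range (P.M 0)).filter fun κ => κ ≤ κ')
    (fun κ => κ' - κ) (by
      intro a ha c hc hac
      simp only [Finset.coe_filter, Set.mem_ofPred_eq] at ha hc hac
      omega)
  have g2 := geom_le hr0 exp_half_le ((Finset.range (P.M 0)).filter fun κ => κ ≤ κ')
    (fun κ => κ) (fun a _ c _ hac => hac)
  have g3 := geom_le hr0 exp_half_le ((Finset.range (P.M 0)).filter fun κ => ¬ κ ≤ κ')
    (fun κ => κ - κ') (by
      intro a ha c hc hac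
      simp only [Finset.coe_filter, Set.mem_ofPred_eq] at ha hc hac
      omega)
  have g4 := geom_le hr0 exp_half_le ((Finset.range (P.M 0)).filter fun κ => ¬ κ ≤ κ')
    (fun κ => P.M 0 - κ) (by
      intro a ha c hc hac
      simp only [Finset.coe_filter, Set.mem_ofPred_eq, Finset.mem_range] at ha hc hac
      omega)
  linarith

end Mass
end REPS
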