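import Pool.Agent.REPS.MassB

open MeasureTheory Filter Topology Real Metric FourierTransform
open scoped ENNReal NNReal InnerProductSpace

namespace REPS
namespace Mass

open Helper77.TA

theorem log_large (a : ℝ) : ∃ q0 : ℕ, ∀ q : ℕ, q0 ≤ q → a ≤ Real.log q := by
  have h := (Real.tendsto_log_atTop.comp tendsto_natCast_atTop_atTop).eventually_ge_atTop a
  exact eventually_atTop.mp h

theorem M_le (P : Par) (i : ℕ) : P.M i ≤ P.M 0 := by
  unfold Par.M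
  exact Nat.mul_le_mul_left 8 (Nat.pow_le_pow_right P.b_pos (by omega))

theorem M_zero (P : Par) : (P.M 0 : ℝ) = 8 * (P.q : ℝ) ^ (4 * P.k) := by
  unfold Par.M Par.b
  push_cast
  rw [Nat.sub_zero, ← pow_mul]

theorem two_k_le (P : Par) : 2 * (P.k : ℝ) + 1 ≤ P.q := by
  have h1 : (8 : ℝ) * P.k ≤ P.q := by exact_mod_cast P.hq
  have h2 : (1 : ℝ) ≤ P.k := by exact_mod_cast P.hk
  linarith

theorem count_le (P : Par) : (2 * (P.k : ℝ) + 1) * P.M 0 ≤ (P.q : ℝ) ^ (4 * P.k + 3) := by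
  have h1 := two_k_le P
  have h2 := q_real_ge P
  have h3 : (8 : ℝ) ≤ (P.q : ℝ) ^ 2 := by nlinarith
  have h4 : (0 : ℝ) ≤ (P.q : ℝ) ^ (4 * P.k) := by positivity
  rw [M_zero]
  calc (2 * (P.k : ℝ) + 1) * (8 * (P.q : ℝ) ^ (4 * P.k))
      ≤ P.q * ((P.q : ℝ) ^ 2 * (P.q : ℝ) ^ (4 * P.k)) := by gcongr
    _ = (P.q : ℝ) ^ (4 * P.k + 3) := by ring

/-! ### Cut-offs and weights -/

section weights

variable {P : Par} {G : V2 → ℂ} {τ : ℝ}

theorem h_cont (K : Ker) (hG : P.Good G) (hτ : 0 < τ) {i : ℕ} (hi : i ≤ P.k) (j : ℕ) :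
    Continuous (P.h G K τ i j) := (Par.cut_basic P K hG hτ hi).1

theorem h_nonneg (K : Ker) (hG : P.Good G) (hτ : 0 < τ) {i : ℕ} (hi : i ≤ P.k) (j : ℕ) (x : V2) :
    0 ≤ P.h G K τ i j x := (Par.cut_basic P K hG hτ hi).2.1 x

theorem h_le (K : Ker) (hG : P.Good G) (hτ : 0 < τ) {i : ℕ} (hi : i ≤ P.k) (j : ℕ) (x : V2) :
    P.h G K τ i j x ≤ 1 := (Par.cut_basic P K hG hτ hi).2.2.1 x

theorem h_int (K : Ker) (hG : P.Good G) (hτ : 0 < τ) {i : ℕ} (hi : i ≤ P.k) (j : ℕ) :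
    Integrable (P.h G K τ i j) := (Par.cut_basic P K hG hτ hi).2.2.2.1

theorem h_integral (K : Ker) (hG : P.Good G) (hτ : 0 < τ) {i : ℕ} (hi : i ≤ P.k) (j : ℕ) :
    ∫ x, P.h G K τ i j x ≤ τ⁻¹ * ∫ x, P.Sn G i j x := (Par.cut_basic P K hG hτ hi).2.2.2.2.1

theorem v_cont (K : Ker) (hG : P.Good G) (hτ : 0 < τ) {i : ℕ} (hi : i ≤ P.k) (j : ℕ) :
    Continuous (P.v G K τ i j) := by
  by_cases h : i = P.k
  · have e : P.v G K τ i j = fun x => 1 - P.h G K τ i j x := by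
      funext x
      unfold Par.v
      rw [if_pos h]
    rw [e]
    exact continuous_const.sub (h_cont K hG hτ hi j)
  · have e : P.v G K τ i j = fun x => P.h G K τ (i + 1) (j / P.b) x - P.h G K τ i j x := by
      funext x
      unfold Par.v
      rw [if_neg h]
    rw [e]
    exact (h_cont K hG hτ (by omega) _).sub (h_cont K hG hτ hi j)

theorem v_le (K : Ker) (hG : P.Good G) (hτ : 0 < τ) {i : ℕ} (hi : i ≤ P.k) (j : ℕ) (x : V2) :
    P.v G K τ i j x ≤ 1 := by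
  unfold Par.v
  have h1 := h_nonneg K hG hτ hi j x
  split_ifs with h
  · linarith
  · have h2 := h_le K hG hτ (i := i + 1) (by omega) (j / P.b) x
    linarith

theorem v_le_h (K : Ker) (hG : P.Good G) (hτ : 0 < τ) {i : ℕ} (hi : i + 1 ≤ P.k) (j : ℕ)
    (x : V2) : P.v G K τ i j x ≤ P.h G K τ (i + 1) (j / P.b) x := by
  unfold Par.v
  have h1 := h_nonneg K hG hτ (i := i) (by omega) j x
  rw [if_neg (by omega)]
  linarith

/-- weights of the stopped packets -/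
noncomputable def wt (P : Par) (G : V2 → ℂ) (K : Ker) (τ : ℝ) (i L : ℕ) (z : V2) : ℝ :=
  P.cn i * max 0 (P.v G K τ i (L / P.b) z)

theorem wt_meas (K : Ker) (hG : P.Good G) (hτ : 0 < τ) {i : ℕ} (hi : i ≤ P.k) (L : ℕ) :
    Measurable (wt P G K τ i L) :=
  (continuous_const.mul (continuous_const.max (v_cont K hG hτ hi (L / P.b)))).measurable

theorem wt_nonneg (K : Ker) {i : ℕ} (hi : 1 ≤ i) (hik : i ≤ P.k) (L : ℕ) (x : V2) :
    0 ≤ wt P G K τ i L x :=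
  mul_nonneg (Par.cn_pos_le P hi hik).1.le (le_max_left _ _)

theorem wt_le (K : Ker) (hG : P.Good G) (hτ : 0 < τ) {i : ℕ} (hi : 1 ≤ i) (hik : i ≤ P.k) (L : ℕ)
    (x : V2) : wt P G K τ i L x ≤ 2 := by
  have h1 := Par.cn_pos_le P hi hik
  have h2 : max 0 (P.v G K τ i (L / P.b) x) ≤ 1 :=
    max_le zero_le_one (v_le K hG hτ hik (L / P.b) x)
  have h3 : 0 ≤ max 0 (P.v G K τ i (L / P.b) x) := le_max_left _ _
  unfold wt
  nlinarith [h1.1, h1.2]

theorem wt_le_h (K : Ker) (hG : P.Good G) (hτ : 0 < τ) {i : ℕ} (hi : 1 ≤ i) (hik : i + 1 ≤ P.k)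
    (L : ℕ) (x : V2) : wt P G K τ i L x ≤ 2 * P.h G K τ (i + 1) (L / P.b / P.b) x := by
  have h1 := Par.cn_pos_le P hi (by omega : i ≤ P.k)
  have h2 : max 0 (P.v G K τ i (L / P.b) x) ≤ P.h G K τ (i + 1) (L / P.b / P.b) x :=
    max_le (h_nonneg K hG hτ hik _ x) (v_le_h K hG hτ hik (L / P.b) x)
  have h3 : 0 ≤ max 0 (P.v G K τ i (L / P.b) x) := le_max_left _ _
  unfold wt
  nlinarith [h1.1, h1.2]

theorem NN_eq (P : Par) (G : V2 → ℂ) (K : Ker) (τ : ℝ) : P.NN G K τ = fun x =>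
    (∑ i ∈ Finset.Icc 1 P.k, ∑ L ∈ Finset.range (P.M (i - 1)),
      pav (P.y i) (dir (P.cen (i - 1) L)) (wt P G K τ i L) x) +
    ∑ κ ∈ Finset.range (P.M 0), pav P.y0 (dir (P.cen 0 κ)) (P.h G K τ 1 (κ / P.b)) x := rfl

theorem NN_meas (K : Ker) (hG : P.Good G) (hτ : 0 < τ) : Measurable (P.NN G K τ) := by
  rw [NN_eq]
  refine Measurable.add ?_ ?_
  · refine Finset.measurable_sum _ fun i hi => Finset.measurable_sum _ fun L _ => ?_
    exact pav_meas _ _ (wt_meas K hG hτ (Finset.mem_Icc.mp hi).2 L)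
  · exact Finset.measurable_sum _ fun κ _ => pav_meas _ _ (h_cont K hG hτ P.hk _).measurable

theorem NN_nonneg (K : Ker) (hG : P.Good G) (hτ : 0 < τ) (x : V2) : 0 ≤ P.NN G K τ x := by
  rw [NN_eq]
  refine add_nonneg (Finset.sum_nonneg fun i hi => Finset.sum_nonneg fun L _ => ?_)
    (Finset.sum_nonneg fun κ _ => ?_)
  · exact pav_nonneg (y_pos P i) _
      (fun z => wt_nonneg K (Finset.mem_Icc.mp hi).1 (Finset.mem_Icc.mp hi).2 L z) x
  · exact pav_nonneg (y0_pos P) _ (fun z => h_nonneg K hG hτ P.hk _ z) x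

theorem NN_le (K : Ker) (hG : P.Good G) (hτ : 0 < τ) (x : V2) :
    P.NN G K τ x ≤ (P.q : ℝ) ^ (4 * P.k + 3) := by
  rw [NN_eq]
  refine le_trans ?_ (count_le P)
  have h1 : ∑ i ∈ Finset.Icc 1 P.k, ∑ L ∈ Finset.range (P.M (i - 1)),
      pav (P.y i) (dir (P.cen (i - 1) L)) (wt P G K τ i L) x ≤
      ∑ i ∈ Finset.Icc 1 P.k, 2 * (P.M 0 : ℝ) := by
    refine Finset.sum_le_sum fun i hi => ?_
    obtain ⟨h1, h2⟩ := Finset.mem_Icc.mp hi
    calc ∑ L ∈ Finset.range (P.M (i - 1)),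
          pav (P.y i) (dir (P.cen (i - 1) L)) (wt P G K τ i L) x
        ≤ ∑ L ∈ Finset.range (P.M (i - 1)), (2 : ℝ) :=
          Finset.sum_le_sum fun L _ => pav_le (y_pos P i) _ (wt_meas K hG hτ h2 L)
            (fun z => wt_nonneg K h1 h2 L z) (fun z => wt_le K hG hτ h1 h2 L z) x
      _ = 2 * (P.M (i - 1) : ℝ) := by
          rw [Finset.sum_const, Finset.card_range, nsmul_eq_mul, mul_comm]
      _ ≤ 2 * (P.M 0 : ℝ) := by
          have : (P.M (i - 1) : ℝ) ≤ P.M 0 := by exact_mod_cast M_le P (i - 1)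
          linarith
  have h2 : ∑ κ ∈ Finset.range (P.M 0), pav P.y0 (dir (P.cen 0 κ)) (P.h G K τ 1 (κ / P.b)) x ≤
      P.M 0 := by
    calc ∑ κ ∈ Finset.range (P.M 0), pav P.y0 (dir (P.cen 0 κ)) (P.h G K τ 1 (κ / P.b)) x
        ≤ ∑ κ ∈ Finset.range (P.M 0), (1 : ℝ) :=
          Finset.sum_le_sum fun κ _ => pav_le (y0_pos P) _ (h_cont K hG hτ P.hk _).measurable
            (fun z => h_nonneg K hG hτ P.hk _ z) (fun z => h_le K hG hτ P.hk _ z) x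
      _ = P.M 0 := by
          rw [Finset.sum_const, Finset.card_range, nsmul_eq_mul, mul_one]
  rw [Finset.sum_const, Nat.card_Icc, nsmul_eq_mul] at h1
  have h3 : ((P.k + 1 - 1 : ℕ) : ℝ) = P.k := by
    rw [Nat.add_sub_cancel]
  rw [h3] at h1
  linarith

end weights

/-! ### Masses -/

section masses

variable {P : Par} {G : V2 → ℂ} {τ : ℝ}

theorem m0_eq (P : Par) (G : V2 → ℂ) (K : Ker) (F : V2 → ℂ) (τ : ℝ) : P.m0 G K F τ = fun x =>
    ∑ κ ∈ Finset.range (P.M 0), pav P.y0 (dir (P.cen 0 κ))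
      (fun z => P.h G K τ 1 (κ / P.b) z * ‖P.T0 F κ z‖ ^ 2) x := rfl

theorem mA_eq (P : Par) (G : V2 → ℂ) (K : Ker) (F : V2 → ℂ) (τ : ℝ) : P.mA G K F τ = fun x =>
    ∑ i ∈ Finset.Icc 1 P.k, ∑ L ∈ Finset.range (P.M (i - 1)),
      pav (P.y i) (dir (P.cen (i - 1) L)) (fun z => wt P G K τ i L z * ‖P.T F i L z‖ ^ 2) x := rfl

theorem hT0_int (K : Ker) (hG : P.Good G) (hτ : 0 < τ) {F : V2 → ℂ} (h1 : Integrable F)
    (h2 : MemLp F 2) (hs : ∀ ξ, F ξ ≠ 0 → ξ ∈ ann P.R P.H) (κ : ℕ) :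
    Integrable fun z => P.h G K τ 1 (κ / P.b) z * ‖P.T0 F κ z‖ ^ 2 := by
  have h3 : Integrable fun z => ‖P.T0 F κ z‖ ^ 2 :=
    pkt_sq_int h1 h2 hs (norm_dir _) (y0_pos P)
  have h4 := mul_bd_int h3 (h_cont K hG hτ P.hk (κ / P.b)).measurable (c := 1) fun x => by
    rw [abs_of_nonneg (h_nonneg K hG hτ P.hk _ x)]
    exact h_le K hG hτ P.hk _ x
  exact h4.congr (ae_of_all _ fun x => mul_comm _ _)

theorem wT_int (K : Ker) (hG : P.Good G) (hτ : 0 < τ) {F : V2 → ℂ} (h1 : Integrable F)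
    (h2 : MemLp F 2) (hs : ∀ ξ, F ξ ≠ 0 → ξ ∈ ann P.R P.H) {i : ℕ} (hi : 1 ≤ i) (hik : i ≤ P.k)
    (L : ℕ) : Integrable fun z => wt P G K τ i L z * ‖P.T F i L z‖ ^ 2 := by
  have h3 : Integrable fun z => ‖P.T F i L z‖ ^ 2 :=
    pkt_sq_int h1 h2 hs (norm_dir _) (y_pos P i)
  have h4 := mul_bd_int h3 (wt_meas K hG hτ hik L) (c := 2) fun x => by
    rw [abs_of_nonneg (wt_nonneg K hi hik L x)]
    exact wt_le K hG hτ hi hik L x
  exact h4.congr (ae_of_all _ fun x => mul_comm _ _)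

theorem m0_int (K : Ker) (hG : P.Good G) (hτ : 0 < τ) {F : V2 → ℂ} (h1 : Integrable F)
    (h2 : MemLp F 2) (hs : ∀ ξ, F ξ ≠ 0 → ξ ∈ ann P.R P.H) : Integrable (P.m0 G K F τ) := by
  rw [m0_eq]
  exact integrable_finsetSum _ fun κ _ => pav_int (y0_pos P) _ (hT0_int K hG hτ h1 h2 hs κ)

theorem mA_int (K : Ker) (hG : P.Good G) (hτ : 0 < τ) {F : V2 → ℂ} (h1 : Integrable F)
    (h2 : MemLp F 2) (hs : ∀ ξ, F ξ ≠ 0 → ξ ∈ ann P.R P.H) : Integrable (P.mA G K F τ) := by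
  rw [mA_eq]
  exact integrable_finsetSum _ fun i hi => integrable_finsetSum _ fun L _ =>
    pav_int (y_pos P i) _ (wT_int K hG hτ h1 h2 hs (Finset.mem_Icc.mp hi).1
      (Finset.mem_Icc.mp hi).2 L)

theorem m0_nonneg (K : Ker) (hG : P.Good G) (hτ : 0 < τ) (F : V2 → ℂ) (x : V2) :
    0 ≤ P.m0 G K F τ x := by
  rw [m0_eq]
  exact Finset.sum_nonneg fun κ _ => pav_nonneg (y0_pos P) _ (fun z =>
    mul_nonneg (h_nonneg K hG hτ P.hk _ z) (by positivity)) x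

theorem mA_nonneg (K : Ker) (F : V2 → ℂ) (x : V2) : 0 ≤ P.mA G K F τ x := by
  rw [mA_eq]
  exact Finset.sum_nonneg fun i hi => Finset.sum_nonneg fun L _ => pav_nonneg (y_pos P i) _
    (fun z => mul_nonneg (wt_nonneg K (Finset.mem_Icc.mp hi).1 (Finset.mem_Icc.mp hi).2 L z)
      (by positivity)) x

theorem mm_nonneg (K : Ker) (hG : P.Good G) (hτ : 0 < τ) (F : V2 → ℂ) (x : V2) :
    0 ≤ P.mm G K F τ x := add_nonneg (mA_nonneg K F x) (m0_nonneg K hG hτ F x)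

theorem mm_int (K : Ker) (hG : P.Good G) (hτ : 0 < τ) {F : V2 → ℂ} (h1 : Integrable F)
    (h2 : MemLp F 2) (hs : ∀ ξ, F ξ ≠ 0 → ξ ∈ ann P.R P.H) : Integrable (P.mm G K F τ) :=
  (mA_int K hG hτ h1 h2 hs).add (m0_int K hG hτ h1 h2 hs)

theorem m0G_total (K : Ker) (hG : P.Good G) (hτ : 0 < τ) : ∫ x, P.m0 G K G τ x ≤
    ∑ κ ∈ Finset.range (P.M 0), ∫ x, ‖P.T0 G κ x‖ ^ 2 := by
  have hi := fun κ => hT0_int K hG hτ hG.int hG.lp (good_ann hG) κ
  rw [m0_eq, integral_finsetSum _ fun κ _ => pav_int (y0_pos P) _ (hi κ)]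
  refine Finset.sum_le_sum fun κ _ => ?_
  rw [integral_pav (y0_pos P) _ (hi κ)]
  refine integral_mono (hi κ) (T0_int hG κ) fun x => ?_
  have h1 := h_le K hG hτ P.hk (κ / P.b) x
  have h2 : 0 ≤ ‖P.T0 G κ x‖ ^ 2 := by positivity
  simp only
  nlinarith

theorem mS_term_int (K : Ker) (hG : P.Good G) (hτ : 0 < τ) (κ : ℕ) :
    Integrable fun x => (1 - P.h G K τ 1 (κ / P.b) x) * ‖P.gp G 0 κ x‖ ^ 2 := by
  have h4 := mul_bd_int (gp_int hG 0 κ)
    (measurable_const.sub (h_cont K hG hτ P.hk (κ / P.b)).measurable : Measurable fun x =>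
      (1 : ℝ) - P.h G K τ 1 (κ / P.b) x) (c := 1) fun x => by
    have h1 := h_nonneg K hG hτ P.hk (κ / P.b) x
    have h2 := h_le K hG hτ P.hk (κ / P.b) x
    change |1 - P.h G K τ 1 (κ / P.b) x| ≤ 1
    rw [abs_le]
    constructor <;> linarith
  exact h4.congr (ae_of_all _ fun x => mul_comm _ _)

theorem mS_int (K : Ker) (hG : P.Good G) (hτ : 0 < τ) : Integrable (P.mS G K τ) :=
  integrable_finsetSum _ fun κ _ => mS_term_int K hG hτ κ

theorem mS_nonneg (K : Ker) (hG : P.Good G) (hτ : 0 < τ) (x : V2) : 0 ≤ P.mS G K τ x :=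
  Finset.sum_nonneg fun κ _ => mul_nonneg (by
    have := h_le K hG hτ P.hk (κ / P.b) x
    linarith) (by positivity)

theorem mS_le (K : Ker) (hG : P.Good G) (hτ : 0 < τ) (x : V2) : P.mS G K τ x ≤ P.D1 G x :=
  Finset.sum_le_sum fun κ _ => by
    have h1 := h_nonneg K hG hτ P.hk (κ / P.b) x
    have h2 : 0 ≤ ‖P.gp G 0 κ x‖ ^ 2 := by positivity
    nlinarith

theorem mS_total (K : Ker) (hG : P.Good G) (hτ : 0 < τ) : ∫ x, P.mS G K τ x ≤ 1 :=
  (integral_mono (mS_int K hG hτ) (D1_int hG) fun x => mS_le K hG hτ x).trans (D1_total hG)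

/-- The remainder. -/
noncomputable def rr (P : Par) (G : V2 → ℂ) (K : Ker) (F : V2 → ℂ) (τ : ℝ) (x : V2) : ℝ :=
  P.mm G K F τ x - P.m0 G K G τ x - P.mS G K τ x - P.XS G K τ x - P.XA G K τ x

/-- The cross terms. -/
noncomputable def XX (P : Par) (G : V2 → ℂ) (K : Ker) (τ : ℝ) (x : V2) : ℝ :=
  P.XS G K τ x + P.XA G K τ x

theorem mm_dec (P : Par) (G : V2 → ℂ) (K : Ker) (F : V2 → ℂ) (τ : ℝ) (x : V2) :
    P.mm G K F τ x = rr P G K F τ x + (P.m0 G K G τ x + P.mS G K τ x) + XX P G K τ x := by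
  unfold rr XX
  ring

end masses

/-- total mass and sup bounds, with the integral of the absolute value of the cross terms -/
theorem parts (H y0 : ℝ) (K : Ker) : ∃ C : ℝ, 0 < C ∧ ∀ k : ℕ, ∃ (Ck : ℝ) (q0 : ℕ), 0 < Ck ∧
    ∀ P : Par, P.H = H → P.y0 = y0 → P.k = k → q0 ≤ P.q → ∀ F G, P.Pair F G → ∀ τ : ℝ, 0 < τ →
    Integrable (rr P G K F τ) ∧ ∫ x, |rr P G K F τ x| ≤ Ck / Real.log P.q ∧
    ∫ x, P.mm G K F τ x ≤ C ∧ Integrable (XX P G K τ) ∧ ∫ x, |XX P G K τ x| ≤ C ∧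
    ∫ x, (P.m0 G K G τ x + P.mS G K τ x) ≤ C := by
  obtain ⟨C0, hC0, hT⟩ := T0_total H y0
  refine ⟨3 + 2 * C0 + C0 + 2, by positivity, fun k => ?_⟩
  obtain ⟨Ck, q1, hCk, hdiag⟩ := Par.diag H y0 K k
  obtain ⟨q2, hq2⟩ := log_large Ck
  refine ⟨Ck, max q1 q2, hCk, fun P hH hy hk hq F G hP τ hτ => ?_⟩
  have hG := Par.Pair.good P hP
  obtain ⟨d1, d2⟩ := hdiag P hH hy hk ((le_max_left _ _).trans hq) F G hP τ hτ
  have d1 : Integrable (rr P G K F τ) := d1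
  have d2 : ∫ x, |rr P G K F τ x| ≤ Ck / Real.log P.q := d2
  obtain ⟨x1, x2⟩ := Par.X_int P K hG hτ
  have x1 : Integrable (XX P G K τ) := x1
  have x2 : ∫ x, XX P G K τ x = 0 := x2
  have hlog := hq2 P.q ((le_max_right _ _).trans hq)
  have hlog1 := log_q_ge P
  have hsmall : Ck / Real.log P.q ≤ 1 := by
    rw [div_le_one (by linarith)]
    exact hlog
  have hm0 : ∫ x, P.m0 G K G τ x ≤ C0 := (m0G_total K hG hτ).trans (hT P hH hy G hG)
  have hmS := mS_total K hG hτ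
  have hi0 := m0_int K hG hτ hG.int hG.lp (good_ann hG)
  have hiS := mS_int K hG hτ
  have hM : ∫ x, (P.m0 G K G τ x + P.mS G K τ x) ≤ C0 + 1 := by
    rw [integral_add hi0 hiS]
    linarith
  have hiM : Integrable fun x => P.m0 G K G τ x + P.mS G K τ x := hi0.add hiS
  have hr : ∫ x, rr P G K F τ x ≤ 1 :=
    (integral_mono d1 d1.abs fun x => le_abs_self _).trans (d2.trans hsmall)
  have hmmi := mm_int K hG hτ hP.int hP.lp hP.supp
  have hi2 : Integrable fun x => rr P G K F τ x + (P.m0 G K G τ x + P.mS G K τ x) := d1.add hiM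
  have hmm : ∫ x, P.mm G K F τ x ≤ 1 + (C0 + 1) := by
    have e : ∫ x, P.mm G K F τ x = (∫ x, rr P G K F τ x) +
        (∫ x, (P.m0 G K G τ x + P.mS G K τ x)) + ∫ x, XX P G K τ x := by
      rw [← integral_add d1 hiM, ← integral_add hi2 x1]
      congr 1
      funext x
      exact mm_dec P G K F τ x
    rw [e, x2]
    linarith
  have hi3 : Integrable fun x => P.mm G K F τ x + |rr P G K F τ x| := hmmi.add d1.abs
  have hX : ∫ x, |XX P G K τ x| ≤ (1 + (C0 + 1)) + 1 + (C0 + 1) := by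
    calc ∫ x, |XX P G K τ x| ≤ ∫ x, (P.mm G K F τ x + |rr P G K F τ x| +
          (P.m0 G K G τ x + P.mS G K τ x)) := by
          refine integral_mono x1.abs (hi3.add hiM) fun x => ?_
          have e := mm_dec P G K F τ x
          have e2 : XX P G K τ x = P.mm G K F τ x - rr P G K F τ x -
            (P.m0 G K G τ x + P.mS G K τ x) := by linarith
          have h1 := mm_nonneg K hG hτ F x
          have h2 : 0 ≤ P.m0 G K G τ x + P.mS G K τ x :=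
            add_nonneg (m0_nonneg K hG hτ G x) (mS_nonneg K hG hτ x)
          have h3 := le_abs_self (rr P G K F τ x)
          have h4 := neg_abs_le (rr P G K F τ x)
          simp only
          rw [abs_le]
          constructor <;> linarith
      _ = (∫ x, P.mm G K F τ x) + (∫ x, |rr P G K F τ x|) +
          ∫ x, (P.m0 G K G τ x + P.mS G K τ x) := by
          rw [integral_add hi3 hiM, integral_add hmmi d1.abs]
      _ ≤ _ := by linarith
  exact ⟨d1, d2, by linarith, x1, by linarith, by linarith⟩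

end Mass

namespace Par

/-- total mass and sup bounds -/
theorem mm_basic (H y0 : ℝ) (K : Ker) : ∃ C : ℝ, 0 < C ∧ ∀ k : ℕ, ∃ q0 : ℕ, ∀ P : Par,
    P.H = H → P.y0 = y0 → P.k = k → q0 ≤ P.q → ∀ F G, P.Pair F G → ∀ τ : ℝ, 0 < τ →
    Measurable (P.NN G K τ) ∧ (∀ x, 0 ≤ P.NN G K τ x) ∧ (∀ x, P.NN G K τ x ≤ (P.q : ℝ) ^ (5 * k + 5)) ∧
    (∀ x, 0 ≤ P.mm G K F τ x) ∧ Integrable (P.mm G K F τ) ∧ ∫ x, P.mm G K F τ x ≤ C := by
  obtain ⟨C, hC, h⟩ := Mass.parts H y0 K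
  refine ⟨C, hC, fun k => ?_⟩
  obtain ⟨Ck, q0, _, h2⟩ := h k
  refine ⟨q0, fun P hH hy hk hq F G hP τ hτ => ?_⟩
  have hG := Pair.good P hP
  obtain ⟨_, _, h3, _⟩ := h2 P hH hy hk hq F G hP τ hτ
  refine ⟨Mass.NN_meas K hG hτ, Mass.NN_nonneg K hG hτ, fun x => ?_, Mass.mm_nonneg K hG hτ F,
    Mass.mm_int K hG hτ hP.int hP.lp hP.supp, h3⟩
  refine (Mass.NN_le K hG hτ x).trans ?_
  have h4 := Mass.q_real_ge P
  rw [← hk]
  exact pow_le_pow_right₀ (by linarith) (by omega)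

end Par
end REPS
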