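import Pool.Agent.REPS.MassC

open MeasureTheory Filter Topology Real Metric FourierTransform
open scoped ENNReal NNReal InnerProductSpace

namespace REPS
namespace Mass

open Helper77.TA

/-! ### Sums over the tree -/

theorem sum_div (b m : ℕ) (hb : 0 < b) (f : ℕ → ℝ) :
    ∑ L ∈ Finset.range (b * m), f (L / b) = b * ∑ j ∈ Finset.range m, f j := by
  induction m with
  | zero => simp
  | succ m ih =>
    rw [Nat.mul_succ, Finset.sum_range_add, ih, Finset.sum_range_succ, mul_add]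
    congr 1
    rw [Finset.sum_congr rfl (g := fun _ => f m) fun x hx => by
      rw [Nat.mul_add_div hb, Nat.div_eq_of_lt (Finset.mem_range.mp hx), Nat.add_zero]]
    rw [Finset.sum_const, Finset.card_range, nsmul_eq_mul]

theorem sum_div2 (P : Par) {i : ℕ} (hi : 1 ≤ i) (hik : i + 1 ≤ P.k) (f : ℕ → ℝ) :
    ∑ L ∈ Finset.range (P.M (i - 1)), f (L / P.b / P.b) =
      (P.b : ℝ) ^ 2 * ∑ j ∈ Finset.range (P.M (i + 1)), f j := by
  obtain ⟨i, rfl⟩ : ∃ a, i = a + 1 := ⟨i - 1, by omega⟩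
  rw [Nat.add_sub_cancel, P.M_succ (by omega : i + 1 ≤ P.k),
    sum_div P.b (P.M (i + 1)) P.b_pos (fun j => f (j / P.b)), P.M_succ hik,
    sum_div P.b (P.M (i + 1 + 1)) P.b_pos f]
  ring

theorem M_eq (P : Par) {i : ℕ} (hi : i ≤ P.k) : P.M 0 = P.b ^ i * P.M i := by
  unfold Par.M
  have e : P.k = i + (P.k - i) := by omega
  conv_lhs => rw [Nat.sub_zero, e, pow_add]
  ring

section tree

variable {P : Par} {G : V2 → ℂ} {τ : ℝ}

theorem Sn_int (hG : P.Good G) (i j : ℕ) : Integrable (P.Sn G i j) :=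
  integrable_finsetSum _ fun κ _ => Sb_int hG κ

theorem sum_Sn (hG : P.Good G) {i : ℕ} (hi : i ≤ P.k) :
    ∑ j ∈ Finset.range (P.M i), ∫ x, P.Sn G i j x ≤ 1 := by
  refine le_trans (le_of_eq ?_) (St_total hG)
  unfold Par.Sn Par.St
  rw [integral_finsetSum _ fun κ _ => Sb_int hG κ]
  rw [Finset.sum_congr rfl fun j _ => integral_finsetSum _ fun κ _ => Sb_int hG κ]
  refine Finset.sum_fiberwise_of_maps_to (fun κ hκ => ?_) _
  rw [Finset.mem_range] at hκ ⊢
  rw [M_eq P hi] at hκ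
  exact Nat.div_lt_of_lt_mul hκ

theorem sum_h (K : Ker) (hG : P.Good G) (hτ : 0 < τ) {i : ℕ} (hi : i ≤ P.k) :
    ∑ j ∈ Finset.range (P.M i), ∫ x, P.h G K τ i j x ≤ τ⁻¹ := by
  calc ∑ j ∈ Finset.range (P.M i), ∫ x, P.h G K τ i j x
      ≤ ∑ j ∈ Finset.range (P.M i), τ⁻¹ * ∫ x, P.Sn G i j x :=
        Finset.sum_le_sum fun j _ => h_integral K hG hτ hi j
    _ = τ⁻¹ * ∑ j ∈ Finset.range (P.M i), ∫ x, P.Sn G i j x := by rw [Finset.mul_sum]
    _ ≤ τ⁻¹ * 1 := mul_le_mul_of_nonneg_left (sum_Sn hG hi) (by positivity)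
    _ = τ⁻¹ := mul_one _

/-- Majorant of the multiplicity. -/
noncomputable def Wp (P : Par) (G : V2 → ℂ) (K : Ker) (τ : ℝ) (x : V2) : ℝ :=
  (∑ i ∈ Finset.Ico 1 P.k, ∑ L ∈ Finset.range (P.M (i - 1)),
    pav (P.y i) (dir (P.cen (i - 1) L)) (fun z => 2 * P.h G K τ (i + 1) (L / P.b / P.b) z) x) +
  ∑ κ ∈ Finset.range (P.M 0), pav P.y0 (dir (P.cen 0 κ)) (P.h G K τ 1 (κ / P.b)) x

theorem th_int (K : Ker) (hG : P.Good G) (hτ : 0 < τ) {i : ℕ} (hi : i ≤ P.k) (j : ℕ) :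
    Integrable fun z => 2 * P.h G K τ i j z := (h_int K hG hτ hi j).const_mul 2

theorem Wp_meas (K : Ker) (hG : P.Good G) (hτ : 0 < τ) : Measurable (Wp P G K τ) := by
  refine Measurable.add ?_ ?_
  · refine Finset.measurable_sum _ fun i hi => Finset.measurable_sum _ fun L _ => ?_
    exact pav_meas _ _ ((h_cont K hG hτ (Finset.mem_Ico.mp hi).2 _).measurable.const_mul 2)
  · exact Finset.measurable_sum _ fun κ _ => pav_meas _ _ (h_cont K hG hτ P.hk _).measurable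

theorem Wp_nonneg (K : Ker) (hG : P.Good G) (hτ : 0 < τ) (x : V2) : 0 ≤ Wp P G K τ x := by
  refine add_nonneg (Finset.sum_nonneg fun i hi => Finset.sum_nonneg fun L _ => ?_)
    (Finset.sum_nonneg fun κ _ => ?_)
  · exact pav_nonneg (y_pos P i) _
      (fun z => mul_nonneg zero_le_two (h_nonneg K hG hτ (Finset.mem_Ico.mp hi).2 _ z)) x
  · exact pav_nonneg (y0_pos P) _ (fun z => h_nonneg K hG hτ P.hk _ z) x

theorem Wp_int (K : Ker) (hG : P.Good G) (hτ : 0 < τ) : Integrable (Wp P G K τ) := by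
  refine Integrable.add ?_ ?_
  · refine integrable_finsetSum _ fun i hi => integrable_finsetSum _ fun L _ => ?_
    exact pav_int (y_pos P i) _ (th_int K hG hτ (Finset.mem_Ico.mp hi).2 _)
  · exact integrable_finsetSum _ fun κ _ => pav_int (y0_pos P) _ (h_int K hG hτ P.hk _)

theorem b_real (P : Par) : (P.b : ℝ) = (P.q : ℝ) ^ 4 := by
  unfold Par.b
  push_cast
  rfl

theorem Wp_total (K : Ker) (hG : P.Good G) (hτ : 0 < τ) :
    ∫ x, Wp P G K τ x ≤ (P.q : ℝ) ^ 9 * τ⁻¹ := by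
  have hi1 : ∀ i ∈ Finset.Ico 1 P.k, ∀ L ∈ Finset.range (P.M (i - 1)),
      Integrable (pav (P.y i) (dir (P.cen (i - 1) L))
        (fun z => 2 * P.h G K τ (i + 1) (L / P.b / P.b) z)) := fun i hi L _ =>
    pav_int (y_pos P i) _ (th_int K hG hτ (Finset.mem_Ico.mp hi).2 _)
  have hi2 : ∀ κ ∈ Finset.range (P.M 0), Integrable
      (pav P.y0 (dir (P.cen 0 κ)) (P.h G K τ 1 (κ / P.b))) := fun κ _ =>
    pav_int (y0_pos P) _ (h_int K hG hτ P.hk _)
  unfold Wp
  rw [integral_add (integrable_finsetSum _ fun i hi => integrable_finsetSum _ (hi1 i hi))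
    (integrable_finsetSum _ hi2), integral_finsetSum _ fun i hi =>
      integrable_finsetSum _ (hi1 i hi), integral_finsetSum _ hi2]
  have hτ' : 0 < τ⁻¹ := by positivity
  have h1 : ∀ i ∈ Finset.Ico 1 P.k, ∫ x, ∑ L ∈ Finset.range (P.M (i - 1)),
      pav (P.y i) (dir (P.cen (i - 1) L))
        (fun z => 2 * P.h G K τ (i + 1) (L / P.b / P.b) z) x ≤ 2 * ((P.b : ℝ) ^ 2 * τ⁻¹) := by
    intro i hi
    obtain ⟨h1, h2⟩ := Finset.mem_Ico.mp hi
    rw [integral_finsetSum _ (hi1 i hi)]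
    rw [Finset.sum_congr rfl (g := fun L => (fun j => 2 * ∫ x, P.h G K τ (i + 1) j x)
      (L / P.b / P.b)) fun L _ => by
        rw [integral_pav (y_pos P i) _ (th_int K hG hτ h2 _), integral_const_mul],
      sum_div2 P h1 h2 (fun j => 2 * ∫ x, P.h G K τ (i + 1) j x), ← Finset.mul_sum]
    have := sum_h K hG hτ h2
    have hb : (0 : ℝ) ≤ (P.b : ℝ) ^ 2 := by positivity
    nlinarith [mul_le_mul_of_nonneg_left this hb]
  have h2 : ∑ κ ∈ Finset.range (P.M 0), ∫ x, pav P.y0 (dir (P.cen 0 κ))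
      (P.h G K τ 1 (κ / P.b)) x ≤ P.b * τ⁻¹ := by
    rw [Finset.sum_congr rfl (g := fun κ => (fun j => ∫ x, P.h G K τ 1 j x) (κ / P.b))
      fun κ _ => by rw [integral_pav (y0_pos P) _ (h_int K hG hτ P.hk _)],
      P.M_succ P.hk, sum_div P.b (P.M 1) P.b_pos (fun j => ∫ x, P.h G K τ 1 j x)]
    exact mul_le_mul_of_nonneg_left (sum_h K hG hτ P.hk) (Nat.cast_nonneg _)
  have h3 := Finset.sum_le_sum h1
  rw [Finset.sum_const, Nat.card_Ico, nsmul_eq_mul, Nat.cast_sub P.hk, Nat.cast_one] at h3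
  have hb1 : (1 : ℝ) ≤ P.b := by exact_mod_cast P.b_pos
  have hk := two_k_le P
  have hk1 : (1 : ℝ) ≤ P.k := by exact_mod_cast P.hk
  have h4 : (P.q : ℝ) ^ 9 * τ⁻¹ = P.q * ((P.b : ℝ) ^ 2 * τ⁻¹) := by
    rw [b_real]
    ring
  rw [h4]
  have h5 : (P.b : ℝ) * τ⁻¹ ≤ (P.b : ℝ) ^ 2 * τ⁻¹ := by
    refine mul_le_mul_of_nonneg_right ?_ hτ'.le
    nlinarith
  have h6 : 0 ≤ (P.b : ℝ) ^ 2 * τ⁻¹ := by positivity
  calc _ ≤ ((P.k : ℝ) - 1) * (2 * ((P.b : ℝ) ^ 2 * τ⁻¹)) + P.b * τ⁻¹ := add_le_add h3 h2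
    _ ≤ (2 * (P.k : ℝ)) * ((P.b : ℝ) ^ 2 * τ⁻¹) := by nlinarith
    _ ≤ P.q * ((P.b : ℝ) ^ 2 * τ⁻¹) := mul_le_mul_of_nonneg_right (by linarith) h6

theorem Wp_le (K : Ker) (hG : P.Good G) (hτ : 0 < τ) (x : V2) :
    Wp P G K τ x ≤ (P.q : ℝ) ^ (4 * P.k + 3) := by
  refine le_trans ?_ (count_le P)
  have h1 : ∑ i ∈ Finset.Ico 1 P.k, ∑ L ∈ Finset.range (P.M (i - 1)),
      pav (P.y i) (dir (P.cen (i - 1) L))
        (fun z => 2 * P.h G K τ (i + 1) (L / P.b / P.b) z) x ≤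
      ∑ i ∈ Finset.Ico 1 P.k, 2 * (P.M 0 : ℝ) := by
    refine Finset.sum_le_sum fun i hi => ?_
    obtain ⟨h1, h2⟩ := Finset.mem_Ico.mp hi
    calc ∑ L ∈ Finset.range (P.M (i - 1)), pav (P.y i) (dir (P.cen (i - 1) L))
          (fun z => 2 * P.h G K τ (i + 1) (L / P.b / P.b) z) x
        ≤ ∑ L ∈ Finset.range (P.M (i - 1)), (2 : ℝ) :=
          Finset.sum_le_sum fun L _ => pav_le (y_pos P i) _
            ((h_cont K hG hτ h2 _).measurable.const_mul 2)
            (fun z => mul_nonneg zero_le_two (h_nonneg K hG hτ h2 _ z))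
            (fun z => by have := h_le K hG hτ h2 (L / P.b / P.b) z; linarith) x
      _ = 2 * (P.M (i - 1) : ℝ) := by
          rw [Finset.sum_const, Finset.card_range, nsmul_eq_mul, mul_comm]
      _ ≤ 2 * (P.M 0 : ℝ) := by
          have : (P.M (i - 1) : ℝ) ≤ P.M 0 := by exact_mod_cast M_le P (i - 1)
          linarith
  have h2 : ∑ κ ∈ Finset.range (P.M 0), pav P.y0 (dir (P.cen 0 κ)) (P.h G K τ 1 (κ / P.b)) x ≤
      P.M 0 := by
    calc ∑ κ ∈ Finset.range (P.M 0), pav P.y0 (dir (P.cen 0 κ)) (P.h G K τ 1 (κ / P.b)) x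
        ≤ ∑ κ ∈ Finset.range (P.M 0), (1 : ℝ) :=
          Finset.sum_le_sum fun κ _ => pav_le (y0_pos P) _ (h_cont K hG hτ P.hk _).measurable
            (fun z => h_nonneg K hG hτ P.hk _ z) (fun z => h_le K hG hτ P.hk _ z) x
      _ = P.M 0 := by
          rw [Finset.sum_const, Finset.card_range, nsmul_eq_mul, mul_one]
  rw [Finset.sum_const, Nat.card_Ico, nsmul_eq_mul, Nat.cast_sub P.hk, Nat.cast_one] at h1
  have hM : (0 : ℝ) ≤ P.M 0 := Nat.cast_nonneg _
  have hk1 : (1 : ℝ) ≤ P.k := by exact_mod_cast P.hk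
  unfold Wp
  nlinarith

theorem M_top (P : Par) : (P.M (P.k - 1) : ℝ) = 8 * (P.q : ℝ) ^ 4 := by
  unfold Par.M Par.b
  have : P.k - (P.k - 1) = 1 := by have := P.hk; omega
  rw [this]
  push_cast
  ring

theorem NN_le_Wp (K : Ker) (hG : P.Good G) (hτ : 0 < τ) (x : V2) :
    P.NN G K τ x ≤ 16 * (P.q : ℝ) ^ 4 + Wp P G K τ x := by
  rw [NN_eq]
  unfold Wp
  simp only
  rw [← Finset.Ico_insert_right P.hk, Finset.sum_insert Finset.right_notMem_Ico]
  have h1 : ∑ L ∈ Finset.range (P.M (P.k - 1)),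
      pav (P.y P.k) (dir (P.cen (P.k - 1) L)) (wt P G K τ P.k L) x ≤ 16 * (P.q : ℝ) ^ 4 := by
    calc ∑ L ∈ Finset.range (P.M (P.k - 1)),
          pav (P.y P.k) (dir (P.cen (P.k - 1) L)) (wt P G K τ P.k L) x
        ≤ ∑ L ∈ Finset.range (P.M (P.k - 1)), (2 : ℝ) :=
          Finset.sum_le_sum fun L _ => pav_le (y_pos P _) _ (wt_meas K hG hτ le_rfl L)
            (fun z => wt_nonneg K P.hk le_rfl L z) (fun z => wt_le K hG hτ P.hk le_rfl L z) x
      _ = 16 * (P.q : ℝ) ^ 4 := by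
          rw [Finset.sum_const, Finset.card_range, nsmul_eq_mul, M_top]
          ring
  have h2 : ∑ i ∈ Finset.Ico 1 P.k, ∑ L ∈ Finset.range (P.M (i - 1)),
      pav (P.y i) (dir (P.cen (i - 1) L)) (wt P G K τ i L) x ≤
      ∑ i ∈ Finset.Ico 1 P.k, ∑ L ∈ Finset.range (P.M (i - 1)),
      pav (P.y i) (dir (P.cen (i - 1) L))
        (fun z => 2 * P.h G K τ (i + 1) (L / P.b / P.b) z) x := by
    refine Finset.sum_le_sum fun i hi => Finset.sum_le_sum fun L _ => ?_
    obtain ⟨h1, h2⟩ := Finset.mem_Ico.mp hi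
    exact pav_mono (y_pos P i) _ (wt_meas K hG hτ h2.le L)
      ((h_cont K hG hτ h2 _).measurable.const_mul 2) (c := 2)
      (fun z => wt_nonneg K h1 h2.le L z) (fun z => wt_le_h K hG hτ h1 h2 L z)
      (fun z => by have := h_le K hG hτ (i := i + 1) h2 (L / P.b / P.b) z; linarith) x
  linarith

end tree

/-! ### Logarithms -/

section logs

variable {P : Par} {G : V2 → ℂ} {τ : ℝ}

theorem log_NN_le (K : Ker) (hG : P.Good G) (hτ : 0 < τ) (x : V2) :
    Real.log (max 1 (P.NN G K τ x)) ≤ 6 * Real.log P.q + Real.log (1 + Wp P G K τ x) := by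
  have hq := q_real_ge P
  have hq0 := q_real_pos P
  have hW := Wp_nonneg K hG hτ x
  have hN := NN_le_Wp K hG hτ x
  have e : 6 * Real.log P.q + Real.log (1 + Wp P G K τ x) =
      Real.log ((P.q : ℝ) ^ 6 * (1 + Wp P G K τ x)) := by
    rw [Real.log_mul (by positivity) (by positivity), Real.log_pow]
    push_cast
    rfl
  rw [e]
  have h16 : 16 * (P.q : ℝ) ^ 4 ≤ (P.q : ℝ) ^ 6 := by
    have : (16 : ℝ) ≤ (P.q : ℝ) ^ 2 := by nlinarith
    calc 16 * (P.q : ℝ) ^ 4 ≤ (P.q : ℝ) ^ 2 * (P.q : ℝ) ^ 4 := by gcongr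
      _ = (P.q : ℝ) ^ 6 := by ring
  have h1 : (1 : ℝ) ≤ (P.q : ℝ) ^ 6 := one_le_pow₀ (by linarith)
  refine Real.log_le_log (by positivity) (max_le ?_ ?_)
  · nlinarith
  · nlinarith

theorem ell_nonneg (K : Ker) (hG : P.Good G) (hτ : 0 < τ) (x : V2) :
    0 ≤ Real.log (1 + Wp P G K τ x) :=
  Real.log_nonneg (by have := Wp_nonneg K hG hτ x; linarith)

theorem ell_le (K : Ker) (hG : P.Good G) (hτ : 0 < τ) (x : V2) :
    Real.log (1 + Wp P G K τ x) ≤ (4 * P.k + 4) * Real.log P.q := by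
  have hq := q_real_ge P
  have hW := Wp_nonneg K hG hτ x
  have hW2 := Wp_le K hG hτ x
  have e : (4 * (P.k : ℝ) + 4) * Real.log P.q = Real.log ((P.q : ℝ) ^ (4 * P.k + 4)) := by
    rw [Real.log_pow]
    push_cast
    rfl
  rw [e]
  refine Real.log_le_log (by positivity) ?_
  have h1 : (1 : ℝ) ≤ (P.q : ℝ) ^ (4 * P.k + 3) := one_le_pow₀ (by linarith)
  have h2 : (P.q : ℝ) ^ (4 * P.k + 4) = P.q * (P.q : ℝ) ^ (4 * P.k + 3) := by ring
  rw [h2]
  nlinarith

theorem ell_meas (K : Ker) (hG : P.Good G) (hτ : 0 < τ) :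
    Measurable fun x => Real.log (1 + Wp P G K τ x) :=
  Real.measurable_log.comp (measurable_const.add (Wp_meas K hG hτ))

/-- Elementary: for `w ≤ q ^ 111` the logarithm is small, otherwise use the square. -/
theorem X_pt {q τ X w ℓ L : ℝ} (hq : 4 ≤ q) (hτ : 0 < τ) (hw : 0 ≤ w)
    (hℓ : ℓ = Real.log (1 + w)) (hL : ℓ ≤ L) :
    |X| * ℓ ≤ 112 * Real.log q * |X| +
      L * ((q ^ 101)⁻¹ * τ⁻¹ * X ^ 2 + (q ^ 10)⁻¹ * τ * w) := by
  have hq0 : 0 < q := by linarith
  have hℓ0 : 0 ≤ ℓ := by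
    rw [hℓ]
    exact Real.log_nonneg (by linarith)
  have hL0 : 0 ≤ L := hℓ0.trans hL
  have hlq : 0 ≤ Real.log q := Real.log_nonneg (by linarith)
  have hX := abs_nonneg X
  have hrest : 0 ≤ (q ^ 101)⁻¹ * τ⁻¹ * X ^ 2 + (q ^ 10)⁻¹ * τ * w := by positivity
  rcases le_total w (q ^ 111) with h | h
  · have h1 : ℓ ≤ 112 * Real.log q := by
      have e : 112 * Real.log q = Real.log (q ^ 112) := by
        rw [Real.log_pow]
        norm_num
      rw [hℓ, e]
      refine Real.log_le_log (by linarith) ?_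
      have h2 : (1 : ℝ) ≤ q ^ 111 := one_le_pow₀ (by linarith)
      have h3 : q ^ 112 = q * q ^ 111 := by ring
      rw [h3]
      nlinarith
    have h2 : |X| * ℓ ≤ 112 * Real.log q * |X| := by
      rw [mul_comm]
      exact mul_le_mul_of_nonneg_right h1 hX
    have h3 : 0 ≤ L * ((q ^ 101)⁻¹ * τ⁻¹ * X ^ 2 + (q ^ 10)⁻¹ * τ * w) := mul_nonneg hL0 hrest
    linarith
  · have h1 : |X| ≤ (q ^ 101)⁻¹ * τ⁻¹ * X ^ 2 + (q ^ 10)⁻¹ * τ * w := by
      have h2 : q ^ 101 * τ ≤ (q ^ 10)⁻¹ * τ * w := by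
        have e : (q ^ 10)⁻¹ * τ * w = τ * ((q ^ 10)⁻¹ * w) := by ring
        rw [e, mul_comm]
        refine mul_le_mul_of_nonneg_left ?_ hτ.le
        rw [inv_mul_eq_div, le_div_iff₀ (by positivity)]
        calc q ^ 101 * q ^ 10 = q ^ 111 := by ring
          _ ≤ w := h
      obtain ⟨a, ha⟩ : ∃ a : ℝ, a = q ^ 101 * τ := ⟨_, rfl⟩
      have ha0 : 0 < a := by
        rw [ha]
        positivity
      have e : (q ^ 101)⁻¹ * τ⁻¹ = a⁻¹ := by rw [ha, mul_inv]
      rw [e]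
      have h3 : |X| ≤ a⁻¹ * X ^ 2 + a := by
        rw [← sq_abs X]
        have h4 : 0 ≤ (|X| - a) ^ 2 := sq_nonneg _
        rw [inv_mul_eq_div, ← sub_nonneg]
        have e2 : |X| ^ 2 / a + a - |X| = ((|X| - a) ^ 2 + a * |X|) / a := by
          field_simp
          ring
        rw [e2]
        positivity
      rw [← ha] at h2
      linarith
    have h5 : |X| * ℓ ≤ L * ((q ^ 101)⁻¹ * τ⁻¹ * X ^ 2 + (q ^ 10)⁻¹ * τ * w) :=
      calc |X| * ℓ ≤ |X| * L := mul_le_mul_of_nonneg_left hL hX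
        _ = L * |X| := mul_comm _ _
        _ ≤ _ := mul_le_mul_of_nonneg_left h1 hL0
    have h6 : 0 ≤ 112 * Real.log q * |X| := by positivity
    linarith

theorem lam_pos (P : Par) (c : ℕ) (n : ℤ) : 0 < P.lam c n := by
  unfold Par.lam
  have := q_real_pos P
  positivity

theorem lam_succ (P : Par) (c : ℕ) (n : ℤ) :
    P.lam c (n + 1) * (P.q : ℝ) ^ c = P.lam c n := by
  unfold Par.lam
  have h : (P.q : ℝ) ^ c ≠ 0 := by
    have := q_real_pos P
    positivity
  rw [neg_add, ← zpow_add_one₀ h]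
  congr 1
  ring

/-- Layer cake for the logarithm. -/
theorem layer (P : Par) (c : ℕ) {s : ℝ} {a : ℤ} (ha : s ≤ P.lam c a) (n : ℤ)
    (hn : a ≤ n) : Real.log (max 1 (s / P.lam c n)) ≤
      c * Real.log P.q * ∑ j ∈ Finset.Icc a n, (if P.lam c j ≤ s then 1 else 0 : ℝ) := by
  have hlq : 0 ≤ Real.log P.q := by linarith [log_q_ge P]
  have hterm : ∀ j, (0 : ℝ) ≤ (if P.lam c j ≤ s then 1 else 0 : ℝ) := fun j => by
    split_ifs <;> norm_num
  induction n, hn using Int.leInduction with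
  | base =>
    have h1 : max 1 (s / P.lam c a) = 1 := max_eq_left (by
      rw [div_le_one (lam_pos P c a)]
      exact ha)
    rw [h1, Real.log_one]
    exact mul_nonneg (by positivity) (Finset.sum_nonneg fun j _ => hterm j)
  | succ n hn ih =>
    rw [← Finset.insert_Icc_right_eq_Icc_add_one (by omega), Finset.sum_insert (by simp)]
    have hl := lam_pos P c (n + 1)
    by_cases h : P.lam c (n + 1) ≤ s
    · rw [if_pos h]
      have hs0 : 0 < s := hl.trans_le h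
      have hqc : (0 : ℝ) < (P.q : ℝ) ^ c := by
        have := q_real_pos P
        positivity
      have h1 : max 1 (s / P.lam c (n + 1)) = s / P.lam c (n + 1) := max_eq_right (by
        rw [le_div_iff₀ hl]
        linarith)
      have h2 : s / P.lam c (n + 1) = s / P.lam c n * (P.q : ℝ) ^ c := by
        rw [← lam_succ P c n]
        field_simp
      have h3 : Real.log (s / P.lam c n) ≤ Real.log (max 1 (s / P.lam c n)) :=
        Real.log_le_log (div_pos hs0 (lam_pos P c n)) (le_max_right _ _)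
      rw [h1, h2, Real.log_mul (div_pos hs0 (lam_pos P c n)).ne' hqc.ne', Real.log_pow]
      have e : c * Real.log P.q * (1 + ∑ j ∈ Finset.Icc a n,
          (if P.lam c j ≤ s then 1 else 0 : ℝ)) = c * Real.log P.q + c * Real.log P.q *
          ∑ j ∈ Finset.Icc a n, (if P.lam c j ≤ s then 1 else 0 : ℝ) := by ring
      rw [e]
      linarith
    · rw [if_neg h, zero_add]
      have h1 : max 1 (s / P.lam c (n + 1)) = 1 := max_eq_left (by
        rw [div_le_one hl]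
        exact (not_le.mp h).le)
      rw [h1, Real.log_one]
      exact mul_nonneg (by positivity) (Finset.sum_nonneg fun j _ => hterm j)

/-- The logarithm against a mass which is controlled by the density. -/
theorem M1_pt {q τ s w M C : ℝ} (hq : 4 ≤ q) (hτ : 0 < τ) (hs : 0 ≤ s) (hw : 0 ≤ w)
    (hM : 0 ≤ M) (hC : 0 < C) (h : M ≤ C * q ^ 20 * s) :
    M * Real.log (1 + w) ≤ M * (1 + Real.log (max 1 (s / τ))) + 30 * Real.log q * M +
      C * (q ^ 10)⁻¹ * τ * w := by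
  have hq0 : 0 < q := by linarith
  have hlq : 0 ≤ Real.log q := Real.log_nonneg (by linarith)
  rcases hs.eq_or_lt with rfl | hs0
  · have hM0 : M = 0 := by
      rw [mul_zero] at h
      linarith
    rw [hM0]
    have : 0 ≤ C * (q ^ 10)⁻¹ * τ * w := by positivity
    simp only [zero_mul, mul_zero, zero_add]
    exact this
  · have h1 : Real.log (1 + w) ≤ Real.log (1 + s / τ) + Real.log (1 + τ * w / s) := by
      rw [← Real.log_mul (by positivity) (by positivity)]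
      refine Real.log_le_log (by positivity) ?_
      have e : (1 + s / τ) * (1 + τ * w / s) = 1 + w + s / τ + τ * w / s := by
        field_simp
        ring
      rw [e]
      have : 0 ≤ s / τ := by positivity
      have : 0 ≤ τ * w / s := by positivity
      linarith
    have h2 : Real.log (1 + s / τ) ≤ 1 + Real.log (max 1 (s / τ)) := by
      have h3 : 1 + s / τ ≤ 2 * max 1 (s / τ) := by
        have := le_max_left 1 (s / τ)
        have := le_max_right 1 (s / τ)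
        linarith
      calc Real.log (1 + s / τ) ≤ Real.log (2 * max 1 (s / τ)) :=
            Real.log_le_log (by positivity) h3
        _ = Real.log 2 + Real.log (max 1 (s / τ)) :=
            Real.log_mul (by norm_num) (by positivity)
        _ ≤ _ := by
            have := Real.log_two_lt_d9
            linarith
    have h3 : Real.log (1 + τ * w / s) ≤ 30 * Real.log q + (q ^ 30)⁻¹ * (τ * w / s) := by
      have e : 1 + τ * w / s = q ^ 30 * ((q ^ 30)⁻¹ * (1 + τ * w / s)) := by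
        field_simp
      rw [e, Real.log_mul (by positivity) (by positivity), Real.log_pow]
      have h4 : Real.log ((q ^ 30)⁻¹ * (1 + τ * w / s)) ≤ (q ^ 30)⁻¹ * (1 + τ * w / s) - 1 :=
        Real.log_le_sub_one_of_pos (by positivity)
      have h5 : (q ^ 30)⁻¹ ≤ 1 := inv_le_one_of_one_le₀ (one_le_pow₀ (by linarith))
      push_cast
      nlinarith
    have h6 : M * ((q ^ 30)⁻¹ * (τ * w / s)) ≤ C * (q ^ 10)⁻¹ * τ * w := by
      have h7 : M * ((q ^ 30)⁻¹ * (τ * w / s)) ≤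
          (C * q ^ 20 * s) * ((q ^ 30)⁻¹ * (τ * w / s)) :=
        mul_le_mul_of_nonneg_right h (by positivity)
      have e : (C * q ^ 20 * s) * ((q ^ 30)⁻¹ * (τ * w / s)) = C * (q ^ 10)⁻¹ * τ * w := by
        field_simp
      linarith
    calc M * Real.log (1 + w) ≤ M * ((1 + Real.log (max 1 (s / τ))) +
          (30 * Real.log q + (q ^ 30)⁻¹ * (τ * w / s))) :=
          mul_le_mul_of_nonneg_left (by linarith) hM
      _ = M * (1 + Real.log (max 1 (s / τ))) + 30 * Real.log q * M +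
          M * ((q ^ 30)⁻¹ * (τ * w / s)) := by ring
      _ ≤ _ := by linarith

end logs

end Mass
end REPS
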