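import Pool.Agent.REPS.MassD

open MeasureTheory Filter Topology Real Metric FourierTransform
open scoped ENNReal NNReal InnerProductSpace

namespace REPS
namespace Mass

open Helper77.TA

/-! ### Pointwise bound of the unit packets by the density -/

/-- Error term of the truncation of the averages. -/
noncomputable def tl (P : Par) (G : V2 → ℂ) (K : Ker) (τ : ℝ) (x : V2) : ℝ :=
  2 * P.y0 / P.q * ∑ κ ∈ Finset.range (P.M 0), pav (P.q : ℝ) (dir (P.cen 0 κ))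
    (fun z => P.h G K τ 1 (κ / P.b) z * ‖P.T0 G κ z‖ ^ 2) x

section trunc

variable {P : Par} {G : V2 → ℂ} {τ : ℝ}

theorem tl_nonneg (K : Ker) (hG : P.Good G) (hτ : 0 < τ) (x : V2) : 0 ≤ tl P G K τ x := by
  have := y0_pos P
  have := q_real_pos P
  refine mul_nonneg (by positivity) (Finset.sum_nonneg fun κ _ => ?_)
  exact pav_nonneg (q_real_pos P) _ (fun z => mul_nonneg (h_nonneg K hG hτ P.hk _ z)
    (by positivity)) x

theorem tl_int (K : Ker) (hG : P.Good G) (hτ : 0 < τ) : Integrable (tl P G K τ) :=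
  (integrable_finsetSum _ fun κ _ => pav_int (q_real_pos P) _
    (hT0_int K hG hτ hG.int hG.lp (good_ann hG) κ)).const_mul _

theorem tl_total (K : Ker) (hG : P.Good G) (hτ : 0 < τ) : ∫ x, tl P G K τ x ≤
    2 * P.y0 / P.q * ∑ κ ∈ Finset.range (P.M 0), ∫ x, ‖P.T0 G κ x‖ ^ 2 := by
  have hi := fun κ => hT0_int K hG hτ hG.int hG.lp (good_ann hG) κ
  have h1 := y0_pos P
  have h2 := q_real_pos P
  unfold tl
  rw [integral_const_mul, integral_finsetSum _ fun κ _ => pav_int h2 _ (hi κ)]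
  refine mul_le_mul_of_nonneg_left (Finset.sum_le_sum fun κ _ => ?_) (by positivity)
  rw [integral_pav h2 _ (hi κ)]
  refine integral_mono (hi κ) (T0_int hG κ) fun x => ?_
  have h1 := h_le K hG hτ P.hk (κ / P.b) x
  have h2 : 0 ≤ ‖P.T0 G κ x‖ ^ 2 := by positivity
  simp only
  nlinarith

theorem A_sq (P : Par) : P.A ^ 2 = (P.q : ℝ) ^ 16 := by
  unfold Par.A
  ring

theorem har_num {t q d : ℝ} (hq : 4 ≤ q) (ht : |t| ≤ q) :
    (1 + t ^ 2) * (1 + (t * d) ^ 2) ≤ 4 * q ^ 4 * (1 + d ^ 2) := by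
  have h1 : t ^ 2 ≤ q ^ 2 := by
    rw [← sq_abs t]
    exact pow_le_pow_left₀ (abs_nonneg t) ht 2
  have h2 : 1 + t ^ 2 ≤ 2 * q ^ 2 := by nlinarith
  have h3 : 1 + (t * d) ^ 2 ≤ 2 * q ^ 2 * (1 + d ^ 2) := by
    rw [mul_pow]
    nlinarith [mul_le_mul_of_nonneg_right h1 (sq_nonneg d), sq_nonneg d]
  calc (1 + t ^ 2) * (1 + (t * d) ^ 2) ≤ (2 * q ^ 2) * (2 * q ^ 2 * (1 + d ^ 2)) := by gcongr
    _ = 4 * q ^ 4 * (1 + d ^ 2) := by ring

end trunc

theorem m0_pt (H y0 : ℝ) (K : Ker) : ∃ C : ℝ, 0 < C ∧ ∀ P : Par, P.H = H → P.y0 = y0 →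
    ∀ G, P.Good G → ∀ τ : ℝ, 0 < τ → ∀ x, P.m0 G K G τ x + P.mS G K τ x ≤
      C * (P.q : ℝ) ^ 20 * P.St G x + tl P G K τ x := by
  obtain ⟨C3, hC3, h3⟩ := Par.K3sum H y0
  obtain ⟨Ch, hCh, hh⟩ := Par.HAR_E y0
  obtain ⟨C1, hC1, h1⟩ := D1_le H y0
  refine ⟨C3 * (Ch * 4) * 192 + C1, by positivity, fun P hH hy G hG τ hτ x => ?_⟩
  have hq := q_real_ge P
  have hq0 := q_real_pos P
  have hSE := SE_le hG x
  have hSE0 := SE_nonneg hG x
  have hSt0 := St_nonneg hG x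
  rw [A_sq] at hSE
  have hmS : P.mS G K τ x ≤ C1 * (P.q : ℝ) ^ 20 * P.St G x := by
    have e : C1 * SE P G x ≤ C1 * ((P.q : ℝ) ^ 20 * P.St G x) := by
      refine mul_le_mul_of_nonneg_left (hSE.trans ?_) hC1.le
      exact mul_le_mul_of_nonneg_right (pow_le_pow_right₀ (by linarith) (by norm_num)) hSt0
    calc P.mS G K τ x ≤ P.D1 G x := mS_le K hG hτ x
      _ ≤ C1 * SE P G x := h1 P hH hy G hG x
      _ ≤ C1 * ((P.q : ℝ) ^ 20 * P.St G x) := e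
      _ = _ := by ring
  have hm0 : P.m0 G K G τ x ≤ C3 * (Ch * 4) * 192 * (P.q : ℝ) ^ 20 * P.St G x +
      tl P G K τ x := by
    set b : ℕ → ℝ := fun κ => C3 * (Ch * (4 * (P.q : ℝ) ^ 4)) *
      ∑ κ' ∈ Finset.range (P.M 0), Real.exp (-(P.cd κ κ')) * (1 + P.cd κ κ' ^ 2) * P.E G κ' x
      with hb
    have hb0 : ∀ κ, 0 ≤ b κ := fun κ => by
      rw [hb]
      refine mul_nonneg (by positivity) (Finset.sum_nonneg fun κ' _ => ?_)
      exact mul_nonneg (by positivity) (E_nonneg hG κ' x)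
    have key : ∀ κ ∈ Finset.range (P.M 0), pav P.y0 (dir (P.cen 0 κ))
        (fun z => P.h G K τ 1 (κ / P.b) z * ‖P.T0 G κ z‖ ^ 2) x ≤ b κ + 2 * P.y0 / P.q *
        pav (P.q : ℝ) (dir (P.cen 0 κ)) (fun z => P.h G K τ 1 (κ / P.b) z *
          ‖P.T0 G κ z‖ ^ 2) x := by
      intro κ hκ
      have hκ := Finset.mem_range.mp hκ
      set N : ℝ := ∫ ξ, ‖damp G (dir (P.cen 0 κ)) (P.R + P.H) P.y0 ξ‖ with hN
      have hN0 : 0 ≤ N := integral_nonneg fun _ => norm_nonneg _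
      have hT : ∀ z, ‖P.T0 G κ z‖ ≤ N := fun z =>
        Helper77.TA.norm_fourierInv_le _ (damp_int hG.int (good_ann hG) (norm_dir _) (y0_pos P)) z
      have hm : Measurable fun z => P.h G K τ 1 (κ / P.b) z * ‖P.T0 G κ z‖ ^ 2 :=
        ((h_cont K hG hτ P.hk _).mul ((T0_cont hG κ).norm.pow 2)).measurable
      have hnn : ∀ z, 0 ≤ P.h G K τ 1 (κ / P.b) z * ‖P.T0 G κ z‖ ^ 2 := fun z =>
        mul_nonneg (h_nonneg K hG hτ P.hk _ z) (by positivity)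
      refine pav_split (y0_pos P) hq0 _ (c := N ^ 2) hm hnn (fun z => ?_) x (hb0 κ)
        fun t ht => ?_
      · have e1 := h_nonneg K hG hτ P.hk (κ / P.b) z
        have e2 := h_le K hG hτ P.hk (κ / P.b) z
        have e3 : ‖P.T0 G κ z‖ ^ 2 ≤ N ^ 2 := pow_le_pow_left₀ (norm_nonneg _) (hT z) 2
        have e4 : 0 ≤ ‖P.T0 G κ z‖ ^ 2 := by positivity
        nlinarith
      · have e1 := h_nonneg K hG hτ P.hk (κ / P.b) (x - t • dir (P.cen 0 κ))
        have e2 := h_le K hG hτ P.hk (κ / P.b) (x - t • dir (P.cen 0 κ))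
        have e4 : 0 ≤ ‖P.T0 G κ (x - t • dir (P.cen 0 κ))‖ ^ 2 := by positivity
        calc P.h G K τ 1 (κ / P.b) (x - t • dir (P.cen 0 κ)) *
              ‖P.T0 G κ (x - t • dir (P.cen 0 κ))‖ ^ 2
            ≤ ‖P.T0 G κ (x - t • dir (P.cen 0 κ))‖ ^ 2 := by nlinarith
          _ ≤ C3 * ∑ κ' ∈ Finset.range (P.M 0), Real.exp (-(P.cd κ κ')) *
              P.E G κ' (x - t • dir (P.cen 0 κ)) := h3 P hH hy G hG κ hκ _
          _ ≤ C3 * ∑ κ' ∈ Finset.range (P.M 0), Real.exp (-(P.cd κ κ')) *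
              (Ch * (4 * (P.q : ℝ) ^ 4) * (1 + P.cd κ κ' ^ 2) * P.E G κ' x) := by
              refine mul_le_mul_of_nonneg_left (Finset.sum_le_sum fun κ' hκ' => ?_) hC3.le
              refine mul_le_mul_of_nonneg_left ?_ (Real.exp_pos _).le
              have e5 := hh P hy G hG κ hκ κ' (Finset.mem_range.mp hκ') x (-t)
              rw [neg_smul, ← sub_eq_add_neg] at e5
              refine e5.trans ?_
              have e6 := har_num (d := P.cd κ κ') hq ht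
              have e7 : (1 + (-t) ^ 2) * (1 + (-t * P.cd κ κ') ^ 2) =
                  (1 + t ^ 2) * (1 + (t * P.cd κ κ') ^ 2) := by ring
              have e8 : Ch * (1 + (-t) ^ 2) * (1 + (-t * P.cd κ κ') ^ 2) ≤
                  Ch * (4 * (P.q : ℝ) ^ 4) * (1 + P.cd κ κ' ^ 2) := by
                rw [mul_assoc, e7, mul_assoc]
                exact mul_le_mul_of_nonneg_left e6 hCh.le
              exact mul_le_mul_of_nonneg_right e8 (E_nonneg hG κ' x)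
          _ = b κ := by
              rw [hb]
              simp only
              rw [mul_assoc C3, Finset.mul_sum, Finset.mul_sum, Finset.mul_sum]
              exact Finset.sum_congr rfl fun κ' _ => by ring
    have hsum : ∑ κ ∈ Finset.range (P.M 0), b κ ≤
        C3 * (Ch * (4 * (P.q : ℝ) ^ 4)) * (192 * SE P G x) := by
      rw [hb]
      simp only
      rw [← Finset.mul_sum]
      refine mul_le_mul_of_nonneg_left ?_ (by positivity)
      rw [Finset.sum_comm]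
      unfold SE
      rw [Finset.mul_sum]
      refine Finset.sum_le_sum fun κ' hκ' => ?_
      rw [← Finset.sum_mul]
      exact mul_le_mul_of_nonneg_right (cd_sum2 P (Finset.mem_range.mp hκ')) (E_nonneg hG κ' x)
    have hfin := Finset.sum_le_sum key
    have hfin2 : P.m0 G K G τ x ≤ ∑ κ ∈ Finset.range (P.M 0), b κ + tl P G K τ x := by
      refine hfin.trans (le_of_eq ?_)
      rw [Finset.sum_add_distrib]
      congr 1
      unfold tl
      rw [Finset.mul_sum]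
    have h5 : C3 * (Ch * (4 * (P.q : ℝ) ^ 4)) * (192 * SE P G x) ≤
        C3 * (Ch * (4 * (P.q : ℝ) ^ 4)) * (192 * ((P.q : ℝ) ^ 16 * P.St G x)) :=
      mul_le_mul_of_nonneg_left (mul_le_mul_of_nonneg_left hSE (by norm_num)) (by positivity)
    have h6 : C3 * (Ch * (4 * (P.q : ℝ) ^ 4)) * (192 * ((P.q : ℝ) ^ 16 * P.St G x)) =
        C3 * (Ch * 4) * 192 * (P.q : ℝ) ^ 20 * P.St G x := by ring
    linarith
  have e : (C3 * (Ch * 4) * 192 + C1) * (P.q : ℝ) ^ 20 * P.St G x =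
      C3 * (Ch * 4) * 192 * (P.q : ℝ) ^ 20 * P.St G x + C1 * (P.q : ℝ) ^ 20 * P.St G x := by ring
  linarith

/-! ### Transport of the unit packets -/

theorem split_set {P : Par} {G : V2 → ℂ} (hG : P.Good G) (s : ℝ) {f : V2 → ℝ}
    (hf : Integrable f) : ∫ x, f x = (∫ x in {x | P.St G x < s}, f x) +
      ∫ x in {x | s ≤ P.St G x}, f x := by
  have h := integral_add_compl (set_meas hG s) hf
  have e : {x | s ≤ P.St G x}ᶜ = {x | P.St G x < s} := by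
    ext x
    simp
  rw [e] at h
  linarith

theorem nt_use (H y0 B : ℝ) (hB : 1 ≤ B) : ∃ C : ℝ, 0 < C ∧ ∀ k : ℕ, ∃ q0 : ℕ, ∀ P : Par,
    P.H = H → P.y0 = y0 → P.k = k → q0 ≤ P.q → ∀ G, P.Good G → ∀ f : ℕ → V2 → ℝ,
    (∀ κ, Measurable (f κ)) → (∀ κ x, 0 ≤ f κ x) → (∀ κ, Integrable (f κ)) →
    (∀ x, ∑ κ ∈ Finset.range (P.M 0), f κ x ≤ (P.q : ℝ) ^ 40 * P.St G x) →
    ∑ κ ∈ Finset.range (P.M 0), ∫ x, f κ x ≤ B → ∀ s : ℝ, 0 < s →
    (∑ κ ∈ Finset.range (P.M 0), ∫ x, f κ x * pav P.y0 (dir (P.cen 0 κ)) (ind P G s) x ≤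
      C / P.q + ∑ κ ∈ Finset.range (P.M 0),
        ∫ x in {x | s * ((P.q : ℝ) ^ 202)⁻¹ ≤ P.St G x}, f κ x) ∧
    (∑ κ ∈ Finset.range (P.M 0), ∫ x, f κ x * pav P.y0 (dir (P.cen 0 κ))
        (pav (1 / √P.R) (nrm (P.cen 0 κ)) (ind P G s)) x ≤
      C / P.q + ∑ κ ∈ Finset.range (P.M 0),
        ∫ x in {x | s * ((P.q : ℝ) ^ 202)⁻¹ ≤ P.St G x}, f κ x) := by
  obtain ⟨C, hC, h⟩ := Par.nt H y0
  refine ⟨C * B + B, by positivity, fun k => ?_⟩
  obtain ⟨q0, hq0⟩ := h k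
  refine ⟨q0, fun P hH hy hk hq G hG f hfm hf0 hfi hfS hfB s hs => ?_⟩
  have hq4 := q_real_ge P
  have hqp := q_real_pos P
  set lo : ℝ := s * ((P.q : ℝ) ^ 202)⁻¹ with hlo
  have hlo0 : 0 < lo := by positivity
  have hlos : lo ≤ s := by
    have : ((P.q : ℝ) ^ 202)⁻¹ ≤ 1 := inv_le_one_of_one_le₀ (one_le_pow₀ (by linarith))
    rw [hlo]
    nlinarith
  have hnt := hq0 P hH hy hk hq G hG f hfm hf0 hfi hfS lo s hlo0 hlos
  have hsr := P.sqrtR_pos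
  have hw1 : ∀ κ : ℕ, Measurable (pav P.y0 (dir (P.cen 0 κ)) (ind P G s)) := fun κ =>
    pav_meas _ _ (ind_meas hG s)
  have hw1n : ∀ κ : ℕ, ∀ x, 0 ≤ pav P.y0 (dir (P.cen 0 κ)) (ind P G s) x := fun κ x =>
    pav_nonneg (y0_pos P) _ (ind_nonneg P G s) x
  have hw1l : ∀ κ : ℕ, ∀ x, pav P.y0 (dir (P.cen 0 κ)) (ind P G s) x ≤ 1 := fun κ x =>
    pav_le (y0_pos P) _ (ind_meas hG s) (ind_nonneg P G s) (ind_le P G s) x
  have hw2a : ∀ κ : ℕ, Measurable (pav (1 / √P.R) (nrm (P.cen 0 κ)) (ind P G s)) := fun κ =>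
    pav_meas _ _ (ind_meas hG s)
  have hw2an : ∀ κ : ℕ, ∀ x, 0 ≤ pav (1 / √P.R) (nrm (P.cen 0 κ)) (ind P G s) x := fun κ x =>
    pav_nonneg (by positivity) _ (ind_nonneg P G s) x
  have hw2al : ∀ κ : ℕ, ∀ x, pav (1 / √P.R) (nrm (P.cen 0 κ)) (ind P G s) x ≤ 1 := fun κ x =>
    pav_le (by positivity) _ (ind_meas hG s) (ind_nonneg P G s) (ind_le P G s) x
  have hw2 : ∀ κ : ℕ, Measurable (pav P.y0 (dir (P.cen 0 κ))
      (pav (1 / √P.R) (nrm (P.cen 0 κ)) (ind P G s))) := fun κ => pav_meas _ _ (hw2a κ)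
  have hw2n : ∀ κ : ℕ, ∀ x, 0 ≤ pav P.y0 (dir (P.cen 0 κ))
      (pav (1 / √P.R) (nrm (P.cen 0 κ)) (ind P G s)) x := fun κ x =>
    pav_nonneg (y0_pos P) _ (hw2an κ) x
  have hw2l : ∀ κ : ℕ, ∀ x, pav P.y0 (dir (P.cen 0 κ))
      (pav (1 / √P.R) (nrm (P.cen 0 κ)) (ind P G s)) x ≤ 1 := fun κ x =>
    pav_le (y0_pos P) _ (hw2a κ) (hw2an κ) (hw2al κ) x
  have hrhs : C / P.q * (∑ κ ∈ Finset.range (P.M 0), ∫ x, f κ x) +
      (P.q : ℝ) ^ 100 * √(lo / s) * √(∑ κ ∈ Finset.range (P.M 0), ∫ x, f κ x) ≤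
      (C * B + B) / P.q := by
    have e1 : √(lo / s) = ((P.q : ℝ) ^ 101)⁻¹ := by
      have : lo / s = (((P.q : ℝ) ^ 101)⁻¹) ^ 2 := by
        rw [hlo]
        field_simp
      rw [this, Real.sqrt_sq (by positivity)]
    have e2 : √(∑ κ ∈ Finset.range (P.M 0), ∫ x, f κ x) ≤ B := by
      rw [Real.sqrt_le_left (by linarith)]
      nlinarith
    have e3 : (P.q : ℝ) ^ 100 * ((P.q : ℝ) ^ 101)⁻¹ = (P.q : ℝ)⁻¹ := by
      field_simp
    rw [e1, e3]
    have e4 : C / P.q * (∑ κ ∈ Finset.range (P.M 0), ∫ x, f κ x) ≤ C / P.q * B :=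
      mul_le_mul_of_nonneg_left hfB (by positivity)
    have e5 : (P.q : ℝ)⁻¹ * √(∑ κ ∈ Finset.range (P.M 0), ∫ x, f κ x) ≤ (P.q : ℝ)⁻¹ * B :=
      mul_le_mul_of_nonneg_left e2 (by positivity)
    have e6 : (C * B + B) / P.q = C / P.q * B + (P.q : ℝ)⁻¹ * B := by
      field_simp
    linarith
  have gen : ∀ w : ℕ → V2 → ℝ, (∀ κ, Measurable (w κ)) → (∀ κ x, 0 ≤ w κ x) →
      (∀ κ x, w κ x ≤ 1) → ∑ κ ∈ Finset.range (P.M 0), ∫ x, f κ x * w κ x ≤
      (∑ κ ∈ Finset.range (P.M 0), ∫ x in {x | P.St G x < lo}, f κ x * w κ x) +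
      ∑ κ ∈ Finset.range (P.M 0), ∫ x in {x | lo ≤ P.St G x}, f κ x := by
    intro w hwm hw0 hw1
    rw [← Finset.sum_add_distrib]
    refine Finset.sum_le_sum fun κ _ => ?_
    have hi : Integrable fun x => f κ x * w κ x := mul_bd_int (hfi κ) (hwm κ) (c := 1) fun x => by
      rw [abs_of_nonneg (hw0 κ x)]
      exact hw1 κ x
    rw [split_set hG lo hi]
    refine add_le_add le_rfl (integral_mono hi.integrableOn (hfi κ).integrableOn fun x => ?_)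
    have := hf0 κ x
    have := hw1 κ x
    simp only
    nlinarith
  have nn : ∀ w : ℕ → V2 → ℝ, (∀ κ x, 0 ≤ w κ x) →
      0 ≤ ∑ κ ∈ Finset.range (P.M 0), ∫ x in {x | P.St G x < lo}, f κ x * w κ x := fun w hw =>
    Finset.sum_nonneg fun κ _ => integral_nonneg fun x => mul_nonneg (hf0 κ x) (hw κ x)
  have hnt' : (∑ κ ∈ Finset.range (P.M 0), ∫ x in {x | P.St G x < lo}, f κ x *
        pav P.y0 (dir (P.cen 0 κ)) (ind P G s) x) +
      (∑ κ ∈ Finset.range (P.M 0), ∫ x in {x | P.St G x < lo}, f κ x *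
        pav P.y0 (dir (P.cen 0 κ)) (pav (1 / √P.R) (nrm (P.cen 0 κ)) (ind P G s)) x) ≤
      (C * B + B) / P.q := hnt.trans hrhs
  have n1 := nn _ hw1n
  have n2 := nn _ hw2n
  have g1 := gen _ hw1 hw1n hw1l
  have g2 := gen _ hw2 hw2n hw2l
  exact ⟨by linarith, by linarith⟩

end Mass
end REPS
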