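import Pool.Agent.REPS.MassE

open MeasureTheory Filter Topology Real Metric FourierTransform
open scoped ENNReal NNReal InnerProductSpace

namespace REPS
namespace Mass

open Helper77.TA

theorem band_mono {F : V2 → ℂ} {S T : Set V2} (h : Band F S) (hST : S ⊆ T) : Band F T := by
  obtain ⟨a, h1, h2, h3, h4⟩ := h
  exact ⟨a, h1, h2, fun ξ hξ => hST (h3 ξ hξ), h4⟩

theorem B_pos (P : Par) : 0 < P.B := by
  unfold Par.B
  exact div_pos P.sqrtR_pos (A_pos P)

section cutT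

variable {P : Par} {G : V2 → ℂ} {τ : ℝ}

theorem hT_cont (K : Ker) (hG : P.Good G) (hτ : 0 < τ) : Continuous (P.hT G K τ) :=
  (Par.cutT_basic P K hG hτ).1

theorem hT_nonneg (K : Ker) (hG : P.Good G) (hτ : 0 < τ) (x : V2) : 0 ≤ P.hT G K τ x :=
  (Par.cutT_basic P K hG hτ).2.1 x

theorem hT_le (K : Ker) (hG : P.Good G) (hτ : 0 < τ) (x : V2) : P.hT G K τ x ≤ 1 :=
  (Par.cutT_basic P K hG hτ).2.2.1 x

theorem hT_abs (K : Ker) (hG : P.Good G) (hτ : 0 < τ) (x : V2) : |P.hT G K τ x| ≤ 1 := by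
  rw [abs_of_nonneg (hT_nonneg K hG hτ x)]
  exact hT_le K hG hτ x

theorem hT_band (K : Ker) (hG : P.Good G) (hτ : 0 < τ) :
    Band (fun x => ((P.hT G K τ x - 0 : ℝ) : ℂ)) (Metric.closedBall 0 (8 * P.B)) := by
  have h := (Par.cutT_basic P K hG hτ).2.2.2.2
  have e : (fun x => ((P.hT G K τ x - 0 : ℝ) : ℂ)) = fun x => (P.hT G K τ x : ℂ) := by
    funext x
    rw [sub_zero]
  rw [e]
  refine band_mono h (Metric.closedBall_subset_closedBall ?_)
  have := B_pos P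
  linarith

theorem clamp_one (P : Par) {τ s : ℝ} (hτ : 0 < τ) (h : P.q * τ ≤ s) : P.clamp τ s = 1 := by
  unfold Par.clamp
  have h1 := log_q_ge P
  have hq := q_real_pos P
  have h2 : 1 ≤ Real.log (s / τ) / Real.log P.q := by
    rw [le_div_iff₀ (by linarith), one_mul]
    refine Real.log_le_log hq ?_
    rw [le_div_iff₀ hτ]
    exact h
  rw [min_eq_left h2]
  exact max_eq_right zero_le_one

/-- The square root cut-off bound below the threshold. -/
theorem hT_small {K : Ker} {C : ℝ} (hC : 0 < C) (hτ : 0 < τ)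
    {x : V2} (h : P.hT G K τ x ≤ C * √(P.St G x / τ)) (h1 : P.hT G K τ x ≤ 1) :
    P.hT G K τ x ≤ ind P G (τ * ((P.q : ℝ) ^ 2)⁻¹) x + C / P.q := by
  have hq := q_real_pos P
  unfold ind
  by_cases hx : x ∈ {x | τ * ((P.q : ℝ) ^ 2)⁻¹ ≤ P.St G x}
  · rw [Set.indicator_of_mem hx, Pi.one_apply]
    have : 0 ≤ C / P.q := by positivity
    linarith
  · rw [Set.indicator_of_notMem hx, zero_add]
    have h2 : P.St G x < τ * ((P.q : ℝ) ^ 2)⁻¹ := not_le.mp hx
    have h3 : √(P.St G x / τ) ≤ (P.q : ℝ)⁻¹ := by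
      rw [Real.sqrt_le_left (by positivity), div_le_iff₀ hτ]
      have e : ((P.q : ℝ)⁻¹) ^ 2 * τ = τ * ((P.q : ℝ) ^ 2)⁻¹ := by
        rw [inv_pow, mul_comm]
      rw [e]
      exact h2.le
    calc P.hT G K τ x ≤ C * √(P.St G x / τ) := h
      _ ≤ C * (P.q : ℝ)⁻¹ := mul_le_mul_of_nonneg_left h3 hC.le
      _ = C / P.q := (div_eq_mul_inv _ _).symm

end cutT

theorem pav_le_add {y : ℝ} (hy : 0 < y) (ω : V2) {u w : V2 → ℝ} (hu : Measurable u)
    (hw : Measurable w) {c d e : ℝ} (hc : ∀ x, |u x| ≤ c) (hd : ∀ x, |w x| ≤ d)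
    (h : ∀ x, u x ≤ w x + e) (x : V2) : pav y ω u x ≤ pav y ω w x + e := by
  have i1 := line_int hy ω x hu hc
  have i2 := line_int hy ω x hw hd
  have i3 : Integrable fun t : ℝ => pk y t * e := (integrable_pk hy).mul_const e
  calc pav y ω u x ≤ ∫ t, (pk y t * w (x - t • ω) + pk y t * e) := by
        refine integral_mono i1 (i2.add i3) fun t => ?_
        simp only
        rw [← mul_add]
        exact mul_le_mul_of_nonneg_left (h _) (pk_nonneg hy t)
    _ = pav y ω w x + e := by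
        rw [integral_add i2 i3, integral_mul_const, integral_pk hy, one_mul]
        rfl

section swap

variable {P : Par} {G : V2 → ℂ}

theorem E_swap (hG : P.Good G) (κ : ℕ) {w : V2 → ℝ} (hw : Measurable w) {c : ℝ}
    (hc : ∀ x, |w x| ≤ c) (hw0 : ∀ x, 0 ≤ w x) : ∫ x, w x * P.E G κ x =
      ∫ x, ‖P.gp G 0 κ x‖ ^ 2 * pav P.y0 (dir (P.cen 0 κ))
        (pav (1 / √P.R) (nrm (P.cen 0 κ)) w) x := by
  have hsr := P.sqrtR_pos
  have hy' : 0 < 1 / √P.R := by positivity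
  have hu := gp_int hG 0 κ
  have hc' : ∀ x, w x ≤ c := fun x => (le_abs_self _).trans (hc x)
  have h1 : ∫ x, w x * P.E G κ x = ∫ x, pav P.y0 (dir (P.cen 0 κ))
      (pav (1 / √P.R) (nrm (P.cen 0 κ)) (fun z => ‖P.gp G 0 κ z‖ ^ 2)) x * w x := by
    congr 1
    funext x
    rw [mul_comm]
    rfl
  have hwm : Measurable (pav P.y0 (dir (P.cen 0 κ)) w) := pav_meas _ _ hw
  have hwb : ∀ x, |pav P.y0 (dir (P.cen 0 κ)) w x| ≤ c := fun x => by
    rw [abs_of_nonneg (pav_nonneg (y0_pos P) _ hw0 x)]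
    exact pav_le (y0_pos P) _ hw hw0 hc' x
  rw [h1, adj (y0_pos P) _ (pav_int hy' _ hu) hw hc, adj hy' _ hu hwm hwb]
  congr 1
  funext x
  rw [pav_comm hy' (y0_pos P) _ _ hw hc]

end swap

/-- Mass of the unit packets of `G`, seen from the high set, in terms of the square function on a
slightly larger set. -/
theorem ml (H y0 : ℝ) (K : Ker) : ∃ C : ℝ, 0 < C ∧ ∀ k : ℕ, ∃ q0 : ℕ, ∀ P : Par, P.H = H →
    P.y0 = y0 → P.k = k → q0 ≤ P.q → ∀ G, P.Good G → ∀ s : ℝ, 0 < s →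
    ∑ κ ∈ Finset.range (P.M 0), ∫ x, ‖P.T0 G κ x‖ ^ 2 *
        pav P.y0 (dir (P.cen 0 κ)) (ind P G s) x ≤
      C / P.q + C * ∫ x in {x | s * ((P.q : ℝ) ^ 407)⁻¹ ≤ P.St G x}, P.D1 G x := by
  obtain ⟨CT, hCT, hTt⟩ := T0_total H y0
  obtain ⟨Cs, hCs, hTs⟩ := T0sum H y0
  obtain ⟨CD, hCD, hDs⟩ := D1_le H y0
  obtain ⟨C3, hC3, hK3⟩ := Par.K3 H y0
  obtain ⟨Cc, hCc, hcut⟩ := Par.cutT_C K
  obtain ⟨C1, hC1, hnt1⟩ := nt_use H y0 (CT + 1) (by linarith)
  refine ⟨C1 + 8 * C3 * (Cc + C1) + 8 * C3, by positivity, fun k => ?_⟩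
  obtain ⟨q1, hq1⟩ := hnt1 k
  obtain ⟨q2, hq2⟩ := log_large (2 * Cc)
  obtain ⟨q3, hq3⟩ := exists_nat_ge (Cs + CD)
  refine ⟨max q1 (max q2 q3), fun P hH hy hk hq G hG s hs => ?_⟩
  have hqq1 : q1 ≤ P.q := (le_max_left _ _).trans hq
  have hqq2 : q2 ≤ P.q := (le_max_left _ _).trans ((le_max_right _ _).trans hq)
  have hqq3 : q3 ≤ P.q := (le_max_right _ _).trans ((le_max_right _ _).trans hq)
  have hq4 := q_real_ge P
  have hqp := q_real_pos P
  have hlog := hq2 P.q hqq2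
  have hlog1 := log_q_ge P
  have hq3' : Cs + CD ≤ P.q := hq3.trans (by exact_mod_cast hqq3)
  have hsr := P.sqrtR_pos
  have hpw : ∀ x, ∀ c : ℝ, 0 ≤ c → c ≤ P.q → c * SE P G x ≤ (P.q : ℝ) ^ 40 * P.St G x := by
    intro x c hc0 hcq
    have h1 := SE_le hG x
    rw [A_sq] at h1
    have h2 := SE_nonneg hG x
    have h3 := St_nonneg hG x
    calc c * SE P G x ≤ P.q * ((P.q : ℝ) ^ 16 * P.St G x) :=
          mul_le_mul hcq h1 h2 hqp.le
      _ = (P.q : ℝ) ^ 17 * P.St G x := by ring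
      _ ≤ (P.q : ℝ) ^ 40 * P.St G x :=
          mul_le_mul_of_nonneg_right (pow_le_pow_right₀ (by linarith) (by norm_num)) h3
  -- first transport
  have s1 := (hq1 P hH hy hk hqq1 G hG (fun κ x => ‖P.T0 G κ x‖ ^ 2)
    (fun κ => ((T0_cont hG κ).norm.pow 2).measurable) (fun κ x => by positivity)
    (fun κ => T0_int hG κ)
    (fun x => (hTs P hH hy G hG x).trans (hpw x Cs hCs.le (by linarith)))
    ((hTt P hH hy G hG).trans (by linarith)) s hs).1
  -- insertion of the cut-off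
  set lo : ℝ := s * ((P.q : ℝ) ^ 202)⁻¹ with hlo
  set t : ℝ := lo / P.q with ht
  have hlo0 : 0 < lo := by positivity
  have ht0 : 0 < t := by positivity
  have hW := hT_cont K hG ht0
  have hW0 := hT_nonneg K hG ht0
  have hW1 := hT_abs K hG ht0
  have hhalf : ∀ x, lo ≤ P.St G x → 1 ≤ 2 * P.hT G K t x := by
    intro x hx
    have h1 := (hcut P G hG t ht0 x).1
    have h2 : P.clamp t (P.St G x) = 1 := clamp_one P ht0 (by
      rw [ht]
      field_simp
      exact hx)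
    rw [h2] at h1
    have h3 : Cc / Real.log P.q ≤ 1 / 2 := by
      rw [div_le_iff₀ (by linarith)]
      linarith
    have h4 := (abs_le.mp h1).1
    linarith
  have iT : ∀ κ, Integrable fun x => P.hT G K t x * ‖P.T0 G κ x‖ ^ 2 := fun κ =>
    (mul_bd_int (T0_int hG κ) hW.measurable hW1).congr (ae_of_all _ fun x => mul_comm _ _)
  have s2 : ∑ κ ∈ Finset.range (P.M 0), ∫ x in {x | lo ≤ P.St G x}, ‖P.T0 G κ x‖ ^ 2 ≤
      2 * ∑ κ ∈ Finset.range (P.M 0), ∫ x, P.hT G K t x * ‖P.T0 G κ x‖ ^ 2 := by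
    rw [Finset.mul_sum]
    refine Finset.sum_le_sum fun κ _ => ?_
    rw [← integral_const_mul, ← integral_indicator (set_meas hG lo)]
    refine integral_mono ((T0_int hG κ).indicator (set_meas hG lo)) ((iT κ).const_mul 2)
      fun x => ?_
    simp only
    have e0 : 0 ≤ ‖P.T0 G κ x‖ ^ 2 := by positivity
    by_cases hx : x ∈ {x | lo ≤ P.St G x}
    · rw [Set.indicator_of_mem hx]
      have := hhalf x hx
      nlinarith
    · rw [Set.indicator_of_notMem hx]
      have := hW0 x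
      positivity
  -- orthogonality and the kernel bound
  have iE : ∀ κ, Integrable fun x => P.hT G K t x * P.E G κ x := fun κ =>
    (mul_bd_int (E_int hG κ) hW.measurable hW1).congr (ae_of_all _ fun x => mul_comm _ _)
  have nE : ∀ κ, 0 ≤ ∫ x, P.hT G K t x * P.E G κ x := fun κ =>
    integral_nonneg fun x => mul_nonneg (hW0 x) (E_nonneg hG κ x)
  have s3 : ∑ κ ∈ Finset.range (P.M 0), ∫ x, P.hT G K t x * ‖P.T0 G κ x‖ ^ 2 ≤
      4 * C3 * ∑ κ' ∈ Finset.range (P.M 0), ∫ x, P.hT G K t x * P.E G κ' x := by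
    calc ∑ κ ∈ Finset.range (P.M 0), ∫ x, P.hT G K t x * ‖P.T0 G κ x‖ ^ 2
        = ∑ κ ∈ Finset.range (P.M 0), ∑ κ' ∈ Finset.range (P.M 0),
            ∫ x, P.hT G K t x * ‖P.T0 (P.piece G 0 κ') κ x‖ ^ 2 :=
          Finset.sum_congr rfl fun κ _ => Par.local_orth P hG 0 (hT_band K hG ht0) κ
      _ ≤ ∑ κ ∈ Finset.range (P.M 0), ∑ κ' ∈ Finset.range (P.M 0),
            C3 * (Real.exp (-(P.cd κ κ')) * ∫ x, P.hT G K t x * P.E G κ' x) := by
          refine Finset.sum_le_sum fun κ hκ => Finset.sum_le_sum fun κ' hκ' => ?_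
          have hκ := Finset.mem_range.mp hκ
          have hκ' := Finset.mem_range.mp hκ'
          have hgd := hG.piece P 0 κ'
          rw [← integral_const_mul, ← integral_const_mul]
          refine integral_mono ((mul_bd_int (T0_int hgd κ) hW.measurable hW1).congr
            (ae_of_all _ fun x => mul_comm _ _)) (((iE κ').const_mul _).const_mul _) fun x => ?_
          simp only
          have e1 := hK3 P hH hy G hG κ hκ κ' hκ' x
          have e2 : Real.exp (-(2 * P.cd κ κ')) ≤ Real.exp (-(P.cd κ κ')) :=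
            Real.exp_le_exp.mpr (by have := cd_nonneg P hκ hκ'; linarith)
          have e3 : C3 * Real.exp (-(2 * P.cd κ κ')) * P.E G κ' x ≤
              C3 * Real.exp (-(P.cd κ κ')) * P.E G κ' x :=
            mul_le_mul_of_nonneg_right (mul_le_mul_of_nonneg_left e2 hC3.le) (E_nonneg hG κ' x)
          calc P.hT G K t x * ‖P.T0 (P.piece G 0 κ') κ x‖ ^ 2
              ≤ P.hT G K t x * (C3 * Real.exp (-(P.cd κ κ')) * P.E G κ' x) :=
                mul_le_mul_of_nonneg_left (e1.trans e3) (hW0 x)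
            _ = _ := by ring
      _ = C3 * ∑ κ' ∈ Finset.range (P.M 0), (∑ κ ∈ Finset.range (P.M 0),
            Real.exp (-(P.cd κ κ'))) * ∫ x, P.hT G K t x * P.E G κ' x := by
          rw [Finset.sum_comm, Finset.mul_sum]
          refine Finset.sum_congr rfl fun κ' _ => ?_
          rw [← Finset.mul_sum, Finset.sum_mul]
      _ ≤ C3 * ∑ κ' ∈ Finset.range (P.M 0), 4 * ∫ x, P.hT G K t x * P.E G κ' x := by
          refine mul_le_mul_of_nonneg_left (Finset.sum_le_sum fun κ' hκ' => ?_) hC3.le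
          exact mul_le_mul_of_nonneg_right (Par.cd_sum P κ' (Finset.mem_range.mp hκ')) (nE κ')
      _ = _ := by
          rw [← Finset.mul_sum]
          ring
  -- second transport
  set lo3 : ℝ := t * ((P.q : ℝ) ^ 2)⁻¹ with hlo3
  have hlo30 : 0 < lo3 := by positivity
  have hpt : ∀ x, P.hT G K t x ≤ ind P G lo3 x + Cc / P.q := fun x =>
    hT_small hCc ht0 (hcut P G hG t ht0 x).2 (hT_le K hG ht0 x)
  have hCq : 0 ≤ Cc / P.q := by positivity
  have s4 : ∑ κ ∈ Finset.range (P.M 0), ∫ x, P.hT G K t x * P.E G κ x ≤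
      (∑ κ ∈ Finset.range (P.M 0), ∫ x, ‖P.gp G 0 κ x‖ ^ 2 * pav P.y0 (dir (P.cen 0 κ))
        (pav (1 / √P.R) (nrm (P.cen 0 κ)) (ind P G lo3)) x) + Cc / P.q := by
    calc ∑ κ ∈ Finset.range (P.M 0), ∫ x, P.hT G K t x * P.E G κ x
        ≤ ∑ κ ∈ Finset.range (P.M 0), ((∫ x, ‖P.gp G 0 κ x‖ ^ 2 * pav P.y0 (dir (P.cen 0 κ))
            (pav (1 / √P.R) (nrm (P.cen 0 κ)) (ind P G lo3)) x) +
            Cc / P.q * ∫ x, ‖P.gp G 0 κ x‖ ^ 2) := by
          refine Finset.sum_le_sum fun κ _ => ?_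
          have hy' : 0 < 1 / √P.R := by positivity
          have m1 := pav_meas (1 / √P.R) (nrm (P.cen 0 κ)) hW.measurable
          have n1 := pav_nonneg hy' (nrm (P.cen 0 κ)) hW0
          have l1 := pav_le hy' (nrm (P.cen 0 κ)) hW.measurable hW0 (hT_le K hG ht0)
          have m2 := pav_meas (1 / √P.R) (nrm (P.cen 0 κ)) (ind_meas hG lo3)
          have n2 := pav_nonneg hy' (nrm (P.cen 0 κ)) (ind_nonneg P G lo3)
          have l2 := pav_le hy' (nrm (P.cen 0 κ)) (ind_meas hG lo3) (ind_nonneg P G lo3)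
            (ind_le P G lo3)
          have a1 : ∀ x, |pav (1 / √P.R) (nrm (P.cen 0 κ)) (P.hT G K t) x| ≤ 1 := fun x => by
            rw [abs_of_nonneg (n1 x)]
            exact l1 x
          have a2 : ∀ x, |pav (1 / √P.R) (nrm (P.cen 0 κ)) (ind P G lo3) x| ≤ 1 := fun x => by
            rw [abs_of_nonneg (n2 x)]
            exact l2 x
          have p1 := pav_le_add hy' (nrm (P.cen 0 κ)) hW.measurable (ind_meas hG lo3) hW1
            (ind_abs P G lo3) hpt
          have p2 := pav_le_add (y0_pos P) (dir (P.cen 0 κ)) m1 m2 a1 a2 p1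
          have b1 : ∀ x, |pav P.y0 (dir (P.cen 0 κ))
              (pav (1 / √P.R) (nrm (P.cen 0 κ)) (P.hT G K t)) x| ≤ 1 := fun x => by
            rw [abs_of_nonneg (pav_nonneg (y0_pos P) _ n1 x)]
            exact pav_le (y0_pos P) _ m1 n1 l1 x
          have b2 : ∀ x, |pav P.y0 (dir (P.cen 0 κ))
              (pav (1 / √P.R) (nrm (P.cen 0 κ)) (ind P G lo3)) x| ≤ 1 := fun x => by
            rw [abs_of_nonneg (pav_nonneg (y0_pos P) _ n2 x)]
            exact pav_le (y0_pos P) _ m2 n2 l2 x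
          rw [E_swap hG κ hW.measurable hW1 hW0, ← integral_const_mul, ← integral_add
            (mul_bd_int (gp_int hG 0 κ) (pav_meas _ _ m2) b2) ((gp_int hG 0 κ).const_mul _)]
          refine integral_mono (mul_bd_int (gp_int hG 0 κ) (pav_meas _ _ m1) b1)
            ((mul_bd_int (gp_int hG 0 κ) (pav_meas _ _ m2) b2).add
              ((gp_int hG 0 κ).const_mul _)) fun x => ?_
          simp only
          have e0 : 0 ≤ ‖P.gp G 0 κ x‖ ^ 2 := by positivity
          calc ‖P.gp G 0 κ x‖ ^ 2 * pav P.y0 (dir (P.cen 0 κ))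
                (pav (1 / √P.R) (nrm (P.cen 0 κ)) (P.hT G K t)) x
              ≤ ‖P.gp G 0 κ x‖ ^ 2 * (pav P.y0 (dir (P.cen 0 κ))
                (pav (1 / √P.R) (nrm (P.cen 0 κ)) (ind P G lo3)) x + Cc / P.q) :=
                mul_le_mul_of_nonneg_left (p2 x) e0
            _ = _ := by ring
      _ ≤ _ := by
          rw [Finset.sum_add_distrib, ← Finset.mul_sum]
          have := mul_le_mul_of_nonneg_left (sum_gp_le hG) hCq
          linarith
  have s5 := (hq1 P hH hy hk hqq1 G hG (fun κ x => ‖P.gp G 0 κ x‖ ^ 2)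
    (fun κ => ((gp_cont hG 0 κ).norm.pow 2).measurable) (fun κ x => by positivity)
    (fun κ => gp_int hG 0 κ)
    (fun x => (hDs P hH hy G hG x).trans (hpw x CD hCD.le (by linarith)))
    ((sum_gp_le hG).trans (by linarith)) lo3 hlo30).2
  have hlo4 : lo3 * ((P.q : ℝ) ^ 202)⁻¹ = s * ((P.q : ℝ) ^ 407)⁻¹ := by
    rw [hlo3, ht, hlo]
    field_simp
  rw [hlo4] at s5
  have s6 : ∑ κ ∈ Finset.range (P.M 0), ∫ x in {x | s * ((P.q : ℝ) ^ 407)⁻¹ ≤ P.St G x},
      ‖P.gp G 0 κ x‖ ^ 2 = ∫ x in {x | s * ((P.q : ℝ) ^ 407)⁻¹ ≤ P.St G x}, P.D1 G x := by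
    unfold Par.D1
    rw [integral_finsetSum _ fun κ _ => (gp_int hG 0 κ).integrableOn]
  rw [s6] at s5
  set D : ℝ := ∫ x in {x | s * ((P.q : ℝ) ^ 407)⁻¹ ≤ P.St G x}, P.D1 G x with hD
  have hD0 : 0 ≤ D := integral_nonneg fun x => D1_nonneg G x
  have hC3' : 0 ≤ 8 * C3 := by positivity
  have f1 : ∑ κ ∈ Finset.range (P.M 0), ∫ x, P.hT G K t x * P.E G κ x ≤
      Cc / P.q + (C1 / P.q + D) := by linarith
  have f2 := mul_le_mul_of_nonneg_left f1 hC3'
  have f3 : ∑ κ ∈ Finset.range (P.M 0), ∫ x in {x | lo ≤ P.St G x}, ‖P.T0 G κ x‖ ^ 2 ≤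
      8 * C3 * (Cc / P.q + (C1 / P.q + D)) := by
    linarith
  have e : (C1 + 8 * C3 * (Cc + C1) + 8 * C3) / P.q + (C1 + 8 * C3 * (Cc + C1) + 8 * C3) * D =
      C1 / P.q + 8 * C3 * (Cc / P.q + (C1 / P.q + D)) + (8 * C3 / P.q +
        (C1 + 8 * C3 * (Cc + C1)) * D) := by
    field_simp
    ring
  have e2 : 0 ≤ 8 * C3 / P.q + (C1 + 8 * C3 * (Cc + C1)) * D := by positivity
  rw [e]
  linarith

end Mass
end REPS
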