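import Pool.Agent.REPS.Defs

open MeasureTheory Filter Topology Real Metric FourierTransform
open scoped ENNReal NNReal InnerProductSpace

namespace REPS
namespace Nik

theorem inner_two (u v : V2) : ⟪u, v⟫_ℝ = u 0 * v 0 + u 1 * v 1 := by
  simp only [PiLp.inner_apply, Fin.sum_univ_two, RCLike.inner_apply, conj_trivial]
  ring

theorem on_frame (φ : ℝ) : Orthonormal ℝ ![dir φ, nrm φ] := by
  rw [orthonormal_iff_ite]
  have h := Real.sin_sq_add_cos_sq φ
  intro i j
  rw [inner_two]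
  fin_cases i <;> fin_cases j <;>
    simp [dir, nrm] <;> nlinarith

/-- The orthonormal basis of the frame. -/
noncomputable def fb (φ : ℝ) : OrthonormalBasis (Fin 2) ℝ V2 :=
  OrthonormalBasis.mk (on_frame φ) (by
    rw [(on_frame φ).linearIndependent.span_eq_top_of_card_eq_finrank' (by simp)])

/-- Frame coordinates. -/
noncomputable def frm (φ : ℝ) (u : V2) : ℝ × ℝ := (⟪u, dir φ⟫_ℝ, ⟪u, nrm φ⟫_ℝ)

theorem frm_mp (φ : ℝ) : MeasurePreserving (frm φ) volume volume := by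
  have h1 := (fb φ).measurePreserving_repr
  have h2 := (PiLp.volume_preserving_ofLp (Fin 2)).comp h1
  have h3 := (volume_preserving_finTwoArrow ℝ).comp h2
  convert h3 using 1
  funext u
  simp only [frm, Function.comp, MeasurableEquiv.finTwoArrow_apply, OrthonormalBasis.repr_apply_apply]
  simp [fb, real_inner_comm]

theorem lint_frm (φ : ℝ) {g : ℝ × ℝ → ℝ≥0∞} (hg : Measurable g) :
    ∫⁻ u, g (frm φ u) = ∫⁻ p, g p := (frm_mp φ).lintegral_comp hg

theorem box_eq (T w φ : ℝ) : box T w φ = frm φ ⁻¹' (Set.Icc (-T) T ×ˢ Set.Icc (-w) w) := by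
  ext z
  simp only [box, frm, Set.mem_ofPred_eq, Set.mem_preimage, Set.mem_prod, Set.mem_Icc, abs_le]

theorem box_meas (T w φ : ℝ) : MeasurableSet (box T w φ) := by
  rw [box_eq]
  exact (frm_mp φ).measurable (measurableSet_Icc.prod measurableSet_Icc)

theorem vol_box {T w : ℝ} (hT : 0 ≤ T) (φ : ℝ) :
    volume (box T w φ) = ENNReal.ofReal (4 * T * w) := by
  rw [box_eq, (frm_mp φ).measure_preimage (measurableSet_Icc.prod measurableSet_Icc).nullMeasurableSet,
    Measure.volume_eq_prod, Measure.prod_prod, Real.volume_Icc, Real.volume_Icc,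
    ← ENNReal.ofReal_mul (by linarith)]
  congr 1
  ring

theorem inner_nrm_frame (u : V2) (φ ψ : ℝ) : ⟪u, nrm ψ⟫_ℝ =
    ⟪u, dir φ⟫_ℝ * Real.sin (φ - ψ) + ⟪u, nrm φ⟫_ℝ * Real.cos (φ - ψ) := by
  have h := Real.sin_sq_add_cos_sq φ
  simp only [inner_two, dir, nrm, Real.sin_sub, Real.cos_sub]
  simp
  linear_combination (u 0 * sin ψ - u 1 * cos ψ) * h

theorem inner_dir_frame (u : V2) (φ ψ : ℝ) : ⟪u, dir ψ⟫_ℝ =
    ⟪u, dir φ⟫_ℝ * Real.cos (φ - ψ) - ⟪u, nrm φ⟫_ℝ * Real.sin (φ - ψ) := by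
  have h := Real.sin_sq_add_cos_sq φ
  simp only [inner_two, dir, nrm, Real.sin_sub, Real.cos_sub]
  simp
  linear_combination (- u 0 * cos ψ - u 1 * sin ψ) * h

theorem vol_strips {w : ℝ} (hw : 0 ≤ w) (φ ψ a0 : ℝ) (hS : Real.sin (φ - ψ) ≠ 0) :
    volume {u : V2 | |⟪u, nrm φ⟫_ℝ| ≤ w ∧ |⟪u, nrm ψ⟫_ℝ - a0| ≤ w} ≤
      ENNReal.ofReal (4 * w ^ 2 / |Real.sin (φ - ψ)|) := by
  set S := Real.sin (φ - ψ) with hSd
  set K := Real.cos (φ - ψ) with hK
  set Q : Set (ℝ × ℝ) := {p | |p.2| ≤ w ∧ |p.1 * S + p.2 * K - a0| ≤ w} with hQ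
  have hQm : MeasurableSet Q :=
    ((isClosed_le (f := fun p : ℝ × ℝ => |p.2|) (g := fun _ => w) (by fun_prop)
      continuous_const).inter (isClosed_le (f := fun p : ℝ × ℝ => |p.1 * S + p.2 * K - a0|)
        (g := fun _ => w) (by fun_prop) continuous_const)).measurableSet
  have e1 : {u : V2 | |⟪u, nrm φ⟫_ℝ| ≤ w ∧ |⟪u, nrm ψ⟫_ℝ - a0| ≤ w} = frm φ ⁻¹' Q := by
    ext u
    simp only [Set.mem_ofPred_eq, hQ, frm, Set.mem_preimage, inner_nrm_frame u φ ψ]
    exact Iff.rfl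
  rw [e1, (frm_mp φ).measure_preimage hQm.nullMeasurableSet, Measure.volume_eq_prod,
    Measure.prod_apply_symm hQm]
  have h2 : ∀ y : ℝ, volume ((fun x => (x, y)) ⁻¹' Q) ≤
      (Set.Icc (-w) w).indicator (fun _ => ENNReal.ofReal (2 * (w / |S|))) y := by
    intro y
    by_cases hy : y ∈ Set.Icc (-w) w
    · rw [Set.indicator_of_mem hy]
      rw [← Real.volume_closedBall (-(y * K - a0) / S)]
      apply measure_mono
      intro x hx
      simp only [hQ, Set.mem_preimage, Set.mem_ofPred_eq] at hx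
      rw [Metric.mem_closedBall, Real.dist_eq]
      have : x - -(y * K - a0) / S = (x * S + y * K - a0) / S := by
        field_simp
        ring
      rw [this, abs_div]
      exact div_le_div_of_nonneg_right hx.2 (abs_nonneg _)
    · have : (fun x => (x, y)) ⁻¹' Q = ∅ := by
        ext x
        simp only [hQ, Set.mem_preimage, Set.mem_ofPred_eq, Set.mem_empty_iff_false, iff_false]
        intro hx
        exact hy (abs_le.1 hx.1)
      rw [this]
      simp
  refine (lintegral_mono h2).trans ?_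
  rw [lintegral_indicator measurableSet_Icc, setLIntegral_const, Real.volume_Icc,
    ← ENNReal.ofReal_mul (by positivity)]
  apply ENNReal.ofReal_le_ofReal
  apply le_of_eq
  field_simp
  ring

/-- The kernel of the box average. -/
noncomputable def Bk (T w φ : ℝ) : V2 → ℝ≥0∞ :=
  (box T w φ).indicator (fun _ => ENNReal.ofReal (4 * T * w)⁻¹)

theorem Bk_meas (T w φ : ℝ) : Measurable (Bk T w φ) :=
  measurable_const.indicator (box_meas T w φ)

/-- One dimensional majorant. -/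
noncomputable def Kf (T w : ℝ) (s : ℝ) : ℝ≥0∞ :=
  (Set.Icc (-(4 * w)) (4 * w)).indicator (fun _ => ENNReal.ofReal (4 * T * w)⁻¹) s +
    (Set.Ioc (4 * w) (4 * T)).indicator (fun s => ENNReal.ofReal (2 * T * s)⁻¹) |s|

theorem Kf_meas (T w : ℝ) : Measurable (Kf T w) := by
  unfold Kf
  refine (measurable_const.indicator measurableSet_Icc).add ?_
  have : Measurable ((Set.Ioc (4 * w) (4 * T)).indicator
      (fun s => ENNReal.ofReal (2 * T * s)⁻¹)) :=
    (by fun_prop : Measurable fun s : ℝ => ENNReal.ofReal (2 * T * s)⁻¹).indicator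
      measurableSet_Ioc
  exact this.comp (by fun_prop : Measurable fun s : ℝ => |s|)

/-- Majorant of the kernels `Bk * Bk'`. -/
noncomputable def Hk (T w φ : ℝ) (v : V2) : ℝ≥0∞ :=
  (Set.Icc (-(4 * T)) (4 * T)).indicator 1 (frm φ v).1 * Kf T w (frm φ v).2

theorem Hk_meas (T w φ : ℝ) : Measurable (Hk T w φ) := by
  have h : Measurable (fun p : ℝ × ℝ =>
      (Set.Icc (-(4 * T)) (4 * T)).indicator (1 : ℝ → ℝ≥0∞) p.1 * Kf T w p.2) := by
    refine Measurable.mul ?_ ((Kf_meas T w).comp measurable_snd)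
    exact (measurable_one.indicator measurableSet_Icc).comp measurable_fst
  exact h.comp (frm_mp φ).measurable

theorem kernel_le {T w : ℝ} (hw : 0 < w) (hwT : w ≤ T) (φ ψ : ℝ) (v : V2) :
    ∫⁻ u, Bk T w φ u * Bk T w ψ (u - v) ≤ Hk T w φ v := by
  have hT : 0 < T := hw.trans_le hwT
  set W : Set V2 := {u | u ∈ box T w φ ∧ u - v ∈ box T w ψ} with hW
  set c := ENNReal.ofReal (4 * T * w)⁻¹ with hc
  have e1 : ∀ u, Bk T w φ u * Bk T w ψ (u - v) = W.indicator (fun _ => c * c) u := by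
    intro u
    simp only [Bk, hW]
    by_cases h1 : u ∈ box T w φ <;> by_cases h2 : u - v ∈ box T w ψ <;> simp [h1, h2, hc]
  have hWm : MeasurableSet W :=
    (box_meas T w φ).inter ((measurable_sub_const v) (box_meas T w ψ))
  simp_rw [e1]
  rw [lintegral_indicator hWm, setLIntegral_const]
  rcases W.eq_empty_or_nonempty with hE | ⟨u, hu1, hu2⟩
  · rw [hE]; simp
  have hs1 := Real.abs_sin_le_one (φ - ψ)
  have hc1 := Real.abs_cos_le_one (φ - ψ)
  set S := Real.sin (φ - ψ) with hS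
  set K := Real.cos (φ - ψ) with hK
  have hu1' : |⟪u, dir φ⟫_ℝ| ≤ T ∧ |⟪u, nrm φ⟫_ℝ| ≤ w := hu1
  have hu2' : |⟪u - v, dir ψ⟫_ℝ| ≤ T ∧ |⟪u - v, nrm ψ⟫_ℝ| ≤ w := hu2
  have hin1 : ⟪v, dir φ⟫_ℝ = ⟪u, dir φ⟫_ℝ -
      (⟪u - v, dir ψ⟫_ℝ * K + ⟪u - v, nrm ψ⟫_ℝ * S) := by
    have h1 := inner_dir_frame (u - v) ψ φ
    have h2 : ⟪v, dir φ⟫_ℝ = ⟪u, dir φ⟫_ℝ - ⟪u - v, dir φ⟫_ℝ := by
      rw [inner_sub_left]; ring
    rw [h2, h1, hS, hK, ← neg_sub φ ψ, Real.cos_neg, Real.sin_neg]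
    ring
  have hin2 : ⟪v, nrm φ⟫_ℝ = ⟪u, nrm φ⟫_ℝ -
      (- ⟪u - v, dir ψ⟫_ℝ * S + ⟪u - v, nrm ψ⟫_ℝ * K) := by
    have h1 := inner_nrm_frame (u - v) ψ φ
    have h2 : ⟪v, nrm φ⟫_ℝ = ⟪u, nrm φ⟫_ℝ - ⟪u - v, nrm φ⟫_ℝ := by
      rw [inner_sub_left]; ring
    rw [h2, h1, hS, hK, ← neg_sub φ ψ, Real.cos_neg, Real.sin_neg]
    ring
  have b1 : |⟪u - v, dir ψ⟫_ℝ * K| ≤ T := by
    rw [abs_mul]
    calc _ ≤ T * 1 := mul_le_mul hu2'.1 hc1 (abs_nonneg _) hT.le
      _ = T := mul_one T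
  have b2 : |⟪u - v, nrm ψ⟫_ℝ * S| ≤ w := by
    rw [abs_mul]
    calc _ ≤ w * 1 := mul_le_mul hu2'.2 hs1 (abs_nonneg _) hw.le
      _ = w := mul_one w
  have b3 : |⟪u - v, dir ψ⟫_ℝ * S| ≤ T * |S| := by
    rw [abs_mul]
    exact mul_le_mul_of_nonneg_right hu2'.1 (abs_nonneg _)
  have b4 : |⟪u - v, nrm ψ⟫_ℝ * K| ≤ w := by
    rw [abs_mul]
    calc _ ≤ w * 1 := mul_le_mul hu2'.2 hc1 (abs_nonneg _) hw.le
      _ = w := mul_one w
  have b5 : T * |S| ≤ T := by nlinarith
  rw [abs_le] at b1 b2 b3 b4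
  obtain ⟨hu3, hu4⟩ := hu1'
  rw [abs_le] at hu3 hu4
  have m1 : (frm φ v).1 ∈ Set.Icc (-(4 * T)) (4 * T) := by
    simp only [frm, Set.mem_Icc, hin1]
    constructor <;> linarith
  have m2 : |⟪v, nrm φ⟫_ℝ| ≤ 4 * T := by
    rw [hin2, abs_le]
    constructor <;> linarith
  have m3 : |⟪v, nrm φ⟫_ℝ| ≤ 2 * w + T * |S| := by
    rw [hin2, abs_le]
    constructor <;> linarith
  rw [Hk, Set.indicator_of_mem m1, Pi.one_apply, one_mul]
  show c * c * volume W ≤ Kf T w ⟪v, nrm φ⟫_ℝ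
  by_cases h4 : |⟪v, nrm φ⟫_ℝ| ≤ 4 * w
  · have m4 : ⟪v, nrm φ⟫_ℝ ∈ Set.Icc (-(4 * w)) (4 * w) := abs_le.1 h4
    rw [Kf, Set.indicator_of_mem m4]
    refine le_trans ?_ le_self_add
    have h5 : volume W ≤ ENNReal.ofReal (4 * T * w) := by
      rw [← vol_box hT.le φ]
      exact measure_mono (fun u hu => hu.1)
    calc c * c * volume W ≤ c * c * ENNReal.ofReal (4 * T * w) := by gcongr
      _ = c := by
        rw [hc, ← ENNReal.ofReal_mul (by positivity), ← ENNReal.ofReal_mul (by positivity)]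
        congr 1
        field_simp
  · push Not at h4
    have hSpos : 0 < |S| := by
      by_contra hcon
      have : |S| = 0 := le_antisymm (not_lt.1 hcon) (abs_nonneg _)
      rw [this] at m3
      linarith
    have hSne : Real.sin (φ - ψ) ≠ 0 := abs_pos.1 hSpos
    have m4 : |⟪v, nrm φ⟫_ℝ| ∈ Set.Ioc (4 * w) (4 * T) := ⟨h4, m2⟩
    rw [Kf, Set.indicator_of_mem m4]
    refine le_trans ?_ le_add_self
    have h5 : volume W ≤ ENNReal.ofReal (4 * w ^ 2 / |S|) := by
      refine (measure_mono ?_).trans (vol_strips hw.le φ ψ ⟪v, nrm ψ⟫_ℝ hSne)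
      intro u hu
      refine ⟨hu.1.2, ?_⟩
      rw [← inner_sub_left]
      exact hu.2.2
    calc c * c * volume W ≤ c * c * ENNReal.ofReal (4 * w ^ 2 / |S|) := by gcongr
      _ = ENNReal.ofReal ((4 * T * w)⁻¹ * (4 * T * w)⁻¹ * (4 * w ^ 2 / |S|)) := by
        rw [hc, ← ENNReal.ofReal_mul (by positivity), ← ENNReal.ofReal_mul (by positivity)]
      _ ≤ ENNReal.ofReal (2 * T * |⟪v, nrm φ⟫_ℝ|)⁻¹ := by
        apply ENNReal.ofReal_le_ofReal
        have h6 : |⟪v, nrm φ⟫_ℝ| ≤ 2 * (T * |S|) := by linarith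
        have h7 : 0 < |⟪v, nrm φ⟫_ℝ| := lt_trans (by positivity) h4
        have h8 : (4 * T * w)⁻¹ * (4 * T * w)⁻¹ * (4 * w ^ 2 / |S|) =
            (4 * T ^ 2 * |S|)⁻¹ := by
          field_simp
        rw [h8]
        apply inv_anti₀ (by positivity)
        nlinarith

theorem lint_log {T w : ℝ} (hw : 0 < w) (hwT : w ≤ T) :
    ∫⁻ s, (Set.Ioc (4 * w) (4 * T)).indicator (fun s => ENNReal.ofReal (2 * T * s)⁻¹) s =
      ENNReal.ofReal ((2 * T)⁻¹ * Real.log (T / w)) := by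
  have hT : 0 < T := hw.trans_le hwT
  rw [lintegral_indicator measurableSet_Ioc]
  have hcont : ContinuousOn (fun s : ℝ => (2 * T * s)⁻¹) (Set.uIcc (4 * w) (4 * T)) := by
    rw [Set.uIcc_of_le (by linarith)]
    apply ContinuousOn.inv₀ (by fun_prop)
    intro x hx
    have : 0 < x := lt_of_lt_of_le (by positivity) hx.1
    positivity
  have hint : IntervalIntegrable (fun s : ℝ => (2 * T * s)⁻¹) volume (4 * w) (4 * T) :=
    hcont.intervalIntegrable
  rw [← ofReal_integral_eq_lintegral_ofReal]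
  · rw [← intervalIntegral.integral_of_le (by linarith)]
    congr 1
    have : ∀ s : ℝ, (2 * T * s)⁻¹ = (2 * T)⁻¹ * s⁻¹ := fun s => by rw [mul_inv]
    simp_rw [this]
    rw [intervalIntegral.integral_const_mul, integral_inv_of_pos (by positivity) (by positivity)]
    congr 2
    field_simp
  · exact (intervalIntegrable_iff_integrableOn_Ioc_of_le (by linarith)).1 hint
  · refine (ae_restrict_iff' measurableSet_Ioc).2 (ae_of_all _ fun s hs => ?_)
    have : 0 < s := lt_trans (by positivity) hs.1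
    show (0 : ℝ) ≤ (2 * T * s)⁻¹
    positivity

theorem lint_Kf {T w : ℝ} (hw : 0 < w) (hwT : w ≤ T) :
    ∫⁻ s, Kf T w s ≤ ENNReal.ofReal (2 / T + T⁻¹ * Real.log (T / w)) := by
  have hT : 0 < T := hw.trans_le hwT
  have hlog : 0 ≤ Real.log (T / w) := Real.log_nonneg ((one_le_div hw).2 hwT)
  set g := (Set.Ioc (4 * w) (4 * T)).indicator (fun s => ENNReal.ofReal (2 * T * s)⁻¹) with hg
  have hgm : Measurable g :=
    (by fun_prop : Measurable fun s : ℝ => ENNReal.ofReal (2 * T * s)⁻¹).indicator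
      measurableSet_Ioc
  have h1 : ∀ s, Kf T w s ≤ (Set.Icc (-(4 * w)) (4 * w)).indicator
      (fun _ => ENNReal.ofReal (4 * T * w)⁻¹) s + (g s + g (-s)) := by
    intro s
    unfold Kf
    gcongr
    rcases abs_cases s with ⟨h, _⟩ | ⟨h, _⟩
    · rw [h]; exact le_self_add
    · rw [h]; exact le_add_self
  refine (lintegral_mono h1).trans ?_
  rw [lintegral_add_left (measurable_const.indicator measurableSet_Icc),
    lintegral_add_left hgm, lintegral_neg_eq_self g,
    lintegral_indicator measurableSet_Icc, setLIntegral_const, Real.volume_Icc, hg,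
    lint_log hw hwT, ← ENNReal.ofReal_mul (by positivity), sub_neg_eq_add,
    ← ENNReal.ofReal_add (by positivity) (by positivity),
    ← ENNReal.ofReal_add (by positivity) (by positivity)]
  apply ENNReal.ofReal_le_ofReal
  apply le_of_eq
  field_simp
  ring

theorem lint_Hk {T w : ℝ} (hw : 0 < w) (hwT : w ≤ T) (φ : ℝ) :
    ∫⁻ v, Hk T w φ v ≤ ENNReal.ofReal (16 * (1 + Real.log (T / w))) := by
  have hT : 0 < T := hw.trans_le hwT
  have hlog : 0 ≤ Real.log (T / w) := Real.log_nonneg ((one_le_div hw).2 hwT)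
  have h : Measurable (fun p : ℝ × ℝ =>
      (Set.Icc (-(4 * T)) (4 * T)).indicator (1 : ℝ → ℝ≥0∞) p.1 * Kf T w p.2) := by
    refine Measurable.mul ?_ ((Kf_meas T w).comp measurable_snd)
    exact (measurable_one.indicator measurableSet_Icc).comp measurable_fst
  have e : ∫⁻ v, Hk T w φ v = ∫⁻ p : ℝ × ℝ,
      (Set.Icc (-(4 * T)) (4 * T)).indicator (1 : ℝ → ℝ≥0∞) p.1 * Kf T w p.2 :=
    lint_frm φ h
  rw [e, Measure.volume_eq_prod, lintegral_prod_mul
    (measurable_one.indicator measurableSet_Icc).aemeasurable (Kf_meas T w).aemeasurable]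
  have e2 : ∫⁻ x, (Set.Icc (-(4 * T)) (4 * T)).indicator (1 : ℝ → ℝ≥0∞) x =
      ENNReal.ofReal (8 * T) := by
    rw [lintegral_indicator_one measurableSet_Icc, Real.volume_Icc]
    congr 1
    ring
  rw [e2]
  calc ENNReal.ofReal (8 * T) * ∫⁻ y, Kf T w y
      ≤ ENNReal.ofReal (8 * T) * ENNReal.ofReal (2 / T + T⁻¹ * Real.log (T / w)) := by
        gcongr
        exact lint_Kf hw hwT
    _ = ENNReal.ofReal (16 + 8 * Real.log (T / w)) := by
        rw [← ENNReal.ofReal_mul (by positivity)]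
        congr 1
        field_simp
        ring
    _ ≤ _ := by
        apply ENNReal.ofReal_le_ofReal
        linarith

section main

variable {ι : Type} [Fintype ι]

theorem dd_meas (φ : ι → ℝ) (T w : ℝ) (F : ι → V2 → ℝ≥0∞) (hF : ∀ j, Measurable (F j)) :
    Measurable (fun y => ∑ j, ∫⁻ x, F j x * Bk T w (φ j) (x - y)) := by
  refine Finset.measurable_sum _ fun j _ => ?_
  apply Measurable.lintegral_prod_right'
    (f := fun p : V2 × V2 => F j p.2 * Bk T w (φ j) (p.2 - p.1))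
  exact ((hF j).comp measurable_snd).mul
    ((Bk_meas T w (φ j)).comp (measurable_snd.sub measurable_fst))

theorem point_le (φ : ι → ℝ) {T w : ℝ} (hw : 0 < w) (hwT : w ≤ T) (F : ι → V2 → ℝ≥0∞)
    (hF : ∀ j, Measurable (F j)) (L : ℝ≥0∞) (hL : ∀ x, ∑ j, F j x ≤ L) (i : ι) (x : V2) :
    ∫⁻ y, Bk T w (φ i) (x - y) * ∑ j, ∫⁻ x', F j x' * Bk T w (φ j) (x' - y) ≤
      L * ENNReal.ofReal (16 * (1 + Real.log (T / w))) := by
  have hB : ∀ j, Measurable fun p : V2 × V2 => Bk T w (φ j) (p.2 - p.1) := fun j =>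
    (Bk_meas T w (φ j)).comp (measurable_snd.sub measurable_fst)
  have hB1 : Measurable fun y : V2 => Bk T w (φ i) (x - y) :=
    (Bk_meas T w (φ i)).comp (measurable_const.sub measurable_id)
  have e1 : ∀ j, ∫⁻ y, Bk T w (φ i) (x - y) * ∫⁻ x', F j x' * Bk T w (φ j) (x' - y) =
      ∫⁻ x', F j x' * ∫⁻ y, Bk T w (φ i) (x - y) * Bk T w (φ j) (x' - y) := by
    intro j
    have h1 : ∀ y, Bk T w (φ i) (x - y) * ∫⁻ x', F j x' * Bk T w (φ j) (x' - y) =
        ∫⁻ x', Bk T w (φ i) (x - y) * (F j x' * Bk T w (φ j) (x' - y)) := by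
      intro y
      rw [lintegral_const_mul]
      exact (hF j).mul ((Bk_meas T w (φ j)).comp (measurable_id.sub measurable_const))
    simp_rw [h1]
    rw [lintegral_lintegral_swap]
    · refine lintegral_congr fun x' => ?_
      rw [← lintegral_const_mul]
      · refine lintegral_congr fun y => ?_
        ring
      · exact hB1.mul ((Bk_meas T w (φ j)).comp (measurable_const.sub measurable_id))
    · refine Measurable.aemeasurable ?_
      exact (hB1.comp measurable_fst).mul (((hF j).comp measurable_snd).mul (hB j))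
  have e2 : ∀ j x', ∫⁻ y, Bk T w (φ i) (x - y) * Bk T w (φ j) (x' - y) ≤
      Hk T w (φ i) (x - x') := by
    intro j x'
    refine le_trans (le_of_eq ?_) (kernel_le hw hwT (φ i) (φ j) (x - x'))
    rw [← lintegral_sub_left_eq_self (fun u => Bk T w (φ i) u * Bk T w (φ j) (u - (x - x'))) x]
    refine lintegral_congr fun y => ?_
    congr 2
    abel
  have e3 : ∫⁻ y, Bk T w (φ i) (x - y) * ∑ j, ∫⁻ x', F j x' * Bk T w (φ j) (x' - y) =
      ∑ j, ∫⁻ y, Bk T w (φ i) (x - y) * ∫⁻ x', F j x' * Bk T w (φ j) (x' - y) := by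
    simp_rw [Finset.mul_sum]
    rw [lintegral_finsetSum]
    intro j _
    refine hB1.mul ?_
    apply Measurable.lintegral_prod_right'
      (f := fun p : V2 × V2 => F j p.2 * Bk T w (φ j) (p.2 - p.1))
    exact ((hF j).comp measurable_snd).mul (hB j)
  have hH1 : Measurable fun x' : V2 => Hk T w (φ i) (x - x') :=
    (Hk_meas T w (φ i)).comp (measurable_const.sub measurable_id)
  rw [e3]
  simp_rw [e1]
  calc ∑ j, ∫⁻ x', F j x' * ∫⁻ y, Bk T w (φ i) (x - y) * Bk T w (φ j) (x' - y)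
      ≤ ∑ j, ∫⁻ x', F j x' * Hk T w (φ i) (x - x') := by
        refine Finset.sum_le_sum fun j _ => lintegral_mono fun x' => ?_
        exact mul_le_mul_right (e2 j x') _
    _ = ∫⁻ x', (∑ j, F j x') * Hk T w (φ i) (x - x') := by
        rw [← lintegral_finsetSum]
        · simp_rw [Finset.sum_mul]
        · intro j _
          exact (hF j).mul hH1
    _ ≤ ∫⁻ x', L * Hk T w (φ i) (x - x') := by
        refine lintegral_mono fun x' => ?_
        exact mul_le_mul_left (hL x') _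
    _ = L * ∫⁻ x', Hk T w (φ i) (x - x') := lintegral_const_mul _ hH1
    _ = L * ∫⁻ v, Hk T w (φ i) v := by
        rw [lintegral_sub_left_eq_self (fun u => Hk T w (φ i) u) x]
    _ ≤ _ := by
        gcongr
        exact lint_Hk hw hwT (φ i)

theorem core (φ : ι → ℝ) {T w : ℝ} (hw : 0 < w) (hwT : w ≤ T) (F : ι → V2 → ℝ≥0∞)
    (hF : ∀ j, Measurable (F j)) (L : ℝ≥0∞) (hL : ∀ x, ∑ j, F j x ≤ L) :
    ∫⁻ y, (∑ j, ∫⁻ x, F j x * Bk T w (φ j) (x - y)) ^ 2 ≤
      L * ENNReal.ofReal (16 * (1 + Real.log (T / w))) * ∑ j, ∫⁻ x, F j x := by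
  have hD := dd_meas φ T w F hF
  set D : V2 → ℝ≥0∞ := fun y => ∑ j, ∫⁻ x, F j x * Bk T w (φ j) (x - y) with hDd
  have hB : ∀ j, Measurable fun p : V2 × V2 => Bk T w (φ j) (p.2 - p.1) := fun j =>
    (Bk_meas T w (φ j)).comp (measurable_snd.sub measurable_fst)
  have e1 : ∀ i, ∫⁻ y, (∫⁻ x, F i x * Bk T w (φ i) (x - y)) * D y =
      ∫⁻ x, F i x * ∫⁻ y, Bk T w (φ i) (x - y) * D y := by
    intro i
    have h1 : ∀ y, (∫⁻ x, F i x * Bk T w (φ i) (x - y)) * D y =
        ∫⁻ x, F i x * Bk T w (φ i) (x - y) * D y := by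
      intro y
      rw [lintegral_mul_const]
      exact (hF i).mul ((Bk_meas T w (φ i)).comp (measurable_id.sub measurable_const))
    simp_rw [h1]
    rw [lintegral_lintegral_swap]
    · refine lintegral_congr fun x => ?_
      rw [← lintegral_const_mul]
      · refine lintegral_congr fun y => ?_
        ring
      · exact ((Bk_meas T w (φ i)).comp (measurable_const.sub measurable_id)).mul hD
    · refine Measurable.aemeasurable ?_
      exact (((hF i).comp measurable_snd).mul (hB i)).mul (hD.comp measurable_fst)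
  calc ∫⁻ y, D y ^ 2 = ∫⁻ y, ∑ i, (∫⁻ x, F i x * Bk T w (φ i) (x - y)) * D y := by
        refine lintegral_congr fun y => ?_
        rw [← Finset.sum_mul, sq]
    _ = ∑ i, ∫⁻ y, (∫⁻ x, F i x * Bk T w (φ i) (x - y)) * D y := by
        rw [lintegral_finsetSum]
        intro i _
        refine Measurable.mul ?_ hD
        apply Measurable.lintegral_prod_right'
          (f := fun p : V2 × V2 => F i p.2 * Bk T w (φ i) (p.2 - p.1))
        exact ((hF i).comp measurable_snd).mul (hB i)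
    _ = ∑ i, ∫⁻ x, F i x * ∫⁻ y, Bk T w (φ i) (x - y) * D y := by simp_rw [e1]
    _ ≤ ∑ i, ∫⁻ x, F i x * (L * ENNReal.ofReal (16 * (1 + Real.log (T / w)))) := by
        refine Finset.sum_le_sum fun i _ => lintegral_mono fun x => ?_
        exact mul_le_mul_right (point_le φ hw hwT F hF L hL i x) _
    _ = _ := by
        rw [Finset.mul_sum]
        refine Finset.sum_congr rfl fun i _ => ?_
        rw [lintegral_mul_const _ (hF i), mul_comm]

theorem ofReal_integral_le {g : V2 → ℝ} (hg : ∀ x, 0 ≤ g x) :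
    ENNReal.ofReal (∫ x, g x) ≤ ∫⁻ x, ENNReal.ofReal (g x) := by
  by_cases h : Integrable g
  · exact (ofReal_integral_eq_lintegral_ofReal h (ae_of_all _ hg)).le
  · rw [integral_undef h]
    simp

theorem ofReal_bx_le {T w : ℝ} (hw : 0 < w) (hwT : w ≤ T) (ψ : ℝ) {U : Set V2}
    (hU : MeasurableSet U) (x : V2) :
    ENNReal.ofReal (bx T w ψ (U.indicator 1) x) ≤
      ∫⁻ y, U.indicator 1 y * Bk T w ψ (x - y) := by
  have hT : 0 < T := hw.trans_le hwT
  have hind : Measurable fun z : V2 => U.indicator (1 : V2 → ℝ) (x - z) :=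
    (measurable_one.indicator hU).comp (measurable_const.sub measurable_id)
  have hnn : ∀ z : V2, 0 ≤ U.indicator (1 : V2 → ℝ) (x - z) := fun z =>
    Set.indicator_nonneg (fun _ _ => zero_le_one) _
  rw [bx, ENNReal.ofReal_mul (by positivity), integral_eq_lintegral_of_nonneg_ae
    (ae_of_all _ hnn) hind.aestronglyMeasurable]
  refine (mul_le_mul_right ENNReal.ofReal_toReal_le _).trans ?_
  rw [← lintegral_indicator (box_meas T w ψ), ← lintegral_const_mul]
  · rw [← lintegral_sub_left_eq_self (fun y => U.indicator 1 y * Bk T w ψ (x - y)) x]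
    refine lintegral_mono fun z => ?_
    rw [sub_sub_cancel]
    by_cases h1 : z ∈ box T w ψ <;> by_cases h2 : x - z ∈ U <;> simp [Bk, h1, h2]
  · exact (ENNReal.measurable_ofReal.comp hind).indicator (box_meas T w ψ)

theorem cauchy_sq {U : Set V2} (hU : MeasurableSet U) {D : V2 → ℝ≥0∞} (hD : Measurable D) :
    (∫⁻ y, U.indicator 1 y * D y) ^ 2 ≤ volume U * ∫⁻ y, D y ^ 2 := by
  have h1 := ENNReal.lintegral_mul_le_Lp_mul_Lq volume Real.HolderConjugate.two_two
    (f := U.indicator 1) (g := D) (measurable_one.indicator hU).aemeasurable hD.aemeasurable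
  have h2 : ∀ a : V2, U.indicator (1 : V2 → ℝ≥0∞) a ^ (2 : ℝ) = U.indicator 1 a := by
    intro a
    by_cases h : a ∈ U <;> simp [h]
  simp only [Pi.mul_apply, h2] at h1
  rw [lintegral_indicator_one hU] at h1
  have h3 : ∀ X : ℝ≥0∞, (X ^ (1 / 2 : ℝ)) ^ 2 = X := by
    intro X
    rw [← ENNReal.rpow_natCast, ← ENNReal.rpow_mul]
    norm_num
  calc (∫⁻ y, U.indicator 1 y * D y) ^ 2
      ≤ (volume U ^ (1 / 2 : ℝ) * (∫⁻ a, D a ^ (2 : ℝ)) ^ (1 / 2 : ℝ)) ^ 2 := by
        gcongr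
    _ = volume U * ∫⁻ y, D y ^ 2 := by
        rw [mul_pow, h3, h3]
        congr 1
        refine lintegral_congr fun y => ?_
        norm_num

end main

end Nik

theorem nikodym : ∃ C : ℝ, 0 < C ∧ ∀ {ι : Type} [Fintype ι] (φ : ι → ℝ) (T w : ℝ), 0 < w →
    w ≤ T → ∀ (f : ι → V2 → ℝ), (∀ j, Measurable (f j)) → (∀ j x, 0 ≤ f j x) →
    (∀ j, Integrable (f j)) → ∀ lam : ℝ, (∀ x, ∑ j, f j x ≤ lam) → ∀ U : Set V2,
    MeasurableSet U → volume U ≠ ∞ →
    (∑ j, ∫ x, f j x * bx T w (φ j) (U.indicator 1) x) ^ 2 ≤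
      C * (1 + Real.log (T / w)) * lam * (volume U).toReal * ∑ j, ∫ x, f j x := by
  refine ⟨16, by norm_num, ?_⟩
  intro ι _ φ T w hw hwT f hf hf0 hfi lam hlam U hU hUf
  have hT : 0 < T := hw.trans_le hwT
  have hlog : 0 ≤ Real.log (T / w) := Real.log_nonneg ((one_le_div hw).2 hwT)
  have hlam0 : 0 ≤ lam := (Finset.sum_nonneg fun j _ => hf0 j 0).trans (hlam 0)
  set F : ι → V2 → ℝ≥0∞ := fun j x => ENNReal.ofReal (f j x) with hFd
  have hF : ∀ j, Measurable (F j) := fun j => ENNReal.measurable_ofReal.comp (hf j)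
  have hL : ∀ x, ∑ j, F j x ≤ ENNReal.ofReal lam := by
    intro x
    rw [hFd, ← ENNReal.ofReal_sum_of_nonneg fun j _ => hf0 j x]
    exact ENNReal.ofReal_le_ofReal (hlam x)
  have hcore := Nik.core φ hw hwT F hF (ENNReal.ofReal lam) hL
  have hDm := Nik.dd_meas φ T w F hF
  have hcs := Nik.cauchy_sq hU hDm
  have hbx0 : ∀ j x, 0 ≤ bx T w (φ j) (U.indicator 1) x := by
    intro j x
    unfold bx
    refine mul_nonneg (by positivity) (integral_nonneg fun z => ?_)
    exact Set.indicator_nonneg (fun _ _ => zero_le_one) _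
  have hi0 : ∀ j, 0 ≤ ∫ x, f j x := fun j => integral_nonneg (hf0 j)
  have hj0 : ∀ j, 0 ≤ ∫ x, f j x * bx T w (φ j) (U.indicator 1) x := fun j =>
    integral_nonneg fun x => mul_nonneg (hf0 j x) (hbx0 j x)
  have hA : ENNReal.ofReal (∑ j, ∫ x, f j x * bx T w (φ j) (U.indicator 1) x) ≤
      ∫⁻ y, U.indicator 1 y * ∑ j, ∫⁻ x, F j x * Nik.Bk T w (φ j) (x - y) := by
    rw [ENNReal.ofReal_sum_of_nonneg fun j _ => hj0 j]
    have e3 : ∫⁻ y, U.indicator 1 y * ∑ j, ∫⁻ x, F j x * Nik.Bk T w (φ j) (x - y) =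
        ∑ j, ∫⁻ x, F j x * ∫⁻ y, U.indicator 1 y * Nik.Bk T w (φ j) (x - y) := by
      simp_rw [Finset.mul_sum]
      rw [lintegral_finsetSum]
      · refine Finset.sum_congr rfl fun j _ => ?_
        have h1 : ∀ y, U.indicator 1 y * ∫⁻ x, F j x * Nik.Bk T w (φ j) (x - y) =
            ∫⁻ x, U.indicator 1 y * (F j x * Nik.Bk T w (φ j) (x - y)) := by
          intro y
          rw [lintegral_const_mul]
          exact (hF j).mul ((Nik.Bk_meas T w (φ j)).comp (measurable_id.sub measurable_const))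
        simp_rw [h1]
        rw [lintegral_lintegral_swap]
        · refine lintegral_congr fun x => ?_
          rw [← lintegral_const_mul]
          · refine lintegral_congr fun y => ?_
            ring
          · exact (measurable_one.indicator hU).mul
              ((Nik.Bk_meas T w (φ j)).comp (measurable_const.sub measurable_id))
        · refine Measurable.aemeasurable ?_
          exact ((measurable_one.indicator hU).comp measurable_fst).mul
            (((hF j).comp measurable_snd).mul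
              ((Nik.Bk_meas T w (φ j)).comp (measurable_snd.sub measurable_fst)))
      · intro j _
        refine (measurable_one.indicator hU).mul ?_
        apply Measurable.lintegral_prod_right'
          (f := fun p : V2 × V2 => F j p.2 * Nik.Bk T w (φ j) (p.2 - p.1))
        exact ((hF j).comp measurable_snd).mul
          ((Nik.Bk_meas T w (φ j)).comp (measurable_snd.sub measurable_fst))
    rw [e3]
    refine Finset.sum_le_sum fun j _ => ?_
    refine (Nik.ofReal_integral_le fun x => mul_nonneg (hf0 j x) (hbx0 j x)).trans ?_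
    refine lintegral_mono fun x => ?_
    rw [ENNReal.ofReal_mul (hf0 j x)]
    exact mul_le_mul_right (Nik.ofReal_bx_le hw hwT (φ j) hU x) _
  have hsum : ∑ j, ∫⁻ x, F j x = ENNReal.ofReal (∑ j, ∫ x, f j x) := by
    rw [ENNReal.ofReal_sum_of_nonneg fun j _ => hi0 j]
    refine Finset.sum_congr rfl fun j _ => ?_
    exact (ofReal_integral_eq_lintegral_ofReal (hfi j) (ae_of_all _ (hf0 j))).symm
  have hR0 : 0 ≤ ∑ j, ∫ x, f j x := Finset.sum_nonneg fun j _ => hi0 j
  rw [← ENNReal.ofReal_le_ofReal_iff (by positivity), ENNReal.ofReal_pow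
    (Finset.sum_nonneg fun j _ => hj0 j)]
  calc ENNReal.ofReal (∑ j, ∫ x, f j x * bx T w (φ j) (U.indicator 1) x) ^ 2
      ≤ (∫⁻ y, U.indicator 1 y * ∑ j, ∫⁻ x, F j x * Nik.Bk T w (φ j) (x - y)) ^ 2 := by
        gcongr
    _ ≤ volume U * ∫⁻ y, (∑ j, ∫⁻ x, F j x * Nik.Bk T w (φ j) (x - y)) ^ 2 := hcs
    _ ≤ volume U * (ENNReal.ofReal lam * ENNReal.ofReal (16 * (1 + Real.log (T / w))) *
          ∑ j, ∫⁻ x, F j x) := by
        gcongr
    _ = _ := by
        rw [hsum, ← ENNReal.ofReal_toReal hUf, ← ENNReal.ofReal_mul hlam0,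
          ← ENNReal.ofReal_mul (by positivity), ← ENNReal.ofReal_mul (by positivity),
          ENNReal.toReal_ofReal ENNReal.toReal_nonneg]
        congr 1
        ring

end REPS
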