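import Pool.Agent.REPS.Defs
import Pool.Agent.Helper77.TA.Gabor

/-!
# Row NK of project REPS (helper43): Jensen with a comparison function, several packets
-/

open MeasureTheory Filter Topology Real Metric FourierTransform
open scoped ENNReal NNReal InnerProductSpace

namespace REPS

open Helper77.TA

variable {V : Type*} [NormedAddCommGroup V] [InnerProductSpace ℝ V] [FiniteDimensional ℝ V]
  [MeasurableSpace V] [BorelSpace V]

/-- The Cauchy probability measure at scale `y`. -/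
noncomputable def pm (y : ℝ) : Measure ℝ := volume.withDensity (TAM.cauchy y)

theorem measurable_cauchy (y : ℝ) : Measurable (TAM.cauchy y) := by
  unfold TAM.cauchy
  fun_prop

theorem pm_prob {y : ℝ} (hy : 0 < y) : IsProbabilityMeasure (pm y) := by
  refine ⟨?_⟩
  rw [pm, withDensity_apply _ MeasurableSet.univ, Measure.restrict_univ]
  exact lintegral_pk hy

theorem integral_pm {y : ℝ} (hy : 0 < y) (F : ℝ → ℝ) :
    ∫ t, F t ∂(pm y) = ∫ t, pk y t * F t := by
  unfold pm
  rw [integral_withDensity_eq_integral_toReal_smul (measurable_cauchy y)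
    (Eventually.of_forall fun t => ENNReal.ofReal_lt_top)]
  refine integral_congr_ae (Eventually.of_forall fun t => ?_)
  change (ENNReal.ofReal (pk y t)).toReal * F t = _
  rw [ENNReal.toReal_ofReal (pk_nonneg hy t)]

omit [FiniteDimensional ℝ V] [MeasurableSpace V] [BorelSpace V] in
theorem pav_eq {y : ℝ} (hy : 0 < y) (ω : V) (u : V → ℝ) (x : V) :
    pav y ω u x = ∫ t, u (x - t • ω) ∂(pm y) := by
  rw [integral_pm hy]
  rfl

theorem integral_pm_neg {y : ℝ} (hy : 0 < y) (F : ℝ → ℝ) :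
    ∫ t, F (-t) ∂(pm y) = ∫ t, F t ∂(pm y) := by
  rw [integral_pm hy, integral_pm hy, ← integral_neg_eq_self]
  refine integral_congr_ae (Eventually.of_forall fun t => ?_)
  simp only [pk, neg_neg]
  ring_nf

theorem integral_angle_bdry {y : ℝ} (hy : 0 < y) {F : ℝ → ℝ} (hF : Measurable F) :
    ∫ θ, F (bdry y θ) ∂angle = ∫ t, F t ∂(pm y) := by
  rw [pm, ← TAM.map_angle hy, integral_map (measurable_bdry y).aemeasurable
    hF.aestronglyMeasurable]

/-- Jensen on a line with a comparison function (from Helper77.TA.jensen_lim, as in line_jensen). -/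
theorem jensen_line {G : V → ℂ} (h1 : Integrable G) {ω : V} {ρ S : ℝ}
    (hsupp : ∀ ξ, G ξ ≠ 0 → 0 ≤ ρ - ⟪ξ, ω⟫_ℝ ∧ ρ - ⟪ξ, ω⟫_ℝ ≤ S) {y : ℝ} (hy : 0 < y)
    {c : V → ℝ} (hc : Measurable c) {κ K : ℝ} (hκ : 0 < κ) (hcκ : ∀ z, κ ≤ c z)
    (hcK : ∀ z, c z ≤ K) (x : V) (h0 : pkt G ρ y ω x ≠ 0) :
    1 + Real.log (‖pkt G ρ y ω x‖ ^ 2) ≤
      ∫ t, pk y t * (‖𝓕⁻ G (x - t • ω)‖ ^ 2 / c (x - t • ω) + Real.log (c (x - t • ω))) := by
  set g : V → ℂ := fun ξ => Complex.exp (2 * π * ⟪ξ, x⟫_ℝ * Complex.I) * G ξ with hg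
  have hnG : ∀ ξ, ‖g ξ‖ = ‖G ξ‖ := by
    intro ξ
    rw [hg]
    simp only [norm_mul]
    have : (2 * π * ⟪ξ, x⟫_ℝ * Complex.I : ℂ) = ((2 * π * ⟪ξ, x⟫_ℝ : ℝ) : ℂ) * Complex.I := by
      push_cast; ring
    rw [this, Complex.norm_exp_ofReal_mul_I, one_mul]
  have hGi : Integrable g := by
    refine Integrable.mono' h1.norm ?_ (Eventually.of_forall fun ξ => (hnG ξ).le)
    refine AEStronglyMeasurable.mul ?_ h1.aestronglyMeasurable
    apply Continuous.aestronglyMeasurable
    fun_prop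
  have hG0 : ∀ ξ, g ξ ≠ 0 → G ξ ≠ 0 := by
    intro ξ h h0
    apply h
    rw [hg]; simp [h0]
  set σ : V → ℝ := fun ξ => ρ - ⟪ξ, ω⟫_ℝ with hσ
  have hσc : Continuous σ := by fun_prop
  set h : ℂ → ℂ := fun z => ∫ ξ, Complex.exp (2 * π * Complex.I * z * σ ξ) * g ξ with hh
  have hdiff : Differentiable ℂ h := differentiable_ext hGi hσc (S := S)
    fun ξ hξ => hsupp ξ (hG0 ξ hξ)
  have hbound : ∀ z : ℂ, 0 ≤ z.im → ‖h z‖ ≤ ∫ ξ, ‖g ξ‖ := fun z hz =>
    bound_ext hGi (fun ξ hξ => (hsupp ξ (hG0 ξ hξ)).1) hz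
  have hreal : ∀ t : ℝ, ‖h (t : ℂ)‖ = ‖𝓕⁻ G (x - t • ω)‖ := by
    intro t
    have e1 : h (t : ℂ) = Complex.exp (((2 * π * t * ρ : ℝ) : ℂ) * Complex.I) *
        𝓕⁻ G (x - t • ω) := by
      rw [fourierInv_formula, ← integral_const_mul]
      refine integral_congr_ae (Eventually.of_forall fun ξ => ?_)
      simp only [hg, hσ]
      rw [← mul_assoc, ← mul_assoc, ← Complex.exp_add, ← Complex.exp_add, inner_sub_right,
        inner_smul_right]
      congr 2
      push_cast
      ring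
    rw [e1, norm_mul, Complex.norm_exp_ofReal_mul_I, one_mul]
  have himag : h (Complex.I * y) = pkt G ρ y ω x := by
    rw [pkt, fourierInv_formula]
    refine integral_congr_ae (Eventually.of_forall fun ξ => ?_)
    simp only [hg, hσ, damp]
    have e2 : (2 * π * Complex.I * (Complex.I * y) * ((ρ - ⟪ξ, ω⟫_ℝ : ℝ) : ℂ) : ℂ) =
        ((-(2 * π * y * (ρ - ⟪ξ, ω⟫_ℝ)) : ℝ) : ℂ) := by
      push_cast
      ring_nf
      rw [Complex.I_sq]
      ring
    rw [e2, ← Complex.ofReal_exp]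
    ring
  have hA : AnalyticOnNhd ℂ (fun w => h (cay y w)) (ball 0 1) := by
    apply DifferentiableOn.analyticOnNhd _ isOpen_ball
    intro w hw
    have hcay : DifferentiableAt ℂ (cay y) w := by
      unfold cay
      refine DifferentiableAt.div (by fun_prop) (by fun_prop) ?_
      intro h0
      have h1 : w = 1 := by rw [sub_eq_zero] at h0; exact h0.symm
      rw [h1] at hw
      simp at hw
    exact ((hdiff (cay y w)).comp w hcay).differentiableWithinAt
  have hmeas : Measurable fun θ : ℝ => x - bdry y θ • ω :=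
    measurable_const.sub ((measurable_bdry y).smul_const ω)
  have key := jensen_lim hA (M := ∫ ξ, ‖g ξ‖)
    (by
      intro w hw
      apply hbound
      apply cay_im_nonneg hy
      simpa using hw)
    (G1 := fun θ => h (bdry y θ : ℂ))
    (by
      intro θ hθ
      exact (hdiff.continuous.tendsto _).comp (tendsto_cay hθ))
    (by
      simp only [cay_zero]
      rw [himag]
      exact h0)
    (c := fun θ => c (x - bdry y θ • ω)) (hc.comp hmeas) hκ (fun θ => hcκ _) (fun θ => hcK _)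
  simp only [cay_zero, hreal] at key
  rw [himag] at key
  have hFc : Continuous (𝓕⁻ G) := continuous_fourierInv h1
  have hl : Measurable fun t : ℝ => x - t • ω :=
    measurable_const.sub (measurable_id.smul_const ω)
  have hm : Measurable fun t : ℝ => Real.log (c (x - t • ω)) +
      ‖𝓕⁻ G (x - t • ω)‖ ^ 2 / c (x - t • ω) - 1 :=
    ((Real.measurable_log.comp (hc.comp hl)).add
      (((hFc.measurable.comp hl).norm.pow_const 2).div (hc.comp hl))).sub measurable_const
  rw [integral_angle_bdry hy hm] at key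
  have hprob := pm_prob hy
  have hi : Integrable (fun t : ℝ => Real.log (c (x - t • ω)) +
      ‖𝓕⁻ G (x - t • ω)‖ ^ 2 / c (x - t • ω)) (pm y) := by
    refine Integrable.of_bound (C := |Real.log κ| + |Real.log K| + (∫ ξ, ‖G ξ‖) ^ 2 / κ) ?_ ?_
    · exact ((Real.measurable_log.comp (hc.comp hl)).add
        (((hFc.measurable.comp hl).norm.pow_const 2).div (hc.comp hl))).aestronglyMeasurable
    · refine Eventually.of_forall fun t => ?_
      have h2 := hcκ (x - t • ω)
      have h3 := hcK (x - t • ω)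
      have h4 : 0 < c (x - t • ω) := hκ.trans_le h2
      have h5 := Real.log_le_log hκ h2
      have h6 := Real.log_le_log h4 h3
      have h7 : ‖𝓕⁻ G (x - t • ω)‖ ^ 2 / c (x - t • ω) ≤ (∫ ξ, ‖G ξ‖) ^ 2 / κ := by
        have := norm_fourierInv_le G h1 (x - t • ω)
        exact div_le_div₀ (by positivity) (by gcongr) hκ h2
      have h8 : 0 ≤ ‖𝓕⁻ G (x - t • ω)‖ ^ 2 / c (x - t • ω) := by positivity
      rw [Real.norm_eq_abs, abs_le]
      have := neg_abs_le (Real.log κ)
      have := le_abs_self (Real.log K)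
      have := abs_nonneg (Real.log κ)
      have := abs_nonneg (Real.log K)
      constructor <;> linarith
  rw [integral_sub hi (integrable_const _), integral_const, probReal_univ, one_smul] at key
  rw [← integral_pm hy (fun t => ‖𝓕⁻ G (x - t • ω)‖ ^ 2 / c (x - t • ω) +
    Real.log (c (x - t • ω))), Real.log_pow]
  have e : ∀ t : ℝ, ‖𝓕⁻ G (x - t • ω)‖ ^ 2 / c (x - t • ω) + Real.log (c (x - t • ω)) =
      Real.log (c (x - t • ω)) + ‖𝓕⁻ G (x - t • ω)‖ ^ 2 / c (x - t • ω) := fun t => add_comm _ _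
  simp only [e]
  push_cast
  linarith

/-! ### Averages over lines -/

theorem measurable_pav {y : ℝ} (hy : 0 < y) (ω : V) {u : V → ℝ} (hu : Measurable u) :
    Measurable (pav y ω u) := by
  have hprob := pm_prob hy
  have h1 : StronglyMeasurable fun x => ∫ t, u (x - t • ω) ∂(pm y) := by
    apply StronglyMeasurable.integral_prod_right' (f := fun (p : V × ℝ) => u (p.1 - p.2 • ω))
    exact (hu.comp (measurable_fst.sub (measurable_snd.smul_const ω))).stronglyMeasurable
  have h2 : pav y ω u = fun x => ∫ t, u (x - t • ω) ∂(pm y) := by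
    ext x
    exact pav_eq hy ω u x
  rw [h2]
  exact h1.measurable

omit [FiniteDimensional ℝ V] [BorelSpace V] [MeasurableSpace V] in
theorem pav_nonnegM {y : ℝ} (hy : 0 < y) (ω : V) {u : V → ℝ} (hu : ∀ x, 0 ≤ u x) (x : V) :
    0 ≤ pav y ω u x := integral_nonneg fun t => mul_nonneg (pk_nonneg hy t) (hu _)

theorem integrable_line {y : ℝ} (hy : 0 < y) (ω : V) {u : V → ℝ} (hu : Measurable u) {C : ℝ}
    (hC : ∀ x, |u x| ≤ C) (x : V) : Integrable (fun t : ℝ => u (x - t • ω)) (pm y) := by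
  have hprob := pm_prob hy
  exact Integrable.of_bound
    (hu.comp (measurable_const.sub (measurable_id.smul_const ω))).aestronglyMeasurable C
    (Eventually.of_forall fun t => hC _)

theorem pav_leM {y : ℝ} (hy : 0 < y) (ω : V) {u : V → ℝ} (hu : Measurable u) {C : ℝ}
    (hC : ∀ x, |u x| ≤ C) (x : V) : pav y ω u x ≤ C := by
  have hprob := pm_prob hy
  rw [pav_eq hy]
  have h1 := integral_mono (integrable_line hy ω hu hC x) (integrable_const C)
    fun t => (le_abs_self _).trans (hC (x - t • ω))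
  rwa [integral_const, probReal_univ, one_smul] at h1

/-- The average of an integrable function is integrable, and averaging is symmetric. -/
theorem pav_adj {y : ℝ} (hy : 0 < y) (ω : V) {φ g : V → ℝ} (hφ : Integrable φ)
    (hφm : Measurable φ) (hg : Measurable g) {C : ℝ} (hC : ∀ x, |g x| ≤ C) :
    Integrable (fun x => φ x * pav y ω g x) ∧ Integrable (fun z => pav y ω φ z * g z) ∧
      ∫ x, φ x * pav y ω g x = ∫ z, pav y ω φ z * g z := by
  have hprob := pm_prob hy
  have hC0 : 0 ≤ C := (abs_nonneg _).trans (hC 0)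
  have hm1 : Measurable fun p : V × ℝ => φ p.1 * g (p.1 - p.2 • ω) :=
    (hφm.comp measurable_fst).mul (hg.comp (measurable_fst.sub (measurable_snd.smul_const ω)))
  have hm2 : Measurable fun p : V × ℝ => φ (p.1 - p.2 • ω) * g p.1 :=
    (hφm.comp (measurable_fst.sub (measurable_snd.smul_const ω))).mul (hg.comp measurable_fst)
  have hI1 : Integrable (fun p : V × ℝ => φ p.1 * g (p.1 - p.2 • ω))
      (volume.prod (pm y)) := by
    have h1 : Integrable (fun p : V × ℝ => φ p.1) (volume.prod (pm y)) := hφ.comp_fst _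
    refine Integrable.mono' (h1.norm.mul_const C) hm1.aestronglyMeasurable
      (Eventually.of_forall fun p => ?_)
    rw [norm_mul, Real.norm_eq_abs (g _)]
    exact mul_le_mul_of_nonneg_left (hC _) (norm_nonneg _)
  have hI2 : Integrable (fun p : V × ℝ => φ (p.1 - p.2 • ω) * g p.1)
      (volume.prod (pm y)) := by
    rw [integrable_prod_iff' hm2.aestronglyMeasurable]
    constructor
    · refine Eventually.of_forall fun t => ?_
      have h1 : Integrable fun x => φ (x - t • ω) := hφ.comp_sub_right (t • ω)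
      refine Integrable.mono' (h1.norm.mul_const C)
        (hm2.comp (measurable_id.prodMk measurable_const)).aestronglyMeasurable
        (Eventually.of_forall fun z => ?_)
      simp only
      rw [norm_mul, Real.norm_eq_abs (g _)]
      exact mul_le_mul_of_nonneg_left (hC _) (norm_nonneg _)
    · refine Integrable.of_bound (C := C * ∫ x, ‖φ x‖) ?_ (Eventually.of_forall fun t => ?_)
      · have h2 : Measurable fun p : ℝ × V => ‖φ (p.2 - p.1 • ω) * g p.2‖ :=
          (hm2.comp (measurable_snd.prodMk measurable_fst)).norm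
        exact (StronglyMeasurable.integral_prod_right' (f := fun (p : ℝ × V) =>
          ‖φ (p.2 - p.1 • ω) * g p.2‖) h2.stronglyMeasurable).aestronglyMeasurable
      · rw [Real.norm_of_nonneg (integral_nonneg fun z => norm_nonneg _)]
        have h1 : Integrable fun x => φ (x - t • ω) := hφ.comp_sub_right (t • ω)
        calc ∫ z, ‖φ (z - t • ω) * g z‖ ≤ ∫ z, C * ‖φ (z - t • ω)‖ := by
              refine integral_mono_of_nonneg (Eventually.of_forall fun z => norm_nonneg _)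
                (h1.norm.const_mul C) (Eventually.of_forall fun z => ?_)
              simp only
              rw [norm_mul, Real.norm_eq_abs (g _), mul_comm]
              exact mul_le_mul_of_nonneg_right (hC _) (norm_nonneg _)
          _ = C * ∫ x, ‖φ x‖ := by
              rw [integral_const_mul]
              congr 1
              exact integral_sub_right_eq_self (fun x => ‖φ x‖) (t • ω)
  have e1 : ∀ x, φ x * pav y ω g x = ∫ t, φ x * g (x - t • ω) ∂(pm y) := by
    intro x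
    rw [pav_eq hy, integral_const_mul]
  have e2 : ∀ z, pav y ω φ z * g z = ∫ t, φ (z - t • ω) * g z ∂(pm y) := by
    intro z
    rw [pav_eq hy, integral_mul_const]
  refine ⟨?_, ?_, ?_⟩
  · simp only [e1]
    exact hI1.integral_prod_left
  · simp only [e2]
    exact hI2.integral_prod_left
  · simp only [e1, e2]
    have s1 : ∫ x, ∫ t, φ x * g (x - t • ω) ∂(pm y) =
        ∫ t, (∫ x, φ x * g (x - t • ω)) ∂(pm y) := integral_integral_swap hI1
    have s2 : ∫ x, ∫ t, φ (x - t • ω) * g x ∂(pm y) =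
        ∫ t, (∫ x, φ (x - t • ω) * g x) ∂(pm y) := integral_integral_swap hI2
    rw [s1, s2, ← integral_pm_neg hy fun t => ∫ x, φ (x - t • ω) * g x]
    refine integral_congr_ae (Eventually.of_forall fun t => ?_)
    simp only
    have h3 := integral_sub_right_eq_self (μ := (volume : Measure V))
      (fun x => φ (x + t • ω) * g x) (t • ω)
    simp only [sub_add_cancel] at h3
    rw [h3]
    refine integral_congr_ae (Eventually.of_forall fun x => ?_)
    simp only [neg_smul, sub_neg_eq_add]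

theorem pav_monoM {y : ℝ} (hy : 0 < y) (ω : V) {u w : V → ℝ} (hu : Measurable u)
    (hw : Measurable w) {C : ℝ} (hC : ∀ x, |u x| ≤ C) (hC' : ∀ x, |w x| ≤ C)
    (huw : ∀ x, u x ≤ w x) (x : V) : pav y ω u x ≤ pav y ω w x := by
  rw [pav_eq hy, pav_eq hy]
  exact integral_mono (integrable_line hy ω hu hC x) (integrable_line hy ω hw hC' x)
    fun t => huw _

/-- Averages preserve the integral. -/
theorem integral_pav {y : ℝ} (hy : 0 < y) (ω : V) {φ : V → ℝ} (hφ : Integrable φ)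
    (hφm : Measurable φ) : Integrable (pav y ω φ) ∧ ∫ x, pav y ω φ x = ∫ x, φ x := by
  have hprob := pm_prob hy
  obtain ⟨_, h2, h3⟩ := pav_adj hy ω hφ hφm (g := fun _ => 1) measurable_const (C := 1)
    (fun _ => by simp)
  simp only [mul_one] at h2 h3
  refine ⟨h2, ?_⟩
  rw [← h3]
  refine integral_congr_ae (Eventually.of_forall fun x => ?_)
  simp only
  rw [pav_eq hy, integral_const, probReal_univ, one_smul, mul_one]

theorem integrable_damp {G : V → ℂ} (h1 : Integrable G) {ω : V} {ρ S : ℝ}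
    (hsupp : ∀ ξ, G ξ ≠ 0 → 0 ≤ ρ - ⟪ξ, ω⟫_ℝ ∧ ρ - ⟪ξ, ω⟫_ℝ ≤ S) {y : ℝ} (hy : 0 < y) :
    Integrable (damp G ω ρ y) :=
  Integrable.mono h1 ((continuous_dampFactor ω ρ y).aestronglyMeasurable.mul
    h1.aestronglyMeasurable) (Eventually.of_forall
      (norm_damp_le (g := G) hy.le (fun ξ hξ => (hsupp ξ hξ).1)))

theorem memLp_damp {G : V → ℂ} (h1 : Integrable G) (h2 : MemLp G 2) {ω : V} {ρ S : ℝ}
    (hsupp : ∀ ξ, G ξ ≠ 0 → 0 ≤ ρ - ⟪ξ, ω⟫_ℝ ∧ ρ - ⟪ξ, ω⟫_ℝ ≤ S) {y : ℝ} (hy : 0 < y) :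
    MemLp (damp G ω ρ y) 2 :=
  h2.mono ((continuous_dampFactor ω ρ y).aestronglyMeasurable.mul h1.aestronglyMeasurable)
    (Eventually.of_forall (norm_damp_le (g := G) hy.le (fun ξ hξ => (hsupp ξ hξ).1)))

theorem norm_pkt_le {G : V → ℂ} (h1 : Integrable G) {ω : V} {ρ S : ℝ}
    (hsupp : ∀ ξ, G ξ ≠ 0 → 0 ≤ ρ - ⟪ξ, ω⟫_ℝ ∧ ρ - ⟪ξ, ω⟫_ℝ ≤ S) {y : ℝ} (hy : 0 < y) (x : V) :
    ‖pkt G ρ y ω x‖ ≤ ∫ ξ, ‖G ξ‖ := by
  refine (norm_fourierInv_le _ (integrable_damp h1 hsupp hy) x).trans ?_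
  exact integral_mono (integrable_damp h1 hsupp hy).norm h1.norm
    (norm_damp_le (g := G) hy.le (fun ξ hξ => (hsupp ξ hξ).1))

theorem continuous_pkt {G : V → ℂ} (h1 : Integrable G) {ω : V} {ρ S : ℝ}
    (hsupp : ∀ ξ, G ξ ≠ 0 → 0 ≤ ρ - ⟪ξ, ω⟫_ℝ ∧ ρ - ⟪ξ, ω⟫_ℝ ≤ S) {y : ℝ} (hy : 0 < y) :
    Continuous (pkt G ρ y ω) := continuous_fourierInv (integrable_damp h1 hsupp hy)

/-- The pointwise inequality for one packet. -/
theorem packet_pt {G : V → ℂ} (h1 : Integrable G) {ω : V} {ρ S : ℝ}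
    (hsupp : ∀ ξ, G ξ ≠ 0 → 0 ≤ ρ - ⟪ξ, ω⟫_ℝ ∧ ρ - ⟪ξ, ω⟫_ℝ ≤ S) {y : ℝ} (hy : 0 < y)
    {n Nb A : V → ℝ} (hn : Measurable n) (hNb : Measurable Nb) (hA : Measurable A) {e a K : ℝ}
    (he : 0 < e) (ha : 0 < a) (hn0 : ∀ x, e ≤ n x) (hnK : ∀ x, n x ≤ K) (hNb1 : ∀ x, 1 ≤ Nb x)
    (hNbK : ∀ x, Nb x ≤ K) (haA : ∀ x, a ≤ A x) (hAK : ∀ x, A x ≤ K) (x : V) :
    2 * ‖pkt G ρ y ω x‖ ^ 2 - pav y ω (fun z => n z / Nb z) x ≤ ‖pkt G ρ y ω x‖ ^ 2 *
      pav y ω (fun z => ‖𝓕⁻ G z‖ ^ 2 / (n z * A z) + (Real.log (A z) + Real.log (Nb z))) x := by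
  have hprob := pm_prob hy
  have hfm : Measurable (𝓕⁻ G) := (continuous_fourierInv h1).measurable
  have hK1 : 1 ≤ K := (hNb1 x).trans (hNbK x)
  have hA0 : ∀ z, 0 < A z := fun z => ha.trans_le (haA z)
  have hn0' : ∀ z, 0 < n z := fun z => he.trans_le (hn0 z)
  have hNb0 : ∀ z, 0 < Nb z := fun z => zero_lt_one.trans_le (hNb1 z)
  have hr0 : ∀ z, 0 ≤ n z / Nb z := fun z => (div_pos (hn0' z) (hNb0 z)).le
  by_cases h0 : pkt G ρ y ω x = 0
  · rw [h0, norm_zero]
    have := pav_nonnegM hy ω hr0 x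
    simp only [ne_eq, OfNat.ofNat_ne_zero, not_false_eq_true, zero_pow, mul_zero, zero_mul]
    linarith
  set U : ℝ := ‖pkt G ρ y ω x‖ ^ 2 with hU
  have hU0 : 0 < U := by
    have := norm_pos_iff.2 h0
    positivity
  have hJ := jensen_line h1 hsupp hy (c := fun z => n z * A z) (hn.mul hA) (κ := e * a)
    (K := K * K) (mul_pos he ha)
    (fun z => mul_le_mul (hn0 z) (haA z) ha.le (hn0' z).le)
    (fun z => mul_le_mul (hnK z) (hAK z) (hA0 z).le (by linarith)) x h0
  rw [← integral_pm hy (fun t => ‖𝓕⁻ G (x - t • ω)‖ ^ 2 / (n (x - t • ω) * A (x - t • ω)) +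
    Real.log (n (x - t • ω) * A (x - t • ω)))] at hJ
  -- bounded measurable functions
  have b1 : ∀ z, |‖𝓕⁻ G z‖ ^ 2 / (n z * A z)| ≤ (∫ ξ, ‖G ξ‖) ^ 2 / (e * a) := by
    intro z
    rw [abs_of_nonneg (by have := hn0' z; have := hA0 z; positivity)]
    have h5 := norm_fourierInv_le G h1 z
    exact div_le_div₀ (by positivity) (by gcongr) (mul_pos he ha)
      (mul_le_mul (hn0 z) (haA z) ha.le (hn0' z).le)
  have blog : ∀ {w lo : ℝ}, 0 < lo → lo ≤ w → w ≤ K → |Real.log w| ≤ |Real.log lo| + |Real.log K| := by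
    intro w lo hlo hw hwK
    have h5 := Real.log_le_log hlo hw
    have h6 := Real.log_le_log (hlo.trans_le hw) hwK
    have := neg_abs_le (Real.log lo)
    have := le_abs_self (Real.log K)
    have := abs_nonneg (Real.log lo)
    have := abs_nonneg (Real.log K)
    rw [abs_le]
    constructor <;> linarith
  have m1 : Measurable fun z => ‖𝓕⁻ G z‖ ^ 2 / (n z * A z) :=
    (hfm.norm.pow_const 2).div (hn.mul hA)
  have mA : Measurable fun z => Real.log (A z) := Real.measurable_log.comp hA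
  have mN : Measurable fun z => Real.log (Nb z) := Real.measurable_log.comp hNb
  have mn : Measurable fun z => Real.log (n z) := Real.measurable_log.comp hn
  have I1 := integrable_line hy ω m1 b1 x
  have I2 := integrable_line hy ω mA (fun z => blog ha (haA z) (hAK z)) x
  have I3 := integrable_line hy ω mN (fun z => blog one_pos (hNb1 z) (hNbK z)) x
  have I4 := integrable_line hy ω mn (fun z => blog he (hn0 z) (hnK z)) x
  have I5 : Integrable (fun t : ℝ => n (x - t • ω) / Nb (x - t • ω)) (pm y) := by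
    refine integrable_line hy ω (u := fun z => n z / Nb z) (hn.div hNb) (C := K) (fun z => ?_) x
    rw [abs_of_nonneg (hr0 z), div_le_iff₀ (hNb0 z)]
    have := hnK z
    have := hNb1 z
    nlinarith
  -- the tangent line
  have hT : ∀ t : ℝ, U * (Real.log (n (x - t • ω)) - Real.log (Nb (x - t • ω))) + U -
      n (x - t • ω) / Nb (x - t • ω) ≤ U * Real.log U := by
    intro t
    set z := x - t • ω
    have hr : 0 < n z / Nb z := div_pos (hn0' z) (hNb0 z)
    rw [← Real.log_div (hn0' z).ne' (hNb0 z).ne']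
    have h6 : Real.log (n z / Nb z / U) ≤ n z / Nb z / U - 1 :=
      Real.log_le_sub_one_of_pos (div_pos hr hU0)
    rw [Real.log_div hr.ne' hU0.ne'] at h6
    have h7 : U * (n z / Nb z / U) = n z / Nb z := by field_simp
    nlinarith
  have hTi : ∫ t, (U * (Real.log (n (x - t • ω)) - Real.log (Nb (x - t • ω))) + U -
      n (x - t • ω) / Nb (x - t • ω)) ∂(pm y) ≤ ∫ _, U * Real.log U ∂(pm y) :=
    integral_mono ((((I4.sub I3).const_mul U).add (integrable_const U)).sub I5)
      (integrable_const (U * Real.log U)) hT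
  have e1 : ∫ t, (U * (Real.log (n (x - t • ω)) - Real.log (Nb (x - t • ω))) + U -
      n (x - t • ω) / Nb (x - t • ω)) ∂(pm y) =
      U * (∫ t, Real.log (n (x - t • ω)) ∂(pm y) - ∫ t, Real.log (Nb (x - t • ω)) ∂(pm y)) + U -
      ∫ t, n (x - t • ω) / Nb (x - t • ω) ∂(pm y) := by
    have q1 : Integrable (fun t : ℝ => Real.log (n (x - t • ω)) - Real.log (Nb (x - t • ω)))
        (pm y) := I4.sub I3
    have q2 : Integrable (fun t : ℝ => U * (Real.log (n (x - t • ω)) -
        Real.log (Nb (x - t • ω)))) (pm y) := q1.const_mul U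
    have q3 : Integrable (fun t : ℝ => U * (Real.log (n (x - t • ω)) -
        Real.log (Nb (x - t • ω))) + U) (pm y) := q2.add (integrable_const U)
    rw [integral_sub q3 I5, integral_add q2 (integrable_const U), integral_const_mul,
      integral_sub I4 I3, integral_const, probReal_univ, one_smul]
  have e2 : ∫ t, (‖𝓕⁻ G (x - t • ω)‖ ^ 2 / (n (x - t • ω) * A (x - t • ω)) +
      Real.log (n (x - t • ω) * A (x - t • ω))) ∂(pm y) =
      ∫ t, ‖𝓕⁻ G (x - t • ω)‖ ^ 2 / (n (x - t • ω) * A (x - t • ω)) ∂(pm y) +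
      (∫ t, Real.log (n (x - t • ω)) ∂(pm y) + ∫ t, Real.log (A (x - t • ω)) ∂(pm y)) := by
    have q1 : Integrable (fun t : ℝ => Real.log (n (x - t • ω)) + Real.log (A (x - t • ω)))
        (pm y) := I4.add I2
    rw [← integral_add I4 I2, ← integral_add I1 q1]
    refine integral_congr_ae (Eventually.of_forall fun t => ?_)
    simp only
    rw [Real.log_mul (hn0' _).ne' (hA0 _).ne']
  have e3 : pav y ω (fun z => ‖𝓕⁻ G z‖ ^ 2 / (n z * A z) +
      (Real.log (A z) + Real.log (Nb z))) x =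
      ∫ t, ‖𝓕⁻ G (x - t • ω)‖ ^ 2 / (n (x - t • ω) * A (x - t • ω)) ∂(pm y) +
      (∫ t, Real.log (A (x - t • ω)) ∂(pm y) + ∫ t, Real.log (Nb (x - t • ω)) ∂(pm y)) := by
    have q1 : Integrable (fun t : ℝ => Real.log (A (x - t • ω)) + Real.log (Nb (x - t • ω)))
        (pm y) := I2.add I3
    rw [pav_eq hy, ← integral_add I2 I3, ← integral_add I1 q1]
  rw [e1, integral_const, probReal_univ, one_smul] at hTi
  rw [e2] at hJ
  rw [e3, pav_eq hy]
  change 1 + Real.log U ≤ _ at hJ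
  nlinarith

theorem integrable_sq_fourierInv {G : V → ℂ} (h1 : Integrable G) (h2 : MemLp G 2) :
    Integrable fun x => ‖𝓕⁻ G x‖ ^ 2 := (memLp_fourierInv h1 h2).integrable_norm_pow two_ne_zero

/-- NK* for integrable weights, with an error term. -/
theorem nk_aux {ι : Type*} [Fintype ι] {G : V → ℂ} (h1 : Integrable G) (h2 : MemLp G 2)
    {ρ S : ℝ} (ω : ι → V)
    (hsupp : ∀ j ξ, G ξ ≠ 0 → 0 ≤ ρ - ⟪ξ, ω j⟫_ℝ ∧ ρ - ⟪ξ, ω j⟫_ℝ ≤ S)
    (y : ι → ℝ) (hy : ∀ j, 0 < y j) (v : ι → V → ℝ) (hv : ∀ j, Measurable (v j))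
    (hvi : ∀ j, Integrable (v j))
    (hv0 : ∀ j x, 0 ≤ v j x) {K a : ℝ} (hvK : ∀ j x, v j x ≤ K) (Nb A : V → ℝ)
    (hNb : Measurable Nb) (hA : Measurable A) (hNb1 : ∀ x, 1 ≤ Nb x) (hNbK : ∀ x, Nb x ≤ K)
    (ha : 0 < a) (haA : ∀ x, a ≤ A x) (hAK : ∀ x, A x ≤ K)
    (hN : ∀ x, ∑ j, pav (y j) (ω j) (v j) x ≤ Nb x) {e : ℝ} (he : 0 < e) :
    ∫ x, (∑ j, pav (y j) (ω j) (fun z => v j z * ‖pkt G ρ (y j) (ω j) z‖ ^ 2) x) *
        (1 - Real.log (A x) - Real.log (Nb x)) ≤ (∫ x, ‖𝓕⁻ G x‖ ^ 2 / A x) +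
        e * ∑ j, ∫ x, v j x := by
  have hK1 : 1 ≤ K := (hNb1 0).trans (hNbK 0)
  have hA0 : ∀ z, 0 < A z := fun z => ha.trans_le (haA z)
  have hNb0 : ∀ z, 0 < Nb z := fun z => zero_lt_one.trans_le (hNb1 z)
  set M : ℝ := ∫ ξ, ‖G ξ‖ with hM
  have hM0 : 0 ≤ M := integral_nonneg fun _ => norm_nonneg _
  let u : ι → V → ℝ := fun j x => ‖pkt G ρ (y j) (ω j) x‖ ^ 2
  let φ : ι → V → ℝ := fun j z => v j z * u j z
  have hu0 : ∀ j x, 0 ≤ u j x := fun j x => by positivity
  have hum : ∀ j, Measurable (u j) := fun j =>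
    ((continuous_pkt h1 (hsupp j) (hy j)).measurable.norm.pow_const 2)
  have huM : ∀ j x, u j x ≤ M ^ 2 := fun j x => by
    have := norm_pkt_le h1 (hsupp j) (hy j) x
    simp only [u]
    gcongr
  have hφm : ∀ j, Measurable (φ j) := fun j => (hv j).mul (hum j)
  have hφ0 : ∀ j x, 0 ≤ φ j x := fun j x => mul_nonneg (hv0 j x) (hu0 j x)
  have hφK : ∀ j x, |φ j x| ≤ K * M ^ 2 := fun j x => by
    rw [abs_of_nonneg (hφ0 j x)]
    exact mul_le_mul (hvK j x) (huM j x) (hu0 j x) (by linarith)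
  have hφi : ∀ j, Integrable (φ j) := fun j => by
    refine Integrable.mono' ((hvi j).norm.mul_const (M ^ 2)) (hφm j).aestronglyMeasurable
      (Eventually.of_forall fun x => ?_)
    rw [norm_mul, Real.norm_of_nonneg (hu0 j x)]
    exact mul_le_mul_of_nonneg_left (huM j x) (norm_nonneg _)
  let m : V → ℝ := fun x => ∑ j, pav (y j) (ω j) (φ j) x
  have hmm : Measurable m := Finset.measurable_sum _ fun j _ => measurable_pav (hy j) (ω j) (hφm j)
  have hm0 : ∀ x, 0 ≤ m x := fun x => Finset.sum_nonneg fun j _ =>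
    pav_nonnegM (hy j) (ω j) (hφ0 j) x
  set Cm : ℝ := ∑ _j : ι, K * M ^ 2 with hCm
  have hCm0 : 0 ≤ Cm := Finset.sum_nonneg fun _ _ => by positivity
  have hmC : ∀ x, m x ≤ Cm := fun x => Finset.sum_le_sum fun j _ =>
    pav_leM (hy j) (ω j) (hφm j) (hφK j) x
  have hmi : Integrable m := integrable_finsetSum _ fun j _ =>
    (integral_pav (hy j) (ω j) (hφi j) (hφm j)).1
  let n : V → ℝ := fun x => m x + e
  have hnm : Measurable n := hmm.add measurable_const
  have hn0 : ∀ x, e ≤ n x := fun x => by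
    have := hm0 x
    simp only [n]
    linarith
  have hn0' : ∀ x, 0 < n x := fun x => he.trans_le (hn0 x)
  set K2 : ℝ := K + (Cm + e) with hK2
  have hnK : ∀ x, n x ≤ K2 := fun x => by
    have := hmC x
    simp only [n]
    linarith
  let r : V → ℝ := fun x => n x / Nb x
  have hrm : Measurable r := hnm.div hNb
  have hr0 : ∀ x, 0 ≤ r x := fun x => (div_pos (hn0' x) (hNb0 x)).le
  have hrK : ∀ x, |r x| ≤ K2 := fun x => by
    rw [abs_of_nonneg (hr0 x), div_le_iff₀ (hNb0 x)]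
    have := hnK x
    have := hNb1 x
    have : 0 ≤ K2 := by linarith
    nlinarith
  have hfm : Measurable (𝓕⁻ G) := (continuous_fourierInv h1).measurable
  let F₁ : V → ℝ := fun z => ‖𝓕⁻ G z‖ ^ 2 / (n z * A z)
  let F₂ : V → ℝ := fun z => Real.log (A z) + Real.log (Nb z)
  have hF₁m : Measurable F₁ := (hfm.norm.pow_const 2).div (hnm.mul hA)
  have hF₂m : Measurable F₂ := (Real.measurable_log.comp hA).add (Real.measurable_log.comp hNb)
  have hF₁0 : ∀ z, 0 ≤ F₁ z := fun z => by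
    have := hn0' z
    have := hA0 z
    positivity
  have hF₁K : ∀ z, F₁ z ≤ M ^ 2 / (e * a) := fun z => by
    have h5 := norm_fourierInv_le G h1 z
    exact div_le_div₀ (by positivity) (by gcongr) (mul_pos he ha)
      (mul_le_mul (hn0 z) (haA z) ha.le (hn0' z).le)
  set L : ℝ := |Real.log a| + |Real.log K| + |Real.log K| with hL
  have hF₂K : ∀ z, |F₂ z| ≤ L := fun z => by
    have h5 := Real.log_le_log ha (haA z)
    have h6 := Real.log_le_log (hA0 z) (hAK z)
    have h7 := Real.log_le_log (hNb0 z) (hNbK z)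
    have h8 := Real.log_nonneg (hNb1 z)
    have := neg_abs_le (Real.log a)
    have := le_abs_self (Real.log K)
    have := abs_nonneg (Real.log a)
    have := abs_nonneg (Real.log K)
    simp only [F₂]
    rw [abs_le]
    constructor <;> linarith
  let F : V → ℝ := fun z => F₁ z + F₂ z
  have hFm : Measurable F := hF₁m.add hF₂m
  have hFK : ∀ z, |F z| ≤ M ^ 2 / (e * a) + L := fun z => by
    refine (abs_add_le _ _).trans (add_le_add ?_ (hF₂K z))
    rw [abs_of_nonneg (hF₁0 z)]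
    exact hF₁K z
  -- one packet
  have hpk : ∀ j, 2 * (∫ x, pav (y j) (ω j) (φ j) x) - (∫ x, pav (y j) (ω j) (v j) x * r x) ≤
      ∫ x, pav (y j) (ω j) (φ j) x * F x := by
    intro j
    obtain ⟨a1, a2, a3⟩ := pav_adj (hy j) (ω j) (hφi j) (hφm j) hFm hFK
    obtain ⟨b1, b2, b3⟩ := pav_adj (hy j) (ω j) (hvi j) (hv j) hrm hrK
    rw [← a3, ← b3, (integral_pav (hy j) (ω j) (hφi j) (hφm j)).2, ← integral_const_mul,
      ← integral_sub ((hφi j).const_mul 2) b1]
    refine integral_mono (((hφi j).const_mul 2).sub b1) a1 fun x => ?_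
    have hp := packet_pt h1 (hsupp j) (hy j) hnm hNb hA he ha hn0 hnK hNb1
      (fun z => (hNbK z).trans (by linarith)) haA (fun z => (hAK z).trans (by linarith)) x
    have hp' := mul_le_mul_of_nonneg_left hp (hv0 j x)
    simp only [φ, u]
    calc 2 * (v j x * ‖pkt G ρ (y j) (ω j) x‖ ^ 2) - v j x * pav (y j) (ω j) r x
        = v j x * (2 * ‖pkt G ρ (y j) (ω j) x‖ ^ 2 - pav (y j) (ω j) r x) := by ring
      _ ≤ v j x * (‖pkt G ρ (y j) (ω j) x‖ ^ 2 * pav (y j) (ω j) F x) := hp'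
      _ = _ := by ring
  -- sum
  have hsum := Finset.sum_le_sum fun j (_ : j ∈ Finset.univ) => hpk j
  have i1 : ∀ j, Integrable (pav (y j) (ω j) (φ j)) := fun j =>
    (integral_pav (hy j) (ω j) (hφi j) (hφm j)).1
  have i2 : ∀ j, Integrable fun x => pav (y j) (ω j) (v j) x * r x := fun j =>
    (pav_adj (hy j) (ω j) (hvi j) (hv j) hrm hrK).2.1
  have i3 : ∀ j, Integrable fun x => pav (y j) (ω j) (φ j) x * F x := fun j =>
    (pav_adj (hy j) (ω j) (hφi j) (hφm j) hFm hFK).2.1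
  rw [Finset.sum_sub_distrib, ← Finset.mul_sum, ← integral_finsetSum _ fun j _ => i1 j,
    ← integral_finsetSum _ fun j _ => i2 j, ← integral_finsetSum _ fun j _ => i3 j] at hsum
  have i4 : Integrable fun x => ‖𝓕⁻ G x‖ ^ 2 / A x := by
    refine Integrable.mono' ((integrable_sq_fourierInv h1 h2).mul_const a⁻¹)
      ((hfm.norm.pow_const 2).div hA).aestronglyMeasurable (Eventually.of_forall fun x => ?_)
    rw [Real.norm_of_nonneg (by have := hA0 x; positivity), div_eq_mul_inv]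
    have := inv_anti₀ ha (haA x)
    gcongr
  have i5 : Integrable fun x => m x * F₂ x := by
    refine Integrable.mono' (hmi.norm.mul_const L) (hmm.mul hF₂m).aestronglyMeasurable
      (Eventually.of_forall fun x => ?_)
    rw [norm_mul, Real.norm_eq_abs (F₂ x)]
    exact mul_le_mul_of_nonneg_left (hF₂K x) (norm_nonneg _)
  have i6 : ∀ j, Integrable (pav (y j) (ω j) (v j)) := fun j =>
    (integral_pav (hy j) (ω j) (hvi j) (hv j)).1
  have c1 : ∫ x, ∑ j, pav (y j) (ω j) (v j) x * r x ≤ (∫ x, m x) + e * ∑ j, ∫ x, v j x := by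
    have e1 : ∑ j, ∫ x, v j x = ∫ x, ∑ j, pav (y j) (ω j) (v j) x := by
      rw [integral_finsetSum _ fun j _ => i6 j]
      exact Finset.sum_congr rfl fun j _ => (integral_pav (hy j) (ω j) (hvi j) (hv j)).2.symm
    have i7 : Integrable fun x => ∑ j, pav (y j) (ω j) (v j) x :=
      integrable_finsetSum _ fun j _ => i6 j
    rw [e1, ← integral_const_mul, ← integral_add hmi (i7.const_mul e)]
    refine integral_mono (integrable_finsetSum _ fun j _ => i2 j) (hmi.add (i7.const_mul e))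
      fun x => ?_
    simp only
    rw [← Finset.sum_mul]
    have q1 := hN x
    have q2 : 0 ≤ ∑ j, pav (y j) (ω j) (v j) x := Finset.sum_nonneg fun j _ =>
      pav_nonnegM (hy j) (ω j) (hv0 j) x
    have q3 := hm0 x
    have q4 := hNb0 x
    have q5 := hNb1 x
    simp only [r, n]
    rw [mul_div_assoc', div_le_iff₀ q4]
    nlinarith [mul_nonneg q3 (sub_nonneg.2 q1), mul_nonneg (mul_nonneg he.le q2)
      (sub_nonneg.2 q5)]
  have c2 : ∫ x, ∑ j, pav (y j) (ω j) (φ j) x * F x ≤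
      (∫ x, ‖𝓕⁻ G x‖ ^ 2 / A x) + ∫ x, m x * F₂ x := by
    rw [← integral_add i4 i5]
    refine integral_mono (integrable_finsetSum _ fun j _ => i3 j) (i4.add i5) fun x => ?_
    simp only
    rw [← Finset.sum_mul]
    change m x * (F₁ x + F₂ x) ≤ _
    have q1 : m x * F₁ x ≤ ‖𝓕⁻ G x‖ ^ 2 / A x := by
      have q3 := hm0 x
      have q4 := hA0 x
      have q5 := hn0' x
      simp only [F₁]
      rw [mul_div_assoc', div_le_div_iff₀ (mul_pos q5 q4) q4]
      have q6 : m x ≤ n x := by simp only [n]; linarith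
      have q7 : 0 ≤ ‖𝓕⁻ G x‖ ^ 2 * A x := by positivity
      nlinarith
    linarith [mul_add (m x) (F₁ x) (F₂ x)]
  have c3 : ∫ x, m x * (1 - Real.log (A x) - Real.log (Nb x)) =
      (∫ x, m x) - ∫ x, m x * F₂ x := by
    rw [← integral_sub hmi i5]
    refine integral_congr_ae (Eventually.of_forall fun x => ?_)
    simp only [F₂]
    ring
  change ∫ x, m x * (1 - Real.log (A x) - Real.log (Nb x)) ≤ _
  rw [c3]
  change 2 * (∫ x, m x) - _ ≤ _ at hsum
  linarith

/-- NK*. -/
theorem nk {ι : Type*} [Fintype ι] {G : V → ℂ} (h1 : Integrable G) (h2 : MemLp G 2)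
    {ρ S : ℝ} (ω : ι → V) (hω : ∀ j, ‖ω j‖ = 1)
    (hsupp : ∀ j ξ, G ξ ≠ 0 → 0 ≤ ρ - ⟪ξ, ω j⟫_ℝ ∧ ρ - ⟪ξ, ω j⟫_ℝ ≤ S)
    (y : ι → ℝ) (hy : ∀ j, 0 < y j) (v : ι → V → ℝ) (hv : ∀ j, Measurable (v j))
    (hv0 : ∀ j x, 0 ≤ v j x) {K a : ℝ} (hvK : ∀ j x, v j x ≤ K) (Nb A : V → ℝ)
    (hNb : Measurable Nb) (hA : Measurable A) (hNb1 : ∀ x, 1 ≤ Nb x) (hNbK : ∀ x, Nb x ≤ K)
    (ha : 0 < a) (haA : ∀ x, a ≤ A x) (hAK : ∀ x, A x ≤ K)
    (hN : ∀ x, ∑ j, pav (y j) (ω j) (v j) x ≤ Nb x) :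
    ∫ x, (∑ j, pav (y j) (ω j) (fun z => v j z * ‖pkt G ρ (y j) (ω j) z‖ ^ 2) x) *
        (1 - Real.log (A x) - Real.log (Nb x)) ≤ ∫ x, ‖𝓕⁻ G x‖ ^ 2 / A x := by
  have hK1 : 1 ≤ K := (hNb1 0).trans (hNbK 0)
  have hA0 : ∀ z, 0 < A z := fun z => ha.trans_le (haA z)
  have hNb0 : ∀ z, 0 < Nb z := fun z => zero_lt_one.trans_le (hNb1 z)
  set M : ℝ := ∫ ξ, ‖G ξ‖ with hM
  have hM0 : 0 ≤ M := integral_nonneg fun _ => norm_nonneg _
  let vn : ℕ → ι → V → ℝ := fun n j => (closedBall (0 : V) n).indicator (v j)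
  have hvnm : ∀ n j, Measurable (vn n j) := fun n j => (hv j).indicator measurableSet_closedBall
  have hvn0 : ∀ n j x, 0 ≤ vn n j x := fun n j x => Set.indicator_nonneg (fun z _ => hv0 j z) x
  have hvnle : ∀ n j x, vn n j x ≤ v j x := fun n j x =>
    Set.indicator_le_self' (fun z _ => hv0 j z) x
  have hvabs : ∀ j x, |v j x| ≤ K := fun j x => by
    rw [abs_of_nonneg (hv0 j x)]
    exact hvK j x
  have hvnabs : ∀ n j x, |vn n j x| ≤ K := fun n j x => by
    rw [abs_of_nonneg (hvn0 n j x)]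
    exact (hvnle n j x).trans (hvK j x)
  have hvni : ∀ n j, Integrable (vn n j) := fun n j => by
    rw [integrable_indicator_iff measurableSet_closedBall]
    exact Measure.integrableOn_of_bounded (M := K) measure_closedBall_lt_top.ne
      (hv j).aestronglyMeasurable (Eventually.of_forall fun x => hvabs j x)
  have hNn : ∀ n x, ∑ j, pav (y j) (ω j) (vn n j) x ≤ Nb x := fun n x =>
    (Finset.sum_le_sum fun j _ => pav_monoM (hy j) (ω j) (hvnm n j) (hv j) (hvnabs n j) (hvabs j)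
      (hvnle n j) x).trans (hN x)
  let u : ι → V → ℝ := fun j x => ‖pkt G ρ (y j) (ω j) x‖ ^ 2
  have hu0 : ∀ j x, 0 ≤ u j x := fun j x => by positivity
  have hum : ∀ j, Measurable (u j) := fun j =>
    ((continuous_pkt h1 (hsupp j) (hy j)).measurable.norm.pow_const 2)
  have huM : ∀ j x, u j x ≤ M ^ 2 := fun j x => by
    have := norm_pkt_le h1 (hsupp j) (hy j) x
    simp only [u]
    gcongr
  have hui : ∀ j, Integrable (u j) := fun j =>
    integrable_sq_fourierInv (integrable_damp h1 (hsupp j) (hy j))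
      (memLp_damp h1 h2 (hsupp j) (hy j))
  let φ : ι → V → ℝ := fun j z => v j z * u j z
  let φn : ℕ → ι → V → ℝ := fun n j z => vn n j z * u j z
  have hφm : ∀ j, Measurable (φ j) := fun j => (hv j).mul (hum j)
  have hφnm : ∀ n j, Measurable (φn n j) := fun n j => (hvnm n j).mul (hum j)
  have hφ0 : ∀ j x, 0 ≤ φ j x := fun j x => mul_nonneg (hv0 j x) (hu0 j x)
  have hφn0 : ∀ n j x, 0 ≤ φn n j x := fun n j x => mul_nonneg (hvn0 n j x) (hu0 j x)
  have hφnle : ∀ n j x, φn n j x ≤ φ j x := fun n j x =>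
    mul_le_mul_of_nonneg_right (hvnle n j x) (hu0 j x)
  have hφK : ∀ j x, |φ j x| ≤ K * M ^ 2 := fun j x => by
    rw [abs_of_nonneg (hφ0 j x)]
    exact mul_le_mul (hvK j x) (huM j x) (hu0 j x) (by linarith)
  have hφnK : ∀ n j x, |φn n j x| ≤ K * M ^ 2 := fun n j x => by
    rw [abs_of_nonneg (hφn0 n j x)]
    exact (hφnle n j x).trans ((le_abs_self _).trans (hφK j x))
  have hφi : ∀ j, Integrable (φ j) := fun j => by
    refine Integrable.mono' ((hui j).const_mul K) (hφm j).aestronglyMeasurable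
      (Eventually.of_forall fun x => ?_)
    rw [Real.norm_of_nonneg (hφ0 j x)]
    exact mul_le_mul_of_nonneg_right (hvK j x) (hu0 j x)
  let m : V → ℝ := fun x => ∑ j, pav (y j) (ω j) (φ j) x
  let mn : ℕ → V → ℝ := fun n x => ∑ j, pav (y j) (ω j) (φn n j) x
  have hmm : Measurable m := Finset.measurable_sum _ fun j _ => measurable_pav (hy j) (ω j) (hφm j)
  have hmnm : ∀ n, Measurable (mn n) := fun n =>
    Finset.measurable_sum _ fun j _ => measurable_pav (hy j) (ω j) (hφnm n j)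
  have hmn0 : ∀ n x, 0 ≤ mn n x := fun n x => Finset.sum_nonneg fun j _ =>
    pav_nonnegM (hy j) (ω j) (hφn0 n j) x
  have hmnle : ∀ n x, mn n x ≤ m x := fun n x => Finset.sum_le_sum fun j _ =>
    pav_monoM (hy j) (ω j) (hφnm n j) (hφm j) (hφnK n j) (hφK j) (hφnle n j) x
  have hmi : Integrable m := integrable_finsetSum _ fun j _ =>
    (integral_pav (hy j) (ω j) (hφi j) (hφm j)).1
  -- `e → 0`
  have hstep : ∀ n, ∫ x, mn n x * (1 - Real.log (A x) - Real.log (Nb x)) ≤
      ∫ x, ‖𝓕⁻ G x‖ ^ 2 / A x := by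
    intro n
    refine le_of_forall_pos_le_add fun δ hδ => ?_
    set Cn : ℝ := ∑ j, ∫ x, vn n j x with hCn
    have hCn0 : 0 ≤ Cn := Finset.sum_nonneg fun j _ => integral_nonneg fun x => hvn0 n j x
    have h3 := nk_aux h1 h2 ω hsupp y hy (vn n) (hvnm n) (hvni n) (hvn0 n)
      (fun j x => (hvnle n j x).trans (hvK j x)) Nb A hNb hA hNb1 hNbK ha haA hAK (hNn n)
      (e := δ / (Cn + 1)) (by positivity)
    refine h3.trans (add_le_add le_rfl ?_)
    rw [← hCn, div_mul_eq_mul_div, div_le_iff₀ (by positivity)]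
    nlinarith
  -- `n → ∞`
  set L : ℝ := |Real.log a| + |Real.log K| + |Real.log K| + 1 with hL
  have hLK : ∀ z, |1 - Real.log (A z) - Real.log (Nb z)| ≤ L := fun z => by
    have h5 := Real.log_le_log ha (haA z)
    have h6 := Real.log_le_log (hA0 z) (hAK z)
    have h7 := Real.log_le_log (hNb0 z) (hNbK z)
    have h8 := Real.log_nonneg (hNb1 z)
    have := neg_abs_le (Real.log a)
    have := le_abs_self (Real.log K)
    have := abs_nonneg (Real.log a)
    have := abs_nonneg (Real.log K)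
    rw [abs_le]
    constructor <;> linarith
  have hLm : Measurable fun z => 1 - Real.log (A z) - Real.log (Nb z) :=
    (measurable_const.sub (Real.measurable_log.comp hA)).sub (Real.measurable_log.comp hNb)
  have hpt : ∀ x, Tendsto (fun n => mn n x) atTop (𝓝 (m x)) := by
    intro x
    refine tendsto_finsetSum _ fun j _ => ?_
    have hprob := pm_prob (hy j)
    rw [pav_eq (hy j)]
    simp only [pav_eq (hy j)]
    refine tendsto_integral_of_dominated_convergence (fun _ => K * M ^ 2) (fun n => ?_)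
      (integrable_const _) (fun n => Eventually.of_forall fun t => hφnK n j _)
      (Eventually.of_forall fun t => ?_)
    · exact (integrable_line (hy j) (ω j) (hφnm n j) (hφnK n j) x).aestronglyMeasurable
    · set z := x - t • ω j
      have h9 : ∀ᶠ n : ℕ in atTop, φn n j z = φ j z := by
        filter_upwards [eventually_ge_atTop ⌈‖z‖⌉₊] with n hn
        have h10 : z ∈ closedBall (0 : V) n := by
          rw [mem_closedBall_zero_iff]
          exact (Nat.le_ceil _).trans (by exact_mod_cast hn)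
        simp only [φn, φ, vn, Set.indicator_of_mem h10]
      exact (tendsto_congr' h9).2 tendsto_const_nhds
  have hlim : Tendsto (fun n => ∫ x, mn n x * (1 - Real.log (A x) - Real.log (Nb x))) atTop
      (𝓝 (∫ x, m x * (1 - Real.log (A x) - Real.log (Nb x)))) := by
    refine tendsto_integral_of_dominated_convergence (fun x => m x * L) (fun n => ?_)
      (hmi.mul_const L) (fun n => Eventually.of_forall fun x => ?_)
      (Eventually.of_forall fun x => ?_)
    · exact ((hmnm n).mul hLm).aestronglyMeasurable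
    · rw [norm_mul, Real.norm_of_nonneg (hmn0 n x), Real.norm_eq_abs]
      exact mul_le_mul (hmnle n x) (hLK x) (abs_nonneg _) ((hmn0 n x).trans (hmnle n x))
    · exact (hpt x).mul_const _
  exact le_of_tendsto hlim (Eventually.of_forall hstep)

end REPS
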