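import Pool.Agent.REPS.Defs2
import Pool.Agent.REPS.Geom1

/-! Row NORM, part 1: sums over the roots of unity. -/

open MeasureTheory Filter Topology Real Metric

namespace REPS

namespace NormRow

/-- Cyclic shift of a periodic sum. -/
theorem sum_shift {M : ℕ} {f : ℕ → ℝ} (hf : ∀ n, f (n + M) = f n) (c : ℕ) :
    ∑ L ∈ Finset.range M, f (L + c) = ∑ L ∈ Finset.range M, f L := by
  induction c with
  | zero => rfl
  | succ c ih =>
    rw [← ih]
    have h1 := Finset.sum_range_succ (fun L => f (L + c)) M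
    have h2 := Finset.sum_range_succ' (fun L => f (L + c)) M
    rw [h1] at h2
    have h3 : f (M + c) = f (0 + c) := by rw [add_comm M c, hf, zero_add]
    rw [h3] at h2
    have h4 : ∀ L, f (L + 1 + c) = f (L + (c + 1)) := fun L => by congr 1; ring
    simp only [h4] at h2
    linarith

/-- The sums of the `m`-th powers of the `M`-th roots of unity. -/
theorem root_sum (M : ℕ) (hM : 0 < M) (m : ℤ) :
    0 ≤ ∑ L ∈ Finset.range M, Real.cos (m * (2 * π * L / M)) ∧
      ∑ L ∈ Finset.range M, Real.sin (m * (2 * π * L / M)) = 0 := by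
  have hM' : (M : ℂ) ≠ 0 := by exact_mod_cast hM.ne'
  set ζ : ℂ := Complex.exp (m * (2 * π / M) * Complex.I) with hζ
  have h1 : ζ ^ M = 1 := by
    rw [hζ, ← Complex.exp_nat_mul]
    have : (M : ℂ) * (m * (2 * π / M) * Complex.I) = m * (2 * π * Complex.I) := by
      field_simp
    rw [this, Complex.exp_int_mul_two_pi_mul_I]
  have h2 : ∀ L : ℕ, ζ ^ L = ((Real.cos (m * (2 * π * L / M)) : ℝ) : ℂ) +
      ((Real.sin (m * (2 * π * L / M)) : ℝ) : ℂ) * Complex.I := by
    intro L
    rw [hζ, ← Complex.exp_nat_mul, Complex.ofReal_cos, Complex.ofReal_sin, ← Complex.exp_mul_I]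
    congr 1
    push_cast
    ring
  have h3 : ∑ L ∈ Finset.range M, ζ ^ L =
      ((∑ L ∈ Finset.range M, Real.cos (m * (2 * π * L / M)) : ℝ) : ℂ) +
      ((∑ L ∈ Finset.range M, Real.sin (m * (2 * π * L / M)) : ℝ) : ℂ) * Complex.I := by
    push_cast
    rw [Finset.sum_mul, ← Finset.sum_add_distrib]
    refine Finset.sum_congr rfl fun L _ => ?_
    rw [h2 L]
    push_cast
    ring
  by_cases h4 : ζ = 1
  · rw [h4] at h3
    simp only [one_pow, Finset.sum_const, Finset.card_range, nsmul_eq_mul, mul_one] at h3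
    have hre := congrArg Complex.re h3
    have him := congrArg Complex.im h3
    simp only [Complex.add_re, Complex.mul_re, Complex.ofReal_re, Complex.ofReal_im, Complex.I_re,
      Complex.I_im, Complex.natCast_re, Complex.natCast_im, Complex.add_im, Complex.mul_im] at hre him
    constructor
    · have : (0 : ℝ) ≤ M := Nat.cast_nonneg M
      linarith
    · linarith
  · have h5 : ∑ L ∈ Finset.range M, ζ ^ L = 0 := by
      have := geom_sum_eq h4 M
      rw [this, h1, sub_self, zero_div]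
    rw [h5] at h3
    have hre := congrArg Complex.re h3
    have him := congrArg Complex.im h3
    simp only [Complex.add_re, Complex.mul_re, Complex.ofReal_re, Complex.ofReal_im, Complex.I_re,
      Complex.I_im, Complex.zero_re, Complex.zero_im, Complex.add_im, Complex.mul_im] at hre him
    constructor <;> linarith

theorem cos_pow_sum_le (M : ℕ) (hM : 0 < M) (θ : ℝ) (n : ℕ) : ∀ m : ℤ,
    ∑ L ∈ Finset.range M, Real.cos (m * (2 * π * L / M + θ)) *
        Real.cos (2 * π * L / M + θ) ^ n ≤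
      ∑ L ∈ Finset.range M, Real.cos (m * (2 * π * L / M)) * Real.cos (2 * π * L / M) ^ n := by
  induction n with
  | zero =>
    intro m
    obtain ⟨h1, h2⟩ := root_sum M hM m
    have h3 : ∑ L ∈ Finset.range M, Real.cos (m * (2 * π * L / M + θ)) *
        Real.cos (2 * π * L / M + θ) ^ 0 =
        Real.cos (m * θ) * ∑ L ∈ Finset.range M, Real.cos (m * (2 * π * L / M)) -
        Real.sin (m * θ) * ∑ L ∈ Finset.range M, Real.sin (m * (2 * π * L / M)) := by
      rw [Finset.mul_sum, Finset.mul_sum, ← Finset.sum_sub_distrib]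
      refine Finset.sum_congr rfl fun L _ => ?_
      rw [pow_zero, mul_one, mul_add, Real.cos_add]
      ring
    rw [h3, h2]
    simp only [pow_zero, mul_one, mul_zero, sub_zero]
    have h4 := Real.cos_le_one (m * θ)
    nlinarith
  | succ n ih =>
    intro m
    have key : ∀ x : ℝ, Real.cos (m * x) * Real.cos x ^ (n + 1) =
        1 / 2 * (Real.cos (((m + 1 : ℤ) : ℝ) * x) * Real.cos x ^ n) +
        1 / 2 * (Real.cos (((m - 1 : ℤ) : ℝ) * x) * Real.cos x ^ n) := by
      intro x
      push_cast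
      have h1 : Real.cos ((m + 1) * x) = Real.cos (m * x) * Real.cos x -
          Real.sin (m * x) * Real.sin x := by rw [add_mul, one_mul, Real.cos_add]
      have h2 : Real.cos ((m - 1) * x) = Real.cos (m * x) * Real.cos x +
          Real.sin (m * x) * Real.sin x := by rw [sub_mul, one_mul, Real.cos_sub]
      rw [h1, h2]
      ring
    simp only [key, Finset.sum_add_distrib, ← Finset.mul_sum]
    have h1 := ih (m + 1)
    have h2 := ih (m - 1)
    linarith

/-- Positivity of the Fourier coefficients of `exp (a cos)`. -/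
theorem exp_cos_sum_le (M : ℕ) (hM : 0 < M) {a : ℝ} (ha : 0 ≤ a) (θ : ℝ) :
    ∑ L ∈ Finset.range M, Real.exp (a * Real.cos (2 * π * L / M + θ)) ≤
      ∑ L ∈ Finset.range M, Real.exp (a * Real.cos (2 * π * L / M)) := by
  have h1 : ∀ g : ℕ → ℝ, HasSum (fun n : ℕ => ∑ L ∈ Finset.range M, (a * Real.cos (g L)) ^ n /
      (n.factorial : ℝ)) (∑ L ∈ Finset.range M, Real.exp (a * Real.cos (g L))) := by
    intro g
    refine hasSum_sum fun L _ => ?_
    rw [Real.exp_eq_exp_ℝ]
    exact NormedSpace.expSeries_div_hasSum_exp (a * Real.cos (g L))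
  refine hasSum_le (fun n => ?_) (h1 fun L => 2 * π * L / M + θ) (h1 fun L => 2 * π * L / M)
  have h2 := cos_pow_sum_le M hM θ n 0
  simp only [Int.cast_zero, zero_mul, Real.cos_zero, one_mul] at h2
  have h3 : ∀ g : ℕ → ℝ, ∑ L ∈ Finset.range M, (a * Real.cos (g L)) ^ n / (n.factorial : ℝ) =
      a ^ n / n.factorial * ∑ L ∈ Finset.range M, Real.cos (g L) ^ n := by
    intro g
    rw [Finset.mul_sum]
    refine Finset.sum_congr rfl fun L _ => ?_
    rw [mul_pow]
    ring
  rw [h3 fun L => 2 * π * L / M + θ, h3 fun L => 2 * π * L / M]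
  exact mul_le_mul_of_nonneg_left h2 (by positivity)

/-- `1 - cos` in turns. -/
theorem one_sub_cos {u δ : ℝ} (h0 : 0 ≤ δ) (h1 : δ ≤ |u|) (h2 : |u| ≤ 1 - δ) :
    8 * δ ^ 2 ≤ 1 - Real.cos (2 * π * u) := by
  have h3 : Real.cos (2 * π * u) = 1 - 2 * Real.sin (π * |u|) ^ 2 := by
    rw [← Real.cos_abs, abs_mul, abs_of_pos (by positivity), mul_assoc, Real.cos_two_mul,
      Real.cos_sq']
    ring
  have h4 : 2 * δ ≤ Real.sin (π * |u|) := by
    rcases le_total |u| (1 / 2) with h | h
    · have := Real.mul_le_sin (x := π * |u|) (by positivity) (by nlinarith [Real.pi_pos])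
      have e : 2 / π * (π * |u|) = 2 * |u| := by field_simp
      rw [e] at this
      linarith
    · rw [← Real.sin_pi_sub]
      have := Real.mul_le_sin (x := π - π * |u|) (by nlinarith [Real.pi_pos])
        (by nlinarith [Real.pi_pos])
      have e : 2 / π * (π - π * |u|) = 2 * (1 - |u|) := by field_simp
      rw [e] at this
      linarith
  rw [h3]
  nlinarith

/-- The exponential beats the powers. -/
theorem exists_q0 (k : ℕ) : ∃ q0 : ℕ, ∀ q : ℕ, q0 ≤ q →
    64 * (q : ℝ) ^ (4 * k) * Real.exp (-(q : ℝ) ^ 2 / 4) ≤ 1 / q := by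
  have h1 := (Real.tendsto_pow_mul_exp_neg_atTop_nhds_zero (4 * k + 1)).comp
    (tendsto_natCast_atTop_atTop (R := ℝ))
  have h2 := h1.eventually (ge_mem_nhds (show (0 : ℝ) < 1 / 64 by norm_num))
  obtain ⟨q1, hq1⟩ := Filter.eventually_atTop.1 h2
  refine ⟨max q1 4, fun q hq => ?_⟩
  have h3 := hq1 q (le_trans (le_max_left _ _) hq)
  have h4 : (4 : ℝ) ≤ q := by exact_mod_cast le_trans (le_max_right _ _) hq
  have h5 : Real.exp (-(q : ℝ) ^ 2 / 4) ≤ Real.exp (-(q : ℝ)) :=
    Real.exp_le_exp.2 (by nlinarith)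
  have hq0 : (0 : ℝ) < q := by linarith
  rw [le_div_iff₀ hq0]
  simp only [Function.comp] at h3
  calc 64 * (q : ℝ) ^ (4 * k) * Real.exp (-(q : ℝ) ^ 2 / 4) * q
      = 64 * ((q : ℝ) ^ (4 * k + 1) * Real.exp (-(q : ℝ) ^ 2 / 4)) := by ring
    _ ≤ 64 * ((q : ℝ) ^ (4 * k + 1) * Real.exp (-(q : ℝ))) := by gcongr
    _ ≤ 64 * (1 / 64) := by gcongr
    _ = 1 := by norm_num

end NormRow

end REPS
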