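import Pool.Agent.REPS.Defs

/-! Basic facts on the Cauchy kernel, shared by the files Band, Sh, Pav. -/

open MeasureTheory Filter Topology Real Metric FourierTransform
open scoped ENNReal NNReal InnerProductSpace

namespace REPS

open Helper77.TA

theorem integrable_pk {y : ℝ} (hy : 0 < y) : Integrable (pk y) := by
  refine ⟨(measurable_pk y).aestronglyMeasurable, ?_⟩
  rw [hasFiniteIntegral_iff_ofReal (Eventually.of_forall (pk_nonneg hy)), lintegral_pk hy]
  exact ENNReal.one_lt_top

theorem integral_pk {y : ℝ} (hy : 0 < y) : ∫ t, pk y t = 1 := by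
  rw [integral_eq_lintegral_of_nonneg_ae (Eventually.of_forall (pk_nonneg hy))
    (measurable_pk y).aestronglyMeasurable, lintegral_pk hy, ENNReal.toReal_one]

theorem continuous_pk {y : ℝ} (hy : 0 < y) : Continuous (pk y) := by
  unfold pk
  refine continuous_const.mul (Continuous.inv₀ (by fun_prop) fun t => ?_)
  positivity

theorem pk_neg (y t : ℝ) : pk y (-t) = pk y t := by
  unfold pk
  rw [neg_sq]

end REPS
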